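import Pool.Agent.Lib.MP_c77da8_nt.CP.PrC

/-!
# CP-Pi: Chebyshev's lower bound

PROOF.  Mathlib `Chebyshev.psi_ge : n * log 2 - log (n + 1) ≤ ψ n` and
`Chebyshev.psi_le_primeCounting_mul_log : ψ n ≤ π n * log n`; `pc n = π n` (`Nat.primeCounting`), and `log 2 > 0.6`,
`log (n + 1) ≤ 0.1 n` for large `n`.
-/

set_option autoImplicit false

namespace Pool.CP

open Finset

theorem pc_lower : ∃ Y0 : ℕ, ∀ Y : ℕ, Y0 ≤ Y → (Y : ℝ) / (2 * Real.log Y) ≤ pc Y := by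
  refine ⟨200, fun Y hY => ?_⟩
  have hY' : (200 : ℝ) ≤ (Y : ℝ) := by exact_mod_cast hY
  have hpc : pc Y = (Nat.primeCounting Y : ℝ) := by
    unfold pc
    rw [Nat.primeCounting, Nat.primeCounting', Nat.count_eq_card_filter_range]
    congr 2
    ext n
    simp only [mem_filter, mem_Icc, mem_range]
    constructor
    · rintro ⟨⟨_, h2⟩, h3⟩
      exact ⟨by omega, h3⟩
    · rintro ⟨h1, h3⟩
      exact ⟨⟨h3.one_lt.le, by omega⟩, h3⟩
  have hlog : 0 < Real.log (Y : ℝ) := Real.log_pos (by linarith)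
  have h1 := Chebyshev.psi_ge Y
  have h2 := Chebyshev.psi_le_primeCounting_mul_log Y
  have h3 : Real.log ((Y : ℝ) + 1) ≤ 0.19 * Y := by
    have h4 : Real.log ((Y : ℝ) + 1) ≤ 2 * Real.sqrt ((Y : ℝ) + 1) := by
      have h5 : (Y : ℝ) + 1 = Real.sqrt ((Y : ℝ) + 1) ^ 2 := (Real.sq_sqrt (by linarith)).symm
      have h6 : 0 < Real.sqrt ((Y : ℝ) + 1) := Real.sqrt_pos.2 (by linarith)
      have h7 := Real.log_le_sub_one_of_pos h6
      calc Real.log ((Y : ℝ) + 1) = Real.log (Real.sqrt ((Y : ℝ) + 1) ^ 2) := by rw [← h5]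
        _ = 2 * Real.log (Real.sqrt ((Y : ℝ) + 1)) := by rw [Real.log_pow]; norm_num
        _ ≤ 2 * Real.sqrt ((Y : ℝ) + 1) := by linarith
    have h8 : Real.sqrt ((Y : ℝ) + 1) ≤ 0.095 * Y := by
      rw [Real.sqrt_le_left (by linarith)]
      nlinarith
    linarith
  have h9 := Real.log_two_gt_d9
  rw [hpc, div_le_iff₀ (by positivity)]
  have h10 : (Y : ℝ) * Real.log 2 - Real.log ((Y : ℝ) + 1) ≤
      (Nat.primeCounting Y : ℝ) * Real.log Y := by
    refine le_trans ?_ h2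
    exact_mod_cast h1
  nlinarith

end Pool.CP
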