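import Pool.Agent.Lib.MP_c77da8_nt.CP.Inj
import Pool.Agent.Lib.MP_c77da8_nt.CP.Pi

/-!
# CP-Ana: the sum of the lower bounds

Notation: `a = u 2^t`, `b = g a`, `X = 2^(2 L a)`, `M = 2^i M0 u ≤ 2^K M0 u` (a constant), `V = VV K u t ≥ 1/2^((t+13) K)`
(`Sv.V_lower`), `Y_s = (M X - 2)/s`, `U_s = M X/s + 1`, `s ≤ 2^(16 g a)`.

For every `s` the lower bound `low` gives `#Pset ≥ (9/10) X V/(24 L s)` for large `t`; the sum over `s` is bounded from
below by `cof_sum`.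
-/

set_option autoImplicit false

namespace Pool.CP

open Finset Pool.Agent.Lib.MP_c77da8_nt.Sv

/-- the absolute constant -/
noncomputable def c5 : ℝ := Real.exp (-9) / 200

private theorem poly_le (C : ℝ) (n : ℕ) : ∃ N : ℕ, ∀ a : ℕ, N ≤ a → C * (a : ℝ) ^ n ≤ 2 ^ a := by
  have h1 := tendsto_pow_const_div_const_pow_of_one_lt n (one_lt_two : (1 : ℝ) < 2)
  have hC : 0 < 1 / (|C| + 1) := by positivity
  have h2 := (h1.eventually (gt_mem_nhds hC))
  obtain ⟨N, hN⟩ := Filter.eventually_atTop.1 h2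
  refine ⟨N, fun a ha => ?_⟩
  have h3 := hN a ha
  have h4 : (0 : ℝ) < 2 ^ a := by positivity
  rw [div_lt_div_iff₀ h4 (by positivity), one_mul] at h3
  have h5 : (0 : ℝ) ≤ (a : ℝ) ^ n := by positivity
  have h6 : C * (a : ℝ) ^ n ≤ (|C| + 1) * (a : ℝ) ^ n := by
    refine mul_le_mul_of_nonneg_right ?_ h5
    have := le_abs_self C
    linarith
  linarith

/-- the lower bound for one `s` -/
private theorem ana_s (K u g L t i s B0 U0 Y0 : ℕ) (hK : 1 ≤ K) (hu : 2 ≤ u) (hKu : 2 * K ≤ 2 ^ u)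
    (hg : 1 ≤ g) (hL : 32 * g + 1 ≤ L) (hL2 : 150 * K + 10 ≤ L) (hi : i < K)
    (hlow : ∀ U Y : ℕ, U0 ≤ U → Y ≤ U →
      ((2 ^ i * M0 u : ℕ) : ℝ) * 2 ^ (102 * K * (u * 2 ^ t)) ≤ Real.sqrt U / Real.log U ^ B0 →
      1 / 2 * (pc Y / ((2 ^ i * M0 u : ℕ) : ℝ) * (((u * 2 ^ t : ℕ) : ℝ) * Real.log 2) * VV K u t) -
        (t + 1) * (U / Real.log U ^ (K + 3)) ≤ ((Pset K u t i s Y).card : ℝ))
    (hpc : ∀ Y : ℕ, Y0 ≤ Y → (Y : ℝ) / (2 * Real.log Y) ≤ pc Y)
    (hs1 : 1 ≤ s) (hs2 : s ≤ 2 ^ (16 * (g * (u * 2 ^ t))))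
    (hV : 1 / 2 ^ ((t + 13) * K) ≤ VV K u t)
    (h1 : U0 ≤ 2 ^ (L * (u * 2 ^ t))) (h2 : 2 * Y0 ≤ 2 ^ (L * (u * 2 ^ t)))
    (h3 : 2 * (2 ^ K * M0 u) ≤ 2 ^ (L * (u * 2 ^ t)))
    (h4 : ((2 ^ K * M0 u : ℕ) : ℝ) * (3 * L * ((u * 2 ^ t : ℕ) : ℝ)) ^ B0 ≤ 2 ^ (u * 2 ^ t))
    (h5 : 480 * (L : ℝ) * ((2 ^ K * M0 u : ℕ) : ℝ) * 2 ^ (13 * K) ≤ ((u * 2 ^ t : ℕ) : ℝ)) :
    9 / 10 * (2 ^ (2 * L * (u * 2 ^ t)) * VV K u t / (24 * L)) * (1 / s) ≤
      ((Pset K u t i s ((2 ^ i * M0 u * 2 ^ (2 * L * (u * 2 ^ t)) - 2) / s)).card : ℝ) := by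
  set a : ℕ := u * 2 ^ t with ha
  set M : ℕ := 2 ^ i * M0 u with hM
  set X : ℕ := 2 ^ (2 * L * a) with hX
  have ht1 : t + 1 ≤ 2 ^ t := Nat.lt_two_pow_self
  have h2t : 2 ^ t ≤ a := by
    rw [ha]
    exact Nat.le_mul_of_pos_left _ (by omega)
  have ha1 : 1 ≤ a := by
    have : 1 ≤ 2 ^ t := Nat.one_le_two_pow
    omega
  have hM0 : 0 < M := by
    rw [hM]
    exact Nat.mul_pos (by positivity) (M0_pos u)
  have hMle : M ≤ 2 ^ K * M0 u := by
    rw [hM]
    exact Nat.mul_le_mul_right _ (Nat.pow_le_pow_right (by norm_num) hi.le)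
  have hLa : 1 ≤ L * a := Nat.mul_pos (by omega) ha1
  -- real versions
  have aR : (1 : ℝ) ≤ a := by exact_mod_cast ha1
  have MR : (1 : ℝ) ≤ M := by exact_mod_cast hM0
  have LR : (150 : ℝ) ≤ L := by
    have : 150 ≤ L := by omega
    exact_mod_cast this
  have sR : (1 : ℝ) ≤ s := by exact_mod_cast hs1
  have l2 : (1 : ℝ) / 2 ≤ Real.log 2 := by have := Real.log_two_gt_d9; linarith
  have l2' : Real.log 2 ≤ 1 := by have := Real.log_two_lt_d9; linarith
  have XR : (X : ℝ) = 2 ^ (L * a) * 2 ^ (L * a) := by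
    rw [hX, ← pow_add]
    push_cast
    congr 1
    ring
  have hPow : (1024 : ℝ) ≤ 2 ^ (L * a) := by
    calc (1024 : ℝ) = 2 ^ 10 := by norm_num
      _ ≤ 2 ^ (L * a) := by
          refine pow_le_pow_right₀ (by norm_num) ?_
          calc 10 ≤ L := by omega
            _ ≤ L * a := Nat.le_mul_of_pos_right L ha1
  -- `X / s` is large
  have hsR : (s : ℝ) ≤ 2 ^ (16 * (g * a)) := by exact_mod_cast hs2
  have hXs : (2 : ℝ) ^ ((2 * L - 16 * g) * a) ≤ X / s := by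
    rw [le_div_iff₀ (by linarith)]
    calc (2 : ℝ) ^ ((2 * L - 16 * g) * a) * s ≤ 2 ^ ((2 * L - 16 * g) * a) * 2 ^ (16 * (g * a)) := by
          gcongr
      _ = X := by
          rw [hX, ← pow_add]
          push_cast
          congr 1
          have : (2 * L - 16 * g) + 16 * g = 2 * L := by omega
          calc (2 * L - 16 * g) * a + 16 * (g * a) = ((2 * L - 16 * g) + 16 * g) * a := by ring
            _ = 2 * L * a := by rw [this]
  have hXs2 : (2 : ℝ) ^ (L * a) ≤ X / s := by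
    refine le_trans ?_ hXs
    refine pow_le_pow_right₀ (by norm_num) (Nat.mul_le_mul_right _ (by omega))
  have hMXs : (X : ℝ) / s ≤ M * X / s := by
    gcongr
    have : (0 : ℝ) ≤ X := by positivity
    nlinarith
  have hbig : (2 : ℝ) ^ (L * a) ≤ M * X / s := hXs2.trans hMXs
  -- `U`
  set U : ℕ := M * X / s + 1 with hU
  have hU1 : (M : ℝ) * X / s ≤ U := by
    have := Nat.lt_floor_add_one ((M * X : ℕ) / (s : ℝ) : ℝ)
    rw [Nat.floor_div_eq_div] at this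
    rw [hU]
    push_cast at this ⊢
    exact this.le
  have hU2 : (U : ℝ) ≤ M * X / s + 1 := by
    have := Nat.cast_div_le (α := ℝ) (m := M * X) (n := s)
    rw [hU]
    push_cast at this ⊢
    linarith
  have hU3 : (U : ℝ) ≤ 2 * (M * X / s) := by linarith
  have hUX : (U : ℝ) ≤ 2 * (M * X) := by
    refine hU3.trans ?_
    have : (M : ℝ) * X / s ≤ M * X := div_le_self (by positivity) sR
    linarith
  have hUlow : (2 : ℝ) ^ (L * a) ≤ U := hbig.trans hU1
  have hUpos : (0 : ℝ) < U := by linarith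
  -- the logarithm of `2 M X`
  have hMX : 2 * ((M : ℝ) * X) ≤ 2 ^ (3 * (L * a)) := by
    have h6 : (2 : ℝ) * M ≤ 2 ^ (L * a) := by
      have : 2 * M ≤ 2 ^ (L * a) := (Nat.mul_le_mul_left 2 hMle).trans h3
      exact_mod_cast this
    calc 2 * ((M : ℝ) * X) = (2 * M) * X := by ring
      _ ≤ 2 ^ (L * a) * X := by gcongr
      _ = 2 ^ (3 * (L * a)) := by rw [XR]; ring
  have hlogU : Real.log U ≤ 3 * L * a * Real.log 2 := by
    calc Real.log U ≤ Real.log (2 ^ (3 * (L * a))) := Real.log_le_log hUpos (hUX.trans hMX)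
      _ = 3 * L * a * Real.log 2 := by
          rw [Real.log_pow]
          push_cast
          ring
  have hlogU2 : (L : ℝ) * a * Real.log 2 ≤ Real.log U := by
    calc (L : ℝ) * a * Real.log 2 = Real.log (2 ^ (L * a)) := by
          rw [Real.log_pow]
          push_cast
          ring
      _ ≤ Real.log U := Real.log_le_log (by positivity) hUlow
  have hLaR : (150 : ℝ) ≤ L * a := by nlinarith
  have hlogUpos : (1 : ℝ) ≤ Real.log U := by
    have : (1 : ℝ) ≤ (L : ℝ) * a * Real.log 2 := by nlinarith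
    linarith
  -- the condition of the Bombieri-Vinogradov theorem
  have hBV : ((2 ^ i * M0 u : ℕ) : ℝ) * 2 ^ (102 * K * (u * 2 ^ t)) ≤
      Real.sqrt U / Real.log U ^ B0 := by
    rw [← hM, ← ha, le_div_iff₀ (by positivity)]
    have h6 : Real.log U ^ B0 ≤ (3 * L * (a : ℝ)) ^ B0 := by
      refine pow_le_pow_left₀ (by linarith) (hlogU.trans ?_) _
      have : (0 : ℝ) ≤ 3 * L * a := by positivity
      nlinarith
    have h7 : (M : ℝ) * (3 * L * (a : ℝ)) ^ B0 ≤ 2 ^ a := by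
      refine le_trans ?_ h4
      have : (M : ℝ) ≤ ((2 ^ K * M0 u : ℕ) : ℝ) := by exact_mod_cast hMle
      gcongr
    have h8 : (2 : ℝ) ^ ((L - 8 * g) * a) ≤ Real.sqrt U := by
      apply Real.le_sqrt_of_sq_le
      rw [← pow_mul]
      refine le_trans ?_ ((hXs.trans hMXs).trans hU1)
      refine pow_le_pow_right₀ (by norm_num) ?_
      have : 2 * (L - 8 * g) = 2 * L - 16 * g := by omega
      calc (L - 8 * g) * a * 2 = (2 * (L - 8 * g)) * a := by ring
        _ = (2 * L - 16 * g) * a := by rw [this]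
        _ ≤ _ := le_refl _
    calc (M : ℝ) * 2 ^ (102 * K * a) * Real.log U ^ B0
        ≤ (M : ℝ) * 2 ^ (102 * K * a) * (3 * L * (a : ℝ)) ^ B0 := by gcongr
      _ = (M : ℝ) * (3 * L * (a : ℝ)) ^ B0 * 2 ^ (102 * K * a) := by ring
      _ ≤ 2 ^ a * 2 ^ (102 * K * a) := by gcongr
      _ = 2 ^ ((102 * K + 1) * a) := by
          rw [← pow_add]
          congr 1
          ring
      _ ≤ 2 ^ ((L - 8 * g) * a) :=
          pow_le_pow_right₀ (by norm_num) (Nat.mul_le_mul_right _ (by omega))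
      _ ≤ Real.sqrt U := h8
  -- `Y`
  set Y : ℕ := (M * X - 2) / s with hY
  have hYU : Y ≤ U := by
    rw [hY, hU]
    exact (Nat.div_le_div_right (Nat.sub_le _ _)).trans (Nat.le_succ _)
  have hMX2 : 2 ≤ M * X := by
    have h6 : 1 ≤ M := hM0
    have h7 : 2 ≤ X := by
      rw [hX]
      calc 2 = 2 ^ 1 := by norm_num
        _ ≤ 2 ^ (2 * L * a) := Nat.pow_le_pow_right (by norm_num) (by nlinarith)
    nlinarith
  have hYlow : (M : ℝ) * X / s / 2 ≤ Y := by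
    have h6 := Nat.lt_floor_add_one ((M * X - 2 : ℕ) / (s : ℝ) : ℝ)
    rw [Nat.floor_div_eq_div, Nat.cast_sub hMX2] at h6
    push_cast at h6
    rw [sub_div] at h6
    have h7 : (2 : ℝ) / s ≤ 2 := div_le_self (by norm_num) sR
    have h8 : ((Y : ℕ) : ℝ) = (((M * X - 2) / s : ℕ) : ℝ) := by rw [hY]
    rw [h8]
    linarith
  have hY0 : Y0 ≤ Y := by
    have h6 : (2 : ℝ) * Y0 ≤ 2 ^ (L * a) := by exact_mod_cast h2
    have h7 : (Y0 : ℝ) ≤ Y := by linarith
    exact_mod_cast h7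
  have hYpos : (512 : ℝ) ≤ Y := by linarith
  have hlogY : Real.log Y ≤ 3 * L * a * Real.log 2 := by
    refine le_trans ?_ hlogU
    exact Real.log_le_log (by linarith) (by exact_mod_cast hYU)
  have hlogYpos : 0 < Real.log Y := Real.log_pos (by linarith)
  have hpcY : (M : ℝ) * X / (12 * s * L * a * Real.log 2) ≤ pc Y := by
    refine le_trans ?_ (hpc Y hY0)
    rw [le_div_iff₀ (by positivity)]
    have hden : 0 < 12 * (s : ℝ) * L * a * Real.log 2 := by positivity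
    calc (M : ℝ) * X / (12 * s * L * a * Real.log 2) * (2 * Real.log Y)
        ≤ (M : ℝ) * X / (12 * s * L * a * Real.log 2) * (2 * (3 * L * a * Real.log 2)) := by
          gcongr
      _ = (M : ℝ) * X / s / 2 := by
          field_simp
          ring
      _ ≤ Y := hYlow
  -- `V`
  have hVpos : 0 < VV K u t := lt_of_lt_of_le (by positivity) hV
  have hVa : 1 / (2 ^ (13 * K) * (a : ℝ) ^ K) ≤ VV K u t := by
    refine le_trans ?_ hV
    apply one_div_le_one_div_of_le (by positivity)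
    have h6 : (2 : ℝ) ^ ((t + 13) * K) = 2 ^ (13 * K) * (2 ^ t) ^ K := by
      rw [← pow_mul, ← pow_add]
      congr 1
      ring
    rw [h6]
    have h7 : (2 : ℝ) ^ t ≤ a := by exact_mod_cast h2t
    gcongr
  -- the main term
  have hmain : (X : ℝ) * VV K u t / (24 * L) * (1 / s) ≤
      1 / 2 * (pc Y / (M : ℝ) * ((a : ℝ) * Real.log 2) * VV K u t) := by
    calc (X : ℝ) * VV K u t / (24 * L) * (1 / s)
        = 1 / 2 * ((M : ℝ) * X / (12 * s * L * a * Real.log 2) / (M : ℝ) *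
            ((a : ℝ) * Real.log 2) * VV K u t) := by
          field_simp
          ring
      _ ≤ _ := by gcongr
  -- the error term
  have herr : ((t : ℝ) + 1) * (U / Real.log U ^ (K + 3)) ≤
      1 / 10 * ((X : ℝ) * VV K u t / (24 * L) * (1 / s)) := by
    have h6 : (a : ℝ) ^ (K + 3) ≤ Real.log U ^ (K + 3) := by
      refine pow_le_pow_left₀ (by linarith) (le_trans ?_ hlogU2) _
      nlinarith
    have h7 : (t : ℝ) + 1 ≤ a := by
      have : t + 1 ≤ a := ht1.trans h2t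
      exact_mod_cast this
    have h8 : ((t : ℝ) + 1) * (U / Real.log U ^ (K + 3)) ≤
        (a : ℝ) * (2 * (M * X / s) / (a : ℝ) ^ (K + 3)) := by
      have h9 : (0 : ℝ) ≤ U := hUpos.le
      gcongr
    refine h8.trans ?_
    have h10 : (X : ℝ) * (1 / (2 ^ (13 * K) * (a : ℝ) ^ K)) / (24 * L) * (1 / s) ≤
        (X : ℝ) * VV K u t / (24 * L) * (1 / s) := by gcongr
    refine le_trans ?_ (mul_le_mul_of_nonneg_left h10 (by norm_num : (0 : ℝ) ≤ 1 / 10))
    have hMR : (M : ℝ) ≤ ((2 ^ K * M0 u : ℕ) : ℝ) := by exact_mod_cast hMle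
    have h11 : 480 * (L : ℝ) * M * 2 ^ (13 * K) ≤ a := by
      refine le_trans ?_ h5
      gcongr
    have e1 : (a : ℝ) * (2 * (M * X / s) / (a : ℝ) ^ (K + 3)) =
        (480 * (L : ℝ) * M * 2 ^ (13 * K)) * (X / (240 * L * 2 ^ (13 * K) * (a : ℝ) ^ (K + 2) * s)) := by
      field_simp
      ring
    have e2 : 1 / 10 * ((X : ℝ) * (1 / (2 ^ (13 * K) * (a : ℝ) ^ K)) / (24 * L) * (1 / s)) =
        ((a : ℝ) * a) * (X / (240 * L * 2 ^ (13 * K) * (a : ℝ) ^ (K + 2) * s)) := by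
      field_simp
      ring
    rw [e1, e2]
    refine mul_le_mul_of_nonneg_right ?_ (by positivity)
    nlinarith
  have hfin := hlow U Y (by
    have h6 : (U0 : ℝ) ≤ U := by
      have : (U0 : ℝ) ≤ 2 ^ (L * a) := by exact_mod_cast h1
      linarith
    exact_mod_cast h6) hYU hBV
  have hXc : ((2 : ℝ) ^ (2 * L * a)) = X := by
    rw [hX]
    push_cast
    rfl
  rw [hXc]
  refine le_trans ?_ hfin
  linarith

theorem ana (K u g L : ℕ) (hK : 1 ≤ K) (hu : 2 ≤ u) (hKu : 2 * K ≤ 2 ^ u) (hg : 1 ≤ g)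
    (hL : 32 * g + 1 ≤ L) (hL2 : 150 * K + 10 ≤ L) : ∃ t0 : ℕ, ∀ t : ℕ, t0 ≤ t → ∀ i < K,
    c5 * ((g : ℝ) / L) * (2 ^ (2 * L * (u * 2 ^ t)) * VV K u t) + 2 ^ ((2 * L - 1) * (u * 2 ^ t)) ≤
      ∑ s ∈ cof (u * 2 ^ t) (g * (u * 2 ^ t)),
        ((Pset K u t i s ((2 ^ i * M0 u * 2 ^ (2 * L * (u * 2 ^ t)) - 2) / s)).card : ℝ) := by
  obtain ⟨B0, U0, hlow⟩ := low K (K + 3) hK
  obtain ⟨Y0, hpc⟩ := pc_lower
  set Mm : ℕ := 2 ^ K * M0 u with hMm
  obtain ⟨N1, hN1⟩ := poly_le ((Mm : ℝ) * (3 * L) ^ B0) B0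
  have he9 : 0 < Real.exp (-9) := Real.exp_pos _
  obtain ⟨N2, hN2⟩ := poly_le (2 ^ (13 * K) * (240 * L / (Real.exp (-9) * g))) K
  obtain ⟨N3, hN3⟩ := exists_nat_ge (480 * (L : ℝ) * (Mm : ℝ) * 2 ^ (13 * K))
  refine ⟨N1 + N2 + N3 + U0 + 2 * Y0 + 2 * Mm, fun t ht i hi => ?_⟩
  set a : ℕ := u * 2 ^ t with ha
  have h2t : 2 ^ t ≤ a := by
    rw [ha]
    exact Nat.le_mul_of_pos_left _ (by omega)
  have hta : t ≤ a := (Nat.lt_two_pow_self).le.trans h2t
  have ha1 : 1 ≤ a := by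
    have : 1 ≤ 2 ^ t := Nat.one_le_two_pow
    omega
  have aR : (1 : ℝ) ≤ a := by exact_mod_cast ha1
  have hLpos : 1 ≤ L := by omega
  have LR : (1 : ℝ) ≤ L := by exact_mod_cast hLpos
  have gR : (1 : ℝ) ≤ g := by exact_mod_cast hg
  have hpowa : a < 2 ^ (L * a) :=
    lt_of_lt_of_le Nat.lt_two_pow_self
      (Nat.pow_le_pow_right (by norm_num) (Nat.le_mul_of_pos_left a hLpos))
  have hV : 1 / 2 ^ ((t + 13) * K) ≤ VV K u t := V_lower K u t hK hKu (by omega) (Bd K u)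
    (fun j q hq => Bd_card K u q (by omega) (mem_blk.1 hq).1 (blk_gt hq))
  have hVpos : 0 < VV K u t := lt_of_lt_of_le (by positivity) hV
  have hVa : 1 / (2 ^ (13 * K) * (a : ℝ) ^ K) ≤ VV K u t := by
    refine le_trans ?_ hV
    apply one_div_le_one_div_of_le (by positivity)
    have h6 : (2 : ℝ) ^ ((t + 13) * K) = 2 ^ (13 * K) * (2 ^ t) ^ K := by
      rw [← pow_mul, ← pow_add]
      congr 1
      ring
    rw [h6]
    have h7 : (2 : ℝ) ^ t ≤ a := by exact_mod_cast h2t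
    gcongr
  have hper : ∀ s ∈ cof a (g * a),
      9 / 10 * (2 ^ (2 * L * a) * VV K u t / (24 * L)) * (1 / s) ≤
      ((Pset K u t i s ((2 ^ i * M0 u * 2 ^ (2 * L * a) - 2) / s)).card : ℝ) := by
    intro s hs
    obtain ⟨⟨hs1, hs2⟩, hs3, hs4, hs5⟩ := mem_cof.1 hs
    refine ana_s K u g L t i s B0 U0 Y0 hK hu hKu hg hL hL2 hi ?_ hpc hs1 hs2 hV ?_ ?_ ?_ ?_ ?_
    · intro U Y hU hY hBV
      exact hlow u t i s U Y hU hu hKu hi (by omega) (fun p hp => (hs5 p hp).1) hY hBV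
    · exact le_trans (by omega) hpowa.le
    · exact le_trans (by omega) hpowa.le
    · exact le_trans (by omega) hpowa.le
    · have h := hN1 a (by omega)
      calc ((2 ^ K * M0 u : ℕ) : ℝ) * (3 * L * ((u * 2 ^ t : ℕ) : ℝ)) ^ B0
          = (Mm : ℝ) * (3 * L) ^ B0 * (a : ℝ) ^ B0 := by
            rw [← hMm, ← ha]
            ring
        _ ≤ 2 ^ a := h
    · refine hN3.trans ?_
      exact_mod_cast (by omega : N3 ≤ a)
  have hsum : 9 / 10 * (2 ^ (2 * L * a) * VV K u t / (24 * L)) * (Real.exp (-9) / 4 * g) ≤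
      ∑ s ∈ cof a (g * a),
        ((Pset K u t i s ((2 ^ i * M0 u * 2 ^ (2 * L * a) - 2) / s)).card : ℝ) := by
    have hc := cof_sum a (g * a) ha1 (Nat.le_mul_of_pos_left a hg)
    have h6 : (((g * a : ℕ) : ℝ) / a) = g := by
      push_cast
      field_simp
    rw [h6] at hc
    calc 9 / 10 * (2 ^ (2 * L * a) * VV K u t / (24 * L)) * (Real.exp (-9) / 4 * g)
        ≤ 9 / 10 * (2 ^ (2 * L * a) * VV K u t / (24 * L)) * ∑ s ∈ cof a (g * a), (1 : ℝ) / s := by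
          gcongr
      _ = ∑ s ∈ cof a (g * a), 9 / 10 * (2 ^ (2 * L * a) * VV K u t / (24 * L)) * (1 / s) := by
          rw [mul_sum]
      _ ≤ _ := sum_le_sum hper
  refine le_trans ?_ hsum
  have hX0 : (0 : ℝ) < 2 ^ (2 * L * a) := by positivity
  -- the small term
  have hsmall : (2 : ℝ) ^ ((2 * L - 1) * a) ≤
      Real.exp (-9) * g / (240 * L) * (2 ^ (2 * L * a) * VV K u t) := by
    have e1 : (2 : ℝ) ^ (2 * L * a) = 2 ^ ((2 * L - 1) * a) * 2 ^ a := by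
      rw [← pow_add]
      congr 1
      have : 2 * L = (2 * L - 1) + 1 := by omega
      calc 2 * L * a = ((2 * L - 1) + 1) * a := by rw [← this]
        _ = _ := by ring
    have h := hN2 a (by omega)
    have hpos : 0 < 2 ^ (13 * K) * (a : ℝ) ^ K := by positivity
    have h7 : 240 * L / (Real.exp (-9) * g) ≤ 2 ^ a * VV K u t := by
      calc 240 * L / (Real.exp (-9) * g)
          = (2 ^ (13 * K) * (240 * L / (Real.exp (-9) * g)) * (a : ℝ) ^ K) *
              (1 / (2 ^ (13 * K) * (a : ℝ) ^ K)) := by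
            field_simp
        _ ≤ 2 ^ a * VV K u t := by
            refine mul_le_mul h hVa (by positivity) (by positivity)
    have h8 : 1 ≤ Real.exp (-9) * g / (240 * L) * (2 ^ a * VV K u t) := by
      calc (1 : ℝ) = Real.exp (-9) * g / (240 * L) * (240 * L / (Real.exp (-9) * g)) := by
            field_simp
        _ ≤ _ := mul_le_mul_of_nonneg_left h7 (by positivity)
    rw [e1]
    calc (2 : ℝ) ^ ((2 * L - 1) * a) = 2 ^ ((2 * L - 1) * a) * 1 := (mul_one _).symm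
      _ ≤ 2 ^ ((2 * L - 1) * a) * (Real.exp (-9) * g / (240 * L) * (2 ^ a * VV K u t)) := by
          gcongr
      _ = _ := by ring
  have hc5 : c5 * ((g : ℝ) / L) * (2 ^ (2 * L * a) * VV K u t) +
      Real.exp (-9) * g / (240 * L) * (2 ^ (2 * L * a) * VV K u t) ≤
      9 / 10 * (2 ^ (2 * L * a) * VV K u t / (24 * L)) * (Real.exp (-9) / 4 * g) := by
    unfold c5
    have e2 : Real.exp (-9) / 200 * ((g : ℝ) / L) * (2 ^ (2 * L * a) * VV K u t) +
        Real.exp (-9) * g / (240 * L) * (2 ^ (2 * L * a) * VV K u t) =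
        (1 / 200 + 1 / 240) * (Real.exp (-9) * g / L * (2 ^ (2 * L * a) * VV K u t)) := by
      field_simp
    have e3 : 9 / 10 * (2 ^ (2 * L * a) * VV K u t / (24 * L)) * (Real.exp (-9) / 4 * g) =
        (9 / 960) * (Real.exp (-9) * g / L * (2 ^ (2 * L * a) * VV K u t)) := by
      field_simp
      ring
    rw [e2, e3]
    refine mul_le_mul_of_nonneg_right (by norm_num) (by positivity)
  linarith

end Pool.CP
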