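import Pool.Agent.Lib.MP_c77da8_nt.CP.Gi

/-!
# CP-Avg: a survivor with many good indices, containing a progression

PROOF.  Let `a = u 2^t`, `X = 2^(2 L a)`, `V = VV K u t`, `T = {v < X | Surv K u t v}`.  By `Sv.sieve_blk` (with `M = 1`, `v = 0`,
`N = X`; `Bd_card`, `Bd_lt`): `#T ≤ 2 X V + 2^(204 K a) ≤ 3 X V` for large `t`, as `V ≥ 1/2^((t+13) K)` (`V_lower`) and
`2 L ≥ 204 K + 1`.  For `v ∈ T` put `I_v = {i < K | v ∈ GG K u t g L i}`.  If all `#I_v < σ K` then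
`∑_{i < K} #(GG .. i) = ∑_{v ∈ T} #I_v ≤ σ K #T ≤ 3 σ K X V`, but it is `≥ K c5 (g/L) X V` by `gg_low`; `X V > 0`, `3 σ < c5 g/L`:
contradiction.  So some `v ∈ T` has `σ K ≤ #I_v`, and `hsz` gives the progression (every `a0 + j d ∈ I_v`).
-/

set_option autoImplicit false

namespace Pool.CP

open Finset Pool.Agent.Lib.MP_c77da8_nt.Sv

theorem card_T (K u L t : ℕ) (hK : 1 ≤ K) (hu : 2 ≤ u) (hKu : 2 * K ≤ 2 ^ u)
    (hL2 : 150 * K + 10 ≤ L) (T : Finset ℕ)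
    (hT : ∀ v ∈ T, v < 2 ^ (2 * L * (u * 2 ^ t)) ∧ Surv K u t v) :
    0 < (2 : ℝ) ^ (2 * L * (u * 2 ^ t)) * VV K u t ∧
    (T.card : ℝ) ≤ 3 * (2 ^ (2 * L * (u * 2 ^ t)) * VV K u t) := by
  have hu1 : 1 ≤ u := by omega
  have hB : ∀ j, ∀ q ∈ blk u t j, (Bd K u q).card ≤ K := fun j q hq =>
    Bd_card K u q hu1 (mem_blk.1 hq).1 (blk_gt hq)
  have h1 := (sieve_blk K u t hK hKu hu1 (Bd K u) hB (fun j q _ => Bd_lt K u q)
    (2 ^ (2 * L * (u * 2 ^ t))) 1 0 one_pos (fun j q _ => Nat.coprime_one_left q)).2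
  have h2 := V_lower K u t hK hKu hu1 (Bd K u) hB
  have hV : (1 : ℝ) / 2 ^ ((t + 13) * K) ≤ VV K u t := h2
  have h3 : (T.card : ℝ) ≤ (((range (2 ^ (2 * L * (u * 2 ^ t)))).filter fun m => m ≡ 0 [MOD 1] ∧
        ∀ j, ∀ q ∈ blk u t j, m % q ∉ Bd K u q).card : ℝ) := by
    have h4 : T ⊆ (range (2 ^ (2 * L * (u * 2 ^ t)))).filter fun m => m ≡ 0 [MOD 1] ∧
        ∀ j, ∀ q ∈ blk u t j, m % q ∉ Bd K u q := by
      intro v hv
      rw [mem_filter, mem_range]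
      exact ⟨(hT v hv).1, Nat.modEq_one, (hT v hv).2⟩
    exact_mod_cast card_le_card h4
  have h5 : (2 : ℝ) ^ (204 * K * (u * 2 ^ t)) ≤ 2 ^ (2 * L * (u * 2 ^ t)) * VV K u t := by
    have h6 : (t + 13) * K + 204 * K * (u * 2 ^ t) ≤ 2 * L * (u * 2 ^ t) := by
      have ha : t + 1 ≤ 2 ^ t := Nat.lt_two_pow_self
      have hb : 2 * (t + 1) ≤ u * 2 ^ t := Nat.mul_le_mul hu ha
      have hc : (2 * (150 * K + 10)) * (u * 2 ^ t) ≤ 2 * L * (u * 2 ^ t) :=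
        Nat.mul_le_mul_right _ (by omega)
      have hd : (t + 13) * K ≤ (u * 2 ^ t * 96) * K := Nat.mul_le_mul_right _ (by omega)
      have he : (u * 2 ^ t * 96) * K + 204 * K * (u * 2 ^ t) ≤ (2 * (150 * K + 10)) * (u * 2 ^ t) := by
        have : (2 * (150 * K + 10)) * (u * 2 ^ t) =
          (u * 2 ^ t * 96) * K + 204 * K * (u * 2 ^ t) + 20 * (u * 2 ^ t) := by ring
        omega
      omega
    calc (2 : ℝ) ^ (204 * K * (u * 2 ^ t))
        = 2 ^ ((t + 13) * K + 204 * K * (u * 2 ^ t)) * (1 / 2 ^ ((t + 13) * K)) := by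
          rw [pow_add]
          field_simp
      _ ≤ 2 ^ (2 * L * (u * 2 ^ t)) * VV K u t := by
          refine mul_le_mul (pow_le_pow_right₀ (by norm_num) h6) hV (by positivity) (by positivity)
  have h7 : (0 : ℝ) < 2 ^ (204 * K * (u * 2 ^ t)) := by positivity
  refine ⟨by linarith, ?_⟩
  have h8 : (((2 ^ (2 * L * (u * 2 ^ t)) : ℕ) : ℝ) / ((1 : ℕ) : ℝ) *
      ∏ j, ∏ q ∈ blk u t j, (1 - ((Bd K u q).card : ℝ) / q)) =
      2 ^ (2 * L * (u * 2 ^ t)) * VV K u t := by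
    unfold VV
    push_cast
    rw [div_one]
  rw [h8] at h1
  linarith

theorem avg (k : ℕ) (K u g L : ℕ) (hK : 1 ≤ K) (hu : 2 ≤ u) (hKu : 2 * K ≤ 2 ^ u)
    (hg : 1 ≤ g) (hL : 32 * g + 1 ≤ L) (hL2 : 150 * K + 10 ≤ L) (σ : ℝ) (hσ : 0 < σ)
    (hσ2 : 4 * σ ≤ c5 * ((g : ℝ) / L))
    (hsz : ∀ S : Finset ℕ, S ⊆ range K → σ * K ≤ S.card →
      ∃ a d : ℕ, 1 ≤ d ∧ ∀ j < k, a + j * d ∈ S) :
    ∃ t0 : ℕ, ∀ t : ℕ, t0 ≤ t → ∃ v a d : ℕ, 1 ≤ d ∧ ∀ j < k, a + j * d < K ∧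
      v ∈ GG K u t g L (a + j * d) := by
  classical
  obtain ⟨t0, h0⟩ := gg_low K u g L hK hu hKu hg hL hL2
  refine ⟨t0, fun t ht => ?_⟩
  have h1 := h0 t ht
  set T : Finset ℕ := (range (2 ^ (2 * L * (u * 2 ^ t)))).filter fun v => Surv K u t v with hTdef
  have hT : ∀ v ∈ T, v < 2 ^ (2 * L * (u * 2 ^ t)) ∧ Surv K u t v := by
    intro v hv
    rw [hTdef, mem_filter, mem_range] at hv
    exact hv
  obtain ⟨hpos, hcard⟩ := card_T K u L t hK hu hKu hL2 T hT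
  by_contra hno
  have hI : ∀ v, (((range K).filter fun i => v ∈ GG K u t g L i).card : ℝ) < σ * K := by
    intro v
    by_contra hge
    obtain ⟨a, d, hd, had⟩ := hsz _ (filter_subset _ _) (not_lt.1 hge)
    refine hno ⟨v, a, d, hd, fun j hj => ?_⟩
    have := had j hj
    rw [mem_filter, mem_range] at this
    exact this
  have hsum : ∑ i ∈ range K, ((GG K u t g L i).card : ℝ) =
      ∑ v ∈ T, (((range K).filter fun i => v ∈ GG K u t g L i).card : ℝ) := by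
    have h2 : ∀ i ∈ range K, ((GG K u t g L i).card : ℝ) =
        ∑ v ∈ T, (if v ∈ GG K u t g L i then (1 : ℝ) else 0) := by
      intro i _
      rw [← sum_filter, sum_const, nsmul_eq_mul, mul_one]
      congr 2
      ext v
      rw [mem_filter, hTdef, mem_filter, mem_range]
      constructor
      · intro hv
        have := mem_GG.1 hv
        exact ⟨⟨this.1.2, this.2.1⟩, hv⟩
      · exact fun hv => hv.2
    rw [sum_congr rfl h2, sum_comm]
    refine sum_congr rfl fun v _ => ?_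
    rw [← sum_filter, sum_const, nsmul_eq_mul, mul_one]
  have hlow : (K : ℝ) * (c5 * ((g : ℝ) / L) * (2 ^ (2 * L * (u * 2 ^ t)) * VV K u t)) ≤
      ∑ i ∈ range K, ((GG K u t g L i).card : ℝ) := by
    have h2 : ∑ i ∈ range K, (c5 * ((g : ℝ) / L) * (2 ^ (2 * L * (u * 2 ^ t)) * VV K u t)) ≤
        ∑ i ∈ range K, ((GG K u t g L i).card : ℝ) :=
      sum_le_sum fun i hi => h1 i (mem_range.1 hi)
    rw [sum_const, card_range, nsmul_eq_mul] at h2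
    exact h2
  have hup : ∑ i ∈ range K, ((GG K u t g L i).card : ℝ) ≤ (T.card : ℝ) * (σ * K) := by
    rw [hsum]
    have h2 : ∑ v ∈ T, (((range K).filter fun i => v ∈ GG K u t g L i).card : ℝ) ≤
        ∑ v ∈ T, σ * K := sum_le_sum fun v _ => (hI v).le
    rw [sum_const, nsmul_eq_mul] at h2
    exact h2
  have hKr : (0 : ℝ) < K := by exact_mod_cast hK
  set W : ℝ := 2 ^ (2 * L * (u * 2 ^ t)) * VV K u t with hW
  have h3 : (K : ℝ) * (4 * σ * W) ≤ (K : ℝ) * (c5 * ((g : ℝ) / L) * W) :=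
    mul_le_mul_of_nonneg_left (mul_le_mul_of_nonneg_right hσ2 hpos.le) hKr.le
  have h4 : (T.card : ℝ) * (σ * K) ≤ 3 * W * (σ * K) :=
    mul_le_mul_of_nonneg_right hcard (by positivity)
  have h5 : 0 < K * (σ * W) := by positivity
  nlinarith

end Pool.CP
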