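import Pool.Agent.Lib.BV.PrimDy

/-!
# CP-BvBig: primitive characters with large conductors

PROOF.  Cover `(Q1, Q2]` by the dyadic intervals `(2^i Q1, 2^(i+1) Q1]`, `i < I`, `I ≤ 2 log X` for large `X` (`2^i Q1 < Q2 ≤ X`; split the sum), and use `prim_dyadic` with
`R = 2^i Q1 < Q2`, `U = ⌊X^(1/10)⌋` (`U^2 ≤ X`; `√U ≥ X^(1/20)/2`): each is at most
`C (log X)^D (X/(2^i Q1) + 2 X^(19/20) + X^(1/10 + 3/10 + 1/2) + X^(1/10 + 6/10))`.  Sum over `i`: `∑ X/(2^i Q1) ≤ 2 X/Q1`; the others are `≤ 4 X^(19/20)` each, times `I`.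
The factor `C` and `I` are absorbed by a larger `D`.
-/

set_option autoImplicit false

namespace Pool.CP

open Finset

/-- summation over dyadic intervals -/
private theorem BvBig_dy (f : ℕ → ℝ) (hf : ∀ q, 0 ≤ f q) (A B : ℝ) (hA : 0 ≤ A) (hB : 0 ≤ B) (Q2 : ℕ)
    (h : ∀ R : ℕ, 1 ≤ R → R < Q2 → ∑ q ∈ Ioc R (2 * R), f q ≤ A / R + B) (n : ℕ) :
    ∀ Q1 : ℕ, 1 ≤ Q1 → Q2 ≤ 2 ^ n * Q1 → ∑ q ∈ Ioc Q1 Q2, f q ≤ 2 * A / Q1 + n * B := by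
  induction n with
  | zero =>
    intro Q1 h1 h2
    rw [pow_zero, one_mul] at h2
    rw [Ioc_eq_empty (by omega), sum_empty]
    positivity
  | succ n ih =>
    intro Q1 h1 h2
    rcases le_or_gt Q2 Q1 with h3 | h3
    · rw [Ioc_eq_empty (by omega), sum_empty]
      positivity
    · have h4 : ∑ q ∈ Ioc Q1 Q2, f q ≤ ∑ q ∈ Ioc Q1 (2 * Q1), f q + ∑ q ∈ Ioc (2 * Q1) Q2, f q := by
        have h5 : Ioc Q1 Q2 ⊆ Ioc Q1 (2 * Q1) ∪ Ioc (2 * Q1) Q2 := by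
          intro q hq
          rw [mem_union, mem_Ioc, mem_Ioc]
          rw [mem_Ioc] at hq
          omega
        refine (sum_le_sum_of_subset_of_nonneg h5 fun q _ _ => hf q).trans ?_
        rw [← sum_union_inter]
        exact le_add_of_nonneg_right (sum_nonneg fun q _ => hf q)
      have h6 := h Q1 h1 h3
      have h7 := ih (2 * Q1) (by omega) (by rw [pow_succ] at h2; linarith)
      have hq : (0 : ℝ) < Q1 := by exact_mod_cast h1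
      have h8 : 2 * A / ((2 * Q1 : ℕ) : ℝ) = A / Q1 := by
        push_cast
        field_simp
      rw [h8] at h7
      have h9 : 2 * A / (Q1 : ℝ) = A / Q1 + A / Q1 := by ring
      rw [h9]
      push_cast
      linarith

/-- the number of the dyadic intervals -/
private theorem BvBig_log {X Q2 : ℕ} (hX : 3 ≤ X) (hQ : Q2 ≤ X) :
    ((Nat.log 2 Q2 + 1 : ℕ) : ℝ) ≤ 3 * Real.log X := by
  have hXr : (3 : ℝ) ≤ X := by exact_mod_cast hX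
  have hL : 1 ≤ Real.log X := by
    rw [Real.le_log_iff_exp_le (by linarith)]
    have := Real.exp_one_lt_d9
    linarith
  rcases Nat.eq_zero_or_pos Q2 with h0 | h0
  · rw [h0, Nat.log_zero_right]
    push_cast
    linarith
  · have h1 : 2 ^ Nat.log 2 Q2 ≤ Q2 := Nat.pow_log_le_self 2 h0.ne'
    have h2 : ((2 : ℝ)) ^ Nat.log 2 Q2 ≤ X := by
      have : 2 ^ Nat.log 2 Q2 ≤ X := h1.trans hQ
      exact_mod_cast this
    have h3 := Real.log_le_log (by positivity) h2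
    rw [Real.log_pow] at h3
    have h4 := Real.log_two_gt_d9
    have h5 : (0 : ℝ) ≤ (Nat.log 2 Q2 : ℝ) := Nat.cast_nonneg _
    push_cast
    nlinarith

private theorem BvBig_pow {X a b : ℝ} (hX : 1 ≤ X) (h : a ≤ b) : X ^ a ≤ X ^ b :=
  Real.rpow_le_rpow_of_exponent_le hX h

/-- the error terms -/
private theorem BvBig_err {X U : ℕ} {R : ℝ} (hX : 3 ≤ X) (hU : U = ⌊(X : ℝ) ^ (1 / 10 : ℝ)⌋₊) (hR0 : 0 ≤ R)
    (hR : R ≤ (X : ℝ) ^ (3 / 10 : ℝ)) :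
    1 ≤ U ∧ U ^ 2 ≤ X ∧ X / Real.sqrt U + U * R * Real.sqrt X + U * R ^ 2 ≤
      4 * (X : ℝ) ^ (19 / 20 : ℝ) := by
  have hXr : (3 : ℝ) ≤ X := by exact_mod_cast hX
  have hX1 : (1 : ℝ) ≤ X := by linarith
  have hX0 : (0 : ℝ) < X := by linarith
  have hY1 : (1 : ℝ) ≤ (X : ℝ) ^ (1 / 10 : ℝ) := Real.one_le_rpow hX1 (by norm_num)
  have hU1 : 1 ≤ U := by
    rw [hU]
    exact Nat.le_floor (by exact_mod_cast hY1)
  have hUr : (1 : ℝ) ≤ U := by exact_mod_cast hU1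
  have hUle : (U : ℝ) ≤ (X : ℝ) ^ (1 / 10 : ℝ) := by
    rw [hU]
    exact Nat.floor_le (by linarith)
  have hUge : (X : ℝ) ^ (1 / 10 : ℝ) < U + 1 := by
    rw [hU]
    exact Nat.lt_floor_add_one _
  have hU2 : (X : ℝ) ^ (1 / 10 : ℝ) ≤ 2 * U := by linarith
  refine ⟨hU1, ?_, ?_⟩
  · have h1 : ((U : ℝ)) ^ 2 ≤ X := by
      calc ((U : ℝ)) ^ 2 ≤ ((X : ℝ) ^ (1 / 10 : ℝ)) ^ 2 := pow_le_pow_left₀ (by linarith) hUle 2
        _ = (X : ℝ) ^ (1 / 5 : ℝ) := by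
            rw [← Real.rpow_natCast, ← Real.rpow_mul hX0.le]
            norm_num
        _ ≤ (X : ℝ) ^ (1 : ℝ) := BvBig_pow hX1 (by norm_num)
        _ = X := Real.rpow_one _
    exact_mod_cast h1
  · -- the first term
    have hs : (X : ℝ) ^ (1 / 20 : ℝ) ≤ 2 * Real.sqrt U := by
      have h2 : (X : ℝ) ^ (1 / 20 : ℝ) = Real.sqrt ((X : ℝ) ^ (1 / 10 : ℝ)) := by
        rw [Real.sqrt_eq_rpow, ← Real.rpow_mul hX0.le]
        norm_num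
      rw [h2]
      calc Real.sqrt ((X : ℝ) ^ (1 / 10 : ℝ)) ≤ Real.sqrt (2 ^ 2 * U) :=
            Real.sqrt_le_sqrt (by linarith)
        _ = 2 * Real.sqrt U := by
            rw [Real.sqrt_mul (by norm_num), Real.sqrt_sq (by norm_num)]
    have hsU : 0 < Real.sqrt U := Real.sqrt_pos.2 (by linarith)
    have t1 : (X : ℝ) / Real.sqrt U ≤ 2 * (X : ℝ) ^ (19 / 20 : ℝ) := by
      rw [div_le_iff₀ hsU]
      calc (X : ℝ) = (X : ℝ) ^ (19 / 20 : ℝ) * (X : ℝ) ^ (1 / 20 : ℝ) := by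
            rw [← Real.rpow_add hX0]
            norm_num
        _ ≤ (X : ℝ) ^ (19 / 20 : ℝ) * (2 * Real.sqrt U) :=
            mul_le_mul_of_nonneg_left hs (by positivity)
        _ = 2 * (X : ℝ) ^ (19 / 20 : ℝ) * Real.sqrt U := by ring
    have t2 : (U : ℝ) * R * Real.sqrt X ≤ (X : ℝ) ^ (19 / 20 : ℝ) := by
      calc (U : ℝ) * R * Real.sqrt X
          ≤ (X : ℝ) ^ (1 / 10 : ℝ) * (X : ℝ) ^ (3 / 10 : ℝ) * (X : ℝ) ^ (1 / 2 : ℝ) := by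
            rw [Real.sqrt_eq_rpow]
            gcongr
        _ = (X : ℝ) ^ (9 / 10 : ℝ) := by
            rw [← Real.rpow_add hX0, ← Real.rpow_add hX0]
            norm_num
        _ ≤ (X : ℝ) ^ (19 / 20 : ℝ) := BvBig_pow hX1 (by norm_num)
    have t3 : (U : ℝ) * R ^ 2 ≤ (X : ℝ) ^ (19 / 20 : ℝ) := by
      calc (U : ℝ) * R ^ 2
          ≤ (X : ℝ) ^ (1 / 10 : ℝ) * ((X : ℝ) ^ (3 / 10 : ℝ)) ^ 2 := by
            gcongr
        _ = (X : ℝ) ^ (7 / 10 : ℝ) := by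
            rw [← Real.rpow_natCast, ← Real.rpow_mul hX0.le, ← Real.rpow_add hX0]
            norm_num
        _ ≤ (X : ℝ) ^ (19 / 20 : ℝ) := BvBig_pow hX1 (by norm_num)
    linarith

theorem prim_big : ∃ D X0 : ℕ, ∀ X Q1 Q2 : ℕ, X0 ≤ X → 1 ≤ Q1 → (Q2 : ℝ) ≤ (X : ℝ) ^ (3 / 10 : ℝ) →
    ∑ q ∈ Ioc Q1 Q2, (1 / (Nat.totient q : ℝ)) * ∑ χ ∈ Pool.BV.prim q, ‖Pool.BV.psi X χ‖ ≤
      Real.log X ^ D * (X / Q1 + (X : ℝ) ^ (19 / 20 : ℝ)) := by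
  obtain ⟨C, D, hC, hdy⟩ := Pool.BV.prim_dyadic
  refine ⟨D + 2, max 3 ⌈Real.exp (12 * C)⌉₊, ?_⟩
  intro X Q1 Q2 hX hQ1 hQ2
  have hX3 : 3 ≤ X := (le_max_left _ _).trans hX
  have hXr : (3 : ℝ) ≤ X := by exact_mod_cast hX3
  have hX1 : (1 : ℝ) ≤ X := by linarith
  have hX0 : (0 : ℝ) < X := by linarith
  have hXe : Real.exp (12 * C) ≤ X :=
    (Nat.le_ceil _).trans (by exact_mod_cast (le_max_right 3 ⌈Real.exp (12 * C)⌉₊).trans hX)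
  obtain ⟨L, hL⟩ : ∃ L : ℝ, L = Real.log X := ⟨_, rfl⟩
  have hL1 : 1 ≤ L := by
    rw [hL, Real.le_log_iff_exp_le hX0]
    have := Real.exp_one_lt_d9
    linarith
  have hLC : 12 * C ≤ L := by
    rw [hL, Real.le_log_iff_exp_le hX0]
    exact hXe
  have hQX : Q2 ≤ X := by
    have h1 : (Q2 : ℝ) ≤ X := by
      calc (Q2 : ℝ) ≤ (X : ℝ) ^ (3 / 10 : ℝ) := hQ2
        _ ≤ (X : ℝ) ^ (1 : ℝ) := BvBig_pow hX1 (by norm_num)
        _ = X := Real.rpow_one _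
    exact_mod_cast h1
  obtain ⟨U, hU⟩ : ∃ U : ℕ, U = ⌊(X : ℝ) ^ (1 / 10 : ℝ)⌋₊ := ⟨_, rfl⟩
  have hLD : 0 < L ^ D := by positivity
  have hR : ∀ R : ℕ, 1 ≤ R → R < Q2 →
      ∑ q ∈ Ioc R (2 * R), (1 / (Nat.totient q : ℝ)) * ∑ χ ∈ Pool.BV.prim q, ‖Pool.BV.psi X χ‖ ≤
        C * L ^ D * X / R + 4 * C * L ^ D * (X : ℝ) ^ (19 / 20 : ℝ) := by
    intro R hR1 hR2
    have h1 : (R : ℝ) ≤ (X : ℝ) ^ (3 / 10 : ℝ) := by
      refine le_trans ?_ hQ2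
      exact_mod_cast hR2.le
    obtain ⟨hU1, hU2, hE⟩ := BvBig_err (R := (R : ℝ)) hX3 hU (Nat.cast_nonneg _) h1
    have h2 := hdy R X U hR1 hX3 hU1 hU2
    rw [← hL] at h2
    refine h2.trans ?_
    have h3 : (X : ℝ) / R + X / Real.sqrt U + U * R * Real.sqrt X + U * (R : ℝ) ^ 2 ≤
        X / R + 4 * (X : ℝ) ^ (19 / 20 : ℝ) := by linarith
    calc C * L ^ D * ((X : ℝ) / R + X / Real.sqrt U + U * R * Real.sqrt X + U * (R : ℝ) ^ 2)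
        ≤ C * L ^ D * (X / R + 4 * (X : ℝ) ^ (19 / 20 : ℝ)) :=
          mul_le_mul_of_nonneg_left h3 (by positivity)
      _ = C * L ^ D * X / R + 4 * C * L ^ D * (X : ℝ) ^ (19 / 20 : ℝ) := by ring
  have hn : Q2 ≤ 2 ^ (Nat.log 2 Q2 + 1) * Q1 := by
    have h1 : Q2 < 2 ^ (Nat.log 2 Q2 + 1) := Nat.lt_pow_succ_log_self (by norm_num) Q2
    calc Q2 ≤ 2 ^ (Nat.log 2 Q2 + 1) * 1 := by omega
      _ ≤ 2 ^ (Nat.log 2 Q2 + 1) * Q1 := Nat.mul_le_mul_left _ hQ1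
  have hmain := BvBig_dy (fun q => (1 / (Nat.totient q : ℝ)) *
      ∑ χ ∈ Pool.BV.prim q, ‖Pool.BV.psi X χ‖) (fun q => by positivity) (C * L ^ D * X)
    (4 * C * L ^ D * (X : ℝ) ^ (19 / 20 : ℝ)) (by positivity) (by positivity) Q2 hR
    (Nat.log 2 Q2 + 1) Q1 hQ1 hn
  refine hmain.trans ?_
  have hlog := BvBig_log hX3 hQX
  rw [← hL] at hlog ⊢
  have hQr : (0 : ℝ) < Q1 := by exact_mod_cast hQ1
  obtain ⟨a, ha⟩ : ∃ a : ℝ, a = X / Q1 := ⟨_, rfl⟩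
  obtain ⟨b, hb⟩ : ∃ b : ℝ, b = (X : ℝ) ^ (19 / 20 : ℝ) := ⟨_, rfl⟩
  have ha0 : 0 ≤ a := by rw [ha]; positivity
  have hb0 : 0 ≤ b := by rw [hb]; positivity
  have e1 : 2 * (C * L ^ D * X) / (Q1 : ℝ) = 2 * C * L ^ D * a := by
    rw [ha]; ring
  rw [e1, ← ha, ← hb]
  calc 2 * C * L ^ D * a + ((Nat.log 2 Q2 + 1 : ℕ) : ℝ) * (4 * C * L ^ D * b)
      ≤ 2 * C * L ^ D * a + (3 * L) * (4 * C * L ^ D * b) := by gcongr
    _ = (2 * C) * L ^ D * a + (12 * C) * (L * L ^ D * b) := by ring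
    _ ≤ L * (L ^ D * a) * L + L * (L * L ^ D * b) := by
        have h1 : (2 * C) * L ^ D * a ≤ L * (L ^ D * a) * L := by
          have h2 : 2 * C ≤ L := by linarith
          have h3 : 0 ≤ L ^ D * a := by positivity
          calc (2 * C) * L ^ D * a = (2 * C) * (L ^ D * a) := by ring
            _ ≤ L * (L ^ D * a) := mul_le_mul_of_nonneg_right h2 h3
            _ ≤ L * (L ^ D * a) * L := le_mul_of_one_le_right (by positivity) hL1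
        have h4 : (12 * C) * (L * L ^ D * b) ≤ L * (L * L ^ D * b) :=
          mul_le_mul_of_nonneg_right hLC (by positivity)
        linarith
    _ = L ^ (D + 2) * (a + b) := by ring

end Pool.CP
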