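import Pool.Agent.Lib.MP_c77da8_nt.CP.Defs
import Pool.Agent.Lib.MP_c77da8_nt.CM.LowC
import Pool.Agent.Lib.BV.Defs

/-!
# CP-BvSmall: primitive characters with small conductors

PROOF.  `χ ∈ prim r`, `r ≥ 2`, so `χ ≠ 1` (the conductor of `1` is `1`; see `primDy_ne_one` in `BV/PrimDy.lean`).  `la_lowM 1` with `δ = (log X)^(-1/200)` (`≤ 1`), `q = r`
(`exp ((log X)^(1/2100)) ≤ exp ((log X)^(1/100))`) gives `‖ψ(X, χ)‖ ≤ X exp (-(log X)^(1/100))`.  There are at most `φ(r) ≤ r ≤ exp ((log X)^(1/2100))` characters, and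
`(log X)^(1/2100) - (log X)^(1/100) ≤ -(log X)^(1/150)` for large `X`.
-/

set_option autoImplicit false

namespace Pool.CP

open Finset

private lemma BvSmall_card (q : ℕ) (hq : 1 ≤ q) : ((Pool.BV.prim q).card : ℝ) ≤ q := by
  have : NeZero q := ⟨by omega⟩
  have h : (Pool.BV.prim q).card ≤ q.totient := by
    rw [← DirichletCharacter.card_eq_totient_of_hasEnoughRootsOfUnity ℂ q,
      Nat.card_eq_fintype_card]
    exact Finset.card_le_univ _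
  exact_mod_cast h.trans (Nat.totient_le q)

private lemma BvSmall_ne_one (q : ℕ) (hq : 2 ≤ q) (χ : DirichletCharacter ℂ q)
    (h : χ ∈ Pool.BV.prim q) : χ ≠ 1 := by
  rintro rfl
  have : NeZero q := ⟨by omega⟩
  rw [Pool.BV.mem_prim, DirichletCharacter.isPrimitive_def, DirichletCharacter.conductor_one] at h
  omega

private lemma BvSmall_ev : ∀ᶠ L : ℝ in Filter.atTop, 1 ≤ L ∧
    L ^ (1 / 2100 : ℝ) - L ^ (1 / 100 : ℝ) ≤ -(L ^ (1 / 150 : ℝ)) := by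
  filter_upwards [Filter.eventually_ge_atTop (1 : ℝ),
    (tendsto_rpow_atTop (by norm_num : (0 : ℝ) < 1 / 300)).eventually_ge_atTop (2 : ℝ)]
    with L hL h2
  refine ⟨hL, ?_⟩
  have h3 : L ^ (1 / 2100 : ℝ) ≤ L ^ (1 / 150 : ℝ) :=
    Real.rpow_le_rpow_of_exponent_le hL (by norm_num)
  have h4 : L ^ (1 / 100 : ℝ) = L ^ (1 / 150 : ℝ) * L ^ (1 / 300 : ℝ) := by
    rw [← Real.rpow_add (by linarith : 0 < L)]
    norm_num
  have h5 : 0 ≤ L ^ (1 / 150 : ℝ) := by positivity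
  nlinarith

theorem prim_sm : ∃ X0 : ℕ, ∀ X : ℕ, X0 ≤ X → ∀ e : ℕ, NoExc (Real.log X) e →
    ∀ r : ℕ, 2 ≤ r → ¬ e ∣ r → (r : ℝ) ≤ Real.exp (Real.log X ^ (1 / 2100 : ℝ)) →
    ∑ χ ∈ Pool.BV.prim r, ‖Pool.BV.psi X χ‖ ≤ X * Real.exp (-(Real.log X ^ (1 / 150 : ℝ))) := by
  obtain ⟨X1, h1⟩ := Pool.CM.la_lowM 1
  obtain ⟨X2, h2⟩ := Filter.eventually_atTop.1 (tendsto_natCast_atTop_atTop.eventually
    ((Real.tendsto_log_atTop).eventually BvSmall_ev))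
  refine ⟨max X1 X2, fun X hX e hno r hr her hrL => ?_⟩
  have hNe : NeZero r := ⟨by omega⟩
  obtain ⟨hL1, hL2⟩ := h2 X (le_of_max_le_right hX)
  have hδ1 : Real.log X ^ (-(1 / 200) : ℝ) ≤ 1 :=
    Real.rpow_le_one_of_one_le_of_nonpos hL1 (by norm_num)
  have hrL2 : (r : ℝ) ≤ Real.exp ((1 : ℕ) * Real.log X ^ (1 / 100 : ℝ)) := by
    refine hrL.trans (Real.exp_le_exp.2 ?_)
    rw [Nat.cast_one, one_mul]
    exact Real.rpow_le_rpow_of_exponent_le hL1 (by norm_num)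
  have hb : ∀ χ ∈ Pool.BV.prim r, ‖Pool.BV.psi X χ‖ ≤
      X * Real.exp (-(Real.log X ^ (1 / 100 : ℝ))) := by
    intro χ hχ
    have h3 := h1 X (le_of_max_le_left hX) _ hδ1 le_rfl r (hno r her hrL) χ hrL2
      (BvSmall_ne_one r hr χ hχ)
    rw [Nat.cast_one, one_mul] at h3
    exact h3
  calc ∑ χ ∈ Pool.BV.prim r, ‖Pool.BV.psi X χ‖
      ≤ ∑ _χ ∈ Pool.BV.prim r, (X * Real.exp (-(Real.log X ^ (1 / 100 : ℝ))) : ℝ) :=
        Finset.sum_le_sum hb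
    _ = ((Pool.BV.prim r).card : ℝ) * (X * Real.exp (-(Real.log X ^ (1 / 100 : ℝ)))) := by
        rw [Finset.sum_const, nsmul_eq_mul]
    _ ≤ Real.exp (Real.log X ^ (1 / 2100 : ℝ)) *
        (X * Real.exp (-(Real.log X ^ (1 / 100 : ℝ)))) :=
        mul_le_mul_of_nonneg_right ((BvSmall_card r (by omega)).trans hrL) (by positivity)
    _ = X * Real.exp (Real.log X ^ (1 / 2100 : ℝ) - Real.log X ^ (1 / 100 : ℝ)) := by
        rw [sub_eq_add_neg, Real.exp_add]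
        ring
    _ ≤ X * Real.exp (-(Real.log X ^ (1 / 150 : ℝ))) :=
        mul_le_mul_of_nonneg_left (Real.exp_le_exp.2 hL2) (Nat.cast_nonneg X)

end Pool.CP
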