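import Pool.Agent.Lib.BV.Defs

/-!
# CP-BvTriv: trivial bounds for the errors

PROOF.  `et_er`: the difference is the sum of `Λ(n)` over the `n ≤ X`, `n ≡ a (mod q)`, which are not primes (proper prime powers), between `0` and `ψ(X) - θ(X)`,
`≤ 2 √X log X` (`Chebyshev.psi_sub_theta_le`, or `Chebyshev.psi_sub_theta_eq_sum_not_prime`).
`et_triv`: the number of the `n ≤ X` in a class mod `q` is at most `X/q + 1 ≤ 2 X/q`, each with `log p ≤ log X`; and `X/φ(q) ≤ (X/q) (ω(q) + 1) ≤ (X/q) (1 + log q/log 2)`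
(`φ(q)/q = ∏_(p ∣ q) (1 - 1/p) ≥ ∏_(2 ≤ i ≤ ω(q)+1) (1 - 1/i) = 1/(ω(q)+1)`, `2^ω(q) ≤ q`; `phi_low` is the auxiliary statement).
-/

set_option autoImplicit false

namespace Pool.CP

open Finset Pool.BV

private theorem bvTriv_prod (S : Finset ℕ) : (∀ p ∈ S, 2 ≤ p) →
    1 / ((S.card : ℝ) + 1) ≤ ∏ p ∈ S, (1 - (p : ℝ)⁻¹) := by
  induction S using Finset.induction_on_max with
  | empty => intro _; simp
  | insert M S hM ih =>
    intro h
    have hMS : M ∉ S := fun hm => lt_irrefl _ (hM M hm)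
    have ih' := ih fun p hp => h p (mem_insert_of_mem hp)
    have hcard : S.card + 2 ≤ M := by
      have h2 : S ⊆ Ico 2 M := by
        intro x hx
        rw [mem_Ico]
        exact ⟨h x (mem_insert_of_mem hx), hM x hx⟩
      have h3 := card_le_card h2
      rw [Nat.card_Ico] at h3
      have := h M (mem_insert_self _ _)
      omega
    have hcR : (S.card : ℝ) + 2 ≤ M := by exact_mod_cast hcard
    have hc0 : (0 : ℝ) ≤ S.card := Nat.cast_nonneg _
    rw [prod_insert hMS, card_insert_of_notMem hMS]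
    push_cast
    have h1 : (S.card + 1 : ℝ) / (S.card + 2) ≤ 1 - (M : ℝ)⁻¹ := by
      have : (M : ℝ)⁻¹ ≤ (S.card + 2 : ℝ)⁻¹ := inv_anti₀ (by linarith) hcR
      have e : (S.card + 1 : ℝ) / (S.card + 2) = 1 - (S.card + 2 : ℝ)⁻¹ := by
        field_simp
        ring
      rw [e]
      linarith
    calc 1 / ((S.card : ℝ) + 1 + 1) = (S.card + 1 : ℝ) / (S.card + 2) * (1 / ((S.card : ℝ) + 1)) := by
          field_simp
          ring
      _ ≤ (1 - (M : ℝ)⁻¹) * ∏ p ∈ S, (1 - (p : ℝ)⁻¹) :=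
          mul_le_mul h1 ih' (by positivity) (le_trans (by positivity) h1)

theorem phi_low (q : ℕ) (hq : 1 ≤ q) : (q : ℝ) / (Nat.totient q : ℝ) ≤ 1 + 2 * Real.log q := by
  have h1 : (Nat.totient q : ℝ) = q * ∏ p ∈ q.primeFactors, (1 - (p : ℝ)⁻¹) := by
    have := Nat.totient_eq_mul_prod_factors q
    have h2 : ((Nat.totient q : ℚ) : ℝ) = ((q * ∏ p ∈ q.primeFactors, (1 - (p : ℚ)⁻¹) : ℚ) : ℝ) := by
      rw [this]
    push_cast at h2
    exact h2
  have h2 := bvTriv_prod q.primeFactors fun p hp => (Nat.prime_of_mem_primeFactors hp).two_le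
  have h3 : (2 : ℝ) ^ q.primeFactors.card ≤ q := by
    have h4 : 2 ^ q.primeFactors.card ≤ ∏ p ∈ q.primeFactors, p := by
      rw [← prod_const]
      exact prod_le_prod' fun p hp => (Nat.prime_of_mem_primeFactors hp).two_le
    have h5 : ∏ p ∈ q.primeFactors, p ≤ q := Nat.le_of_dvd hq (Nat.prod_primeFactors_dvd q)
    exact_mod_cast h4.trans h5
  have hq0 : (0 : ℝ) < q := by exact_mod_cast hq
  have hP : 0 < ∏ p ∈ q.primeFactors, (1 - (p : ℝ)⁻¹) := lt_of_lt_of_le (by positivity) h2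
  have h6 : (q : ℝ) / (Nat.totient q : ℝ) ≤ q.primeFactors.card + 1 := by
    rw [h1, div_mul_cancel_left₀ hq0.ne']
    have := inv_anti₀ (by positivity) h2
    rwa [one_div, inv_inv] at this
  have h7 : (q.primeFactors.card : ℝ) ≤ 2 * Real.log q := by
    have h8 := Real.log_le_log (by positivity) h3
    rw [Real.log_pow] at h8
    have h9 : (1 / 2 : ℝ) ≤ Real.log 2 := by linarith [Real.log_two_gt_d9]
    have h10 : (0 : ℝ) ≤ q.primeFactors.card := Nat.cast_nonneg _
    nlinarith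
  linarith

private theorem bvTriv_Icc (X : ℕ) : Ioc 0 ⌊(X : ℝ)⌋₊ = Icc 1 X := by
  ext x
  simp only [Nat.floor_natCast, mem_Ioc, mem_Icc]
  omega

theorem et_er (X q a : ℕ) (hX : 1 ≤ X) : |Et X q a - Er X q a| ≤ 2 * Real.sqrt X * Real.log X := by
  have hb := Chebyshev.psi_sub_theta_le (x := (X : ℝ)) (by exact_mod_cast hX)
  rw [Chebyshev.psi_sub_theta_eq_sum_not_prime, bvTriv_Icc] at hb
  have e1 : Er X q a - Et X q a =
      ∑ n ∈ (Icc 1 X).filter (fun n => n ≡ a [MOD q] ∧ ¬ n.Prime), ArithmeticFunction.vonMangoldt n := by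
    have h1 : ∑ n ∈ (Icc 1 X).filter (fun n => n ≡ a [MOD q]), ArithmeticFunction.vonMangoldt n =
        ∑ n ∈ ((Icc 1 X).filter (fun n => n ≡ a [MOD q])).filter (fun n => n.Prime), ArithmeticFunction.vonMangoldt n +
        ∑ n ∈ ((Icc 1 X).filter (fun n => n ≡ a [MOD q])).filter (fun n => ¬ n.Prime), ArithmeticFunction.vonMangoldt n :=
      (sum_filter_add_sum_filter_not _ _ _).symm
    have h2 : ∑ n ∈ ((Icc 1 X).filter (fun n => n ≡ a [MOD q])).filter (fun n => n.Prime), ArithmeticFunction.vonMangoldt n =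
        ∑ p ∈ (Icc 1 X).filter (fun n => n.Prime ∧ n ≡ a [MOD q]), Real.log p := by
      rw [filter_filter]
      refine sum_congr ?_ ?_
      · ext n
        simp only [mem_filter]
        tauto
      · intro n hn
        exact ArithmeticFunction.vonMangoldt_apply_prime (mem_filter.mp hn).2.1
    unfold Er Et
    rw [h1, h2, filter_filter]
    ring
  have e2 : 0 ≤ Er X q a - Et X q a := by
    rw [e1]
    exact sum_nonneg fun n _ => ArithmeticFunction.vonMangoldt_nonneg
  have e3 : Er X q a - Et X q a ≤ 2 * Real.sqrt X * Real.log X := by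
    refine le_trans ?_ hb
    rw [e1]
    refine sum_le_sum_of_subset_of_nonneg ?_ fun n _ _ => ArithmeticFunction.vonMangoldt_nonneg
    intro n hn
    rw [mem_filter] at hn ⊢
    exact ⟨hn.1, hn.2.2⟩
  rw [abs_sub_comm, abs_of_nonneg e2]
  exact e3

private theorem bvTriv_card (X q a : ℕ) (hq : 1 ≤ q) :
    ((Icc 1 X).filter (fun n => n ≡ a [MOD q])).card ≤ X / q + 1 := by
  have h : ((Icc 1 X).filter (fun n => n ≡ a [MOD q])).card ≤ (range (X / q + 1)).card := by
    refine card_le_card_of_injOn (fun n => n / q) ?_ ?_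
    · intro n hn
      rw [mem_coe, mem_filter, mem_Icc] at hn
      rw [mem_coe, mem_range]
      exact Nat.lt_succ_of_le (Nat.div_le_div_right hn.1.2)
    · intro n hn n' hn' hd
      rw [mem_coe, mem_filter] at hn hn'
      have h1 : n % q = n' % q := hn.2.trans hn'.2.symm
      have h2 : n / q = n' / q := hd
      rw [← Nat.div_add_mod n q, ← Nat.div_add_mod n' q, h1, h2]
  rwa [card_range] at h

theorem et_triv (X q a : ℕ) (hX : 8 ≤ X) (hq : 1 ≤ q) (hqX : q ≤ X) : |Et X q a| ≤ 5 * X * Real.log X / q := by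
  have hX0 : (8 : ℝ) ≤ X := by exact_mod_cast hX
  have hq0 : (1 : ℝ) ≤ q := by exact_mod_cast hq
  have hqX0 : (q : ℝ) ≤ X := by exact_mod_cast hqX
  have hlX : 1 ≤ Real.log X := by
    rw [Real.le_log_iff_exp_le (by linarith)]
    linarith [Real.exp_one_lt_d9]
  have hXq : 1 ≤ (X : ℝ) / q := by
    rw [one_le_div (by linarith)]
    exact hqX0
  set S : ℝ := ∑ p ∈ (Icc 1 X).filter (fun n => n.Prime ∧ n ≡ a [MOD q]), Real.log p with hS
  have hS0 : 0 ≤ S := sum_nonneg fun p _ => Real.log_natCast_nonneg p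
  have hS1 : S ≤ 2 * (X / q) * Real.log X := by
    have h1 : S ≤ ∑ p ∈ (Icc 1 X).filter (fun n => n.Prime ∧ n ≡ a [MOD q]), Real.log X := by
      refine sum_le_sum fun p hp => ?_
      rw [mem_filter, mem_Icc] at hp
      exact Real.log_le_log (by exact_mod_cast hp.1.1) (by exact_mod_cast hp.1.2)
    rw [sum_const, nsmul_eq_mul] at h1
    have h2 : (((Icc 1 X).filter (fun n => n.Prime ∧ n ≡ a [MOD q])).card : ℝ) ≤ 2 * (X / q) := by
      have h3 : ((Icc 1 X).filter (fun n => n.Prime ∧ n ≡ a [MOD q])).card ≤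
          ((Icc 1 X).filter (fun n => n ≡ a [MOD q])).card := by
        refine card_le_card fun n hn => ?_
        rw [mem_filter] at hn ⊢
        exact ⟨hn.1, hn.2.2⟩
      have h4 := h3.trans (bvTriv_card X q a hq)
      have h5 : (((Icc 1 X).filter (fun n => n.Prime ∧ n ≡ a [MOD q])).card : ℝ) ≤ ((X / q : ℕ) : ℝ) + 1 := by
        exact_mod_cast h4
      have h6 : ((X / q : ℕ) : ℝ) ≤ X / q := Nat.cast_div_le
      linarith
    exact h1.trans (mul_le_mul_of_nonneg_right h2 (by linarith))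
  have hT0 : 0 ≤ (X : ℝ) / (Nat.totient q : ℝ) := by positivity
  have hT1 : (X : ℝ) / (Nat.totient q : ℝ) ≤ 3 * (X / q) * Real.log X := by
    have h1 := phi_low q hq
    have h2 : Real.log q ≤ Real.log X := Real.log_le_log (by linarith) hqX0
    have h3 : (X : ℝ) / (Nat.totient q : ℝ) = X / q * (q / (Nat.totient q : ℝ)) := by
      rw [div_mul_div_cancel₀ (by linarith)]
    rw [h3]
    have h4 : (q : ℝ) / (Nat.totient q : ℝ) ≤ 3 * Real.log X := by linarith
    calc (X : ℝ) / q * (q / (Nat.totient q : ℝ)) ≤ X / q * (3 * Real.log X) :=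
          mul_le_mul_of_nonneg_left h4 (by linarith)
      _ = 3 * (X / q) * Real.log X := by ring
  have hE : Et X q a = S - (X : ℝ) / (Nat.totient q : ℝ) := rfl
  have hR : 5 * (X : ℝ) * Real.log X / q = 5 * (X / q) * Real.log X := by ring
  rw [hE, hR, abs_le]
  have h0 : 0 ≤ (X : ℝ) / q * Real.log X := by positivity
  constructor <;> nlinarith

end Pool.CP
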