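import Pool.Agent.Lib.MP_c77da8_nt.CP.BvBig
import Pool.Agent.Lib.MP_c77da8_nt.CP.BvSmall
import Pool.Agent.Lib.MP_c77da8_nt.CP.BvTriv
import Pool.Agent.Lib.BV.Expand
import Pool.Agent.Lib.BV.Tot
import Pool.Agent.Lib.MP_dd84fd_nt.SW.PNT

/-!
# CP-BvFixM: the Bombieri-Vinogradov theorem for the moduli `A q`, `q ≤ X^(1/4)`, with a saving which beats `A`

PROOF (compare `bv_fix`, `BV/BVFix.lean`).  `L = log X`.  `expand X (A q) (a q)` (`A q ≤ X`) and `sort_cond (A q)`: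
`|Er| ≤ (1/φ(A q)) (Π + ∑_{r ∣ A q, r ≥ 2} g(r)) + 4 L²`, `Π = |ψ(X) - X|`, `g(r) = ∑_(χ ∈ prim r) ‖ψ(X, χ)‖`.  Let `Q1 = ⌊exp (L^(1/2100))⌋`.
(1) `Π ≤ X/L^(B+5)` (`pnt`), `∑_q 1/φ(A q) ≤ (1/φ(A)) ∑_q 1/φ(q) ≤ (3/φ(A)) (1 + log Q)²` (`tot_mul`, `tot_sum`), and `1/φ(A) ≤ (1 + 2 log A)/A ≤ (2 L)/A` (`phi_low`, `BvTriv.lean`).
(2) `r ≤ Q1`: as `¬ e ∣ A q`, `¬ e ∣ r`, so `g(r) ≤ X exp (-L^(1/150))` (`prim_sm`); at most `Q1` such `r`; the sum over `q` is
`≤ (∑ 1/φ(A q)) Q1 X exp (-L^(1/150)) ≤ X/(4 A L^B)` for large `X`.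
(3) `r > Q1`: `g' = g · [Q1 < r]`; enlarge the sum over the moduli `A q` to all moduli `m ≤ A Q` (`q ↦ A q` is injective): `tot_sort (A Q) g'`: it is
`≤ 3 (1 + log (A Q))² ∑_(Q1 < r ≤ A Q) g(r)/φ(r) ≤ 12 L² · L^D (X/Q1 + X^(19/20))` (`prim_big`, `A Q ≤ X^(3/10)` for large `X`), and
`X/Q1 ≤ 2 X exp (-L^(1/2100))`, `A ≤ exp (L^(1/2500))`: `≤ X/(4 A L^B)` for large `X`.
(4) `4 L² Q ≤ X/(4 A L^B)`.
-/

set_option autoImplicit false

namespace Pool.CP

open Finset Pool.BV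

private theorem BvFixM_ev {a b : ℝ} (hab : a < b) (hb : 0 < b) (n : ℕ) (c : ℝ) :
    ∀ᶠ L : ℝ in Filter.atTop, c * L ^ n * Real.exp (L ^ a) ≤ Real.exp (L ^ b) := by
  obtain ⟨c', hc'⟩ : ∃ c' : ℝ, c' = max c 1 := ⟨_, rfl⟩
  have hc1 : 1 ≤ c' := by rw [hc']; exact le_max_right _ _
  have hcc : c ≤ c' := by rw [hc']; exact le_max_left _ _
  have h1 : ∀ᶠ L : ℝ in Filter.atTop, 4 * Real.log c' ≤ L ^ b :=
    (tendsto_rpow_atTop hb).eventually_ge_atTop _
  have h2 : ∀ᶠ L : ℝ in Filter.atTop, L ^ (-(b - a)) ≤ 1 / 4 :=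
    (tendsto_rpow_neg_atTop (show 0 < b - a by linarith)).eventually_le_const (by norm_num)
  have h3 := (isLittleO_log_rpow_atTop hb).bound (show (0 : ℝ) < 1 / (4 * (n + 1)) by positivity)
  filter_upwards [h1, h2, h3, Filter.eventually_ge_atTop 1] with L k1 k2 k3 k4
  have hL0 : 0 < L := by linarith
  have hLb : 0 < L ^ b := Real.rpow_pos_of_pos hL0 _
  have k5 : L ^ a ≤ L ^ b / 4 := by
    have e : L ^ a = L ^ b * L ^ (-(b - a)) := by
      rw [← Real.rpow_add hL0]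
      congr 1
      ring
    rw [e]
    nlinarith
  have hlog : 0 ≤ Real.log L := Real.log_nonneg k4
  have k6 : (n : ℝ) * Real.log L ≤ L ^ b / 4 := by
    rw [Real.norm_of_nonneg hlog, Real.norm_of_nonneg hLb.le] at k3
    have h5 : (n : ℝ) * Real.log L ≤ ((n : ℝ) + 1) * Real.log L := by nlinarith
    have h6 : ((n : ℝ) + 1) * Real.log L ≤ ((n : ℝ) + 1) * (1 / (4 * (n + 1)) * L ^ b) :=
      mul_le_mul_of_nonneg_left k3 (by positivity)
    have h7 : ((n : ℝ) + 1) * (1 / (4 * (n + 1)) * L ^ b) = L ^ b / 4 := by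
      field_simp
    linarith
  calc c * L ^ n * Real.exp (L ^ a) ≤ c' * L ^ n * Real.exp (L ^ a) := by
        have : 0 ≤ L ^ n * Real.exp (L ^ a) := by positivity
        nlinarith
    _ = Real.exp (Real.log c' + n * Real.log L + L ^ a) := by
        rw [Real.exp_add, Real.exp_add, Real.exp_log (by linarith), ← Real.log_pow,
          Real.exp_log (by positivity)]
    _ ≤ Real.exp (L ^ b) := by
        apply Real.exp_le_exp.2
        linarith

theorem bvm_fix (B : ℕ) : ∃ X0 : ℕ, ∀ X : ℕ, X0 ≤ X → ∀ A e Q : ℕ, 1 ≤ A →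
    (A : ℝ) ≤ Real.exp (Real.log X ^ (1 / 2500 : ℝ)) → (Q : ℝ) ≤ (X : ℝ) ^ (1 / 4 : ℝ) → NoExc (Real.log X) e →
    ∀ a : ℕ → ℕ, (∀ q ∈ Icc 1 Q, (a q).Coprime (A * q)) →
    ∑ q ∈ (Icc 1 Q).filter (fun q => ¬ e ∣ A * q), |Er X (A * q) (a q)| ≤ X / (A * Real.log X ^ B) := by
  obtain ⟨D, X1, hbig⟩ := prim_big
  obtain ⟨X2, hsm⟩ := prim_sm
  obtain ⟨X3, hpnt⟩ := MP_dd84fd_nt.SW.pnt (B + 5)
  have hlogt : Filter.Tendsto (fun X : ℕ => Real.log X) Filter.atTop Filter.atTop :=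
    Real.tendsto_log_atTop.comp tendsto_natCast_atTop_atTop
  have ev1 : ∀ᶠ X : ℕ in Filter.atTop, (400 : ℝ) ≤ Real.log X := hlogt.eventually_ge_atTop _
  have ev2 := hlogt.eventually (BvFixM_ev (a := 1 / 2100) (b := 1 / 150) (by norm_num)
    (by norm_num) (B + 3) 288)
  have ev3 := hlogt.eventually (BvFixM_ev (a := 1 / 2500) (b := 1 / 2100) (by norm_num)
    (by norm_num) (D + 2 + B) 192)
  have ev4 := hlogt.eventually (BvFixM_ev (a := 1 / 2500) (b := 1 / 2) (by norm_num)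
    (by norm_num) (D + 2 + B) 96)
  obtain ⟨X0, hX0⟩ := Filter.eventually_atTop.mp (ev1.and (ev2.and (ev3.and (ev4.and
    (Filter.eventually_ge_atTop (3 + X1 + X2 + X3))))))
  refine ⟨X0, fun X hX A e Q hA hAE hQ hex a ha => ?_⟩
  obtain ⟨hL1, hE2, hE3, hE4, hX3⟩ := hX0 X hX
  have hbig' := fun Q1 Q2 => hbig X Q1 Q2 (by omega)
  have hsm' := hsm X (by omega) e hex
  have hpnt' := hpnt X (by omega)
  have hexpL : Real.exp (Real.log X) = X := Real.exp_log (by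
    have : 0 < X := by omega
    exact_mod_cast this)
  obtain ⟨L, hL⟩ : ∃ L : ℝ, L = Real.log X := ⟨_, rfl⟩
  have hrp : ∀ t : ℝ, (X : ℝ) ^ t = Real.exp (L * t) := by
    intro t
    rw [hL]
    exact Real.rpow_def_of_pos (by
      have : 0 < X := by omega
      exact_mod_cast this) t
  rw [← hL] at hL1 hE2 hE3 hE4 hAE hpnt' hsm' hexpL ⊢
  simp only [← hL] at hbig'
  have hL01 : 1 ≤ L := by linarith
  have hL0 : 0 < L := by linarith
  have hXR : (0 : ℝ) < X := by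
    have : 0 < X := by omega
    exact_mod_cast this
  have hAR : (1 : ℝ) ≤ A := by exact_mod_cast hA
  rcases Nat.eq_zero_or_pos Q with hQ0 | hQ0
  · subst hQ0
    simp only [show Icc 1 0 = (∅ : Finset ℕ) from rfl, Finset.filter_empty, Finset.sum_empty]
    positivity
  have hQ1R : (1 : ℝ) ≤ Q := by exact_mod_cast hQ0
  -- sizes
  obtain ⟨E, hEd⟩ : ∃ E : ℝ, E = Real.exp (L ^ (1 / 2500 : ℝ)) := ⟨_, rfl⟩
  obtain ⟨F, hFd⟩ : ∃ F : ℝ, F = Real.exp (L ^ (1 / 2100 : ℝ)) := ⟨_, rfl⟩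
  obtain ⟨G, hGd⟩ : ∃ G : ℝ, G = Real.exp (L ^ (1 / 150 : ℝ)) := ⟨_, rfl⟩
  have hE0 : 0 < E := by rw [hEd]; exact Real.exp_pos _
  have hF0 : 0 < F := by rw [hFd]; exact Real.exp_pos _
  have hG0 : 0 < G := by rw [hGd]; exact Real.exp_pos _
  have hsq : L ^ (1 / 2 : ℝ) ≤ L / 20 := by
    rw [← Real.sqrt_eq_rpow, Real.sqrt_le_left (by positivity)]
    nlinarith
  have h25 : L ^ (1 / 2500 : ℝ) ≤ L / 20 :=
    (Real.rpow_le_rpow_of_exponent_le hL01 (by norm_num)).trans hsq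
  have hAQ : (A : ℝ) * Q ≤ (X : ℝ) ^ (3 / 10 : ℝ) := by
    rw [hrp]
    rw [hrp] at hQ
    calc (A : ℝ) * Q ≤ Real.exp (L ^ (1 / 2500 : ℝ)) * Real.exp (L * (1 / 4)) :=
          mul_le_mul hAE hQ (by positivity) (by positivity)
      _ = Real.exp (L ^ (1 / 2500 : ℝ) + L * (1 / 4)) := (Real.exp_add _ _).symm
      _ ≤ Real.exp (L * (3 / 10)) := by
          apply Real.exp_le_exp.2
          linarith
  have hAQX : (A : ℝ) * Q ≤ X := by
    refine hAQ.trans ?_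
    rw [hrp, ← hexpL]
    apply Real.exp_le_exp.2
    linarith
  have hAQX' : A * Q ≤ X := by exact_mod_cast hAQX
  have hlogA : Real.log A ≤ L := by
    have h1 : Real.log A ≤ L ^ (1 / 2500 : ℝ) := by
      have := Real.log_le_log (by linarith) hAE
      rwa [Real.log_exp] at this
    linarith
  have hQX : (Q : ℝ) ≤ X := by nlinarith
  have hlogQ : Real.log Q ≤ L := by
    rw [hL]
    exact Real.log_le_log (by linarith) hQX
  have hlogQ0 : 0 ≤ Real.log Q := Real.log_nonneg hQ1R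
  have hlogAQ : Real.log ((A * Q : ℕ) : ℝ) ≤ L := by
    rw [hL]
    exact Real.log_le_log (by push_cast; nlinarith) (by push_cast; exact hAQX)
  have hlogAQ0 : 0 ≤ Real.log ((A * Q : ℕ) : ℝ) := Real.log_natCast_nonneg _
  have h4L : 3 * (1 + Real.log Q) ^ 2 ≤ 12 * L ^ 2 := by
    have h1 : (1 + Real.log Q) ≤ 2 * L := by linarith
    have h2 : (1 + Real.log Q) ^ 2 ≤ (2 * L) ^ 2 := pow_le_pow_left₀ (by linarith) h1 2
    nlinarith
  have h4L' : 3 * (1 + Real.log ((A * Q : ℕ) : ℝ)) ^ 2 ≤ 12 * L ^ 2 := by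
    have h1 : (1 + Real.log ((A * Q : ℕ) : ℝ)) ≤ 2 * L := by linarith
    have h2 : (1 + Real.log ((A * Q : ℕ) : ℝ)) ^ 2 ≤ (2 * L) ^ 2 :=
      pow_le_pow_left₀ (by linarith) h1 2
    nlinarith
  -- the expansion
  obtain ⟨P, hP⟩ : ∃ P : ℝ, P = |∑ n ∈ Icc 1 X, ArithmeticFunction.vonMangoldt n - X| := ⟨_, rfl⟩
  have hP0 : 0 ≤ P := by rw [hP]; exact abs_nonneg _
  rw [← hP] at hpnt'
  obtain ⟨g, hg⟩ : ∃ g : ℕ → ℝ, g = fun r => ∑ χ ∈ prim r, ‖psi X χ‖ := ⟨_, rfl⟩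
  have hg0 : ∀ r, 0 ≤ g r := fun r => by
    rw [hg]; exact Finset.sum_nonneg fun _ _ => norm_nonneg _
  obtain ⟨Q1, hQ1⟩ : ∃ Q1 : ℕ, Q1 = ⌊F⌋₊ := ⟨_, rfl⟩
  have hQ1F : (Q1 : ℝ) ≤ F := by rw [hQ1]; exact Nat.floor_le hF0.le
  have hF2 : 2 ≤ F := by
    rw [hFd]
    have h1 : (1 : ℝ) ≤ L ^ (1 / 2100 : ℝ) := Real.one_le_rpow hL01 (by norm_num)
    have h2 := Real.add_one_le_exp (L ^ (1 / 2100 : ℝ))
    linarith
  have hQ1low : F / 2 ≤ Q1 := by
    have h1 : F < Q1 + 1 := by rw [hQ1]; exact Nat.lt_floor_add_one F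
    linarith
  have hQ1pos : 1 ≤ Q1 := by
    have h1 : (1 : ℝ) ≤ Q1 := by linarith
    exact_mod_cast h1
  obtain ⟨g', hg'⟩ : ∃ g' : ℕ → ℝ, g' = fun r => if Q1 < r then g r else 0 := ⟨_, rfl⟩
  have hg'0 : ∀ r, 0 ≤ g' r := fun r => by
    rw [hg']
    show 0 ≤ if Q1 < r then g r else 0
    split_ifs
    · exact hg0 r
    · exact le_refl 0
  obtain ⟨K, hK⟩ : ∃ K : ℝ, K = F * (X / G) := ⟨_, rfl⟩
  have hK0 : 0 ≤ K := by rw [hK]; positivity
  obtain ⟨S, hS⟩ : ∃ S : Finset ℕ, S = (Icc 1 Q).filter (fun q => ¬ e ∣ A * q) := ⟨_, rfl⟩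
  have hSsub : S ⊆ Icc 1 Q := by rw [hS]; exact Finset.filter_subset _ _
  have hone : ∀ q ∈ S, |Er X (A * q) (a q)| ≤ (P + K) * (1 / (Nat.totient (A * q) : ℝ)) +
      (1 / (Nat.totient (A * q) : ℝ)) *
        (∑ r ∈ (A * q).divisors.filter (fun r => 2 ≤ r), g' r) + 4 * L ^ 2 := by
    intro q hq
    have hqI := hSsub hq
    rw [hS, Finset.mem_filter] at hq
    have hqe := hq.2
    rw [Finset.mem_Icc] at hqI
    have hAq1 : 1 ≤ A * q := Nat.mul_pos (by omega) (by omega)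
    have hAqX : A * q ≤ X := (Nat.mul_le_mul_left A hqI.2).trans hAQX'
    have h1 := expand X (A * q) (a q) (by omega) hAq1 hAqX (ha q (Finset.mem_Icc.2 hqI))
    rw [← hP, ← hL] at h1
    have h2 := sort_cond (A * q) hAq1 (fun r χ => ‖psi X χ‖) (fun r χ => norm_nonneg _)
    have h3 : (1 / (Nat.totient (A * q) : ℝ)) *
        (∑ χ ∈ nonpr (A * q), ‖psi X χ.primitiveCharacter‖) ≤
        (1 / (Nat.totient (A * q) : ℝ)) *
          (∑ r ∈ (A * q).divisors.filter (fun r => 2 ≤ r), g r) := by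
      rw [hg]
      exact mul_le_mul_of_nonneg_left h2 (by positivity)
    have h4 : ∑ r ∈ (A * q).divisors.filter (fun r => 2 ≤ r), g r ≤
        K + ∑ r ∈ (A * q).divisors.filter (fun r => 2 ≤ r), g' r := by
      have h5 : ∀ r ∈ (A * q).divisors.filter (fun r => 2 ≤ r), g r =
          (if r ≤ Q1 then g r else 0) + g' r := by
        intro r _
        rw [hg']
        show g r = (if r ≤ Q1 then g r else 0) + if Q1 < r then g r else 0
        by_cases hr : r ≤ Q1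
        · rw [if_pos hr, if_neg (by omega), add_zero]
        · rw [if_neg hr, if_pos (by omega), zero_add]
      rw [Finset.sum_congr rfl h5, Finset.sum_add_distrib, ← Finset.sum_filter]
      apply add_le_add_left
      have h6 : ∀ r ∈ ((A * q).divisors.filter (fun r => 2 ≤ r)).filter (fun r => r ≤ Q1),
          g r ≤ X / G := by
        intro r hr
        rw [Finset.mem_filter, Finset.mem_filter, Nat.mem_divisors] at hr
        obtain ⟨⟨⟨hr1, _⟩, hr2⟩, hr3⟩ := hr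
        have h7 := hsm' r hr2 (fun h => hqe (h.trans hr1)) (by
          rw [← hFd]
          exact le_trans (by exact_mod_cast hr3) hQ1F)
        rw [hg]
        show ∑ χ ∈ prim r, ‖psi X χ‖ ≤ X / G
        rw [hGd, div_eq_mul_inv, ← Real.exp_neg]
        exact h7
      refine (Finset.sum_le_card_nsmul _ _ _ h6).trans ?_
      rw [nsmul_eq_mul, hK]
      apply mul_le_mul_of_nonneg_right _ (by positivity)
      refine le_trans ?_ hQ1F
      have h8 : ((A * q).divisors.filter (fun r => 2 ≤ r)).filter (fun r => r ≤ Q1) ⊆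
          Icc 1 Q1 := by
        intro r hr
        rw [Finset.mem_filter, Finset.mem_filter] at hr
        rw [Finset.mem_Icc]
        exact ⟨by omega, hr.2⟩
      have h9 := Finset.card_le_card h8
      rw [Nat.card_Icc] at h9
      exact_mod_cast (by omega :
        (((A * q).divisors.filter (fun r => 2 ≤ r)).filter (fun r => r ≤ Q1)).card ≤ Q1)
    have h5 := mul_le_mul_of_nonneg_left h4
      (show (0 : ℝ) ≤ 1 / (Nat.totient (A * q) : ℝ) by positivity)
    rw [mul_add] at h1 h5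
    have e1 : (P + K) * (1 / (Nat.totient (A * q) : ℝ)) =
        1 / (Nat.totient (A * q) : ℝ) * P + 1 / (Nat.totient (A * q) : ℝ) * K := by ring
    rw [e1]
    linarith
  rw [← hS]
  refine (Finset.sum_le_sum hone).trans ?_
  rw [Finset.sum_add_distrib, Finset.sum_add_distrib, ← Finset.mul_sum, Finset.sum_const]
  -- the sum of the reciprocals of the totients
  have hT1 : ∑ q ∈ S, 1 / (Nat.totient (A * q) : ℝ) ≤ 36 * L ^ 3 / A := by
    have hφA : (0 : ℝ) < Nat.totient A := by exact_mod_cast Nat.totient_pos.mpr (by omega)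
    have h1 : ∑ q ∈ S, 1 / (Nat.totient (A * q) : ℝ) ≤
        ∑ q ∈ Icc 1 Q, 1 / (Nat.totient (A * q) : ℝ) :=
      Finset.sum_le_sum_of_subset_of_nonneg hSsub fun _ _ _ => by positivity
    have h2 : ∑ q ∈ Icc 1 Q, 1 / (Nat.totient (A * q) : ℝ) ≤
        ∑ q ∈ Icc 1 Q, (1 / (Nat.totient A : ℝ)) * (1 / (Nat.totient q : ℝ)) := by
      apply Finset.sum_le_sum
      intro q hq
      rw [Finset.mem_Icc] at hq
      have hφq : (0 : ℝ) < Nat.totient q := by exact_mod_cast Nat.totient_pos.mpr (by omega)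
      rw [one_div_mul_one_div]
      apply one_div_le_one_div_of_le (by positivity)
      exact_mod_cast tot_mul A q
    rw [← Finset.mul_sum] at h2
    have h3 := tot_sum Q hQ0
    have h4 := phi_low A hA
    have h5 : 1 / (Nat.totient A : ℝ) ≤ 3 * L / A := by
      rw [div_le_div_iff₀ hφA (by linarith)]
      rw [div_le_iff₀ hφA] at h4
      have : (1 + 2 * Real.log A) * (Nat.totient A : ℝ) ≤ 3 * L * (Nat.totient A : ℝ) :=
        mul_le_mul_of_nonneg_right (by linarith) hφA.le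
      linarith
    have h6 : (1 / (Nat.totient A : ℝ)) * ∑ q ∈ Icc 1 Q, 1 / (Nat.totient q : ℝ) ≤
        3 * L / A * (12 * L ^ 2) :=
      mul_le_mul h5 (h3.trans h4L) (Finset.sum_nonneg fun _ _ => by positivity) (by positivity)
    have e1 : 3 * L / A * (12 * L ^ 2) = 36 * L ^ 3 / A := by ring
    linarith
  -- large conductors
  have hT2 : ∑ q ∈ S, (1 / (Nat.totient (A * q) : ℝ)) *
      (∑ r ∈ (A * q).divisors.filter (fun r => 2 ≤ r), g' r) ≤
      12 * L ^ 2 * (L ^ D * (X / Q1 + (X : ℝ) ^ (19 / 20 : ℝ))) := by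
    have hinj : Function.Injective (fun q : ℕ => A * q) := fun x y h =>
      Nat.eq_of_mul_eq_mul_left (by omega) h
    have h1 : ∑ q ∈ S, (1 / (Nat.totient (A * q) : ℝ)) *
        (∑ r ∈ (A * q).divisors.filter (fun r => 2 ≤ r), g' r) =
        ∑ k ∈ S.image (fun q => A * q), (1 / (Nat.totient k : ℝ)) *
          (∑ r ∈ k.divisors.filter (fun r => 2 ≤ r), g' r) :=
      (Finset.sum_image (f := fun k : ℕ => (1 / (Nat.totient k : ℝ)) *
          (∑ r ∈ k.divisors.filter (fun r => 2 ≤ r), g' r)) (fun _ _ _ _ h => hinj h)).symm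
    have h2 : S.image (fun q => A * q) ⊆ Icc 1 (A * Q) := by
      intro k hk
      rw [Finset.mem_image] at hk
      obtain ⟨q, hq, rfl⟩ := hk
      have hq2 := Finset.mem_Icc.1 (hSsub hq)
      rw [Finset.mem_Icc]
      exact ⟨Nat.mul_pos (by omega) (by omega), Nat.mul_le_mul_left A hq2.2⟩
    have h3 : ∑ k ∈ S.image (fun q => A * q), (1 / (Nat.totient k : ℝ)) *
          (∑ r ∈ k.divisors.filter (fun r => 2 ≤ r), g' r) ≤
        ∑ k ∈ Icc 1 (A * Q), (1 / (Nat.totient k : ℝ)) *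
          (∑ r ∈ k.divisors.filter (fun r => 2 ≤ r), g' r) :=
      Finset.sum_le_sum_of_subset_of_nonneg h2 fun k _ _ =>
        mul_nonneg (by positivity) (Finset.sum_nonneg fun r _ => hg'0 r)
    have h4 := tot_sort (A * Q) (Nat.mul_pos (by omega) (by omega)) g' hg'0
    have h5 : ∑ r ∈ Icc 2 (A * Q), (1 / (Nat.totient r : ℝ)) * g' r ≤
        ∑ r ∈ Ioc Q1 (A * Q), (1 / (Nat.totient r : ℝ)) * g r := by
      have h6 : ∀ r ∈ Icc 2 (A * Q), (1 / (Nat.totient r : ℝ)) * g' r =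
          if Q1 < r then (1 / (Nat.totient r : ℝ)) * g r else 0 := by
        intro r _
        rw [hg']
        show (1 / (Nat.totient r : ℝ)) * (if Q1 < r then g r else 0) = _
        split_ifs
        · rfl
        · rw [mul_zero]
      rw [Finset.sum_congr rfl h6, ← Finset.sum_filter]
      apply Finset.sum_le_sum_of_subset_of_nonneg
      · intro r hr
        rw [Finset.mem_filter, Finset.mem_Icc] at hr
        rw [Finset.mem_Ioc]
        exact ⟨hr.2, hr.1.2⟩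
      · intro r _ _
        have := hg0 r
        positivity
    have h6 := hbig' Q1 (A * Q) hQ1pos (by push_cast; exact hAQ)
    have h7 : ∑ r ∈ Ioc Q1 (A * Q), (1 / (Nat.totient r : ℝ)) * g r ≤
        L ^ D * (X / Q1 + (X : ℝ) ^ (19 / 20 : ℝ)) := by
      rw [hg]
      exact h6
    rw [h1]
    refine (h3.trans h4).trans ?_
    apply mul_le_mul h4L' (h5.trans h7) _ (by positivity)
    exact Finset.sum_nonneg fun r _ => mul_nonneg (by positivity) (hg'0 r)
  have hA0 : (0 : ℝ) < A := by linarith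
  have hLB : 0 < L ^ B := pow_pos hL0 B
  obtain ⟨Y, hY⟩ : ∃ Y : ℝ, Y = X / (A * L ^ B) := ⟨_, rfl⟩
  have hY0 : 0 < Y := by rw [hY]; positivity
  rw [← hY]
  -- (1)
  have k1 : P * (36 * L ^ 3 / A) ≤ Y / 4 := by
    have h1 : P * (36 * L ^ 3 / A) ≤ (X / L ^ (B + 5)) * (36 * L ^ 3 / A) :=
      mul_le_mul_of_nonneg_right hpnt' (by positivity)
    have h2 : (X / L ^ (B + 5)) * (36 * L ^ 3 / A) = Y * 36 / L ^ 2 := by
      rw [hY, pow_add L B 5]
      field_simp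
    have h3 : Y * 36 / L ^ 2 ≤ Y / 4 := by
      rw [div_le_div_iff₀ (by positivity) (by norm_num)]
      nlinarith [mul_le_mul hL1 hL1 (by norm_num) hL0.le]
    linarith
  -- (2)
  have k2 : K * (36 * L ^ 3 / A) ≤ Y / 4 := by
    have h1 : 288 * L ^ (B + 3) * F ≤ G := by rw [hFd, hGd]; exact hE2
    have h2 : K * (36 * L ^ 3 / A) = Y * (36 * L ^ (B + 3) * F / G) := by
      rw [hY, hK, pow_add L B 3]
      field_simp
    rw [h2]
    have h3 : 36 * L ^ (B + 3) * F / G ≤ 1 / 4 := by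
      rw [div_le_div_iff₀ hG0 (by norm_num)]
      have : 0 ≤ L ^ (B + 3) * F := by positivity
      linarith
    calc Y * (36 * L ^ (B + 3) * F / G) ≤ Y * (1 / 4) := mul_le_mul_of_nonneg_left h3 hY0.le
      _ = Y / 4 := by ring
  -- (3)
  have k3 : 12 * L ^ 2 * (L ^ D * (X / Q1 + (X : ℝ) ^ (19 / 20 : ℝ))) ≤ Y / 4 := by
    have hXY : (X : ℝ) = Y * (A * L ^ B) := by
      rw [hY]
      field_simp
    have hQ1R : (0 : ℝ) < Q1 := by linarith
    have h1 : (X : ℝ) / Q1 ≤ 2 * X / F := by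
      rw [div_le_div_iff₀ hQ1R hF0]
      nlinarith
    have h2 : (X : ℝ) ^ (19 / 20 : ℝ) = X * (1 / Real.exp (L / 20)) := by
      rw [hrp]
      nth_rw 1 [← hexpL]
      rw [one_div, ← Real.exp_neg, ← Real.exp_add]
      congr 1
      ring
    have h3 : 192 * L ^ (D + 2 + B) * E ≤ F := by rw [hFd, hEd]; exact hE3
    have h4 : 96 * L ^ (D + 2 + B) * E ≤ Real.exp (L / 20) := by
      rw [hEd]
      exact hE4.trans (Real.exp_le_exp.2 hsq)
    have hH0 : 0 < Real.exp (L / 20) := Real.exp_pos _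
    have h5 : 12 * L ^ 2 * (L ^ D * (X / Q1 + (X : ℝ) ^ (19 / 20 : ℝ))) ≤
        12 * L ^ 2 * (L ^ D * (2 * X / F + X * (1 / Real.exp (L / 20)))) := by
      rw [h2]
      gcongr
    have h6 : 12 * L ^ 2 * (L ^ D * (2 * X / F + X * (1 / Real.exp (L / 20)))) =
        Y * (A * (24 * L ^ (D + 2 + B)) / F + A * (12 * L ^ (D + 2 + B)) / Real.exp (L / 20)) := by
      rw [hXY, pow_add, pow_add]
      field_simp
      ring
    have h7 : A * (24 * L ^ (D + 2 + B)) / F ≤ 1 / 8 := by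
      rw [div_le_div_iff₀ hF0 (by norm_num)]
      have h8 : (A : ℝ) * L ^ (D + 2 + B) ≤ E * L ^ (D + 2 + B) :=
        mul_le_mul_of_nonneg_right (by rw [hEd]; exact hAE) (by positivity)
      nlinarith
    have h8 : A * (12 * L ^ (D + 2 + B)) / Real.exp (L / 20) ≤ 1 / 8 := by
      rw [div_le_div_iff₀ hH0 (by norm_num)]
      have h9 : (A : ℝ) * L ^ (D + 2 + B) ≤ E * L ^ (D + 2 + B) :=
        mul_le_mul_of_nonneg_right (by rw [hEd]; exact hAE) (by positivity)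
      nlinarith
    refine h5.trans ?_
    rw [h6]
    calc Y * (A * (24 * L ^ (D + 2 + B)) / F + A * (12 * L ^ (D + 2 + B)) / Real.exp (L / 20))
        ≤ Y * (1 / 8 + 1 / 8) := mul_le_mul_of_nonneg_left (add_le_add h7 h8) hY0.le
      _ = Y / 4 := by ring
  -- (4)
  have k4 : (S.card • (4 * L ^ 2) : ℝ) ≤ Y / 4 := by
    have hSc : (S.card : ℝ) ≤ Q := by
      have h1 := Finset.card_le_card hSsub
      rw [Nat.card_Icc] at h1
      exact_mod_cast (by omega : S.card ≤ Q)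
    rw [nsmul_eq_mul, hY, div_div, le_div_iff₀ (by positivity)]
    have h1 : (S.card : ℝ) * (4 * L ^ 2) * (A * L ^ B * 4) ≤
        (Q : ℝ) * (4 * L ^ 2) * (A * L ^ B * 4) := by gcongr
    have h2 : (Q : ℝ) * (4 * L ^ 2) * (A * L ^ B * 4) = (A * Q) * (16 * L ^ (B + 2)) := by
      rw [pow_add]
      ring
    have h3 : (A : ℝ) * Q ≤ Real.exp (L * (3 / 10)) := by
      rw [← hrp]
      exact hAQ
    have h4 : 16 * L ^ (B + 2) ≤ Real.exp (L / 20) := by
      have h5 : 96 * L ^ (D + 2 + B) * E ≤ Real.exp (L / 20) := by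
        rw [hEd]
        exact hE4.trans (Real.exp_le_exp.2 hsq)
      have h6 : L ^ (B + 2) ≤ L ^ (D + 2 + B) := pow_le_pow_right₀ hL01 (by omega)
      have h7 : 1 ≤ E := by
        rw [hEd]
        exact Real.one_le_exp (by positivity)
      have h8 : 0 < L ^ (D + 2 + B) := by positivity
      nlinarith
    have h5 : (A * Q : ℝ) * (16 * L ^ (B + 2)) ≤ Real.exp (L * (3 / 10)) * Real.exp (L / 20) :=
      mul_le_mul h3 h4 (by positivity) (by positivity)
    have h6 : Real.exp (L * (3 / 10)) * Real.exp (L / 20) ≤ X := by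
      rw [← Real.exp_add, ← hexpL]
      apply Real.exp_le_exp.2
      linarith
    linarith
  have k5 : (P + K) * ∑ q ∈ S, 1 / (Nat.totient (A * q) : ℝ) ≤
      P * (36 * L ^ 3 / A) + K * (36 * L ^ 3 / A) := by
    rw [← add_mul]
    exact mul_le_mul_of_nonneg_left hT1 (by linarith)
  linarith

end Pool.CP
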