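import Pool.Agent.Lib.MP_c77da8_nt.CP.BvFixM
import Pool.Agent.Lib.MP_c77da8_nt.CP.BvTriv
import Pool.Agent.Lib.BV.DivMom

/-!
# CP-BvWtM: the weighted Bombieri-Vinogradov theorem for the moduli `A m`

PROOF (compare `bv_weight` in `BV/BVWeight.lean` and `bv_wt` in `DL/Bvw.lean`).  `L = log X`, `Q = ⌊X^(1/4)⌋`.  For `q ∈ Icc 1 Q` let `a q` be a class maximising
`|Et X (A q) (c i)|` among the `i ∈ I` with `m i = q` (if there is none: `a q = 1`; then the terms are not used: sum only over the `q` of the form `m i`, for which `¬ e ∣ A q`).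
The sum is at most `∑_q τ(q)^k |Et X (A q) (a q)|`, over the `q ≤ Q` with `¬ e ∣ A q`; by Cauchy-Schwarz it is at most the square root of
`∑_q τ(q)^(2k) |Et X (A q) (a q)| · ∑_q |Et X (A q) (a q)|`.  The first factor: `et_triv` (`A q ≤ X`) and `∑_(q ≤ Q) τ(q)^(2k)/q ≤ L^C` (from `div_mom (2k)` by dyadic
decomposition, or as in the proof of `bv_weight`): `≤ (5 X L/A) L^C`.  The second: `et_er` and `bvm_fix (2 B + C + 4)`: `≤ X/(A L^(2B+C+4)) + 2 Q √X L ≤ 2 X/(A L^(2B+C+4))` for large `X`.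
The product is at most `(X/(A L^B))²`.
-/

set_option autoImplicit false

namespace Pool.CP

open Finset Pool.BV

private theorem bvWtM_ev (n : ℕ) : ∀ᶠ x : ℝ in Filter.atTop,
    1 ≤ x ∧ 2 * Real.exp (x ^ (1 / 2500 : ℝ)) * x ^ n ≤ Real.exp (x / 4) ∧
    Real.exp (x ^ (1 / 2500 : ℝ)) * Real.exp (x / 4) ≤ Real.exp x := by
  have h1 : ∀ᶠ x : ℝ in Filter.atTop, (x / 16) ^ n * Real.exp (-(x / 16)) ≤ 1 / (2 * 16 ^ n) := by
    have t1 : Filter.Tendsto (fun x : ℝ => x / 16) Filter.atTop Filter.atTop :=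
      Filter.tendsto_id.atTop_div_const (by norm_num)
    have t2 := (Real.tendsto_pow_mul_exp_neg_atTop_nhds_zero n).comp t1
    have t3 : (0 : ℝ) < 1 / (2 * 16 ^ n) := by positivity
    exact (t2.eventually (gt_mem_nhds t3)).mono fun x hx => hx.le
  filter_upwards [h1, Filter.eventually_ge_atTop (256 : ℝ)] with x hx h256
  have hx0 : 0 < x := by linarith
  have hr : x ^ (1 / 2500 : ℝ) ≤ x / 16 := by
    have e1 : x ^ (1 / 2500 : ℝ) ≤ x ^ (1 / 2 : ℝ) :=
      Real.rpow_le_rpow_of_exponent_le (by linarith) (by norm_num)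
    rw [← Real.sqrt_eq_rpow] at e1
    have e2 : (16 : ℝ) ≤ Real.sqrt x := Real.le_sqrt_of_sq_le (by norm_num; linarith)
    have e3 : Real.sqrt x * Real.sqrt x = x := Real.mul_self_sqrt hx0.le
    nlinarith
  have he : Real.exp (x ^ (1 / 2500 : ℝ)) ≤ Real.exp (x / 16) := Real.exp_le_exp.2 hr
  refine ⟨by linarith, ?_, ?_⟩
  · have e1 : 2 * x ^ n ≤ Real.exp (x / 16) := by
      rw [Real.exp_neg, div_pow, div_mul_eq_mul_div, div_le_div_iff₀ (by positivity) (by positivity)] at hx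
      have e2 : 0 < Real.exp (x / 16) := Real.exp_pos _
      have e3 : (0 : ℝ) < 16 ^ n := by positivity
      have e4 : x ^ n * (Real.exp (x / 16))⁻¹ * 2 ≤ 1 := by
        have : (x ^ n * (Real.exp (x / 16))⁻¹ * 2) * 16 ^ n ≤ 1 * 16 ^ n := by linarith
        exact le_of_mul_le_mul_right this e3
      have e5 : 2 * x ^ n = (x ^ n * (Real.exp (x / 16))⁻¹ * 2) * Real.exp (x / 16) := by
        field_simp
      rw [e5]
      calc (x ^ n * (Real.exp (x / 16))⁻¹ * 2) * Real.exp (x / 16) ≤ 1 * Real.exp (x / 16) :=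
            mul_le_mul_of_nonneg_right e4 e2.le
        _ = Real.exp (x / 16) := one_mul _
    calc 2 * Real.exp (x ^ (1 / 2500 : ℝ)) * x ^ n = Real.exp (x ^ (1 / 2500 : ℝ)) * (2 * x ^ n) := by ring
      _ ≤ Real.exp (x / 16) * Real.exp (x / 16) := mul_le_mul he e1 (by positivity) (Real.exp_pos _).le
      _ = Real.exp (x / 16 + x / 16) := (Real.exp_add _ _).symm
      _ ≤ Real.exp (x / 4) := Real.exp_le_exp.2 (by linarith)
  · calc Real.exp (x ^ (1 / 2500 : ℝ)) * Real.exp (x / 4) ≤ Real.exp (x / 16) * Real.exp (x / 4) :=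
          mul_le_mul_of_nonneg_right he (Real.exp_pos _).le
      _ = Real.exp (x / 16 + x / 4) := (Real.exp_add _ _).symm
      _ ≤ Real.exp x := Real.exp_le_exp.2 (by linarith)

private theorem bvWtM_asym (n : ℕ) (T : ℝ) : ∃ X0 : ℕ, ∀ X : ℕ, X0 ≤ X → 8 ≤ X ∧
    T ≤ Real.log X ∧ 1 ≤ Real.log X ∧
    2 * Real.exp (Real.log X ^ (1 / 2500 : ℝ)) * Real.log X ^ n ≤ (X : ℝ) ^ (1 / 4 : ℝ) ∧
    Real.exp (Real.log X ^ (1 / 2500 : ℝ)) * (X : ℝ) ^ (1 / 4 : ℝ) ≤ X := by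
  have h1 : Filter.Tendsto (fun X : ℕ => Real.log X) Filter.atTop Filter.atTop :=
    Real.tendsto_log_atTop.comp tendsto_natCast_atTop_atTop
  have h2 := h1.eventually ((bvWtM_ev n).and (Filter.eventually_ge_atTop T))
  obtain ⟨X0, hX0⟩ := Filter.eventually_atTop.1 h2
  refine ⟨max X0 8, fun X hX => ?_⟩
  obtain ⟨⟨e1, e2, e3⟩, e4⟩ := hX0 X ((le_max_left _ _).trans hX)
  have h8 : 8 ≤ X := (le_max_right _ _).trans hX
  have hXr : (0 : ℝ) < X := by
    have : 0 < X := by omega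
    exact_mod_cast this
  have e5 : (X : ℝ) ^ (1 / 4 : ℝ) = Real.exp (Real.log X / 4) := by
    rw [Real.rpow_def_of_pos hXr]
    congr 1
    ring
  rw [Real.exp_log hXr] at e3
  rw [e5]
  exact ⟨h8, e4, e1, e2, e3⟩

/-- Cauchy-Schwarz with the trivial bound -/
private theorem bvWtM_cs (B k C X Q : ℕ) (A : ℝ) (hA : 1 ≤ A) (S : Finset ℕ) (hS : S ⊆ Icc 1 Q)
    (e : ℕ → ℝ) (L : ℝ) (hL1 : 1 ≤ L) (hL : 10 * 2 ^ C ≤ L)
    (htriv : ∀ q ∈ S, |e q| ≤ 5 * X * L / (A * q))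
    (hdiv : ∑ q ∈ Icc 1 Q, (q.divisors.card : ℝ) ^ (2 * k) / q ≤ (2 * L) ^ C)
    (hsum : ∑ q ∈ S, |e q| ≤ 2 * (X / (A * L ^ (2 * B + C + 4)))) :
    ∑ q ∈ S, (q.divisors.card : ℝ) ^ k * |e q| ≤ X / (A * L ^ B) := by
  have hX0 : (0 : ℝ) ≤ X := Nat.cast_nonneg _
  have hA0 : 0 < A := by linarith
  have hL0 : 0 < L := by linarith
  obtain ⟨T, hT⟩ : ∃ T : ℝ, T = ∑ q ∈ S, (q.divisors.card : ℝ) ^ k * |e q| := ⟨_, rfl⟩
  rw [← hT]
  have hcs : T ^ 2 ≤ (∑ q ∈ S, ((q.divisors.card : ℝ) ^ k) ^ 2 * |e q|) * ∑ q ∈ S, |e q| := by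
    have h1 := Finset.sum_mul_sq_le_sq_mul_sq S
      (fun q => (q.divisors.card : ℝ) ^ k * Real.sqrt |e q|) (fun q => Real.sqrt |e q|)
    have e1 : ∀ q, (q.divisors.card : ℝ) ^ k * Real.sqrt |e q| * Real.sqrt |e q| =
        (q.divisors.card : ℝ) ^ k * |e q| := fun q => by
      rw [mul_assoc, Real.mul_self_sqrt (abs_nonneg _)]
    have e2 : ∀ q, ((q.divisors.card : ℝ) ^ k * Real.sqrt |e q|) ^ 2 =
        ((q.divisors.card : ℝ) ^ k) ^ 2 * |e q| := fun q => by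
      rw [mul_pow, Real.sq_sqrt (abs_nonneg _)]
    have e3 : ∀ q, Real.sqrt |e q| ^ 2 = |e q| := fun q => Real.sq_sqrt (abs_nonneg _)
    simp only [e1, e2, e3] at h1
    rw [hT]
    exact h1
  have h1 : ∑ q ∈ S, ((q.divisors.card : ℝ) ^ k) ^ 2 * |e q| ≤ 5 * X * L / A * (2 * L) ^ C := by
    calc ∑ q ∈ S, ((q.divisors.card : ℝ) ^ k) ^ 2 * |e q|
        ≤ ∑ q ∈ S, 5 * X * L / A * ((q.divisors.card : ℝ) ^ (2 * k) / q) := by
          refine Finset.sum_le_sum fun q hq => ?_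
          calc ((q.divisors.card : ℝ) ^ k) ^ 2 * |e q| ≤
                ((q.divisors.card : ℝ) ^ k) ^ 2 * (5 * X * L / (A * q)) :=
                mul_le_mul_of_nonneg_left (htriv q hq) (by positivity)
            _ = 5 * X * L / A * ((q.divisors.card : ℝ) ^ (2 * k) / q) := by
                rw [← pow_mul, mul_comm k 2, div_mul_eq_div_div]
                ring
      _ ≤ ∑ q ∈ Icc 1 Q, 5 * X * L / A * ((q.divisors.card : ℝ) ^ (2 * k) / q) :=
          Finset.sum_le_sum_of_subset_of_nonneg hS fun q _ _ => by positivity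
      _ = 5 * X * L / A * ∑ q ∈ Icc 1 Q, (q.divisors.card : ℝ) ^ (2 * k) / q := by
          rw [Finset.mul_sum]
      _ ≤ _ := mul_le_mul_of_nonneg_left hdiv (by positivity)
  have h2 : T ^ 2 ≤ (X / (A * L ^ B)) ^ 2 := by
    have hE : 0 ≤ ∑ q ∈ S, |e q| := Finset.sum_nonneg fun _ _ => abs_nonneg _
    have h3 : 10 * 2 ^ C ≤ L ^ 3 := by
      refine hL.trans ?_
      calc L = L ^ 1 := (pow_one L).symm
        _ ≤ L ^ 3 := pow_le_pow_right₀ hL1 (by norm_num)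
    calc T ^ 2 ≤ (5 * X * L / A * (2 * L) ^ C) * (2 * (X / (A * L ^ (2 * B + C + 4)))) :=
          hcs.trans (mul_le_mul h1 hsum hE (by positivity))
      _ = (10 * 2 ^ C / L ^ 3) * (X / (A * L ^ B)) ^ 2 := by
          rw [mul_pow 2 L C, div_pow, mul_pow A, ← pow_mul,
            show 2 * B + C + 4 = B * 2 + (C + 4) by ring, pow_add, pow_add]
          field_simp
          ring
      _ ≤ 1 * (X / (A * L ^ B)) ^ 2 := by
          refine mul_le_mul_of_nonneg_right ?_ (by positivity)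
          rw [div_le_one (by positivity)]
          exact h3
      _ = (X / (A * L ^ B)) ^ 2 := one_mul _
  exact le_of_sq_le_sq h2 (by positivity)

theorem bvm_wt (B k : ℕ) : ∃ X0 : ℕ, ∀ X : ℕ, X0 ≤ X → ∀ A e : ℕ, 1 ≤ A →
    (A : ℝ) ≤ Real.exp (Real.log X ^ (1 / 2500 : ℝ)) → NoExc (Real.log X) e →
    ∀ (ι : Type) (I : Finset ι) (m c : ι → ℕ) (wt : ι → ℝ),
    (∀ i ∈ I, 0 ≤ wt i ∧ 1 ≤ m i ∧ (m i : ℝ) ≤ (X : ℝ) ^ (1 / 4 : ℝ) ∧ ¬ e ∣ A * m i ∧
      Nat.Coprime (c i) (A * m i)) →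
    (∀ n, ∑ i ∈ I.filter (fun i => m i = n), wt i ≤ (n.divisors.card : ℝ) ^ k) →
    ∑ i ∈ I, wt i * |Et X (A * m i) (c i)| ≤ X / (A * Real.log X ^ B) := by
  obtain ⟨C, hC⟩ := div_mom (2 * k)
  obtain ⟨X1, hfix⟩ := bvm_fix (2 * B + C + 4)
  obtain ⟨X2, has⟩ := bvWtM_asym (2 * B + C + 5) (10 * 2 ^ C)
  refine ⟨max X1 X2, fun X hX A e hA1 hAle hno ι I m c wt hI hw => ?_⟩
  obtain ⟨h8, hL, hL1, has1, has2⟩ := has X ((le_max_right _ _).trans hX)
  have hfix' := hfix X ((le_max_left _ _).trans hX)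
  obtain ⟨L, hLdef⟩ : ∃ L : ℝ, L = Real.log X := ⟨_, rfl⟩
  have hX0 : (0 : ℝ) < X := by
    have : 0 < X := by omega
    exact_mod_cast this
  have hA0 : (1 : ℝ) ≤ A := by exact_mod_cast hA1
  have hr0 : 0 ≤ (X : ℝ) ^ (1 / 4 : ℝ) := by positivity
  obtain ⟨Q, hQ⟩ : ∃ Q : ℕ, Q = ⌊(X : ℝ) ^ (1 / 4 : ℝ)⌋₊ := ⟨_, rfl⟩
  have hQle : (Q : ℝ) ≤ (X : ℝ) ^ (1 / 4 : ℝ) := by
    rw [hQ]
    exact Nat.floor_le hr0
  have hAQ : ∀ q : ℕ, q ≤ Q → A * q ≤ X := by
    intro q hq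
    have h1 : (A : ℝ) * q ≤ X := by
      refine le_trans (mul_le_mul hAle ?_ (Nat.cast_nonneg _) (Real.exp_pos _).le) has2
      have : (q : ℝ) ≤ Q := by exact_mod_cast hq
      exact this.trans hQle
    exact_mod_cast h1
  -- the classes
  have hex : ∀ n : ℕ, ∃ a : ℕ, Nat.Coprime a (A * n) ∧ ∀ i ∈ I, m i = n →
      |Et X (A * n) (c i)| ≤ |Et X (A * n) a| := by
    intro n
    by_cases hne : (I.filter (fun i => m i = n)).Nonempty
    · obtain ⟨i0, hi0, hmax⟩ := exists_max_image _ (fun i => |Et X (A * n) (c i)|) hne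
      rw [mem_filter] at hi0
      refine ⟨c i0, ?_, fun i hi hin => hmax i (mem_filter.2 ⟨hi, hin⟩)⟩
      rw [← hi0.2]
      exact (hI i0 hi0.1).2.2.2.2
    · refine ⟨1, Nat.coprime_one_left _, fun i hi hin => ?_⟩
      exact absurd ⟨i, mem_filter.2 ⟨hi, hin⟩⟩ hne
  choose a ha1 ha2 using hex
  set S : Finset ℕ := (Icc 1 Q).filter (fun q => ¬ e ∣ A * q) with hS
  have hmS : ∀ i ∈ I, m i ∈ S := by
    intro i hi
    obtain ⟨_, h2, h3, h4, _⟩ := hI i hi
    rw [hS, mem_filter, mem_Icc]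
    refine ⟨⟨h2, ?_⟩, h4⟩
    rw [hQ]
    exact Nat.le_floor h3
  have hmain : ∑ i ∈ I, wt i * |Et X (A * m i) (c i)| ≤
      ∑ n ∈ S, (n.divisors.card : ℝ) ^ k * |Et X (A * n) (a n)| := by
    calc ∑ i ∈ I, wt i * |Et X (A * m i) (c i)|
        ≤ ∑ i ∈ I, wt i * |Et X (A * m i) (a (m i))| :=
          sum_le_sum fun i hi => mul_le_mul_of_nonneg_left (ha2 (m i) i hi rfl) (hI i hi).1
      _ = ∑ n ∈ S, ∑ i ∈ I with m i = n, wt i * |Et X (A * m i) (a (m i))| := by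
          rw [sum_fiberwise_of_maps_to hmS]
      _ ≤ ∑ n ∈ S, (n.divisors.card : ℝ) ^ k * |Et X (A * n) (a n)| := by
          refine sum_le_sum fun n _ => ?_
          have h2 : ∑ i ∈ I with m i = n, wt i * |Et X (A * m i) (a (m i))| =
              (∑ i ∈ I.filter (fun i => m i = n), wt i) * |Et X (A * n) (a n)| := by
            rw [sum_mul]
            refine sum_congr rfl fun i hi => ?_
            rw [(mem_filter.1 hi).2]
          rw [h2]
          exact mul_le_mul_of_nonneg_right (hw n) (abs_nonneg _)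
  refine hmain.trans ?_
  have hSsub : S ⊆ Icc 1 Q := filter_subset _ _
  rw [← hLdef]
  rw [← hLdef] at hL hL1 has1
  have hdiv : ∑ q ∈ Icc 1 Q, (q.divisors.card : ℝ) ^ (2 * k) / q ≤ (2 * L) ^ C := by
    rcases Nat.eq_zero_or_pos Q with hQ0 | hQ0
    · rw [hQ0, Finset.Icc_eq_empty (by omega), Finset.sum_empty]
      positivity
    · refine ((hC Q hQ0).2).trans ?_
      have hQX : Q ≤ X := (Nat.le_mul_of_pos_left Q (by omega)).trans (hAQ Q le_rfl)
      have e1 : Real.log Q ≤ L := by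
        rw [hLdef]
        exact Real.log_le_log (by exact_mod_cast hQ0) (by exact_mod_cast hQX)
      have e2 : 0 ≤ Real.log Q := Real.log_natCast_nonneg _
      exact pow_le_pow_left₀ (by linarith) (by linarith) _
  refine bvWtM_cs B k C X Q A hA0 S hSsub (fun n => Et X (A * n) (a n)) L hL1 hL ?_ hdiv ?_
  · intro q hq
    have hq' := mem_Icc.1 (hSsub hq)
    have h1 := et_triv X (A * q) (a q) h8 (Nat.mul_pos hA1 hq'.1) (hAQ q hq'.2)
    rw [← hLdef] at h1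
    push_cast at h1
    exact h1
  · have h1 := hfix' A e Q hA1 hAle hQle hno a (fun q _ => ha1 q)
    rw [← hLdef, ← hS] at h1
    have h2 : ∀ q ∈ S, |Et X (A * q) (a q)| ≤ |Er X (A * q) (a q)| + 2 * Real.sqrt X * L := by
      intro q _
      have e1 := et_er X (A * q) (a q) (by omega)
      rw [← hLdef] at e1
      have e2 := abs_sub_abs_le_abs_sub (Et X (A * q) (a q)) (Er X (A * q) (a q))
      linarith
    have h3 : ∑ q ∈ S, |Et X (A * q) (a q)| ≤
        ∑ q ∈ S, |Er X (A * q) (a q)| + S.card * (2 * Real.sqrt X * L) := by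
      refine (sum_le_sum h2).trans (le_of_eq ?_)
      rw [sum_add_distrib, sum_const, nsmul_eq_mul]
    have h4 : (S.card : ℝ) ≤ (X : ℝ) ^ (1 / 4 : ℝ) := by
      have e1 : S.card ≤ Q := by
        have := card_le_card hSsub
        rw [Nat.card_Icc] at this
        omega
      have e2 : (S.card : ℝ) ≤ Q := by exact_mod_cast e1
      exact e2.trans hQle
    have h5 : (S.card : ℝ) * (2 * Real.sqrt X * L) ≤ X / (A * L ^ (2 * B + C + 4)) := by
      have hL0 : 0 < L := by linarith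
      rw [le_div_iff₀ (by positivity)]
      have e1 : 2 * (A : ℝ) * L ^ (2 * B + C + 5) ≤ (X : ℝ) ^ (1 / 4 : ℝ) := by
        refine le_trans ?_ has1
        rw [← hLdef] at hAle
        gcongr
      calc (S.card : ℝ) * (2 * Real.sqrt X * L) * (A * L ^ (2 * B + C + 4))
          = S.card * (2 * A * L ^ (2 * B + C + 5)) * Real.sqrt X := by ring
        _ ≤ (X : ℝ) ^ (1 / 4 : ℝ) * (X : ℝ) ^ (1 / 4 : ℝ) * Real.sqrt X := by
            gcongr
        _ = X := by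
            rw [Real.sqrt_eq_rpow, ← Real.rpow_add hX0, ← Real.rpow_add hX0]
            norm_num
    linarith

end Pool.CP
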