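import Pool.Agent.Lib.MP_c77da8_nt.CP.Defs

/-!
# CP-ColP: the colouring of an integer, residue classes

PROOF: copy `DL/Crt.lean` (`col_eq`, `nrm_cop`, `nrm_pos`, `crt_pairwise`, `tot_nrm`, `crt_modEq`, `crt_one`, `res`, `res_cop`), with the forms `a j * n - 1`, `n ≥ 1`, in
place of `A j * m + B j` and `Q` in place of `Ps D R`.  If `p ∈ Q` divides `a i * n - 1` and `a j * n - 1` (`n ≥ 1`, `a i, a j ≥ 1`) then
`a i * n ≡ 1 ≡ a j * n (mod p)`, so `n` is invertible and `a i ≡ a j (mod p)`: `i = j` by `FormsQ.det`.  `crt_one`: the condition `p ∣ a j * n - 1` is `n ≡ (a j)⁻¹ (mod p)`.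
`resq`: one can choose `ρ ≥ 1` (add a multiple of the modulus).
-/

set_option autoImplicit false

namespace Pool.CP

open Finset Pool.DL

variable {J : Type} [Fintype J] [DecidableEq J]

omit [Fintype J] [DecidableEq J] in
private theorem ColP_modEq (Q : Finset ℕ) (a : J → ℕ) (hF : FormsQ Q a) (n : ℕ) (hn : 1 ≤ n)
    (p : ℕ) (j : J) : p ∣ a j * n - 1 ↔ a j * n ≡ 1 [MOD p] := by
  have h1 : 1 ≤ a j * n := Nat.one_le_iff_ne_zero.2 (Nat.mul_ne_zero
    (Nat.one_le_iff_ne_zero.1 (hF.pos j)) (Nat.one_le_iff_ne_zero.1 hn))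
  rw [← Nat.modEq_iff_dvd' h1]
  exact Nat.ModEq.comm

omit [Fintype J] in
private theorem ColP_uniq (Q : Finset ℕ) (a : J → ℕ) (hF : FormsQ Q a) (n : ℕ) (hn : 1 ≤ n)
    (p : ℕ) (hp : p ∈ Q) (i j : J) (hi : p ∣ a i * n - 1) (hj : p ∣ a j * n - 1) : i = j := by
  rw [ColP_modEq Q a hF n hn] at hi hj
  by_contra hne
  apply hF.det i j hne p hp
  have h1 : a i * 1 ≡ a i * (a j * n) [MOD p] := hj.symm.mul_left _
  have h2 : a j * (a i * n) ≡ a j * 1 [MOD p] := hi.mul_left _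
  have h3 : a i * (a j * n) = a j * (a i * n) := by ring
  rw [h3, mul_one] at h1
  rw [mul_one] at h2
  exact h1.trans h2

theorem colq_eq (Q : Finset ℕ) (a : J → ℕ) (hF : FormsQ Q a) (n : ℕ) (hn : 1 ≤ n) (p : {p // p ∈ Q}) (j : J) :
    colq a Q n p = some j ↔ p.1 ∣ a j * n - 1 := by
  unfold colq
  constructor
  · intro h
    split_ifs at h with h1
    have h2 := h1.choose_spec
    have h3 : h1.choose = j := Option.some.inj h
    rw [h3] at h2
    exact h2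
  · intro h
    have h1 : ∃ j, p.1 ∣ a j * n - 1 := ⟨j, h⟩
    rw [dif_pos h1]
    congr 1
    exact ColP_uniq Q a hF n hn p.1 p.2 _ _ h1.choose_spec h

theorem nrmq_pos (Q : Finset ℕ) (hQ : ∀ p ∈ Q, p.Prime) (S : Finset {p // p ∈ Q}) : 1 ≤ nrm (vr Q) S := by
  unfold nrm vr
  exact Nat.succ_le_of_lt (prod_pos fun p _ => (hQ p.1 p.2).pos)

theorem nrmq_cop (Q : Finset ℕ) (a : J → ℕ) (hF : FormsQ Q a) (i : J) (S : Finset {p // p ∈ Q}) :
    Nat.Coprime (a i) (nrm (vr Q) S) := by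
  unfold nrm vr
  apply Nat.Coprime.prod_right
  intro p _
  apply Nat.Coprime.symm
  rw [(hF.prime p.1 p.2).coprime_iff_not_dvd]
  exact hF.cop i p.1 p.2

private theorem ColP_pairwise (Q : Finset ℕ) (hQ : ∀ p ∈ Q, p.Prime) (S : Finset {p // p ∈ Q}) :
    Set.Pairwise (S : Set {p // p ∈ Q}) (Function.onFun Nat.Coprime (vr Q)) := by
  intro p _ p' _ hne
  show Nat.Coprime p.1 p'.1
  rw [Nat.coprime_primes (hQ p.1 p.2) (hQ p'.1 p'.2)]
  intro h
  exact hne (Subtype.ext h)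

theorem totq_nrm (Q : Finset ℕ) (hQ : ∀ p ∈ Q, p.Prime) (S : Finset {p // p ∈ Q}) :
    Nat.totient (nrm (vr Q) S) = ∏ p ∈ S, (vr Q p - 1) := by
  classical
  induction S using Finset.induction_on with
  | empty => simp [nrm]
  | insert p S hp ih =>
    have h1 : nrm (vr Q) (insert p S) = vr Q p * nrm (vr Q) S := by
      unfold nrm
      rw [prod_insert hp]
    have h2 : Nat.totient (vr Q p) = vr Q p - 1 := Nat.totient_prime (hQ p.1 p.2)
    rw [prod_insert hp, h1, Nat.totient_mul, ih, h2]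
    · unfold nrm
      apply Nat.Coprime.prod_right
      intro p' hp'
      exact ColP_pairwise Q hQ (insert p S) (by simp) (by simp [hp'])
        (by rintro rfl; exact hp hp')

private theorem ColP_crt (Q : Finset ℕ) (hQ : ∀ p ∈ Q, p.Prime) (S : Finset {p // p ∈ Q}) (m ρ : ℕ) :
    m ≡ ρ [MOD nrm (vr Q) S] ↔ ∀ p ∈ S, m ≡ ρ [MOD p.1] := by
  constructor
  · intro h p hp
    exact h.of_dvd (dvd_prod_of_mem (vr Q) hp)
  · intro h
    rw [Nat.modEq_iff_dvd]
    unfold nrm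
    rw [Nat.cast_prod]
    apply Finset.prod_dvd_of_coprime
    · intro p hp p' hp' hne
      show IsCoprime ((vr Q p : ℕ) : ℤ) ((vr Q p' : ℕ) : ℤ)
      rw [Nat.isCoprime_iff_coprime]
      exact ColP_pairwise Q hQ S hp hp' hne
    · intro p hp
      exact Nat.modEq_iff_dvd.1 (h p hp)

omit [Fintype J] [DecidableEq J] in
private theorem ColP_one (Q : Finset ℕ) (a : J → ℕ) (hF : FormsQ Q a) (p : {p // p ∈ Q}) (j : J) :
    ∃ c : ℕ, ∀ n : ℕ, 1 ≤ n → (p.1 ∣ a j * n - 1 ↔ n ≡ c [MOD p.1]) := by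
  have : Fact p.1.Prime := ⟨hF.prime p.1 p.2⟩
  have hA : ((a j : ℕ) : ZMod p.1) ≠ 0 := by
    intro h
    rw [ZMod.natCast_eq_zero_iff] at h
    exact hF.cop j p.1 p.2 h
  refine ⟨((a j : ZMod p.1)⁻¹).val, fun n hn => ?_⟩
  rw [ColP_modEq Q a hF n hn, ← ZMod.natCast_eq_natCast_iff, ← ZMod.natCast_eq_natCast_iff,
    ZMod.natCast_zmod_val]
  push_cast
  constructor
  · intro h
    exact eq_inv_of_mul_eq_one_left ((mul_comm _ _).trans h)
  · intro h
    rw [h, mul_inv_cancel₀ hA]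

theorem resq (Q : Finset ℕ) (a : J → ℕ) (hF : FormsQ Q a) (d : {p // p ∈ Q} → Option J) :
    ∃ ρ : ℕ, 1 ≤ ρ ∧ ∀ n : ℕ, 1 ≤ n → (le d (colq a Q n) ↔ n ≡ ρ [MOD nrm (vr Q) (supp d)]) := by
  classical
  have h1 : ∀ p : {p // p ∈ Q}, ∃ c : ℕ, ∀ n : ℕ, 1 ≤ n →
      ((d p = none ∨ d p = colq a Q n p) ↔ (p ∈ supp d → n ≡ c [MOD p.1])) := by
    intro p
    rcases hd : d p with _ | j
    · refine ⟨0, fun n _ => ?_⟩
      simp [supp, hd]
    · obtain ⟨c, hc⟩ := ColP_one Q a hF p j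
      refine ⟨c, fun n hn => ?_⟩
      have h2 : p ∈ supp d := by simp [supp, hd]
      rw [← hc n hn, ← colq_eq Q a hF n hn p j]
      constructor
      · rintro (h | h) _
        · exact absurd h (by simp)
        · exact h.symm
      · intro h
        exact Or.inr (h h2).symm
  choose c hc using h1
  obtain ⟨ρ, hρ⟩ := Nat.chineseRemainderOfFinset c (vr Q) (supp d)
    (fun p _ => (hF.prime p.1 p.2).ne_zero) (ColP_pairwise Q hF.prime (supp d))
  refine ⟨ρ + nrm (vr Q) (supp d), le_add_of_le_right (nrmq_pos Q hF.prime _), fun n hn => ?_⟩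
  have h3 : n ≡ ρ + nrm (vr Q) (supp d) [MOD nrm (vr Q) (supp d)] ↔
      n ≡ ρ [MOD nrm (vr Q) (supp d)] := by
    have h4 : ρ + nrm (vr Q) (supp d) ≡ ρ [MOD nrm (vr Q) (supp d)] := by
      unfold Nat.ModEq
      rw [Nat.add_mod_right]
    exact ⟨fun h => h.trans h4, fun h => h.trans h4.symm⟩
  rw [h3, ColP_crt Q hF.prime]
  unfold le
  constructor
  · intro h p hp
    exact ((hc p n hn).1 (h p) hp).trans (hρ p hp).symm
  · intro h p
    rw [hc p n hn]
    intro hp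
    exact (h p hp).trans (hρ p hp)

theorem resq_cop (Q : Finset ℕ) (a : J → ℕ) (hF : FormsQ Q a) (d : {p // p ∈ Q} → Option J) (i : J)
    (hi : ∀ p, d p ≠ some i) (ρ : ℕ) (h1 : 1 ≤ ρ) (hρ : le d (colq a Q ρ)) :
    Nat.Coprime (a i * ρ - 1) (nrm (vr Q) (supp d)) := by
  unfold nrm vr
  apply Nat.Coprime.prod_right
  intro p hp
  apply Nat.Coprime.symm
  rw [(hF.prime p.1 p.2).coprime_iff_not_dvd, ← colq_eq Q a hF ρ h1 p i]
  intro h
  rcases hρ p with h2 | h2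
  · simp [supp] at hp
    exact hp h2
  · exact hi p (h2.trans h)

end Pool.CP
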