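import Pool.Agent.Lib.MP_c77da8_nt.CP.DefC
import Pool.Agent.Lib.MP_c77da8_nt.DL.Words

/-!
# CP-CombC: the combinatorial part (density Hales-Jewett theorem)

The classes are indexed by the words of length `n0` over the alphabet `Fin (k + 1)`; to every word `w` belongs the number `wt m r w` and a part of `F` with `s` elements (disjoint parts).
A set `S` with many good classes contains the classes of a combinatorial line: `wt = c0 (m j)^d`.
-/

set_option autoImplicit false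

namespace Pool.CP

open Finset

theorem comb_C (k : ℕ) : ∃ K n0 : ℕ, 1 ≤ K ∧ ∀ (m : Fin (k + 1) → ℕ), (∀ j, 1 ≤ m j) → ∀ (r : Fin n0 → ℕ) (T s : ℕ)
    (F : Finset ℕ), (∀ b ∈ F, 1 ≤ b) →
    (∀ b ∈ F, ∀ b' ∈ F, ∀ u v : Fin (k + 1) → ℕ, b * ∏ j, m j ^ u j = b' * ∏ j, m j ^ v j → b = b') →
    K * s ≤ F.card → ∃ f : Fin K × Fin s → ℕ, Function.Injective f ∧
      (∀ p, 1 ≤ f p ∧ ∃ h ∈ F, f p ≤ h * (∏ j, m j) ^ ∑ x, r x) ∧
      ∀ S : Finset (Fin K × Fin s), GoodS K T s S → ∃ X : Finset (Fin n0), X.Nonempty ∧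
        ∃ H : Fin (k + 1) → Finset ℕ, (∀ j, H j ⊆ F ∧ (H j).card = T) ∧ ∃ c0 : ℕ, 1 ≤ c0 ∧ c0 ≤ (∏ j, m j) ^ (∑ x, r x) ∧
          ∀ j, ∀ h ∈ H j, ∃ p ∈ S, f p = h * m j ^ (∑ x ∈ X, r x) * c0 := by
  classical
  obtain ⟨N, hN⟩ := Pool.SZ.dhj_fin k (1 / 12000) (by norm_num)
  obtain ⟨K, hK⟩ : ∃ K, K = Fintype.card (Fin N → Fin (k + 1)) := ⟨_, rfl⟩
  have hK1 : 1 ≤ K := by
    rw [hK]
    exact Fintype.card_pos
  have e : Fin K ≃ (Fin N → Fin (k + 1)) := by
    rw [hK]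
    exact (Fintype.equivFin _).symm
  refine ⟨K, N, hK1, fun m hm r T s F hF hgen hsF => ?_⟩
  -- the injection
  obtain ⟨β, hβF, hβi⟩ : ∃ β : Fin K → Fin s → ℕ, (∀ i h, β i h ∈ F) ∧
      ∀ i h i' h', β i h = β i' h' → i = i' ∧ h = h' := by
    have h1 : Fintype.card (Fin K × Fin s) ≤ Fintype.card F := by
      rw [Fintype.card_prod, Fintype.card_fin, Fintype.card_fin, Fintype.card_coe]
      exact hsF
    obtain ⟨g⟩ := Function.Embedding.nonempty_of_card_le h1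
    refine ⟨fun i h => (g (i, h) : ℕ), fun i h => (g (i, h)).2, fun i h i' h' heq => ?_⟩
    have h2 := g.injective (Subtype.ext heq)
    rw [Prod.mk.injEq] at h2
    exact h2
  have hmm : ∀ j, m j ≤ ∏ j, m j := fun j =>
    Nat.le_of_dvd (Nat.succ_le_iff.1 (Finset.one_le_prod' fun j _ => hm j)) (dvd_prod_of_mem _ (mem_univ j))
  have hmp : 1 ≤ ∏ j, m j := Finset.one_le_prod' fun j _ => hm j
  refine ⟨fun p => β p.1 p.2 * Pool.DL.wt m r (e p.1), ?_, ?_, ?_⟩
  · rintro ⟨i, h⟩ ⟨i', h'⟩ heq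
    have h1 : β i h * Pool.DL.wt m r (e i) = β i' h' * Pool.DL.wt m r (e i') := heq
    rw [Pool.DL.wt_eq, Pool.DL.wt_eq] at h1
    have h3 := hgen _ (hβF i h) _ (hβF i' h') _ _ h1
    obtain ⟨h4, h5⟩ := hβi _ _ _ _ h3
    rw [h4, h5]
  · intro p
    refine ⟨Nat.succ_le_of_lt (Nat.mul_pos (hF _ (hβF p.1 p.2)) (Pool.DL.wt_pos m r hm _)), β p.1 p.2, hβF _ _, ?_⟩
    refine Nat.mul_le_mul_left _ ?_
    rw [← Finset.prod_pow_eq_pow_sum]
    exact Finset.prod_le_prod' fun x _ => Nat.pow_le_pow_left (hmm _) _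
  · intro S hS
    unfold GoodS at hS
    obtain ⟨S', hS'⟩ : ∃ S' : Finset (Fin K), S' = univ.filter fun i : Fin K =>
      T ≤ (univ.filter fun h : Fin s => (i, h) ∈ S).card := ⟨_, rfl⟩
    rw [← hS'] at hS
    obtain ⟨W, hW, hWS⟩ := hN (Fin N) (by rw [Fintype.card_fin]) (S'.map e.toEmbedding) (by
      unfold Pool.SZ.dn Pool.SZ.nn
      rw [card_map, ← hK, le_div_iff₀ (by exact_mod_cast hK1)]
      have : (K : ℝ) ≤ 12000 * (S'.card : ℝ) := by exact_mod_cast hS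
      linarith)
    refine ⟨univ.filter (fun x => W x = Sum.inr ()), ?_, ?_⟩
    · obtain ⟨x, hx⟩ := hW ()
      exact ⟨x, mem_filter.2 ⟨mem_univ _, hx⟩⟩
    · obtain ⟨c, hc⟩ : ∃ c, c = ∏ x, Sum.elim m (fun _ => 1) (W x) ^ r x := ⟨_, rfl⟩
      have hel : ∀ x, 1 ≤ Sum.elim m (fun _ => 1) (W x) ∧ Sum.elim m (fun _ => 1) (W x) ≤ ∏ j, m j := by
        intro x
        cases W x with
        | inl a => exact ⟨hm a, hmm a⟩
        | inr u => exact ⟨le_rfl, hmp⟩
      have hline : ∀ j : Fin (k + 1), ∃ i ∈ S', e i = Pool.SZ.ev W (fun _ => j) := by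
        intro j
        have h3 := hWS (fun _ => j)
        rw [mem_map] at h3
        obtain ⟨i, hi, hi2⟩ := h3
        exact ⟨i, hi, hi2⟩
      choose ι hι hιe using hline
      have hsub : ∀ j, ∃ G : Finset (Fin s), G ⊆ (univ.filter fun h : Fin s => (ι j, h) ∈ S) ∧ G.card = T := by
        intro j
        have h1 := hι j
        rw [hS', mem_filter] at h1
        exact exists_subset_card_eq h1.2
      choose G hG1 hG2 using hsub
      refine ⟨fun j => (G j).image (β (ι j)), fun j => ⟨?_, ?_⟩, c, ?_, ?_, ?_⟩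
      · intro b hb
        rw [mem_image] at hb
        obtain ⟨h, -, rfl⟩ := hb
        exact hβF _ _
      · rw [card_image_of_injective, hG2]
        intro h h' heq
        exact (hβi _ _ _ _ heq).2
      · rw [hc]
        exact Finset.one_le_prod' fun x _ => Nat.one_le_pow _ _ (hel x).1
      · rw [hc, ← Finset.prod_pow_eq_pow_sum]
        exact Finset.prod_le_prod' fun x _ => Nat.pow_le_pow_left (hel x).2 _
      · intro j b hb
        rw [mem_image] at hb
        obtain ⟨h, hh, rfl⟩ := hb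
        have h1 := hG1 j hh
        rw [mem_filter] at h1
        refine ⟨(ι j, h), h1.2, ?_⟩
        show β (ι j) h * Pool.DL.wt m r (e (ι j)) = _
        rw [hιe j, Pool.DL.wt_line, ← hc]
        ring

end Pool.CP
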