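import Pool.Agent.Lib.MP_c77da8_nt.CP.DefC
import Pool.Agent.Lib.MP_c77da8_nt.DL.Words

/-!
# CP-CombG: the combinatorial part (density Hales-Jewett theorem), general multipliers

The classes are indexed by the words `w` of length `n0` over the alphabet `Fin (k + 1)`; to every word belongs the number
`wg a w = ∏ a (w x) x` and a part of `F'` with `s` elements (disjoint parts), where `F' ⊆ F` has no two elements with a quotient
`wg a w / wg a w'`.  A set `S` with many good classes contains the classes of a combinatorial line: `wg = c0 ∏_(x ∈ X) a j x`.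
-/

set_option autoImplicit false

namespace Pool.CP

open Finset

/-- the number of a word -/
def wg {k N : ℕ} (a : Fin k → Fin N → ℕ) (w : Fin N → Fin k) : ℕ := ∏ x, a (w x) x

theorem wg_pos {k N : ℕ} (a : Fin k → Fin N → ℕ) (ha : ∀ j x, 1 ≤ a j x) (w : Fin N → Fin k) : 1 ≤ wg a w :=
  Finset.one_le_prod' fun x _ => ha (w x) x

theorem wg_le {k N : ℕ} (a : Fin k → Fin N → ℕ) (ha : ∀ j x, 1 ≤ a j x) (w : Fin N → Fin k) :
    wg a w ≤ ∏ j, ∏ x, a j x := by
  rw [prod_comm]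
  refine Finset.prod_le_prod' fun x _ => ?_
  exact Nat.le_of_dvd (Nat.succ_le_iff.1 (Finset.one_le_prod' fun j _ => ha j x))
    (dvd_prod_of_mem (fun j => a j x) (mem_univ (w x)))

theorem wg_line {k N : ℕ} (a : Fin k → Fin N → ℕ) (W : Fin N → Fin k ⊕ Unit) (y : Fin k) :
    wg a (Pool.SZ.ev W (fun _ => y)) =
      (∏ x, Sum.elim (fun j => a j x) (fun _ => 1) (W x)) *
        ∏ x ∈ univ.filter (fun x => W x = Sum.inr ()), a y x := by
  unfold wg
  rw [Finset.prod_filter, ← Finset.prod_mul_distrib]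
  refine Finset.prod_congr rfl fun x _ => ?_
  unfold Pool.SZ.ev
  cases h : W x with
  | inl b => simp
  | inr u => simp

open Classical in
theorem indep_g (R : ℕ → ℕ → Prop) (hr : ∀ h, R h h) (hs : ∀ h h', R h h' → R h' h) (D : ℕ) (hD : 1 ≤ D) :
    ∀ (n : ℕ) (F : Finset ℕ), (∀ h ∈ F, (F.filter fun h' => R h h').card ≤ D) → D * n ≤ F.card →
      ∃ F' ⊆ F, F'.card = n ∧ ∀ h ∈ F', ∀ h' ∈ F', R h h' → h = h' := by
  intro n
  induction n with
  | zero => exact fun F _ _ => ⟨∅, empty_subset _, rfl, fun h hh => absurd hh (notMem_empty h)⟩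
  | succ n ih =>
    intro F hF hcard
    have hne : F.Nonempty := by
      rw [← card_pos]
      have : 1 * 1 ≤ D * (n + 1) := Nat.mul_le_mul hD (by omega)
      omega
    obtain ⟨h, hh⟩ := hne
    obtain ⟨F1, hF1⟩ : ∃ F1 : Finset ℕ, F1 = F.filter fun h' => ¬ R h h' := ⟨_, rfl⟩
    have hF1s : F1 ⊆ F := by
      rw [hF1]
      exact filter_subset _ _
    have hc : D * n ≤ F1.card := by
      have h1 := card_filter_add_card_filter_not (s := F) (fun h' => R h h')
      have h2 := hF h hh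
      rw [hF1]
      have h3 : D * (n + 1) = D * n + D := by ring
      omega
    obtain ⟨F2, hF2, hF2c, hF2i⟩ := ih F1 (fun h' hh' => (card_le_card (filter_subset_filter _ hF1s)).trans
      (hF h' (hF1s hh'))) hc
    have hn : ∀ h' ∈ F2, ¬ R h h' := by
      intro h' hh'
      have h1 := hF2 hh'
      rw [hF1, mem_filter] at h1
      exact h1.2
    refine ⟨insert h F2, insert_subset hh (hF2.trans hF1s), ?_, ?_⟩
    · rw [card_insert_of_notMem (fun h1 => hn h h1 (hr h)), hF2c]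
    · intro x hx y hy hxy
      rw [mem_insert] at hx hy
      rcases hx with rfl | hx
      · rcases hy with rfl | hy
        · rfl
        · exact absurd hxy (hn y hy)
      · rcases hy with rfl | hy
        · exact absurd (hs _ _ hxy) (hn x hx)
        · exact hF2i x hx y hy hxy

theorem comb_G (k : ℕ) : ∃ K n0 : ℕ, 1 ≤ K ∧ ∀ (a : Fin (k + 1) → Fin n0 → ℕ), (∀ j x, 1 ≤ a j x) → ∀ (T s : ℕ)
    (F : Finset ℕ), (∀ b ∈ F, 1 ≤ b) →
    K ^ 2 * (K * s) ≤ F.card → ∃ f : Fin K × Fin s → ℕ, Function.Injective f ∧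
      (∀ p, 1 ≤ f p ∧ ∃ h ∈ F, f p ≤ h * ∏ j, ∏ x, a j x) ∧
      ∀ S : Finset (Fin K × Fin s), GoodS K T s S → ∃ X : Finset (Fin n0), X.Nonempty ∧
        ∃ H : Fin (k + 1) → Finset ℕ, (∀ j, H j ⊆ F ∧ (H j).card = T) ∧
          (∀ j j', ∀ h ∈ H j, ∀ h' ∈ H j', h * ∏ x ∈ X, a j x = h' * ∏ x ∈ X, a j' x → j = j' ∧ h = h') ∧
          ∃ c0 : ℕ, 1 ≤ c0 ∧ c0 ≤ (∏ j, ∏ x, a j x) ∧
          ∀ j, ∀ h ∈ H j, ∃ p ∈ S, f p = h * (∏ x ∈ X, a j x) * c0 := by
  classical
  obtain ⟨N, hN⟩ := Pool.SZ.dhj_fin k (1 / 12000) (by norm_num)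
  obtain ⟨K, hK⟩ : ∃ K, K = Fintype.card (Fin N → Fin (k + 1)) := ⟨_, rfl⟩
  have hK1 : 1 ≤ K := by
    rw [hK]
    exact Fintype.card_pos
  have e : Fin K ≃ (Fin N → Fin (k + 1)) := by
    rw [hK]
    exact (Fintype.equivFin _).symm
  refine ⟨K, N, hK1, fun a ha T s F0 hF0 hsF0 => ?_⟩
  -- a part of `F0` without quotients `wg w / wg w'`
  obtain ⟨R, hR⟩ : ∃ R : ℕ → ℕ → Prop, ∀ h h', R h h' ↔ ∃ w w' : Fin N → Fin (k + 1), h * wg a w = h' * wg a w' :=
    ⟨fun h h' => ∃ w w' : Fin N → Fin (k + 1), h * wg a w = h' * wg a w', fun _ _ => Iff.rfl⟩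
  obtain ⟨F, hFF0, hFc, hgen⟩ := indep_g R (fun h => (hR h h).2 ⟨fun _ => 0, fun _ => 0, rfl⟩)
    (fun h h' h0 => by
      obtain ⟨w, w', h1⟩ := (hR h h').1 h0
      exact (hR h' h).2 ⟨w', w, h1.symm⟩) (K ^ 2)
    (Nat.one_le_pow _ _ hK1) (K * s) F0 (by
      intro h _
      have h1 : (F0.filter fun h' => R h h') ⊆
          (univ : Finset ((Fin N → Fin (k + 1)) × (Fin N → Fin (k + 1)))).image
            (fun q => h * wg a q.1 / wg a q.2) := by
        intro h' hh'
        rw [mem_filter] at hh'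
        obtain ⟨w, w', h1⟩ := (hR h h').1 hh'.2
        rw [mem_image]
        refine ⟨(w, w'), mem_univ _, ?_⟩
        show h * wg a w / wg a w' = h'
        rw [h1]
        exact Nat.mul_div_cancel _ (wg_pos a ha w')
      refine (card_le_card h1).trans (card_image_le.trans ?_)
      rw [card_univ, Fintype.card_prod, ← hK, sq]) hsF0
  have hF : ∀ b ∈ F, 1 ≤ b := fun b hb => hF0 b (hFF0 hb)
  have hsF : K * s ≤ F.card := hFc.ge
  -- the injection
  obtain ⟨β, hβF, hβi⟩ : ∃ β : Fin K → Fin s → ℕ, (∀ i h, β i h ∈ F) ∧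
      ∀ i h i' h', β i h = β i' h' → i = i' ∧ h = h' := by
    have h1 : Fintype.card (Fin K × Fin s) ≤ Fintype.card F := by
      rw [Fintype.card_prod, Fintype.card_fin, Fintype.card_fin, Fintype.card_coe]
      exact hsF
    obtain ⟨g⟩ := Function.Embedding.nonempty_of_card_le h1
    refine ⟨fun i h => (g (i, h) : ℕ), fun i h => (g (i, h)).2, fun i h i' h' heq => ?_⟩
    have h2 := g.injective (Subtype.ext heq)
    rw [Prod.mk.injEq] at h2
    exact h2
  have hfi : Function.Injective fun p : Fin K × Fin s => β p.1 p.2 * wg a (e p.1) := by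
    rintro ⟨i, h⟩ ⟨i', h'⟩ heq
    have h1 : β i h * wg a (e i) = β i' h' * wg a (e i') := heq
    have h3 := hgen _ (hβF i h) _ (hβF i' h') ((hR _ _).2 ⟨_, _, h1⟩)
    obtain ⟨h4, h5⟩ := hβi _ _ _ _ h3
    rw [h4, h5]
  refine ⟨fun p => β p.1 p.2 * wg a (e p.1), hfi, ?_, ?_⟩
  · intro p
    exact ⟨Nat.succ_le_of_lt (Nat.mul_pos (hF _ (hβF p.1 p.2)) (wg_pos a ha _)), β p.1 p.2, hFF0 (hβF _ _),
      Nat.mul_le_mul_left _ (wg_le a ha _)⟩
  · intro S hS
    unfold GoodS at hS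
    obtain ⟨S', hS'⟩ : ∃ S' : Finset (Fin K), S' = univ.filter fun i : Fin K =>
      T ≤ (univ.filter fun h : Fin s => (i, h) ∈ S).card := ⟨_, rfl⟩
    rw [← hS'] at hS
    obtain ⟨W, hW, hWS⟩ := hN (Fin N) (by rw [Fintype.card_fin]) (S'.map e.toEmbedding) (by
      unfold Pool.SZ.dn Pool.SZ.nn
      rw [card_map, ← hK, le_div_iff₀ (by exact_mod_cast hK1)]
      have : (K : ℝ) ≤ 12000 * (S'.card : ℝ) := by exact_mod_cast hS
      linarith)
    obtain ⟨X, hX⟩ : ∃ X : Finset (Fin N), X = univ.filter (fun x => W x = Sum.inr ()) := ⟨_, rfl⟩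
    obtain ⟨x0, hx0⟩ := hW ()
    have hX0 : x0 ∈ X := by
      rw [hX]
      exact mem_filter.2 ⟨mem_univ _, hx0⟩
    obtain ⟨c, hc⟩ : ∃ c, c = ∏ x, Sum.elim (fun j => a j x) (fun _ => 1) (W x) := ⟨_, rfl⟩
    have hwl : ∀ y, wg a (Pool.SZ.ev W (fun _ => y)) = c * ∏ x ∈ X, a y x := fun y => by
      rw [wg_line, hc, hX]
    have hc1 : 1 ≤ c := by
      rw [hc]
      refine Finset.one_le_prod' fun x _ => ?_
      cases W x with
      | inl b => exact ha b x
      | inr u => exact le_rfl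
    have hcle : c ≤ ∏ j, ∏ x, a j x := by
      have h1 : c ≤ wg a (Pool.SZ.ev W (fun _ => (0 : Fin (k + 1)))) := by
        rw [hwl 0]
        exact Nat.le_mul_of_pos_right _ (Nat.succ_le_iff.1 (Finset.one_le_prod' fun x _ => ha 0 x))
      exact h1.trans (wg_le a ha _)
    have hline : ∀ j : Fin (k + 1), ∃ i ∈ S', e i = Pool.SZ.ev W (fun _ => j) := by
      intro j
      have h3 := hWS (fun _ => j)
      rw [mem_map] at h3
      obtain ⟨i, hi, hi2⟩ := h3
      exact ⟨i, hi, hi2⟩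
    choose ι hι hιe using hline
    have hιi : ∀ j j', ι j = ι j' → j = j' := by
      intro j j' h1
      have h2 : Pool.SZ.ev W (fun _ => j) x0 = Pool.SZ.ev W (fun _ => j') x0 := by
        rw [← hιe j, ← hιe j', h1]
      unfold Pool.SZ.ev at h2
      rw [hx0] at h2
      exact h2
    have hsub : ∀ j, ∃ G : Finset (Fin s), G ⊆ (univ.filter fun h : Fin s => (ι j, h) ∈ S) ∧ G.card = T := by
      intro j
      have h1 := hι j
      rw [hS', mem_filter] at h1
      exact exists_subset_card_eq h1.2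
    choose G hG1 hG2 using hsub
    refine ⟨X, ⟨x0, hX0⟩, fun j => (G j).image (β (ι j)), fun j => ⟨?_, ?_⟩, ?_, c, hc1, hcle, ?_⟩
    · intro b hb
      rw [mem_image] at hb
      obtain ⟨h, -, rfl⟩ := hb
      exact hFF0 (hβF _ _)
    · rw [card_image_of_injective, hG2]
      intro h h' heq
      exact (hβi _ _ _ _ heq).2
    · intro j j' b hb b' hb' heq
      rw [mem_image] at hb hb'
      obtain ⟨h, -, rfl⟩ := hb
      obtain ⟨h', -, rfl⟩ := hb'
      have h1 : (fun p : Fin K × Fin s => β p.1 p.2 * wg a (e p.1)) (ι j, h) =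
          (fun p : Fin K × Fin s => β p.1 p.2 * wg a (e p.1)) (ι j', h') := by
        show β (ι j) h * wg a (e (ι j)) = β (ι j') h' * wg a (e (ι j'))
        rw [hιe j, hιe j', hwl j, hwl j']
        calc β (ι j) h * (c * ∏ x ∈ X, a j x) = c * (β (ι j) h * ∏ x ∈ X, a j x) := by ring
          _ = c * (β (ι j') h' * ∏ x ∈ X, a j' x) := by rw [heq]
          _ = β (ι j') h' * (c * ∏ x ∈ X, a j' x) := by ring
      have h2 := hfi h1
      rw [Prod.mk.injEq] at h2
      have h3 := hιi _ _ h2.1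
      subst h3
      exact ⟨rfl, by rw [h2.2]⟩
    · intro j b hb
      rw [mem_image] at hb
      obtain ⟨h, hh, rfl⟩ := hb
      have h1 := hG1 j hh
      rw [mem_filter] at h1
      refine ⟨(ι j, h), h1.2, ?_⟩
      show β (ι j) h * wg a (e (ι j)) = _
      rw [hιe j, hwl j]
      ring

end Pool.CP
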