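import Pool.Agent.Lib.MP_c77da8_nt.CP.IntUpA
import Pool.Agent.Lib.MP_c77da8_nt.DL.Expd

/-!
# CP-CondP: the second moment restricted to the colourings with a given colour at one prime

PROOF.  `cc_eq`: in `Lam q y ξ = ∑_r y r * cprod (xx q) r * ∏_p vl (q p) (r p) (ξ p)` group the `r` by `t = Function.update r p0 none`: the `r` with the same `t` are
`t` and the `Function.update t p0 (some i)`; the factor of `p0` is `1` for `r p0 = none`, `x · (-(q - 2)) = -1` for `r p0 = some j` (as `ξ p0 = some j`), and `x` for
`r p0 = some i`, `i ≠ j`.  So `Lam q y ξ = ∑_(t p0 = none) cc t · cprod (xx q) t · ∏_p vl ..`, and `cc t = 0` if `t p0 ≠ none`.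
`cond_up`: by `cc_eq` the integrand is `[ξ p0 = some j] · Lam q (cc ..) ξ ^ 2`, and `Lam q (cc ..) ξ` does not depend on `ξ p0` (only `t` with `t p0 = none`
contribute, `vl (q p0) none _ = 1`).  For `H` not depending on `ξ p0`: `EI q ([ξ p0 = some j] H) = (1 / q p0) EI q H`, as `∑_b muI J (q p0) b = 1` (`mass_I`) and
`muI J (q p0) (some j) = 1 / q p0` (sum over the coordinate `p0` first; e.g. group the `ξ` by `Function.update ξ p0 none`).  Then `int_upA`.
-/

set_option autoImplicit false

namespace Pool.CP

open Finset Pool.DL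

variable {P J : Type} [Fintype P] [DecidableEq P] [Fintype J] [DecidableEq J]

/-- the coefficients of the weight when the prime `p0` has the colour `j` -/
noncomputable def cc (q : P → ℝ) (y : (P → Option J) → ℝ) (p0 : P) (j : J) (t : P → Option J) : ℝ :=
  if t p0 = none then y t - y (Function.update t p0 (some j)) +
    xx q p0 * ∑ i ∈ univ.erase j, y (Function.update t p0 (some i)) else 0

private theorem condP_split (p0 : P) (F : (P → Option J) → ℝ) :
    ∑ r : P → Option J, F r =
      ∑ t ∈ univ.filter (fun t : P → Option J => t p0 = none), ∑ b : Option J, F (Function.update t p0 b) := by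
  rw [← Finset.sum_product']
  refine Finset.sum_bij' (fun r _ => (Function.update r p0 none, r p0)) (fun x _ => Function.update x.1 p0 x.2)
    ?_ ?_ ?_ ?_ ?_
  · intro r _
    simp
  · intro x _
    exact mem_univ _
  · intro r _
    simp
  · intro x hx
    rw [Finset.mem_product, Finset.mem_filter] at hx
    have h1 : Function.update x.1 p0 none = x.1 := by
      rw [← hx.1.2]
      exact Function.update_eq_self p0 x.1
    refine Prod.ext ?_ ?_
    · simp [h1]
    · simp
  · intro r _
    simp

private theorem condP_prod (p0 : P) (G : P → Option J → ℝ) (t : P → Option J) (b : Option J) :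
    ∏ p, G p (Function.update t p0 b p) = G p0 b * ∏ p ∈ univ.erase p0, G p (t p) := by
  rw [← Finset.mul_prod_erase univ (fun p => G p (Function.update t p0 b p)) (mem_univ p0)]
  congr 1
  · simp
  · refine Finset.prod_congr rfl fun p hp => ?_
    rw [Function.update_of_ne (Finset.ne_of_mem_erase hp)]

private theorem condP_term (q : P → ℝ) (r ξ : P → Option J) :
    cprod (xx q) r * ∏ p, vl (q p) (r p) (ξ p) =
      ∏ p, ((fun p a => (if a = none then (1 : ℝ) else xx q p) * vl (q p) a (ξ p)) p (r p)) := by
  unfold cprod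
  rw [← Finset.prod_mul_distrib]

private theorem condP_Lam (q : P → ℝ) (y : (P → Option J) → ℝ) (ξ : P → Option J) (p0 : P) :
    Lam q y ξ = ∑ t ∈ univ.filter (fun t : P → Option J => t p0 = none),
      (∑ b : Option J, y (Function.update t p0 b) *
        ((if b = none then (1 : ℝ) else xx q p0) * vl (q p0) b (ξ p0))) *
      ∏ p ∈ univ.erase p0, ((if t p = none then (1 : ℝ) else xx q p) * vl (q p) (t p) (ξ p)) := by
  unfold Lam
  rw [condP_split p0]
  refine Finset.sum_congr rfl fun t _ => ?_
  rw [Finset.sum_mul]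
  refine Finset.sum_congr rfl fun b _ => ?_
  rw [mul_assoc, condP_term, condP_prod p0
    (fun p a => (if a = none then (1 : ℝ) else xx q p) * vl (q p) a (ξ p)) t b]
  ring

private theorem condP_cc (q : P → ℝ) (y : (P → Option J) → ℝ) (p0 : P) (j : J) (ξ : P → Option J) :
    Lam q (cc q y p0 j) ξ = ∑ t ∈ univ.filter (fun t : P → Option J => t p0 = none),
      (y t - y (Function.update t p0 (some j)) +
        xx q p0 * ∑ i ∈ univ.erase j, y (Function.update t p0 (some i))) *
      ∏ p ∈ univ.erase p0, ((if t p = none then (1 : ℝ) else xx q p) * vl (q p) (t p) (ξ p)) := by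
  rw [condP_Lam q (cc q y p0 j) ξ p0]
  refine Finset.sum_congr rfl fun t ht => ?_
  congr 1
  rw [Finset.mem_filter] at ht
  have h1 : Function.update t p0 none = t := by
    rw [← ht.2]
    exact Function.update_eq_self p0 t
  rw [Fintype.sum_option, h1]
  have h2 : ∑ i : J, cc q y p0 j (Function.update t p0 (some i)) *
      ((if (some i : Option J) = none then (1 : ℝ) else xx q p0) * vl (q p0) (some i) (ξ p0)) = 0 := by
    refine Finset.sum_eq_zero fun i _ => ?_
    have : cc q y p0 j (Function.update t p0 (some i)) = 0 := by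
      unfold cc
      simp
    rw [this, zero_mul]
  rw [h2]
  unfold cc
  rw [if_pos ht.2]
  simp [vl]

theorem cc_eq (q : P → ℝ) (hq : ∀ p, 12 ≤ q p) (y : (P → Option J) → ℝ) (p0 : P) (j : J) (ξ : P → Option J)
    (hξ : ξ p0 = some j) : Lam q y ξ = Lam q (cc q y p0 j) ξ := by
  rw [condP_Lam q y ξ p0, condP_cc q y p0 j ξ]
  refine Finset.sum_congr rfl fun t ht => ?_
  congr 1
  rw [Finset.mem_filter] at ht
  have h1 : Function.update t p0 none = t := by
    rw [← ht.2]
    exact Function.update_eq_self p0 t
  have hx : xx q p0 * (q p0 - 2) = 1 := by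
    unfold xx
    have : q p0 - 2 ≠ 0 := by
      have := hq p0
      intro h
      linarith
    field_simp
  rw [Fintype.sum_option, h1, hξ, ← Finset.add_sum_erase univ _ (mem_univ j)]
  have h2 : ∑ i ∈ univ.erase j, y (Function.update t p0 (some i)) *
      ((if (some i : Option J) = none then (1 : ℝ) else xx q p0) * vl (q p0) (some i) (some j)) =
      xx q p0 * ∑ i ∈ univ.erase j, y (Function.update t p0 (some i)) := by
    rw [Finset.mul_sum]
    refine Finset.sum_congr rfl fun i hi => ?_
    have hne : (some j : Option J) ≠ some i := by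
      intro h
      exact Finset.ne_of_mem_erase hi (Option.some.inj h).symm
    unfold vl
    rw [if_neg (by simp), if_neg (by simp), if_neg hne]
    ring
  rw [h2]
  have h3 : y (Function.update t p0 (some j)) *
      ((if (some j : Option J) = none then (1 : ℝ) else xx q p0) * vl (q p0) (some j) (some j)) =
      - y (Function.update t p0 (some j)) := by
    unfold vl
    rw [if_neg (by simp), if_neg (by simp), if_pos rfl]
    calc y (Function.update t p0 (some j)) * (xx q p0 * -(q p0 - 2))
        = - y (Function.update t p0 (some j)) * (xx q p0 * (q p0 - 2)) := by ring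
      _ = _ := by rw [hx, mul_one]
  rw [h3]
  have h4 : y t * ((if (none : Option J) = none then (1 : ℝ) else xx q p0) * vl (q p0) none (some j)) = y t := by
    unfold vl
    simp
  rw [h4]
  ring

private theorem condP_inv (q : P → ℝ) (y : (P → Option J) → ℝ) (p0 : P) (j : J) (ξ : P → Option J)
    (b : Option J) : Lam q (cc q y p0 j) (Function.update ξ p0 b) = Lam q (cc q y p0 j) ξ := by
  rw [condP_cc, condP_cc]
  refine Finset.sum_congr rfl fun t _ => ?_
  congr 1
  refine Finset.prod_congr rfl fun p hp => ?_
  rw [Function.update_of_ne (Finset.ne_of_mem_erase hp)]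

private theorem condP_EI (q : P → ℝ) (p0 : P) (F : (P → Option J) → ℝ) :
    EI q F = ∑ ξ ∈ univ.filter (fun t : P → Option J => t p0 = none),
      (∑ b : Option J, muI J (q p0) b * F (Function.update ξ p0 b)) *
        ∏ p ∈ univ.erase p0, muI J (q p) (ξ p) := by
  unfold EI EE
  rw [condP_split p0]
  refine Finset.sum_congr rfl fun t _ => ?_
  rw [Finset.sum_mul]
  refine Finset.sum_congr rfl fun b _ => ?_
  rw [condP_prod p0 (fun p a => muI J (q p) a) t b]
  ring

private theorem condP_H (q : P → ℝ) (hq : ∀ p, 12 ≤ q p) (p0 : P) (j : J) (H : (P → Option J) → ℝ)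
    (hH : ∀ ξ b, H (Function.update ξ p0 b) = H ξ) :
    EI q (fun ξ => if ξ p0 = some j then H ξ else 0) = 1 / q p0 * EI q H := by
  rw [condP_EI q p0, condP_EI q p0 H, Finset.mul_sum]
  refine Finset.sum_congr rfl fun ξ _ => ?_
  have h1 : ∑ b : Option J, muI J (q p0) b *
      (if (Function.update ξ p0 b) p0 = some j then H (Function.update ξ p0 b) else 0) = 1 / q p0 * H ξ := by
    rw [Finset.sum_eq_single (some j)]
    · rw [Function.update_self, if_pos rfl, hH]
      unfold muI
      rw [if_neg (by simp)]
    · intro b _ hb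
      rw [Function.update_self, if_neg hb, mul_zero]
    · intro h
      exact absurd (mem_univ _) h
  have h2 : ∑ b : Option J, muI J (q p0) b * H (Function.update ξ p0 b) = H ξ := by
    rw [Finset.sum_congr rfl fun b _ => by rw [hH ξ b], ← Finset.sum_mul,
      mass_I (q p0) (by linarith [hq p0]), one_mul]
  rw [h1, h2]
  ring

theorem cond_up (q : P → ℝ) (hq : ∀ p, 12 ≤ q p) (y : (P → Option J) → ℝ) (p0 : P) (j : J) :
    EI q (fun ξ => if ξ p0 = some j then Lam q y ξ ^ 2 else 0) ≤
      1 / q p0 * ((∏ p, (1 + KK J * xx q p ^ 2)) *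
        ∑ t : P → Option J, cc q y p0 j t ^ 2 * cprod (fun p => xx q p * (1 + KK J * xx q p)) t) := by
  have h1 : EI q (fun ξ => if ξ p0 = some j then Lam q y ξ ^ 2 else 0) =
      EI q (fun ξ => if ξ p0 = some j then Lam q (cc q y p0 j) ξ ^ 2 else 0) := by
    congr 1
    funext ξ
    by_cases h : ξ p0 = some j
    · rw [if_pos h, if_pos h, cc_eq q hq y p0 j ξ h]
    · rw [if_neg h, if_neg h]
  rw [h1, condP_H q hq p0 j (fun ξ => Lam q (cc q y p0 j) ξ ^ 2) (fun ξ b => by
    show Lam q (cc q y p0 j) (Function.update ξ p0 b) ^ 2 = Lam q (cc q y p0 j) ξ ^ 2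
    rw [condP_inv])]
  refine mul_le_mul_of_nonneg_left (int_upA q hq _) ?_
  have := hq p0
  positivity

end Pool.CP
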