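import Pool.Agent.Lib.MP_c77da8_nt.CP.Model
import Pool.Agent.Lib.MP_c77da8_nt.DL.Yj

/-!
# CP-DefC: definitions for the version with classes

The weight `y_j` (`Pool.DL.yj`) for the pairs of forms: it agrees with `yM` when no prime of `Q` divides the form `j` (`Lam_yj`).
-/

set_option autoImplicit false

namespace Pool.CP

open Finset

noncomputable section

/-- the weight for the pairs of forms, second form `j` -/
def yMj {J : Type} [Fintype J] [DecidableEq J] (Q : Finset ℕ) (ℓ u Th : ℕ) (j : J) (r : {p // p ∈ Q} → Option J) : ℝ :=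
  Pool.DL.yj j (vr Q) (qr Q) (u ^ Th) (yM Q ℓ u Th) r

/-- the probability that a form is prime, with respect to the weight -/
def kpN (Q : Finset ℕ) (ℓ u A N : ℕ) : ℝ :=
  (A : ℝ) / (Nat.totient A : ℝ) * S1N Q ℓ u ^ 2 / (S2N Q ℓ u * Real.log N)

/-- many classes have at least `T` elements of `S` -/
def GoodS (m T s : ℕ) (S : Finset (Fin m × Fin s)) : Prop :=
  m ≤ 12000 * (univ.filter fun i : Fin m => T ≤ (univ.filter fun h : Fin s => (i, h) ∈ S).card).card

end

end Pool.CP
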