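import Pool.Agent.Lib.MP_c77da8_nt.CM.Defs
import Pool.Agent.Lib.MP_c77da8_nt.DL.Defs

/-!
# CP-Defs: patterns of primes along geometric progressions (MP_c77da8_nt), definitions

Forms `a_j n - 1` (`j ∈ J`), `a_j = f_j m(z)`.  `Q` = the primes in `(w, R]` different from `e` (a possible exceptional prime).
Half M (Maynard-Tao, uniform in the multiplier): the colouring `colq a Q n` of the primes of `Q` (colour `j` if `p ∣ a_j n - 1`), the weight
`Lam y (colq a Q n)^2` of `DL`.  Half S: the majorant `nuF`, a product of Selberg weights (`CM`) over all the forms.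
-/

set_option autoImplicit false

namespace Pool.CP

open Finset

noncomputable section

/-- the primes in `(w, R]` which are different from `e` -/
def Qe (w R e : ℕ) : Finset ℕ := (Pool.CG.Pr w R).erase e

/-- the values of the primes (real numbers) -/
def qr (Q : Finset ℕ) (p : {p // p ∈ Q}) : ℝ := (p.1 : ℝ)

/-- the values of the primes -/
def vr (Q : Finset ℕ) (p : {p // p ∈ Q}) : ℕ := p.1

/-- the colouring of `n`: `p` has colour `j` if `p` divides `a j * n - 1` -/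
def colq {J : Type} (a : J → ℕ) (Q : Finset ℕ) (n : ℕ) (p : {p // p ∈ Q}) : Option J :=
  open Classical in if h : ∃ j, p.1 ∣ a j * n - 1 then some h.choose else none

/-- the conditions on the forms `a j * n - 1` and the set `Q` of primes -/
structure FormsQ {J : Type} (Q : Finset ℕ) (a : J → ℕ) : Prop where
  prime : ∀ p ∈ Q, p.Prime
  big : ∀ p ∈ Q, 12 ≤ p
  pos : ∀ j, 1 ≤ a j
  cop : ∀ j, ∀ p ∈ Q, ¬ p ∣ a j
  det : ∀ i j, i ≠ j → ∀ p ∈ Q, ¬ a i ≡ a j [MOD p]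

/-- the Maynard-Tao weight function: `y(r) = ∏_j G(r_j)` if `N(r) ≤ u^Th`, otherwise `0` -/
def yM {J : Type} [Fintype J] [DecidableEq J] (Q : Finset ℕ) (ℓ u Th : ℕ) (r : {p // p ∈ Q} → Option J) : ℝ :=
  Pool.DL.yy (vr Q) (u ^ Th) (Pool.DL.GG ℓ u (vr Q)) r

/-- `S₂ = ∑_a G(a)² x(a)` -/
def S2N (Q : Finset ℕ) (ℓ u : ℕ) : ℝ := Pool.DL.SS (Pool.DL.xx (qr Q)) (fun a => Pool.DL.GG ℓ u (vr Q) a ^ 2)

/-- `S₁ = ∑_a G(a) x(a)` -/
def S1N (Q : Finset ℕ) (ℓ u : ℕ) : ℝ := Pool.DL.SS (Pool.DL.xx (qr Q)) (Pool.DL.GG ℓ u (vr Q))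

/-- the Maynard-Tao weight of `n` -/
def LN {J : Type} [Fintype J] [DecidableEq J] (a : J → ℕ) (Q : Finset ℕ) (ℓ u Th n : ℕ) : ℝ :=
  Pool.DL.Lam (qr Q) (yM Q ℓ u Th) (colq a Q n) ^ 2

/-- no exceptional characters: the real characters modulo `r`, `e ∤ r`, `r ≤ exp (x^(1/2100))` satisfy `|L(1, χ)| ≥ x^(-1/200)` (`x = log X`) -/
def NoExc (x : ℝ) (e : ℕ) : Prop :=
  ∀ (r : ℕ) [NeZero r], ¬ e ∣ r → (r : ℝ) ≤ Real.exp (x ^ (1 / 2100 : ℝ)) → Pool.CM.LowM (x ^ (-(1 / 200) : ℝ)) r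

/-- no exceptional characters, hypothesis in terms of `x = log N` -/
def NoExcN (x : ℝ) (e : ℕ) : Prop :=
  ∀ (r : ℕ) [NeZero r], ¬ e ∣ r → (r : ℝ) ≤ Real.exp (x ^ (1 / 2050 : ℝ)) → Pool.CM.LowM (x ^ (-(1 / 250) : ℝ)) r

/-- the conditions on the multiplier `A`: its prime factors are the primes `≤ w` different from `e` -/
structure MulOK (w e A : ℕ) : Prop where
  exc : e = 0 ∨ e.Prime
  pos : 1 ≤ A
  small : ∀ p, p.Prime → (p ∣ A ↔ p ≤ w ∧ p ≠ e)

/-- the conditions on the `f j` -/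
structure FOK {J : Type} (f : J → ℕ) (w e : ℕ) : Prop where
  inj : Function.Injective f
  pos : ∀ j, 1 ≤ f j
  le : ∀ j, f j ≤ w
  exc : ∀ j, ¬ e ∣ f j

open Pool.CG Pool.CM in
/-- the majorant on `(ℤ/M)^P`: the product of the Selberg weights at the numbers `f_j m(z) n - 1` -/
def nuF {J : Type} [Fintype J] (f : J → ℕ) (e : ℕ) (P : Finset ℕ) (M w R n : ℕ) (z : GP P M) : ℝ :=
  ∏ j, nuq (Qe w R e) R (f j * mP P M z * n - 1)

open Pool.CG Pool.CM in
/-- the weighted patterns of primes, in the inner box `E ≤ z_p < M - E`: the numbers `f_j m(z) n - 1`, `j ∈ H`, are primes and no prime of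
`Qe w R e` divides one of the numbers `f_j m(z) n - 1` -/
def fF {J : Type} [Fintype J] (f : J → ℕ) (e : ℕ) (P : Finset ℕ) (M w R E n : ℕ) (H : Finset J) (z : GP P M) : ℝ :=
  open Classical in
  if (∀ j ∈ H, (f j * mP P M z * n - 1).Prime) ∧ (∀ j, ∀ p ∈ Qe w R e, ¬ p ∣ f j * mP P M z * n - 1) ∧
      ∀ p, E ≤ (z p).val ∧ (z p).val + E < M then VV (vq (Qe w R e)) R ^ Fintype.card J else 0

open Pool.CM in
/-- the conditions on the parameters -/
structure ParF (t D V w M N : ℕ) (ρ : ℝ) (P : Finset ℕ) (e : ℕ) : Prop where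
  par : ParM t D V w M N ρ P
  le : ∀ p ∈ P, p ≤ w
  exc : e ∉ P
  wM : w ≤ M

end

end Pool.CP
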