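import Pool.Agent.Lib.MP_c77da8_nt.CP.QeB
import Pool.Agent.Lib.MP_c77da8_nt.CM.SvC

/-!
# CP-FNonneg: `0 ≤ fF ≤ nuF`

If no prime of `Qe w R e` divides one of the numbers `f_j m(z) n - 1` then all the sets `xiq` are empty, so `nuq = VV` for every form.
-/

set_option autoImplicit false

namespace Pool.CP

open Finset Pool.CG Pool.CM

theorem Qe_sub (w R e : ℕ) : Qe w R e ⊆ Pr w R := Finset.erase_subset _ _

theorem VVe_pos (w R e : ℕ) (hR : 1 ≤ R) : 0 < Pool.CG.VV (vq (Qe w R e)) R :=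
  VVq_pos w R (Qe w R e) (Qe_sub w R e) hR

theorem nuF_nonneg {J : Type} [Fintype J] (f : J → ℕ) (e : ℕ) (P : Finset ℕ) (M w R n : ℕ) (z : GP P M) :
    0 ≤ nuF f e P M w R n z := by
  unfold nuF
  exact prod_nonneg fun j _ => nuq_nonneg _ w R _ (Qe_sub w R e)

theorem fF_nonneg {J : Type} [Fintype J] (f : J → ℕ) (e : ℕ) (P : Finset ℕ) (M w R E n : ℕ) (H : Finset J)
    (hR : 1 ≤ R) (z : GP P M) : 0 ≤ fF f e P M w R E n H z := by
  unfold fF
  split_ifs
  · exact pow_nonneg (VVe_pos w R e hR).le _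
  · exact le_rfl

theorem fF_le {J : Type} [Fintype J] (f : J → ℕ) (e : ℕ) (P : Finset ℕ) (M w R E n : ℕ) (H : Finset J)
    (hR : 1 ≤ R) (z : GP P M) : fF f e P M w R E n H z ≤ nuF f e P M w R n z := by
  classical
  unfold fF
  split_ifs with h
  swap
  · exact nuF_nonneg f e P M w R n z
  have hV := VVe_pos w R e hR
  have hLam : Pool.CG.Lam (vq (Qe w R e)) R ∅ = 1 := by
    unfold Pool.CG.Lam
    have : (∑ a ∈ univ.filter (fun a : Finset {p // p ∈ Qe w R e} => Pool.CG.nm (vq (Qe w R e)) a ≤ R),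
        ∏ p ∈ a, if p ∈ (∅ : Finset {p // p ∈ Qe w R e}) then (-1 : ℝ) else Pool.CG.xw (vq (Qe w R e)) p) =
        Pool.CG.VV (vq (Qe w R e)) R := by
      unfold Pool.CG.VV
      exact Finset.sum_congr rfl fun a _ => Finset.prod_congr rfl fun p _ => by simp
    rw [this, div_self hV.ne']
  have hj : ∀ j : J, nuq (Qe w R e) R (f j * mP P M z * n - 1) = Pool.CG.VV (vq (Qe w R e)) R := by
    intro j
    have hxi : xiq (Qe w R e) (f j * mP P M z * n - 1) = ∅ := by
      unfold xiq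
      rw [Finset.filter_eq_empty_iff]
      intro p _ hp
      exact h.2.1 j p.1 p.2 hp
    unfold nuq
    rw [hxi, hLam]
    simp
  unfold nuF
  rw [Finset.prod_congr rfl (fun j _ => hj j), Finset.prod_const, Finset.card_univ]

end Pool.CP
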