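import Pool.Agent.Lib.MP_c77da8_nt.CP.LowMain
import Pool.Agent.Lib.MP_c77da8_nt.CP.FNonneg
import Pool.Agent.Lib.MP_c77da8_nt.CM.DensM

/-!
# CP-DensF: the average of the weighted patterns of primes

PROOF (compare `dens_lowM` in `CM/DensM.lean`).  For `z` in the inner box (`E ≥ 1`) the number `A = mP P M z` satisfies `MulOK w e A`; `low_main`;
`V ≥ (1/2) ∏_(p ≤ w) (1 - 1/p) log R` (`VVq_ge`, `VV_ge`), `A/φ(A) ≥ (1/2) ∏_(p ≤ w) (1 - 1/p)^(-1)`, `log R ≥ log N/(32 t1)`; so
`V · (A/φ(A))/log N ≥ 1/(128 t1)`.  The inner box contains at least half of the points; pigeonhole over the sets `S` with `T` elements.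
-/

set_option autoImplicit false

namespace Pool.CP

open Finset Pool.CG Pool.CL Pool.CM

/-- `A/φ(A)` as a product -/
private lemma densF_ratio (A : ℕ) (hA : 0 < A) :
    (Nat.totient A : ℝ) = (A : ℝ) * ∏ p ∈ A.primeFactors, (1 - 1 / (p : ℝ)) := by
  have h2 := Nat.totient_eq_mul_prod_factors A
  have := congrArg (fun q : ℚ => (q : ℝ)) h2
  push_cast at this
  rw [this]
  congr 1
  apply prod_congr rfl
  intro p _
  rw [one_div]

private lemma densF_Wp (w : ℕ) : 0 < Wp w := by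
  unfold Wp
  exact Finset.prod_pos fun p hp => (mem_filter.1 hp).2.pos

private lemma densF_Wpf (w : ℕ) : (Wp w).primeFactors = (Icc 1 w).filter Nat.Prime := by
  unfold Wp
  exact Nat.primeFactors_prod fun p hp => (mem_filter.1 hp).2

private lemma densF_pf (P : Finset ℕ) (M : ℕ) (hP : ∀ p ∈ P, p.Prime) (z : GP P M) (hz : ∀ p, 1 ≤ (z p).val) :
    (mP P M z).primeFactors = P := by
  have hA : 1 ≤ mP P M z := mP_pos P M hP z
  ext p
  rw [Nat.mem_primeFactors]
  constructor
  · rintro ⟨hp, hd, -⟩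
    unfold mP at hd
    obtain ⟨q, -, hq⟩ := (Prime.dvd_finset_prod_iff hp.prime _).1 hd
    have h1 : p ∣ q.1 := hp.dvd_of_dvd_pow hq
    have h2 : p = q.1 := (Nat.prime_dvd_prime_iff_eq hp (hP q.1 q.2)).1 h1
    rw [h2]
    exact q.2
  · intro hp
    refine ⟨hP p hp, ?_, by omega⟩
    unfold mP
    refine Dvd.dvd.trans ?_ (Finset.dvd_prod_of_mem _ (mem_univ (⟨p, hp⟩ : Cd P)))
    exact dvd_pow_self p (by have := hz ⟨p, hp⟩; omega)

/-- the proportion of the residues outside the inner interval -/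
private lemma densF_out (M E : ℕ) [NeZero M] :
    av (fun v : ZMod M => open Classical in if v.val < E ∨ M ≤ v.val + E then (1 : ℝ) else 0) ≤ 2 * E / M := by
  classical
  have hM : 0 < M := Nat.pos_of_neZero M
  have hMr : (0 : ℝ) < M := by exact_mod_cast hM
  unfold av
  rw [ZMod.card]
  refine div_le_div_of_nonneg_right ?_ hMr.le
  rw [Finset.sum_boole]
  have h1 : (univ.filter fun v : ZMod M => v.val < E ∨ M ≤ v.val + E).card ≤
      (range E ∪ Ico (M - E) M).card := by
    apply card_le_card_of_injOn (fun v : ZMod M => v.val)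
    · intro v hv
      have hv' : v ∈ univ.filter fun v : ZMod M => v.val < E ∨ M ≤ v.val + E := hv
      rw [mem_filter] at hv'
      have hlt := ZMod.val_lt v
      show v.val ∈ ((range E ∪ Ico (M - E) M : Finset ℕ) : Set ℕ)
      rw [mem_coe, mem_union, mem_range, mem_Ico]
      rcases hv'.2 with h | h
      · exact Or.inl h
      · right
        constructor
        · omega
        · exact hlt
    · intro a _ b _ hab
      exact ZMod.val_injective M hab
  have h2 : (range E ∪ Ico (M - E) M).card ≤ 2 * E := by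
    refine (card_union_le _ _).trans ?_
    rw [card_range, Nat.card_Ico]
    omega
  exact_mod_cast h1.trans h2

private lemma densF_fac (p : ℕ) (hp : p.Prime) : 1 / 2 ≤ 1 - 1 / (p : ℝ) ∧ 1 - 1 / (p : ℝ) ≤ 1 := by
  have hp2 : (2 : ℝ) ≤ p := by exact_mod_cast hp.two_le
  have h5 : (1 : ℝ) / p ≤ 1 / 2 := by
    apply one_div_le_one_div_of_le <;> linarith
  have h6 : (0 : ℝ) ≤ 1 / p := by positivity
  constructor <;> linarith

/-- the primes `≤ w` are in `P` but for at most one -/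
private lemma densF_cmp (w e : ℕ) (P : Finset ℕ) (hP : ∀ p ∈ P, p.Prime) (hPw : ∀ p ∈ P, p ≤ w)
    (he : ∀ p : ℕ, p.Prime → p ≤ w → p ≠ e → p ∈ P) :
    1 / 2 * ∏ p ∈ P, (1 - 1 / (p : ℝ)) ≤ ∏ p ∈ (Icc 1 w).filter Nat.Prime, (1 - 1 / (p : ℝ)) := by
  classical
  have hsub : P ⊆ (Icc 1 w).filter Nat.Prime := by
    intro p hp
    rw [mem_filter, mem_Icc]
    exact ⟨⟨(hP p hp).one_le, hPw p hp⟩, hP p hp⟩
  rw [← prod_sdiff hsub]
  have h3 : 0 ≤ ∏ p ∈ P, (1 - 1 / (p : ℝ)) := by
    apply prod_nonneg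
    intro p hp
    have := densF_fac p (hP p hp)
    linarith
  apply mul_le_mul_of_nonneg_right _ h3
  have hsub2 : ((Icc 1 w).filter Nat.Prime) \ P ⊆ {e} := by
    intro p hp
    rw [mem_sdiff, mem_filter, mem_Icc] at hp
    rw [mem_singleton]
    by_contra hne
    exact hp.2 (he p hp.1.2 hp.1.1.2 hne)
  rcases (subset_singleton_iff).1 hsub2 with h | h
  · rw [h, prod_empty]
    norm_num
  · rw [h, prod_singleton]
    have hep : e.Prime := by
      have : e ∈ ((Icc 1 w).filter Nat.Prime) \ P := by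
        rw [h]
        exact mem_singleton_self e
      exact (mem_filter.1 (mem_sdiff.1 this).1).2
    exact (densF_fac e hep).1

/-- the lower bound for `V` -/
private lemma densF_V (w R e : ℕ) (hw : 1 ≤ w) (hR : 1 ≤ R) (he : e = 0 ∨ e.Prime) :
    1 / 2 * ((∏ p ∈ (Icc 1 w).filter Nat.Prime, (1 - 1 / (p : ℝ))) * Real.log R) ≤ Pool.CG.VV (vq (Qe w R e)) R := by
  classical
  have h1 := VV_ge w R hw hR
  have h3 := densF_ratio (Wp w) (densF_Wp w)
  rw [densF_Wpf] at h3
  have hW : ((Wp w : ℕ) : ℝ) ≠ 0 := by exact_mod_cast (densF_Wp w).ne'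
  rw [h3, mul_div_cancel_left₀ _ hW] at h1
  have hlR : 0 ≤ Real.log (R : ℝ) := Real.log_natCast_nonneg R
  have h0 : 0 ≤ ∏ p ∈ (Icc 1 w).filter Nat.Prime, (1 - 1 / (p : ℝ)) := by
    apply prod_nonneg
    intro p hp
    have := densF_fac p (mem_filter.1 hp).2
    linarith
  have h00 : 0 ≤ (∏ p ∈ (Icc 1 w).filter Nat.Prime, (1 - 1 / (p : ℝ))) * Real.log R := mul_nonneg h0 hlR
  rcases he with he | he
  · have hQ : Qe w R e = Pr w R := by
      unfold Qe
      rw [he]
      refine Finset.erase_eq_of_notMem ?_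
      intro h
      unfold Pr at h
      exact Nat.not_prime_zero (mem_filter.1 h).2.1
    rw [hQ]
    have e1 : Pool.CG.VV (vp w R) R = Pool.CG.VV (vq (Pr w R)) R := rfl
    rw [← e1]
    linarith
  · have hQ : Qe w R e = Qs w R {e} := by
      unfold Qe Qs
      rw [sdiff_singleton_eq_erase]
    have h2 := VVq_ge w R {e} (by
      intro p hp
      rw [mem_singleton] at hp
      rw [hp]
      exact he) hR
    rw [← hQ] at h2
    have hf : 1 / 2 ≤ ∏ p ∈ ({e} : Finset ℕ).filter (fun p => w < p), (1 - 1 / (p : ℝ)) := by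
      rw [filter_singleton]
      split_ifs
      · rw [prod_singleton]
        exact (densF_fac e he).1
      · rw [prod_empty]
        norm_num
    refine le_trans ?_ h2
    exact mul_le_mul hf h1 h00 (by linarith)

theorem dens_F : ∃ C1 : ℕ, 1 ≤ C1 ∧ ∀ T K : ℕ, 1 ≤ T → 2 ^ (C1 * T) ≤ K → ∃ s w0 : ℕ, 1 ≤ s ∧
    ∀ t1 : ℕ, 1 ≤ t1 → s ≤ 2 * t1 → ∃ (d : ℝ) (N0 : ℕ), 0 < d ∧ ∀ N ≥ N0, ∀ (w M E : ℕ) (P : Finset ℕ) (e : ℕ) [NeZero M],
      (∀ p ∈ P, p.Prime) → (∀ p ∈ P, p ≤ w) → e ∉ P → (e = 0 ∨ e.Prime) →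
      (∀ p : ℕ, p.Prime → p ≤ w → p ≠ e → p ∈ P) → w0 ≤ w → 1 ≤ w → 1 ≤ E →
      (w : ℝ) ≤ Real.log (Real.log N) ^ 2 → NoExcN (Real.log N) e →
      (M : ℝ) * ∑ p ∈ P, Real.log p ≤ Real.log N ^ (1 / 3000 : ℝ) → 4 * E * P.card ≤ M →
      ∀ (J : Type) [Fintype J] [DecidableEq J] (f : J → ℕ), Fintype.card J = K → FOK f w e →
      ∃ S : Finset J, S.card = T ∧ d * N ≤ ∑ n ∈ Ico N (2 * N), av (fF f e P M w (Rt t1 N) E n S) := by
  classical
  obtain ⟨C1, hC1, hlow⟩ := low_main
  refine ⟨C1, hC1, fun T K hT hK => ?_⟩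
  obtain ⟨s, w0, N1, c, hs, hc, hlow⟩ := hlow T K hT hK
  refine ⟨s, w0, hs, fun t1 ht1 hst => ?_⟩
  obtain ⟨N2, hN2⟩ := Rt_facts t1 ht1
  have ht1r : (0 : ℝ) < t1 := by exact_mod_cast ht1
  obtain ⟨c2, hc2⟩ : ∃ c2 : ℝ, c2 = c * (1 / (128 * (t1 : ℝ))) ^ K := ⟨_, rfl⟩
  have hc20 : 0 < c2 := by
    rw [hc2]
    positivity
  refine ⟨c2 / (4 * 2 ^ K), max N1 (max N2 3), by positivity,
    fun N hN w M E P e _ hP hPw heP he0 hmost hw0 hw hE hwN hexc hML hEM J _ _ f hJ hf => ?_⟩
  have hNN1 : N1 ≤ N := (le_max_left _ _).trans hN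
  have hNN3 : 3 ≤ N := ((le_max_right _ _).trans (le_max_right _ _)).trans hN
  obtain ⟨hR3, -, hR2, hRN, -, hlog⟩ := hN2 N (((le_max_left _ _).trans (le_max_right _ _)).trans hN)
  obtain ⟨R, hR⟩ : ∃ R : ℕ, R = Rt t1 N := ⟨_, rfl⟩
  rw [← hR] at hR3 hR2 hRN hlog ⊢
  have hN3 : (3 : ℝ) ≤ N := by exact_mod_cast hNN3
  have hL0 : 0 < Real.log (N : ℝ) := Real.log_pos (by linarith)
  set L : ℝ := Real.log N with hL
  have hN0 : (0 : ℝ) ≤ N := Nat.cast_nonneg N
  have hMr : (0 : ℝ) < M := by exact_mod_cast Nat.pos_of_neZero M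
  have hRs : R ^ s ≤ N := (Nat.pow_le_pow_right (by omega) hst).trans hR2
  obtain ⟨VW, hVW⟩ : ∃ VW : ℝ, VW = Pool.CG.VV (vq (Qe w R e)) R := ⟨_, rfl⟩
  have hVW0 : 0 < VW := by
    rw [hVW]
    exact VVe_pos w R e (by omega)
  -- the product over `P`
  have hpi : 0 < ∏ p ∈ P, (1 - 1 / (p : ℝ)) := by
    apply prod_pos
    intro p hp
    have := densF_fac p (hP p hp)
    linarith
  have hV : 1 / 4 * (∏ p ∈ P, (1 - 1 / (p : ℝ))) * (L / (32 * t1)) ≤ VW := by
    have h1 := densF_V w R e hw (by omega) he0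
    have h2 := densF_cmp w e P hP hPw hmost
    have hLt : 0 ≤ L / (32 * t1) := by positivity
    rw [hVW]
    refine le_trans ?_ h1
    have h3 : 1 / 2 * (∏ p ∈ P, (1 - 1 / (p : ℝ))) * (L / (32 * t1)) ≤
        (∏ p ∈ (Icc 1 w).filter Nat.Prime, (1 - 1 / (p : ℝ))) * Real.log R :=
      mul_le_mul h2 hlog hLt (le_trans (by positivity) h2)
    linarith
  -- the number of the patterns for one `z`
  obtain ⟨G, hG⟩ : ∃ G : GP P M → Finset ℕ, G = fun z => (Ico N (2 * N)).filter fun n =>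
        (∀ j, ∀ p ∈ Qe w R e, ¬ p ∣ f j * mP P M z * n - 1) ∧
          T ≤ (univ.filter fun j => (f j * mP P M z * n - 1).Prime).card := ⟨_, rfl⟩
  have hcount : ∀ z : GP P M, (∀ p, E ≤ (z p).val ∧ (z p).val + E < M) →
      c2 * N ≤ ((G z).card : ℝ) * VW ^ K := by
    intro z hz
    have hpf := densF_pf P M hP z (fun p => hE.trans (hz p).1)
    have hA0 := mP_pos P M hP z
    have hmul : MulOK w e (mP P M z) := by
      refine ⟨he0, hA0, fun p hp => ?_⟩
      have h0 : p ∈ (mP P M z).primeFactors ↔ p ∈ P := by rw [hpf]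
      have h1 : p ∣ mP P M z ↔ p ∈ P := by
        rw [← h0, Nat.mem_primeFactors]
        constructor
        · intro h
          exact ⟨hp, h, by omega⟩
        · intro h
          exact h.2.1
      rw [h1]
      constructor
      · intro h
        refine ⟨hPw p h, ?_⟩
        intro h2
        rw [h2] at h
        exact heP h
      · rintro ⟨h2, h3⟩
        exact hmost p hp h2 h3
    have hAle : ((mP P M z : ℕ) : ℝ) ≤ Real.exp (L ^ (1 / 3000 : ℝ)) :=
      (mP_le P M hP z).trans (Real.exp_le_exp.2 hML)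
    have h1 := hlow J hJ w hw0 N hNN1 (mP P M z) e f hmul hf hwN hAle hexc R hRs
    have h2 := densF_ratio (mP P M z) (by omega)
    rw [hpf] at h2
    have h3 : ((mP P M z : ℕ) : ℝ) / (Nat.totient (mP P M z) : ℝ) = (∏ p ∈ P, (1 - 1 / (p : ℝ)))⁻¹ := by
      have hAr : ((mP P M z : ℕ) : ℝ) ≠ 0 := by
        have : (1 : ℝ) ≤ ((mP P M z : ℕ) : ℝ) := by exact_mod_cast hA0
        linarith
      rw [h2]
      field_simp
    rw [h3] at h1
    have h4 : c * N * ((∏ p ∈ P, (1 - 1 / (p : ℝ)))⁻¹ / L) ^ K ≤ ((G z).card : ℝ) := by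
      rw [hG]
      refine h1.trans (le_of_eq ?_)
      norm_cast
    have h5 : 1 / (128 * (t1 : ℝ)) ≤ (∏ p ∈ P, (1 - 1 / (p : ℝ)))⁻¹ / L * VW := by
      calc 1 / (128 * (t1 : ℝ)) = (∏ p ∈ P, (1 - 1 / (p : ℝ)))⁻¹ / L *
            (1 / 4 * (∏ p ∈ P, (1 - 1 / (p : ℝ))) * (L / (32 * t1))) := by
            field_simp
            norm_num
        _ ≤ _ := mul_le_mul_of_nonneg_left hV (by positivity)
    calc c2 * N = c * N * (1 / (128 * (t1 : ℝ))) ^ K := by rw [hc2]; ring
      _ ≤ c * N * ((∏ p ∈ P, (1 - 1 / (p : ℝ)))⁻¹ / L * VW) ^ K :=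
          mul_le_mul_of_nonneg_left (pow_le_pow_left₀ (by positivity) h5 K) (by positivity)
      _ = (c * N * ((∏ p ∈ P, (1 - 1 / (p : ℝ)))⁻¹ / L) ^ K) * VW ^ K := by rw [mul_pow]; ring
      _ ≤ _ := mul_le_mul_of_nonneg_right h4 (by positivity)
  have hfn : ∀ n (S : Finset J) (z : GP P M), 0 ≤ fF f e P M w R E n S z := fun n S z =>
    fF_nonneg f e P M w R E n S (by omega) z
  -- the sum for one `z`
  have hz : ∀ z : GP P M, c2 * N *
      (1 - ∑ p : Cd P, if (z p).val < E ∨ M ≤ (z p).val + E then (1 : ℝ) else 0) ≤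
      ∑ S ∈ (univ : Finset (Finset J)).filter (fun S => S.card = T), ∑ n ∈ Ico N (2 * N), fF f e P M w R E n S z := by
    intro z
    have hind : ∀ p : Cd P, (0 : ℝ) ≤ if (z p).val < E ∨ M ≤ (z p).val + E then (1 : ℝ) else 0 := by
      intro p
      split_ifs <;> norm_num
    by_cases hb : ∀ p, E ≤ (z p).val ∧ (z p).val + E < M
    · have h2 : ∑ p : Cd P, (if (z p).val < E ∨ M ≤ (z p).val + E then (1 : ℝ) else 0) = 0 := by
        refine Finset.sum_eq_zero fun p _ => ?_
        rw [if_neg]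
        have := hb p
        omega
      rw [h2, sub_zero, mul_one]
      refine (hcount z hb).trans ?_
      rw [sum_comm]
      have h3 : ((G z).card : ℝ) * VW ^ K = ∑ n ∈ G z, VW ^ K := by
        rw [sum_const, nsmul_eq_mul]
      rw [h3]
      have h4 : ∑ n ∈ G z, VW ^ K ≤ ∑ n ∈ G z,
          ∑ S ∈ (univ : Finset (Finset J)).filter (fun S => S.card = T), fF f e P M w R E n S z := by
        refine sum_le_sum fun n hn => ?_
        rw [hG, mem_filter] at hn
        obtain ⟨S, hS1, hS2⟩ := exists_subset_card_eq hn.2.2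
        have h5 : fF f e P M w R E n S z = VW ^ K := by
          unfold fF
          rw [if_pos, ← hVW, hJ]
          refine ⟨fun j hj => ?_, hn.2.1, hb⟩
          exact (mem_filter.1 (hS1 hj)).2
        rw [← h5]
        exact single_le_sum (f := fun S => fF f e P M w R E n S z) (fun S _ => hfn n S z)
          (mem_filter.2 ⟨mem_univ S, hS2⟩)
      refine h4.trans ?_
      refine sum_le_sum_of_subset_of_nonneg ?_ fun n _ _ => sum_nonneg fun S _ => hfn n S z
      rw [hG]
      exact filter_subset _ _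
    · push Not at hb
      obtain ⟨p, hp⟩ := hb
      have h3 : (1 : ℝ) ≤ ∑ p : Cd P, (if (z p).val < E ∨ M ≤ (z p).val + E then (1 : ℝ) else 0) := by
        have h4 : (if (z p).val < E ∨ M ≤ (z p).val + E then (1 : ℝ) else 0) = 1 := by
          rw [if_pos]
          by_cases h5 : E ≤ (z p).val
          · exact Or.inr (hp h5)
          · left
            omega
        calc (1 : ℝ) = (if (z p).val < E ∨ M ≤ (z p).val + E then (1 : ℝ) else 0) := h4.symm
          _ ≤ _ := Finset.single_le_sum (fun p _ => hind p) (mem_univ p)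
      refine le_trans ?_ (sum_nonneg fun S _ => sum_nonneg fun n _ => hfn n S z)
      have h5 : (0 : ℝ) ≤ c2 * N := by positivity
      nlinarith
  -- the average
  have hsum : ∑ S ∈ (univ : Finset (Finset J)).filter (fun S => S.card = T),
      ∑ n ∈ Ico N (2 * N), av (fF f e P M w R E n S) =
      av (fun z : GP P M => ∑ S ∈ (univ : Finset (Finset J)).filter (fun S => S.card = T),
        ∑ n ∈ Ico N (2 * N), fF f e P M w R E n S z) := by
    rw [av_sum]
    refine sum_congr rfl fun S _ => ?_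
    rw [av_sum]
  have hav := av_mono hz
  rw [← hsum, av_const_mul, av_sub, av_const, av_sum] at hav
  have hone : ∀ p : Cd P, av (fun z : GP P M => if (z p).val < E ∨ M ≤ (z p).val + E then (1 : ℝ) else 0) ≤
      2 * E / M := by
    intro p
    rw [av_update p]
    have h1 : ∀ z : GP P M, av (fun u : ZMod M =>
        if (Function.update z p u p).val < E ∨ M ≤ (Function.update z p u p).val + E then (1 : ℝ) else 0) =
        av (fun v : ZMod M => if v.val < E ∨ M ≤ v.val + E then (1 : ℝ) else 0) := by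
      intro z
      refine av_congr fun u => ?_
      rw [Function.update_self]
    rw [av_congr h1, av_const]
    exact densF_out M E
  have hall : ∑ p : Cd P, av (fun z : GP P M => if (z p).val < E ∨ M ≤ (z p).val + E then (1 : ℝ) else 0) ≤
      1 / 2 := by
    calc ∑ p : Cd P, av (fun z : GP P M => if (z p).val < E ∨ M ≤ (z p).val + E then (1 : ℝ) else 0)
        ≤ ∑ _p : Cd P, (2 * E / M : ℝ) := Finset.sum_le_sum fun p _ => hone p
      _ = (P.card : ℝ) * (2 * E / M) := by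
          rw [sum_const, card_univ, nsmul_eq_mul, Fintype.card_coe]
      _ ≤ 1 / 2 := by
          rw [mul_div_assoc', div_le_iff₀ hMr]
          have h2 : (4 * E * P.card : ℝ) ≤ M := by exact_mod_cast hEM
          linarith
  have htot : c2 * N * (1 / 2) ≤ ∑ S ∈ (univ : Finset (Finset J)).filter (fun S => S.card = T),
      ∑ n ∈ Ico N (2 * N), av (fF f e P M w R E n S) := by
    refine le_trans ?_ hav
    exact mul_le_mul_of_nonneg_left (by linarith) (by positivity)
  -- pigeonhole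
  by_contra hcon
  push Not at hcon
  have h1 : ∑ S ∈ (univ : Finset (Finset J)).filter (fun S => S.card = T),
      ∑ n ∈ Ico N (2 * N), av (fF f e P M w R E n S) ≤
      ∑ _S ∈ (univ : Finset (Finset J)).filter (fun S => S.card = T), c2 / (4 * 2 ^ K) * N := by
    refine sum_le_sum fun S hS => ?_
    exact (hcon S (mem_filter.1 hS).2).le
  rw [sum_const, nsmul_eq_mul] at h1
  have h2 : (((univ : Finset (Finset J)).filter (fun S => S.card = T)).card : ℝ) ≤ 2 ^ K := by
    have h3 : ((univ : Finset (Finset J)).filter (fun S => S.card = T)).card ≤ 2 ^ K := by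
      refine (card_filter_le _ _).trans ?_
      rw [card_univ, Fintype.card_finset, hJ]
    exact_mod_cast h3
  have h4 : (0 : ℝ) ≤ c2 / (4 * 2 ^ K) * N := by positivity
  have h5 := mul_le_mul_of_nonneg_right h2 h4
  have h6 : (2 : ℝ) ^ K * (c2 / (4 * 2 ^ K) * N) = c2 * N / 4 := by
    field_simp
  have h7 : 0 < c2 * N := by
    have : (0 : ℝ) < N := by linarith
    positivity
  linarith

end Pool.CP
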