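import Pool.Agent.Lib.MP_a51fee_ag.SG.SBv
import Pool.Agent.Lib.MP_c77da8_nt.Sv4

/-!
# CP-Err: the total error
-/

set_option autoImplicit false

namespace Pool.CP

open Finset Pool.Agent.Lib.MP_c77da8_nt.Sv

/-- A set of primes with product dividing `n` gives many divisors of `n`. -/
theorem two_pow_le_div (n : ℕ) (hn : n ≠ 0) (D : Finset ℕ) (hD : ∀ q ∈ D, q.Prime)
    (hd : (∏ q ∈ D, q) ∣ n) : 2 ^ D.card ≤ n.divisors.card := by
  rw [← card_powerset]
  refine card_le_card_of_injOn (fun S => ∏ q ∈ S, q) ?_ ?_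
  · intro S hS
    have hS' : S ⊆ D := mem_powerset.1 hS
    exact Nat.mem_divisors.2 ⟨(prod_dvd_prod_of_subset S D _ hS').trans hd, hn⟩
  · intro S hS T hT hST
    have hS' : S ⊆ D := mem_powerset.1 hS
    have hT' : T ⊆ D := mem_powerset.1 hT
    have h1 : (∏ q ∈ S, q).primeFactors = S :=
      Nat.primeFactors_prod fun q hq => hD q (hS' hq)
    have h2 : (∏ q ∈ T, q).primeFactors = T :=
      Nat.primeFactors_prod fun q hq => hD q (hT' hq)
    have h3 : (∏ q ∈ S, q) = ∏ q ∈ T, q := hST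
    rw [← h1, ← h2, h3]

theorem err_fam (K A : ℕ) (hK : 1 ≤ K) : ∃ B0 U0 : ℕ, ∀ u t M U : ℕ, U0 ≤ U → 1 ≤ u → 1 ≤ M →
    (∀ p : ℕ, p.Prime → p ∣ M → p ≤ 2 ^ u) →
    (M : ℝ) * 2 ^ (102 * K * (u * 2 ^ t)) ≤ Real.sqrt U / Real.log U ^ B0 →
    ∀ y : ℕ, y ≤ U → ∀ F : Finset ℕ → Finset ℕ,
    (∀ φ ∈ Fintype.piFinset (fun j => sub (blk u t j) (sf K t j)),
      (F (univ.biUnion φ)).card ≤ K ^ (univ.biUnion φ).card ∧
      ∀ c ∈ F (univ.biUnion φ), Nat.Coprime c (M * ∏ q ∈ univ.biUnion φ, q)) →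
    ∑ φ ∈ Fintype.piFinset (fun j => sub (blk u t j) (sf K t j)),
      ∑ c ∈ F (univ.biUnion φ), |Pool.BV.Ep y (M * ∏ q ∈ univ.biUnion φ, q) c| ≤
        U / Real.log U ^ A := by
  classical
  obtain ⟨B0, U0, hB⟩ := Pool.SG.bv_fam A K
  refine ⟨B0, U0, fun u t M U hU hu hM hMp hsize y hy F hF => ?_⟩
  set Φ := Fintype.piFinset (fun j => sub (blk u t j) (sf K t j)) with hΦ
  -- members of the blocks
  have hmem : ∀ φ ∈ Φ, ∀ j, φ j ⊆ blk u t j ∧ (φ j).card ≤ sf K t j := by
    intro φ hφ j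
    have h1 := Fintype.mem_piFinset.1 hφ j
    unfold sub at h1
    rw [mem_filter, mem_powerset] at h1
    exact h1
  have hprime : ∀ φ ∈ Φ, ∀ q ∈ univ.biUnion φ, q.Prime := by
    intro φ hφ q hq
    obtain ⟨j, -, hj⟩ := mem_biUnion.1 hq
    exact (mem_blk.1 ((hmem φ hφ j).1 hj)).1
  have hpos : ∀ φ ∈ Φ, 0 < ∏ q ∈ univ.biUnion φ, q := fun φ hφ =>
    prod_pos fun q hq => (hprime φ hφ q hq).pos
  have hdisj : ∀ φ ∈ Φ, ∀ i ∈ (univ : Finset (Fin t)), ∀ j ∈ (univ : Finset (Fin t)), i ≠ j →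
      Disjoint (φ i) (φ j) := by
    intro φ hφ i _ j _ hij
    exact (blk_disj u t i j hij).mono (hmem φ hφ i).1 (hmem φ hφ j).1
  -- the size
  have hle : ∀ φ ∈ Φ, ∏ q ∈ univ.biUnion φ, q ≤ 2 ^ (102 * K * (u * 2 ^ t)) := by
    intro φ hφ
    rw [prod_biUnion (hdisj φ hφ)]
    calc ∏ j : Fin t, ∏ q ∈ φ j, q
        ≤ ∏ j : Fin t, (2 ^ (u * 2 ^ (t - (j : ℕ)))) ^ (sf K t j) := by
          refine prod_le_prod' fun j _ => ?_
          refine (prod_le_pow_card _ _ (2 ^ (u * 2 ^ (t - (j : ℕ)))) fun q hq =>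
            (mem_blk.1 ((hmem φ hφ j).1 hq)).2.2).trans ?_
          exact Nat.pow_le_pow_right (by positivity) (hmem φ hφ j).2
      _ = 2 ^ (u * ∑ j ∈ range t, 2 ^ (t - j) * (48 * K + 2 * j + 1)) := by
          unfold sf
          rw [mul_sum, ← prod_pow_eq_pow_sum,
            Fin.prod_univ_eq_prod_range
              (fun j => (2 ^ (u * 2 ^ (t - j))) ^ (48 * K + 2 * j + 1)) t]
          refine prod_congr rfl fun j _ => ?_
          rw [← pow_mul]
          congr 1
          ring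
      _ ≤ _ := by
          refine Nat.pow_le_pow_right (by norm_num) ?_
          have := sum_sf K hK t
          calc u * ∑ j ∈ range t, 2 ^ (t - j) * (48 * K + 2 * j + 1) ≤ u * (2 ^ t * (102 * K)) :=
                Nat.mul_le_mul_left _ this
            _ = _ := by ring
  -- the family is determined by the modulus
  have hdet : ∀ φ ∈ Φ, ∀ j, φ j = (M * ∏ q ∈ univ.biUnion φ, q).primeFactors.filter
      (fun q => q ∈ blk u t j) := by
    intro φ hφ j
    have hne : M * ∏ q ∈ univ.biUnion φ, q ≠ 0 := by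
      have := hpos φ hφ
      positivity
    ext p
    rw [mem_filter, Nat.mem_primeFactors]
    constructor
    · intro hp
      have h1 := (hmem φ hφ j).1 hp
      refine ⟨⟨(mem_blk.1 h1).1, ?_, hne⟩, h1⟩
      exact Dvd.dvd.mul_left (dvd_prod_of_mem _ (mem_biUnion.2 ⟨j, mem_univ j, hp⟩)) _
    · rintro ⟨⟨hp, hd, -⟩, hb⟩
      rcases (Nat.Prime.dvd_mul hp).1 hd with h | h
      · exact absurd (hMp p hp h) (not_le.2 (blk_gt hb))
      · obtain ⟨q, hq, hpq⟩ := (hp.prime.dvd_finsetProd_iff _).1 h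
        have h2 : p = q := (Nat.prime_dvd_prime_iff_eq hp (hprime φ hφ q hq)).1 hpq
        rw [← h2] at hq
        obtain ⟨i, -, hi⟩ := mem_biUnion.1 hq
        by_cases hij : i = j
        · rwa [hij] at hi
        · exact absurd hb (Finset.disjoint_left.1 (blk_disj u t i j hij) ((hmem φ hφ i).1 hi))
  have key := hB U (M * 2 ^ (102 * K * (u * 2 ^ t))) hU (by push_cast; exact hsize) y hy
    (Σ _ : Fin t → Finset ℕ, ℕ) (Φ.sigma fun φ => F (univ.biUnion φ))
    (fun i => M * ∏ q ∈ univ.biUnion i.1, q) (fun i => i.2) (by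
      intro i hi
      rw [mem_sigma] at hi
      refine ⟨?_, Nat.mul_le_mul_left _ (hle i.1 hi.1), (hF i.1 hi.1).2 i.2 hi.2⟩
      exact Nat.mul_pos hM (hpos i.1 hi.1)) (by
      intro n
      rcases ((Φ.sigma fun φ => F (univ.biUnion φ)).filter
        (fun i => M * ∏ q ∈ univ.biUnion i.1, q = n)).eq_empty_or_nonempty with h0 | ⟨i0, hi0⟩
      · rw [h0, card_empty]
        exact Nat.zero_le _
      · rw [mem_filter, mem_sigma] at hi0
        obtain ⟨⟨hi1, hi2⟩, hi3⟩ := hi0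
        have hn : n ≠ 0 := by
          rw [← hi3]
          have := hpos i0.1 hi1
          positivity
        have hsub : (Φ.sigma fun φ => F (univ.biUnion φ)).filter
            (fun i => M * ∏ q ∈ univ.biUnion i.1, q = n) ⊆
            (F (univ.biUnion i0.1)).image (fun c => (⟨i0.1, c⟩ : Σ _ : Fin t → Finset ℕ, ℕ)) := by
          rintro ⟨φ, c⟩ hi
          rw [mem_filter, mem_sigma] at hi
          obtain ⟨⟨h1, h2⟩, h3⟩ := hi
          have h4 : φ = i0.1 := by
            funext j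
            rw [hdet φ h1 j, hdet i0.1 hi1 j]
            simp only at h3
            rw [h3, hi3]
          rw [mem_image]
          refine ⟨c, ?_, ?_⟩
          · rw [← h4]
            exact h2
          · rw [h4]
        refine (card_le_card hsub).trans (card_image_le.trans ((hF i0.1 hi1).1.trans ?_))
        have h5 : 2 ^ (univ.biUnion i0.1).card ≤ n.divisors.card := by
          refine two_pow_le_div n hn _ (hprime i0.1 hi1) ?_
          rw [← hi3]
          exact Dvd.intro_left _ rfl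
        calc K ^ (univ.biUnion i0.1).card ≤ (2 ^ K) ^ (univ.biUnion i0.1).card :=
              Nat.pow_le_pow_left Nat.lt_two_pow_self.le _
          _ = (2 ^ (univ.biUnion i0.1).card) ^ K := by
              rw [← pow_mul, ← pow_mul, mul_comm]
          _ ≤ _ := Nat.pow_le_pow_left h5 _)
  rw [sum_sigma] at key
  exact key

end Pool.CP
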