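import Pool.Agent.Lib.MP_c77da8_nt.CP.BvWtM
import Pool.Agent.Lib.MP_c77da8_nt.CP.ColP
import Pool.Agent.Lib.MP_c77da8_nt.DL.Sum

/-!
# CP-FamP: the family of the pairs `(d, e)`

PROOF: copy `fam_bv` (`DL/Fam.lean`, with the auxiliary theorems `fam_pos`, `fam_inj`, `fam_supp`, `fam_le`, `fam_tau`, `fam_sum` there, for `Q` in place of `Ps D R`), with
`bvm_wt E (2 k1)`, `1 + 2 K ≤ 2^k1`, in place of `bv_wt`: `ι` = pairs of colourings, `I` = the pairs with both norms `≤ R`, `m (d, e') = nrm (vr Q) (supp (join d e')) ≤ R² ≤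
X^(1/4)`; `¬ e ∣ A m`: if `e` is a prime, it does not divide `A`, and it is not in `Q`; if `e = 0`, `A m ≥ 1`.
-/

set_option autoImplicit false

namespace Pool.CP

open Finset Pool.DL

private theorem FamP_pos (Q : Finset ℕ) (hQ : ∀ p ∈ Q, p.Prime) (a : Finset {p // p ∈ Q}) : 0 < nrm (vr Q) a :=
  Finset.prod_pos fun p _ => (hQ p.1 p.2).pos

private theorem FamP_sub (Q : Finset ℕ) (hQ : ∀ p ∈ Q, p.Prime) (a b : Finset {p // p ∈ Q})
    (h : nrm (vr Q) a = nrm (vr Q) b) : a ⊆ b := by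
  intro p hp
  have h1 : vr Q p ∣ nrm (vr Q) b := by
    rw [← h]
    exact Finset.dvd_prod_of_mem _ hp
  have hpp : Prime (vr Q p) := (hQ p.1 p.2).prime
  unfold nrm at h1
  rw [hpp.dvd_finsetProd_iff] at h1
  obtain ⟨q, hq, hpq⟩ := h1
  have h2 := (Nat.prime_dvd_prime_iff_eq (hQ p.1 p.2) (hQ q.1 q.2)).1 hpq
  have h3 : p = q := Subtype.ext h2
  rw [h3]
  exact hq

private theorem FamP_inj (Q : Finset ℕ) (hQ : ∀ p ∈ Q, p.Prime) (a b : Finset {p // p ∈ Q})
    (h : nrm (vr Q) a = nrm (vr Q) b) : a = b :=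
  Finset.Subset.antisymm (FamP_sub Q hQ a b h) (FamP_sub Q hQ b a h.symm)

private theorem FamP_le (Q : Finset ℕ) (hQ : ∀ p ∈ Q, p.Prime) (a b : Finset {p // p ∈ Q}) :
    nrm (vr Q) (a ∪ b) ≤ nrm (vr Q) a * nrm (vr Q) b := by
  have h := Finset.prod_union_inter (s₁ := a) (s₂ := b) (f := vr Q)
  have h1 : 1 ≤ nrm (vr Q) (a ∩ b) := FamP_pos Q hQ _
  unfold nrm at *
  calc (∏ p ∈ a ∪ b, vr Q p) = (∏ p ∈ a ∪ b, vr Q p) * 1 := by ring
    _ ≤ (∏ p ∈ a ∪ b, vr Q p) * ∏ p ∈ a ∩ b, vr Q p := Nat.mul_le_mul_left _ h1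
    _ = _ := h

private theorem FamP_tau (Q : Finset ℕ) (hQ : ∀ p ∈ Q, p.Prime) (n : ℕ) (hn : n ≠ 0) (S : Finset {p // p ∈ Q})
    (hS : nrm (vr Q) S ∣ n) : 2 ^ S.card ≤ n.divisors.card := by
  rw [← Finset.card_powerset]
  apply Finset.card_le_card_of_injOn (fun T => nrm (vr Q) T)
  · intro T hT
    have hT' : T ⊆ S := by simpa using hT
    have h1 : nrm (vr Q) T ∣ nrm (vr Q) S := Finset.prod_dvd_prod_of_subset _ _ _ hT'
    simp only [Finset.mem_coe, Nat.mem_divisors]
    exact ⟨h1.trans hS, hn⟩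
  · intro T _ T' _ h
    exact FamP_inj Q hQ T T' h

private theorem FamP_supp {P J : Type} [Fintype P] [DecidableEq P] [DecidableEq J] (d e : P → Option J) :
    supp (join d e) = supp d ∪ supp e := by
  ext p
  have hm : ∀ f : P → Option J, p ∈ supp f ↔ f p ≠ none := by
    intro f
    unfold supp
    simp
  rw [Finset.mem_union, hm, hm, hm]
  unfold join
  by_cases h : d p = none
  · simp [h]
  · simp [h]

private theorem FamP_sum {P J : Type} [Fintype P] [DecidableEq P] [Fintype J] [DecidableEq J] (S : Finset P) :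
    ∑ d ∈ univ.filter (fun d : P → Option J => supp d ⊆ S), (2 : ℝ) ^ (supp d).card =
      (1 + 2 * (Fintype.card J : ℝ)) ^ S.card := by
  have h1 : ∑ d ∈ univ.filter (fun d : P → Option J => supp d ⊆ S), (2 : ℝ) ^ (supp d).card =
      ∑ d : P → Option J, ∏ p, (if d p = none then (1 : ℝ) else if p ∈ S then 2 else 0) := by
    rw [Finset.sum_filter]
    refine Finset.sum_congr rfl fun d _ => ?_
    split_ifs with hd
    · rw [← Finset.prod_const]
      unfold supp
      rw [Finset.prod_filter]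
      refine Finset.prod_congr rfl fun p _ => ?_
      by_cases hp : d p = none
      · simp [hp]
      · have hpS : p ∈ S := hd (by simp [supp, hp])
        simp [hp, hpS]
    · symm
      rw [Finset.not_subset] at hd
      obtain ⟨p, hp, hpS⟩ := hd
      apply Finset.prod_eq_zero (mem_univ p)
      have hp' : d p ≠ none := by simpa [supp] using hp
      simp [hp', hpS]
  rw [h1]
  have h2 := sum_prod (P := P) (A := Option J)
    (fun p a => (if a = none then (1 : ℝ) else if p ∈ S then 2 else 0))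
  rw [h2]
  have h3 : ∀ p : P, ∑ a : Option J, (if a = none then (1 : ℝ) else if p ∈ S then 2 else 0) =
      if p ∈ S then (1 + 2 * (Fintype.card J : ℝ)) else 1 := by
    intro p
    rw [Fintype.sum_option]
    by_cases hp : p ∈ S
    · simp [hp]
      ring
    · simp [hp]
  rw [Finset.prod_congr rfl fun p _ => h3 p]
  rw [Finset.prod_ite]
  simp

private theorem FamP_exc (Q : Finset ℕ) (hQ : ∀ p ∈ Q, p.Prime) (A e : ℕ) (heQ : e ∉ Q) (he : e = 0 ∨ e.Prime)
    (heA : ¬ e ∣ A) (hA : 1 ≤ A) (S : Finset {p // p ∈ Q}) : ¬ e ∣ A * nrm (vr Q) S := by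
  intro h
  rcases he with he | he
  · rw [he, zero_dvd_iff] at h
    have h1 := Nat.mul_pos hA (FamP_pos Q hQ S)
    omega
  · rcases he.dvd_mul.1 h with h1 | h1
    · exact heA h1
    · unfold nrm at h1
      rw [he.prime.dvd_finsetProd_iff] at h1
      obtain ⟨q, hq, hpq⟩ := h1
      have h2 := (Nat.prime_dvd_prime_iff_eq he (hQ q.1 q.2)).1 hpq
      exact heQ (h2 ▸ q.2)

theorem famP (J : Type) [Fintype J] [DecidableEq J] (E : ℕ) : ∃ X0 : ℕ, ∀ X : ℕ, X0 ≤ X →
    ∀ (Q : Finset ℕ) (A e R : ℕ), (∀ p ∈ Q, p.Prime) → e ∉ Q → (e = 0 ∨ e.Prime) → ¬ e ∣ A → 1 ≤ A →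
    (A : ℝ) ≤ Real.exp (Real.log X ^ (1 / 2500 : ℝ)) → NoExc (Real.log X) e → (R : ℝ) ^ 2 ≤ (X : ℝ) ^ (1 / 4 : ℝ) →
    ∀ c : ({p // p ∈ Q} → Option J) → ({p // p ∈ Q} → Option J) → ℕ,
    (∀ d d', Nat.Coprime (c d d') (A * nrm (vr Q) (supp (join d d')))) →
    ∑ d ∈ univ.filter (fun d : {p // p ∈ Q} → Option J => nrm (vr Q) (supp d) ≤ R),
      ∑ d' ∈ univ.filter (fun d' : {p // p ∈ Q} → Option J => nrm (vr Q) (supp d') ≤ R),
        (2 : ℝ) ^ (supp d).card * 2 ^ (supp d').card *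
          |Pool.BV.Et X (A * nrm (vr Q) (supp (join d d'))) (c d d')| ≤ X / (A * Real.log X ^ E) := by
  set K := Fintype.card J with hK
  have hk1 : (1 + 2 * (K : ℝ)) ≤ 2 ^ (1 + 2 * K) := by
    have h := (Nat.lt_two_pow_self (n := 1 + 2 * K)).le
    exact_mod_cast h
  obtain ⟨X0, h⟩ := bvm_wt E (2 * (1 + 2 * K))
  refine ⟨X0, ?_⟩
  intro X hX Q A e R hQ heQ he heA hA hAX hne hR c hc
  set F := univ.filter (fun d : {p // p ∈ Q} → Option J => nrm (vr Q) (supp d) ≤ R) with hF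
  have key := h X hX A e hA hAX hne
    (({p // p ∈ Q} → Option J) × ({p // p ∈ Q} → Option J)) (F ×ˢ F)
    (fun i => nrm (vr Q) (supp (join i.1 i.2))) (fun i => c i.1 i.2)
    (fun i => (2 : ℝ) ^ (supp i.1).card * 2 ^ (supp i.2).card) ?_ ?_
  · rw [Finset.sum_product] at key
    exact key
  · intro i hi
    rw [Finset.mem_product] at hi
    obtain ⟨h1, h2⟩ := hi
    rw [hF, mem_filter] at h1 h2
    refine ⟨by positivity, FamP_pos Q hQ _, ?_, FamP_exc Q hQ A e heQ he heA hA _, hc _ _⟩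
    refine le_trans ?_ hR
    have h3 : nrm (vr Q) (supp (join i.1 i.2)) ≤ R ^ 2 := by
      rw [FamP_supp]
      calc nrm (vr Q) (supp i.1 ∪ supp i.2) ≤ nrm (vr Q) (supp i.1) * nrm (vr Q) (supp i.2) :=
            FamP_le Q hQ _ _
        _ ≤ R * R := Nat.mul_le_mul h1.2 h2.2
        _ = R ^ 2 := by ring
    exact_mod_cast h3
  · intro n
    rcases Finset.eq_empty_or_nonempty ((F ×ˢ F).filter
      (fun i => nrm (vr Q) (supp (join i.1 i.2)) = n)) with he | hne
    · rw [he, Finset.sum_empty]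
      positivity
    · obtain ⟨i0, hi0⟩ := hne
      rw [mem_filter] at hi0
      set S := supp (join i0.1 i0.2) with hS
      have hn : n ≠ 0 := by
        rw [← hi0.2]
        exact (FamP_pos Q hQ _).ne'
      have hdv : nrm (vr Q) S ∣ n := by
        rw [← hi0.2]
      have hT := FamP_tau Q hQ n hn S hdv
      have hsub : (F ×ˢ F).filter (fun i => nrm (vr Q) (supp (join i.1 i.2)) = n) ⊆
          (univ.filter (fun d : {p // p ∈ Q} → Option J => supp d ⊆ S)) ×ˢ
          (univ.filter (fun d : {p // p ∈ Q} → Option J => supp d ⊆ S)) := by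
        intro i hi
        rw [mem_filter] at hi
        have h1 : nrm (vr Q) (supp (join i.1 i.2)) = nrm (vr Q) S := by
          rw [hi.2, hi0.2]
        have h2 := FamP_inj Q hQ _ _ h1
        rw [FamP_supp] at h2
        rw [Finset.mem_product, mem_filter, mem_filter]
        refine ⟨⟨mem_univ _, ?_⟩, ⟨mem_univ _, ?_⟩⟩
        · rw [← h2]
          exact Finset.subset_union_left
        · rw [← h2]
          exact Finset.subset_union_right
      calc ∑ i ∈ (F ×ˢ F).filter (fun i => nrm (vr Q) (supp (join i.1 i.2)) = n),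
            (2 : ℝ) ^ (supp i.1).card * 2 ^ (supp i.2).card
          ≤ ∑ i ∈ (univ.filter (fun d : {p // p ∈ Q} → Option J => supp d ⊆ S)) ×ˢ
              (univ.filter (fun d : {p // p ∈ Q} → Option J => supp d ⊆ S)),
            (2 : ℝ) ^ (supp i.1).card * 2 ^ (supp i.2).card := by
            apply Finset.sum_le_sum_of_subset_of_nonneg hsub
            intro i _ _
            positivity
        _ = (1 + 2 * (K : ℝ)) ^ S.card * (1 + 2 * (K : ℝ)) ^ S.card := by
            rw [Finset.sum_product]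
            simp only [← Finset.mul_sum, ← Finset.sum_mul]
            rw [FamP_sum]
        _ ≤ (2 ^ (1 + 2 * K)) ^ S.card * (2 ^ (1 + 2 * K)) ^ S.card := by
            gcongr
        _ = ((2 : ℝ) ^ S.card) ^ (2 * (1 + 2 * K)) := by
            rw [← pow_add, ← pow_mul, ← pow_mul]
            congr 1
            ring
        _ ≤ (n.divisors.card : ℝ) ^ (2 * (1 + 2 * K)) := by
            have h3 : ((2 : ℝ) ^ S.card) ≤ (n.divisors.card : ℝ) := by exact_mod_cast hT
            gcongr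

end Pool.CP
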