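import Pool.Agent.Lib.MP_c77da8_nt.CP.Defs

/-!
# CP-FormE: the forms `f j * A * n - 1` and the set `Qe w R e`; the hypothesis on exceptional characters

`noexc_up`: `N ≤ X ≤ N²`, `L = log N`: `(log X)^(1/2100) ≤ (2 L)^(1/2100) ≤ L^(1/2050)` and `(log X)^(-1/200) ≤ L^(-1/250)` for large `N` (`Pool.CM.LowM δ r`, `CM/Defs.lean`, is
monotone: a smaller `δ` is weaker).
`forms_ok`: `p ∈ Qe w R e` (a prime with `w < p ≤ R`, `p ≠ e`): `p > w ≥ f j ≥ 1`, so `p` divides neither `f j` nor `A` (`MulOK.small`) nor `f i - f j ≠ 0`.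
`mul_f`: the prime factors of `f j` are `≤ w` and different from `e` (`FOK.le`, `FOK.exc`), so `f j * A` has the same prime factors as `A`.
-/

set_option autoImplicit false

namespace Pool.CP

open Finset

private lemma FormE_mem {w R e p : ℕ} (hp : p ∈ Qe w R e) : p.Prime ∧ w < p ∧ p ≤ R ∧ p ≠ e := by
  unfold Qe at hp
  rw [Finset.mem_erase] at hp
  obtain ⟨hne, hp⟩ := hp
  unfold Pool.CG.Pr at hp
  rw [Finset.mem_filter, Finset.mem_Icc] at hp
  exact ⟨hp.2.1, hp.2.2, hp.1.2, hne⟩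

/-- if `x ≤ y ≤ 2 x` and `x` is large then `y ^ a ≤ x ^ b` (`0 < a < b`) -/
private lemma FormE_pow {a b x y : ℝ} (ha : 0 < a) (hx : 0 < x) (hy0 : 0 ≤ y) (hy : y ≤ 2 * x)
    (hlarge : (2 : ℝ) ^ a ≤ x ^ (b - a)) : y ^ a ≤ x ^ b := by
  calc y ^ a ≤ (2 * x) ^ a := Real.rpow_le_rpow hy0 hy ha.le
    _ = 2 ^ a * x ^ a := Real.mul_rpow (by norm_num) hx.le
    _ ≤ x ^ (b - a) * x ^ a := by
        apply mul_le_mul_of_nonneg_right hlarge (Real.rpow_nonneg hx.le _)
    _ = x ^ b := by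
        rw [← Real.rpow_add hx]; congr 1; ring

theorem noexc_up : ∃ N0 : ℕ, ∀ N ≥ N0, ∀ e : ℕ, NoExcN (Real.log N) e → ∀ X : ℕ, N ≤ X → X ≤ N ^ 2 →
    NoExc (Real.log X) e := by
  -- for large `x`: `2^(1/2100) ≤ x^(1/2050 - 1/2100)`
  have hev : ∀ᶠ x : ℝ in Filter.atTop, (2 : ℝ) ^ (1 / 2100 : ℝ) ≤ x ^ ((1 / 2050 : ℝ) - 1 / 2100) :=
    (tendsto_rpow_atTop (by norm_num : (0 : ℝ) < 1 / 2050 - 1 / 2100)).eventually_ge_atTop _
  have hlog : Filter.Tendsto (fun N : ℕ => Real.log (N : ℝ)) Filter.atTop Filter.atTop :=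
    Real.tendsto_log_atTop.comp tendsto_natCast_atTop_atTop
  have hev2 := (hlog.eventually hev).and (hlog.eventually (Filter.eventually_ge_atTop (1 : ℝ)))
  obtain ⟨N0, hN0⟩ := Filter.eventually_atTop.mp hev2
  refine ⟨max N0 1, fun N hN e hno X hNX hXN => ?_⟩
  obtain ⟨h1, h2⟩ := hN0 N (le_trans (le_max_left _ _) hN)
  have hNpos : 1 ≤ N := le_trans (le_max_right _ _) hN
  have hNr : (0 : ℝ) < N := by exact_mod_cast hNpos
  have hXr : (0 : ℝ) < X := by
    have : 1 ≤ X := le_trans hNpos hNX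
    exact_mod_cast this
  have hlow : Real.log N ≤ Real.log X := Real.log_le_log hNr (by exact_mod_cast hNX)
  have hup : Real.log X ≤ 2 * Real.log N := by
    have h3 : Real.log X ≤ Real.log ((N : ℝ) ^ 2) := Real.log_le_log hXr (by exact_mod_cast hXN)
    rw [Real.log_pow] at h3
    simpa using h3
  have hLpos : 0 < Real.log N := by linarith
  have hXpos : 0 < Real.log X := by linarith
  intro r hr0 her hrle
  have h4 : (Real.log X) ^ (1 / 2100 : ℝ) ≤ (Real.log N) ^ (1 / 2050 : ℝ) :=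
    FormE_pow (by norm_num) hLpos hXpos.le hup h1
  have h5 := hno r her (hrle.trans (Real.exp_le_exp.mpr h4))
  intro χ hχ1 hχ2
  refine le_trans ?_ (h5 χ hχ1 hχ2)
  calc (Real.log X) ^ (-(1 / 200) : ℝ) ≤ (Real.log N) ^ (-(1 / 200) : ℝ) :=
        Real.rpow_le_rpow_of_nonpos hLpos hlow (by norm_num)
    _ ≤ (Real.log N) ^ (-(1 / 250) : ℝ) := Real.rpow_le_rpow_of_exponent_le h2 (by norm_num)

theorem forms_ok {J : Type} (w R e A : ℕ) (hw : 12 ≤ w) (f : J → ℕ) (hA : MulOK w e A) (hf : FOK f w e) :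
    FormsQ (Qe w R e) (fun j => f j * A) := by
  have key : ∀ p ∈ Qe w R e, ¬ p ∣ A := by
    intro p hp hpA
    obtain ⟨h1, h2, _, _⟩ := FormE_mem hp
    have := ((hA.small p h1).mp hpA).1
    omega
  have keyf : ∀ p ∈ Qe w R e, ∀ j, ¬ p ∣ f j := by
    intro p hp j hpf
    obtain ⟨h1, h2, _, _⟩ := FormE_mem hp
    have h3 := Nat.le_of_dvd (hf.pos j) hpf
    have h4 := hf.le j
    omega
  constructor
  · intro p hp; exact (FormE_mem hp).1
  · intro p hp
    have := (FormE_mem hp).2.1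
    omega
  · intro j
    exact Nat.mul_pos (hf.pos j) hA.pos
  · intro j p hp hdvd
    rcases (FormE_mem hp).1.dvd_mul.mp hdvd with h | h
    · exact keyf p hp j h
    · exact key p hp h
  · intro i j hij p hp hmod
    have hpr := (FormE_mem hp).1
    have hwp := (FormE_mem hp).2.1
    have hcop : Nat.gcd p A = 1 := (Nat.Prime.coprime_iff_not_dvd hpr).mpr (key p hp)
    have h5 : f i ≡ f j [MOD p] := Nat.ModEq.cancel_right_of_coprime hcop hmod
    have hi := hf.le i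
    have hj := hf.le j
    have h6 : f i = f j := Nat.ModEq.eq_of_lt_of_lt h5 (by omega) (by omega)
    exact hij (hf.inj h6)

theorem mul_f {J : Type} (w e A : ℕ) (f : J → ℕ) (hA : MulOK w e A) (hf : FOK f w e) (j : J) : MulOK w e (f j * A) := by
  refine ⟨hA.exc, Nat.mul_pos (hf.pos j) hA.pos, fun p hp => ?_⟩
  constructor
  · intro h
    rcases hp.dvd_mul.mp h with h1 | h1
    · refine ⟨le_trans (Nat.le_of_dvd (hf.pos j) h1) (hf.le j), ?_⟩
      rintro rfl
      exact hf.exc j h1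
    · exact (hA.small p hp).mp h1
  · intro h
    exact Dvd.dvd.mul_left ((hA.small p hp).mpr h) _

end Pool.CP
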