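import Pool.Agent.Lib.MP_c77da8_nt.CP.SumsE
import Pool.Agent.Lib.MP_c77da8_nt.DL.LamBd
import Pool.Agent.Lib.MP_c77da8_nt.DL.GW
import Pool.Agent.Lib.MP_c77da8_nt.DL.Up
import Pool.Agent.Lib.MP_c77da8_nt.DL.Expd

/-!
# CP-ZLam: bounds for the coefficients and the values of the weight

PROOF.  `ZQ_le`: `1 + K x ≤ (1 + x)^K` and the second part of `V_upe` (see `Z_bd`, `DL/ErrI.lean`).
`yM_bd`: see `yy_bd` in `DL/Main.lean` (`yy_nonneg`, `GG_basic`).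
`lam_sumQ`: `sum_lam` (`qr = vr` as reals), squared.
`Lam_le`: `Lam_eq` (`DL/Expd.lean`): `Lam = ∑_(le d ξ) lam d`; the number of the `d` with `le d ξ` is `2^(#supp ξ)` (for each `p ∈ supp ξ` two choices), all with
`#supp d ≤ #supp ξ`, `|lam d| ≤ 2^(#supp d) Z` (`lam_bd`); so `|Lam| ≤ 4^(#supp ξ) Z`.
-/

set_option autoImplicit false

namespace Pool.CP

open Finset Pool.DL

variable {J : Type} [Fintype J] [DecidableEq J]

private theorem zl_qr (Q : Finset ℕ) (hQ : ∀ p ∈ Q, 12 ≤ p) (p : {p // p ∈ Q}) : 12 ≤ qr Q p := by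
  unfold qr
  exact_mod_cast hQ p.1 p.2

private theorem zl_vr (Q : Finset ℕ) (hQ : ∀ p ∈ Q, 12 ≤ p) (p : {p // p ∈ Q}) : 1 ≤ vr Q p := by
  have := hQ p.1 p.2
  unfold vr
  omega

private theorem zl_Qe (w R e : ℕ) (hw : 12 ≤ w) : ∀ p ∈ Qe w R e, 12 ≤ p := by
  intro p hp
  have := ((mem_Qe w R e p).1 hp).2.1
  omega

private theorem zl_Z0 (J : Type) [Fintype J] (Q : Finset ℕ) (hQ : ∀ p ∈ Q, 12 ≤ p) :
    0 ≤ ∏ p : {p // p ∈ Q}, (1 + KK J * xx (qr Q) p) := by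
  classical
  refine Finset.prod_nonneg fun p _ => ?_
  have h4 := lb_one_le_fac (J := J) _ (zl_qr Q hQ) p
  linarith

theorem ZQ_le : ∃ C : ℝ, 1 ≤ C ∧ ∀ (J : Type) [Fintype J] (w R e : ℕ), 12 ≤ w → w ≤ R →
    ∏ p : {p // p ∈ Qe w R e}, (1 + KK J * xx (qr (Qe w R e)) p) ≤ (C * Real.log R / wD w) ^ Fintype.card J := by
  obtain ⟨CV, hCV, _, hV⟩ := V_upe
  refine ⟨(CV : ℝ), by exact_mod_cast hCV, ?_⟩
  intro J _ w R e hw hR
  classical
  have hxx : ∀ p : {p // p ∈ Qe w R e}, 0 < xx (qr (Qe w R e)) p := fun p =>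
    lb_xx_pos _ (zl_qr _ (zl_Qe w R e hw)) p
  have h1 : ∏ p : {p // p ∈ Qe w R e}, (1 + KK J * xx (qr (Qe w R e)) p) ≤
      (∏ p : {p // p ∈ Qe w R e}, (1 + xx (qr (Qe w R e)) p)) ^ Fintype.card J := by
    rw [← Finset.prod_pow]
    refine Finset.prod_le_prod (fun p _ => ?_) (fun p _ => ?_)
    · have h2 := lb_one_le_fac (J := J) _ (zl_qr _ (zl_Qe w R e hw)) p
      linarith
    · have h2 := one_add_mul_le_pow (a := xx (qr (Qe w R e)) p) (by linarith [hxx p])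
        (Fintype.card J)
      unfold KK
      exact h2
  refine h1.trans ?_
  have h3 : 0 ≤ ∏ p : {p // p ∈ Qe w R e}, (1 + xx (qr (Qe w R e)) p) :=
    Finset.prod_nonneg fun p _ => by linarith [hxx p]
  exact pow_le_pow_left₀ h3 (hV w R e hw hR) _

theorem yM_bd (Q : Finset ℕ) (hQ : ∀ p ∈ Q, 12 ≤ p) (ℓ u Th : ℕ) (hu : 2 ≤ u) (r : {p // p ∈ Q} → Option J) :
    0 ≤ yM Q ℓ u Th r ∧ yM Q ℓ u Th r ≤ 1 ∧ (yM Q ℓ u Th r ≠ 0 → nrm (vr Q) (supp r) ≤ u ^ Th) := by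
  obtain ⟨hG, hG1, _⟩ := GG_basic (vr Q) (zl_vr Q hQ) ℓ u hu
  unfold yM
  refine ⟨yy_nonneg _ _ _ hG r, ?_, ?_⟩
  · unfold yy
    split_ifs
    · exact Finset.prod_le_one (fun j _ => hG.1 _) (fun j _ => hG1 _)
    · norm_num
  · intro h
    unfold yy at h
    by_contra h2
    exact h (if_neg h2)

theorem lam_sumQ (Q : Finset ℕ) (hQ : ∀ p ∈ Q, 12 ≤ p) (ℓ u Th : ℕ) (hu : 2 ≤ u) :
    (∑ d : {p // p ∈ Q} → Option J, |lam (qr Q) (yM Q ℓ u Th) d|) ^ 2 ≤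
      ((u : ℝ) ^ Th) ^ 2 * (∏ p : {p // p ∈ Q}, (1 + KK J * xx (qr Q) p)) ^ 6 := by
  have h := sum_lam (J := J) (qr Q) (vr Q) (zl_qr Q hQ) (fun p => rfl) (u ^ Th) (yM Q ℓ u Th)
    (fun r => by
      have h1 := yM_bd Q hQ ℓ u Th hu r
      rw [abs_of_nonneg h1.1]
      exact h1.2.1)
    (fun r => (yM_bd Q hQ ℓ u Th hu r).2.2)
  have h0 : 0 ≤ ∑ d : {p // p ∈ Q} → Option J, |lam (qr Q) (yM Q ℓ u Th) d| :=
    Finset.sum_nonneg fun d _ => abs_nonneg _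
  refine (pow_le_pow_left₀ h0 h 2).trans (le_of_eq ?_)
  push_cast
  ring

theorem Lam_le (Q : Finset ℕ) (hQ : ∀ p ∈ Q, 12 ≤ p) (ℓ u Th : ℕ) (hu : 2 ≤ u) (m : ℕ) (ξ : {p // p ∈ Q} → Option J)
    (hm : (supp ξ).card ≤ m) :
    |Lam (qr Q) (yM Q ℓ u Th) ξ| ≤ 4 ^ m * ∏ p : {p // p ∈ Q}, (1 + KK J * xx (qr Q) p) := by
  have hq := zl_qr Q hQ
  have hv := zl_vr Q hQ
  have hZ0 := zl_Z0 J Q hQ
  set Z : ℝ := ∏ p : {p // p ∈ Q}, (1 + KK J * xx (qr Q) p) with hZ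
  have h1 : ∀ d : {p // p ∈ Q} → Option J,
      |lam (qr Q) (yM Q ℓ u Th) d * (if Pool.DL.le d ξ then 1 else 0)| ≤
      Z * ∏ p, ((if d p = none ∨ d p = ξ p then (1 : ℝ) else 0) * (if d p = none then 1 else 2)) := by
    intro d
    rw [abs_mul, Finset.prod_mul_distrib, ← le_prod, ← lb_pow_supp]
    have h2 : |(if Pool.DL.le d ξ then (1 : ℝ) else 0)| = if Pool.DL.le d ξ then 1 else 0 := by
      split_ifs <;> simp
    have h3 := lam_bd (J := J) (qr Q) (vr Q) hq hv (u ^ Th) (yM Q ℓ u Th)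
      (fun r => by
        have h1 := yM_bd Q hQ ℓ u Th hu r
        rw [abs_of_nonneg h1.1]
        exact h1.2.1)
      (fun r => (yM_bd Q hQ ℓ u Th hu r).2.2) d
    rw [← hZ] at h3
    have h4 : (if nrm (vr Q) (supp d) ≤ u ^ Th then 2 ^ (supp d).card * Z else 0) ≤
        2 ^ (supp d).card * Z := by
      split_ifs
      · exact le_rfl
      · positivity
    have h5 : (0 : ℝ) ≤ if Pool.DL.le d ξ then (1 : ℝ) else 0 := by split_ifs <;> norm_num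
    rw [h2]
    calc |lam (qr Q) (yM Q ℓ u Th) d| * (if Pool.DL.le d ξ then (1 : ℝ) else 0)
        ≤ (2 ^ (supp d).card * Z) * (if Pool.DL.le d ξ then (1 : ℝ) else 0) :=
          mul_le_mul_of_nonneg_right (h3.trans h4) h5
      _ = Z * ((if Pool.DL.le d ξ then (1 : ℝ) else 0) * 2 ^ (supp d).card) := by ring
  rw [Lam_eq]
  refine (Finset.abs_sum_le_sum_abs _ _).trans ((Finset.sum_le_sum fun d _ => h1 d).trans ?_)
  rw [← Finset.mul_sum, sum_prod (fun (p : {p // p ∈ Q}) (b : Option J) =>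
    (if b = none ∨ b = ξ p then (1 : ℝ) else 0) * (if b = none then 1 else 2))]
  have h6 : ∀ p : {p // p ∈ Q}, ∑ b : Option J,
      (if b = none ∨ b = ξ p then (1 : ℝ) else 0) * (if b = none then 1 else 2) =
      if ξ p = none then 1 else 3 := by
    intro p
    rw [Fintype.sum_option]
    rcases ξ p with _ | j
    · simp
    · simp only [true_or, if_true, reduceCtorEq, false_or, if_false, Option.some.injEq, mul_one]
      have h7 : ∀ x : J, (if x = j then (1 : ℝ) else 0) * 2 = if x = j then 2 else 0 := by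
        intro x
        split_ifs <;> norm_num
      rw [Finset.sum_congr rfl fun x _ => h7 x, Finset.sum_ite_eq']
      simp
      norm_num
  rw [Finset.prod_congr rfl fun p _ => h6 p, ← lb_pow_supp]
  have h8 : (3 : ℝ) ^ (supp ξ).card ≤ 4 ^ m := by
    calc (3 : ℝ) ^ (supp ξ).card ≤ 4 ^ (supp ξ).card :=
          pow_le_pow_left₀ (by norm_num) (by norm_num) _
      _ ≤ 4 ^ m := pow_le_pow_right₀ (by norm_num) hm
  rw [mul_comm]
  exact mul_le_mul_of_nonneg_right h8 hZ0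

end Pool.CP
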