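import Pool.Agent.Lib.MP_c77da8_nt.CP.Avg

/-!
# CP-Fin: assembly

PROOF.  `ε' = min ε 1`.  `σ = c5 ε'/1000`.  `K` from `hsz k σ`; `K ≥ 1`, since for
`K = 0` the set `∅` would contain a progression of length `k ≥ 1`.  `u = K + 2` (`2 K ≤ 2^u`).  `g = 10 K`,
`L = ⌈64 g/ε'⌉₊` (`≥ 64 g ≥ 640 K ≥ 150 K + 10`, and `L ≤ 64 g/ε' + 1 ≤ 65 g/ε'`, so `g/L ≥ ε'/65`, `4 σ ≤ c5 g/L`).
`avg` gives for every large `t` numbers `v, a, d`; `d ≤ K` if `k ≥ 2` (if `k = 1` take `d = 1`); by the pigeonhole principle one `d` occurs for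
infinitely many `t` (a finite union of bounded sets is bounded).  Put `n = 2^a (M0 u v)`.  Then `n ≥ v ≥ 2^(L u 2^t) ≥ t`, so `n → ∞`;
for `j < k`: `2^(j d) n = 2^(a + j d) M0 u v = p s + 1`.  `s ≤ 2^(16 g u 2^t) ≤ n^ε` as `16 g ≤ ε L`;
`n ≤ 2^K M0 u 2^(2 L u 2^t) ≤ 2^((2 L + 1) u 2^t)` for large `t`, so with `δ = 1/(2 L + 1)` every prime factor of `s` is
`> 2^(u 2^t) ≥ n^δ`.
-/

set_option autoImplicit false

namespace Pool.CP

open Finset Pool.Agent.Lib.MP_c77da8_nt.Sv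

theorem c5_pos : 0 < c5 := by unfold c5; positivity

/-- one of finitely many properties that hold alternately holds infinitely often -/
theorem pigeon (K : ℕ) (P : ℕ → ℕ → Prop) (t0 : ℕ)
    (h : ∀ t, t0 ≤ t → ∃ d, 1 ≤ d ∧ d ≤ K ∧ P d t) :
    ∃ d, 1 ≤ d ∧ ∀ T, ∃ t, T ≤ t ∧ P d t := by
  by_contra hcon
  push Not at hcon
  have h1 : ∀ d, ∃ T, 1 ≤ d → ∀ t, T ≤ t → ¬ P d t := by
    intro d
    by_cases hd : 1 ≤ d
    · obtain ⟨T, hT⟩ := hcon d hd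
      exact ⟨T, fun _ => hT⟩
    · exact ⟨0, fun h => absurd h hd⟩
  choose T hT using h1
  obtain ⟨d, hd1, hdK, hP⟩ := h (t0 + ∑ d ∈ range (K + 1), T d) (Nat.le_add_right _ _)
  refine hT d hd1 _ ?_ hP
  have h2 : T d ≤ ∑ d ∈ range (K + 1), T d :=
    single_le_sum (f := T) (fun _ _ => Nat.zero_le _) (mem_range.2 (by omega))
  omega

theorem chains (hsz : ∀ k : ℕ, ∀ δ : ℝ, 0 < δ → ∃ N : ℕ, ∀ S : Finset ℕ, S ⊆ range N →
      δ * N ≤ S.card → ∃ a d : ℕ, 1 ≤ d ∧ ∀ j < k, a + j * d ∈ S)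
    (k : ℕ) (hk : 1 ≤ k) (ε : ℝ) (hε : 0 < ε) :
    ∃ d : ℕ, 1 ≤ d ∧ ∃ δ : ℝ, 0 < δ ∧ ∀ N : ℕ, ∃ n : ℕ, N ≤ n ∧
      (∀ i ≤ (k - 1) * d, ∀ q : ℕ, q.Prime → q ∣ 2 ^ i * n - 1 → (n : ℝ) ^ δ ≤ q) ∧
      ∀ j < k, ∃ p s : ℕ, 2 ^ (j * d) * n - 1 = p * s ∧ p.Prime ∧ (s : ℝ) ≤ (n : ℝ) ^ ε ∧
        Squarefree s ∧ Even s.primeFactors.card := by
  have hc5 := c5_pos
  obtain ⟨e, he0, he1, heε⟩ : ∃ e : ℝ, 0 < e ∧ e ≤ 1 ∧ e ≤ ε :=
    ⟨min ε 1, lt_min hε one_pos, min_le_right _ _, min_le_left _ _⟩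
  have hσ : 0 < c5 * e / 1000 := by positivity
  obtain ⟨K, hKsz⟩ := hsz k (c5 * e / 1000) hσ
  have hK : 1 ≤ K := by
    by_contra hK0
    have hK0' : K = 0 := by omega
    subst hK0'
    obtain ⟨a, d, _, h⟩ := hKsz ∅ (by simp) (by simp)
    exact absurd (h 0 hk) (by simp)
  -- the parameters
  have hu : 2 ≤ K + 2 := by omega
  have hKu : 2 * K ≤ 2 ^ (K + 2) := by
    have : K < 2 ^ K := Nat.lt_two_pow_self
    rw [pow_add]
    omega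
  have hg : 1 ≤ 10 * K := by omega
  obtain ⟨L, hL64, hL65⟩ : ∃ L : ℕ, 64 * ((10 * K : ℕ) : ℝ) ≤ e * L ∧
      e * L ≤ 65 * ((10 * K : ℕ) : ℝ) := by
    refine ⟨⌈64 * ((10 * K : ℕ) : ℝ) / e⌉₊, ?_, ?_⟩
    · have h1 := Nat.le_ceil (64 * ((10 * K : ℕ) : ℝ) / e)
      rw [div_le_iff₀ he0] at h1
      linarith
    · have h1 := (Nat.ceil_lt_add_one (a := 64 * ((10 * K : ℕ) : ℝ) / e) (by positivity)).le
      have h2 : (1 : ℝ) ≤ ((10 * K : ℕ) : ℝ) := by exact_mod_cast hg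
      calc e * (⌈64 * ((10 * K : ℕ) : ℝ) / e⌉₊ : ℝ)
          ≤ e * (64 * ((10 * K : ℕ) : ℝ) / e + 1) := mul_le_mul_of_nonneg_left h1 he0.le
        _ = 64 * ((10 * K : ℕ) : ℝ) + e := by field_simp
        _ ≤ 65 * ((10 * K : ℕ) : ℝ) := by linarith
  have hLge : 640 * K ≤ L := by
    have h1 : (640 : ℝ) * K ≤ L := by
      have h2 : e * (L : ℝ) ≤ 1 * L := mul_le_mul_of_nonneg_right he1 (Nat.cast_nonneg L)
      push_cast at hL64
      linarith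
    exact_mod_cast h1
  have hL1 : 32 * (10 * K) + 1 ≤ L := by omega
  have hL2 : 150 * K + 10 ≤ L := by omega
  have hLpos : (0 : ℝ) < L := by
    have : 0 < L := by omega
    exact_mod_cast this
  have hσ2 : 4 * (c5 * e / 1000) ≤ c5 * (((10 * K : ℕ) : ℝ) / L) := by
    have h1 : e / 65 ≤ ((10 * K : ℕ) : ℝ) / L := by
      rw [div_le_div_iff₀ (by norm_num) hLpos]
      linarith
    have h2 : c5 * (e / 65) ≤ c5 * (((10 * K : ℕ) : ℝ) / L) := mul_le_mul_of_nonneg_left h1 hc5.le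
    have h3 : 0 < c5 * e := by positivity
    calc 4 * (c5 * e / 1000) ≤ c5 * (e / 65) := by
          rw [← mul_div_assoc c5 e 65]
          linarith
      _ ≤ _ := h2
  obtain ⟨t0, ht0⟩ := avg k K (K + 2) (10 * K) L hK hu hKu hg hL1 hL2 (c5 * e / 1000) hσ hσ2 hKsz
  -- pigeonhole
  obtain ⟨d, hd1, hd⟩ := pigeon K (fun d t => ∃ v a : ℕ, ∀ j < k, a + j * d < K ∧
      v ∈ GG K (K + 2) t (10 * K) L (a + j * d)) t0 (by
    intro t ht
    obtain ⟨v, a, d, hd1, h⟩ := ht0 t ht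
    rcases Nat.lt_or_ge 1 k with hk1 | hk1
    · refine ⟨d, hd1, ?_, v, a, h⟩
      have := (h 1 hk1).1
      omega
    · refine ⟨1, le_rfl, hK, v, a, ?_⟩
      intro j hj
      have hj0 : j = 0 := by omega
      subst hj0
      simpa using h 0 hk)
  refine ⟨d, hd1, 1 / (2 * L + 1), by positivity, fun N => ?_⟩
  obtain ⟨t, ht, v, a, hva⟩ := hd (N + 2 ^ K * M0 (K + 2))
  have hM0 : 1 ≤ M0 (K + 2) := M0_pos _
  -- the size of `a' = u 2^t`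
  obtain ⟨A, hA⟩ : ∃ A : ℕ, A = (K + 2) * 2 ^ t := ⟨_, rfl⟩
  have hAt : t ≤ A := by
    rw [hA]
    calc t ≤ 2 ^ t := Nat.lt_two_pow_self.le
      _ ≤ (K + 2) * 2 ^ t := Nat.le_mul_of_pos_left _ (by omega)
  have hv0 := (mem_GG.1 (hva 0 hk).2).1
  rw [← hA] at hv0
  have haK : a < K := by simpa using (hva 0 hk).1
  have hvpos : 1 ≤ v := le_trans Nat.one_le_two_pow hv0.1
  have hnlow : 2 ^ (L * A) ≤ 2 ^ a * (M0 (K + 2) * v) := by
    calc 2 ^ (L * A) ≤ v := hv0.1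
      _ ≤ M0 (K + 2) * v := Nat.le_mul_of_pos_left _ hM0
      _ ≤ 2 ^ a * (M0 (K + 2) * v) := Nat.le_mul_of_pos_left _ (by positivity)
  have hnup : 2 ^ a * (M0 (K + 2) * v) ≤ 2 ^ ((2 * L + 1) * A) := by
    have h1 : 2 ^ K * M0 (K + 2) ≤ 2 ^ A := by
      calc 2 ^ K * M0 (K + 2) ≤ t := by omega
        _ ≤ A := hAt
        _ ≤ 2 ^ A := Nat.lt_two_pow_self.le
    calc 2 ^ a * (M0 (K + 2) * v) = (2 ^ a * M0 (K + 2)) * v := by ring
      _ ≤ (2 ^ K * M0 (K + 2)) * v := Nat.mul_le_mul_right _ (Nat.mul_le_mul_right _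
          (Nat.pow_le_pow_right (by norm_num) haK.le))
      _ ≤ 2 ^ A * 2 ^ (2 * L * A) := Nat.mul_le_mul h1 hv0.2.le
      _ = 2 ^ ((2 * L + 1) * A) := by rw [← pow_add]; congr 1; ring
  obtain ⟨n, hn⟩ : ∃ n : ℕ, n = 2 ^ a * (M0 (K + 2) * v) := ⟨_, rfl⟩
  rw [← hn] at hnlow hnup
  have hnlowR : (2 : ℝ) ^ (L * A) ≤ n := by exact_mod_cast hnlow
  have hnupR : (n : ℝ) ≤ (2 : ℝ) ^ ((2 * L + 1) * A) := by exact_mod_cast hnup
  have hn1 : (1 : ℝ) ≤ n := le_trans (one_le_pow₀ (by norm_num)) hnlowR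
  have hnd : (n : ℝ) ^ (1 / (2 * (L : ℝ) + 1)) ≤ 2 ^ A := by
    calc (n : ℝ) ^ (1 / (2 * (L : ℝ) + 1))
        ≤ ((2 : ℝ) ^ ((2 * L + 1) * A)) ^ (1 / (2 * (L : ℝ) + 1)) :=
          Real.rpow_le_rpow (by positivity) hnupR (by positivity)
      _ = (2 : ℝ) ^ A := by
          rw [← Real.rpow_natCast, ← Real.rpow_mul (by norm_num), ← Real.rpow_natCast]
          congr 1
          push_cast
          field_simp
  refine ⟨n, ?_, ?_, ?_⟩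
  · calc N ≤ t := by omega
      _ ≤ A := hAt
      _ ≤ L * A := Nat.le_mul_of_pos_left _ (by omega)
      _ ≤ 2 ^ (L * A) := Nat.lt_two_pow_self.le
      _ ≤ n := hnlow
  · intro i hi q hq hdiv
    have hsurv := (mem_GG.1 (hva 0 hk).2).2.1
    have hlast := (hva (k - 1) (by omega)).1
    have hiK : a + i < K := by omega
    have h1 : 2 ^ i * n = 2 ^ (a + i) * (M0 (K + 2) * v) := by
      rw [hn, pow_add]
      ring
    rw [h1] at hdiv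
    have h2 := surv_gt hvpos hsurv hiK hq hdiv
    rw [← hA] at h2
    calc (n : ℝ) ^ (1 / (2 * (L : ℝ) + 1)) ≤ 2 ^ A := hnd
      _ ≤ q := by exact_mod_cast h2.le
  · intro j hj
    obtain ⟨_, hmem⟩ := hva j hj
    obtain ⟨_, _, p, hp, s, hs, hps⟩ := mem_GG.1 hmem
    rw [← hA] at hs
    obtain ⟨⟨_, hs2⟩, hsq, hev, hpf⟩ := mem_cof.1 hs
    refine ⟨p, s, ?_, hp, ?_, hsq, hev⟩
    · have h1 : 2 ^ (j * d) * n = p * s + 1 := by
        rw [hps, hn, pow_add]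
        ring
      rw [h1]
      exact Nat.add_sub_cancel _ _
    · calc (s : ℝ) ≤ (2 : ℝ) ^ (16 * (10 * K * A)) := by exact_mod_cast hs2
        _ = (2 : ℝ) ^ ((16 * (10 * K * A) : ℕ) : ℝ) := (Real.rpow_natCast _ _).symm
        _ ≤ (2 : ℝ) ^ (((L * A : ℕ) : ℝ) * e) := by
            refine Real.rpow_le_rpow_of_exponent_le (by norm_num) ?_
            push_cast
            push_cast at hL64
            have hA0 : (0 : ℝ) ≤ A := Nat.cast_nonneg A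
            have hK0 : (0 : ℝ) ≤ K := Nat.cast_nonneg K
            nlinarith [mul_le_mul_of_nonneg_right hL64 hA0, mul_nonneg hK0 hA0]
        _ = ((2 : ℝ) ^ (L * A)) ^ e := by
            rw [Real.rpow_mul (by norm_num), Real.rpow_natCast]
        _ ≤ (n : ℝ) ^ e := Real.rpow_le_rpow (by positivity) hnlowR he0.le
        _ ≤ (n : ℝ) ^ ε := Real.rpow_le_rpow_of_exponent_le hn1 heε

end Pool.CP
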