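import Pool.Agent.Lib.MP_c77da8_nt.CP.MainF

/-!
# CP-FinF: patterns of primes along geometric progressions, final form

PROOF.  `main_dyadicF` for `N' = N / 2`: `[N', 2 N')` is contained in `[1, N]`, `log N ≤ (log N')²`.  `final_fix`: pigeonhole over the finite family of the subsets `H` of `F`, first in
`ε = 1/(m+1)`, then in `k`.
-/

set_option autoImplicit false

namespace Pool.CP

open Finset

private theorem FinF_log (N N' : ℕ) (hN : N' = N / 2) (h16 : 16 ≤ N') :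
    1 ≤ Real.log (Real.log N') ∧ Real.log (Real.log N') ≤ Real.log (Real.log N) ∧
    Real.log (Real.log N) ≤ 2 * Real.log (Real.log N') ∧ (N : ℝ) ≤ 3 * N' := by
  have h1 : (16 : ℝ) ≤ N' := by exact_mod_cast h16
  have h2 : N ≤ 3 * N' := by omega
  have h2' : (N : ℝ) ≤ 3 * N' := by exact_mod_cast h2
  have h3 : (N' : ℝ) ≤ N := by
    have : N' ≤ N := by omega
    exact_mod_cast this
  have e16 : Real.log 16 = 4 * Real.log 2 := by
    rw [show (16 : ℝ) = 2 ^ 4 by norm_num, Real.log_pow]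
    push_cast
    ring
  have l2 := Real.log_two_gt_d9
  have l16 : (2.77 : ℝ) ≤ Real.log 16 := by
    rw [e16]
    linarith
  have hL : (2.77 : ℝ) ≤ Real.log N' := l16.trans (Real.log_le_log (by norm_num) h1)
  have hL2 : Real.log N' ≤ Real.log N := Real.log_le_log (by linarith) h3
  have l3 : Real.log 3 ≤ 3 := by
    have := Real.log_le_sub_one_of_pos (show (0 : ℝ) < 3 by norm_num)
    linarith
  have hL3 : Real.log N ≤ Real.log N' + 3 := by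
    have h4 : Real.log N ≤ Real.log (3 * N') := Real.log_le_log (by linarith) h2'
    rw [Real.log_mul (by norm_num) (by linarith)] at h4
    linarith
  have hL4 : Real.log N ≤ Real.log N' ^ 2 := by nlinarith
  refine ⟨?_, Real.log_le_log (by linarith) hL2, ?_, h2'⟩
  · rw [Real.le_log_iff_exp_le (by linarith)]
    have := Real.exp_one_lt_d9
    linarith
  · have h5 := Real.log_le_log (by linarith) hL4
    rw [Real.log_pow] at h5
    exact_mod_cast h5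

theorem final_F : ∃ C : ℕ, 1 ≤ C ∧ ∀ T K : ℕ, 1 ≤ T → C ^ T ≤ K → ∀ k : ℕ, ∃ (D c : ℝ), 0 ≤ D ∧ 0 < c ∧ ∀ ε : ℝ, 0 < ε →
    ∃ N0 : ℕ, ∀ N ≥ N0, ∀ F : Finset ℕ, F.card = K → (∀ h ∈ F, 1 ≤ h ∧ (h : ℝ) ≤ Real.log (Real.log N)) →
      ∃ H ⊆ F, H.card = T ∧ ∃ a : ℕ, 2 ≤ a ∧
        Real.log a ≤ D * Real.log (Real.log N) * Real.log (Real.log (Real.log N)) ∧
        c * N ≤ ((open Classical in (Icc 1 N).filter fun n => ∃ b : ℕ, 1 ≤ b ∧
          Real.log b ≤ Real.log (Real.log N) ^ (2 + ε) ∧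
          ∀ h ∈ H, ∀ j < k, (h * (n * b * a ^ j) - 1).Prime).card : ℝ) := by
  classical
  obtain ⟨C1, hC1, hmain⟩ := main_dyadicF
  refine ⟨2 ^ C1, Nat.one_le_two_pow, fun T K hT hK k => ?_⟩
  rw [← pow_mul] at hK
  obtain ⟨D, c, hD, hc, h1⟩ := hmain T K hT hK k
  refine ⟨D, c / 3, hD, by positivity, fun ε hε => ?_⟩
  obtain ⟨N1, h1⟩ := h1 ε hε
  refine ⟨2 * (max N1 16) + 1, fun N hN F hFK hF => ?_⟩
  obtain ⟨N', hN'⟩ : ∃ N' : ℕ, N' = N / 2 := ⟨_, rfl⟩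
  have hN'1 : max N1 16 ≤ N' := by omega
  have h16 : 16 ≤ N' := (le_max_right _ _).trans hN'1
  obtain ⟨g1, g2, g3, g4⟩ := FinF_log N N' hN' h16
  obtain ⟨H, hHF, hHT, a, ha, hloga, hcount⟩ := h1 N' ((le_max_left _ _).trans hN'1) F hFK fun h hh =>
    ⟨(hF h hh).1, (hF h hh).2.trans g3⟩
  refine ⟨H, hHF, hHT, a, ha, ?_, ?_⟩
  · refine hloga.trans ?_
    have h2 : 0 ≤ Real.log (Real.log (Real.log N')) := Real.log_nonneg g1
    exact mul_le_mul (mul_le_mul_of_nonneg_left g2 hD) (Real.log_le_log (by linarith) g2) h2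
      (mul_nonneg hD (by linarith))
  · calc c / 3 * N ≤ c / 3 * (3 * N') := mul_le_mul_of_nonneg_left g4 (by positivity)
      _ = c * N' := by ring
      _ ≤ _ := hcount
      _ ≤ _ := by
        norm_cast
        refine card_le_card fun n hn => ?_
        rw [mem_filter, mem_Ico] at hn
        rw [mem_filter, mem_Icc]
        obtain ⟨⟨hn1, hn2⟩, b, hb1, hb2, hb3⟩ := hn
        refine ⟨⟨by omega, by omega⟩, b, hb1, hb2.trans ?_, fun h hh j hj => hb3 h hh j (by omega)⟩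
        exact Real.rpow_le_rpow (by linarith) g2 (by linarith)

/-- the statement for one `N` -/
private def FinF_St (k : ℕ) (D c ε : ℝ) (N : ℕ) (H : Finset ℕ) : Prop :=
  ∃ a : ℕ, 2 ≤ a ∧ Real.log a ≤ D * Real.log (Real.log N) * Real.log (Real.log (Real.log N)) ∧
    c * N ≤ ((open Classical in (Icc 1 N).filter fun n => ∃ b : ℕ, 1 ≤ b ∧
      Real.log b ≤ Real.log (Real.log N) ^ (2 + ε) ∧
      ∀ h ∈ H, ∀ j < k, (h * (n * b * a ^ j) - 1).Prime).card : ℝ)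

/-- pigeonhole: a set which occurs infinitely often -/
private theorem FinF_pig (F : Finset ℕ) (S : ℕ → Finset ℕ) (hS : ∀ m, S m ⊆ F) : ∃ H ⊆ F, ∀ m, ∃ m' ≥ m, S m' = H := by
  classical
  by_contra hcon
  push Not at hcon
  have h1 : ∀ H : Finset ℕ, ∃ m, H ⊆ F → ∀ m' ≥ m, S m' ≠ H := by
    intro H
    by_cases hH : H ⊆ F
    · obtain ⟨m, hm⟩ := hcon H hH
      exact ⟨m, fun _ => hm⟩
    · exact ⟨0, fun h => absurd h hH⟩
  choose g hg using h1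
  have h2 := hg (S (F.powerset.sup g)) (hS _) (F.powerset.sup g)
    (Finset.le_sup (f := g) (mem_powerset.2 (hS _)))
  exact h2 rfl

private theorem FinF_mono (k k' : ℕ) (D c ε ε' : ℝ) (N : ℕ) (H : Finset ℕ) (hk : k' ≤ k) (hε : ε ≤ ε')
    (hN : 1 ≤ Real.log (Real.log N)) (h : FinF_St k D c ε N H) : FinF_St k' D c ε' N H := by
  classical
  obtain ⟨a, ha, hloga, hcount⟩ := h
  refine ⟨a, ha, hloga, hcount.trans ?_⟩
  norm_cast
  refine card_le_card fun n hn => ?_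
  rw [mem_filter] at hn
  rw [mem_filter]
  obtain ⟨hn1, b, hb1, hb2, hb3⟩ := hn
  exact ⟨hn1, b, hb1, hb2.trans (Real.rpow_le_rpow_of_exponent_le hN (by linarith)),
    fun h hh j hj => hb3 h hh j (by omega)⟩

private theorem FinF_fix (C : ℕ) (hmain : ∀ T K : ℕ, 1 ≤ T → C ^ T ≤ K → ∀ k : ℕ, ∃ (D c : ℝ), 0 ≤ D ∧ 0 < c ∧
    ∀ ε : ℝ, 0 < ε → ∃ N0 : ℕ, ∀ N ≥ N0, ∀ F : Finset ℕ, F.card = K →
      (∀ h ∈ F, 1 ≤ h ∧ (h : ℝ) ≤ Real.log (Real.log N)) → ∃ H ⊆ F, H.card = T ∧ FinF_St k D c ε N H)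
    (T : ℕ) (hT : 1 ≤ T) (F : Finset ℕ) (hF : ∀ h ∈ F, 1 ≤ h) (hFC : C ^ T ≤ F.card) :
    ∃ H ⊆ F, H.card = T ∧ ∀ k : ℕ, ∃ (D c : ℝ), 0 ≤ D ∧ 0 < c ∧ ∀ ε : ℝ, 0 < ε → ∀ N0 : ℕ, ∃ N ≥ N0,
      FinF_St k D c ε N H := by
  classical
  -- large `N`
  have hlog : Filter.Tendsto (fun N : ℕ => Real.log (Real.log (N : ℝ))) Filter.atTop Filter.atTop :=
    Real.tendsto_log_atTop.comp (Real.tendsto_log_atTop.comp tendsto_natCast_atTop_atTop)
  obtain ⟨N1, hN1⟩ := Filter.eventually_atTop.1 (hlog.eventually_ge_atTop (max 1 ((F.sup id : ℕ) : ℝ)))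
  have hN1a : ∀ N ≥ N1, 1 ≤ Real.log (Real.log (N : ℝ)) := fun N hN => (le_max_left _ _).trans (hN1 N hN)
  have hN1b : ∀ N ≥ N1, ∀ h ∈ F, 1 ≤ h ∧ (h : ℝ) ≤ Real.log (Real.log (N : ℝ)) := by
    intro N hN h hh
    refine ⟨hF h hh, le_trans ?_ ((le_max_right _ _).trans (hN1 N hN))⟩
    exact_mod_cast Finset.le_sup (f := id) hh
  have hk : ∀ k : ℕ, ∃ H ⊆ F, H.card = T ∧ ∃ (D c : ℝ), 0 ≤ D ∧ 0 < c ∧ ∀ ε : ℝ, 0 < ε → ∀ N0 : ℕ, ∃ N ≥ N0,
      N1 ≤ N ∧ FinF_St k D c ε N H := by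
    intro k
    obtain ⟨D, c, hD, hc, h1⟩ := hmain T F.card hT hFC k
    have h2 : ∀ m : ℕ, ∃ H ⊆ F, H.card = T ∧ ∃ N ≥ m, N1 ≤ N ∧ FinF_St k D c (1 / (m + 1)) N H := by
      intro m
      obtain ⟨N0, h3⟩ := h1 (1 / (m + 1)) (by positivity)
      obtain ⟨H, hHF, hHT, h4⟩ := h3 (max N0 (max m N1)) (le_max_left _ _) F rfl
        (hN1b _ ((le_max_right _ _).trans (le_max_right _ _)))
      exact ⟨H, hHF, hHT, max N0 (max m N1), (le_max_left _ _).trans (le_max_right _ _),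
        (le_max_right _ _).trans (le_max_right _ _), h4⟩
    choose S hSF hST hS using h2
    obtain ⟨H, hHF, hH⟩ := FinF_pig F S hSF
    refine ⟨H, hHF, ?_, D, c, hD, hc, fun ε hε N0 => ?_⟩
    · obtain ⟨m, -, hm⟩ := hH 0
      rw [← hm]
      exact hST m
    · obtain ⟨m0, hm0⟩ := exists_nat_one_div_lt hε
      obtain ⟨m, hm, hmH⟩ := hH (max m0 N0)
      obtain ⟨N, hN, hNN1, hSt⟩ := hS m
      rw [hmH] at hSt
      refine ⟨N, ((le_max_right _ _).trans hm).trans hN, hNN1, FinF_mono k k D c _ _ N H le_rfl ?_ (hN1a N hNN1) hSt⟩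
      refine le_trans ?_ hm0.le
      have h5 : (m0 : ℝ) ≤ m := by exact_mod_cast (le_max_left _ _).trans hm
      exact one_div_le_one_div_of_le (by positivity) (by linarith)
  choose S hSF hST D c hD hc hS using hk
  obtain ⟨H, hHF, hH⟩ := FinF_pig F S hSF
  refine ⟨H, hHF, ?_, fun k => ?_⟩
  · obtain ⟨m, -, hm⟩ := hH 0
    rw [← hm]
    exact hST m
  · obtain ⟨k', hk', hkH⟩ := hH k
    refine ⟨D k', c k', hD k', hc k', fun ε hε N0 => ?_⟩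
    obtain ⟨N, hN, hNN1, hSt⟩ := hS k' ε hε N0
    rw [hkH] at hSt
    exact ⟨N, hN, FinF_mono k' k (D k') (c k') ε ε N H hk' le_rfl (hN1a N hNN1) hSt⟩

theorem final_both : ∃ C : ℕ, 1 ≤ C ∧ ∀ T : ℕ, 1 ≤ T →
    (∀ K : ℕ, C ^ T ≤ K → ∀ k : ℕ, ∃ (D c : ℝ), 0 < c ∧ ∀ ε : ℝ, 0 < ε → ∃ N0 : ℕ, ∀ N ≥ N0, ∀ F : Finset ℕ, F.card = K →
      (∀ h ∈ F, 1 ≤ h ∧ (h : ℝ) ≤ Real.log (Real.log N)) → ∃ H ⊆ F, H.card = T ∧ ∃ a : ℕ, 2 ≤ a ∧
        Real.log a ≤ D * Real.log (Real.log N) * Real.log (Real.log (Real.log N)) ∧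
        c * N ≤ ((open Classical in (Icc 1 N).filter fun n => ∃ b : ℕ, 1 ≤ b ∧
          Real.log b ≤ Real.log (Real.log N) ^ (2 + ε) ∧
          ∀ h ∈ H, ∀ j < k, (h * (n * b * a ^ j) - 1).Prime).card : ℝ)) ∧
    (∀ F : Finset ℕ, (∀ h ∈ F, 1 ≤ h) → C ^ T ≤ F.card → ∃ H ⊆ F, H.card = T ∧
      ∀ k : ℕ, ∃ (D c : ℝ), 0 < c ∧ ∀ ε : ℝ, 0 < ε → ∀ N0 : ℕ, ∃ N ≥ N0, ∃ a : ℕ, 2 ≤ a ∧
        Real.log a ≤ D * Real.log (Real.log N) * Real.log (Real.log (Real.log N)) ∧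
        c * N ≤ ((open Classical in (Icc 1 N).filter fun n => ∃ b : ℕ, 1 ≤ b ∧
          Real.log b ≤ Real.log (Real.log N) ^ (2 + ε) ∧
          ∀ h ∈ H, ∀ j < k, (h * (n * b * a ^ j) - 1).Prime).card : ℝ)) := by
  classical
  obtain ⟨C, hC, hmain⟩ := final_F
  refine ⟨C, hC, fun T hT => ⟨fun K hK k => ?_, fun F hF hFC => ?_⟩⟩
  · obtain ⟨D, c, -, hc, h⟩ := hmain T K hT hK k
    exact ⟨D, c, hc, h⟩
  · obtain ⟨H, hHF, hHT, hH⟩ := FinF_fix C hmain T hT F hF hFC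
    refine ⟨H, hHF, hHT, fun k => ?_⟩
    obtain ⟨D, c, -, hc, h⟩ := hH k
    exact ⟨D, c, hc, h⟩

end Pool.CP
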