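import Pool.Agent.Lib.MP_c77da8_nt.CP.MainC
import Pool.Agent.Lib.MP_c77da8_nt.CP.CombG

/-!
# CP-FinG: patterns of primes along geometric progressions, version with classes, general multipliers, final form

PROOF.  `main_dyadicC` for `N' = N / 2` and the forms of `comb_G` (`C^T`-part of `F` for every word); the factor `c0 ≤ B` of the combinatorial line is put into `b`.
The prescribed part `g` of the ratio has a radical `≤ log log N`.
Part (2): pigeonhole over the finite family of the sets `S`, first in `ε = 1/(m+1)`, then in the length `ℓ`.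
-/

set_option autoImplicit false

namespace Pool.CP

open Finset

private theorem FinG_log (N N' : ℕ) (hN : N' = N / 2) (h16 : 16 ≤ N') :
    1 ≤ Real.log (Real.log N') ∧ Real.log (Real.log N') ≤ Real.log (Real.log N) ∧
    Real.log (Real.log N) ≤ 2 * Real.log (Real.log N') ∧ (N : ℝ) ≤ 3 * N' ∧
    Real.log N ^ (1 / 10000 : ℝ) ≤ 2 * Real.log N' ^ (1 / 10000 : ℝ) := by
  have h1 : (16 : ℝ) ≤ N' := by exact_mod_cast h16
  have h2 : N ≤ 3 * N' := by omega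
  have h2' : (N : ℝ) ≤ 3 * N' := by exact_mod_cast h2
  have h3 : (N' : ℝ) ≤ N := by
    have : N' ≤ N := by omega
    exact_mod_cast this
  have e16 : Real.log 16 = 4 * Real.log 2 := by
    rw [show (16 : ℝ) = 2 ^ 4 by norm_num, Real.log_pow]
    push_cast
    ring
  have l2 := Real.log_two_gt_d9
  have l16 : (2.77 : ℝ) ≤ Real.log 16 := by
    rw [e16]
    linarith
  have hL : (2.77 : ℝ) ≤ Real.log N' := l16.trans (Real.log_le_log (by norm_num) h1)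
  have hL2 : Real.log N' ≤ Real.log N := Real.log_le_log (by linarith) h3
  have l3 : Real.log 3 ≤ 3 := by
    have := Real.log_le_sub_one_of_pos (show (0 : ℝ) < 3 by norm_num)
    linarith
  have hL3 : Real.log N ≤ Real.log N' + 3 := by
    have h4 : Real.log N ≤ Real.log (3 * N') := Real.log_le_log (by linarith) h2'
    rw [Real.log_mul (by norm_num) (by linarith)] at h4
    linarith
  have hL4 : Real.log N ≤ Real.log N' ^ 2 := by nlinarith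
  have hL5 : Real.log N ≤ 3 * Real.log N' := by linarith
  refine ⟨?_, Real.log_le_log (by linarith) hL2, ?_, h2', ?_⟩
  · rw [Real.le_log_iff_exp_le (by linarith)]
    have := Real.exp_one_lt_d9
    linarith
  · have h5 := Real.log_le_log (by linarith) hL4
    rw [Real.log_pow] at h5
    exact_mod_cast h5
  · calc Real.log N ^ (1 / 10000 : ℝ) ≤ (3 * Real.log N') ^ (1 / 10000 : ℝ) :=
          Real.rpow_le_rpow (by linarith) hL5 (by norm_num)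
      _ = (3 : ℝ) ^ (1 / 10000 : ℝ) * Real.log N' ^ (1 / 10000 : ℝ) :=
          Real.mul_rpow (by norm_num) (by linarith)
      _ ≤ 2 * Real.log N' ^ (1 / 10000 : ℝ) := by
          refine mul_le_mul_of_nonneg_right ?_ (Real.rpow_nonneg (by linarith) _)
          calc (3 : ℝ) ^ (1 / 10000 : ℝ) ≤ (4 : ℝ) ^ (1 / 10000 : ℝ) :=
                Real.rpow_le_rpow (by norm_num) (by norm_num) (by norm_num)
            _ ≤ (4 : ℝ) ^ (1 / 2 : ℝ) := Real.rpow_le_rpow_of_exponent_le (by norm_num) (by norm_num)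
            _ = 2 := by
                rw [show (4 : ℝ) = 2 ^ (2 : ℝ) by norm_num, ← Real.rpow_mul (by norm_num)]
                norm_num

/-- the statement for one `N`, for the forms `f p`, `p ∈ S` -/
private def FinG_S {J : Type} (f : J → ℕ) (ℓ T1 : ℕ) (D c ε : ℝ) (N g : ℕ) (S : Finset J) : Prop :=
  ∃ t s : ℕ, 1 ≤ t ∧ t ≤ T1 ∧ 2 ≤ s ∧ Real.log s ≤ D * Real.log (Real.log N) * Real.log (Real.log (Real.log N)) ∧
    c * N ≤ ((open Classical in (Icc 1 N).filter fun n => ∃ b : ℕ, 1 ≤ b ∧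
      Real.log b ≤ (1 + Real.log g) * (Real.log (Real.log N) + Real.log g) ^ (2 + ε) ∧
      ∀ i ∈ S, ∀ j < ℓ, (f i * (n * b * ((g * s) ^ t) ^ j) - 1).Prime).card : ℝ)

/-- the conditions on the prescribed part `g` of the ratio -/
private def FinG_Q (N g : ℕ) : Prop :=
  1 ≤ g ∧ ((∏ p ∈ g.primeFactors, p : ℕ) : ℝ) ≤ Real.log (Real.log N) ∧ Real.log g ≤ Real.log N ^ (1 / 10000 : ℝ)

private theorem FinG_N : ∃ C1 : ℕ, 1 ≤ C1 ∧ ∀ m Tp s : ℕ, 1 ≤ m → 1 ≤ Tp → 2 ^ (C1 * (m * Tp)) ≤ s →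
    ∀ ℓ : ℕ, ∃ (T1 : ℕ) (D c : ℝ), 1 ≤ T1 ∧ 0 ≤ D ∧ 0 < c ∧ ∀ ε : ℝ, 0 < ε → ∃ N0 : ℕ, ∀ N ≥ N0, ∀ f : Fin m × Fin s → ℕ,
      Function.Injective f → (∀ j, 1 ≤ f j ∧ (f j : ℝ) ≤ Real.log (Real.log N)) → ∀ g : ℕ, FinG_Q N g →
      ∃ S : Finset (Fin m × Fin s), GoodS m Tp s S ∧ FinG_S f ℓ T1 D c ε N g S := by
  classical
  obtain ⟨C1, hC1, hmain⟩ := main_dyadicC
  refine ⟨C1, hC1, fun m Tp s hm hT hs ℓ => ?_⟩
  obtain ⟨T1, D, c, hT1, hD, hc, h1⟩ := hmain m Tp s hm hT hs ℓ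
  refine ⟨T1, D, c / 3, hT1, hD, by positivity, fun ε hε => ?_⟩
  obtain ⟨N1, h1⟩ := h1 ε hε
  refine ⟨2 * (max N1 16) + 1, fun N hN f hfi hF g hg => ?_⟩
  obtain ⟨N', hN'⟩ : ∃ N' : ℕ, N' = N / 2 := ⟨_, rfl⟩
  have hN'1 : max N1 16 ≤ N' := by omega
  have h16 : 16 ≤ N' := (le_max_right _ _).trans hN'1
  obtain ⟨g1, g2, g3, g4, g5⟩ := FinG_log N N' hN' h16
  obtain ⟨hq1, hq2, hqE⟩ := hg
  obtain ⟨q0, hq0⟩ : ∃ q0 : ℕ, q0 = ∏ p ∈ g.primeFactors, p := ⟨_, rfl⟩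
  rw [← hq0] at hq2
  have hq0p : q0.primeFactors = g.primeFactors := by
    rw [hq0]
    exact Nat.primeFactors_prod fun p hp => Nat.prime_of_mem_primeFactors hp
  have hq01 : 1 ≤ q0 := by
    have h0 : 0 < ∏ p ∈ g.primeFactors, p := Finset.prod_pos fun p hp => (Nat.prime_of_mem_primeFactors hp).pos
    rw [hq0]
    exact h0
  obtain ⟨S, hSG, t, a, ht1, htT, ha, hloga, hcount⟩ := h1 N' ((le_max_left _ _).trans hN'1) f hfi (fun j =>
    ⟨(hF j).1, (hF j).2.trans g3⟩) q0 g hq01 (hq2.trans g3) hq0p.ge hq1 (hqE.trans g5)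
  refine ⟨S, hSG, t, a, ht1, htT, ha, ?_, ?_⟩
  · refine hloga.trans ?_
    have h2 : 0 ≤ Real.log (Real.log (Real.log N')) := Real.log_nonneg g1
    exact mul_le_mul (mul_le_mul_of_nonneg_left g2 hD) (Real.log_le_log (by linarith) g2) h2
      (mul_nonneg hD (by linarith))
  · calc c / 3 * N ≤ c / 3 * (3 * N') := mul_le_mul_of_nonneg_left g4 (by positivity)
      _ = c * N' := by ring
      _ ≤ _ := hcount
      _ ≤ _ := by
        norm_cast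
        refine card_le_card fun n hn => ?_
        rw [mem_filter, mem_Ico] at hn
        rw [mem_filter, mem_Icc]
        obtain ⟨⟨hn1, hn2⟩, b, hb1, hb2, hb3⟩ := hn
        refine ⟨⟨by omega, by omega⟩, b, hb1, hb2.trans ?_, fun h hh j hj => hb3 h hh j (by omega)⟩
        have hx0 : 0 ≤ Real.log (g : ℝ) := Real.log_natCast_nonneg g
        exact mul_le_mul_of_nonneg_left (Real.rpow_le_rpow (by linarith) (by linarith) (by linarith)) (by linarith)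

private theorem FinG_mono {J : Type} (f : J → ℕ) (k k' T1 : ℕ) (D c ε ε' : ℝ) (N g : ℕ) (S : Finset J) (hk : k' ≤ k)
    (hε : ε ≤ ε') (hN : 1 ≤ Real.log (Real.log N)) (h : FinG_S f k T1 D c ε N g S) : FinG_S f k' T1 D c ε' N g S := by
  classical
  obtain ⟨t, a, ht1, htT, ha, hloga, hcount⟩ := h
  refine ⟨t, a, ht1, htT, ha, hloga, hcount.trans ?_⟩
  have hx0 : 0 ≤ Real.log (g : ℝ) := Real.log_natCast_nonneg g
  norm_cast
  refine card_le_card fun n hn => ?_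
  rw [mem_filter] at hn
  rw [mem_filter]
  obtain ⟨hn1, b, hb1, hb2, hb3⟩ := hn
  exact ⟨hn1, b, hb1, hb2.trans (mul_le_mul_of_nonneg_left
    (Real.rpow_le_rpow_of_exponent_le (by linarith) (by linarith)) (by linarith)),
    fun h hh j hj => hb3 h hh j (by omega)⟩

/-- pigeonhole: an element of a finite type which occurs infinitely often -/
private theorem FinG_pig {α : Type} [Fintype α] (S : ℕ → α) : ∃ H, ∀ m, ∃ m' ≥ m, S m' = H := by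
  classical
  by_contra hcon
  push Not at hcon
  choose g hg using hcon
  exact hg (S (univ.sup g)) (univ.sup g) (Finset.le_sup (f := g) (mem_univ _)) rfl

/-- from the forms `f p` to the numbers `h A j` -/
private theorem FinG_tr {J : Type} (f : J → ℕ) (S : Finset J) (k : ℕ) (A : Fin k → ℕ) (H : Fin k → Finset ℕ)
    (B c0 : ℕ) (hc0 : 1 ≤ c0) (hB : c0 ≤ B) (hH : ∀ j, ∀ h ∈ H j, ∃ p ∈ S, f p = h * A j * c0)
    (ℓ T1 : ℕ) (D c ε : ℝ) (N g : ℕ)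
    (hN : ∀ x : ℝ, 0 ≤ x → (1 + x) * (Real.log (Real.log N) + x) ^ (2 + ε / 2) + Real.log B ≤
      (1 + x) * (Real.log (Real.log N) + x) ^ (2 + ε))
    (h : FinG_S f ℓ T1 D c (ε / 2) N g S) :
    ∃ t s : ℕ, 1 ≤ t ∧ t ≤ T1 ∧ 2 ≤ s ∧ Real.log s ≤ D * Real.log (Real.log N) * Real.log (Real.log (Real.log N)) ∧
      c * N ≤ ((open Classical in (Icc 1 N).filter fun n => ∃ b : ℕ, 1 ≤ b ∧
        Real.log b ≤ (1 + Real.log g) * (Real.log (Real.log N) + Real.log g) ^ (2 + ε) ∧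
        ∀ j, ∀ h ∈ H j, ∀ i < ℓ, (h * A j * (n * b * ((g * s) ^ t) ^ i) - 1).Prime).card : ℝ) := by
  classical
  obtain ⟨t, a, ht1, htT, ha, hloga, hcount⟩ := h
  refine ⟨t, a, ht1, htT, ha, hloga, hcount.trans ?_⟩
  norm_cast
  refine card_le_card fun n hn => ?_
  rw [mem_filter] at hn
  rw [mem_filter]
  obtain ⟨hn1, b, hb1, hb2, hb3⟩ := hn
  refine ⟨hn1, c0 * b, Nat.mul_pos hc0 hb1, ?_, ?_⟩
  · have h1 : (0 : ℝ) < c0 := by exact_mod_cast hc0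
    have h2 : (0 : ℝ) < b := by exact_mod_cast hb1
    have h3 : Real.log c0 ≤ Real.log B := Real.log_le_log h1 (by exact_mod_cast hB)
    rw [Nat.cast_mul, Real.log_mul h1.ne' h2.ne']
    have h4 := hN (Real.log g) (Real.log_natCast_nonneg g)
    linarith
  · intro j h hh i hi
    obtain ⟨p, hp, hfp⟩ := hH j h hh
    have h1 := hb3 p hp i hi
    rw [hfp] at h1
    have e : h * A j * (n * (c0 * b) * ((g * a) ^ t) ^ i) =
        h * A j * c0 * (n * b * ((g * a) ^ t) ^ i) := by ring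
    rw [e]
    exact h1

private theorem FinG_ev (ε : ℝ) (hε : 0 < ε) : ∃ N0 : ℕ, ∀ N ≥ N0, 1 ≤ Real.log (Real.log (N : ℝ)) ∧
    ∀ B : ℕ, 1 ≤ B → (B : ℝ) ≤ Real.log (Real.log N) →
    ∀ x : ℝ, 0 ≤ x → (1 + x) * (Real.log (Real.log N) + x) ^ (2 + ε / 2) + Real.log B ≤
      (1 + x) * (Real.log (Real.log N) + x) ^ (2 + ε) := by
  have hlog : Filter.Tendsto (fun N : ℕ => Real.log (Real.log (N : ℝ))) Filter.atTop Filter.atTop :=
    Real.tendsto_log_atTop.comp (Real.tendsto_log_atTop.comp tendsto_natCast_atTop_atTop)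
  have h1 : ∀ᶠ y : ℝ in Filter.atTop, ∀ x ≥ y, x ^ (2 + ε / 2) + x ≤ x ^ (2 + ε) := by
    have h2 : Filter.Tendsto (fun x : ℝ => x ^ (ε / 2)) Filter.atTop Filter.atTop := tendsto_rpow_atTop (by positivity)
    filter_upwards [Filter.eventually_forall_ge_atTop.2 (h2.eventually_ge_atTop 2),
      Filter.eventually_ge_atTop (1 : ℝ)] with y hy1 hy2 x hxy
    have hx1 : 2 ≤ x ^ (ε / 2) := hy1 x hxy
    have hx2 : 1 ≤ x := hy2.trans hxy
    have h3 : x ≤ x ^ (2 + ε / 2) := by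
      calc x = x ^ (1 : ℝ) := (Real.rpow_one x).symm
        _ ≤ x ^ (2 + ε / 2) := Real.rpow_le_rpow_of_exponent_le hx2 (by linarith)
    have h4 : x ^ (2 + ε) = x ^ (2 + ε / 2) * x ^ (ε / 2) := by
      rw [← Real.rpow_add (by linarith)]
      congr 1
      ring
    rw [h4]
    nlinarith
  obtain ⟨N0, hN0⟩ := Filter.eventually_atTop.1
    ((hlog.eventually_ge_atTop 1).and (hlog.eventually h1))
  refine ⟨N0, fun N hN => ⟨(hN0 N hN).1, fun B hB1 hB x hx => ?_⟩⟩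
  have hL := (hN0 N hN).1
  have h2 := (hN0 N hN).2 (Real.log (Real.log N) + x) (by linarith)
  have h5 : Real.log (B : ℝ) ≤ Real.log (Real.log N) := by
    have h6 : (1 : ℝ) ≤ B := by exact_mod_cast hB1
    have h7 := Real.log_le_sub_one_of_pos (show (0 : ℝ) < B by linarith)
    linarith
  have h6 := mul_le_mul_of_nonneg_left h2 (show 0 ≤ 1 + x by linarith)
  have h7 : 0 ≤ x * (Real.log (Real.log N) + x) := mul_nonneg hx (by linarith)
  nlinarith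

theorem final_G (k : ℕ) : ∃ C n0 : ℕ, ∀ T : ℕ, 1 ≤ T →
    (∀ ℓ : ℕ, ∃ (t0 : ℕ) (D c : ℝ), 0 < c ∧ ∀ ε : ℝ, 0 < ε → ∃ N0 : ℕ, ∀ N ≥ N0,
      ∀ (m : Fin (k + 1) → Fin n0 → ℕ) (F : Finset ℕ) (g : ℕ), (∀ j x, 1 ≤ m j x) →
      (∀ h ∈ F, 1 ≤ h ∧ ((h * ∏ j, ∏ x, m j x : ℕ) : ℝ) ≤ Real.log (Real.log N)) →
      C ^ T ≤ F.card → 1 ≤ g → ((∏ p ∈ g.primeFactors, p : ℕ) : ℝ) ≤ Real.log (Real.log N) →
      Real.log g ≤ Real.log N ^ (1 / 10000 : ℝ) →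
      ∃ X : Finset (Fin n0), X.Nonempty ∧ ∃ H : Fin (k + 1) → Finset ℕ, (∀ j, H j ⊆ F ∧ (H j).card = T) ∧
        (∀ j j', ∀ h ∈ H j, ∀ h' ∈ H j', h * ∏ x ∈ X, m j x = h' * ∏ x ∈ X, m j' x → j = j' ∧ h = h') ∧
        ∃ t s : ℕ, 1 ≤ t ∧ t ≤ t0 ∧ 2 ≤ s ∧
        Real.log s ≤ D * Real.log (Real.log N) * Real.log (Real.log (Real.log N)) ∧
        c * N ≤ ((open Classical in (Icc 1 N).filter fun n => ∃ b : ℕ, 1 ≤ b ∧
          Real.log b ≤ (1 + Real.log g) * (Real.log (Real.log N) + Real.log g) ^ (2 + ε) ∧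
          ∀ j, ∀ h ∈ H j, ∀ i < ℓ,
            (h * (∏ x ∈ X, m j x) * (n * b * ((g * s) ^ t) ^ i) - 1).Prime).card : ℝ)) ∧
    ∀ (m : Fin (k + 1) → Fin n0 → ℕ) (F : Finset ℕ) (g : ℕ → ℕ), (∀ j x, 1 ≤ m j x) → (∀ h ∈ F, 1 ≤ h) →
      C ^ T ≤ F.card → (∃ N1 : ℕ, ∀ N ≥ N1, 1 ≤ g N ∧
        ((∏ p ∈ (g N).primeFactors, p : ℕ) : ℝ) ≤ Real.log (Real.log N) ∧
        Real.log (g N) ≤ Real.log N ^ (1 / 10000 : ℝ)) →
    ∃ X : Finset (Fin n0), X.Nonempty ∧ ∃ H : Fin (k + 1) → Finset ℕ, (∀ j, H j ⊆ F ∧ (H j).card = T) ∧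
      (∀ j j', ∀ h ∈ H j, ∀ h' ∈ H j', h * ∏ x ∈ X, m j x = h' * ∏ x ∈ X, m j' x → j = j' ∧ h = h') ∧
      ∀ ℓ : ℕ, ∃ (t0 : ℕ) (D c : ℝ), 0 < c ∧ ∀ ε : ℝ, 0 < ε → ∀ N0 : ℕ, ∃ N ≥ N0, ∃ t s : ℕ, 1 ≤ t ∧ t ≤ t0 ∧ 2 ≤ s ∧
        Real.log s ≤ D * Real.log (Real.log N) * Real.log (Real.log (Real.log N)) ∧
        c * N ≤ ((open Classical in (Icc 1 N).filter fun n => ∃ b : ℕ, 1 ≤ b ∧
          Real.log b ≤ (1 + Real.log (g N)) * (Real.log (Real.log N) + Real.log (g N)) ^ (2 + ε) ∧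
          ∀ j, ∀ h ∈ H j, ∀ i < ℓ,
            (h * (∏ x ∈ X, m j x) * (n * b * ((g N * s) ^ t) ^ i) - 1).Prime).card : ℝ) := by
  classical
  obtain ⟨C1, hC1, hmain⟩ := FinG_N
  obtain ⟨K, n0, hK, hcomb⟩ := comb_G k
  refine ⟨K ^ 3 * 2 ^ (C1 * K), n0, fun T hT => ?_⟩
  obtain ⟨s, hs⟩ : ∃ s : ℕ, s = 2 ^ (C1 * (K * T)) := ⟨_, rfl⟩
  have hsF : ∀ F : Finset ℕ, (K ^ 3 * 2 ^ (C1 * K)) ^ T ≤ F.card → K ^ 2 * (K * s) ≤ F.card := fun F hcard => by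
    refine le_trans ?_ hcard
    rw [mul_pow, ← pow_mul 2, hs]
    calc K ^ 2 * (K * 2 ^ (C1 * (K * T))) = K ^ 3 * 2 ^ (C1 * (K * T)) := by ring
      _ ≤ (K ^ 3) ^ T * 2 ^ (C1 * (K * T)) :=
          Nat.mul_le_mul_right _ (Nat.le_self_pow (by omega) _)
      _ = (K ^ 3) ^ T * 2 ^ (C1 * K * T) := by rw [mul_assoc]
  have hmp : ∀ m : Fin (k + 1) → Fin n0 → ℕ, (∀ j x, 1 ≤ m j x) → 1 ≤ ∏ j, ∏ x, m j x := fun m hm =>
    Finset.one_le_prod' fun j _ => Finset.one_le_prod' fun x _ => hm j x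
  refine ⟨fun ℓ => ?_, fun m F g hm hF hcard hg => ?_⟩
  · obtain ⟨T1, D, c, hT1, hD, hc, h1⟩ := hmain K T s hK hT hs.ge ℓ
    refine ⟨T1, D, c, hc, fun ε hε => ?_⟩
    obtain ⟨N1, h1⟩ := h1 (ε / 2) (by positivity)
    obtain ⟨N2, h2⟩ := FinG_ev ε hε
    refine ⟨max N1 N2, fun N hN m F g hm hF hcard hg1 hg2 hg3 => ?_⟩
    obtain ⟨-, g3⟩ := h2 N (le_trans (le_max_right _ _) hN)
    obtain ⟨f, hfi, hf1, hS⟩ := hcomb m hm T s F (fun b hb => (hF b hb).1) (hsF F hcard)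
    obtain ⟨S, hSG, hSt⟩ := h1 N (le_trans (le_max_left _ _) hN) f hfi (fun p => by
      obtain ⟨hp1, h, hh, hp2⟩ := hf1 p
      exact ⟨hp1, le_trans (by exact_mod_cast hp2) (hF h hh).2⟩) g ⟨hg1, hg2, hg3⟩
    obtain ⟨X, hX, H, hH, hdis, c0, hc0, hc0B, hHf⟩ := hS S hSG
    obtain ⟨h0, hh0⟩ : F.Nonempty := by
      rw [← card_pos]
      have h3 : 1 * (1 * 1) ≤ K ^ 2 * (K * s) := Nat.mul_le_mul (Nat.one_le_pow _ _ hK)
        (Nat.mul_le_mul hK (by rw [hs]; exact Nat.one_le_two_pow))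
      have := hsF F hcard
      omega
    have hB2 : ((∏ j, ∏ x, m j x : ℕ) : ℝ) ≤ Real.log (Real.log N) := by
      refine le_trans ?_ (hF h0 hh0).2
      exact_mod_cast Nat.le_mul_of_pos_left _ (hF h0 hh0).1
    exact ⟨X, hX, H, hH, hdis, FinG_tr f S (k + 1) (fun j => ∏ x ∈ X, m j x) H _ c0 hc0 hc0B hHf ℓ T1 D c ε N g
      (g3 _ (hmp m hm) hB2) hSt⟩
  · -- one set `S`
    obtain ⟨f, hfi, hf1, hS⟩ := hcomb m hm T s F hF (hsF F hcard)
    obtain ⟨B, hB⟩ : ∃ B : ℕ, B = ∏ j, ∏ x, m j x := ⟨_, rfl⟩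
    have hB1 : 1 ≤ B := by
      rw [hB]
      exact hmp m hm
    obtain ⟨Bf, hBf⟩ : ∃ Bf : ℕ, ∀ p, f p ≤ Bf := ⟨univ.sup f, fun p => Finset.le_sup (f := f) (mem_univ p)⟩
    obtain ⟨N2, hg⟩ := hg
    obtain ⟨N1, hN1⟩ : ∃ N1 : ℕ, ∀ N ≥ N1, N2 ≤ N ∧ 1 ≤ Real.log (Real.log (N : ℝ)) ∧
        ((max B Bf : ℕ) : ℝ) ≤ Real.log (Real.log (N : ℝ)) := by
      have hlog : Filter.Tendsto (fun N : ℕ => Real.log (Real.log (N : ℝ))) Filter.atTop Filter.atTop :=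
        Real.tendsto_log_atTop.comp (Real.tendsto_log_atTop.comp tendsto_natCast_atTop_atTop)
      obtain ⟨N1, hN1⟩ := Filter.eventually_atTop.1 ((Filter.eventually_ge_atTop N2).and
        ((hlog.eventually_ge_atTop 1).and (hlog.eventually_ge_atTop ((max B Bf : ℕ) : ℝ))))
      exact ⟨N1, fun N hN => ⟨(hN1 N hN).1, (hN1 N hN).2.1, (hN1 N hN).2.2⟩⟩
    have hk : ∀ ℓ : ℕ, ∃ S : Finset (Fin K × Fin s), GoodS K T s S ∧ ∃ (T1 : ℕ) (D c : ℝ), 0 ≤ D ∧ 0 < c ∧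
        ∀ ε : ℝ, 0 < ε → ∀ N0 : ℕ, ∃ N ≥ N0, N1 ≤ N ∧ FinG_S f ℓ T1 D c ε N (g N) S := by
      intro ℓ
      obtain ⟨T1, D, c, hT1, hD, hc, h1⟩ := hmain K T s hK hT hs.ge ℓ
      have h2 : ∀ i : ℕ, ∃ S : Finset (Fin K × Fin s), GoodS K T s S ∧ ∃ N ≥ i, N1 ≤ N ∧
          FinG_S f ℓ T1 D c (1 / (i + 1)) N (g N) S := by
        intro i
        obtain ⟨N0, h3⟩ := h1 (1 / (i + 1)) (by positivity)
        have hNN : N1 ≤ max N0 (max i N1) := (le_max_right _ _).trans (le_max_right _ _)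
        obtain ⟨hNc, -, hNb⟩ := hN1 _ hNN
        obtain ⟨S, hSG, h4⟩ := h3 (max N0 (max i N1)) (le_max_left _ _) f hfi (fun p =>
          ⟨(hf1 p).1, le_trans (by exact_mod_cast (hBf p).trans (le_max_right _ _)) hNb⟩) _ (hg _ hNc)
        exact ⟨S, hSG, max N0 (max i N1), (le_max_left _ _).trans (le_max_right _ _), hNN, h4⟩
      choose S hSG hSt using h2
      obtain ⟨S0, hS0⟩ := FinG_pig S
      refine ⟨S0, ?_, T1, D, c, hD, hc, fun ε hε N0 => ?_⟩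
      · obtain ⟨i, -, hi⟩ := hS0 0
        rw [← hi]
        exact hSG i
      · obtain ⟨i0, hi0⟩ := exists_nat_one_div_lt hε
        obtain ⟨i, hi, hiS⟩ := hS0 (max i0 N0)
        obtain ⟨N, hN, hNN1, hSt⟩ := hSt i
        rw [hiS] at hSt
        refine ⟨N, ((le_max_right _ _).trans hi).trans hN, hNN1,
          FinG_mono f ℓ ℓ T1 D c _ _ N (g N) S0 le_rfl ?_ (hN1 N hNN1).2.1 hSt⟩
        refine le_trans ?_ hi0.le
        have h5 : (i0 : ℝ) ≤ i := by exact_mod_cast (le_max_left _ _).trans hi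
        exact one_div_le_one_div_of_le (by positivity) (by linarith)
    choose S hSG T1 D c hD hc hSt using hk
    obtain ⟨S0, hS0⟩ := FinG_pig S
    have hG0 : GoodS K T s S0 := by
      obtain ⟨i, -, hi⟩ := hS0 0
      rw [← hi]
      exact hSG i
    obtain ⟨X, hX, H, hH, hdis, c0, hc0, hc0B, hHf⟩ := hS S0 hG0
    rw [← hB] at hc0B
    refine ⟨X, hX, H, hH, hdis, fun ℓ => ?_⟩
    obtain ⟨ℓ', hℓ', hℓS⟩ := hS0 ℓ
    refine ⟨T1 ℓ', D ℓ', c ℓ', hc ℓ', fun ε hε N0 => ?_⟩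
    obtain ⟨N3, h2⟩ := FinG_ev ε hε
    obtain ⟨N, hN, hNN1, hSt⟩ := hSt ℓ' (ε / 2) (by positivity) (max N0 N3)
    rw [hℓS] at hSt
    obtain ⟨-, hN4, hN5⟩ := hN1 N hNN1
    have hSt' := FinG_mono f ℓ' ℓ (T1 ℓ') (D ℓ') (c ℓ') (ε / 2) (ε / 2) N (g N) S0 hℓ' le_rfl hN4 hSt
    exact ⟨N, (le_max_left _ _).trans hN, FinG_tr f S0 (k + 1) (fun j => ∏ x ∈ X, m j x) H B c0 hc0 hc0B hHf ℓ (T1 ℓ') (D ℓ') (c ℓ') ε N (g N)
      ((h2 N ((le_max_right _ _).trans hN)).2 B hB1 (le_trans (by exact_mod_cast le_max_left _ _) hN5)) hSt'⟩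

end Pool.CP
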