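import Pool.Agent.Lib.MP_c77da8_nt.CP.FinG

/-!
# CP-FinH: the case of powers of a fixed number

From part (2) of `final_G` with `m j x = q^(R j)`, `F = {q^i : i < C^T}`, `g = 1`.
-/

set_option autoImplicit false

namespace Pool.CP

open Finset

private theorem FinH_inf (Sp : ℕ → ℕ → Prop) (c : ℝ) (hc : 0 < c)
    (hS : ∀ N0 : ℕ, ∃ N ≥ N0, ∃ A : Finset ℕ, A ⊆ Icc 1 N ∧ c * N ≤ (A.card : ℝ) ∧ ∃ a : ℕ, 2 ≤ a ∧ ∀ n ∈ A, ∃ b : ℕ,
      1 ≤ b ∧ Sp (n * b) a) :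
    {n : ℕ | ∃ a : ℕ, 2 ≤ a ∧ Sp n a}.Infinite := by
  refine Set.infinite_of_forall_exists_gt fun M => ?_
  obtain ⟨N, hN, A, hA, hcA, a, ha, h1⟩ := hS ⌈((M : ℝ) + 1) / c⌉₊
  have h2 : (M : ℝ) + 1 ≤ A.card := by
    refine le_trans ?_ hcA
    have h3 : ((M : ℝ) + 1) / c ≤ N := (Nat.le_ceil _).trans (by exact_mod_cast hN)
    rw [div_le_iff₀ hc] at h3
    linarith
  have h3 : M + 1 ≤ A.card := by exact_mod_cast h2
  obtain ⟨n, hn, hnM⟩ : ∃ n ∈ A, M < n := by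
    by_contra hcon
    push Not at hcon
    have h4 : A ⊆ Icc 1 M := fun n hn => mem_Icc.2 ⟨(mem_Icc.1 (hA hn)).1, hcon n hn⟩
    have h5 := card_le_card h4
    rw [Nat.card_Icc] at h5
    omega
  obtain ⟨b, hb, h4⟩ := h1 n hn
  exact ⟨n * b, ⟨a, ha, h4⟩, lt_of_lt_of_le hnM (Nat.le_mul_of_pos_right _ hb)⟩

theorem final_H (k : ℕ) : ∃ C n0 : ℕ, ∀ T : ℕ, 1 ≤ T →
    (∀ q R : ℕ, 2 ≤ q → 1 ≤ R → ∃ d : ℕ, R ≤ d ∧ d ≤ n0 * R ∧ ∃ E : Fin (k + 1) → Finset ℕ,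
      (∀ j, (E j).card = T ∧ ∀ e ∈ E j, d * j ≤ e ∧ e < d * j + C ^ T) ∧ (∀ j j', j ≠ j' → Disjoint (E j) (E j')) ∧
      ∀ ℓ : ℕ, {n : ℕ | ∃ a : ℕ, 2 ≤ a ∧ ∀ j, ∀ e ∈ E j, ∀ i < ℓ, (q ^ e * a ^ i * n - 1).Prime}.Infinite) ∧
    (∀ ℓ : ℕ, ∃ (t0 : ℕ) (D c : ℝ), 0 < c ∧ ∀ ε : ℝ, 0 < ε → ∃ N0 : ℕ, ∀ N ≥ N0,
      ∀ (m : Fin (k + 1) → Fin n0 → ℕ) (F : Finset ℕ) (g : ℕ), (∀ j x, 1 ≤ m j x) →
      (∀ h ∈ F, 1 ≤ h ∧ ((h * ∏ j, ∏ x, m j x : ℕ) : ℝ) ≤ Real.log (Real.log N)) →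
      C ^ T ≤ F.card → 1 ≤ g → ((∏ p ∈ g.primeFactors, p : ℕ) : ℝ) ≤ Real.log (Real.log N) →
      Real.log g ≤ Real.log N ^ (1 / 10000 : ℝ) →
      ∃ X : Finset (Fin n0), X.Nonempty ∧ ∃ H : Fin (k + 1) → Finset ℕ, (∀ j, H j ⊆ F ∧ (H j).card = T) ∧
        (∀ j j', ∀ h ∈ H j, ∀ h' ∈ H j', h * ∏ x ∈ X, m j x = h' * ∏ x ∈ X, m j' x → j = j' ∧ h = h') ∧
        ∃ t s : ℕ, 1 ≤ t ∧ t ≤ t0 ∧ 2 ≤ s ∧
        Real.log s ≤ D * Real.log (Real.log N) * Real.log (Real.log (Real.log N)) ∧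
        c * N ≤ ((open Classical in (Icc 1 N).filter fun n => ∃ b : ℕ, 1 ≤ b ∧
          Real.log b ≤ (1 + Real.log g) * (Real.log (Real.log N) + Real.log g) ^ (2 + ε) ∧
          ∀ j, ∀ h ∈ H j, ∀ i < ℓ,
            (h * (∏ x ∈ X, m j x) * (n * b * ((g * s) ^ t) ^ i) - 1).Prime).card : ℝ)) ∧
    ∀ (m : Fin (k + 1) → Fin n0 → ℕ) (F : Finset ℕ) (g : ℕ → ℕ), (∀ j x, 1 ≤ m j x) → (∀ h ∈ F, 1 ≤ h) →
      C ^ T ≤ F.card → (∃ N1 : ℕ, ∀ N ≥ N1, 1 ≤ g N ∧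
        ((∏ p ∈ (g N).primeFactors, p : ℕ) : ℝ) ≤ Real.log (Real.log N) ∧
        Real.log (g N) ≤ Real.log N ^ (1 / 10000 : ℝ)) →
    ∃ X : Finset (Fin n0), X.Nonempty ∧ ∃ H : Fin (k + 1) → Finset ℕ, (∀ j, H j ⊆ F ∧ (H j).card = T) ∧
      (∀ j j', ∀ h ∈ H j, ∀ h' ∈ H j', h * ∏ x ∈ X, m j x = h' * ∏ x ∈ X, m j' x → j = j' ∧ h = h') ∧
      ∀ ℓ : ℕ, ∃ (t0 : ℕ) (D c : ℝ), 0 < c ∧ ∀ ε : ℝ, 0 < ε → ∀ N0 : ℕ, ∃ N ≥ N0, ∃ t s : ℕ, 1 ≤ t ∧ t ≤ t0 ∧ 2 ≤ s ∧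
        Real.log s ≤ D * Real.log (Real.log N) * Real.log (Real.log (Real.log N)) ∧
        c * N ≤ ((open Classical in (Icc 1 N).filter fun n => ∃ b : ℕ, 1 ≤ b ∧
          Real.log b ≤ (1 + Real.log (g N)) * (Real.log (Real.log N) + Real.log (g N)) ^ (2 + ε) ∧
          ∀ j, ∀ h ∈ H j, ∀ i < ℓ,
            (h * (∏ x ∈ X, m j x) * (n * b * ((g N * s) ^ t) ^ i) - 1).Prime).card : ℝ) := by
  classical
  obtain ⟨C, n0, hmain⟩ := final_G k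
  refine ⟨C, n0, fun T hT => ⟨fun q R hq hR => ?_, (hmain T hT).1, (hmain T hT).2⟩⟩
  have hinj : Function.Injective fun i : ℕ => q ^ i := Nat.pow_right_injective hq
  obtain ⟨F, hF⟩ : ∃ F : Finset ℕ, F = (range (C ^ T)).image fun i => q ^ i := ⟨_, rfl⟩
  have hFc : C ^ T ≤ F.card := by
    rw [hF, card_image_of_injective _ hinj, card_range]
  obtain ⟨X, hX, H, hH, hdis, hall⟩ := (hmain T hT).2 (fun j _ => q ^ (R * j)) F (fun _ => 1)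
    (fun j x => Nat.one_le_pow _ _ (by omega)) (by
      intro h hh
      rw [hF, mem_image] at hh
      obtain ⟨i, -, rfl⟩ := hh
      exact Nat.one_le_pow _ _ (by omega)) hFc (by
      have hlog : Filter.Tendsto (fun N : ℕ => Real.log (Real.log (N : ℝ))) Filter.atTop Filter.atTop :=
        Real.tendsto_log_atTop.comp (Real.tendsto_log_atTop.comp tendsto_natCast_atTop_atTop)
      obtain ⟨N1, hN1⟩ := Filter.eventually_atTop.1 ((hlog.eventually_ge_atTop 1))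
      refine ⟨N1, fun N hN => ⟨le_rfl, ?_, ?_⟩⟩
      · simpa using hN1 N hN
      · rw [Nat.cast_one, Real.log_one]
        exact Real.rpow_nonneg (Real.log_natCast_nonneg N) _)
  have hprod : ∀ j : Fin (k + 1), (∏ x ∈ X, q ^ (R * (j : ℕ))) = q ^ (R * X.card * j) := by
    intro j
    rw [prod_const, ← pow_mul]
    congr 1
    ring
  obtain ⟨I, hI⟩ : ∃ I : Fin (k + 1) → Finset ℕ, ∀ j, I j = (range (C ^ T)).filter fun i => q ^ i ∈ H j :=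
    ⟨_, fun _ => rfl⟩
  have hHI : ∀ j, H j = (I j).image fun i => q ^ i := by
    intro j
    ext h
    rw [mem_image]
    constructor
    · intro hh
      have h1 := (hH j).1 hh
      rw [hF, mem_image] at h1
      obtain ⟨i, hi, rfl⟩ := h1
      exact ⟨i, by rw [hI, mem_filter]; exact ⟨hi, hh⟩, rfl⟩
    · rintro ⟨i, hi, rfl⟩
      rw [hI, mem_filter] at hi
      exact hi.2
  have hIc : ∀ j, (I j).card = T := by
    intro j
    rw [← (hH j).2, hHI j, card_image_of_injective _ hinj]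
  have hX1 : 1 ≤ X.card := hX.card_pos
  have hXn : X.card ≤ n0 := by
    refine (card_le_univ X).trans ?_
    rw [Fintype.card_fin]
  refine ⟨R * X.card, Nat.le_mul_of_pos_right _ hX1, by rw [mul_comm]; exact Nat.mul_le_mul_right _ hXn,
    fun j => (I j).image fun i => R * X.card * j + i, ?_, ?_, ?_⟩
  · intro j
    refine ⟨?_, ?_⟩
    · rw [card_image_of_injective _ (fun i i' h => by simpa using h), hIc]
    · intro e he
      rw [mem_image] at he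
      obtain ⟨i, hi, rfl⟩ := he
      rw [hI, mem_filter, mem_range] at hi
      omega
  · intro j j' hjj
    rw [Finset.disjoint_left]
    intro e he he'
    rw [mem_image] at he he'
    obtain ⟨i, hi, hie⟩ := he
    obtain ⟨i', hi', hie'⟩ := he'
    refine hjj (hdis j j' (q ^ i) ?_ (q ^ i') ?_ ?_).1
    · rw [hI, mem_filter] at hi
      exact hi.2
    · rw [hI, mem_filter] at hi'
      exact hi'.2
    · show q ^ i * (∏ x ∈ X, q ^ (R * (j : ℕ))) = q ^ i' * (∏ x ∈ X, q ^ (R * (j' : ℕ)))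
      rw [hprod j, hprod j', ← pow_add, ← pow_add]
      congr 1
      omega
  · intro ℓ
    obtain ⟨t0, D, c, hc, h1⟩ := hall ℓ
    refine FinH_inf (fun n a => ∀ j, ∀ e ∈ (I j).image (fun i => R * X.card * j + i), ∀ i < ℓ,
      (q ^ e * a ^ i * n - 1).Prime) c hc fun N0 => ?_
    obtain ⟨N, hN, t, s, ht1, -, hs, -, h2⟩ := h1 1 one_pos N0
    refine ⟨N, hN, _, filter_subset _ _, h2, s ^ t, ?_, ?_⟩
    · calc 2 ≤ s := hs
        _ = s ^ 1 := (pow_one s).symm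
        _ ≤ s ^ t := Nat.pow_le_pow_right (by omega) ht1
    · intro n hn
      rw [mem_filter] at hn
      obtain ⟨-, b, hb, -, h3⟩ := hn
      refine ⟨b, hb, fun j e he i hi => ?_⟩
      rw [mem_image] at he
      obtain ⟨i', hi', rfl⟩ := he
      have h4 : q ^ i' ∈ H j := by
        rw [hI, mem_filter] at hi'
        exact hi'.2
      have h5 := h3 j (q ^ i') h4 i hi
      have e1 : q ^ i' * (∏ x ∈ X, q ^ (R * (j : ℕ))) * (n * b * ((1 * s) ^ t) ^ i) =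
          q ^ (R * X.card * j + i') * (s ^ t) ^ i * (n * b) := by
        rw [hprod j, one_mul, pow_add]
        ring
      rw [← e1]
      exact h5

end Pool.CP
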