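import Pool.Agent.Lib.MP_c77da8_nt.CP.Ana

/-!
# CP-Gi: the lower bound for one `i`

PROOF.  `ana` and `inj`.
-/

set_option autoImplicit false

namespace Pool.CP

open Finset Pool.Agent.Lib.MP_c77da8_nt.Sv

theorem gg_low (K u g L : ℕ) (hK : 1 ≤ K) (hu : 2 ≤ u) (hKu : 2 * K ≤ 2 ^ u) (hg : 1 ≤ g)
    (hL : 32 * g + 1 ≤ L) (hL2 : 150 * K + 10 ≤ L) : ∃ t0 : ℕ, ∀ t : ℕ, t0 ≤ t → ∀ i < K,
    c5 * ((g : ℝ) / L) * (2 ^ (2 * L * (u * 2 ^ t)) * VV K u t) ≤ ((GG K u t g L i).card : ℝ) := by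
  obtain ⟨t0, h0⟩ := ana K u g L hK hu hKu hg hL hL2
  refine ⟨t0, fun t ht i hi => ?_⟩
  have h1 := h0 t ht i hi
  have h2 := inj K u t g L i hu hi hg hL
  have h3 : (∑ s ∈ cof (u * 2 ^ t) (g * (u * 2 ^ t)),
      ((Pset K u t i s ((2 ^ i * M0 u * 2 ^ (2 * L * (u * 2 ^ t)) - 2) / s)).card : ℝ)) ≤
      ((GG K u t g L i).card : ℝ) + 2 ^ ((2 * L - 1) * (u * 2 ^ t)) := by exact_mod_cast h2
  linarith

end Pool.CP
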