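import Pool.Agent.Lib.MP_c77da8_nt.CP.SysF
import Pool.Agent.Lib.MP_c77da8_nt.CM.AntiM

/-!
# CP-SecF: the second moment of the average of the weight

PROOF (compare `CL/SecL.lean`): `av ν = av_y av_x ν(y + κ x)`, `x : Cd P → Fin H`, so `(av ν)² ≤ av_y av_x av_x' ν(y + κ x) ν(y + κ x')`: `lf_sysM` with `Λ = Fin H × Fin H`
(or `Bool → Fin H`), two forms, `o = 0`, `η = 1`; the difference of the two forms is injective in one variable, `anti_inj` (`1/H ≤ ρ`).
-/

set_option autoImplicit false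

namespace Pool.CP

open Finset Pool.CG Pool.CL Pool.CM

private theorem SecM_pair {X P : Type} [Fintype X] [Fintype P] (F : X → P → ℝ) :
    av (fun y : X => (av (fun x : P => F y x)) ^ 2) =
      av (fun ω : X × (Bool → P) => ∏ i, F ω.1 (ω.2 i)) := by
  rw [av_prod]
  refine av_congr fun y => ?_
  have e : av (fun z : Bool → P => ∏ i, F y (z i)) = av (fun z : P × P => F y z.1 * F y z.2) := by
    rw [← av_equiv (Equiv.boolArrowEquivProd P)]
    refine av_congr fun z => ?_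
    rw [Fintype.prod_bool, mul_comm]
    rfl
  show _ = av (fun z : Bool → P => ∏ i, F y (z i))
  rw [e, av_prod, sq]
  have h1 : ∀ x : P, av (fun y' : P => F y x * F y y') = F y x * av (fun x : P => F y x) :=
    fun x => av_const_mul (F y x) _
  show _ = av (fun x : P => av (fun y' : P => F y x * F y y'))
  rw [av_congr h1, av_mul_const]

private theorem SecM_one {X P : Type} [AddCommGroup X] [Fintype X] [Fintype P] [Nonempty P] (g : P → X)
    (f : X → ℝ) :
    (av f) ^ 2 ≤ av (fun ω : X × (Bool → P) => ∏ i, f (ω.1 + g (ω.2 i))) := by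
  have h1 : av f = av (fun y : X => av (fun x : P => f (y + g x))) := by
    rw [av_comm]
    have h2 : ∀ x : P, av (fun y : X => f (y + g x)) = av f := by
      intro x
      exact av_equiv (Equiv.addRight (g x)) f
    rw [av_congr h2, av_const]
  rw [h1]
  refine (av_sq_le _).trans ?_
  rw [SecM_pair (fun y x => f (y + g x))]

/-- the two forms: the values of the two copies of the variable -/
private def SecM_phi (H : ℕ) (i : Bool) (a : Bool → Fin H) : ℤ := ((a i : ℕ) : ℤ)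

private theorem SecM_anti (H : ℕ) (hH : 1 ≤ H) (ρ : ℝ) (hρH : 1 / (H : ℝ) ≤ ρ) (i j : Bool) (hij : i ≠ j) (v : ℤ) :
    ((univ.filter fun a : Bool → Fin H => SecM_phi H i a - SecM_phi H j a = v).card : ℝ) ≤
      ρ * Fintype.card (Bool → Fin H) := by
  have hHr : (0 : ℝ) < H := by exact_mod_cast hH
  have h := anti_inj (Equiv.boolArrowEquivProd (Fin H))
    (fun a : Bool → Fin H => SecM_phi H i a - SecM_phi H j a) (by
      intro b x y hxy
      cases i <;> cases j
      · exact absurd rfl hij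
      · simp only [SecM_phi, Equiv.boolArrowEquivProd] at hxy
        apply Fin.ext
        have : ((x : ℕ) : ℤ) - ((b : ℕ) : ℤ) = ((y : ℕ) : ℤ) - ((b : ℕ) : ℤ) := hxy
        omega
      · simp only [SecM_phi, Equiv.boolArrowEquivProd] at hxy
        apply Fin.ext
        have : ((b : ℕ) : ℤ) - ((x : ℕ) : ℤ) = ((b : ℕ) : ℤ) - ((y : ℕ) : ℤ) := hxy
        omega
      · exact absurd rfl hij) v
  rw [Fintype.card_fin] at h
  have h1 : ((univ.filter fun a : Bool → Fin H => SecM_phi H i a - SecM_phi H j a = v).card : ℝ) ≤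
      1 / (H : ℝ) * Fintype.card (Bool → Fin H) := by
    rw [one_div, inv_mul_eq_div, le_div_iff₀ hHr]
    exact h
  exact h1.trans (mul_le_mul_of_nonneg_right hρH (Nat.cast_nonneg _))

theorem sec_momF (t t1 D H : ℕ) (ht : 2 ≤ t) (ht1 : 1 ≤ t1) (hH : 1 ≤ H) (hD : H ≤ D) (ρ : ℝ) (hρH : 1 / (H : ℝ) ≤ ρ) (hρ1 : ρ < 1) :
    ∃ w0 M0 N0 : ℕ, ∀ w ≥ w0, ∀ M ≥ M0, ∀ N ≥ N0, ∀ (V : ℕ) (P : Finset ℕ) (ex : ℕ) [NeZero M],
      ParF t1 D V w M N ρ P ex → ∀ (J : Type) [Fintype J] [DecidableEq J] (f : J → ℕ), t * Fintype.card J ≤ t1 → FOK f w ex →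
      ∑ n ∈ Ico N (2 * N), (av (nuF f ex P M w (Rt t1 N) n)) ^ 2 ≤ 2 * N := by
  have hHr : (0 : ℝ) < H := by exact_mod_cast hH
  have hρ0 : 0 < ρ := lt_of_lt_of_le (by positivity) hρH
  obtain ⟨w0, M0, N0, h0⟩ := lf_sysF t t1 D (by omega) ht1 ρ 1 hρ0 hρ1 one_pos
  refine ⟨w0, M0, max N0 1, ?_⟩
  intro w hw M hM N hN V P ex _ hP J _ _ f hJ hf
  have hN0 : N0 ≤ N := le_trans (le_max_left _ _) hN
  have hN1 : 1 ≤ N := le_trans (le_max_right _ _) hN
  have : NeZero H := ⟨by omega⟩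
  have hb := h0 w hw M hM N hN0 V P ex hP J f hJ hf (Bool → Fin H) Bool (by simpa using ht) (SecM_phi H) (fun _ _ => 0)
    (fun i a => by
      have h1 := (a i).2
      simp only [SecM_phi]
      rw [Nat.abs_cast]
      exact_mod_cast (by omega : ((a i : Fin H) : ℕ) ≤ D))
    (fun i q => by rw [abs_zero]; exact Nat.cast_nonneg _)
    (fun i j hij v => SecM_anti H hH ρ hρH i j hij v)
  have hb2 := (abs_le.mp hb).2
  have hNpos : (0 : ℝ) < N := by exact_mod_cast hN1
  -- the translations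
  let g : (Cd P → Fin H) → GP P M := fun x q => ((kap w q * ((x q : ℕ) : ℤ) : ℤ) : ZMod M)
  have hpt : ∀ (ω : GP P M × (Bool → Cd P → Fin H)) (i : Bool),
      ptM w (SecM_phi H i) (fun _ => 0) ((ω.1, fun q b => ω.2 b q) : OmM P M (Bool → Fin H)) = ω.1 + g (ω.2 i) := by
    intro ω i
    funext q
    simp only [ptM, SecM_phi, g, Pi.add_apply, zero_add]
  have hstep : ∀ n ∈ Ico N (2 * N), (av (nuF f ex P M w (Rt t1 N) n)) ^ 2 ≤
      av (fun ω : OmM P M (Bool → Fin H) => ∏ i, nuF f ex P M w (Rt t1 N) n (ptM w (SecM_phi H i) (fun _ => 0) ω)) := by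
    intro n _
    have h := SecM_one g (nuF f ex P M w (Rt t1 N) n)
    refine h.trans (le_of_eq ?_)
    rw [← av_equiv (Equiv.prodCongr (Equiv.refl (GP P M)) (Equiv.piComm fun (_ : Bool) (_ : Cd P) => Fin H))]
    refine av_congr fun ω => ?_
    refine prod_congr rfl fun i _ => ?_
    rw [← hpt]
    rfl
  refine (sum_le_sum hstep).trans ?_
  rw [← av_sum]
  have hdiv : av (fun ω : OmM P M (Bool → Fin H) =>
      (∑ n ∈ Ico N (2 * N), ∏ i, nuF f ex P M w (Rt t1 N) n (ptM w (SecM_phi H i) (fun _ => 0) ω)) / N) =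
      av (fun ω : OmM P M (Bool → Fin H) =>
        ∑ n ∈ Ico N (2 * N), ∏ i, nuF f ex P M w (Rt t1 N) n (ptM w (SecM_phi H i) (fun _ => 0) ω)) / N := by
    simp only [div_eq_mul_inv]
    exact av_mul_const _ _
  rw [hdiv] at hb2
  have h3 : av (fun ω : OmM P M (Bool → Fin H) =>
      ∑ n ∈ Ico N (2 * N), ∏ i, nuF f ex P M w (Rt t1 N) n (ptM w (SecM_phi H i) (fun _ => 0) ω)) / N ≤ 2 := by
    linarith
  rwa [div_le_iff₀ hNpos] at h3

end Pool.CP
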