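import Pool.Agent.Lib.MP_c77da8_nt.CP.PattF
import Pool.Agent.Lib.MP_c77da8_nt.CP.MixF
import Pool.Agent.Lib.MP_c77da8_nt.CP.SecF
import Pool.Agent.Lib.MP_c77da8_nt.CP.FNonneg
import Pool.Agent.Lib.MP_c77da8_nt.CM.GoodM
import Pool.Agent.Lib.MP_c77da8_nt.CG.RtF

/-!
# CP-GoodF: a positive proportion of `n` is good

PROOF: as `good_nM` (`CM/GoodM.lean`), with a parameter `d` in place of `dM k` and `nuF`, `fF` in place of `nuP`, `fP`.
-/

set_option autoImplicit false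

namespace Pool.CP

open Finset Pool.CG Pool.CL Pool.CM

/-- the counting argument: `0 ≤ a ≤ b` on a set with at most `N` elements -/
private theorem GoodF_count (s : Finset ℕ) (N : ℝ) (hN : 0 < N) (a b : ℕ → ℝ)
    (hs : (s.card : ℝ) ≤ N) (ha : ∀ n ∈ s, 0 ≤ a n) (hab : ∀ n ∈ s, a n ≤ b n) (δ : ℝ) (hδ : 0 < δ)
    (hsum : δ * N ≤ ∑ n ∈ s, a n) (hb : ∑ n ∈ s, b n ^ 2 ≤ 2 * N) :
    δ ^ 2 / 8 * N ≤ ((s.filter fun n => δ / 2 ≤ a n).card : ℝ) := by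
  classical
  set Cs := s.filter fun n => ¬ δ / 2 ≤ a n with hCs
  set Gs := s.filter fun n => δ / 2 ≤ a n with hGs
  have hGss : Gs ⊆ s := filter_subset _ _
  have hsplit : ∑ n ∈ s, a n = ∑ n ∈ Gs, a n + ∑ n ∈ Cs, a n := by
    rw [hGs, hCs, sum_filter_add_sum_filter_not]
  have hC : ∑ n ∈ Cs, a n ≤ δ / 2 * N := by
    calc ∑ n ∈ Cs, a n ≤ ∑ n ∈ Cs, δ / 2 := by
          refine sum_le_sum fun n hn => ?_
          rw [hCs, mem_filter] at hn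
          linarith [not_le.mp hn.2]
      _ = Cs.card * (δ / 2) := by rw [sum_const, nsmul_eq_mul]
      _ ≤ N * (δ / 2) := by
          refine mul_le_mul_of_nonneg_right ?_ (by positivity)
          refine le_trans ?_ hs
          have : Cs ⊆ s := filter_subset _ _
          exact_mod_cast card_le_card this
      _ = δ / 2 * N := by ring
  have hG : δ / 2 * N ≤ ∑ n ∈ Gs, a n := by linarith
  have hGc : (∑ n ∈ Gs, a n) ^ 2 ≤ Gs.card * (2 * N) := by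
    have h1 : (∑ n ∈ Gs, a n) ^ 2 ≤ Gs.card * ∑ n ∈ Gs, a n ^ 2 := sq_sum_le_card_mul_sum_sq
    have h2 : ∑ n ∈ Gs, a n ^ 2 ≤ ∑ n ∈ s, b n ^ 2 :=
      (sum_le_sum fun n hn => pow_le_pow_left₀ (ha n (hGss hn)) (hab n (hGss hn)) 2).trans
        (sum_le_sum_of_subset_of_nonneg hGss fun n _ _ => sq_nonneg _)
    exact h1.trans (mul_le_mul_of_nonneg_left (h2.trans hb) (Nat.cast_nonneg _))
  have h1 : (δ / 2 * N) ^ 2 ≤ Gs.card * (2 * N) :=
    (pow_le_pow_left₀ (by positivity) hG 2).trans hGc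
  have h2 : δ ^ 2 / 8 * N * (2 * N) ≤ Gs.card * (2 * N) := by
    calc δ ^ 2 / 8 * N * (2 * N) = (δ / 2 * N) ^ 2 := by ring
      _ ≤ _ := h1
  exact le_of_mul_le_mul_right h2 (by positivity)

theorem good_nF (k t1 T m D H B : ℕ) (ht1' : 1 ≤ t1) (d : ℝ) (hd0 : 0 < d) (hB : 1 ≤ B) (hH : 4 * B ≤ H)
    (hD1 : T * (k + 1) * (k + 2) * H + H ≤ D)
    (hD2 : B * (k + 1) ≤ D) (ρ η : ℝ) (hρH : 1 / (H : ℝ) ≤ ρ) (hρm : 1 - 1 / 2 ^ (m + 1) ≤ ρ) (hρ1 : ρ < 1) (hη : 0 < η) :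
    ∃ w0 M0 N0 : ℕ, ∀ w ≥ w0, ∀ M ≥ M0, ∀ N ≥ N0, ∀ (V E : ℕ) (P : Finset ℕ) (ex : ℕ) [NeZero M], ParF t1 D V w M N ρ P ex →
      ∀ (J : Type) [Fintype J] [DecidableEq J] (f : J → ℕ), tM k * Fintype.card J ≤ t1 → FOK f w ex →
      ∀ v : Cd P → ℕ, (∀ q, T * (k + 1) * v q ≤ V) → ∀ S : Finset J,
      d * N ≤ ∑ n ∈ Ico N (2 * N), av (fF f ex P M w (Rt t1 N) E n S) →
      d ^ 2 / 16 * N ≤ ((open Classical in (Ico N (2 * N)).filter fun n =>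
        (∀ n' ≤ m, MixOK k B n' η (EM k w M H v) (nuF f ex P M w (Rt t1 N) n)) ∧
        (∀ b : ℕ, 1 ≤ b → b ≤ T → LFav η (affM (EM k w M H v) (nuF f ex P M w (Rt t1 N) n) b)) ∧
        d / 2 ≤ av (fF f ex P M w (Rt t1 N) E n S) ∧
        ∀ z, 0 ≤ fF f ex P M w (Rt t1 N) E n S z ∧
          fF f ex P M w (Rt t1 N) E n S z ≤ nuF f ex P M w (Rt t1 N) n z).card : ℝ) := by
  classical
  obtain ⟨t, ht⟩ : ∃ t : ℕ, t = tM k := ⟨_, rfl⟩
  have ht' : 2 * ((k + 2) * 2 ^ (k + 2)) ≤ t := by rw [ht, tM]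
  have ht2 : 2 ≤ t := by
    have h1 : 1 ≤ 2 ^ (k + 2) := Nat.one_le_two_pow
    have h2 : (k + 2) * 1 ≤ (k + 2) * 2 ^ (k + 2) := Nat.mul_le_mul_left _ h1
    omega
  have ht1 : 1 ≤ t := by omega
  obtain ⟨δ, hδ⟩ : ∃ δ : ℝ, δ = d ^ 2 / (128 * (T + 1)) := ⟨_, rfl⟩
  have hδ0 : 0 < δ := by rw [hδ]; positivity
  have hH1 : 1 ≤ H := by omega
  have hHD : H ≤ D := le_trans (Nat.le_add_left _ _) hD1
  -- the pattern condition, for every `b`
  have hpat : ∀ b : ℕ, ∃ w0 M0 N0 : ℕ, 1 ≤ b → b ≤ T → ∀ w ≥ w0, ∀ M ≥ M0, ∀ N ≥ N0,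
      ∀ (V : ℕ) (P : Finset ℕ) (ex : ℕ) [NeZero M], ParF t1 D V w M N ρ P ex →
      ∀ (J : Type) [Fintype J] [DecidableEq J] (f : J → ℕ), t * Fintype.card J ≤ t1 → FOK f w ex →
      ∀ v : Cd P → ℕ, (∀ q, b * (k + 1) * v q ≤ V) →
      (((Ico N (2 * N)).filter fun n =>
        ¬ LFav η (affM (EM k w M H v) (nuF f ex P M w (Rt t1 N) n) b)).card : ℝ) ≤ δ * N := by
    intro b
    by_cases hb : 1 ≤ b ∧ b ≤ T
    · have hDb : b * (k + 1) * (k + 2) * H ≤ D := by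
        refine le_trans ?_ ((Nat.le_add_right _ _).trans hD1)
        exact Nat.mul_le_mul_right _ (Nat.mul_le_mul_right _ (Nat.mul_le_mul_right _ hb.2))
      obtain ⟨w0, M0, N0, h⟩ := pattF k t t1 D H b ht1' hb.1 ht' hH1 hDb ρ η δ hρH hρ1 hη hδ0
      refine ⟨w0, M0, N0, fun _ _ w hw M hM N hN V P ex _ hP J _ _ f hJ hf v hv => ?_⟩
      have := h w hw M hM N hN V P ex hP J f hJ hf v hv
      convert this
    · exact ⟨0, 0, 0, fun h1 h2 => absurd ⟨h1, h2⟩ hb⟩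
  choose wb Mb Nb hb using hpat
  obtain ⟨w1, M1, N1, h1⟩ := mix_mostF k t t1 D H B m ht1' hB ht' hH hD2 ρ η δ hρm hρ1 hη hδ0
  obtain ⟨w2, M2, N2, h2⟩ := sec_momF t t1 D H ht2 ht1' hH1 hHD ρ hρH hρ1
  obtain ⟨N4, h4⟩ := Rt_facts t1 ht1'
  refine ⟨max (max w1 w2) ((range (T + 1)).sup wb), max (max M1 M2) ((range (T + 1)).sup Mb),
    max (max N1 N2) (max (max N4 1) ((range (T + 1)).sup Nb)),
    fun w hw M hM N hN V E P ex _ hP J _ _ f hJ hf v hv S hden => ?_⟩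
  have hw1 : w1 ≤ w := le_trans ((le_max_left _ _).trans (le_max_left _ _)) hw
  have hw2 : w2 ≤ w := le_trans ((le_max_right _ _).trans (le_max_left _ _)) hw
  have hwb : ∀ b ≤ T, wb b ≤ w := fun b hb' =>
    (le_sup (f := wb) (mem_range.2 (Nat.lt_succ_of_le hb'))).trans ((le_max_right _ _).trans hw)
  have hM1 : M1 ≤ M := le_trans ((le_max_left _ _).trans (le_max_left _ _)) hM
  have hM2 : M2 ≤ M := le_trans ((le_max_right _ _).trans (le_max_left _ _)) hM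
  have hMb : ∀ b ≤ T, Mb b ≤ M := fun b hb' =>
    (le_sup (f := Mb) (mem_range.2 (Nat.lt_succ_of_le hb'))).trans ((le_max_right _ _).trans hM)
  have hN1 : N1 ≤ N := le_trans ((le_max_left _ _).trans (le_max_left _ _)) hN
  have hN2 : N2 ≤ N := le_trans ((le_max_right _ _).trans (le_max_left _ _)) hN
  have hN4 : N4 ≤ N :=
    le_trans ((le_max_left _ _).trans ((le_max_left _ _).trans (le_max_right _ _))) hN
  have hN5 : 1 ≤ N :=
    le_trans ((le_max_right _ _).trans ((le_max_left _ _).trans (le_max_right _ _))) hN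
  have hNb : ∀ b ≤ T, Nb b ≤ N := fun b hb' =>
    (le_sup (f := Nb) (mem_range.2 (Nat.lt_succ_of_le hb'))).trans
      (((le_max_right _ _).trans (le_max_right _ _)).trans hN)
  have hNr : (0 : ℝ) < N := by exact_mod_cast hN5
  rw [← ht] at hJ
  have hpatt : ∀ b : ℕ, 1 ≤ b → b ≤ T → (((Ico N (2 * N)).filter fun n =>
        ¬ LFav η (affM (EM k w M H v) (nuF f ex P M w (Rt t1 N) n) b)).card : ℝ) ≤ δ * N := by
    intro b hb1 hbT
    refine hb b hb1 hbT w (hwb b hbT) M (hMb b hbT) N (hNb b hbT) V P ex hP J f hJ hf v fun q => ?_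
    exact le_trans (Nat.mul_le_mul_right _ (Nat.mul_le_mul_right _ hbT)) (hv q)
  have hmix := h1 w hw1 M hM1 N hN1 V P ex hP J f hJ hf v
  have hsec := h2 w hw2 M hM2 N hN2 V P ex hP J f hJ hf
  obtain ⟨hR3, -, -, hR4, -, -⟩ := h4 N hN4
  obtain ⟨R, hRdef⟩ : ∃ R : ℕ, R = Rt t1 N := ⟨_, rfl⟩
  rw [← hRdef] at hR3 hR4 hsec hden hmix ⊢
  simp only [← hRdef] at hpatt
  have hfn : ∀ n z, 0 ≤ fF f ex P M w R E n S z := fun n z => fF_nonneg f ex P M w R E n S (by omega) z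
  have hfl : ∀ n ∈ Ico N (2 * N), ∀ z, fF f ex P M w R E n S z ≤ nuF f ex P M w R n z := by
    intro n hn z
    exact fF_le f ex P M w R E n S (by omega) z
  have key := GoodF_count (Ico N (2 * N)) N hNr (fun n => av (fF f ex P M w R E n S))
    (fun n => av (nuF f ex P M w R n)) (by rw [Nat.card_Ico]; apply le_of_eq; congr 1; omega)
    (fun n _ => av_nonneg fun z => hfn n z) (fun n hn => av_mono fun z => hfl n hn z) d hd0 hden hsec
  set Gs := (Ico N (2 * N)).filter fun n => d / 2 ≤ av (fF f ex P M w R E n S) with hGs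
  obtain ⟨B0, hB0⟩ : ∃ B0 : Finset ℕ, B0 = (Ico N (2 * N)).filter fun n' =>
    ¬ ∀ n ≤ m, MixOK k B n η (EM k w M H v) (nuF f ex P M w R n') := ⟨_, rfl⟩
  have hmix' : (B0.card : ℝ) ≤ δ * N := by
    rw [hB0]
    convert hmix
  obtain ⟨Bb, hBb⟩ : ∃ Bb : ℕ → Finset ℕ, Bb = fun b => (Ico N (2 * N)).filter fun n =>
    ¬ LFav η (affM (EM k w M H v) (nuF f ex P M w R n) b) := ⟨_, rfl⟩
  have hpatt' : ∀ b, 1 ≤ b → b ≤ T → ((Bb b).card : ℝ) ≤ δ * N := by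
    intro b hb1 hbT
    rw [hBb]
    exact hpatt b hb1 hbT
  have hbad : ((B0 ∪ (Icc 1 T).biUnion Bb).card : ℝ) ≤ d ^ 2 / 16 * N := by
    have e1 : ((B0 ∪ (Icc 1 T).biUnion Bb).card : ℝ) ≤ B0.card + ∑ b ∈ Icc 1 T, ((Bb b).card : ℝ) := by
      have := (card_union_le B0 ((Icc 1 T).biUnion Bb)).trans
        (Nat.add_le_add_left (card_biUnion_le (s := Icc 1 T) (t := Bb)) _)
      exact_mod_cast this
    have e2 : ∑ b ∈ Icc 1 T, ((Bb b).card : ℝ) ≤ ∑ b ∈ Icc 1 T, δ * N := by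
      refine sum_le_sum fun b hb => ?_
      rw [mem_Icc] at hb
      exact hpatt' b hb.1 hb.2
    have e3 : ∑ b ∈ Icc 1 T, δ * (N : ℝ) = T * (δ * N) := by
      rw [sum_const, nsmul_eq_mul, Nat.card_Icc]
      simp
    have e4 : δ * N + T * (δ * N) = d ^ 2 / 128 * N := by
      rw [hδ]
      field_simp
      ring
    have e5 : d ^ 2 / 128 * N ≤ d ^ 2 / 16 * N := by
      have : (0 : ℝ) ≤ d ^ 2 * N := by positivity
      linarith
    linarith [hmix']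
  have hfin : ((Gs \ (B0 ∪ (Icc 1 T).biUnion Bb)).card : ℝ) ≥ d ^ 2 / 16 * N := by
    have e1 : (Gs.card : ℝ) ≤ (Gs \ (B0 ∪ (Icc 1 T).biUnion Bb)).card +
        (B0 ∪ (Icc 1 T).biUnion Bb).card := by
      have := card_le_card_sdiff_add_card (s := Gs) (t := B0 ∪ (Icc 1 T).biUnion Bb)
      exact_mod_cast this
    linarith
  refine le_trans hfin ?_
  norm_cast
  refine card_le_card fun n hn => ?_
  rw [mem_sdiff, mem_union, not_or] at hn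
  obtain ⟨hn1, hn2, hn3⟩ := hn
  rw [hGs, mem_filter] at hn1
  rw [hB0, mem_filter, not_and, not_not] at hn2
  rw [mem_filter]
  refine ⟨hn1.1, hn2 hn1.1, fun b hb1 hbT => ?_, hn1.2, fun z => ⟨hfn n z, hfl n hn1.1 z⟩⟩
  by_contra hcon
  apply hn3
  rw [mem_biUnion]
  refine ⟨b, mem_Icc.2 ⟨hb1, hbT⟩, ?_⟩
  rw [hBb]
  exact mem_filter.2 ⟨hn1.1, hcon⟩

end Pool.CP
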