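import Mathlib

/-!
# CP-HitC: many classes are hit often (second moment method), mass version

PROOF.  Copy `DL/Hit.lean` with other constants.  Fix `i`, `N m = #{h | χ i h m}`, `t = s κ ≥ 16 T ≥ 16`.  `∑ N w ≥ t W/4`; `∑ N² w ≤ 2 t W + 80 t² W ≤ 81 t² W`;
`∑_{N < T} N w ≤ T ∑ w ≤ 2 T W ≤ t W/8`; so `∑_{N ≥ T} N w ≥ t W/8` and by Cauchy-Schwarz `(t W/8)² ≤ (∑_{N ≥ T} w) (81 t² W)`, i.e. `∑_{N ≥ T} w ≥ W/5184`.  Sum over `i`:
`∑_m w m G m ≥ k W/5184`, `G m = #{i | T ≤ N_i m} ≤ k`.  The `m` with `12000 G m < k` contribute at most `(k/12000) 2 W = k W/6000`; so the mass of the others is at least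
`W (1/5184 - 1/6000) ≥ W/40000`.
-/

set_option autoImplicit false

namespace Pool.CP

open Finset

/-- the case of one `i` -/
private theorem hit_one (M : Finset ℕ) (w : ℕ → ℝ) (hw : ∀ m, 0 ≤ w m) (s T : ℕ) (hT : 1 ≤ T)
    (χ : Fin s → ℕ → Prop) [∀ h m, Decidable (χ h m)] (κ W : ℝ) (hW : 0 < W)
    (hκ : 16 * (T : ℝ) ≤ s * κ) (h1 : ∑ m ∈ M, w m ≤ 2 * W)
    (h2 : ∀ h, κ * W / 4 ≤ ∑ m ∈ M.filter (fun m => χ h m), w m)
    (h2' : ∀ h, ∑ m ∈ M.filter (fun m => χ h m), w m ≤ 2 * κ * W)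
    (h3 : ∀ h h', h ≠ h' →
      ∑ m ∈ M.filter (fun m => χ h m ∧ χ h' m), w m ≤ 80 * κ ^ 2 * W) :
    W / 5184 ≤ ∑ m ∈ M.filter (fun m => T ≤ (univ.filter (fun h : Fin s => χ h m)).card), w m := by
  have hT1 : (1 : ℝ) ≤ T := by exact_mod_cast hT
  obtain ⟨t, ht⟩ : ∃ t : ℝ, t = s * κ := ⟨_, rfl⟩
  have ht16 : 16 * (T : ℝ) ≤ t := by rw [ht]; exact hκ
  have ht0 : 0 < t := by linarith
  have hs0 : (0 : ℝ) < s := by
    rcases Nat.eq_zero_or_pos s with h | h
    · subst h
      simp at ht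
      linarith
    · exact_mod_cast h
  have hκ0 : 0 < κ := by
    by_contra h
    have : (s : ℝ) * κ ≤ 0 := mul_nonpos_of_nonneg_of_nonpos hs0.le (not_lt.1 h)
    linarith
  set N : ℕ → ℝ := fun m => ((univ.filter (fun h : Fin s => χ h m)).card : ℝ) with hN
  have hN0 : ∀ m, 0 ≤ N m := fun m => Nat.cast_nonneg _
  have hNs : ∀ m, N m = ∑ h : Fin s, if χ h m then (1 : ℝ) else 0 := by
    intro m
    simp [hN]
  -- first moment
  have m1 : t * W / 4 ≤ ∑ m ∈ M, N m * w m := by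
    have e1 : ∑ m ∈ M, N m * w m = ∑ h : Fin s, ∑ m ∈ M.filter (fun m => χ h m), w m := by
      calc ∑ m ∈ M, N m * w m = ∑ m ∈ M, ∑ h : Fin s, if χ h m then w m else 0 := by
            refine sum_congr rfl fun m _ => ?_
            rw [hNs, sum_mul]
            refine sum_congr rfl fun h _ => ?_
            split_ifs <;> simp
        _ = ∑ h : Fin s, ∑ m ∈ M, if χ h m then w m else 0 := sum_comm
        _ = _ := by
            refine sum_congr rfl fun h _ => ?_
            rw [sum_filter]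
    rw [e1]
    calc t * W / 4 = ∑ _h : Fin s, κ * W / 4 := by
          rw [sum_const, card_univ, Fintype.card_fin, nsmul_eq_mul, ht]
          ring
      _ ≤ _ := sum_le_sum fun h _ => h2 h
  -- second moment
  have m2 : ∑ m ∈ M, N m ^ 2 * w m ≤ 81 * t ^ 2 * W := by
    have e1 : ∑ m ∈ M, N m ^ 2 * w m =
        ∑ h : Fin s, ∑ h' : Fin s, ∑ m ∈ M.filter (fun m => χ h m ∧ χ h' m), w m := by
      calc ∑ m ∈ M, N m ^ 2 * w m
          = ∑ m ∈ M, ∑ h : Fin s, ∑ h' : Fin s, if χ h m ∧ χ h' m then w m else 0 := by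
            refine sum_congr rfl fun m _ => ?_
            rw [hNs, pow_two, sum_mul_sum, sum_mul]
            refine sum_congr rfl fun h _ => ?_
            rw [sum_mul]
            refine sum_congr rfl fun h' _ => ?_
            by_cases a : χ h m <;> by_cases b : χ h' m <;> simp [a, b]
        _ = ∑ h : Fin s, ∑ m ∈ M, ∑ h' : Fin s, (if χ h m ∧ χ h' m then w m else 0) := sum_comm
        _ = ∑ h : Fin s, ∑ h' : Fin s, ∑ m ∈ M, (if χ h m ∧ χ h' m then w m else 0) :=
            sum_congr rfl fun h _ => sum_comm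
        _ = _ := by
            refine sum_congr rfl fun h _ => sum_congr rfl fun h' _ => ?_
            rw [sum_filter]
    rw [e1]
    have e2 : ∀ h h' : Fin s, ∑ m ∈ M.filter (fun m => χ h m ∧ χ h' m), w m ≤
        (if h = h' then 2 * κ * W else 0) + 80 * κ ^ 2 * W := by
      intro h h'
      split_ifs with hh
      · subst hh
        have : ∑ m ∈ M.filter (fun m => χ h m ∧ χ h m), w m ≤ 2 * κ * W := by
          simpa using h2' h
        have h5 : 0 ≤ 80 * κ ^ 2 * W := by positivity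
        linarith
      · rw [zero_add]
        exact h3 h h' hh
    calc ∑ h : Fin s, ∑ h' : Fin s, ∑ m ∈ M.filter (fun m => χ h m ∧ χ h' m), w m
        ≤ ∑ h : Fin s, ∑ h' : Fin s, ((if h = h' then 2 * κ * W else 0) + 80 * κ ^ 2 * W) :=
          sum_le_sum fun h _ => sum_le_sum fun h' _ => e2 h h'
      _ = s * (2 * κ * W) + s * (s * (80 * κ ^ 2 * W)) := by
          simp only [sum_add_distrib, sum_ite_eq, mem_univ, if_true, sum_const, card_univ,
            Fintype.card_fin, nsmul_eq_mul]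
      _ = 2 * t * W + 80 * t ^ 2 * W := by
          rw [ht]
          ring
      _ ≤ 81 * t ^ 2 * W := by
          have : 2 * t * W ≤ t ^ 2 * W := by
            refine mul_le_mul_of_nonneg_right ?_ hW.le
            nlinarith
          linarith
  -- the part with `N < T`
  have m3 : ∑ m ∈ M.filter (fun m => ¬ T ≤ (univ.filter (fun h : Fin s => χ h m)).card),
      N m * w m ≤ t * W / 8 := by
    calc ∑ m ∈ M.filter (fun m => ¬ T ≤ (univ.filter (fun h : Fin s => χ h m)).card), N m * w m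
        ≤ ∑ m ∈ M.filter (fun m => ¬ T ≤ (univ.filter (fun h : Fin s => χ h m)).card),
            (T : ℝ) * w m := by
          refine sum_le_sum fun m hm => mul_le_mul_of_nonneg_right ?_ (hw m)
          have := (mem_filter.1 hm).2
          have h6 : (univ.filter (fun h : Fin s => χ h m)).card ≤ T := by omega
          have h8 : ((univ.filter (fun h : Fin s => χ h m)).card : ℝ) ≤ (T : ℝ) := Nat.cast_le.2 h6
          exact h8
      _ ≤ ∑ m ∈ M, (T : ℝ) * w m := by
          refine sum_le_sum_of_subset_of_nonneg (filter_subset _ _) fun m _ _ => ?_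
          exact mul_nonneg (by linarith) (hw m)
      _ = T * ∑ m ∈ M, w m := by rw [mul_sum]
      _ ≤ T * (2 * W) := mul_le_mul_of_nonneg_left h1 (by linarith)
      _ ≤ t * W / 8 := by
          have := mul_le_mul_of_nonneg_right ht16 hW.le
          linarith
  have m4 : t * W / 8 ≤
      ∑ m ∈ M.filter (fun m => T ≤ (univ.filter (fun h : Fin s => χ h m)).card), N m * w m := by
    have := sum_filter_add_sum_filter_not M
      (fun m => T ≤ (univ.filter (fun h : Fin s => χ h m)).card) (fun m => N m * w m)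
    linarith
  set P := M.filter (fun m => T ≤ (univ.filter (fun h : Fin s => χ h m)).card) with hP
  -- Cauchy-Schwarz
  have m5 : (∑ m ∈ P, N m * w m) ^ 2 ≤ (∑ m ∈ P, w m) * ∑ m ∈ P, N m ^ 2 * w m := by
    have h7 := sum_mul_sq_le_sq_mul_sq P (fun m => Real.sqrt (w m))
      (fun m => N m * Real.sqrt (w m))
    have e1 : ∑ m ∈ P, Real.sqrt (w m) * (N m * Real.sqrt (w m)) = ∑ m ∈ P, N m * w m := by
      refine sum_congr rfl fun m _ => ?_
      have := Real.mul_self_sqrt (hw m)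
      calc Real.sqrt (w m) * (N m * Real.sqrt (w m)) =
            N m * (Real.sqrt (w m) * Real.sqrt (w m)) := by ring
        _ = N m * w m := by rw [this]
    have e2 : ∑ m ∈ P, Real.sqrt (w m) ^ 2 = ∑ m ∈ P, w m :=
      sum_congr rfl fun m _ => Real.sq_sqrt (hw m)
    have e3 : ∑ m ∈ P, (N m * Real.sqrt (w m)) ^ 2 = ∑ m ∈ P, N m ^ 2 * w m := by
      refine sum_congr rfl fun m _ => ?_
      rw [mul_pow, Real.sq_sqrt (hw m)]
    rw [e1, e2, e3] at h7
    exact h7
  have m6 : ∑ m ∈ P, N m ^ 2 * w m ≤ 81 * t ^ 2 * W := by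
    refine (sum_le_sum_of_subset_of_nonneg (filter_subset _ _) fun m _ _ => ?_).trans m2
    exact mul_nonneg (by positivity) (hw m)
  have hP0 : 0 ≤ ∑ m ∈ P, w m := sum_nonneg fun m _ => hw m
  have m7 : (t * W / 8) ^ 2 ≤ (∑ m ∈ P, w m) * (81 * t ^ 2 * W) := by
    calc (t * W / 8) ^ 2 ≤ (∑ m ∈ P, N m * w m) ^ 2 :=
          pow_le_pow_left₀ (by positivity) m4 2
      _ ≤ (∑ m ∈ P, w m) * ∑ m ∈ P, N m ^ 2 * w m := m5
      _ ≤ _ := mul_le_mul_of_nonneg_left m6 hP0
  have hpos : 0 < 81 * t ^ 2 * W := by positivity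
  calc W / 5184 = (t * W / 8) ^ 2 / (81 * t ^ 2 * W) := by
        field_simp
        ring
    _ ≤ ∑ m ∈ P, w m := by
        rw [div_le_iff₀ hpos]
        exact m7

theorem hit_mass (M : Finset ℕ) (w : ℕ → ℝ) (hw : ∀ m, 0 ≤ w m) (k s T : ℕ) (hk : 1 ≤ k) (hT : 1 ≤ T)
    (χ : Fin k → Fin s → ℕ → Prop) [∀ i h m, Decidable (χ i h m)] (κ W : ℝ) (hW : 0 < W)
    (hκ : 16 * (T : ℝ) ≤ s * κ) (h1 : ∑ m ∈ M, w m ≤ 2 * W)
    (h2 : ∀ i h, κ * W / 4 ≤ ∑ m ∈ M.filter (fun m => χ i h m), w m)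
    (h2' : ∀ i h, ∑ m ∈ M.filter (fun m => χ i h m), w m ≤ 2 * κ * W)
    (h3 : ∀ i h h', h ≠ h' →
      ∑ m ∈ M.filter (fun m => χ i h m ∧ χ i h' m), w m ≤ 80 * κ ^ 2 * W) :
    W / 40000 ≤ ∑ m ∈ M.filter (fun m =>
      k ≤ 12000 * (univ.filter (fun i : Fin k => T ≤ (univ.filter (fun h : Fin s => χ i h m)).card)).card), w m := by
  have hk0 : (0 : ℝ) < k := by exact_mod_cast hk
  have hi : ∀ i : Fin k, W / 5184 ≤ ∑ m ∈ M.filter
      (fun m => T ≤ (univ.filter (fun h : Fin s => χ i h m)).card), w m := fun i =>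
    hit_one M w hw s T hT (χ i) κ W hW hκ h1 (h2 i) (h2' i) (h3 i)
  obtain ⟨G, hG⟩ : ∃ G : ℕ → ℕ, ∀ m, G m =
      (univ.filter (fun i : Fin k => T ≤ (univ.filter (fun h : Fin s => χ i h m)).card)).card :=
    ⟨_, fun _ => rfl⟩
  have hs : (k : ℝ) * (W / 5184) ≤ ∑ m ∈ M, w m * (G m : ℝ) := by
    calc (k : ℝ) * (W / 5184) = ∑ _i : Fin k, W / 5184 := by
          rw [sum_const, card_univ, Fintype.card_fin, nsmul_eq_mul]
      _ ≤ ∑ i : Fin k, ∑ m ∈ M.filter
            (fun m => T ≤ (univ.filter (fun h : Fin s => χ i h m)).card), w m :=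
          sum_le_sum fun i _ => hi i
      _ = ∑ i : Fin k, ∑ m ∈ M,
            (if T ≤ (univ.filter (fun h : Fin s => χ i h m)).card then w m else 0) := by
          refine sum_congr rfl fun i _ => ?_
          rw [sum_filter]
      _ = ∑ m ∈ M, ∑ i : Fin k,
            (if T ≤ (univ.filter (fun h : Fin s => χ i h m)).card then w m else 0) := sum_comm
      _ = _ := by
          refine sum_congr rfl fun m _ => ?_
          rw [← sum_filter, sum_const, nsmul_eq_mul, mul_comm, hG]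
  have hGk : ∀ m, (G m : ℝ) ≤ k := by
    intro m
    rw [hG]
    have h4 := card_filter_le (univ : Finset (Fin k))
      (fun i : Fin k => T ≤ (univ.filter (fun h : Fin s => χ i h m)).card)
    rw [card_univ, Fintype.card_fin] at h4
    exact_mod_cast h4
  simp only [← hG]
  have hbad : ∑ m ∈ M.filter (fun m => ¬ k ≤ 12000 * G m), w m * (G m : ℝ) ≤ (k : ℝ) / 12000 * (2 * W) := by
    calc ∑ m ∈ M.filter (fun m => ¬ k ≤ 12000 * G m), w m * (G m : ℝ)
        ≤ ∑ m ∈ M.filter (fun m => ¬ k ≤ 12000 * G m), w m * ((k : ℝ) / 12000) := by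
          refine sum_le_sum fun m hm => mul_le_mul_of_nonneg_left ?_ (hw m)
          have h5 := (mem_filter.1 hm).2
          have h6 : 12000 * G m ≤ k := by omega
          have h7 : (12000 : ℝ) * (G m : ℝ) ≤ k := by exact_mod_cast h6
          linarith
      _ ≤ ∑ m ∈ M, w m * ((k : ℝ) / 12000) :=
          sum_le_sum_of_subset_of_nonneg (filter_subset _ _) fun m _ _ =>
            mul_nonneg (hw m) (by positivity)
      _ = (k : ℝ) / 12000 * ∑ m ∈ M, w m := by rw [← sum_mul, mul_comm]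
      _ ≤ _ := mul_le_mul_of_nonneg_left h1 (by positivity)
  have hgood : ∑ m ∈ M.filter (fun m => k ≤ 12000 * G m), w m * (G m : ℝ) ≤
      (k : ℝ) * ∑ m ∈ M.filter (fun m => k ≤ 12000 * G m), w m := by
    calc ∑ m ∈ M.filter (fun m => k ≤ 12000 * G m), w m * (G m : ℝ)
        ≤ ∑ m ∈ M.filter (fun m => k ≤ 12000 * G m), w m * (k : ℝ) :=
          sum_le_sum fun m _ => mul_le_mul_of_nonneg_left (hGk m) (hw m)
      _ = _ := by rw [← sum_mul, mul_comm]
  have hsplit := sum_filter_add_sum_filter_not M (fun m => k ≤ 12000 * G m)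
    (fun m => w m * (G m : ℝ))
  have hfin : (k : ℝ) * (W / 40000) ≤ (k : ℝ) * ∑ m ∈ M.filter (fun m => k ≤ 12000 * G m), w m := by
    have hkW : 0 < (k : ℝ) * W := by positivity
    linarith
  exact le_of_mul_le_mul_left hfin hk0

end Pool.CP
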