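import Pool.Agent.Lib.MP_c77da8_nt.Sv4

/-!
# CP-SumS: the cofactors

PROOF.  `Q` = the primes in `(2^a, 2^b]`.  The map `E ↦ ∏ p ∈ E, p` is injective on subsets of `Q`, the image is the set of
squarefree numbers with all prime factors in `Q` (`primeFactors` is the inverse).  Put `w E = ∏ p ∈ E, 1/p`,
`Z = ∑_E w E = ∏_{p ∈ Q} (1 + 1/p)` (`Finset.prod_one_add` / `Finset.prod_add_one`).
(1) `∑_E (-1)^#E w E = ∏ (1 - 1/p) ≥ 0`, so the sum over the `E` with `#E` even is `≥ Z/2`.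
(2) `∑_E w E log (∏ E) = ∑_{p ∈ Q} log p ∑_{E ∋ p} w E ≤ (∑_{p ∈ Q} log p/p) Z ≤ 4 b log 2 Z`
(`Mert.S_le`: `∑_{p ≤ 2^b} log p/p ≤ (b + 2) log 2 ≤ 3 b log 2`).  Markov: the `E` with `∏ E > 2^(16 b)` contribute
`≤ Z/4`.  So the sum in question is `≥ Z/4`.
(3) `Z ≥ exp(∑ 1/p - ∑ 1/p²)`, `log(1+x) ≥ x - x²`, `∑_{p ∈ Q} 1/p = R b - R a ≥ log(b/a) - 8` (`R_ge`, `Mert.R_le`),
`∑_{p ∈ Q} 1/p² ≤ 1/2^a ≤ 1/2` (`R2_diff`).  So `Z ≥ exp(-9) b/a`.
-/

set_option autoImplicit false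

namespace Pool.CP

open Finset Pool.Agent.Lib.MP_c77da8_nt.Sv Pool.Agent.Lib.MP_c77da8_nt.Mert

/-- squarefree numbers `≤ 2^(16 b)` with an even number of prime factors, all of them in `(2^a, 2^b]` -/
def cof (a b : ℕ) : Finset ℕ :=
  (Icc 1 (2 ^ (16 * b))).filter fun s =>
    Squarefree s ∧ Even s.primeFactors.card ∧ ∀ p ∈ s.primeFactors, 2 ^ a < p ∧ p ≤ 2 ^ b

theorem mem_cof {a b s : ℕ} : s ∈ cof a b ↔ (1 ≤ s ∧ s ≤ 2 ^ (16 * b)) ∧
    Squarefree s ∧ Even s.primeFactors.card ∧ ∀ p ∈ s.primeFactors, 2 ^ a < p ∧ p ≤ 2 ^ b := by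
  unfold cof
  rw [mem_filter, mem_Icc]

private theorem ws_mono (Q : Finset ℕ) (f g : ℕ → ℝ) (hf : ∀ p, 0 ≤ f p) (hg : ∀ p, 0 ≤ g p) :
    ∑ E ∈ Q.powerset, (∏ p ∈ E, f p) * ∑ p ∈ E, g p ≤
      (∑ p ∈ Q, g p * f p) * ∑ E ∈ Q.powerset, ∏ p ∈ E, f p := by
  classical
  induction Q using Finset.induction_on with
  | empty => simp
  | insert q Q hq ih =>
    have hZ : ∑ E ∈ (insert q Q).powerset, ∏ p ∈ E, f p =
        (1 + f q) * ∑ E ∈ Q.powerset, ∏ p ∈ E, f p := by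
      rw [← prod_one_add, ← prod_one_add, prod_insert hq]
    have hZ0 : 0 ≤ ∑ E ∈ Q.powerset, ∏ p ∈ E, f p :=
      sum_nonneg fun E _ => prod_nonneg fun p _ => hf p
    have hA : ∑ E ∈ (insert q Q).powerset, (∏ p ∈ E, f p) * ∑ p ∈ E, g p =
        (1 + f q) * (∑ E ∈ Q.powerset, (∏ p ∈ E, f p) * ∑ p ∈ E, g p) +
          f q * g q * ∑ E ∈ Q.powerset, ∏ p ∈ E, f p := by
      rw [sum_powerset_insert hq]
      have h1 : ∀ E ∈ Q.powerset, (∏ p ∈ insert q E, f p) * ∑ p ∈ insert q E, g p =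
          f q * ((∏ p ∈ E, f p) * ∑ p ∈ E, g p) + f q * g q * ∏ p ∈ E, f p := by
        intro E hE
        have hqE : q ∉ E := fun h => hq (mem_powerset.1 hE h)
        rw [prod_insert hqE, sum_insert hqE]
        ring
      rw [sum_congr rfl h1, sum_add_distrib, ← mul_sum, ← mul_sum]
      ring
    rw [hA, hZ, sum_insert hq]
    have h2 : (1 + f q) * (∑ E ∈ Q.powerset, (∏ p ∈ E, f p) * ∑ p ∈ E, g p) ≤
        (1 + f q) * ((∑ p ∈ Q, g p * f p) * ∑ E ∈ Q.powerset, ∏ p ∈ E, f p) :=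
      mul_le_mul_of_nonneg_left ih (by linarith [hf q])
    have h3 : 0 ≤ g q * f q * (f q * ∑ E ∈ Q.powerset, ∏ p ∈ E, f p) :=
      mul_nonneg (mul_nonneg (hg q) (hf q)) (mul_nonneg (hf q) hZ0)
    nlinarith

private theorem sq_prod (E : Finset ℕ) (hE : ∀ p ∈ E, p.Prime) : Squarefree (∏ p ∈ E, p) := by
  refine Finset.squarefree_prod_of_pairwise_isCoprime (fun a ha b hb hab => ?_)
    fun a ha => (hE a ha).squarefree
  change IsRelPrime a b
  rw [← Nat.coprime_iff_isRelPrime]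
  exact (Nat.coprime_primes (hE a ha) (hE b hb)).2 hab

private theorem exp_le_one_add (x : ℝ) (hx : 0 ≤ x) : Real.exp (x - x ^ 2) ≤ 1 + x := by
  rw [← Real.le_log_iff_exp_le (by linarith)]
  refine le_trans ?_ (Real.one_sub_inv_le_log_of_pos (by linarith : (0 : ℝ) < 1 + x))
  have h1 : (0 : ℝ) < 1 + x := by linarith
  have h2 : 1 - (1 + x)⁻¹ = x / (1 + x) := by
    field_simp
    ring
  rw [h2, le_div_iff₀ h1]
  have h3 : 0 ≤ x ^ 3 := by positivity
  nlinarith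

theorem cof_sum (a b : ℕ) (ha : 1 ≤ a) (hab : a ≤ b) :
    Real.exp (-9) / 4 * ((b : ℝ) / a) ≤ ∑ s ∈ cof a b, (1 : ℝ) / s := by
  classical
  have hb : 1 ≤ b := ha.trans hab
  have ha' : (0 : ℝ) < a := by exact_mod_cast ha
  have hb' : (1 : ℝ) ≤ b := by exact_mod_cast hb
  have hl2 : 0 < Real.log 2 := Real.log_pos (by norm_num)
  set Q : Finset ℕ := Nat.primesLE (2 ^ b) \ Nat.primesLE (2 ^ a) with hQ
  have hQm : ∀ p ∈ Q, p.Prime ∧ 2 ^ a < p ∧ p ≤ 2 ^ b := by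
    intro p hp
    rw [hQ, mem_sdiff, Nat.mem_primesLE, Nat.mem_primesLE] at hp
    exact ⟨hp.1.2, not_le.1 fun h => hp.2 ⟨h, hp.1.2⟩, hp.1.1⟩
  set f : ℕ → ℝ := fun p => (1 : ℝ) / p with hf
  have hf0 : ∀ p, 0 ≤ f p := fun p => by rw [hf]; positivity
  set Z : ℝ := ∑ E ∈ Q.powerset, ∏ p ∈ E, f p with hZ
  have hZprod : Z = ∏ p ∈ Q, (1 + f p) := by rw [hZ, prod_one_add]
  -- lower bound for Z
  have hZlow : Real.exp (-9) * ((b : ℝ) / a) ≤ Z := by
    have h1 : ∏ p ∈ Q, Real.exp (f p - f p ^ 2) ≤ ∏ p ∈ Q, (1 + f p) :=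
      prod_le_prod (fun p _ => (Real.exp_pos _).le) fun p _ => exp_le_one_add _ (hf0 p)
    rw [← Real.exp_sum, ← hZprod] at h1
    refine le_trans ?_ h1
    have h2 : ∑ p ∈ Q, (f p - f p ^ 2) = (R b - R a) - (R2 b - R2 a) := by
      rw [sum_sub_distrib]
      unfold R R2
      rw [← sum_sdiff_eq (fun p => (1 : ℝ) / p) hab, ← sum_sdiff_eq (fun p => (1 : ℝ) / (p : ℝ) ^ 2) hab]
      congr 1
      refine sum_congr rfl fun p _ => ?_
      rw [hf, div_pow, one_pow]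
    have h3 := R_ge b hb
    have h4 := R_le a ha
    have h5 := R2_diff a b hab
    have h6 : (1 : ℝ) / 2 ^ a ≤ 1 / 2 := by
      refine one_div_le_one_div_of_le (by norm_num) ?_
      calc (2 : ℝ) = 2 ^ 1 := by norm_num
        _ ≤ 2 ^ a := pow_le_pow_right₀ (by norm_num) ha
    have h7 : Real.exp (-9) * ((b : ℝ) / a) = Real.exp (-9 + (Real.log b - Real.log a)) := by
      rw [Real.exp_add, Real.exp_sub, Real.exp_log (by linarith), Real.exp_log ha']
    rw [h7, h2]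
    refine Real.exp_le_exp.2 ?_
    linarith
  -- the even sets
  have hev : Z / 2 ≤ ∑ E ∈ Q.powerset.filter (fun E => Even E.card), ∏ p ∈ E, f p := by
    have h1 : 0 ≤ ∑ E ∈ Q.powerset, (-1 : ℝ) ^ E.card * ∏ p ∈ E, f p := by
      have h2 : ∀ E ∈ Q.powerset, (-1 : ℝ) ^ E.card * ∏ p ∈ E, f p = ∏ p ∈ E, (-f p) := by
        intro E _
        rw [← prod_const, ← prod_mul_distrib]
        exact prod_congr rfl fun p _ => by ring
      rw [sum_congr rfl h2, ← prod_one_add]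
      refine prod_nonneg fun p hp => ?_
      have h3 := (hQm p hp).1.one_lt.le
      have h4 : (1 : ℝ) ≤ p := by exact_mod_cast h3
      have h5 : f p ≤ 1 := by
        rw [hf]
        exact (div_le_one (by linarith)).2 h4
      linarith
    have h2 : ∑ E ∈ Q.powerset.filter (fun E => Even E.card), ∏ p ∈ E, f p =
        (Z + ∑ E ∈ Q.powerset, (-1 : ℝ) ^ E.card * ∏ p ∈ E, f p) / 2 := by
      rw [hZ, ← sum_add_distrib, sum_div, sum_filter]
      refine sum_congr rfl fun E _ => ?_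
      by_cases h : Even E.card
      · rw [if_pos h, h.neg_one_pow]
        ring
      · rw [if_neg h, (Nat.not_even_iff_odd.1 h).neg_one_pow]
        ring
    rw [h2]
    linarith
  -- Markov
  have hlogprod : ∀ E ∈ Q.powerset, Real.log ((∏ p ∈ E, p : ℕ) : ℝ) = ∑ p ∈ E, Real.log p := by
    intro E hE
    rw [Nat.cast_prod, Real.log_prod]
    intro p hp
    have := (hQm p (mem_powerset.1 hE hp)).1.ne_zero
    exact_mod_cast this
  have hmk : ∑ E ∈ Q.powerset.filter (fun E => 2 ^ (16 * b) < ∏ p ∈ E, p), ∏ p ∈ E, f p ≤ Z / 4 := by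
    have h1 : ∑ E ∈ Q.powerset.filter (fun E => 2 ^ (16 * b) < ∏ p ∈ E, p),
        (∏ p ∈ E, f p) * (16 * b * Real.log 2) ≤
        ∑ E ∈ Q.powerset, (∏ p ∈ E, f p) * ∑ p ∈ E, Real.log p := by
      refine le_trans (sum_le_sum (fun E hE => ?_))
        (sum_le_sum_of_subset_of_nonneg (filter_subset _ _) fun E hE _ => ?_)
      · obtain ⟨hE1, hE2⟩ := mem_filter.1 hE
        refine mul_le_mul_of_nonneg_left ?_ (prod_nonneg fun p _ => hf0 p)
        rw [← hlogprod E hE1]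
        have h2 : (16 * b * Real.log 2 : ℝ) = Real.log (((2 ^ (16 * b) : ℕ)) : ℝ) := by
          push_cast
          rw [Real.log_pow]
          push_cast
          ring
        rw [h2]
        refine Real.log_le_log (by positivity) ?_
        exact_mod_cast hE2.le
      · exact mul_nonneg (prod_nonneg fun p _ => hf0 p)
          (sum_nonneg fun p _ => Real.log_natCast_nonneg p)
    have h2 := ws_mono Q f (fun p => Real.log p) hf0 (fun p => Real.log_natCast_nonneg p)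
    have h3 : ∑ p ∈ Q, Real.log p * f p ≤ 3 * b * Real.log 2 := by
      have h4 : ∑ p ∈ Q, Real.log p * f p ≤ S b := by
        unfold S
        have h5 : ∀ p ∈ Q, Real.log p * f p = Real.log p / p := by
          intro p _
          rw [hf]
          ring
        rw [sum_congr rfl h5]
        exact sum_le_sum_of_subset_of_nonneg sdiff_subset fun p _ _ =>
          div_nonneg (Real.log_natCast_nonneg p) (Nat.cast_nonneg p)
      have h6 := S_le b
      nlinarith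
    have hZ0 : 0 ≤ Z := sum_nonneg fun E _ => prod_nonneg fun p _ => hf0 p
    have h4 : (∑ E ∈ Q.powerset.filter (fun E => 2 ^ (16 * b) < ∏ p ∈ E, p), ∏ p ∈ E, f p) *
        (16 * b * Real.log 2) ≤ 3 * b * Real.log 2 * Z := by
      rw [sum_mul]
      exact h1.trans (h2.trans (mul_le_mul_of_nonneg_right h3 hZ0))
    have h5 : 0 < b * Real.log 2 := mul_pos (by linarith) hl2
    by_contra hcon
    have h6 := mul_lt_mul_of_pos_right (not_le.1 hcon) (by nlinarith : (0 : ℝ) < 16 * b * Real.log 2)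
    have h7 : 0 ≤ Z * (b * Real.log 2) := mul_nonneg hZ0 h5.le
    nlinarith
  -- the good sets
  set G : Finset (Finset ℕ) := Q.powerset.filter (fun E => Even E.card ∧ ∏ p ∈ E, p ≤ 2 ^ (16 * b)) with hG
  have hGsum : Z / 4 ≤ ∑ E ∈ G, ∏ p ∈ E, f p := by
    have h1 : ∑ E ∈ Q.powerset.filter (fun E => Even E.card), ∏ p ∈ E, f p ≤
        ∑ E ∈ G, ∏ p ∈ E, f p +
          ∑ E ∈ Q.powerset.filter (fun E => 2 ^ (16 * b) < ∏ p ∈ E, p), ∏ p ∈ E, f p := by
      rw [hG, sum_filter, sum_filter, sum_filter, ← sum_add_distrib]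
      refine sum_le_sum fun E _ => ?_
      have h2 : 0 ≤ ∏ p ∈ E, f p := prod_nonneg fun p _ => hf0 p
      by_cases h3 : Even E.card
      · by_cases h4 : ∏ p ∈ E, p ≤ 2 ^ (16 * b)
        · rw [if_pos h3, if_pos ⟨h3, h4⟩]
          split_ifs <;> linarith
        · rw [if_pos h3, if_neg (fun h => h4 h.2), if_pos (not_le.1 h4)]
          linarith
      · rw [if_neg h3, if_neg (fun h => h3 h.1)]
        split_ifs <;> linarith
    linarith
  have hinj : Set.InjOn (fun E : Finset ℕ => ∏ p ∈ E, p) (G : Set (Finset ℕ)) := by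
    intro E hE F hF hEF
    have h1 : ∀ E ∈ G, (∏ p ∈ E, p).primeFactors = E := by
      intro E hE
      exact Nat.primeFactors_prod fun p hp => (hQm p (mem_powerset.1 (mem_filter.1 hE).1 hp)).1
    rw [← h1 E hE, ← h1 F hF]
    exact congrArg Nat.primeFactors hEF
  have himg : ∑ E ∈ G, ∏ p ∈ E, f p = ∑ s ∈ G.image (fun E => ∏ p ∈ E, p), (1 : ℝ) / s := by
    rw [sum_image hinj]
    refine sum_congr rfl fun E _ => ?_
    rw [hf, Nat.cast_prod, prod_div_distrib, prod_const_one]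
  have hsub : G.image (fun E => ∏ p ∈ E, p) ⊆ cof a b := by
    intro s hs
    obtain ⟨E, hE, rfl⟩ := mem_image.1 hs
    obtain ⟨hE1, hE2, hE3⟩ := mem_filter.1 hE
    have hEp : ∀ p ∈ E, p.Prime := fun p hp => (hQm p (mem_powerset.1 hE1 hp)).1
    rw [mem_cof, Nat.primeFactors_prod hEp]
    refine ⟨⟨Finset.prod_pos fun p hp => (hEp p hp).pos, hE3⟩, sq_prod E hEp, hE2, fun p hp => ?_⟩
    exact (hQm p (mem_powerset.1 hE1 hp)).2
  calc Real.exp (-9) / 4 * ((b : ℝ) / a) = Real.exp (-9) * ((b : ℝ) / a) / 4 := by ring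
    _ ≤ Z / 4 := by linarith
    _ ≤ ∑ E ∈ G, ∏ p ∈ E, f p := hGsum
    _ = ∑ s ∈ G.image (fun E => ∏ p ∈ E, p), (1 : ℝ) / s := himg
    _ ≤ ∑ s ∈ cof a b, (1 : ℝ) / s :=
      sum_le_sum_of_subset_of_nonneg hsub fun s _ _ => by positivity

/-- trivial upper bound -/
theorem cof_sum_le (a b : ℕ) (hb : 1 ≤ b) : ∑ s ∈ cof a b, (1 : ℝ) / s ≤ 17 * b := by
  have h1 : ∑ s ∈ cof a b, (1 : ℝ) / s ≤ ∑ s ∈ Icc (1 : ℕ) (2 ^ (16 * b)), (1 : ℝ) / (s : ℝ) :=
    sum_le_sum_of_subset_of_nonneg (filter_subset _ _) fun s _ _ => by positivity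
  have h2 := harmonic_le_one_add_log (2 ^ (16 * b))
  rw [harmonic_eq_sum_Icc] at h2
  push_cast at h2
  rw [Real.log_pow] at h2
  push_cast at h2
  have h3 : Real.log 2 ≤ 1 := by
    have := Real.log_two_lt_d9
    linarith
  have hb' : (1 : ℝ) ≤ b := by exact_mod_cast hb
  refine h1.trans ?_
  simp only [one_div]
  refine h2.trans ?_
  nlinarith

end Pool.CP
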