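import Pool.Agent.Lib.MP_c77da8_nt.CP.Low
import Pool.Agent.Lib.MP_c77da8_nt.CP.SumS

/-!
# CP-Inj: from the pairs `(s, p)` to the numbers `v`

Notation: `a = u 2^t`, `b = g a`, `X = 2^(2 L a)`, `M = 2^i M0 u ≥ 2`, `Y_s = (M X - 2)/s`.

PROOF.  For `p ∈ Pset K u t i s Y_s` put `v(s,p) = (p s + 1)/M`, so `p s + 1 = M v`, `1 ≤ v < X` (`p s ≤ M X - 2`).
For fixed `s` the map `p ↦ v` is injective (`s ≥ 1`).
(1) If `v ≥ 2^(L a)`: `p s = M v - 1 ≥ v ≥ 2^(L a)` and `s ≤ 2^(16 g a)`, so `p ≥ 2^((L - 16 g) a) > 2^(16 g a) ≥ 2^a`; so no prime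
`q ≤ 2^a` of a block divides `p` and `surv_of` gives `Surv K u t v`, hence `v ∈ GG`.
(2) Different pairs `(s, p)`, `(s', p')` with `v ≥ 2^(L a)` have different `v`: if `p s = p' s' = M v - 1` and `p = p'` then
`s = s'`; if `p ≠ p'` then `p ∣ s'`, `p ≤ s' ≤ 2^(16 g a) < p`, contradiction.
(3) For every `s` at most `2^(L a)` of the `p` have `v < 2^(L a)`, and `#(cof a b) ≤ 2^(16 g a)`:
in total at most `2^((16 g + L) a) ≤ 2^((2 L - 1) a)`.
(Formally: the set of pairs `Σ = (cof a b).sigma (Pset ..)`; split by `v < 2^(L a)`; `Finset.card_le_card_of_injOn` into `GG` resp. into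
`Icc 1 (2^(16 g a)) ×ˢ range (2^(L a))`, `(s, p) ↦ (s, v)`.)
-/

set_option autoImplicit false

namespace Pool.CP

open Finset Pool.Agent.Lib.MP_c77da8_nt.Sv

open Classical in
/-- the `v` in `[2^(L a), 2^(2 L a))`, `a = u 2^t`, that survive the sieve and have `2^i M0 v - 1 = p s`, `p` prime,
`s ∈ cof a (g a)` -/
noncomputable def GG (K u t g L i : ℕ) : Finset ℕ :=
  (Ico (2 ^ (L * (u * 2 ^ t))) (2 ^ (2 * L * (u * 2 ^ t)))).filter fun v =>
    Surv K u t v ∧ ∃ p, p.Prime ∧ ∃ s ∈ cof (u * 2 ^ t) (g * (u * 2 ^ t)), p * s + 1 = 2 ^ i * (M0 u * v)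

theorem mem_GG {K u t g L i v : ℕ} : v ∈ GG K u t g L i ↔
    (2 ^ (L * (u * 2 ^ t)) ≤ v ∧ v < 2 ^ (2 * L * (u * 2 ^ t))) ∧ Surv K u t v ∧
    ∃ p, p.Prime ∧ ∃ s ∈ cof (u * 2 ^ t) (g * (u * 2 ^ t)), p * s + 1 = 2 ^ i * (M0 u * v) := by
  classical
  unfold GG
  rw [mem_filter, mem_Ico]

theorem inj (K u t g L i : ℕ) (hu : 2 ≤ u) (hi : i < K) (hg : 1 ≤ g) (hL : 32 * g + 1 ≤ L) :
    ∑ s ∈ cof (u * 2 ^ t) (g * (u * 2 ^ t)),
      (Pset K u t i s ((2 ^ i * M0 u * 2 ^ (2 * L * (u * 2 ^ t)) - 2) / s)).card ≤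
      (GG K u t g L i).card + 2 ^ ((2 * L - 1) * (u * 2 ^ t)) := by
  classical
  obtain ⟨a, ha⟩ : ∃ a, a = u * 2 ^ t := ⟨_, rfl⟩
  have ha1 : 1 ≤ a := by
    rw [ha]
    exact Nat.mul_pos (by omega) (by positivity)
  obtain ⟨M, hM⟩ : ∃ M, M = 2 ^ i * M0 u := ⟨_, rfl⟩
  have hM0 : 0 < M := by
    rw [hM]
    exact Nat.mul_pos (by positivity) (M0_pos u)
  have hM2 : 2 ≤ M := by
    have := two_le_form (u := u) (by omega) (m := 1) le_rfl i
    rw [hM]
    simpa using this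
  rw [← ha, ← hM]
  -- the set of pairs
  set P : ℕ → Finset ℕ := fun s => Pset K u t i s ((M * 2 ^ (2 * L * a) - 2) / s) with hP
  change ∑ s ∈ cof a (g * a), (P s).card ≤ _
  rw [← card_sigma]
  set vv : (Σ _ : ℕ, ℕ) → ℕ := fun z => (z.2 * z.1 + 1) / M with hvv
  -- facts on the elements
  have key : ∀ z ∈ (cof a (g * a)).sigma P, 1 ≤ z.1 ∧ z.1 ≤ 2 ^ (16 * (g * a)) ∧ z.2.Prime ∧
      z.2 * z.1 + 1 = M * vv z ∧ vv z < 2 ^ (2 * L * a) ∧
      ∀ j, ∀ q ∈ blk u t j, z.2 % q ∉ Bp K i z.1 q := by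
    rintro ⟨s, p⟩ hz
    rw [mem_sigma] at hz
    obtain ⟨hs, hp⟩ := hz
    simp only at hs hp ⊢
    obtain ⟨⟨hs1, hs2⟩, -, -, -⟩ := mem_cof.1 hs
    rw [hP] at hp
    obtain ⟨⟨hp1, hp2⟩, hpp, hdiv, havoid⟩ := mem_Pset.1 hp
    rw [← hM] at hdiv
    have h1 : p * s + 1 = M * ((p * s + 1) / M) := (Nat.mul_div_cancel' hdiv).symm
    refine ⟨hs1, hs2, hpp, h1, ?_, havoid⟩
    have h2 : p * s ≤ M * 2 ^ (2 * L * a) - 2 := (Nat.le_div_iff_mul_le hs1).1 hp2
    have h3 : 2 ≤ M * 2 ^ (2 * L * a) :=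
      hM2.trans (Nat.le_mul_of_pos_right _ (by positivity))
    have h4 : M * ((p * s + 1) / M) < M * 2 ^ (2 * L * a) := by
      rw [← h1]
      omega
    exact Nat.lt_of_mul_lt_mul_left h4
  -- large `v`
  have big : ∀ z ∈ (cof a (g * a)).sigma P, 2 ^ (L * a) ≤ vv z → 2 ^ (16 * (g * a)) < z.2 := by
    intro z hz hv
    obtain ⟨h1, h2, h3, h4, h5, h6⟩ := key z hz
    by_contra hcon
    have hcon' := not_lt.1 hcon
    have h7 : z.2 * z.1 ≤ 2 ^ (16 * (g * a)) * 2 ^ (16 * (g * a)) := Nat.mul_le_mul hcon' h2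
    rw [← pow_add] at h7
    have h8 : 2 ^ (16 * (g * a) + 16 * (g * a)) * 2 ≤ 2 ^ (L * a) := by
      rw [← pow_succ]
      refine Nat.pow_le_pow_right (by norm_num) ?_
      calc 16 * (g * a) + 16 * (g * a) + 1 ≤ (32 * g + 1) * a := by
            have : (32 * g + 1) * a = 32 * (g * a) + a := by ring
            omega
        _ ≤ L * a := Nat.mul_le_mul_right a hL
    have h9 : 2 * vv z ≤ M * vv z := Nat.mul_le_mul_right _ hM2
    have h10 : 0 < 2 ^ (16 * (g * a) + 16 * (g * a)) := by positivity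
    omega
  have hsplit := card_filter_add_card_filter_not (s := (cof a (g * a)).sigma P)
    (fun z => 2 ^ (L * a) ≤ vv z)
  rw [← hsplit]
  refine Nat.add_le_add ?_ ?_
  · -- injection into `GG`
    refine card_le_card_of_injOn vv ?_ ?_
    · intro z hz
      rw [mem_coe, mem_filter] at hz
      obtain ⟨hz, hv⟩ := hz
      obtain ⟨h1, h2, h3, h4, h5, h6⟩ := key z hz
      have hs := (mem_sigma.1 hz).1
      rw [mem_coe, mem_GG, ← ha]
      have he : z.2 * z.1 + 1 = 2 ^ i * (M0 u * vv z) := by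
        rw [h4, hM, mul_assoc]
      refine ⟨⟨hv, h5⟩, ?_, z.2, h3, z.1, hs, he⟩
      intro j q hq
      have hq' := mem_blk.1 hq
      refine surv_of K u i z.1 z.2 (vv z) q (by omega) hq'.1 (blk_gt hq) ?_ he (h6 j q hq)
      intro hdiv
      rw [Nat.prime_dvd_prime_iff_eq hq'.1 h3] at hdiv
      have h7 := big z hz hv
      have h8 : q ≤ 2 ^ a := by
        rw [ha]
        exact blk_le hq
      have h9 : 2 ^ a ≤ 2 ^ (16 * (g * a)) := by
        refine Nat.pow_le_pow_right (by norm_num) ?_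
        calc a = 1 * a := (one_mul a).symm
          _ ≤ g * a := Nat.mul_le_mul_right a hg
          _ ≤ 16 * (g * a) := by omega
      omega
    · intro z hz z' hz' hzz
      rw [mem_coe, mem_filter] at hz hz'
      obtain ⟨hz, hv⟩ := hz
      obtain ⟨hz', hv'⟩ := hz'
      obtain ⟨h1, h2, h3, h4, h5, h6⟩ := key z hz
      obtain ⟨h1', h2', h3', h4', h5', h6'⟩ := key z' hz'
      have h7 : z.2 * z.1 = z'.2 * z'.1 := by
        have : z.2 * z.1 + 1 = z'.2 * z'.1 + 1 := by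
          rw [h4, h4', hzz]
        omega
      have hb := big z hz hv
      have hpe : z.2 = z'.2 := by
        by_contra hne
        have h8 : z.2 ∣ z'.2 * z'.1 := by
          rw [← h7]
          exact Dvd.intro _ rfl
        rcases (Nat.Prime.dvd_mul h3).1 h8 with h9 | h9
        · exact hne ((Nat.prime_dvd_prime_iff_eq h3 h3').1 h9)
        · have := Nat.le_of_dvd (by omega) h9
          omega
      have hse : z.1 = z'.1 := by
        rw [hpe] at h7
        exact Nat.eq_of_mul_eq_mul_left h3'.pos h7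
      obtain ⟨s, p⟩ := z
      obtain ⟨s', p'⟩ := z'
      simp only at hpe hse
      rw [hpe, hse]
  · -- small `v`
    have h1 : (((cof a (g * a)).sigma P).filter fun z => ¬ 2 ^ (L * a) ≤ vv z).card ≤
        ((Icc 1 (2 ^ (16 * (g * a)))) ×ˢ (range (2 ^ (L * a)))).card := by
      refine card_le_card_of_injOn (fun z => (z.1, vv z)) ?_ ?_
      · intro z hz
        rw [mem_coe, mem_filter] at hz
        obtain ⟨hz, hv⟩ := hz
        obtain ⟨h1, h2, h3, h4, h5, h6⟩ := key z hz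
        rw [mem_coe, mem_product, mem_Icc, mem_range]
        exact ⟨⟨h1, h2⟩, not_le.1 hv⟩
      · intro z hz z' hz' hzz
        rw [mem_coe, mem_filter] at hz hz'
        obtain ⟨h1, h2, h3, h4, h5, h6⟩ := key z hz.1
        obtain ⟨h1', h2', h3', h4', h5', h6'⟩ := key z' hz'.1
        obtain ⟨e1, e2⟩ : z.1 = z'.1 ∧ vv z = vv z' := ⟨congrArg Prod.fst hzz, congrArg Prod.snd hzz⟩
        have h7 : z.2 * z.1 = z'.2 * z'.1 := by
          have : z.2 * z.1 + 1 = z'.2 * z'.1 + 1 := by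
            rw [h4, h4', e2]
          omega
        rw [← e1] at h7
        have hpe : z.2 = z'.2 := Nat.eq_of_mul_eq_mul_right (by omega) h7
        obtain ⟨s, p⟩ := z
        obtain ⟨s', p'⟩ := z'
        simp only at e1 hpe
        rw [e1, hpe]
    refine h1.trans ?_
    rw [card_product, Nat.card_Icc, card_range, Nat.add_sub_cancel, ← pow_add]
    refine Nat.pow_le_pow_right (by norm_num) ?_
    have h2 : 16 * (g * a) + L * a = (16 * g + L) * a := by ring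
    rw [h2]
    exact Nat.mul_le_mul_right a (by omega)

end Pool.CP
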