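import Pool.Agent.Lib.MP_c77da8_nt.CP.SumsE
import Pool.Agent.Lib.MP_c77da8_nt.DL.GW
import Pool.Agent.Lib.MP_c77da8_nt.DL.Low
import Pool.Agent.Lib.MP_c77da8_nt.DL.Up

/-!
# CP-Model: the second moments in the models (all for `Q = Qe w (u^Th) e`, `Th = 32 CV (ℓ+1) K`)

`CV` is the constant of `V_upe` (here a hypothesis `hCV`), `K = card J`.
PROOF (compare `main_core`, `DL/Main.lean`).  `GG_sums` with `w' = 2 wD w` and the constant `2 CV`: the hypotheses are `V_lowe` (`Q = Qe w (u^Th) e`, `x = u^(2^l) ≤ u^Th`, as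
`2^l ≤ 2^ℓ ≤ K ≤ Th`; `log (u^(2^l)) = 2^l log u`) and `V_upe` (`w ≤ u`).  `hδ`: `K² ∑ x² ≤ 2 K²/w ≤ 1/100` (`sqe`, `200 K² ≤ w`).  `EP_low`: `R = u^Th`, `Y = u^(2^ℓ)`, `Y² ≤ R`
(`2^(ℓ+1) ≤ 2 K ≤ Th`), `hY`: `GG_basic`; `hM`: `16 K MM ≤ 16 K (ℓ+1) (2 CV) log² u/(2 wD) = Th log² u/(2 wD) ≤ S2 · log (u^Th)`.  `EI_up`.
-/

set_option autoImplicit false

namespace Pool.CP

open Finset Pool.DL

theorem model (CV : ℕ) (hCV1 : 1 ≤ CV)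
    (hCV : ∀ w R e x : ℕ, 12 ≤ w → w ≤ x → x ≤ R → VV (vr (Qe w R e)) (qr (Qe w R e)) x ∅ ≤ CV * Real.log x / wD w)
    (J : Type) [Fintype J] [DecidableEq J] (ℓ w u e Th : ℕ) (hℓ : 1 ≤ ℓ) (hK : 2 ^ ℓ ≤ Fintype.card J)
    (hTh : Th = 32 * CV * (ℓ + 1) * Fintype.card J) (hw : 200 * Fintype.card J ^ 2 + 12 ≤ w) (hwu : w ≤ u) :
    Real.log u / (2 * wD w) ≤ S2N (Qe w (u ^ Th) e) ℓ u ∧
    S2N (Qe w (u ^ Th) e) ℓ u ≤ 2 * CV * Real.log u / wD w ∧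
    ℓ * Real.log u / (4 * wD w) ≤ S1N (Qe w (u ^ Th) e) ℓ u ∧
    EI (qr (Qe w (u ^ Th) e)) (fun ξ : {p // p ∈ Qe w (u ^ Th) e} → Option J =>
        Lam (qr (Qe w (u ^ Th) e)) (yM (Qe w (u ^ Th) e) ℓ u Th) ξ ^ 2) ≤
      11 / 10 * S2N (Qe w (u ^ Th) e) ℓ u ^ Fintype.card J ∧
    ∀ i : J, 1 / 2 * S1N (Qe w (u ^ Th) e) ℓ u ^ 2 * S2N (Qe w (u ^ Th) e) ℓ u ^ (Fintype.card J - 1) ≤
      EP i (qr (Qe w (u ^ Th) e)) (fun ξ : {p // p ∈ Qe w (u ^ Th) e} → Option J =>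
        Lam (qr (Qe w (u ^ Th) e)) (yM (Qe w (u ^ Th) e) ℓ u Th) ξ ^ 2) := by
  obtain ⟨K, hKd⟩ : ∃ K, K = Fintype.card J := ⟨_, rfl⟩
  rw [← hKd] at hK hTh hw
  rw [← hKd]
  have hw12 : 12 ≤ w := by omega
  have hK2 : 2 ≤ K := by
    have : 2 ^ 1 ≤ 2 ^ ℓ := Nat.pow_le_pow_right (by norm_num) hℓ
    omega
  have hKKJ : KK J = (K : ℝ) := by unfold KK; rw [hKd]
  have h2T : 2 ^ (ℓ + 1) ≤ Th := by
    rw [hTh, pow_succ]
    have h1 : 1 * 1 ≤ CV * (ℓ + 1) := Nat.mul_le_mul hCV1 (by omega)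
    have h2 : K * 32 ≤ K * (32 * (CV * (ℓ + 1))) := Nat.mul_le_mul_left K (by omega)
    have h3 : 32 * CV * (ℓ + 1) * K = K * (32 * (CV * (ℓ + 1))) := by ring
    rw [h3]
    omega
  have hTh1 : 1 ≤ Th := by
    have : 0 < 2 ^ (ℓ + 1) := by positivity
    omega
  have hw1 : 1 ≤ wD w := wD_one w
  have hw0 : 0 < wD w := by linarith
  have hu0 : 0 < u := by omega
  have hu2 : 2 ≤ u := by omega
  have hur : (12 : ℝ) ≤ u := by exact_mod_cast (by omega : 12 ≤ u)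
  have hL0 : 0 < Real.log u := Real.log_pos (by linarith)
  have hlogR : Real.log ((u ^ Th : ℕ) : ℝ) = Th * Real.log u := by
    push_cast
    rw [Real.log_pow]
  have hlogp : ∀ l : ℕ, Real.log ((u ^ 2 ^ l : ℕ) : ℝ) = 2 ^ l * Real.log u := by
    intro l
    push_cast
    rw [Real.log_pow]
    push_cast
    ring
  have hxl : ∀ l ≤ ℓ, u ^ 2 ^ l ≤ u ^ Th := by
    intro l hl
    apply Nat.pow_le_pow_right hu0
    have h1 : 2 ^ l ≤ 2 ^ ℓ := Nat.pow_le_pow_right (by norm_num) hl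
    have h2 : 2 ^ ℓ ≤ 2 ^ (ℓ + 1) := Nat.pow_le_pow_right (by norm_num) (by omega)
    exact h1.trans (h2.trans h2T)
  have hux : ∀ l : ℕ, u ≤ u ^ 2 ^ l := fun l => Nat.le_self_pow (by positivity) u
  have hqv : ∀ p, 12 ≤ qr (Qe w (u ^ Th) e) p := by
    intro p
    have := ((mem_Qe w (u ^ Th) e p.1).1 p.2).2.1
    unfold qr
    exact_mod_cast (by omega : 12 ≤ p.1)
  have hv : ∀ p, 1 ≤ vr (Qe w (u ^ Th) e) p := by
    intro p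
    have := ((mem_Qe w (u ^ Th) e p.1).1 p.2).2.1
    unfold vr
    omega
  obtain ⟨hG, hG1, hG0⟩ := GG_basic (vr (Qe w (u ^ Th) e)) hv ℓ u hu2
  obtain ⟨hP2a, hP2b, hP1, hM⟩ := GG_sums (vr (Qe w (u ^ Th) e)) hv (qr (Qe w (u ^ Th) e)) hqv ℓ u (2 * CV) hu2
    (2 * wD w) (by linarith)
    (fun l hl => by
      have := V_lowe w (u ^ Th) e (u ^ 2 ^ l) hw12 (by have := hux l; omega) (hxl l hl)
      rw [hlogp l] at this
      exact this)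
    (fun l hl => by
      have h1 := hCV w (u ^ Th) e (u ^ 2 ^ l) hw12 (by have := hux l; omega) (hxl l hl)
      rw [hlogp l] at h1
      refine h1.trans (le_of_eq ?_)
      push_cast
      field_simp)
  push_cast at hP2b hM
  have hS2 : S2N (Qe w (u ^ Th) e) ℓ u =
      SS (xx (qr (Qe w (u ^ Th) e))) (fun a => GG ℓ u (vr (Qe w (u ^ Th) e)) a ^ 2) := rfl
  have hS1 : S1N (Qe w (u ^ Th) e) ℓ u =
      SS (xx (qr (Qe w (u ^ Th) e))) (GG ℓ u (vr (Qe w (u ^ Th) e))) := rfl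
  have hδ : KK J ^ 2 * ∑ p, xx (qr (Qe w (u ^ Th) e)) p ^ 2 ≤ 1 / 100 := by
    rw [hKKJ]
    have h1 := sqe w (u ^ Th) e hw12
    have hDr : (200 : ℝ) * K ^ 2 + 12 ≤ w := by exact_mod_cast hw
    have hD0 : (0 : ℝ) < w := by nlinarith
    calc (K : ℝ) ^ 2 * ∑ p, xx (qr (Qe w (u ^ Th) e)) p ^ 2 ≤ (K : ℝ) ^ 2 * (2 / (w : ℝ)) := by gcongr
      _ = 2 * (K : ℝ) ^ 2 / (w : ℝ) := by ring
      _ ≤ 1 / 100 := by
          rw [div_le_div_iff₀ hD0 (by norm_num)]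
          nlinarith [sq_nonneg (K : ℝ)]
  have hM2 : 16 * KK J * MM (vr (Qe w (u ^ Th) e)) (xx (qr (Qe w (u ^ Th) e))) (GG ℓ u (vr (Qe w (u ^ Th) e))) ≤
      SS (xx (qr (Qe w (u ^ Th) e))) (fun a => GG ℓ u (vr (Qe w (u ^ Th) e)) a ^ 2) *
        Real.log ((u ^ Th : ℕ) : ℝ) := by
    rw [hlogR, hKKJ]
    have hTr : (Th : ℝ) = 32 * CV * (ℓ + 1) * K := by rw [hTh]; push_cast; ring
    calc 16 * (K : ℝ) * MM (vr (Qe w (u ^ Th) e)) (xx (qr (Qe w (u ^ Th) e))) (GG ℓ u (vr (Qe w (u ^ Th) e))) ≤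
        16 * (K : ℝ) * ((ℓ + 1) * (2 * CV) * Real.log u ^ 2 / (2 * wD w)) := by gcongr
      _ = (Real.log u / (2 * wD w)) * (Th * Real.log u) := by
          rw [hTr]
          ring
      _ ≤ SS (xx (qr (Qe w (u ^ Th) e))) (fun a => GG ℓ u (vr (Qe w (u ^ Th) e)) a ^ 2) * (Th * Real.log u) := by
          gcongr
  have hYR : (u ^ 2 ^ ℓ) ^ 2 ≤ u ^ Th := by
    rw [← pow_mul]
    apply Nat.pow_le_pow_right hu0
    rw [← pow_succ]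
    exact h2T
  have hR2 : 2 ≤ u ^ Th := hu2.trans (Nat.le_self_pow (by omega) u)
  refine ⟨?_, ?_, ?_, ?_, ?_⟩
  · rw [hS2]
    exact hP2a
  · rw [hS2]
    refine hP2b.trans (le_of_eq ?_)
    field_simp
  · rw [hS1]
    refine le_trans (le_of_eq ?_) hP1
    ring
  · have h2 := EI_up (J := J) (vr (Qe w (u ^ Th) e)) hv (qr (Qe w (u ^ Th) e)) hqv (u ^ Th)
      (GG ℓ u (vr (Qe w (u ^ Th) e))) hG hδ
    rw [← hKd] at h2
    exact h2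
  · intro i
    have hEl := EP_low i (vr (Qe w (u ^ Th) e)) hv (qr (Qe w (u ^ Th) e)) hqv (u ^ Th) (u ^ 2 ^ ℓ)
      (GG ℓ u (vr (Qe w (u ^ Th) e))) hG hG0 hYR hR2 hδ hM2
    rw [← hKd] at hEl
    exact hEl

end Pool.CP
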