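import Pool.Agent.Lib.MP_c77da8_nt.CP.TrI
import Pool.Agent.Lib.MP_c77da8_nt.CP.ZLam
import Pool.Agent.Lib.MP_c77da8_nt.CP.Model

/-!
# CP-IntN: the sum of the weight over the integers

Notation: `Q = Qe w (u^Th) e`, `N ≥ u^(10 Th)`.
PROOF.  Error: `tr_intq` (`c0 = fun _ => none`; `le c0 ξ` always holds) with the error `(∑ |lam|)² ≤ u^(2 Th) Z⁶` (`lam_sumQ`), `Z ≤ (C log (u^Th))^K` (`ZQ_le`, `wD w ≥ 1`); so it is
`≤ u^(2Th) (C Th log u)^(6K) ≤ N/20` for `u ≥ u0` (`N ≥ u^(10 Th)`, `Th ≥ 32`).  `S2N ≥ log u/(2 wD w) ≥ 1` for `u ≥ u0` (`model`; `wD w ≤ C log w` (`wD_le`), `w ≤ log u`).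
Main term: `model`: `EI ≤ (11/10) S2N^K`.
-/

set_option autoImplicit false

namespace Pool.CP

open Finset Pool.DL

private theorem IntN_ev1 (K Th : ℕ) (C2 : ℝ) (hK : 1 ≤ K) (hTh : 1 ≤ Th) (hC2 : 1 ≤ C2) : ∃ u1 : ℕ, ∀ u ≥ u1,
    (K : ℝ) * (C2 * (Th * Real.log u)) ^ (6 * K) ≤ u := by
  have hK0 : (0 : ℝ) < K := by exact_mod_cast hK
  have hT0 : (0 : ℝ) < Th := by exact_mod_cast hTh
  have hCT : 0 < C2 * (Th : ℝ) := mul_pos (by linarith) hT0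
  have hD : 0 < (K : ℝ) * (C2 * (Th : ℝ)) ^ (6 * K) := mul_pos hK0 (pow_pos hCT _)
  have hc : 0 < 1 / ((K : ℝ) * (C2 * (Th : ℝ)) ^ (6 * K)) := div_pos one_pos hD
  have h1 := (Real.isLittleO_pow_log_id_atTop (n := 6 * K)).def hc
  have h2 := (tendsto_natCast_atTop_atTop (R := ℝ)).eventually h1
  obtain ⟨N0, hN0⟩ := Filter.eventually_atTop.1 h2
  refine ⟨max N0 1, fun u hu => ?_⟩
  have hu1 : 1 ≤ u := (le_max_right _ _).trans hu
  have hu1' : (1 : ℝ) ≤ u := by exact_mod_cast hu1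
  have hlog : 0 ≤ Real.log (u : ℝ) := Real.log_nonneg hu1'
  have h3 := hN0 u ((le_max_left _ _).trans hu)
  simp only [id_eq, Real.norm_eq_abs] at h3
  rw [abs_of_nonneg (pow_nonneg hlog _), abs_of_nonneg (by linarith : (0 : ℝ) ≤ u)] at h3
  calc (K : ℝ) * (C2 * (Th * Real.log u)) ^ (6 * K) = ((K : ℝ) * (C2 * (Th : ℝ)) ^ (6 * K)) * Real.log u ^ (6 * K) := by
        rw [← mul_assoc C2, mul_pow (C2 * (Th : ℝ))]
        ring
    _ ≤ ((K : ℝ) * (C2 * (Th : ℝ)) ^ (6 * K)) * (1 / ((K : ℝ) * (C2 * (Th : ℝ)) ^ (6 * K)) * u) :=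
        mul_le_mul_of_nonneg_left h3 hD.le
    _ = u := by
        field_simp

private theorem IntN_ev2 (C3 : ℝ) (hC3 : 0 < C3) : ∃ u2 : ℕ, ∀ u ≥ u2, 1 ≤ Real.log u ∧
    ∀ w : ℕ, 2 ≤ w → (w : ℝ) ≤ Real.log u → 2 * C3 * Real.log w ≤ Real.log u := by
  have h1 := (Real.isLittleO_log_id_atTop).def (show (0 : ℝ) < 1 / (2 * C3) by positivity)
  have ht : Filter.Tendsto (fun u : ℕ => Real.log (u : ℝ)) Filter.atTop Filter.atTop :=
    Real.tendsto_log_atTop.comp tendsto_natCast_atTop_atTop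
  have h2 := ht.eventually h1
  have h3 := ht.eventually (Filter.eventually_ge_atTop (1 : ℝ))
  obtain ⟨N0, hN0⟩ := Filter.eventually_atTop.1 (h2.and h3)
  refine ⟨N0, fun u hu => ⟨(hN0 u hu).2, fun w hw hwu => ?_⟩⟩
  have h4 := (hN0 u hu).1
  have h5 := (hN0 u hu).2
  simp only [id_eq, Real.norm_eq_abs] at h4
  have hw0 : (0 : ℝ) < w := by exact_mod_cast (by omega : 0 < w)
  have h6 : Real.log w ≤ Real.log (Real.log u) := Real.log_le_log hw0 hwu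
  have h7 : Real.log (Real.log u) ≤ 1 / (2 * C3) * Real.log u := by
    refine (le_abs_self _).trans (h4.trans_eq ?_)
    rw [abs_of_nonneg (by linarith : (0 : ℝ) ≤ Real.log u)]
  calc 2 * C3 * Real.log w ≤ 2 * C3 * (1 / (2 * C3) * Real.log u) :=
        mul_le_mul_of_nonneg_left (h6.trans h7) (by positivity)
    _ = Real.log u := by field_simp

theorem int_N (CV : ℕ) (hCV1 : 1 ≤ CV)
    (hCV : ∀ w R e x : ℕ, 12 ≤ w → w ≤ x → x ≤ R → VV (vr (Qe w R e)) (qr (Qe w R e)) x ∅ ≤ CV * Real.log x / wD w)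
    (K ℓ Th : ℕ) (hℓ : 1 ≤ ℓ) (hK : 2 ^ ℓ ≤ K) (hTh : Th = 32 * CV * (ℓ + 1) * K) : ∃ u0 : ℕ, ∀ u ≥ u0,
    ∀ (J : Type) [Fintype J] [DecidableEq J], Fintype.card J = K → ∀ (w e N : ℕ) (a : J → ℕ),
      200 * K ^ 2 + 12 ≤ w → (w : ℝ) ≤ Real.log u → u ^ (10 * Th) ≤ N → FormsQ (Qe w (u ^ Th) e) a →
      1 ≤ S2N (Qe w (u ^ Th) e) ℓ u ∧
      ∑ n ∈ Ico N (2 * N), LN a (Qe w (u ^ Th) e) ℓ u Th n ≤ 6 / 5 * N * S2N (Qe w (u ^ Th) e) ℓ u ^ K := by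
  obtain ⟨C2, hC2, hZQ⟩ := ZQ_le
  obtain ⟨C3, hC3, hwD⟩ := wD_le
  have hK1 : 1 ≤ K := le_trans Nat.one_le_two_pow hK
  have hTh1 : 1 ≤ Th := by
    rw [hTh]
    exact Nat.succ_le_of_lt (by positivity)
  obtain ⟨u1, hu1⟩ := IntN_ev1 K Th C2 hK1 hTh1 hC2
  obtain ⟨u2, hu2⟩ := IntN_ev2 C3 hC3
  refine ⟨max (max u1 u2) 20, fun u hu J _ _ hJ w e N a hw hwu hN hF => ?_⟩
  have huu1 : u1 ≤ u := ((le_max_left _ _).trans (le_max_left _ _)).trans hu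
  have huu2 : u2 ≤ u := ((le_max_right _ _).trans (le_max_left _ _)).trans hu
  have hu20 : 20 ≤ u := (le_max_right _ _).trans hu
  have hE1 := hu1 u huu1
  obtain ⟨hlog1, hE2⟩ := hu2 u huu2
  have hur20 : (20 : ℝ) ≤ u := by exact_mod_cast hu20
  have hur : (1 : ℝ) ≤ u := by linarith
  have hur0 : (0 : ℝ) < u := by linarith
  have hw12 : 12 ≤ w := by omega
  have hw2 : 2 ≤ w := by omega
  have hwle : w ≤ u := by
    have h1 : Real.log (u : ℝ) ≤ u := (Real.log_le_sub_one_of_pos hur0).trans (by linarith)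
    exact_mod_cast hwu.trans h1
  set Q : Finset ℕ := Qe w (u ^ Th) e with hQdef
  have hQ12 : ∀ p ∈ Q, 12 ≤ p := hF.big
  have hwD1 : 1 ≤ wD w := wD_one w
  have hmod := model CV hCV1 hCV J ℓ w u e Th hℓ (by rw [hJ]; exact hK) (by rw [hJ]; exact hTh)
    (by rw [hJ]; exact hw) hwle
  rw [← hQdef, hJ] at hmod
  obtain ⟨hm1, -, -, hm4, -⟩ := hmod
  have hS1 : 1 ≤ S2N Q ℓ u := by
    refine le_trans ?_ hm1
    rw [le_div_iff₀ (by linarith)]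
    have h2 := hwD w hw2
    have h3 := hE2 w hw2 hwu
    nlinarith [h2, h3]
  refine ⟨hS1, ?_⟩
  have hSK : 1 ≤ S2N Q ℓ u ^ K := one_le_pow₀ hS1
  have hN1 : 1 ≤ N := le_trans (Nat.one_le_pow _ _ (by omega)) hN
  have hNr : ((u : ℝ)) ^ (10 * Th) ≤ N := by exact_mod_cast hN
  -- the error term
  set Er : ℝ := (∑ d : {p // p ∈ Q} → Option J, |lam (qr Q) (yM Q ℓ u Th) d|) ^ 2 with hEr
  have hZ0 : 0 ≤ ∏ p : {p // p ∈ Q}, (1 + KK J * xx (qr Q) p) := by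
    refine prod_nonneg fun p _ => ?_
    have h1 : 12 ≤ qr Q p := by
      have := hQ12 p.1 p.2
      unfold qr
      exact_mod_cast this
    have h2 : 0 < xx (qr Q) p := by
      unfold xx
      exact div_pos one_pos (by linarith)
    have h3 : 0 ≤ KK J := by
      unfold KK
      exact Nat.cast_nonneg _
    have := mul_nonneg h3 h2.le
    linarith
  have hRge : w ≤ u ^ Th := hwle.trans (Nat.le_self_pow (by omega) u)
  have hZ : ∏ p : {p // p ∈ Q}, (1 + KK J * xx (qr Q) p) ≤ (C2 * (Th * Real.log u)) ^ K := by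
    have h1 := hZQ J w (u ^ Th) e hw12 hRge
    rw [hJ] at h1
    refine h1.trans ?_
    have h2 : Real.log ((u ^ Th : ℕ) : ℝ) = Th * Real.log u := by
      rw [Nat.cast_pow, Real.log_pow]
    rw [h2]
    have h3 : 0 ≤ C2 * (Th * Real.log u) := by positivity
    refine pow_le_pow_left₀ (div_nonneg h3 (by linarith)) ?_ _
    exact div_le_self h3 hwD1
  have hErle : Er ≤ (u : ℝ) ^ (2 * Th) * (C2 * (Th * Real.log u)) ^ (6 * K) := by
    have h1 := lam_sumQ (J := J) Q hQ12 ℓ u Th (by omega)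
    refine h1.trans ?_
    have h2 : (∏ p : {p // p ∈ Q}, (1 + KK J * xx (qr Q) p)) ^ 6 ≤ ((C2 * (Th * Real.log u)) ^ K) ^ 6 :=
      pow_le_pow_left₀ hZ0 hZ 6
    calc ((u : ℝ) ^ Th) ^ 2 * (∏ p : {p // p ∈ Q}, (1 + KK J * xx (qr Q) p)) ^ 6
        ≤ ((u : ℝ) ^ Th) ^ 2 * ((C2 * (Th * Real.log u)) ^ K) ^ 6 := mul_le_mul_of_nonneg_left h2 (by positivity)
      _ = (u : ℝ) ^ (2 * Th) * (C2 * (Th * Real.log u)) ^ (6 * K) := by
          rw [← pow_mul, ← pow_mul, mul_comm Th 2, mul_comm K 6]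
  have hEr0 : 0 ≤ Er := by positivity
  have hK1' : (1 : ℝ) ≤ K := by exact_mod_cast hK1
  have hErtot : Er ≤ 1 / 20 * N := by
    have h0 : (C2 * (Th * Real.log u)) ^ (6 * K) ≤ u := by
      refine le_trans ?_ hE1
      exact le_mul_of_one_le_left (by positivity) hK1'
    have h1 : Er ≤ (u : ℝ) ^ (2 * Th + 1) := by
      calc Er ≤ (u : ℝ) ^ (2 * Th) * (C2 * (Th * Real.log u)) ^ (6 * K) := hErle
        _ ≤ (u : ℝ) ^ (2 * Th) * u := mul_le_mul_of_nonneg_left h0 (by positivity)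
        _ = (u : ℝ) ^ (2 * Th + 1) := by ring
    have h2 : (u : ℝ) ^ (2 * Th + 1) * 20 ≤ N := by
      calc (u : ℝ) ^ (2 * Th + 1) * 20 ≤ (u : ℝ) ^ (2 * Th + 1) * u :=
            mul_le_mul_of_nonneg_left hur20 (by positivity)
        _ = (u : ℝ) ^ (2 * Th + 2) := by ring
        _ ≤ (u : ℝ) ^ (10 * Th) := pow_le_pow_right₀ hur (by omega)
        _ ≤ N := hNr
    linarith
  -- the transfer
  have h1 := tr_intq Q a hF N hN1 (yM Q ℓ u Th) (fun _ => none)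
  have hle : ∀ ξ : {p // p ∈ Q} → Option J, le (fun _ => none) ξ := fun ξ p => Or.inl rfl
  simp only [hle, if_true] at h1
  have h3 := (abs_le.1 h1).2
  have h4 : ∑ n ∈ Ico N (2 * N), LN a Q ℓ u Th n =
      ∑ n ∈ Ico N (2 * N), Lam (qr Q) (yM Q ℓ u Th) (colq a Q n) ^ 2 := rfl
  rw [h4]
  have hN0 : (0 : ℝ) ≤ N := Nat.cast_nonneg _
  have h5 : (N : ℝ) * EI (qr Q) (fun ξ => Lam (qr Q) (yM Q ℓ u Th) ξ ^ 2) ≤
      N * (11 / 10 * S2N Q ℓ u ^ K) := mul_le_mul_of_nonneg_left hm4 hN0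
  have h6 : (N : ℝ) * 1 ≤ N * S2N Q ℓ u ^ K := mul_le_mul_of_nonneg_left hSK hN0
  have h7 : ∑ n ∈ Ico N (2 * N), Lam (qr Q) (yM Q ℓ u Th) (colq a Q n) ^ 2 -
      N * EI (qr Q) (fun ξ => Lam (qr Q) (yM Q ℓ u Th) ξ ^ 2) ≤ Er := h3
  linarith

end Pool.CP
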