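import Pool.Agent.Lib.MP_c77da8_nt.CP.Window
import Pool.Agent.Lib.MP_c77da8_nt.CP.Model

/-!
# CP-RoughM: the mass of the colourings with a small coloured prime, in the integer model

PROOF.  `x = xx (qr Q)`, `K = card J`, `p = p0.1 ∈ (w, v]`.  `cond_up`, `jump_up` (`R = u^Th`; `B = C_W log p/wD w` from `window K`, `KK J = K`), `jump_S`:
`EI ≤ (1/p) Π (4 (ℓ+2) C_W (log p/wD w) (Π S2)^(K-1) + 2 K² x_p² (Π S2)^K)`, `Π = ∏ (1 + K x²) ≤ exp (2 K/w) ≤ 2` (`sqe`, `200 K² + 12 ≤ w`), `S2 = S2N Q ℓ u`.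
`1/wD w ≤ 2 S2/log u` (first part of `model`), `x_p ≤ 2/p`, so `EI ≤ C (log p/(p log u) + 1/p²) S2^K`.
Sum over `p0` with `p ≤ v` (and over `j`): `∑_(p ≤ v) log p/p ≤ log v + log 4 ≤ 3 log v` (`Pool.Agent.Lib.MP_c77da8_nt.Mert.log_sum_le`, `v ≥ w ≥ 12`; if `v ≤ w` the sum is
empty), `∑_(p > w) 1/p² ≤ 1/w`.
-/

set_option autoImplicit false

namespace Pool.CP

open Finset Pool.DL

private theorem rm_prod {P : Type} [Fintype P] [DecidableEq P] (x : P → ℝ) (K : ℝ) (hK : 0 ≤ K)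
    (w : ℝ) (hs : ∑ p, x p ^ 2 ≤ 2 / w) (hw : 0 < w) (hKw : 200 * K ^ 2 + 12 ≤ w) (hK1 : 1 ≤ K) :
    ∏ p, (1 + K * x p ^ 2) ≤ 2 := by
  have h1 : ∏ p, (1 + K * x p ^ 2) ≤ ∏ p, Real.exp (K * x p ^ 2) := by
    apply prod_le_prod
    · intro p _
      positivity
    · intro p _
      have := Real.add_one_le_exp (K * x p ^ 2)
      linarith
  rw [← Real.exp_sum, ← mul_sum] at h1
  have h2 : K * ∑ p, x p ^ 2 ≤ 1 / 100 := by
    have h3 : K * ∑ p, x p ^ 2 ≤ K * (2 / w) := mul_le_mul_of_nonneg_left hs hK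
    have h4 : K * (2 / w) ≤ 1 / 100 := by
      rw [mul_div_assoc', div_le_iff₀ hw]
      nlinarith
    linarith
  have h5 : Real.exp (K * ∑ p, x p ^ 2) ≤ Real.exp (1 / 100) := Real.exp_le_exp.2 h2
  have h6 : Real.exp (1 / 100 : ℝ) ≤ 2 := by
    have := Real.exp_one_lt_d9
    have h7 : Real.exp (1 / 100 : ℝ) ≤ 1 + 1 / 100 + (1 / 100) ^ 2 := by
      have := Real.abs_exp_sub_one_sub_id_le (x := (1 / 100 : ℝ)) (by norm_num [abs_of_pos])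
      have h8 := (abs_le.1 this).2
      linarith
    norm_num at h7 ⊢
    linarith
  linarith

private theorem rm_xx_pos {P : Type} (q : P → ℝ) (hq : ∀ p, 12 ≤ q p) (p : P) : 0 < xx q p := by
  unfold xx
  have := hq p
  apply one_div_pos.2
  linarith

private theorem rm_core (P J : Type) [Fintype P] [DecidableEq P] [Fintype J] [DecidableEq J] (v : P → ℕ) (hv : ∀ p, 1 ≤ v p)
    (q : P → ℝ) (hq : ∀ p, 12 ≤ q p) (R ℓ u : ℕ) (hu : 2 ≤ u) (p0 : P) (j : J) (W CW lp lu : ℝ) (hW0 : 0 < W) (hCW : 0 < CW)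
    (hlp : 0 ≤ lp) (hlu : 0 < lu) (hJ : 1 ≤ Fintype.card J)
    (hW : ∀ U : ℝ, Wd v (fun p => xx q p * (1 + KK J * xx q p)) (v p0) U ≤ CW * lp / W)
    (hPi : ∏ p, (1 + KK J * xx q p ^ 2) ≤ 2) (S2 : ℝ) (hS2 : S2 = SS (xx q) (fun a => GG ℓ u v a ^ 2)) (hS : lu / (2 * W) ≤ S2) :
    EI q (fun ξ : P → Option J => if ξ p0 = some j then Lam q (yy v R (GG ℓ u v)) ξ ^ 2 else 0) ≤
      (8 * (ℓ + 2) * CW * 2 ^ Fintype.card J * (lp / q p0) / lu + 16 * KK J ^ 2 * 2 ^ Fintype.card J * xx q p0 ^ 2) * S2 ^ Fintype.card J := by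
  obtain ⟨K, hKd⟩ : ∃ K, K = Fintype.card J := ⟨_, rfl⟩
  obtain ⟨k, hk⟩ : ∃ k, K = k + 1 := ⟨K - 1, by omega⟩
  have hq0 : 0 < q p0 := by have := hq p0; linarith
  have hx : ∀ p, 0 < xx q p := fun p => rm_xx_pos q hq p
  have hKK : 0 ≤ KK J := by
    unfold KK
    positivity
  have hS20 : 0 < S2 := lt_of_lt_of_le (by positivity) hS
  obtain ⟨Pi, hPid⟩ : ∃ Pi : ℝ, Pi = ∏ p, (1 + KK J * xx q p ^ 2) := ⟨_, rfl⟩
  have hPi0 : 0 ≤ Pi := by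
    rw [hPid]
    apply prod_nonneg
    intro p _
    have := hx p
    positivity
  obtain ⟨S, hSd⟩ : ∃ S : ℝ, S = SS (fun p => xx q p * (1 + KK J * xx q p)) (fun a => GG ℓ u v a ^ 2) := ⟨_, rfl⟩
  have hSn : 0 ≤ S := by
    rw [hSd]
    unfold SS
    apply sum_nonneg
    intro a _
    apply mul_nonneg (sq_nonneg _)
    apply prod_nonneg
    intro p _
    have := hx p
    positivity
  have hS1 := jump_S (J := J) v hv q hq ℓ u hu
  rw [← hSd, ← hPid, ← hS2] at hS1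
  have hS3 : S ≤ 2 * S2 := le_trans hS1 (mul_le_mul_of_nonneg_right (by rw [hPid]; exact hPi) hS20.le)
  have hc := cond_up q hq (yy v R (GG ℓ u v)) p0 j
  have hB : 0 ≤ CW * lp / W := by positivity
  have hj := jump_up v hv q hq R ℓ u hu p0 j (CW * lp / W) hB hW
  rw [← hPid] at hc
  rw [← hSd, ← hKd] at hj
  rw [← hKd]
  obtain ⟨T, hT⟩ : ∃ T : ℝ, T = ∑ t : P → Option J, cc q (yy v R (GG ℓ u v)) p0 j t ^ 2 * cprod (fun p => xx q p * (1 + KK J * xx q p)) t := ⟨_, rfl⟩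
  rw [← hT] at hc hj
  have hT0 : 0 ≤ T := by
    rw [hT]
    apply sum_nonneg
    intro t _
    apply mul_nonneg (sq_nonneg _)
    unfold cprod
    apply prod_nonneg
    intro p _
    split_ifs
    · norm_num
    · have := hx p
      positivity
  have hSk : S ^ (K - 1) ≤ 2 ^ k * S2 ^ k := by
    rw [hk, Nat.add_sub_cancel, ← mul_pow]
    exact pow_le_pow_left₀ hSn hS3 k
  have hSK : S ^ K ≤ 2 ^ K * S2 ^ K := by
    rw [← mul_pow]
    exact pow_le_pow_left₀ hSn hS3 K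
  -- the factor 1 / W
  have hinv : 1 / W ≤ 2 * S2 / lu := by
    rw [div_le_div_iff₀ hW0 hlu]
    rw [div_le_iff₀ (by positivity)] at hS
    linarith
  have hT1 : T ≤ 4 * (ℓ + 2) * (CW * lp * (2 * S2 / lu)) * (2 ^ k * S2 ^ k) + 2 * KK J ^ 2 * xx q p0 ^ 2 * (2 ^ K * S2 ^ K) := by
    refine le_trans hj (add_le_add ?_ ?_)
    · have h1 : CW * lp / W ≤ CW * lp * (2 * S2 / lu) := by
        rw [div_eq_mul_one_div]
        exact mul_le_mul_of_nonneg_left hinv (by positivity)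
      apply mul_le_mul _ hSk (by positivity) (by positivity)
      apply mul_le_mul_of_nonneg_left h1 (by positivity)
    · exact mul_le_mul_of_nonneg_left hSK (by positivity)
  have hT2 : T ≤ (4 * (ℓ + 2) * CW * 2 ^ K * lp / lu + 2 * KK J ^ 2 * 2 ^ K * xx q p0 ^ 2) * S2 ^ K := by
    refine le_trans hT1 (le_of_eq ?_)
    rw [hk, pow_succ, pow_succ]
    ring
  have hfin : 1 / q p0 * (Pi * T) ≤ 1 / q p0 * (2 * ((4 * (ℓ + 2) * CW * 2 ^ K * lp / lu + 2 * KK J ^ 2 * 2 ^ K * xx q p0 ^ 2) * S2 ^ K)) := by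
    apply mul_le_mul_of_nonneg_left _ (by positivity)
    exact mul_le_mul (by rw [hPid]; exact hPi) hT2 hT0 (by norm_num)
  refine le_trans hc (le_trans hfin ?_)
  have e1 : 1 / q p0 * (2 * ((4 * (ℓ + 2) * CW * 2 ^ K * lp / lu + 2 * KK J ^ 2 * 2 ^ K * xx q p0 ^ 2) * S2 ^ K)) =
      (8 * (ℓ + 2) * CW * 2 ^ K * (lp / q p0) / lu) * S2 ^ K + (4 * KK J ^ 2 * 2 ^ K * xx q p0 ^ 2) * (1 / q p0) * S2 ^ K := by
    ring
  rw [e1, add_mul]
  apply add_le_add le_rfl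
  apply mul_le_mul_of_nonneg_right _ (by positivity)
  have h1q : 1 / q p0 ≤ 1 := by
    rw [div_le_one hq0]
    have := hq p0
    linarith
  have h2q : 0 ≤ KK J ^ 2 * 2 ^ K * xx q p0 ^ 2 := by
    have := hx p0
    positivity
  have h3q : 4 * KK J ^ 2 * 2 ^ K * xx q p0 ^ 2 * (1 / q p0) ≤ 4 * KK J ^ 2 * 2 ^ K * xx q p0 ^ 2 * 1 :=
    mul_le_mul_of_nonneg_left h1q (by nlinarith)
  nlinarith

theorem rough_model (CV : ℕ) (hCV1 : 1 ≤ CV)
    (hCV : ∀ w R e x : ℕ, 12 ≤ w → w ≤ x → x ≤ R → VV (vr (Qe w R e)) (qr (Qe w R e)) x ∅ ≤ CV * Real.log x / wD w)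
    (K ℓ : ℕ) (hℓ : 1 ≤ ℓ) (hK : 2 ^ ℓ ≤ K) : ∃ C : ℝ, 0 < C ∧
    ∀ (J : Type) [Fintype J] [DecidableEq J] (w u e Th v : ℕ), Fintype.card J = K →
      Th = 32 * CV * (ℓ + 1) * K → 200 * K ^ 2 + 12 ≤ w → w ≤ u → v ≤ u →
      ∑ p0 ∈ univ.filter (fun p0 : {p // p ∈ Qe w (u ^ Th) e} => p0.1 ≤ v), ∑ j : J,
        EI (qr (Qe w (u ^ Th) e)) (fun ξ : {p // p ∈ Qe w (u ^ Th) e} → Option J =>
          if ξ p0 = some j then Lam (qr (Qe w (u ^ Th) e)) (yM (Qe w (u ^ Th) e) ℓ u Th) ξ ^ 2 else 0) ≤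
        C * (Real.log v / Real.log u + 1 / w) * S2N (Qe w (u ^ Th) e) ℓ u ^ K := by
  obtain ⟨CW, hCW, hwin⟩ := window K
  have hK1 : 1 ≤ K := le_trans Nat.one_le_two_pow hK
  have hKr : (1 : ℝ) ≤ K := by exact_mod_cast hK1
  refine ⟨(K : ℝ) * 2 ^ K * (24 * (ℓ + 2) * CW + 32 * K ^ 2), by positivity, ?_⟩
  intro J _ _ w u e Th v hJ hTh hw hwu hvu
  have hw12 : 12 ≤ w := by omega
  have hu2 : 2 ≤ u := by omega
  have hwr : (12 : ℝ) ≤ w := by exact_mod_cast hw12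
  have hmod := model CV hCV1 hCV J ℓ w u e Th hℓ (by rw [hJ]; exact hK) (by rw [hJ]; exact hTh) (by rw [hJ]; exact hw) hwu
  have hS := hmod.1
  obtain ⟨Q, hQ⟩ : ∃ Q, Q = Qe w (u ^ Th) e := ⟨_, rfl⟩
  have hsq := sqe w (u ^ Th) e hw12
  have hwin' : ∀ p : ℕ, w < p → ∀ U : ℝ,
      Wd (vr (Qe w (u ^ Th) e)) (fun q => xx (qr (Qe w (u ^ Th) e)) q * (1 + K * xx (qr (Qe w (u ^ Th) e)) q)) p U ≤ CW * Real.log p / wD w :=
    fun p hp U => hwin w (u ^ Th) e hw12 (by nlinarith) p hp U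
  have hQmem : ∀ p ∈ Q, p.Prime ∧ w < p ∧ p ≤ u ^ Th ∧ p ≠ e := by
    intro p hp
    rw [hQ, mem_Qe] at hp
    exact hp
  rw [← hQ] at hS hsq hwin' ⊢
  clear hmod
  have hKKJ : KK J = (K : ℝ) := by
    unfold KK
    rw [hJ]
  have hq12 : ∀ p, (12 : ℝ) ≤ qr Q p := by
    intro p
    unfold qr
    have h1 := (hQmem p.1 p.2).2.1
    have h2 : 12 ≤ p.1 := by omega
    exact_mod_cast h2
  have hv1 : ∀ p, 1 ≤ vr Q p := by
    intro p
    unfold vr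
    exact (hQmem p.1 p.2).1.one_lt.le
  have hlu : 0 < Real.log u := Real.log_pos (by exact_mod_cast (by omega : 1 < u))
  have hw1 : 1 ≤ wD w := wD_one w
  have hxx : ∀ p, 0 < xx (qr Q) p := fun p => rm_xx_pos (qr Q) hq12 p
  have hS20 : 0 < S2N Q ℓ u := lt_of_lt_of_le (by positivity) hS
  have hPi : ∏ p, (1 + KK J * xx (qr Q) p ^ 2) ≤ 2 := by
    rw [hKKJ]
    refine rm_prod (fun p => xx (qr Q) p) (K : ℝ) (by positivity) (w : ℝ) hsq (by linarith) ?_ hKr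
    exact_mod_cast hw
  have hterm : ∀ p0 : {p // p ∈ Q}, ∀ j : J,
      EI (qr Q) (fun ξ : {p // p ∈ Q} → Option J => if ξ p0 = some j then Lam (qr Q) (yM Q ℓ u Th) ξ ^ 2 else 0) ≤
        (8 * (ℓ + 2) * CW * 2 ^ K * (Real.log p0.1 / p0.1) / Real.log u + 16 * (K : ℝ) ^ 2 * 2 ^ K * xx (qr Q) p0 ^ 2) * S2N Q ℓ u ^ K := by
    intro p0 j
    have hlp : 0 ≤ Real.log (p0.1 : ℝ) := Real.log_natCast_nonneg _
    have h := rm_core {p // p ∈ Q} J (vr Q) hv1 (qr Q) hq12 (u ^ Th) ℓ u hu2 p0 j (wD w) CW (Real.log p0.1) (Real.log u) (by linarith) hCW hlp hlu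
      (by rw [hJ]; exact hK1) (fun U => by
        rw [hKKJ]
        exact hwin' (vr Q p0) (hQmem p0.1 p0.2).2.1 U) hPi (S2N Q ℓ u) rfl hS
    rw [hJ, hKKJ] at h
    exact h
  -- empty case
  rcases Nat.lt_or_ge w v with hwv | hwv
  swap
  · have hemp : univ.filter (fun p0 : {p // p ∈ Q} => p0.1 ≤ v) = ∅ := by
      rw [filter_eq_empty_iff]
      intro p0 _ hp
      have := (hQmem p0.1 p0.2).2.1
      omega
    rw [hemp, sum_empty]
    have : 0 ≤ Real.log v := Real.log_natCast_nonneg _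
    positivity
  -- the sums
  have hv1' : 1 ≤ v := by omega
  have hlog := Pool.Agent.Lib.MP_c77da8_nt.Mert.log_sum_le v hv1'
  have hlogv : Real.log 4 ≤ Real.log v := Real.log_le_log (by norm_num) (by exact_mod_cast (by omega : 4 ≤ v))
  have hsum1 : ∑ p0 ∈ univ.filter (fun p0 : {p // p ∈ Q} => p0.1 ≤ v), Real.log p0.1 / p0.1 ≤ 3 * Real.log v := by
    have h1 : ∑ p0 ∈ univ.filter (fun p0 : {p // p ∈ Q} => p0.1 ≤ v), Real.log (p0.1 : ℝ) / (p0.1 : ℝ) =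
        ∑ p ∈ ((univ.filter (fun p0 : {p // p ∈ Q} => p0.1 ≤ v)).image (fun p0 => p0.1) : Finset ℕ), Real.log (p : ℝ) / (p : ℝ) := by
      rw [sum_image]
      intro a _ b _ hab
      exact Subtype.ext hab
    have h2 : ∑ p ∈ ((univ.filter (fun p0 : {p // p ∈ Q} => p0.1 ≤ v)).image (fun p0 => p0.1) : Finset ℕ), Real.log (p : ℝ) / (p : ℝ) ≤
        ∑ p ∈ Nat.primesLE v, Real.log p / p := by
      apply sum_le_sum_of_subset_of_nonneg
      · intro p hp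
        rw [mem_image] at hp
        obtain ⟨p0, hp0, rfl⟩ := hp
        rw [mem_filter] at hp0
        rw [Nat.mem_primesLE]
        exact ⟨hp0.2, (hQmem p0.1 p0.2).1⟩
      · intro p _ _
        have := Real.log_natCast_nonneg p
        positivity
    have hlv : 0 ≤ Real.log v := Real.log_natCast_nonneg _
    rw [h1]
    linarith
  have hsum2 : ∑ p0 ∈ univ.filter (fun p0 : {p // p ∈ Q} => p0.1 ≤ v), xx (qr Q) p0 ^ 2 ≤ 2 / (w : ℝ) := by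
    refine le_trans (sum_le_sum_of_subset_of_nonneg (filter_subset _ _) ?_) hsq
    intro p _ _
    positivity
  have hbig : ∑ p0 ∈ univ.filter (fun p0 : {p // p ∈ Q} => p0.1 ≤ v), ∑ j : J,
      EI (qr Q) (fun ξ : {p // p ∈ Q} → Option J => if ξ p0 = some j then Lam (qr Q) (yM Q ℓ u Th) ξ ^ 2 else 0) ≤
      ∑ p0 ∈ univ.filter (fun p0 : {p // p ∈ Q} => p0.1 ≤ v),
        (K : ℝ) * ((8 * (ℓ + 2) * CW * 2 ^ K * (Real.log p0.1 / p0.1) / Real.log u + 16 * (K : ℝ) ^ 2 * 2 ^ K * xx (qr Q) p0 ^ 2) * S2N Q ℓ u ^ K) := by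
    apply sum_le_sum
    intro p0 _
    refine le_trans (sum_le_sum fun j _ => hterm p0 j) ?_
    rw [sum_const, card_univ, hJ, nsmul_eq_mul]
  refine le_trans hbig ?_
  have e1 : ∑ p0 ∈ univ.filter (fun p0 : {p // p ∈ Q} => p0.1 ≤ v),
        (K : ℝ) * ((8 * (ℓ + 2) * CW * 2 ^ K * (Real.log p0.1 / p0.1) / Real.log u + 16 * (K : ℝ) ^ 2 * 2 ^ K * xx (qr Q) p0 ^ 2) * S2N Q ℓ u ^ K) =
      (K : ℝ) * 2 ^ K * ((8 * (ℓ + 2) * CW / Real.log u) * ∑ p0 ∈ univ.filter (fun p0 : {p // p ∈ Q} => p0.1 ≤ v), Real.log p0.1 / p0.1 +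
        16 * (K : ℝ) ^ 2 * ∑ p0 ∈ univ.filter (fun p0 : {p // p ∈ Q} => p0.1 ≤ v), xx (qr Q) p0 ^ 2) * S2N Q ℓ u ^ K := by
    rw [mul_sum, mul_sum, ← sum_add_distrib, mul_sum, sum_mul]
    apply sum_congr rfl
    intro p0 _
    ring
  rw [e1]
  apply mul_le_mul_of_nonneg_right _ (by positivity)
  rw [mul_assoc ((K : ℝ) * 2 ^ K)]
  apply mul_le_mul_of_nonneg_left _ (by positivity)
  have hlv : 0 ≤ Real.log v := Real.log_natCast_nonneg _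
  have h1 : (8 * ((ℓ : ℝ) + 2) * CW / Real.log u) * ∑ p0 ∈ univ.filter (fun p0 : {p // p ∈ Q} => p0.1 ≤ v), Real.log p0.1 / p0.1 ≤
      (8 * ((ℓ : ℝ) + 2) * CW / Real.log u) * (3 * Real.log v) := mul_le_mul_of_nonneg_left hsum1 (by positivity)
  have h2 : 16 * (K : ℝ) ^ 2 * ∑ p0 ∈ univ.filter (fun p0 : {p // p ∈ Q} => p0.1 ≤ v), xx (qr Q) p0 ^ 2 ≤ 16 * (K : ℝ) ^ 2 * (2 / w) :=
    mul_le_mul_of_nonneg_left hsum2 (by positivity)
  refine le_trans (add_le_add h1 h2) ?_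
  have e2 : (8 * ((ℓ : ℝ) + 2) * CW / Real.log u) * (3 * Real.log v) + 16 * (K : ℝ) ^ 2 * (2 / w) =
      24 * (ℓ + 2) * CW * (Real.log v / Real.log u) + 32 * K ^ 2 * (1 / w) := by
    ring
  rw [e2]
  have h3 : 0 ≤ Real.log v / Real.log u := by positivity
  have h4 : (0 : ℝ) ≤ 1 / w := by positivity
  have h5 : 0 ≤ 24 * ((ℓ : ℝ) + 2) * CW := by positivity
  have h6 : (0 : ℝ) ≤ 32 * K ^ 2 := by positivity
  nlinarith [mul_nonneg h5 h4, mul_nonneg h6 h3]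

end Pool.CP
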