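import Pool.Agent.Lib.MP_c77da8_nt.CP.TrI
import Pool.Agent.Lib.MP_c77da8_nt.CP.ZLam
import Pool.Agent.Lib.MP_c77da8_nt.CP.RoughM

/-!
# CP-IntR: the part of the sum of the weight over the integers where a small prime is coloured

Notation: `Q = Qe w (u^Th) e`, `N ≥ u^(10 Th)`.
PROOF.  If some `p0 ≤ v` is coloured then `LN` is at most the sum over the `p0 ≤ v` and `j` of `[colq n p0 = some j] LN`; `colq n p0 = some j` is `le c0 (colq n)` for the
colouring `c0` with `c0 p0 = some j`, `none` elsewhere.  `tr_intq` with the error `(∑ |lam|)² ≤ u^(2 Th) Z⁶` (`lam_sumQ`), `Z ≤ (C log (u^Th))^K` (`ZQ_le`, `wD w ≥ 1`); so each error is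
`≤ u^(2Th) (C Th log u)^(6K) ≤ N/(K u^2)` for `u ≥ u0` (`N ≥ u^(10 Th)`, `Th ≥ 32`); at most `u` primes `p0 ≤ v ≤ u` and `K` colours: together `≤ N/u ≤ (1/u) N S2N^K`
(`S2N ≥ log u/(2 wD w) ≥ 1` for `u ≥ u0`: `model`; `wD w ≤ C log w` (`wD_le`), `w ≤ log u`).  The main terms: `rough_model`.
-/

set_option autoImplicit false

namespace Pool.CP

open Finset Pool.DL

private theorem IntR_ev1 (K Th : ℕ) (C2 : ℝ) (hK : 1 ≤ K) (hTh : 1 ≤ Th) (hC2 : 1 ≤ C2) : ∃ u1 : ℕ, ∀ u ≥ u1,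
    (K : ℝ) * (C2 * (Th * Real.log u)) ^ (6 * K) ≤ u := by
  have hK0 : (0 : ℝ) < K := by exact_mod_cast hK
  have hT0 : (0 : ℝ) < Th := by exact_mod_cast hTh
  have hCT : 0 < C2 * (Th : ℝ) := mul_pos (by linarith) hT0
  have hD : 0 < (K : ℝ) * (C2 * (Th : ℝ)) ^ (6 * K) := mul_pos hK0 (pow_pos hCT _)
  have hc : 0 < 1 / ((K : ℝ) * (C2 * (Th : ℝ)) ^ (6 * K)) := div_pos one_pos hD
  have h1 := (Real.isLittleO_pow_log_id_atTop (n := 6 * K)).def hc
  have h2 := (tendsto_natCast_atTop_atTop (R := ℝ)).eventually h1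
  obtain ⟨N0, hN0⟩ := Filter.eventually_atTop.1 h2
  refine ⟨max N0 1, fun u hu => ?_⟩
  have hu1 : 1 ≤ u := (le_max_right _ _).trans hu
  have hu1' : (1 : ℝ) ≤ u := by exact_mod_cast hu1
  have hlog : 0 ≤ Real.log (u : ℝ) := Real.log_nonneg hu1'
  have h3 := hN0 u ((le_max_left _ _).trans hu)
  simp only [id_eq, Real.norm_eq_abs] at h3
  rw [abs_of_nonneg (pow_nonneg hlog _), abs_of_nonneg (by linarith : (0 : ℝ) ≤ u)] at h3
  calc (K : ℝ) * (C2 * (Th * Real.log u)) ^ (6 * K) = ((K : ℝ) * (C2 * (Th : ℝ)) ^ (6 * K)) * Real.log u ^ (6 * K) := by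
        rw [← mul_assoc C2, mul_pow (C2 * (Th : ℝ))]
        ring
    _ ≤ ((K : ℝ) * (C2 * (Th : ℝ)) ^ (6 * K)) * (1 / ((K : ℝ) * (C2 * (Th : ℝ)) ^ (6 * K)) * u) :=
        mul_le_mul_of_nonneg_left h3 hD.le
    _ = u := by
        field_simp

private theorem IntR_ev2 (C3 : ℝ) (hC3 : 0 < C3) : ∃ u2 : ℕ, ∀ u ≥ u2, 1 ≤ Real.log u ∧
    ∀ w : ℕ, 2 ≤ w → (w : ℝ) ≤ Real.log u → 2 * C3 * Real.log w ≤ Real.log u := by
  have h1 := (Real.isLittleO_log_id_atTop).def (show (0 : ℝ) < 1 / (2 * C3) by positivity)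
  have ht : Filter.Tendsto (fun u : ℕ => Real.log (u : ℝ)) Filter.atTop Filter.atTop :=
    Real.tendsto_log_atTop.comp tendsto_natCast_atTop_atTop
  have h2 := ht.eventually h1
  have h3 := ht.eventually (Filter.eventually_ge_atTop (1 : ℝ))
  obtain ⟨N0, hN0⟩ := Filter.eventually_atTop.1 (h2.and h3)
  refine ⟨N0, fun u hu => ⟨(hN0 u hu).2, fun w hw hwu => ?_⟩⟩
  have h4 := (hN0 u hu).1
  have h5 := (hN0 u hu).2
  simp only [id_eq, Real.norm_eq_abs] at h4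
  have hw0 : (0 : ℝ) < w := by exact_mod_cast (by omega : 0 < w)
  have h6 : Real.log w ≤ Real.log (Real.log u) := Real.log_le_log hw0 hwu
  have h7 : Real.log (Real.log u) ≤ 1 / (2 * C3) * Real.log u := by
    refine (le_abs_self _).trans (h4.trans_eq ?_)
    rw [abs_of_nonneg (by linarith : (0 : ℝ) ≤ Real.log u)]
  calc 2 * C3 * Real.log w ≤ 2 * C3 * (1 / (2 * C3) * Real.log u) :=
        mul_le_mul_of_nonneg_left (h6.trans h7) (by positivity)
    _ = Real.log u := by field_simp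

private theorem IntR_card (Q : Finset ℕ) (hQ : ∀ p ∈ Q, 12 ≤ p) (v : ℕ) :
    (univ.filter (fun p0 : {p // p ∈ Q} => p0.1 ≤ v)).card ≤ v := by
  classical
  have h1 : (univ.filter (fun p0 : {p // p ∈ Q} => p0.1 ≤ v)).card ≤ (Icc 1 v).card := by
    refine card_le_card_of_injOn (fun p0 => p0.1) ?_ ?_
    · intro p0 hp0
      have h2 : p0.1 ≤ v := (mem_filter.1 hp0).2
      have h3 := hQ p0.1 p0.2
      simp only [coe_Icc, Set.mem_Icc]
      exact ⟨by omega, h2⟩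
    · intro p _ p' _ h
      exact Subtype.ext h
  simpa using h1

/-- the colouring with one coloured prime -/
private def IntR_one {P J : Type} [DecidableEq P] (p0 : P) (j : J) : P → Option J :=
  fun p => if p = p0 then some j else none

private theorem IntR_le {P J : Type} [Fintype P] [DecidableEq P] [Fintype J] [DecidableEq J] (p0 : P) (j : J)
    (ξ : P → Option J) : le (IntR_one p0 j) ξ ↔ ξ p0 = some j := by
  constructor
  · intro h
    rcases h p0 with h | h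
    · simp [IntR_one] at h
    · simp only [IntR_one, if_true] at h
      exact h.symm
  · intro h p
    by_cases hp : p = p0
    · right
      subst hp
      simp [IntR_one, h]
    · left
      simp [IntR_one, hp]

private theorem IntR_pt {J : Type} [Fintype J] [DecidableEq J] (Q : Finset ℕ) (v : ℕ) (c : {p // p ∈ Q} → Option J)
    (X : ℝ) (hX : 0 ≤ X) :
    (open Classical in if ∃ p0 : {p // p ∈ Q}, p0.1 ≤ v ∧ c p0 ≠ none then X else 0) ≤
      ∑ p0 ∈ univ.filter (fun p0 : {p // p ∈ Q} => p0.1 ≤ v), ∑ j : J, if le (IntR_one p0 j) c then X else 0 := by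
  classical
  have h0 : ∀ p0 : {p // p ∈ Q}, ∀ j : J, 0 ≤ (if le (IntR_one p0 j) c then X else 0) := fun p0 j => by
    split_ifs
    · exact hX
    · exact le_rfl
  split_ifs with h
  · obtain ⟨p0, hp, hc⟩ := h
    obtain ⟨j, hj⟩ := Option.ne_none_iff_exists'.1 hc
    calc X = (if le (IntR_one p0 j) c then X else 0) := by
          rw [if_pos ((IntR_le p0 j c).2 hj)]
      _ ≤ ∑ j : J, (if le (IntR_one p0 j) c then X else 0) :=
          single_le_sum (f := fun j : J => if le (IntR_one p0 j) c then X else 0) (fun j _ => h0 p0 j) (mem_univ j)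
      _ ≤ _ := single_le_sum (f := fun p0 => ∑ j : J, if le (IntR_one p0 j) c then X else 0)
          (fun p _ => sum_nonneg fun j _ => h0 p j) (mem_filter.2 ⟨mem_univ _, hp⟩)
  · exact sum_nonneg fun p _ => sum_nonneg fun j _ => h0 p j

theorem rough_N (CV : ℕ) (hCV1 : 1 ≤ CV)
    (hCV : ∀ w R e x : ℕ, 12 ≤ w → w ≤ x → x ≤ R → VV (vr (Qe w R e)) (qr (Qe w R e)) x ∅ ≤ CV * Real.log x / wD w)
    (K ℓ Th : ℕ) (hℓ : 1 ≤ ℓ) (hK : 2 ^ ℓ ≤ K) (hTh : Th = 32 * CV * (ℓ + 1) * K) : ∃ (C : ℝ) (u0 : ℕ), 0 < C ∧ ∀ u ≥ u0,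
    ∀ (J : Type) [Fintype J] [DecidableEq J], Fintype.card J = K → ∀ (w e N v : ℕ) (a : J → ℕ),
      200 * K ^ 2 + 12 ≤ w → (w : ℝ) ≤ Real.log u → u ^ (10 * Th) ≤ N → FormsQ (Qe w (u ^ Th) e) a → v ≤ u →
      ∑ n ∈ Ico N (2 * N), (open Classical in
        if ∃ p0 : {p // p ∈ Qe w (u ^ Th) e}, p0.1 ≤ v ∧ colq a (Qe w (u ^ Th) e) n p0 ≠ none then
          LN a (Qe w (u ^ Th) e) ℓ u Th n else 0) ≤
        (C * (Real.log v / Real.log u + 1 / w) + 1 / u) * N * S2N (Qe w (u ^ Th) e) ℓ u ^ K := by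
  obtain ⟨C1, hC1, hRM⟩ := rough_model CV hCV1 hCV K ℓ hℓ hK
  obtain ⟨C2, hC2, hZQ⟩ := ZQ_le
  obtain ⟨C3, hC3, hwD⟩ := wD_le
  have hK1 : 1 ≤ K := le_trans Nat.one_le_two_pow hK
  have hTh1 : 1 ≤ Th := by
    rw [hTh]
    exact Nat.succ_le_of_lt (by positivity)
  obtain ⟨u1, hu1⟩ := IntR_ev1 K Th C2 hK1 hTh1 hC2
  obtain ⟨u2, hu2⟩ := IntR_ev2 C3 hC3
  refine ⟨C1, max (max u1 u2) 2, hC1, fun u hu J _ _ hJ w e N v a hw hwu hN hF hv => ?_⟩
  have huu1 : u1 ≤ u := ((le_max_left _ _).trans (le_max_left _ _)).trans hu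
  have huu2 : u2 ≤ u := ((le_max_right _ _).trans (le_max_left _ _)).trans hu
  have hu2' : 2 ≤ u := (le_max_right _ _).trans hu
  have hE1 := hu1 u huu1
  obtain ⟨hlog1, hE2⟩ := hu2 u huu2
  have hur : (1 : ℝ) ≤ u := by exact_mod_cast (by omega : 1 ≤ u)
  have hur0 : (0 : ℝ) < u := by linarith
  have hw12 : 12 ≤ w := by omega
  have hw2 : 2 ≤ w := by omega
  have hwle : w ≤ u := by
    have h1 : Real.log (u : ℝ) ≤ u := (Real.log_le_sub_one_of_pos hur0).trans (by linarith)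
    exact_mod_cast hwu.trans h1
  have hwr : (1 : ℝ) < w := by exact_mod_cast (by omega : 1 < w)
  have hlogw : 0 < Real.log (w : ℝ) := Real.log_pos hwr
  set Q : Finset ℕ := Qe w (u ^ Th) e with hQdef
  have hQ12 : ∀ p ∈ Q, 12 ≤ p := hF.big
  have hwD1 : 1 ≤ wD w := wD_one w
  -- `S2N ≥ 1`
  have hS1 : 1 ≤ S2N Q ℓ u := by
    have h1 := (model CV hCV1 hCV J ℓ w u e Th hℓ (by rw [hJ]; exact hK) (by rw [hJ]; exact hTh)
      (by rw [hJ]; exact hw) hwle).1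
    refine le_trans ?_ h1
    rw [le_div_iff₀ (by linarith)]
    have h2 := hwD w hw2
    have h3 := hE2 w hw2 hwu
    nlinarith [h2, h3]
  have hSK : 1 ≤ S2N Q ℓ u ^ K := one_le_pow₀ hS1
  -- `N ≥ 1`
  have hN1 : 1 ≤ N := le_trans (Nat.one_le_pow _ _ (by omega)) hN
  have hNr : ((u : ℝ)) ^ (10 * Th) ≤ N := by exact_mod_cast hN
  -- the error term
  set Er : ℝ := (∑ d : {p // p ∈ Q} → Option J, |lam (qr Q) (yM Q ℓ u Th) d|) ^ 2 with hEr
  have hZ0 : 0 ≤ ∏ p : {p // p ∈ Q}, (1 + KK J * xx (qr Q) p) := by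
    refine prod_nonneg fun p _ => ?_
    have h1 : 12 ≤ qr Q p := by
      have := hQ12 p.1 p.2
      unfold qr
      exact_mod_cast this
    have h2 : 0 < xx (qr Q) p := by
      unfold xx
      exact div_pos one_pos (by linarith)
    have h3 : 0 ≤ KK J := by
      unfold KK
      exact Nat.cast_nonneg _
    have := mul_nonneg h3 h2.le
    linarith
  have hRge : w ≤ u ^ Th := hwle.trans (Nat.le_self_pow (by omega) u)
  have hZ : ∏ p : {p // p ∈ Q}, (1 + KK J * xx (qr Q) p) ≤ (C2 * (Th * Real.log u)) ^ K := by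
    have h1 := hZQ J w (u ^ Th) e hw12 hRge
    rw [hJ] at h1
    refine h1.trans ?_
    have h2 : Real.log ((u ^ Th : ℕ) : ℝ) = Th * Real.log u := by
      rw [Nat.cast_pow, Real.log_pow]
    rw [h2]
    have h3 : 0 ≤ C2 * (Th * Real.log u) := by positivity
    refine pow_le_pow_left₀ (div_nonneg h3 (by linarith)) ?_ _
    exact div_le_self h3 hwD1
  have hErle : Er ≤ (u : ℝ) ^ (2 * Th) * (C2 * (Th * Real.log u)) ^ (6 * K) := by
    have h1 := lam_sumQ (J := J) Q hQ12 ℓ u Th hu2'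
    refine h1.trans ?_
    have h2 : (∏ p : {p // p ∈ Q}, (1 + KK J * xx (qr Q) p)) ^ 6 ≤ ((C2 * (Th * Real.log u)) ^ K) ^ 6 :=
      pow_le_pow_left₀ hZ0 hZ 6
    calc ((u : ℝ) ^ Th) ^ 2 * (∏ p : {p // p ∈ Q}, (1 + KK J * xx (qr Q) p)) ^ 6
        ≤ ((u : ℝ) ^ Th) ^ 2 * ((C2 * (Th * Real.log u)) ^ K) ^ 6 := mul_le_mul_of_nonneg_left h2 (by positivity)
      _ = (u : ℝ) ^ (2 * Th) * (C2 * (Th * Real.log u)) ^ (6 * K) := by
          rw [← pow_mul, ← pow_mul, mul_comm Th 2, mul_comm K 6]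
  have hEr0 : 0 ≤ Er := by positivity
  have hErtot : (u : ℝ) * K * Er ≤ 1 / u * N * S2N Q ℓ u ^ K := by
    have h1 : (u : ℝ) * K * Er ≤ (u : ℝ) ^ (2 * Th + 2) := by
      calc (u : ℝ) * K * Er ≤ (u : ℝ) * K * ((u : ℝ) ^ (2 * Th) * (C2 * (Th * Real.log u)) ^ (6 * K)) :=
            mul_le_mul_of_nonneg_left hErle (by positivity)
        _ = (u : ℝ) ^ (2 * Th + 1) * ((K : ℝ) * (C2 * (Th * Real.log u)) ^ (6 * K)) := by ring
        _ ≤ (u : ℝ) ^ (2 * Th + 1) * u := mul_le_mul_of_nonneg_left hE1 (by positivity)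
        _ = (u : ℝ) ^ (2 * Th + 2) := by ring
    have h2 : (u : ℝ) ^ (2 * Th + 2) ≤ 1 / u * N := by
      rw [one_div, ← div_eq_inv_mul, le_div_iff₀ hur0]
      calc (u : ℝ) ^ (2 * Th + 2) * u = (u : ℝ) ^ (2 * Th + 3) := by ring
        _ ≤ (u : ℝ) ^ (10 * Th) := pow_le_pow_right₀ hur (by omega)
        _ ≤ N := hNr
    calc (u : ℝ) * K * Er ≤ 1 / u * N := h1.trans h2
      _ ≤ 1 / u * N * S2N Q ℓ u ^ K := le_mul_of_one_le_right (by positivity) hSK
  -- the terms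
  have hterm : ∀ (p0 : {p // p ∈ Q}) (j : J),
      ∑ n ∈ Ico N (2 * N), (if le (IntR_one p0 j) (colq a Q n) then LN a Q ℓ u Th n else 0) ≤
        N * EI (qr Q) (fun ξ : {p // p ∈ Q} → Option J => if ξ p0 = some j then Lam (qr Q) (yM Q ℓ u Th) ξ ^ 2 else 0) +
          Er := by
    intro p0 j
    have h1 := tr_intq Q a hF N hN1 (yM Q ℓ u Th) (IntR_one p0 j)
    have h2 : (fun ξ : {p // p ∈ Q} → Option J => if le (IntR_one p0 j) ξ then Lam (qr Q) (yM Q ℓ u Th) ξ ^ 2 else 0) =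
        fun ξ => if ξ p0 = some j then Lam (qr Q) (yM Q ℓ u Th) ξ ^ 2 else 0 := by
      funext ξ
      by_cases h : ξ p0 = some j
      · rw [if_pos h, if_pos ((IntR_le p0 j ξ).2 h)]
      · rw [if_neg h, if_neg (fun h' => h ((IntR_le p0 j ξ).1 h'))]
    rw [h2] at h1
    have h3 := (abs_le.1 h1).2
    have h4 : ∑ n ∈ Ico N (2 * N), (if le (IntR_one p0 j) (colq a Q n) then LN a Q ℓ u Th n else 0) =
        ∑ n ∈ Ico N (2 * N), (if le (IntR_one p0 j) (colq a Q n) then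
          Lam (qr Q) (yM Q ℓ u Th) (colq a Q n) ^ 2 else 0) := rfl
    rw [h4]
    linarith
  have hmodel := hRM J w u e Th v hJ hTh hw hwle hv
  have hcardF := IntR_card Q hQ12 v
  calc ∑ n ∈ Ico N (2 * N), (open Classical in
        if ∃ p0 : {p // p ∈ Q}, p0.1 ≤ v ∧ colq a Q n p0 ≠ none then LN a Q ℓ u Th n else 0)
      ≤ ∑ n ∈ Ico N (2 * N), ∑ p0 ∈ univ.filter (fun p0 : {p // p ∈ Q} => p0.1 ≤ v), ∑ j : J,
          (if le (IntR_one p0 j) (colq a Q n) then LN a Q ℓ u Th n else 0) :=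
        sum_le_sum fun n _ => IntR_pt Q v (colq a Q n) _ (by unfold LN; positivity)
    _ = ∑ p0 ∈ univ.filter (fun p0 : {p // p ∈ Q} => p0.1 ≤ v), ∑ j : J, ∑ n ∈ Ico N (2 * N),
          (if le (IntR_one p0 j) (colq a Q n) then LN a Q ℓ u Th n else 0) := by
        rw [sum_comm]
        refine sum_congr rfl fun p0 _ => ?_
        rw [sum_comm]
    _ ≤ ∑ p0 ∈ univ.filter (fun p0 : {p // p ∈ Q} => p0.1 ≤ v), ∑ j : J,
          (N * EI (qr Q) (fun ξ : {p // p ∈ Q} → Option J =>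
            if ξ p0 = some j then Lam (qr Q) (yM Q ℓ u Th) ξ ^ 2 else 0) + Er) :=
        sum_le_sum fun p0 _ => sum_le_sum fun j _ => hterm p0 j
    _ = N * (∑ p0 ∈ univ.filter (fun p0 : {p // p ∈ Q} => p0.1 ≤ v), ∑ j : J,
          EI (qr Q) (fun ξ : {p // p ∈ Q} → Option J =>
            if ξ p0 = some j then Lam (qr Q) (yM Q ℓ u Th) ξ ^ 2 else 0)) +
          ((univ.filter (fun p0 : {p // p ∈ Q} => p0.1 ≤ v)).card : ℝ) * K * Er := by
        simp only [sum_add_distrib, sum_const, card_univ, hJ, nsmul_eq_mul, mul_sum]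
        ring
    _ ≤ N * (C1 * (Real.log v / Real.log u + 1 / w) * S2N Q ℓ u ^ K) + (u : ℝ) * K * Er := by
        refine add_le_add (mul_le_mul_of_nonneg_left hmodel (Nat.cast_nonneg _)) ?_
        refine mul_le_mul_of_nonneg_right (mul_le_mul_of_nonneg_right ?_ (Nat.cast_nonneg _)) hEr0
        exact_mod_cast hcardF.trans hv
    _ ≤ N * (C1 * (Real.log v / Real.log u + 1 / w) * S2N Q ℓ u ^ K) + 1 / u * N * S2N Q ℓ u ^ K :=
        add_le_add le_rfl hErtot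
    _ = (C1 * (Real.log v / Real.log u + 1 / w) + 1 / u) * N * S2N Q ℓ u ^ K := by ring

end Pool.CP
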