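import Pool.Agent.Lib.MP_c77da8_nt.DL.Loc

/-!
# CP-IntUpA: upper bound for the integer model, arbitrary coefficients

PROOF: as `prime_up` in `DL/Schur.lean` (Schur's test; copy its private lemmas).  By `EI_sq` the second moment is
`∑_{r,s} y_r y_s ∏_p w_p (r p, s p)`, `w_p (a,b) = x(a) x(b) eI a b` (`x(none) = 1`, `x(some j) = x_p`).  `|y_r y_s| ≤ (y_r² + y_s²)/2` and the symmetry of `|w|`:
`≤ ∑_r y_r² ∏_p ∑_b |w_p (r p, b)|` (`sum_prod`).  With `t = q p ≥ 12`, `x = 1/(t - 2)`: `|w (none, none)| = 1`, `|w (none, j)| = x/t`,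
`|w (j, j)| = x² (t² - 3t + 3)/t ≤ x` (as `3 ≤ t`), `|w (i, j)| = x² (t - 2)/t = x/t` for `i ≠ j`.  Row `none`: `1 + K x/t ≤ 1 + K x²`; row `j`:
`≤ x + K x/t ≤ x (1 + K x)` (`1/t ≤ x`).  Each local factor is `≤ (1 + K x²) · (if r p = none then 1 else x (1 + K x))`.
-/

set_option autoImplicit false
set_option linter.unusedSectionVars false

namespace Pool.CP

open Finset Pool.DL

variable {P J : Type} [Fintype P] [DecidableEq P] [Fintype J] [DecidableEq J]

/-- the local weight -/
private noncomputable def iw (q : P → ℝ) (p : P) (a b : Option J) : ℝ :=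
  (if a = none then 1 else xx q p) * (if b = none then 1 else xx q p) * eI (q p) a b

/-- the bound for the absolute value of the local weight -/
private noncomputable def iv (q : P → ℝ) (p : P) (a b : Option J) : ℝ :=
  if a = none then (if b = none then 1 else xx q p ^ 2)
  else if b = none then xx q p ^ 2 else if a = b then xx q p else xx q p ^ 2

private theorem ia_xx_pos (q : P → ℝ) (hq : ∀ p, 12 ≤ q p) (p : P) : 0 < xx q p := by
  unfold xx
  have := hq p
  apply one_div_pos.2
  linarith

private theorem ia_xx_mul (q : P → ℝ) (hq : ∀ p, 12 ≤ q p) (p : P) : xx q p * (q p - 2) = 1 := by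
  unfold xx
  have := hq p
  have h : q p - 2 ≠ 0 := by linarith
  field_simp

private theorem ia_inv (q : P → ℝ) (hq : ∀ p, 12 ≤ q p) (p : P) :
    0 < 1 / q p ∧ 1 / q p ≤ xx q p := by
  have := hq p
  refine ⟨by positivity, ?_⟩
  unfold xx
  exact one_div_le_one_div_of_le (by linarith) (by linarith)

private theorem iv_nonneg (q : P → ℝ) (hq : ∀ p, 12 ≤ q p) (p : P) (a b : Option J) :
    0 ≤ iv q p a b := by
  have := ia_xx_pos q hq p
  unfold iv
  split_ifs <;> positivity

private theorem iv_symm (q : P → ℝ) (p : P) (a b : Option J) : iv q p a b = iv q p b a := by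
  unfold iv
  by_cases ha : a = none
  · by_cases hb : b = none
    · simp [ha, hb]
    · simp [ha, hb]
  · by_cases hb : b = none
    · simp [ha, hb]
    · by_cases hab : a = b
      · simp [hab]
      · simp [ha, hb, hab, Ne.symm hab]

private theorem abs_iw (q : P → ℝ) (hq : ∀ p, 12 ≤ q p) (p : P) (a b : Option J) :
    |iw q p a b| ≤ iv q p a b := by
  have h1 := ia_xx_pos q hq p
  have h2 := ia_xx_mul q hq p
  obtain ⟨h3, h4⟩ := ia_inv q hq p
  have hq0 := hq p
  have hx2 : xx q p * (1 / q p) ≤ xx q p ^ 2 := by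
    rw [sq]
    exact mul_le_mul_of_nonneg_left h4 h1.le
  unfold iw iv eI
  by_cases ha : a = none
  · by_cases hb : b = none
    · simp [ha, hb]
    · simp only [ha, hb, if_false, if_true, one_mul]
      rw [abs_of_pos (mul_pos h1 h3)]
      exact hx2
  · by_cases hb : b = none
    · simp only [ha, hb, if_false, if_true, mul_one]
      rw [abs_of_pos (mul_pos h1 h3)]
      exact hx2
    · by_cases hab : a = b
      · simp only [ha, hb, hab, if_false, if_true]
        have h5 : 0 ≤ (q p ^ 2 - 3 * q p + 3) / q p := by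
          apply div_nonneg _ (by linarith)
          nlinarith
        rw [abs_of_nonneg (mul_nonneg (mul_nonneg h1.le h1.le) h5)]
        have h6 : (q p ^ 2 - 3 * q p + 3) / q p ≤ q p - 2 := by
          rw [div_le_iff₀ (by linarith)]
          nlinarith
        calc xx q p * xx q p * ((q p ^ 2 - 3 * q p + 3) / q p)
            ≤ xx q p * xx q p * (q p - 2) := mul_le_mul_of_nonneg_left h6 (by positivity)
          _ = xx q p := by rw [mul_assoc, h2, mul_one]
      · simp only [ha, hb, hab, if_false]
        have h5 : xx q p * xx q p * ((2 - q p) / q p) = -(xx q p * (1 / q p)) := by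
          have : (2 - q p) / q p = -((q p - 2) * (1 / q p)) := by ring
          rw [this]
          calc xx q p * xx q p * -((q p - 2) * (1 / q p))
              = -(xx q p * (xx q p * (q p - 2)) * (1 / q p)) := by ring
            _ = _ := by rw [h2, mul_one]
        rw [h5, abs_neg, abs_of_pos (mul_pos h1 h3)]
        exact hx2

private theorem iv_sum (q : P → ℝ) (hq : ∀ p, 12 ≤ q p) (p : P) (a : Option J) :
    ∑ b, iv q p a b ≤ (1 + KK J * xx q p ^ 2) *
      (if a = none then 1 else xx q p * (1 + KK J * xx q p)) := by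
  have h1 := ia_xx_pos q hq p
  have hK : 0 ≤ KK J := by unfold KK; positivity
  rw [Fintype.sum_option]
  unfold iv
  rcases a with _ | i
  · simp only [if_true, reduceCtorEq, if_false, mul_one, Finset.sum_const, card_univ, nsmul_eq_mul]
    rw [KK]
  · simp only [reduceCtorEq, if_false, if_true, Option.some.injEq]
    have h2 : ∑ x : J, (if i = x then xx q p else xx q p ^ 2) =
        xx q p + (KK J - 1) * xx q p ^ 2 := by
      have h3 : ∀ x : J, (if i = x then xx q p else xx q p ^ 2) =
          (if i = x then xx q p - xx q p ^ 2 else 0) + xx q p ^ 2 := by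
        intro x
        split_ifs <;> ring
      rw [Finset.sum_congr rfl fun x _ => h3 x, Finset.sum_add_distrib, Finset.sum_ite_eq,
        if_pos (mem_univ i), Finset.sum_const, card_univ, nsmul_eq_mul, KK]
      ring
    rw [h2]
    have h4 : xx q p ^ 2 + (xx q p + (KK J - 1) * xx q p ^ 2) =
        1 * (xx q p * (1 + KK J * xx q p)) := by ring
    rw [h4]
    refine mul_le_mul_of_nonneg_right ?_ (by positivity)
    have : 0 ≤ KK J * xx q p ^ 2 := by positivity
    linarith

theorem int_upA (q : P → ℝ) (hq : ∀ p, 12 ≤ q p) (y : (P → Option J) → ℝ) :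
    EI q (fun ξ => Lam q y ξ ^ 2) ≤ (∏ p, (1 + KK J * xx q p ^ 2)) *
      ∑ t : P → Option J, y t ^ 2 * cprod (fun p => xx q p * (1 + KK J * xx q p)) t := by
  have hW : ∀ s s' : P → Option J, 0 ≤ ∏ p, iv q p (s p) (s' p) := fun s s' =>
    Finset.prod_nonneg fun p _ => iv_nonneg q hq p _ _
  have hsym : ∀ s s' : P → Option J, ∏ p, iv q p (s p) (s' p) = ∏ p, iv q p (s' p) (s p) :=
    fun s s' => Finset.prod_congr rfl fun p _ => iv_symm q p _ _
  have habs : ∀ s s' : P → Option J, |∏ p, iw q p (s p) (s' p)| ≤ ∏ p, iv q p (s p) (s' p) := by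
    intro s s'
    rw [Finset.abs_prod]
    exact Finset.prod_le_prod (fun p _ => abs_nonneg _) fun p _ => abs_iw q hq p _ _
  rw [EI_sq q (fun p => by linarith [hq p]) y]
  have h1 : ∑ s : P → Option J, ∑ s' : P → Option J, y s * y s' *
      (cprod (xx q) s * cprod (xx q) s' * ∏ p, eI (q p) (s p) (s' p)) ≤
      ∑ s : P → Option J, ∑ s' : P → Option J,
        ((1 / 2) * (y s ^ 2 * ∏ p, iv q p (s p) (s' p)) +
        (1 / 2) * (y s' ^ 2 * ∏ p, iv q p (s p) (s' p))) := by
    refine Finset.sum_le_sum fun s _ => Finset.sum_le_sum fun s' _ => ?_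
    have h2 : |y s| * |y s'| ≤ (1 / 2) * y s ^ 2 + (1 / 2) * y s' ^ 2 := by
      have h3 := sq_nonneg (|y s| - |y s'|)
      rw [← sq_abs (y s), ← sq_abs (y s')]
      nlinarith
    have h4 := mul_le_mul_of_nonneg_right h2 (hW s s')
    have h5 : cprod (xx q) s * cprod (xx q) s' * ∏ p, eI (q p) (s p) (s' p) =
        ∏ p, iw q p (s p) (s' p) := by
      unfold iw cprod
      rw [Finset.prod_mul_distrib, Finset.prod_mul_distrib]
    rw [h5]
    have h6 : y s * y s' * ∏ p, iw q p (s p) (s' p) ≤
        |y s| * |y s'| * ∏ p, iv q p (s p) (s' p) := by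
      refine (le_abs_self _).trans ?_
      rw [abs_mul, abs_mul]
      exact mul_le_mul_of_nonneg_left (habs s s') (by positivity)
    linarith
  have h5 : ∑ s : P → Option J, ∑ s' : P → Option J, (y s' ^ 2 * ∏ p, iv q p (s p) (s' p)) =
      ∑ s : P → Option J, ∑ s' : P → Option J, (y s ^ 2 * ∏ p, iv q p (s p) (s' p)) := by
    rw [Finset.sum_comm]
    refine Finset.sum_congr rfl fun s _ => Finset.sum_congr rfl fun s' _ => ?_
    rw [hsym]
  have h6 : ∑ s : P → Option J, ∑ s' : P → Option J, (y s ^ 2 * ∏ p, iv q p (s p) (s' p)) ≤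
      (∏ p, (1 + KK J * xx q p ^ 2)) *
      ∑ t : P → Option J, y t ^ 2 * cprod (fun p => xx q p * (1 + KK J * xx q p)) t := by
    rw [Finset.mul_sum]
    refine Finset.sum_le_sum fun s _ => ?_
    rw [← Finset.mul_sum, mul_left_comm]
    refine mul_le_mul_of_nonneg_left ?_ (sq_nonneg _)
    calc ∑ s' : P → Option J, ∏ p, iv q p (s p) (s' p)
        = ∏ p, ∑ b, iv q p (s p) b := sum_prod (fun p b => iv q p (s p) b)
      _ ≤ ∏ p, ((1 + KK J * xx q p ^ 2) *
            (if s p = none then 1 else xx q p * (1 + KK J * xx q p))) :=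
          Finset.prod_le_prod (fun p _ => Finset.sum_nonneg fun b _ => iv_nonneg q hq p _ _)
            fun p _ => iv_sum q hq p (s p)
      _ = (∏ p, (1 + KK J * xx q p ^ 2)) *
            cprod (fun p => xx q p * (1 + KK J * xx q p)) s := by
          rw [Finset.prod_mul_distrib]
          rfl
  have h7 : ∑ s : P → Option J, ∑ s' : P → Option J,
        ((1 / 2) * (y s ^ 2 * ∏ p, iv q p (s p) (s' p)) +
        (1 / 2) * (y s' ^ 2 * ∏ p, iv q p (s p) (s' p))) =
      (1 / 2) * (∑ s : P → Option J, ∑ s' : P → Option J, (y s ^ 2 * ∏ p, iv q p (s p) (s' p))) +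
      (1 / 2) * (∑ s : P → Option J, ∑ s' : P → Option J, (y s' ^ 2 * ∏ p, iv q p (s p) (s' p))) := by
    simp only [Finset.sum_add_distrib, Finset.mul_sum]
  rw [h7, h5] at h1
  linarith

end Pool.CP
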