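import Pool.Agent.Lib.MP_c77da8_nt.CP.CondP
import Pool.Agent.Lib.MP_c77da8_nt.DL.Up
import Pool.Agent.Lib.MP_c77da8_nt.DL.GW

/-!
# CP-Jump: the coefficients `cc` of the Maynard-Tao weight are small on average

Notation: `g p = x_p (1 + K x_p)`, `S = ∑_a G(a)² g(a)`, `y = yy v R G`, `G = GG ℓ u v`; `t p0 = none` (otherwise `cc = 0`); `t_i = part t i`, `p = v p0`.
PROOF.  `0 ≤ y (update t p0 (some i)) ≤ y t ≤ 1` (`yy_mono`: `le t (update t p0 (some i))`), so
`cc² ≤ 2 (y t - y (update t p0 (some j)))² + 2 K² x_{p0}² y(t)²`.  `y t - y (update ..) ≤ ∏_{i ≠ j} G(t_i) · (D1 + D2)` with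
`D1 = G(t_j) - G(insert p0 t_j)`, `D2 = [R/p < N(t) ≤ R]` (`N(t) = nrm v (supp t)`; `part (update t p0 (some j)) j = insert p0 t_j`, the other parts do not change,
`supp` becomes `insert p0 (supp t)`, `nrm` is multiplied by `p`), and `0 ≤ D1, D2 ≤ 1`, so its square is `≤ 2 ∏_{i ≠ j} G(t_i)² (D1 + D2)`.
`D1 = ∑_{l ≤ ℓ} c_l [u^(2^l) < nm t_j · p, nm t_j ≤ u^(2^l)]`, `0 ≤ c_l ≤ 1` (`gg`; `p0 ∉ t_j`).  As in `sum_parts_le` (the parts of a colouring are a tuple of sets; enlarge the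
sum to all tuples): `∑_t ∏_{i ≠ j} G(t_i)² D1 cprod g t ≤ S^(K-1) (ℓ+1) B`; for `D2` fix the sets `a_i`, `i ≠ j`: the condition on `a_j` is
`U < nm a_j · p`, `nm a_j ≤ U` with `U = R/∏_{i ≠ j} nm a_i` (a real number; `nrm_parts`), so the sum is `≤ S^(K-1) B`.  `∑_t y(t)² cprod g t ≤ S^K`.
Total: `2 · 2 (ℓ + 2) B S^(K-1) + 2 K² x² S^K`.
`jump_S`: `one_up` with `x`, `h = K x` and `G²` (`anti_sq`): `S ≤ ∏ (1 + K x²) · SS x G²`.
-/

set_option autoImplicit false

namespace Pool.CP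

open Finset Pool.DL

variable {P J : Type} [Fintype P] [DecidableEq P] [Fintype J] [DecidableEq J]

/-- the sum of `g` over the sets with norm in `(U/p, U]` -/
noncomputable def Wd (v : P → ℕ) (g : P → ℝ) (p : ℕ) (U : ℝ) : ℝ :=
  open Classical in
  ∑ a ∈ univ.filter (fun a : Finset P => U < (nrm v a : ℝ) * p ∧ (nrm v a : ℝ) ≤ U), ∏ q ∈ a, g q

private lemma Jump_xpos (q : P → ℝ) (hq : ∀ p, 12 ≤ q p) (p : P) : 0 < xx q p := by
  unfold xx
  have h := hq p
  apply one_div_pos.2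
  linarith

private lemma Jump_le (t : P → Option J) (p0 : P) (i : J) (ht : t p0 = none) :
    le t (Function.update t p0 (some i)) := by
  intro p
  by_cases h : p = p0
  · left
    rw [h]
    exact ht
  · right
    rw [Function.update_of_ne h]

private lemma Jump_part (t : P → Option J) (p0 : P) (i : J) (ht : t p0 = none) :
    part (Function.update t p0 (some i)) i = insert p0 (part t i) := by
  ext p
  simp only [part, mem_filter, mem_univ, true_and, mem_insert]
  by_cases h : p = p0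
  · subst h
    simp
  · rw [Function.update_of_ne h]
    simp [h]

private lemma Jump_part' (t : P → Option J) (p0 : P) (i l : J) (ht : t p0 = none) (hl : l ≠ i) :
    part (Function.update t p0 (some i)) l = part t l := by
  ext p
  simp only [part, mem_filter, mem_univ, true_and]
  by_cases h : p = p0
  · subst h
    rw [Function.update_self, ht]
    simp [hl.symm]
  · rw [Function.update_of_ne h]

private lemma Jump_supp (t : P → Option J) (p0 : P) (i : J) (ht : t p0 = none) :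
    supp (Function.update t p0 (some i)) = insert p0 (supp t) := by
  ext p
  simp only [supp, mem_filter, mem_univ, true_and, mem_insert]
  by_cases h : p = p0
  · subst h
    simp
  · rw [Function.update_of_ne h]
    simp [h]

/-- the jump of the step function -/
private noncomputable def Jump_D (ℓ u : ℕ) (v : P → ℕ) (p0 : P) (a : Finset P) : ℝ :=
  ∑ l ∈ range (ℓ + 1), (if l < ℓ then (1 / 2 : ℝ) ^ (l + 1) else (1 / 2 : ℝ) ^ ℓ) *
    (if u ^ 2 ^ l < nrm v a * v p0 ∧ nrm v a ≤ u ^ 2 ^ l then 1 else 0)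

private lemma Jump_c (ℓ l : ℕ) : 0 ≤ (if l < ℓ then (1 / 2 : ℝ) ^ (l + 1) else (1 / 2 : ℝ) ^ ℓ) ∧
    (if l < ℓ then (1 / 2 : ℝ) ^ (l + 1) else (1 / 2 : ℝ) ^ ℓ) ≤ 1 := by
  split_ifs
  · exact ⟨by positivity, pow_le_one₀ (by norm_num) (by norm_num)⟩
  · exact ⟨by positivity, pow_le_one₀ (by norm_num) (by norm_num)⟩

private lemma Jump_D_nonneg (ℓ u : ℕ) (v : P → ℕ) (p0 : P) (a : Finset P) :
    0 ≤ Jump_D ℓ u v p0 a := by
  unfold Jump_D
  refine Finset.sum_nonneg fun l _ => mul_nonneg (Jump_c ℓ l).1 ?_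
  split_ifs <;> norm_num

private lemma Jump_diff (ℓ u : ℕ) (v : P → ℕ) (hv : ∀ p, 1 ≤ v p) (p0 : P) (a : Finset P)
    (ha : p0 ∉ a) : GG ℓ u v a - GG ℓ u v (insert p0 a) = Jump_D ℓ u v p0 a := by
  unfold GG gg Jump_D
  rw [← Finset.sum_sub_distrib]
  refine Finset.sum_congr rfl fun l _ => ?_
  rw [← mul_sub]
  congr 1
  have h1 : nrm v (insert p0 a) = nrm v a * v p0 := by
    unfold nrm
    rw [Finset.prod_insert ha, mul_comm]
  rw [h1]
  have h2 : nrm v a ≤ nrm v a * v p0 := Nat.le_mul_of_pos_right _ (hv p0)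
  by_cases c1 : nrm v a ≤ u ^ 2 ^ l
  · by_cases c2 : nrm v a * v p0 ≤ u ^ 2 ^ l
    · rw [if_pos c1, if_pos c2, if_neg (fun h => absurd h.1 (not_lt.2 c2))]
      norm_num
    · rw [if_pos c1, if_neg c2, if_pos ⟨not_le.1 c2, c1⟩]
      norm_num
  · have c2 : ¬ nrm v a * v p0 ≤ u ^ 2 ^ l := fun h => c1 (h2.trans h)
    rw [if_neg c1, if_neg c2, if_neg (fun h => c1 h.2)]
    norm_num

private lemma Jump_pt (v : P → ℕ) (hv : ∀ p, 1 ≤ v p) (q : P → ℝ) (hq : ∀ p, 12 ≤ q p)
    (R ℓ u : ℕ) (hu : 2 ≤ u) (p0 : P) (j : J) (t : P → Option J) :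
    cc q (yy v R (GG ℓ u v)) p0 j t ^ 2 ≤
      2 * ((∏ i ∈ univ.erase j, GG ℓ u v (part t i) ^ 2) * Jump_D ℓ u v p0 (part t j)) +
      2 * ((∏ i ∈ univ.erase j, GG ℓ u v (part t i) ^ 2) *
        (if R < nrm v (supp t) * v p0 ∧ nrm v (supp t) ≤ R then 1 else 0)) +
      2 * KK J ^ 2 * xx q p0 ^ 2 * yy v R (GG ℓ u v) t ^ 2 := by
  obtain ⟨hG, hG1, -⟩ := GG_basic v hv ℓ u hu
  have hx := Jump_xpos q hq p0
  have hK : 0 ≤ KK J := by unfold KK; positivity
  have hPi : 0 ≤ ∏ i ∈ univ.erase j, GG ℓ u v (part t i) ^ 2 :=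
    Finset.prod_nonneg fun i _ => sq_nonneg _
  have hD := Jump_D_nonneg ℓ u v p0 (part t j)
  have hI : (0 : ℝ) ≤ (if R < nrm v (supp t) * v p0 ∧ nrm v (supp t) ≤ R then 1 else 0) := by
    split_ifs <;> norm_num
  have hR : 0 ≤ 2 * ((∏ i ∈ univ.erase j, GG ℓ u v (part t i) ^ 2) * Jump_D ℓ u v p0 (part t j)) +
      2 * ((∏ i ∈ univ.erase j, GG ℓ u v (part t i) ^ 2) *
        (if R < nrm v (supp t) * v p0 ∧ nrm v (supp t) ≤ R then 1 else 0)) +
      2 * KK J ^ 2 * xx q p0 ^ 2 * yy v R (GG ℓ u v) t ^ 2 := by positivity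
  by_cases ht : t p0 = none
  · unfold cc
    rw [if_pos ht]
    set y : (P → Option J) → ℝ := yy v R (GG ℓ u v) with hy
    set Q := ∏ i ∈ univ.erase j, GG ℓ u v (part t i) with hQ
    have hQ0 : 0 ≤ Q := Finset.prod_nonneg fun i _ => hG.1 _
    have hQ2 : ∏ i ∈ univ.erase j, GG ℓ u v (part t i) ^ 2 = Q ^ 2 := by
      rw [hQ, Finset.prod_pow]
    have hp0 : p0 ∉ part t j := by
      simp [part, ht]
    have hs0 : p0 ∉ supp t := by
      simp [supp, ht]
    have hy0 : 0 ≤ y t := yy_nonneg v R _ hG t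
    -- the second part
    have hB0 : 0 ≤ xx q p0 * ∑ i ∈ univ.erase j, y (Function.update t p0 (some i)) :=
      mul_nonneg hx.le (Finset.sum_nonneg fun i _ => yy_nonneg v R _ hG _)
    have hB1 : xx q p0 * ∑ i ∈ univ.erase j, y (Function.update t p0 (some i)) ≤
        KK J * xx q p0 * y t := by
      have h1 : ∑ i ∈ univ.erase j, y (Function.update t p0 (some i)) ≤
          ∑ i ∈ univ.erase j, y t := Finset.sum_le_sum fun i _ =>
        yy_mono v hv R _ hG _ _ (Jump_le t p0 i ht)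
      have h2 : ∑ i ∈ univ.erase j, y t ≤ KK J * y t := by
        rw [Finset.sum_const, nsmul_eq_mul]
        apply mul_le_mul_of_nonneg_right _ hy0
        unfold KK
        exact_mod_cast (Finset.card_le_univ _)
      calc xx q p0 * ∑ i ∈ univ.erase j, y (Function.update t p0 (some i))
          ≤ xx q p0 * (KK J * y t) := mul_le_mul_of_nonneg_left (h1.trans h2) hx.le
        _ = KK J * xx q p0 * y t := by ring
    -- the first part
    have hA0 : 0 ≤ y t - y (Function.update t p0 (some j)) :=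
      sub_nonneg.2 (yy_mono v hv R _ hG _ _ (Jump_le t p0 j ht))
    have hA1 : (y t - y (Function.update t p0 (some j))) ^ 2 ≤
        Q ^ 2 * Jump_D ℓ u v p0 (part t j) +
        Q ^ 2 * (if R < nrm v (supp t) * v p0 ∧ nrm v (supp t) ≤ R then 1 else 0) := by
      have e1 : ∏ i, GG ℓ u v (part t i) = GG ℓ u v (part t j) * Q := by
        rw [hQ, Finset.mul_prod_erase univ (fun i => GG ℓ u v (part t i)) (mem_univ j)]
      have e2 : ∏ i, GG ℓ u v (part (Function.update t p0 (some j)) i) =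
          GG ℓ u v (insert p0 (part t j)) * Q := by
        rw [← Finset.mul_prod_erase univ
          (fun i => GG ℓ u v (part (Function.update t p0 (some j)) i)) (mem_univ j),
          Jump_part t p0 j ht, hQ]
        congr 1
        refine Finset.prod_congr rfl fun i hi => ?_
        rw [Jump_part' t p0 j i ht (Finset.ne_of_mem_erase hi)]
      have e3 : nrm v (supp (Function.update t p0 (some j))) = nrm v (supp t) * v p0 := by
        rw [Jump_supp t p0 j ht]
        unfold nrm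
        rw [Finset.prod_insert hs0, mul_comm]
      have hGj := hG.1 (part t j)
      have hGj1 := hG1 (part t j)
      have hGi := hG.1 (insert p0 (part t j))
      have hdiff := Jump_diff ℓ u v hv p0 (part t j) hp0
      rw [hy]
      unfold yy
      rw [e1, e2, e3]
      by_cases c1 : nrm v (supp t) ≤ R
      · by_cases c2 : nrm v (supp t) * v p0 ≤ R
        · rw [if_pos c1, if_pos c2, if_neg (fun h => absurd h.1 (not_lt.2 c2))]
          have h1 : GG ℓ u v (part t j) * Q - GG ℓ u v (insert p0 (part t j)) * Q =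
              Q * Jump_D ℓ u v p0 (part t j) := by
            rw [← hdiff]; ring
          rw [h1, mul_pow, mul_zero, add_zero]
          apply mul_le_mul_of_nonneg_left _ (sq_nonneg Q)
          have h2 : Jump_D ℓ u v p0 (part t j) ≤ 1 := by
            rw [← hdiff]; linarith
          nlinarith
        · rw [if_pos c1, if_neg c2, if_pos ⟨not_le.1 c2, c1⟩]
          have h1 : (GG ℓ u v (part t j) * Q - 0) ^ 2 ≤ Q ^ 2 * 1 := by
            rw [sub_zero, mul_pow, mul_comm]
            apply mul_le_mul_of_nonneg_left _ (sq_nonneg Q)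
            nlinarith
          have h2 : 0 ≤ Q ^ 2 * Jump_D ℓ u v p0 (part t j) := by positivity
          linarith
      · have hvv : nrm v (supp t) ≤ nrm v (supp t) * v p0 := Nat.le_mul_of_pos_right _ (hv p0)
        have c2 : ¬ nrm v (supp t) * v p0 ≤ R := fun h => c1 (hvv.trans h)
        rw [if_neg c1, if_neg c2, if_neg (fun h => c1 h.2)]
        have h2 : 0 ≤ Q ^ 2 * Jump_D ℓ u v p0 (part t j) := by positivity
        linarith
    rw [hQ2]
    set A := y t - y (Function.update t p0 (some j)) with hA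
    set B := xx q p0 * ∑ i ∈ univ.erase j, y (Function.update t p0 (some i)) with hB
    have h1 : (A + B) ^ 2 ≤ 2 * A ^ 2 + 2 * B ^ 2 := by nlinarith [sq_nonneg (A - B)]
    have h2 : B ^ 2 ≤ (KK J * xx q p0 * y t) ^ 2 := pow_le_pow_left₀ hB0 hB1 2
    have h3 : (KK J * xx q p0 * y t) ^ 2 = KK J ^ 2 * xx q p0 ^ 2 * y t ^ 2 := by ring
    rw [h3] at h2
    linarith
  · unfold cc
    rw [if_neg ht]
    calc (0 : ℝ) ^ 2 = 0 := by norm_num
      _ ≤ _ := hR

/-- the sums over the colourings are bounded by products of one-dimensional sums -/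
private lemma Jump_sum1 (g : P → ℝ) (hg : ∀ p, 0 ≤ g p) (H D : Finset P → ℝ) (hH : ∀ a, 0 ≤ H a)
    (hD : ∀ a, 0 ≤ D a) (j : J) :
    ∑ t : P → Option J, (∏ i ∈ univ.erase j, H (part t i)) * D (part t j) * cprod g t ≤
      SS g H ^ (Fintype.card J - 1) * ∑ a : Finset P, D a * ∏ p ∈ a, g p := by
  have hg' : ∀ a : Finset P, 0 ≤ ∏ p ∈ a, g p := fun a => Finset.prod_nonneg fun p _ => hg p
  have h1 := sum_parts_le (P := P) (J := J)
    (fun i a => (if i = j then D a else H a) * ∏ p ∈ a, g p)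
    (fun i a => by
      split_ifs
      · exact mul_nonneg (hD a) (hg' a)
      · exact mul_nonneg (hH a) (hg' a))
  refine le_trans (le_of_eq ?_) (h1.trans (le_of_eq ?_))
  · refine Finset.sum_congr rfl fun t _ => ?_
    rw [Finset.prod_mul_distrib, ← cprod_parts]
    congr 1
    rw [← Finset.mul_prod_erase univ (fun i => if i = j then D (part t i) else H (part t i))
      (mem_univ j), if_pos rfl, mul_comm]
    congr 1
    exact Finset.prod_congr rfl fun i hi => by rw [if_neg (Finset.ne_of_mem_erase hi)]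
  · rw [← Finset.mul_prod_erase univ _ (mem_univ j), mul_comm]
    congr 1
    · rw [← Finset.card_univ, ← Finset.card_erase_of_mem (mem_univ j), ← Finset.prod_const]
      refine Finset.prod_congr rfl fun i hi => ?_
      unfold SS
      exact Finset.sum_congr rfl fun a _ => by rw [if_neg (Finset.ne_of_mem_erase hi)]
    · exact Finset.sum_congr rfl fun a _ => by rw [if_pos rfl]

private lemma Jump_sum2 (v : P → ℕ) (hv : ∀ p, 1 ≤ v p) (g : P → ℝ) (hg : ∀ p, 0 ≤ g p)
    (H : Finset P → ℝ) (hH : ∀ a, 0 ≤ H a) (R p1 : ℕ) (j : J) (B : ℝ)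
    (hW : ∀ U : ℝ, Wd v g p1 U ≤ B) :
    ∑ t : P → Option J, (∏ i ∈ univ.erase j, H (part t i)) *
      (if R < nrm v (supp t) * p1 ∧ nrm v (supp t) ≤ R then 1 else 0) * cprod g t ≤
      SS g H ^ (Fintype.card J - 1) * B := by
  classical
  have hg' : ∀ a : Finset P, 0 ≤ ∏ p ∈ a, g p := fun a => Finset.prod_nonneg fun p _ => hg p
  -- all tuples
  set Φ : (J → Finset P) → ℝ := fun x => (∏ i ∈ univ.erase j, (H (x i) * ∏ p ∈ x i, g p)) *
    ((if R < (∏ i, nrm v (x i)) * p1 ∧ (∏ i, nrm v (x i)) ≤ R then 1 else 0) *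
      ∏ p ∈ x j, g p) with hΦ
  have hΦ0 : ∀ x, 0 ≤ Φ x := by
    intro x
    refine mul_nonneg (Finset.prod_nonneg fun i _ => mul_nonneg (hH _) (hg' _))
      (mul_nonneg ?_ (hg' _))
    split_ifs <;> norm_num
  have h1 : ∑ t : P → Option J, (∏ i ∈ univ.erase j, H (part t i)) *
      (if R < nrm v (supp t) * p1 ∧ nrm v (supp t) ≤ R then 1 else 0) * cprod g t ≤
      ∑ x : J → Finset P, Φ x := by
    have h2 : ∑ t : P → Option J, (∏ i ∈ univ.erase j, H (part t i)) *
      (if R < nrm v (supp t) * p1 ∧ nrm v (supp t) ≤ R then 1 else 0) * cprod g t =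
        ∑ t : P → Option J, Φ (part t) := by
      refine Finset.sum_congr rfl fun t _ => ?_
      simp only [hΦ]
      rw [← nrm_parts, cprod_parts, ← Finset.mul_prod_erase univ
        (fun i => ∏ p ∈ part t i, g p) (mem_univ j), Finset.prod_mul_distrib]
      ring
    rw [h2, ← Finset.sum_image (s := univ) (g := fun t : P → Option J => part t) (f := Φ)
      (fun r _ s _ h => part_inj h)]
    exact Finset.sum_le_sum_of_subset_of_nonneg (Finset.subset_univ _) fun x _ _ => hΦ0 x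
  refine h1.trans ?_
  rw [← (Equiv.funSplitAt j (Finset P)).symm.sum_comp Φ, Fintype.sum_prod_type_right]
  have h3 : ∀ z : {i // i ≠ j} → Finset P, ∑ a : Finset P,
      Φ ((Equiv.funSplitAt j (Finset P)).symm (a, z)) ≤
        (∏ i, (H (z i) * ∏ p ∈ z i, g p)) * B := by
    intro z
    set N : ℕ := ∏ i, nrm v (z i) with hN
    have hNpos : 0 < N := Finset.prod_pos fun i _ => Finset.prod_pos fun p _ => hv p
    have hNR : (0 : ℝ) < N := by exact_mod_cast hNpos
    have e0 : ∀ a i, ((Equiv.funSplitAt j (Finset P)).symm (a, z)) i =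
        if h : i = j then a else z ⟨i, h⟩ := by
      intro a i
      simp [Equiv.funSplitAt, Equiv.piSplitAt]
    have ej : ∀ a, ((Equiv.funSplitAt j (Finset P)).symm (a, z)) j = a := by
      intro a
      rw [e0, dif_pos rfl]
    have ei : ∀ a (i : {i // i ≠ j}), ((Equiv.funSplitAt j (Finset P)).symm (a, z)) i.1 = z i := by
      intro a i
      rw [e0, dif_neg i.2]
    have key : ∀ a, Φ ((Equiv.funSplitAt j (Finset P)).symm (a, z)) =
        (∏ i, (H (z i) * ∏ p ∈ z i, g p)) *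
          ((if R < (nrm v a * N) * p1 ∧ (nrm v a * N) ≤ R then 1 else 0) * ∏ p ∈ a, g p) := by
      intro a
      simp only [hΦ]
      have e1 : ∏ i ∈ univ.erase j, (H ((Equiv.funSplitAt j (Finset P)).symm (a, z) i) *
          ∏ p ∈ (Equiv.funSplitAt j (Finset P)).symm (a, z) i, g p) =
          ∏ i, (H (z i) * ∏ p ∈ z i, g p) := by
        rw [Finset.prod_subtype (p := fun i => i ≠ j) (univ.erase j) (by simp)
          (fun i => H ((Equiv.funSplitAt j (Finset P)).symm (a, z) i) *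
            ∏ p ∈ (Equiv.funSplitAt j (Finset P)).symm (a, z) i, g p)]
        exact Finset.prod_congr rfl fun i _ => by rw [ei a i]
      have e2 : ∏ i, nrm v ((Equiv.funSplitAt j (Finset P)).symm (a, z) i) = nrm v a * N := by
        rw [← Finset.mul_prod_erase univ
          (fun i => nrm v ((Equiv.funSplitAt j (Finset P)).symm (a, z) i)) (mem_univ j), ej, hN,
          Finset.prod_subtype (p := fun i => i ≠ j) (univ.erase j) (by simp)
          (fun i => nrm v ((Equiv.funSplitAt j (Finset P)).symm (a, z) i))]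
        congr 1
        exact Finset.prod_congr rfl fun i _ => by rw [ei a i]
      rw [e1, e2, ej]
    rw [Finset.sum_congr rfl fun a _ => key a, ← Finset.mul_sum]
    apply mul_le_mul_of_nonneg_left _
      (Finset.prod_nonneg fun i _ => mul_nonneg (hH _) (hg' _))
    refine le_trans (le_of_eq ?_) (hW ((R : ℝ) / N))
    unfold Wd
    rw [Finset.sum_filter]
    refine Finset.sum_congr rfl fun a _ => ?_
    have c1 : (R < (nrm v a * N) * p1 ∧ (nrm v a * N) ≤ R) ↔
        ((R : ℝ) / N < (nrm v a : ℝ) * p1 ∧ (nrm v a : ℝ) ≤ (R : ℝ) / N) := by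
      rw [div_lt_iff₀ hNR, le_div_iff₀ hNR]
      constructor
      · rintro ⟨h, h'⟩
        refine ⟨?_, by exact_mod_cast h'⟩
        have : (R : ℝ) < ((nrm v a * N : ℕ) : ℝ) * p1 := by exact_mod_cast h
        push_cast at this
        linarith
      · rintro ⟨h, h'⟩
        refine ⟨?_, by exact_mod_cast h'⟩
        have : (R : ℝ) < ((nrm v a * N : ℕ) : ℝ) * p1 := by
          push_cast
          linarith
        exact_mod_cast this
    by_cases c : (R < (nrm v a * N) * p1 ∧ (nrm v a * N) ≤ R)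
    · rw [if_pos c, if_pos (c1.1 c), one_mul]
    · rw [if_neg c, if_neg (fun h => c (c1.2 h)), zero_mul]
  refine (Finset.sum_le_sum fun z _ => h3 z).trans (le_of_eq ?_)
  rw [← Finset.sum_mul]
  congr 1
  have h4 : ∑ z : {i // i ≠ j} → Finset P, ∏ i, (H (z i) * ∏ p ∈ z i, g p) =
      ∏ i : {i // i ≠ j}, ∑ a : Finset P, (H a * ∏ p ∈ a, g p) := by
    rw [Finset.prod_univ_sum]
    rw [Fintype.piFinset_univ]
  rw [h4, Finset.prod_const]
  unfold SS
  congr 1
  simp [Finset.card_univ, Fintype.card_subtype_compl]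

theorem jump_up (v : P → ℕ) (hv : ∀ p, 1 ≤ v p) (q : P → ℝ) (hq : ∀ p, 12 ≤ q p) (R ℓ u : ℕ) (hu : 2 ≤ u)
    (p0 : P) (j : J) (B : ℝ) (hB : 0 ≤ B)
    (hW : ∀ U : ℝ, Wd v (fun p => xx q p * (1 + KK J * xx q p)) (v p0) U ≤ B) :
    ∑ t : P → Option J, cc q (yy v R (GG ℓ u v)) p0 j t ^ 2 * cprod (fun p => xx q p * (1 + KK J * xx q p)) t ≤
      4 * (ℓ + 2) * B * SS (fun p => xx q p * (1 + KK J * xx q p)) (fun a => GG ℓ u v a ^ 2) ^ (Fintype.card J - 1) +
        2 * KK J ^ 2 * xx q p0 ^ 2 *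
          SS (fun p => xx q p * (1 + KK J * xx q p)) (fun a => GG ℓ u v a ^ 2) ^ Fintype.card J := by
  obtain ⟨hG, hG1, -⟩ := GG_basic v hv ℓ u hu
  set g : P → ℝ := fun p => xx q p * (1 + KK J * xx q p) with hg
  have hK : 0 ≤ KK J := by unfold KK; positivity
  have hg0 : ∀ p, 0 ≤ g p := by
    intro p
    have := Jump_xpos q hq p
    rw [hg]
    dsimp only
    positivity
  have hcp : ∀ t : P → Option J, 0 ≤ cprod g t := by
    intro t
    rw [cprod_supp]
    exact Finset.prod_nonneg fun p _ => hg0 p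
  set H : Finset P → ℝ := fun a => GG ℓ u v a ^ 2 with hH
  have hH0 : ∀ a, 0 ≤ H a := fun a => sq_nonneg _
  have hS0 : 0 ≤ SS g H := by
    unfold SS
    exact Finset.sum_nonneg fun a _ => mul_nonneg (hH0 a) (Finset.prod_nonneg fun p _ => hg0 p)
  have s1 := Jump_sum1 g hg0 H (Jump_D ℓ u v p0) hH0 (Jump_D_nonneg ℓ u v p0) j
  have s2 := Jump_sum2 v hv g hg0 H hH0 R (v p0) j B hW
  have s3 : ∑ t : P → Option J, yy v R (GG ℓ u v) t ^ 2 * cprod g t ≤ SS g H ^ Fintype.card J := by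
    have h1 := sum_parts_le (P := P) (J := J) (fun _ a => H a * ∏ p ∈ a, g p)
      (fun _ a => mul_nonneg (hH0 a) (Finset.prod_nonneg fun p _ => hg0 p))
    refine le_trans (Finset.sum_le_sum fun t _ => ?_) (h1.trans (le_of_eq ?_))
    · rw [Finset.prod_mul_distrib, ← cprod_parts]
      apply mul_le_mul_of_nonneg_right _ (hcp t)
      rw [hH]
      dsimp only
      rw [Finset.prod_pow]
      have h2 : yy v R (GG ℓ u v) t ≤ ∏ i, GG ℓ u v (part t i) := by
        unfold yy
        split_ifs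
        · exact le_refl _
        · exact Finset.prod_nonneg fun i _ => hG.1 _
      exact pow_le_pow_left₀ (yy_nonneg v R _ hG t) h2 2
    · rw [Finset.prod_const, Finset.card_univ]
      rfl
  have sD : ∑ a : Finset P, Jump_D ℓ u v p0 a * ∏ p ∈ a, g p ≤ (ℓ + 1) * B := by
    unfold Jump_D
    have h1 : ∑ a : Finset P, (∑ l ∈ range (ℓ + 1),
        (if l < ℓ then (1 / 2 : ℝ) ^ (l + 1) else (1 / 2 : ℝ) ^ ℓ) *
        (if u ^ 2 ^ l < nrm v a * v p0 ∧ nrm v a ≤ u ^ 2 ^ l then 1 else 0)) * ∏ p ∈ a, g p =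
        ∑ l ∈ range (ℓ + 1), (if l < ℓ then (1 / 2 : ℝ) ^ (l + 1) else (1 / 2 : ℝ) ^ ℓ) *
          Wd v g (v p0) ((u ^ 2 ^ l : ℕ) : ℝ) := by
      rw [Finset.sum_congr rfl fun a _ => Finset.sum_mul _ _ _, Finset.sum_comm]
      refine Finset.sum_congr rfl fun l _ => ?_
      unfold Wd
      rw [Finset.sum_filter, Finset.mul_sum]
      refine Finset.sum_congr rfl fun a _ => ?_
      have c1 : (u ^ 2 ^ l < nrm v a * v p0 ∧ nrm v a ≤ u ^ 2 ^ l) ↔
          (((u ^ 2 ^ l : ℕ) : ℝ) < (nrm v a : ℝ) * (v p0 : ℝ) ∧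
            (nrm v a : ℝ) ≤ ((u ^ 2 ^ l : ℕ) : ℝ)) := by
        constructor
        · rintro ⟨h, h'⟩
          exact ⟨by exact_mod_cast h, by exact_mod_cast h'⟩
        · rintro ⟨h, h'⟩
          exact ⟨by exact_mod_cast h, by exact_mod_cast h'⟩
      by_cases c : (u ^ 2 ^ l < nrm v a * v p0 ∧ nrm v a ≤ u ^ 2 ^ l)
      · rw [if_pos c, if_pos (c1.1 c), mul_one]
      · rw [if_neg c, if_neg (fun h => c (c1.2 h))]
        ring
    rw [h1]
    calc ∑ l ∈ range (ℓ + 1), (if l < ℓ then (1 / 2 : ℝ) ^ (l + 1) else (1 / 2 : ℝ) ^ ℓ) *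
          Wd v g (v p0) ((u ^ 2 ^ l : ℕ) : ℝ) ≤ ∑ l ∈ range (ℓ + 1), 1 * B := by
          refine Finset.sum_le_sum fun l _ => ?_
          exact (mul_le_mul_of_nonneg_left (hW _) (Jump_c ℓ l).1).trans
            (mul_le_mul_of_nonneg_right (Jump_c ℓ l).2 hB)
      _ = (ℓ + 1) * B := by
          rw [Finset.sum_const, card_range, nsmul_eq_mul]
          push_cast
          ring
  have hpt : ∑ t : P → Option J, cc q (yy v R (GG ℓ u v)) p0 j t ^ 2 * cprod g t ≤
      2 * (∑ t : P → Option J, (∏ i ∈ univ.erase j, H (part t i)) *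
        Jump_D ℓ u v p0 (part t j) * cprod g t) +
      2 * (∑ t : P → Option J, (∏ i ∈ univ.erase j, H (part t i)) *
        (if R < nrm v (supp t) * v p0 ∧ nrm v (supp t) ≤ R then 1 else 0) * cprod g t) +
      2 * KK J ^ 2 * xx q p0 ^ 2 * ∑ t : P → Option J, yy v R (GG ℓ u v) t ^ 2 * cprod g t := by
    rw [Finset.mul_sum, Finset.mul_sum, Finset.mul_sum, ← Finset.sum_add_distrib,
      ← Finset.sum_add_distrib]
    refine Finset.sum_le_sum fun t _ => ?_
    have h1 := mul_le_mul_of_nonneg_right (Jump_pt v hv q hq R ℓ u hu p0 j t) (hcp t)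
    refine h1.trans (le_of_eq ?_)
    rw [hH]
    dsimp only
    ring
  have t1 : ∑ t : P → Option J, (∏ i ∈ univ.erase j, H (part t i)) *
        Jump_D ℓ u v p0 (part t j) * cprod g t ≤ SS g H ^ (Fintype.card J - 1) * ((ℓ + 1) * B) :=
    s1.trans (mul_le_mul_of_nonneg_left sD (by positivity))
  have t3 : 2 * KK J ^ 2 * xx q p0 ^ 2 * ∑ t : P → Option J, yy v R (GG ℓ u v) t ^ 2 * cprod g t ≤
      2 * KK J ^ 2 * xx q p0 ^ 2 * SS g H ^ Fintype.card J :=
    mul_le_mul_of_nonneg_left s3 (by positivity)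
  have t4 : 0 ≤ SS g H ^ (Fintype.card J - 1) * ((ℓ + 2) * B) := by positivity
  have t5 : 2 * (SS g H ^ (Fintype.card J - 1) * ((ℓ + 1) * B)) +
      2 * (SS g H ^ (Fintype.card J - 1) * B) ≤
      4 * (ℓ + 2) * B * SS g H ^ (Fintype.card J - 1) := by
    have : 4 * (ℓ + 2) * B * SS g H ^ (Fintype.card J - 1) -
        (2 * (SS g H ^ (Fintype.card J - 1) * ((ℓ + 1) * B)) +
        2 * (SS g H ^ (Fintype.card J - 1) * B)) =
        2 * (SS g H ^ (Fintype.card J - 1) * ((ℓ + 2) * B)) := by ring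
    linarith
  linarith

theorem jump_S (v : P → ℕ) (hv : ∀ p, 1 ≤ v p) (q : P → ℝ) (hq : ∀ p, 12 ≤ q p) (ℓ u : ℕ) (hu : 2 ≤ u) :
    SS (fun p => xx q p * (1 + KK J * xx q p)) (fun a => GG ℓ u v a ^ 2) ≤
      (∏ p, (1 + KK J * xx q p ^ 2)) * SS (xx q) (fun a => GG ℓ u v a ^ 2) := by
  obtain ⟨hG, -, -⟩ := GG_basic v hv ℓ u hu
  have hK : 0 ≤ KK J := by unfold KK; positivity
  have h1 := one_up (xx q) (fun p => KK J * xx q p) (fun p => (Jump_xpos q hq p).le)
    (fun p => mul_nonneg hK (Jump_xpos q hq p).le) (fun a => GG ℓ u v a ^ 2) (anti_sq _ hG)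
  refine h1.trans (le_of_eq ?_)
  congr 1
  refine Finset.prod_congr rfl (fun p _ => ?_)
  ring

end Pool.CP
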