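import Pool.Agent.Lib.MP_c77da8_nt.CP.DefC
import Pool.Agent.Lib.MP_c77da8_nt.CP.FormE
import Pool.Agent.Lib.MP_c77da8_nt.CP.Model

/-!
# CP-KapC: the size of `κ = kpN`

Notation `Q = Qe w (u^Th) e`, `N ≤ (u+1)^(16 Th)`, `α = A/φ(A) ≥ wD w/2` (`totA`).
PROOF.  `log N ≤ 16 Th log (u+1) ≤ (161/10) Th log u` (`u ≥ u0`).  `model`: `S1 ≥ ℓ log u/(4 wD)`, `log u/(2 wD) ≤ S2 ≤ 2 CV log u/wD`.
(1) `κ = α S1²/(S2 log N) ≥ (wD/2) (ℓ log u/(4 wD))²/((2 CV log u/wD) (161/10) Th log u) = ℓ²/(1030.4 CV Th)`, `Th = 32 CV (ℓ+1) K`, `ℓ/(ℓ+1) ≥ 1/2`: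
`≥ ℓ/(65946 CV² K) ≥ ℓ/(100000 CV² K)`.
(2) `100 ≤ α EP_i`: `EP_i ≥ (1/2) S1² S2^(K-1) ≥ (1/2) S1²` (`S2 ≥ 1` for `u ≥ u0`: `wD w ≤ C log w` (`wD_le`), `w ≤ log u`), and
`α S1²/2 ≥ (wD/4) (ℓ log u/(4 wD))² = ℓ² log² u/(64 wD)`, large.
(3) `κ² S2^K log N = α² S1⁴ S2^(K-2)/log N ≥ (wD²/4) (ℓ log u/(4 wD))⁴/((161/10) Th log u) = ℓ⁴ log³ u/(16487 Th wD²) ≥ 1` (`K ≥ 2`, `S2 ≥ 1`).
-/

set_option autoImplicit false

namespace Pool.CP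

open Finset Pool.DL


/-- the lower bound for `a * S1 ^ 2` -/
private lemma kap_num (ℓ L D S1 a : ℝ) (hℓ : 1 ≤ ℓ) (hL : 0 < L) (hD : 1 ≤ D) (hS1 : ℓ * L / (4 * D) ≤ S1)
    (ha : D / 2 ≤ a) : ℓ ^ 2 * L ^ 2 / (32 * D) ≤ a * S1 ^ 2 := by
  have hD0 : 0 < D := by linarith
  have h0 : 0 ≤ ℓ * L / (4 * D) := by positivity
  calc ℓ ^ 2 * L ^ 2 / (32 * D) = D / 2 * (ℓ * L / (4 * D)) ^ 2 := by
        field_simp
        ring
    _ ≤ a * S1 ^ 2 := by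
        apply mul_le_mul ha (pow_le_pow_left₀ h0 hS1 2) (by positivity) (by linarith)

/-- (1) -/
private lemma kap_one (K CV ℓ Th L D S1 S2 a LN : ℝ) (hK : 2 ≤ K) (hCV : 1 ≤ CV) (hℓ : 1 ≤ ℓ) (hL : 0 < L) (hD : 1 ≤ D)
    (hTh : Th = 32 * CV * (ℓ + 1) * K) (hS1 : ℓ * L / (4 * D) ≤ S1) (hS20 : 0 < S2) (hS2 : S2 ≤ 2 * CV * L / D)
    (ha : D / 2 ≤ a) (hLN0 : 0 < LN) (hLN : LN ≤ 161 / 10 * Th * L) :
    ℓ / (100000 * CV ^ 2 * K) ≤ a * S1 ^ 2 / (S2 * LN) := by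
  have hD0 : 0 < D := by linarith
  rw [le_div_iff₀ (mul_pos hS20 hLN0)]
  refine le_trans ?_ (kap_num ℓ L D S1 a hℓ hL hD hS1 ha)
  have h1 : S2 * LN ≤ 2 * CV * L / D * (161 / 10 * Th * L) :=
    mul_le_mul hS2 hLN hLN0.le (by positivity)
  have h2 : 0 ≤ ℓ / (100000 * CV ^ 2 * K) := by positivity
  calc ℓ / (100000 * CV ^ 2 * K) * (S2 * LN) ≤ ℓ / (100000 * CV ^ 2 * K) * (2 * CV * L / D * (161 / 10 * Th * L)) :=
        mul_le_mul_of_nonneg_left h1 h2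
    _ = ℓ * (ℓ + 1) * (10304 / 1000000) * (L ^ 2 / D) := by
        rw [hTh]
        field_simp
        ring
    _ ≤ ℓ ^ 2 / 32 * (L ^ 2 / D) := by
        apply mul_le_mul_of_nonneg_right _ (by positivity)
        nlinarith
    _ = ℓ ^ 2 * L ^ 2 / (32 * D) := by
        field_simp

/-- (2) -/
private lemma kap_two (K : ℕ) (ℓ L D S1 S2 a E : ℝ) (hℓ : 1 ≤ ℓ) (hL : 3200 ≤ L) (hD : 1 ≤ D) (hDL : 2 * D ≤ L)
    (hS1 : ℓ * L / (4 * D) ≤ S1) (hS2 : 1 ≤ S2) (ha : D / 2 ≤ a) (hE : 1 / 2 * S1 ^ 2 * S2 ^ (K - 1) ≤ E) :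
    100 ≤ a * E := by
  have hD0 : 0 < D := by linarith
  have h1 := kap_num ℓ L D S1 a hℓ (by linarith) hD hS1 ha
  have h2 : 1 / 2 * S1 ^ 2 ≤ E := by
    refine le_trans ?_ hE
    have h3 : 1 ≤ S2 ^ (K - 1) := one_le_pow₀ hS2
    nlinarith [sq_nonneg S1]
  have ha0 : 0 ≤ a := by linarith
  calc (100 : ℝ) ≤ 1 / 2 * (ℓ ^ 2 * L ^ 2 / (32 * D)) := by
        rw [show 1 / 2 * (ℓ ^ 2 * L ^ 2 / (32 * D)) = ℓ ^ 2 * L ^ 2 / (64 * D) by field_simp; ring]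
        rw [le_div_iff₀ (by positivity)]
        have h4 : 1 ≤ ℓ ^ 2 := one_le_pow₀ hℓ
        have h5 : (3200 : ℝ) * L ≤ L ^ 2 := by nlinarith
        have h6 : L ^ 2 ≤ ℓ ^ 2 * L ^ 2 := by nlinarith [sq_nonneg L]
        nlinarith
    _ ≤ 1 / 2 * (a * S1 ^ 2) := by linarith
    _ = a * (1 / 2 * S1 ^ 2) := by ring
    _ ≤ a * E := mul_le_mul_of_nonneg_left h2 ha0

/-- (3) -/
private lemma kap_three (K : ℕ) (hK : 2 ≤ K) (ℓ Th L D S1 S2 a LN : ℝ) (hℓ : 1 ≤ ℓ) (hTh : 0 < Th) (hL : 5000 * Th ≤ L)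
    (hD : 1 ≤ D) (hDL : 2 * D ≤ L)
    (hS1 : ℓ * L / (4 * D) ≤ S1) (hS2 : 1 ≤ S2) (ha : D / 2 ≤ a) (hLN0 : 0 < LN) (hLN : LN ≤ 161 / 10 * Th * L) :
    1 ≤ (a * S1 ^ 2 / (S2 * LN)) ^ 2 * S2 ^ K * LN := by
  have hD0 : 0 < D := by linarith
  have hL0 : 0 < L := by nlinarith
  have hS20 : 0 < S2 := by linarith
  have h1 := kap_num ℓ L D S1 a hℓ hL0 hD hS1 ha
  obtain ⟨k, rfl⟩ : ∃ k, K = k + 2 := ⟨K - 2, by omega⟩
  have e1 : (a * S1 ^ 2 / (S2 * LN)) ^ 2 * S2 ^ (k + 2) * LN = (a * S1 ^ 2) ^ 2 / LN * S2 ^ k := by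
    rw [pow_add]
    field_simp
  rw [e1]
  have h2 : 1 ≤ S2 ^ k := one_le_pow₀ hS2
  have h3 : L ^ 2 / (32 * D) ≤ a * S1 ^ 2 := by
    refine le_trans ?_ h1
    apply div_le_div_of_nonneg_right _ (by positivity)
    have h4 : 1 ≤ ℓ ^ 2 := one_le_pow₀ hℓ
    nlinarith [sq_nonneg L]
  have h4 : L / 16 ≤ a * S1 ^ 2 := by
    refine le_trans ?_ h3
    rw [div_le_div_iff₀ (by norm_num) (by positivity)]
    nlinarith
  have h5 : 1 ≤ (a * S1 ^ 2) ^ 2 / LN := by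
    rw [le_div_iff₀ hLN0, one_mul]
    calc LN ≤ 161 / 10 * Th * L := hLN
      _ ≤ (L / 16) ^ 2 := by nlinarith
      _ ≤ (a * S1 ^ 2) ^ 2 := pow_le_pow_left₀ (by positivity) h4 2
  nlinarith

theorem kap_low (CV : ℕ) (hCV1 : 1 ≤ CV)
    (hCV : ∀ w R e x : ℕ, 12 ≤ w → w ≤ x → x ≤ R → VV (vr (Qe w R e)) (qr (Qe w R e)) x ∅ ≤ CV * Real.log x / wD w)
    (K ℓ Th : ℕ) (hℓ : 1 ≤ ℓ) (hK : 2 ^ ℓ ≤ K) (hTh : Th = 32 * CV * (ℓ + 1) * K) : ∃ u0 : ℕ, ∀ u ≥ u0,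
    ∀ (J : Type) [Fintype J] [DecidableEq J], Fintype.card J = K → ∀ (w e N A : ℕ),
      200 * K ^ 2 + 12 ≤ w → (w : ℝ) ≤ Real.log u → u ^ (16 * Th) ≤ N → N < (u + 1) ^ (16 * Th) → MulOK w e A →
      1 ≤ S2N (Qe w (u ^ Th) e) ℓ u ∧ 0 < S1N (Qe w (u ^ Th) e) ℓ u ∧ 0 < Real.log N ∧
      Real.log N ≤ 161 / 10 * Th * Real.log u ∧
      (ℓ : ℝ) / (100000 * CV ^ 2 * K) ≤ kpN (Qe w (u ^ Th) e) ℓ u A N ∧
      (∀ i : J, 100 ≤ (A : ℝ) / (Nat.totient A : ℝ) *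
        EP i (qr (Qe w (u ^ Th) e)) (fun ξ : {p // p ∈ Qe w (u ^ Th) e} → Option J =>
          Lam (qr (Qe w (u ^ Th) e)) (yM (Qe w (u ^ Th) e) ℓ u Th) ξ ^ 2)) ∧
      1 ≤ kpN (Qe w (u ^ Th) e) ℓ u A N ^ 2 * S2N (Qe w (u ^ Th) e) ℓ u ^ K * Real.log N := by
  obtain ⟨C, hC0, hC⟩ := wD_le
  have hK2 : 2 ≤ K := by
    have : 2 ^ 1 ≤ 2 ^ ℓ := Nat.pow_le_pow_right (by norm_num) hℓ
    omega
  have hCVr : (1 : ℝ) ≤ CV := by exact_mod_cast hCV1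
  have hℓr : (1 : ℝ) ≤ ℓ := by exact_mod_cast hℓ
  have hKr : (2 : ℝ) ≤ K := by exact_mod_cast hK2
  have hThr : (Th : ℝ) = 32 * CV * (ℓ + 1) * K := by rw [hTh]; push_cast; ring
  have hTh1 : 1 ≤ Th := by
    rw [hTh]
    have : 0 < 32 * CV * (ℓ + 1) * K := by positivity
    omega
  have hTh0 : (0 : ℝ) < Th := by exact_mod_cast hTh1
  have hlogt : Filter.Tendsto (fun N : ℕ => Real.log (N : ℝ)) Filter.atTop Filter.atTop :=
    Real.tendsto_log_atTop.comp tendsto_natCast_atTop_atTop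
  obtain ⟨u1, hu1⟩ := Filter.eventually_atTop.mp
    (hlogt.eventually (Filter.eventually_ge_atTop (max (max 3200 ((4 * C) ^ 2)) (5000 * (Th : ℝ)))))
  refine ⟨max u1 1000, fun u hu J _ _ hJ w e N A hw hwu hN hN2 hA => ?_⟩
  have hlu := hu1 u (le_trans (le_max_left _ _) hu)
  have hu1000 : 1000 ≤ u := le_trans (le_max_right _ _) hu
  have hur : (1000 : ℝ) ≤ u := by exact_mod_cast hu1000
  have hlu1 : (3200 : ℝ) ≤ Real.log u := le_trans (le_trans (le_max_left _ _) (le_max_left _ _)) hlu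
  have hlu2 : (4 * C) ^ 2 ≤ Real.log u := le_trans (le_trans (le_max_right _ _) (le_max_left _ _)) hlu
  have hlu3 : 5000 * (Th : ℝ) ≤ Real.log u := le_trans (le_max_right _ _) hlu
  have hw12 : 12 ≤ w := by omega
  have hwr : (12 : ℝ) ≤ w := by exact_mod_cast hw12
  have hwleu : w ≤ u := by
    have h1 : (w : ℝ) ≤ u := by
      have := Real.log_le_sub_one_of_pos (show (0 : ℝ) < u by linarith)
      linarith
    exact_mod_cast h1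
  -- `2 wD w ≤ log u`
  have hW2 : 2 * wD w ≤ Real.log u := by
    have h1 := hC w (by omega)
    have h2 : Real.log w ≤ Real.log (Real.log u) := Real.log_le_log (by linarith) hwu
    have h3 : Real.log (Real.log u) ≤ 2 * Real.sqrt (Real.log u) := by
      have h4 : Real.log (Real.sqrt (Real.log u)) ≤ Real.sqrt (Real.log u) :=
        (Real.log_le_sub_one_of_pos (Real.sqrt_pos.mpr (by linarith))).trans (by linarith)
      rw [Real.log_sqrt (by linarith)] at h4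
      linarith
    have h5 : 4 * C ≤ Real.sqrt (Real.log u) := Real.le_sqrt_of_sq_le hlu2
    have h6 : Real.sqrt (Real.log u) * Real.sqrt (Real.log u) = Real.log u := Real.mul_self_sqrt (by linarith)
    have h7 : 0 ≤ Real.sqrt (Real.log u) := Real.sqrt_nonneg _
    calc 2 * wD w ≤ 2 * (C * Real.log w) := by linarith
      _ ≤ 2 * (C * (2 * Real.sqrt (Real.log u))) := by gcongr; exact h2.trans h3
      _ = (4 * C) * Real.sqrt (Real.log u) := by ring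
      _ ≤ Real.sqrt (Real.log u) * Real.sqrt (Real.log u) := by gcongr
      _ = Real.log u := h6
  have hW1 : 1 ≤ wD w := wD_one w
  have hW0 : 0 < wD w := by linarith
  have hL0 : 0 < Real.log u := by linarith
  -- `log N`
  have hN1 : 1 < N := by
    have h1 : u ≤ u ^ (16 * Th) := Nat.le_self_pow (by omega) u
    omega
  have hLN0 : 0 < Real.log N := Real.log_pos (by exact_mod_cast hN1)
  have hLN : Real.log N ≤ 161 / 10 * Th * Real.log u := by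
    have h1 : Real.log N ≤ Real.log (((u + 1) ^ (16 * Th) : ℕ) : ℝ) :=
      Real.log_le_log (by exact_mod_cast (by omega : 0 < N)) (by exact_mod_cast hN2.le)
    have h2 : Real.log (((u + 1) ^ (16 * Th) : ℕ) : ℝ) = 16 * Th * Real.log ((u : ℝ) + 1) := by
      push_cast
      rw [Real.log_pow]
      push_cast
      ring
    have h3 : Real.log ((u : ℝ) + 1) ≤ Real.log u + 1 := by
      have h4 : (u : ℝ) + 1 = u * (1 + 1 / u) := by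
        field_simp
      rw [h4, Real.log_mul (by positivity) (by positivity)]
      have h5 := Real.log_le_sub_one_of_pos (show (0 : ℝ) < 1 + 1 / u by positivity)
      have h6 : (1 : ℝ) / u ≤ 1 := by
        rw [div_le_one (by positivity)]
        linarith
      linarith
    rw [h2] at h1
    refine h1.trans ?_
    have h7 : 16 * Real.log ((u : ℝ) + 1) ≤ 161 / 10 * Real.log u := by linarith
    nlinarith
  obtain ⟨m1, m2, m3, _, m5⟩ := model CV hCV1 hCV J ℓ w u e Th hℓ (by rw [hJ]; exact hK) (by rw [hJ]; exact hTh)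
    (by rw [hJ]; exact hw) hwleu
  have htot := (totA w e A hA).1
  have hS2 : 1 ≤ S2N (Qe w (u ^ Th) e) ℓ u := by
    refine le_trans ?_ m1
    rw [le_div_iff₀ (by positivity)]
    linarith
  have hS1 : 0 < S1N (Qe w (u ^ Th) e) ℓ u := lt_of_lt_of_le (by positivity) m3
  refine ⟨hS2, hS1, hLN0, hLN, ?_, ?_, ?_⟩
  · exact kap_one K CV ℓ Th (Real.log u) (wD w) _ _ _ _ hKr hCVr hℓr hL0 hW1 hThr m3 (by linarith) m2 htot hLN0 hLN
  · intro i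
    have m5' := m5 i
    rw [hJ] at m5'
    exact kap_two K ℓ (Real.log u) (wD w) _ _ _ _ hℓr hlu1 hW1 hW2 m3 hS2 htot m5'
  · exact kap_three K hK2 ℓ Th (Real.log u) (wD w) _ _ _ _ hℓr hTh0 hlu3 hW1 hW2 m3 hS2 htot hLN0 hLN

end Pool.CP
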