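import Pool.Agent.Lib.MP_c77da8_nt.CP.Mp

/-!
# CP-Loc: local computations

`Bd K u q` (file Sv6) is the set of residues `b` mod `q` with `2^l M0 b = 1` for some `l < K`.  Let `p s = 2^i M0 v - 1`.
Then `2^l M0 v = 1 (mod q)` iff `2^l (p s + 1) = 2^i (mod q)`.

PROOF.  `Bp_card`: the map `b ↦ (2^i M0)⁻¹ (b s + 1)` mod `q` (work in `ZMod q`, a field) is injective on
`Bp K i s q ∪ {0}` (`s` is invertible mod `q`) and maps it into `Bd K u q` (for `b = 0` take `l = i`).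
`surv_of`: contrapositive, multiply `2^l M0 v = 1` by `2^i`.
`loc_prod`: for `n = #(Bd K u q) ≥ 1`: `1 - #(Bp)/(q-1) ≥ 1 - (n-1)/(q-1) = (1 - n/q) (1 - 1/q)⁻¹`, so the right side is
`≥ VV K u t * ∏_{blocks} (1 - 1/q)⁻¹`, and `mert_prod`.  (`s` is coprime to the primes `q ≤ 2^(u 2^t)` of the blocks; `VV ≥ 0`,
as `#(Bd K u q) ≤ K ≤ q/2`, `Bd_card`, `blk_gt`.)
-/

set_option autoImplicit false

namespace Pool.CP

open Finset Pool.Agent.Lib.MP_c77da8_nt.Sv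

/-- the residues mod `q` to be avoided by `p` -/
def Bp (K i s q : ℕ) : Finset ℕ :=
  (range q).filter fun b => b ≠ 0 ∧ ∃ l < K, 2 ^ l * (b * s + 1) % q = 2 ^ i % q

/-- the sieve product -/
noncomputable def VV (K u t : ℕ) : ℝ := ∏ j, ∏ q ∈ blk u t j, (1 - ((Bd K u q).card : ℝ) / q)

theorem Bp_lt {K i s q b : ℕ} (h : b ∈ Bp K i s q) : b < q ∧ b ≠ 0 :=
  ⟨mem_range.1 (mem_filter.1 h).1, (mem_filter.1 h).2.1⟩

theorem loc_mod_iff {q : ℕ} (hq : q.Prime) (n : ℕ) : n % q = 1 ↔ ((n : ℕ) : ZMod q) = 1 := by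
  have h := ZMod.natCast_eq_natCast_iff' n 1 q
  rw [Nat.mod_eq_of_lt hq.one_lt, Nat.cast_one] at h
  exact h.symm

theorem loc_ne_zero {u q : ℕ} (hu : 1 ≤ u) (hq : q.Prime) (h : 2 ^ u < q) (i : ℕ) :
    (((2 ^ i * M0 u : ℕ) : ℕ) : ZMod q) ≠ 0 := by
  intro h0
  rw [ZMod.natCast_eq_zero_iff] at h0
  have h1 := cop_form hu hq h i
  rw [Nat.Prime.coprime_iff_not_dvd hq] at h1
  exact h1 h0

theorem loc_two_ne {u q : ℕ} (hu : 1 ≤ u) (hq : q.Prime) (h : 2 ^ u < q) (i : ℕ) :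
    ((2 : ZMod q) ^ i) ≠ 0 := by
  intro h0
  apply loc_ne_zero hu hq h i
  push_cast
  rw [h0, zero_mul]

theorem Bp_card (K u i s q : ℕ) (hu : 1 ≤ u) (hi : i < K) (hq : q.Prime) (h : 2 ^ u < q)
    (hs : Nat.Coprime s q) : (Bp K i s q).card + 1 ≤ (Bd K u q).card := by
  classical
  have hfact : Fact q.Prime := ⟨hq⟩
  have hA := loc_ne_zero hu hq h i
  have h2 := loc_two_ne hu hq h i
  have hs0 : ((s : ℕ) : ZMod q) ≠ 0 := by
    intro h0
    rw [ZMod.natCast_eq_zero_iff] at h0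
    rw [Nat.coprime_comm, Nat.Prime.coprime_iff_not_dvd hq] at hs
    exact hs h0
  have h0 : (0 : ℕ) ∉ Bp K i s q := fun hb => (Bp_lt hb).2 rfl
  rw [← card_insert_of_notMem h0]
  let φ : ℕ → ℕ := fun b =>
    ((((2 ^ i * M0 u : ℕ) : ℕ) : ZMod q)⁻¹ * ((b * s + 1 : ℕ) : ZMod q)).val
  have hφ : ∀ b, (((2 ^ i * M0 u : ℕ) : ℕ) : ZMod q) * ((φ b : ℕ) : ZMod q) =
      ((b * s + 1 : ℕ) : ZMod q) := by
    intro b
    simp only [φ]
    rw [ZMod.natCast_zmod_val, mul_inv_cancel_left₀ hA]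
  refine card_le_card_of_injOn φ ?_ ?_
  · intro b hb
    have hb' : b ∈ insert 0 (Bp K i s q) := hb
    have hex : ∃ l < K, ((2 : ZMod q) ^ l) * ((b * s + 1 : ℕ) : ZMod q) = (2 : ZMod q) ^ i := by
      rcases mem_insert.1 hb' with hb0 | hb1
      · refine ⟨i, hi, ?_⟩
        rw [hb0]
        simp
      · obtain ⟨_, _, l, hl, hl2⟩ := mem_filter.1 hb1
        refine ⟨l, hl, ?_⟩
        have := (ZMod.natCast_eq_natCast_iff' (2 ^ l * (b * s + 1)) (2 ^ i) q).2 hl2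
        push_cast at this ⊢
        exact this
    obtain ⟨l, hl, hl2⟩ := hex
    have hv : φ b < q := ZMod.val_lt _
    refine mem_coe.2 (mem_filter.2 ⟨mem_range.2 hv, l, hl, ?_⟩)
    rw [loc_mod_iff hq]
    have h3 : (2 : ZMod q) ^ i * (((2 ^ l * (M0 u * φ b) : ℕ) : ℕ) : ZMod q) = (2 : ZMod q) ^ i * 1 := by
      calc (2 : ZMod q) ^ i * (((2 ^ l * (M0 u * φ b) : ℕ) : ℕ) : ZMod q)
          = (2 : ZMod q) ^ l * ((((2 ^ i * M0 u : ℕ) : ℕ) : ZMod q) * ((φ b : ℕ) : ZMod q)) := by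
            push_cast
            ring
        _ = (2 : ZMod q) ^ l * ((b * s + 1 : ℕ) : ZMod q) := by rw [hφ b]
        _ = (2 : ZMod q) ^ i := hl2
        _ = (2 : ZMod q) ^ i * 1 := (mul_one _).symm
    exact mul_left_cancel₀ h2 h3
  · intro b hb c hc hbc
    have hb' : b ∈ insert 0 (Bp K i s q) := hb
    have hc' : c ∈ insert 0 (Bp K i s q) := hc
    have lt_of : ∀ x ∈ insert 0 (Bp K i s q), x < q := by
      intro x hx
      rcases mem_insert.1 hx with hx0 | hx1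
      · rw [hx0]
        exact hq.pos
      · exact (Bp_lt hx1).1
    have h3 : ((b * s + 1 : ℕ) : ZMod q) = ((c * s + 1 : ℕ) : ZMod q) := by
      rw [← hφ b, ← hφ c, hbc]
    push_cast at h3
    have h4 : ((b : ℕ) : ZMod q) * ((s : ℕ) : ZMod q) = ((c : ℕ) : ZMod q) * ((s : ℕ) : ZMod q) :=
      add_right_cancel h3
    have h5 := mul_right_cancel₀ hs0 h4
    have h6 := (ZMod.natCast_eq_natCast_iff' b c q).1 h5
    rwa [Nat.mod_eq_of_lt (lt_of b hb'), Nat.mod_eq_of_lt (lt_of c hc')] at h6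

theorem surv_of (K u i s p v q : ℕ) (hu : 1 ≤ u) (hq : q.Prime) (h : 2 ^ u < q) (hp : ¬ q ∣ p)
    (he : p * s + 1 = 2 ^ i * (M0 u * v)) (hB : p % q ∉ Bp K i s q) : v % q ∉ Bd K u q := by
  have hfact : Fact q.Prime := ⟨hq⟩
  intro hv
  apply hB
  obtain ⟨_, l, hl, hl2⟩ := mem_filter.1 hv
  rw [loc_mod_iff hq] at hl2
  refine mem_filter.2 ⟨mem_range.2 (Nat.mod_lt _ hq.pos), ?_, l, hl, ?_⟩
  · intro h0
    exact hp (Nat.dvd_of_mod_eq_zero h0)
  · rw [← ZMod.natCast_eq_natCast_iff']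
    push_cast at hl2 ⊢
    rw [ZMod.natCast_mod] at hl2 ⊢
    have he' : ((p : ℕ) : ZMod q) * ((s : ℕ) : ZMod q) + 1 =
        (2 : ZMod q) ^ i * (((M0 u : ℕ) : ZMod q) * ((v : ℕ) : ZMod q)) := by
      have := congrArg (fun n : ℕ => ((n : ℕ) : ZMod q)) he
      push_cast at this
      exact this
    rw [he']
    calc (2 : ZMod q) ^ l * ((2 : ZMod q) ^ i * (((M0 u : ℕ) : ZMod q) * ((v : ℕ) : ZMod q)))
        = (2 : ZMod q) ^ i * ((2 : ZMod q) ^ l * (((M0 u : ℕ) : ZMod q) * ((v : ℕ) : ZMod q))) := by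
          ring
      _ = (2 : ZMod q) ^ i := by rw [hl2, mul_one]

theorem loc_prod (K u t i s : ℕ) (hu : 1 ≤ u) (hK : 2 * K ≤ 2 ^ u) (hi : i < K) (hs0 : s ≠ 0)
    (hs : ∀ p ∈ s.primeFactors, 2 ^ (u * 2 ^ t) < p) :
    ((u * 2 ^ t : ℕ) : ℝ) * Real.log 2 *
      (((Nat.totient (2 ^ i * M0 u) : ℕ) : ℝ) / ((2 ^ i * M0 u : ℕ) : ℝ)) * VV K u t ≤
      ∏ j, ∏ q ∈ blk u t j, (1 - ((Bp K i s q).card : ℝ) / ((q : ℝ) - 1)) := by
  have key : ∀ j : Fin t, ∀ q ∈ blk u t j,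
      (0 : ℝ) ≤ 1 - ((Bd K u q).card : ℝ) / q ∧ (0 : ℝ) < 1 - 1 / (q : ℝ) ∧
      (1 - ((Bd K u q).card : ℝ) / q) * (1 - 1 / (q : ℝ))⁻¹ ≤
        1 - ((Bp K i s q).card : ℝ) / ((q : ℝ) - 1) := by
    intro j q hq
    have hqp : q.Prime := (mem_blk.1 hq).1
    have hgt := blk_gt hq
    have hle := blk_le hq
    have hcop : Nat.Coprime s q := by
      rw [Nat.coprime_comm, Nat.Prime.coprime_iff_not_dvd hqp]
      intro hd
      have := hs q (Nat.mem_primeFactors.2 ⟨hqp, hd, hs0⟩)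
      omega
    have h1 := Bp_card K u i s q hu hi hqp hgt hcop
    have h2 := Bd_card K u q hu hqp hgt
    have hq2 : 2 ≤ q := hqp.two_le
    have hqr : (2 : ℝ) ≤ (q : ℝ) := by exact_mod_cast hq2
    have hq0 : (0 : ℝ) < (q : ℝ) := by linarith
    have h1r : ((Bp K i s q).card : ℝ) + 1 ≤ ((Bd K u q).card : ℝ) := by exact_mod_cast h1
    have h2r : ((Bd K u q).card : ℝ) ≤ (q : ℝ) := by
      have : (Bd K u q).card ≤ q := by omega
      exact_mod_cast this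
    refine ⟨?_, ?_, ?_⟩
    · rw [sub_nonneg, div_le_one hq0]
      exact h2r
    · rw [sub_pos, div_lt_one hq0]
      linarith
    · have e1 : (1 - ((Bd K u q).card : ℝ) / q) * (1 - 1 / (q : ℝ))⁻¹ =
          1 - (((Bd K u q).card : ℝ) - 1) / ((q : ℝ) - 1) := by
        have hq1 : (q : ℝ) - 1 ≠ 0 := by linarith
        field_simp
        ring
      rw [e1]
      apply sub_le_sub_left
      apply div_le_div_of_nonneg_right _ (by linarith)
      linarith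
  have hm := mert_prod u t i hu
  have hV : 0 ≤ VV K u t := prod_nonneg fun j _ => prod_nonneg fun q hq => (key j q hq).1
  have e2 : VV K u t * (∏ j, ∏ q ∈ blk u t j, (1 - 1 / (q : ℝ)))⁻¹ =
      ∏ j, ∏ q ∈ blk u t j, ((1 - ((Bd K u q).card : ℝ) / q) * (1 - 1 / (q : ℝ))⁻¹) := by
    unfold VV
    rw [← prod_inv_distrib, ← prod_mul_distrib]
    refine prod_congr rfl fun j _ => ?_
    rw [← prod_inv_distrib, ← prod_mul_distrib]
  calc ((u * 2 ^ t : ℕ) : ℝ) * Real.log 2 *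
      (((Nat.totient (2 ^ i * M0 u) : ℕ) : ℝ) / ((2 ^ i * M0 u : ℕ) : ℝ)) * VV K u t
      ≤ (∏ j, ∏ q ∈ blk u t j, (1 - 1 / (q : ℝ)))⁻¹ * VV K u t :=
        mul_le_mul_of_nonneg_right hm hV
    _ = ∏ j, ∏ q ∈ blk u t j, ((1 - ((Bd K u q).card : ℝ) / q) * (1 - 1 / (q : ℝ))⁻¹) := by
        rw [mul_comm, e2]
    _ ≤ ∏ j, ∏ q ∈ blk u t j, (1 - ((Bp K i s q).card : ℝ) / ((q : ℝ) - 1)) := by
        refine prod_le_prod (fun j _ => prod_nonneg fun q hq => ?_) (fun j _ =>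
          prod_le_prod (fun q hq => ?_) (fun q hq => (key j q hq).2.2))
        · exact mul_nonneg (key j q hq).1 (inv_nonneg.2 (key j q hq).2.1.le)
        · exact mul_nonneg (key j q hq).1 (inv_nonneg.2 (key j q hq).2.1.le)

end Pool.CP
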