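import Pool.Agent.Lib.BV.Defs

/-!
# CP-PrC: primes with prescribed sets of residues

PROOF.  `cls_card`: induction over `D` (for all `M`, `v0`), inserting `q`: by the Chinese remainder theorem
(`Nat.chineseRemainder`) the condition `c ≡ v0 (mod M)`, `c % q = b` is `c ≡ v_b (mod M q)`, so the count is
`∑_{b ∈ B q} ∏_{q' ∈ D} #(B q')`.
`prime_class`: `F` = the set of `cls_card`.  For every prime `p ≤ Y` counted on the left, `p % (M ∏ q) ∈ F`, and
conversely; so the left side is `∑_{c ∈ F} (Ep Y (M ∏ q) c + pp Y/φ(M ∏ q))`, where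
`φ(M ∏ q) = φ(M) ∏ (q - 1)`, and `#F = ∏ #(B q)`.
-/

set_option autoImplicit false

namespace Pool.CP

open Finset

/-- the number of primes `≤ y` -/
noncomputable def pc (y : ℕ) : ℝ := (((Icc 1 y).filter (fun n => n.Prime)).card : ℝ)

theorem cls_card (D : Finset ℕ) (hD : ∀ q ∈ D, q.Prime) (B : ℕ → Finset ℕ)
    (hB : ∀ q ∈ D, ∀ b ∈ B q, b < q) : ∀ M v0 : ℕ, 0 < M → (∀ q ∈ D, Nat.Coprime M q) →
    ((range (M * ∏ q ∈ D, q)).filter fun c => c ≡ v0 [MOD M] ∧ ∀ q ∈ D, c % q ∈ B q).card =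
      ∏ q ∈ D, (B q).card := by
  classical
  induction D using Finset.induction_on with
  | empty =>
    intro M v0 hM _
    have : ((range (M * ∏ q ∈ (∅ : Finset ℕ), q)).filter
        fun c => c ≡ v0 [MOD M] ∧ ∀ q ∈ (∅ : Finset ℕ), c % q ∈ B q) = {v0 % M} := by
      ext c
      simp only [prod_empty, mul_one, mem_filter, mem_range, notMem_empty, false_imp_iff,
        implies_true, and_true, mem_singleton]
      constructor
      · rintro ⟨hc, h⟩
        have := h
        rw [Nat.ModEq, Nat.mod_eq_of_lt hc] at this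
        exact this
      · rintro rfl
        exact ⟨Nat.mod_lt _ hM, Nat.mod_modEq _ _⟩
    rw [this]
    simp
  | insert q D hq ih =>
    intro M v0 hM hco
    have hqp : q.Prime := hD q (mem_insert_self _ _)
    have hMq : Nat.Coprime M q := hco q (mem_insert_self _ _)
    have hD' : ∀ r ∈ D, r.Prime := fun r hr => hD r (mem_insert_of_mem hr)
    have hB' : ∀ r ∈ D, ∀ b ∈ B r, b < r := fun r hr => hB r (mem_insert_of_mem hr)
    have hco' : ∀ r ∈ D, Nat.Coprime (M * q) r := by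
      intro r hr
      refine Nat.Coprime.mul_left (hco r (mem_insert_of_mem hr)) ?_
      refine (Nat.coprime_primes hqp (hD' r hr)).2 ?_
      rintro rfl
      exact hq hr
    have hfib := Finset.card_eq_sum_card_fiberwise (f := fun c : ℕ => c % q)
      (s := (range (M * ∏ q ∈ insert q D, q)).filter
        fun c => c ≡ v0 [MOD M] ∧ ∀ r ∈ insert q D, c % r ∈ B r) (t := B q)
      (by
        intro c hc
        have hc' := (mem_filter.1 (Finset.mem_coe.1 hc)).2.2
        exact Finset.mem_coe.2 (hc' q (mem_insert_self _ _)))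
    rw [hfib, prod_insert hq (f := fun r => (B r).card), card_eq_sum_ones (B q), sum_mul]
    refine sum_congr rfl fun b hb => ?_
    have hbq : b < q := hB q (mem_insert_self _ _) b hb
    obtain ⟨v, hv1, hv2⟩ := Nat.chineseRemainder hMq v0 b
    rw [one_mul, ← ih hD' hB' (M * q) v (Nat.mul_pos hM hqp.pos) hco']
    congr 1
    ext c
    simp only [mem_filter, mem_range, prod_insert hq, ← mul_assoc]
    constructor
    · rintro ⟨⟨hc, h1, h2⟩, h3⟩
      refine ⟨hc, ?_, fun r hr => h2 r (mem_insert_of_mem hr)⟩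
      refine (Nat.modEq_and_modEq_iff_modEq_mul hMq).1 ⟨h1.trans hv1.symm, ?_⟩
      have : c ≡ b [MOD q] := by
        rw [Nat.ModEq, h3, Nat.mod_eq_of_lt hbq]
      exact this.trans hv2.symm
    · rintro ⟨hc, h1, h2⟩
      obtain ⟨h4, h5⟩ := (Nat.modEq_and_modEq_iff_modEq_mul hMq).2 h1
      have h6 : c % q = b := by
        have := h5.trans hv2
        rw [Nat.ModEq, Nat.mod_eq_of_lt hbq] at this
        exact this
      refine ⟨⟨hc, h4.trans hv1, ?_⟩, h6⟩
      intro r hr
      rcases mem_insert.1 hr with rfl | hr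
      · rw [h6]; exact hb
      · exact h2 r hr

theorem totient_prod_primes (D : Finset ℕ) (hD : ∀ q ∈ D, q.Prime) :
    ((Nat.totient (∏ q ∈ D, q) : ℕ) : ℝ) = ∏ q ∈ D, ((q : ℝ) - 1) := by
  classical
  induction D using Finset.induction_on with
  | empty => simp
  | insert q D hq ih =>
    have hqp : q.Prime := hD q (mem_insert_self _ _)
    have hD' : ∀ r ∈ D, r.Prime := fun r hr => hD r (mem_insert_of_mem hr)
    rw [prod_insert hq, prod_insert hq, Nat.totient_mul, Nat.cast_mul, ih hD',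
      Nat.totient_prime hqp, Nat.cast_sub hqp.one_lt.le, Nat.cast_one]
    refine Nat.Coprime.prod_right fun r hr => ?_
    refine (Nat.coprime_primes hqp (hD' r hr)).2 ?_
    rintro rfl
    exact hq hr

theorem prime_class (Y M v0 : ℕ) (hM : 0 < M) (hv : Nat.Coprime v0 M) (D : Finset ℕ)
    (hD : ∀ q ∈ D, q.Prime) (hMD : ∀ q ∈ D, Nat.Coprime M q) (B : ℕ → Finset ℕ)
    (hB : ∀ q ∈ D, ∀ b ∈ B q, b < q ∧ b ≠ 0) :
    ∃ F : Finset ℕ, F.card = ∏ q ∈ D, (B q).card ∧
      (∀ c ∈ F, Nat.Coprime c (M * ∏ q ∈ D, q)) ∧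
      |(((Icc 1 Y).filter fun p => p.Prime ∧ p ≡ v0 [MOD M] ∧ ∀ q ∈ D, p % q ∈ B q).card : ℝ) -
        pc Y / (Nat.totient M : ℝ) * ∏ q ∈ D, (((B q).card : ℝ) / ((q : ℝ) - 1))| ≤
        ∑ c ∈ F, |Pool.BV.Ep Y (M * ∏ q ∈ D, q) c| := by
  classical
  set Q : ℕ := M * ∏ q ∈ D, q with hQ
  have hQpos : 0 < Q := Nat.mul_pos hM (Finset.prod_pos fun q hq => (hD q hq).pos)
  have hMQ : M ∣ Q := Dvd.intro _ rfl
  have hqQ : ∀ q ∈ D, q ∣ Q := fun q hq =>
    Dvd.dvd.mul_left (Finset.dvd_prod_of_mem (fun q => q) hq) M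
  set F : Finset ℕ := (range Q).filter fun c => c ≡ v0 [MOD M] ∧ ∀ q ∈ D, c % q ∈ B q with hF
  have hFcard : F.card = ∏ q ∈ D, (B q).card :=
    cls_card D hD B (fun q hq b hb => (hB q hq b hb).1) M v0 hM hMD
  refine ⟨F, hFcard, ?_, ?_⟩
  · intro c hc
    obtain ⟨_, h1, h2⟩ := mem_filter.1 hc
    refine Nat.Coprime.mul_right ?_ (Nat.Coprime.prod_right fun q hq => ?_)
    · have := h1.gcd_eq
      rw [Nat.Coprime, this]
      exact hv
    · have h3 := (hB q hq _ (h2 q hq)).2
      refine Nat.Coprime.symm ((hD q hq).coprime_iff_not_dvd.2 ?_)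
      intro h4
      exact h3 (Nat.mod_eq_zero_of_dvd h4)
  · have hfib := Finset.card_eq_sum_card_fiberwise (f := fun p : ℕ => p % Q)
      (s := (Icc 1 Y).filter fun p => p.Prime ∧ p ≡ v0 [MOD M] ∧ ∀ q ∈ D, p % q ∈ B q) (t := F)
      (by
        intro p hp
        have hp' := (mem_filter.1 (Finset.mem_coe.1 hp)).2
        have : p % Q ∈ F := by
          refine mem_filter.2 ⟨mem_range.2 (Nat.mod_lt _ hQpos), ?_, ?_⟩
          · exact ((Nat.mod_modEq p Q).of_dvd hMQ).trans hp'.2.1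
          · intro q hq
            rw [Nat.mod_mod_of_dvd _ (hqQ q hq)]
            exact hp'.2.2 q hq
        exact Finset.mem_coe.2 this)
    have hcls : ∀ c ∈ F, (((Icc 1 Y).filter fun p => p.Prime ∧ p ≡ v0 [MOD M] ∧
        ∀ q ∈ D, p % q ∈ B q).filter fun p => p % Q = c) =
        (Icc 1 Y).filter (fun n => n.Prime ∧ n ≡ c [MOD Q]) := by
      intro c hc
      obtain ⟨h0, h1, h2⟩ := mem_filter.1 hc
      have h0' : c < Q := mem_range.1 h0
      ext p
      simp only [mem_filter]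
      constructor
      · rintro ⟨⟨h3, h4, _⟩, h5⟩
        refine ⟨h3, h4, ?_⟩
        rw [Nat.ModEq, h5, Nat.mod_eq_of_lt h0']
      · rintro ⟨h3, h4, h5⟩
        refine ⟨⟨h3, h4, (h5.of_dvd hMQ).trans h1, ?_⟩, ?_⟩
        · intro q hq
          have h6 := h5.of_dvd (hqQ q hq)
          rw [Nat.ModEq] at h6
          rw [h6]
          exact h2 q hq
        · rw [Nat.ModEq, Nat.mod_eq_of_lt h0'] at h5
          exact h5
    have hcount : (((Icc 1 Y).filter fun p => p.Prime ∧ p ≡ v0 [MOD M] ∧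
        ∀ q ∈ D, p % q ∈ B q).card : ℝ) =
        ∑ c ∈ F, (Pool.BV.Ep Y Q c + pc Y / (Nat.totient Q : ℝ)) := by
      rw [hfib]
      push_cast
      refine sum_congr rfl fun c hc => ?_
      rw [hcls c hc, Pool.BV.Ep, pc]
      ring
    have htot : ((Nat.totient Q : ℕ) : ℝ) = (Nat.totient M : ℝ) * ∏ q ∈ D, ((q : ℝ) - 1) := by
      rw [hQ, Nat.totient_mul, Nat.cast_mul, totient_prod_primes D hD]
      exact Nat.Coprime.prod_right fun q hq => hMD q hq
    have hmain : (F.card : ℝ) * (pc Y / (Nat.totient Q : ℝ)) =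
        pc Y / (Nat.totient M : ℝ) * ∏ q ∈ D, (((B q).card : ℝ) / ((q : ℝ) - 1)) := by
      rw [hFcard, htot, Finset.prod_div_distrib]
      push_cast
      rw [div_mul_div_comm, mul_div_assoc', mul_comm]
    rw [hcount, sum_add_distrib, sum_const, nsmul_eq_mul, hmain, add_sub_cancel_right]
    exact Finset.abs_sum_le_sum_abs _ _

end Pool.CP
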