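import Pool.Agent.Lib.MP_c77da8_nt.CP.SvW
import Pool.Agent.Lib.MP_c77da8_nt.CP.PrC
import Pool.Agent.Lib.MP_c77da8_nt.CP.Err
import Pool.Agent.Lib.MP_c77da8_nt.CP.Loc

/-!
# CP-Low: the lower bound for one cofactor `s`

PROOF.  `B0, U0` from `err_fam K A`.  `M = 2^i M0 u`; all prime factors of `M` are `≤ 2^u` (`prime_dvd_M0`; `2 ≤ 2^u`), those of
`s` are `> 2^(u 2^t) ≥ 2^u`, so `s` and `M` are coprime and there is `v0`, coprime to `M`, with
`M ∣ p s + 1 ↔ p ≡ v0 [MOD M]` for all `p`.  `sieveW` with `S = {p ∈ Icc 1 Y | p.Prime ∧ p ≡ v0 [MOD M]}`,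
`X = pc Y/φ(M)`, `B = Bp K i s`, `P = blk u t`, `g q = #(Bp K i s q)/(q - 1)`, the truncations `sf K t`, and
`Rm D = ∑_{c ∈ F D} |Ep Y (M ∏ q) c|` with `F D` from `prime_class` (choice; for the `D` that do not satisfy its hypotheses
put `F D = ∅`).  `#(Bp K i s q) ≤ #(Bd K u q) - 1 ≤ K - 1` (`Bp_card`, `Bd_card`), so for `q > 2^u ≥ 2K` we have
`g q ≤ (K-1)/(q-1) ≤ K/q ≤ 1/2`, and `5 ∑_{blk} g q + 3 + j ≤ 45 K + 3 + j ≤ sf K t j` (`blk_inv_le`, as in the proof of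
`Sv.sieve_blk`).  `#(F D) = ∏ #(Bp) ≤ K^#D`.  The remainder is `≤ (t+1) U/(log U)^A` by `err_fam` and the product is bounded by
`loc_prod`: `1/2 * pc Y/φ(M) * (u 2^t) log 2 * φ(M)/M * VV`.
-/

set_option autoImplicit false

namespace Pool.CP

open Finset Pool.Agent.Lib.MP_c77da8_nt.Sv

open Classical in
/-- the primes `p ≤ Y` with `p s = 2^i M0 v - 1` and avoiding the residues `Bp` -/
noncomputable def Pset (K u t i s Y : ℕ) : Finset ℕ :=
  (Icc 1 Y).filter fun p => p.Prime ∧ 2 ^ i * M0 u ∣ p * s + 1 ∧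
    ∀ j, ∀ q ∈ blk u t j, p % q ∉ Bp K i s q

theorem mem_Pset {K u t i s Y p : ℕ} : p ∈ Pset K u t i s Y ↔ (1 ≤ p ∧ p ≤ Y) ∧ p.Prime ∧
    2 ^ i * M0 u ∣ p * s + 1 ∧ ∀ j, ∀ q ∈ blk u t j, p % q ∉ Bp K i s q := by
  classical
  unfold Pset
  rw [mem_filter, mem_Icc]

theorem low (K A : ℕ) (hK : 1 ≤ K) : ∃ B0 U0 : ℕ, ∀ u t i s U Y : ℕ, U0 ≤ U → 2 ≤ u →
    2 * K ≤ 2 ^ u → i < K → s ≠ 0 → (∀ p ∈ s.primeFactors, 2 ^ (u * 2 ^ t) < p) → Y ≤ U →
    ((2 ^ i * M0 u : ℕ) : ℝ) * 2 ^ (102 * K * (u * 2 ^ t)) ≤ Real.sqrt U / Real.log U ^ B0 →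
    1 / 2 * (pc Y / ((2 ^ i * M0 u : ℕ) : ℝ) * (((u * 2 ^ t : ℕ) : ℝ) * Real.log 2) * VV K u t) -
      (t + 1) * (U / Real.log U ^ A) ≤ ((Pset K u t i s Y).card : ℝ) := by
  classical
  obtain ⟨B0, U0, hE⟩ := err_fam K A hK
  refine ⟨B0, U0, fun u t i s U Y hU hu hKu hi hs0 hs hYU hsize => ?_⟩
  have hu1 : 1 ≤ u := by omega
  have hprod := loc_prod K u t i s hu1 hKu hi hs0 hs
  unfold Pset
  set M : ℕ := 2 ^ i * M0 u with hM
  have hMpos : 0 < M := Nat.mul_pos (by positivity) (M0_pos u)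
  have hMr : (0 : ℝ) < (M : ℝ) := by exact_mod_cast hMpos
  have hMp : ∀ p : ℕ, p.Prime → p ∣ M → p ≤ 2 ^ u := by
    intro p hp hd
    rcases (Nat.Prime.dvd_mul hp).1 hd with h | h
    · have h2 := (Nat.prime_dvd_prime_iff_eq hp Nat.prime_two).1 (hp.dvd_of_dvd_pow h)
      rw [h2]
      exact Nat.le_self_pow (by omega) 2
    · exact prime_dvd_M0 hp h
  have hexp : 2 ^ u ≤ 2 ^ (u * 2 ^ t) :=
    Nat.pow_le_pow_right (by norm_num) (Nat.le_mul_of_pos_right u (by positivity))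
  have hcopS : Nat.Coprime s M := by
    rw [Nat.coprime_iff_gcd_eq_one]
    by_contra h
    obtain ⟨p, hp, hpd⟩ := Nat.exists_prime_and_dvd h
    have h1 : p ∣ s := hpd.trans (Nat.gcd_dvd_left _ _)
    have h2 : p ∣ M := hpd.trans (Nat.gcd_dvd_right _ _)
    have h3 := hs p (Nat.mem_primeFactors.2 ⟨hp, h1, hs0⟩)
    have h4 := hMp p hp h2
    omega
  -- the residue class
  obtain ⟨w, hw⟩ : ∃ w : ℕ, s * w ≡ 1 [MOD M] := by
    rcases Nat.lt_or_ge 1 M with h | h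
    · obtain ⟨w, _, hw⟩ := Nat.exists_mul_mod_eq_one_of_coprime hcopS h
      exact ⟨w, by rw [Nat.ModEq, hw, Nat.mod_eq_of_lt h]⟩
    · have h1 : M = 1 := by omega
      rw [h1]
      exact ⟨0, Nat.modEq_one⟩
  obtain ⟨v0, hv0⟩ : ∃ v0 : ℕ, M ∣ v0 * s + 1 := by
    refine ⟨(M - 1) * w, ?_⟩
    rw [← Nat.modEq_zero_iff_dvd]
    have h1 : (M - 1) * (s * w) + 1 ≡ (M - 1) * 1 + 1 [MOD M] :=
      (hw.mul_left (M - 1)).add_right 1
    have h2 : (M - 1) * 1 + 1 = M := by omega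
    rw [h2] at h1
    have h3 : (M - 1) * w * s + 1 = (M - 1) * (s * w) + 1 := by ring
    rw [h3]
    exact h1.trans (Nat.modEq_zero_iff_dvd.2 dvd_rfl)
  have hcopV : Nat.Coprime v0 M := by
    have h1 : Nat.gcd v0 M ∣ v0 * s + 1 := (Nat.gcd_dvd_right _ _).trans hv0
    have h2 : Nat.gcd v0 M ∣ v0 * s := (Nat.gcd_dvd_left _ _).mul_right _
    exact Nat.dvd_one.1 ((Nat.dvd_add_right h2).1 h1)
  have hiff : ∀ p : ℕ, M ∣ p * s + 1 ↔ p ≡ v0 [MOD M] := by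
    intro p
    constructor
    · intro hp
      have h1 : p * s + 1 ≡ v0 * s + 1 [MOD M] :=
        (Nat.modEq_zero_iff_dvd.2 hp).trans (Nat.modEq_zero_iff_dvd.2 hv0).symm
      have h2 : p * s ≡ v0 * s [MOD M] := Nat.ModEq.add_right_cancel' 1 h1
      exact Nat.ModEq.cancel_right_of_coprime hcopS.symm h2
    · intro hp
      rw [← Nat.modEq_zero_iff_dvd]
      exact ((hp.mul_right s).add_right 1).trans (Nat.modEq_zero_iff_dvd.2 hv0)
  have hcopq : ∀ q : ℕ, q.Prime → 2 ^ u < q → Nat.Coprime M q := by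
    intro q hq h
    rw [Nat.coprime_comm, Nat.Prime.coprime_iff_not_dvd hq]
    intro hd
    have := hMp q hq hd
    omega
  -- the local densities
  set g : ℕ → ℝ := fun q => ((Bp K i s q).card : ℝ) / ((q : ℝ) - 1) with hg
  have hloc : ∀ j : Fin t, ∀ q ∈ blk u t j, q.Prime ∧ 2 ^ u < q ∧ (Bp K i s q).card + 1 ≤ K := by
    intro j q hq
    have hqp : q.Prime := (mem_blk.1 hq).1
    have hgt := blk_gt hq
    have hle := blk_le hq
    refine ⟨hqp, hgt, ?_⟩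
    have hcop : Nat.Coprime s q := by
      rw [Nat.coprime_comm, Nat.Prime.coprime_iff_not_dvd hqp]
      intro hd
      have := hs q (Nat.mem_primeFactors.2 ⟨hqp, hd, hs0⟩)
      omega
    have h1 := Bp_card K u i s q hu1 hi hqp hgt hcop
    have h2 := Bd_card K u q hu1 hqp hgt
    omega
  have hg0 : ∀ j : Fin t, ∀ q ∈ blk u t j, 0 ≤ g q := by
    intro j q hq
    have h1 : (1 : ℝ) ≤ (q : ℝ) := by exact_mod_cast (hloc j q hq).1.one_lt.le
    exact div_nonneg (Nat.cast_nonneg _) (by linarith)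
  have hgK : ∀ j : Fin t, ∀ q ∈ blk u t j, g q ≤ K * (1 / q) := by
    intro j q hq
    obtain ⟨hqp, hgt, hc⟩ := hloc j q hq
    have hq2 : 2 * K < q := lt_of_le_of_lt hKu hgt
    have hq3 : (2 * K : ℝ) < q := by exact_mod_cast hq2
    have hK1 : (1 : ℝ) ≤ K := by exact_mod_cast hK
    have hc' : ((Bp K i s q).card : ℝ) + 1 ≤ K := by exact_mod_cast hc
    have hq0 : (0 : ℝ) < q := by linarith
    have hq1 : (0 : ℝ) < (q : ℝ) - 1 := by linarith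
    simp only [hg]
    rw [mul_one_div, div_le_div_iff₀ hq1 hq0]
    nlinarith
  have hg2 : ∀ j : Fin t, ∀ q ∈ blk u t j, g q ≤ 1 / 2 := by
    intro j q hq
    refine (hgK j q hq).trans ?_
    obtain ⟨hqp, hgt, hc⟩ := hloc j q hq
    have hq2 : 2 * K < q := lt_of_le_of_lt hKu hgt
    have hq3 : (2 * K : ℝ) < q := by exact_mod_cast hq2
    have hK1 : (1 : ℝ) ≤ K := by exact_mod_cast hK
    have hq0 : (0 : ℝ) < q := by linarith
    rw [mul_one_div, div_le_div_iff₀ hq0 (by norm_num)]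
    linarith
  have hL : ∀ j : Fin t, 5 * ∑ q ∈ blk u t j, g q + 3 + ((j : ℕ) : ℝ) ≤ sf K t j := by
    intro j
    have h2 : ∑ q ∈ blk u t j, g q ≤ K * 9 := by
      calc ∑ q ∈ blk u t j, g q ≤ ∑ q ∈ blk u t j, (K : ℝ) * (1 / q) := sum_le_sum (hgK j)
        _ = K * ∑ q ∈ blk u t j, (1 : ℝ) / q := (mul_sum _ _ _).symm
        _ ≤ K * 9 := by
            have := blk_inv_le u t hu1 j
            gcongr
    unfold sf
    push_cast
    have h3 : (1 : ℝ) ≤ K := by exact_mod_cast hK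
    have h4 : (0 : ℝ) ≤ ((j : ℕ) : ℝ) := Nat.cast_nonneg _
    linarith
  -- the families of classes
  have hex : ∀ D : Finset ℕ, ∃ F : Finset ℕ, (∀ q ∈ D, q.Prime ∧ Nat.Coprime M q) →
      F.card = ∏ q ∈ D, (Bp K i s q).card ∧
      (∀ c ∈ F, Nat.Coprime c (M * ∏ q ∈ D, q)) ∧
      |(((Icc 1 Y).filter fun p => p.Prime ∧ p ≡ v0 [MOD M] ∧
        ∀ q ∈ D, p % q ∈ Bp K i s q).card : ℝ) -
        pc Y / (Nat.totient M : ℝ) * ∏ q ∈ D, (((Bp K i s q).card : ℝ) / ((q : ℝ) - 1))| ≤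
        ∑ c ∈ F, |Pool.BV.Ep Y (M * ∏ q ∈ D, q) c| := by
    intro D
    by_cases hD : ∀ q ∈ D, q.Prime ∧ Nat.Coprime M q
    · obtain ⟨F, hF⟩ := prime_class Y M v0 hMpos hcopV D (fun q hq => (hD q hq).1)
        (fun q hq => (hD q hq).2) (Bp K i s) (fun q _ b hb => Bp_lt hb)
      exact ⟨F, fun _ => hF⟩
    · exact ⟨∅, fun h => absurd h hD⟩
  choose F hF using hex
  set Φ := Fintype.piFinset (fun j => sub (blk u t j) (sf K t j)) with hΦ
  have hmem : ∀ φ ∈ Φ, ∀ q ∈ univ.biUnion φ, ∃ j, q ∈ blk u t j := by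
    intro φ hφ q hq
    obtain ⟨j, -, hj⟩ := mem_biUnion.1 hq
    have h1 := Fintype.mem_piFinset.1 hφ j
    unfold sub at h1
    rw [mem_filter, mem_powerset] at h1
    exact ⟨j, h1.1 hj⟩
  have hFφ : ∀ φ ∈ Φ, ∀ q ∈ univ.biUnion φ, q.Prime ∧ Nat.Coprime M q := by
    intro φ hφ q hq
    obtain ⟨j, hj⟩ := hmem φ hφ q hq
    exact ⟨(hloc j q hj).1, hcopq q (hloc j q hj).1 (hloc j q hj).2.1⟩
  set S : Finset ℕ := (Icc 1 Y).filter fun p => p.Prime ∧ p ≡ v0 [MOD M] with hS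
  have hX : 0 ≤ pc Y / (Nat.totient M : ℝ) := by
    unfold pc
    positivity
  have hsv := sieveW t S (pc Y / (Nat.totient M : ℝ)) hX (Bp K i s) (blk u t) g
    (blk_disj u t) hg0 hg2 (sf K t) (sf_odd K t) hL
    (fun D => ∑ c ∈ F D, |Pool.BV.Ep Y (M * ∏ q ∈ D, q) c|) (by
      intro φ hφ
      have h1 := (hF (univ.biUnion φ) (hFφ φ hφ)).2.2
      have h2 : (S.filter fun m => ∀ q ∈ univ.biUnion φ, m % q ∈ Bp K i s q) =
          (Icc 1 Y).filter fun p => p.Prime ∧ p ≡ v0 [MOD M] ∧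
            ∀ q ∈ univ.biUnion φ, p % q ∈ Bp K i s q := by
        rw [hS, filter_filter]
        refine filter_congr fun p _ => ?_
        rw [and_assoc]
      rw [h2]
      exact h1)
  have herr := hE u t M U hU hu1 hMpos hMp hsize Y hYU F (by
    intro φ hφ
    obtain ⟨h1, h2, -⟩ := hF (univ.biUnion φ) (hFφ φ hφ)
    refine ⟨?_, h2⟩
    rw [h1]
    refine prod_le_pow_card _ _ K fun q hq => ?_
    obtain ⟨j, hj⟩ := hmem φ hφ q hq
    have := (hloc j q hj).2.2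
    omega)
  have hset : (S.filter fun m => ∀ j, ∀ q ∈ blk u t j, m % q ∉ Bp K i s q) =
      (Icc 1 Y).filter fun p => p.Prime ∧ M ∣ p * s + 1 ∧
        ∀ j, ∀ q ∈ blk u t j, p % q ∉ Bp K i s q := by
    rw [hS, filter_filter]
    refine filter_congr fun p _ => ?_
    rw [and_assoc, hiff p]
  rw [hset] at hsv
  refine le_trans ?_ hsv
  have hφpos : (0 : ℝ) < (Nat.totient M : ℝ) := by exact_mod_cast Nat.totient_pos.2 hMpos
  have h5 : (t + 1 : ℝ) * ∑ φ ∈ Φ, ∑ c ∈ F (univ.biUnion φ),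
      |Pool.BV.Ep Y (M * ∏ q ∈ univ.biUnion φ, q) c| ≤ (t + 1) * (U / Real.log U ^ A) :=
    mul_le_mul_of_nonneg_left herr (by positivity)
  have h6 : pc Y / (M : ℝ) * (((u * 2 ^ t : ℕ) : ℝ) * Real.log 2) * VV K u t ≤
      pc Y / (Nat.totient M : ℝ) * ∏ j, ∏ q ∈ blk u t j, (1 - g q) := by
    calc pc Y / (M : ℝ) * (((u * 2 ^ t : ℕ) : ℝ) * Real.log 2) * VV K u t
        = pc Y / (Nat.totient M : ℝ) * (((u * 2 ^ t : ℕ) : ℝ) * Real.log 2 *
            ((Nat.totient M : ℝ) / (M : ℝ)) * VV K u t) := by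
          field_simp
      _ ≤ _ := mul_le_mul_of_nonneg_left hprod hX
  linarith

end Pool.CP
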