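import Pool.Agent.Lib.MP_c77da8_nt.CP.ColP
import Pool.Agent.Lib.MP_c77da8_nt.CP.FormE
import Pool.Agent.Lib.MP_c77da8_nt.CP.ZLam

/-!
# CP-LowPt: the values of the weight at the `n` without small coloured primes

PROOF.  `a j = f j * A`, `Q = Qe w (u^Th) e`, `forms_ok`.  The coloured primes of `n` (those of `Q`) are `≥ v + 1`.  For every `j` the product of the primes with the colour `j`
divides `a j n - 1` (distinct primes, `colq_eq`), `1 ≤ a j n - 1 < 2 a j N ≤ N³` (`a j ≤ w A`; `n ≥ N ≥ 2`, `a j ≥ 2`), so `(v+1)^(#_j) < N³ < (v+1)^(3 s)` and `#_j ≤ 3 s`.  So `#supp (colq a Q n) ≤ 3 s K` and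
`LN ≤ (4^(3 s K) Z)²` (`Lam_le`, `m = 3 s K`), `Z = ∏ (1 + K x) ≤ (C log (u^Th)/wD w)^K ≤ (C log N/wD w)^K` (`ZQ_le`; `u^Th ≤ N`).
-/

set_option autoImplicit false

namespace Pool.CP

open Finset Pool.DL

theorem LN_pt (K s : ℕ) : ∃ C : ℝ, 0 < C ∧
    ∀ (J : Type) [Fintype J] [DecidableEq J], Fintype.card J = K → ∀ (ℓ Th w u v e N A : ℕ) (f : J → ℕ),
      12 ≤ w → w ≤ u ^ Th → 2 ≤ u → u ^ Th ≤ N → N < (v + 1) ^ s → MulOK w e A → FOK f w e → 2 * (w * A) ≤ N →
      ∀ n ∈ Ico N (2 * N),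
      (∀ p0 : {p // p ∈ Qe w (u ^ Th) e}, p0.1 ≤ v → colq (fun j => f j * A) (Qe w (u ^ Th) e) n p0 = none) →
      LN (fun j => f j * A) (Qe w (u ^ Th) e) ℓ u Th n ≤ C * (Real.log N / wD w) ^ (2 * K) := by
  obtain ⟨C0, hC0, hZ⟩ := ZQ_le
  refine ⟨4 ^ (2 * (K * (2 * s))) * C0 ^ (2 * K), by positivity, ?_⟩
  intro J _ _ hJ ℓ Th w u v e N A f hw hwu hu huN hNs hA hf hwA n hn hnone
  rw [Finset.mem_Ico] at hn
  have hF := forms_ok w (u ^ Th) e A hw f hA hf
  set Q : Finset ℕ := Qe w (u ^ Th) e with hQdef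
  set a : J → ℕ := fun j => f j * A with ha
  set ξ : {p // p ∈ Q} → Option J := colq a Q n with hξ
  have hA1 : 1 ≤ A := hA.pos
  have hwA24 : 24 ≤ 2 * (w * A) := by
    have : 12 * 1 ≤ w * A := Nat.mul_le_mul hw hA1
    omega
  have hN24 : 24 ≤ N := hwA24.trans hwA
  have hn1 : 1 ≤ n := by omega
  have hpart : ∀ j, (part ξ j).card ≤ 2 * s := by
    intro j
    have hdvd : ∀ p ∈ part ξ j, p.1 ∣ a j * n - 1 := by
      intro p hp
      unfold part at hp
      rw [Finset.mem_filter] at hp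
      exact (colq_eq Q a hF n hn1 p j).1 hp.2
    have hbig : ∀ p ∈ part ξ j, v + 1 ≤ p.1 := by
      intro p hp
      unfold part at hp
      rw [Finset.mem_filter] at hp
      by_contra hlt
      have h1 : ξ p = none := hnone p (by omega)
      rw [h1] at hp
      exact absurd hp.2 (by simp)
    have hprod : ∏ p ∈ part ξ j, p.1 ∣ a j * n - 1 := by
      have h1 : ∏ p ∈ part ξ j, p.1 =
          ∏ q ∈ (part ξ j).map (Function.Embedding.subtype _), q := by
        rw [Finset.prod_map]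
        rfl
      rw [h1]
      apply Finset.prod_primes_dvd
      · intro q hq
        rw [Finset.mem_map] at hq
        obtain ⟨p, _, rfl⟩ := hq
        exact (hF.prime p.1 p.2).prime
      · intro q hq
        rw [Finset.mem_map] at hq
        obtain ⟨p, hp, rfl⟩ := hq
        exact hdvd p hp
    have haj : 1 ≤ a j := Nat.mul_pos (hf.pos j) hA1
    have haj2 : a j ≤ w * A := Nat.mul_le_mul_right A (hf.le j)
    have hlow : 24 ≤ a j * n := by
      have : 1 * 24 ≤ a j * n := Nat.mul_le_mul haj (hN24.trans hn.1)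
      omega
    have hup : a j * n < N * N := by
      calc a j * n ≤ (w * A) * n := Nat.mul_le_mul_right n haj2
        _ < (w * A) * (2 * N) := by
            apply Nat.mul_lt_mul_of_pos_left hn.2
            exact Nat.mul_pos (by omega) hA1
        _ = (2 * (w * A)) * N := by ring
        _ ≤ N * N := Nat.mul_le_mul_right N hwA
    have h2 : (v + 1) ^ (part ξ j).card ≤ ∏ p ∈ part ξ j, p.1 := by
      rw [← Finset.prod_const]
      exact Finset.prod_le_prod' hbig
    have h3 : ∏ p ∈ part ξ j, p.1 ≤ a j * n - 1 := Nat.le_of_dvd (by omega) hprod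
    have h4 : N * N < (v + 1) ^ (2 * s) := by
      rw [two_mul, pow_add]
      exact Nat.mul_lt_mul'' hNs hNs
    have h5 : (v + 1) ^ (part ξ j).card < (v + 1) ^ (2 * s) := by omega
    by_contra hcard
    have h6 : (v + 1) ^ (2 * s) ≤ (v + 1) ^ (part ξ j).card :=
      Nat.pow_le_pow_right (by omega) (by omega)
    omega
  have hsupp : (supp ξ).card ≤ K * (2 * s) := by
    rw [supp_biUnion]
    refine Finset.card_biUnion_le.trans ?_
    calc ∑ j : J, (part ξ j).card ≤ ∑ _j : J, 2 * s := Finset.sum_le_sum fun j _ => hpart j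
      _ = K * (2 * s) := by
          rw [Finset.sum_const, Finset.card_univ, hJ, smul_eq_mul]
  have hLam := Lam_le Q hF.big ℓ u Th hu (K * (2 * s)) ξ hsupp
  have hZ1 := hZ J w (u ^ Th) e hw hwu
  rw [hJ] at hZ1
  have hwD0 : 0 < wD w := lt_of_lt_of_le one_pos (wD_one w)
  have hR0 : (0 : ℝ) < ((u ^ Th : ℕ) : ℝ) := by
    have : 0 < u ^ Th := by omega
    exact_mod_cast this
  have hlogR : 0 ≤ Real.log ((u ^ Th : ℕ) : ℝ) := by
    apply Real.log_nonneg
    have : 1 ≤ u ^ Th := by omega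
    exact_mod_cast this
  have hlogle : Real.log ((u ^ Th : ℕ) : ℝ) ≤ Real.log N := by
    apply Real.log_le_log hR0
    exact_mod_cast huN
  have hZ2 : (C0 * Real.log ((u ^ Th : ℕ) : ℝ) / wD w) ^ K ≤ (C0 * (Real.log N / wD w)) ^ K := by
    apply pow_le_pow_left₀
    · positivity
    · rw [← mul_div_assoc]
      gcongr
  have hprodpos : 0 ≤ ∏ p : {p // p ∈ Q}, (1 + KK J * xx (qr Q) p) := by
    apply Finset.prod_nonneg
    intro p _
    have h12 : (12 : ℝ) ≤ qr Q p := by
      unfold qr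
      exact_mod_cast hF.big p.1 p.2
    have h1 : 0 ≤ xx (qr Q) p := by
      unfold xx
      apply div_nonneg one_pos.le
      linarith
    have h2 : 0 ≤ KK J := by
      unfold KK
      positivity
    positivity
  have hfin : |Lam (qr Q) (yM Q ℓ u Th) ξ| ≤ 4 ^ (K * (2 * s)) * (C0 * (Real.log N / wD w)) ^ K :=
    hLam.trans (mul_le_mul_of_nonneg_left (hZ1.trans hZ2) (by positivity))
  unfold LN
  rw [← sq_abs]
  calc |Lam (qr Q) (yM Q ℓ u Th) ξ| ^ 2
      ≤ (4 ^ (K * (2 * s)) * (C0 * (Real.log N / wD w)) ^ K) ^ 2 :=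
        pow_le_pow_left₀ (abs_nonneg _) hfin 2
    _ = 4 ^ (2 * (K * (2 * s))) * C0 ^ (2 * K) * (Real.log N / wD w) ^ (2 * K) := by
        rw [mul_pow, mul_pow, mul_pow, ← pow_mul, ← pow_mul, ← pow_mul]
        rw [mul_comm K 2, mul_comm (K * (2 * s)) 2]
        ring

end Pool.CP
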