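import Pool.Agent.Lib.MP_c77da8_nt.CP.DefC
import Pool.Agent.Lib.MP_c77da8_nt.DL.PairUp

/-!
# CP-ModC: upper bounds in the prime models

Notation `Q = Qe w (u^Th) e`, `y = yM Q ℓ u Th = yy (vr Q) (u^Th) (GG ℓ u (vr Q))`, `S1N`, `S2N` are `SS (xx q) G`, `SS (xx q) (G²)`.
PROOF.  (1) is `EP_up` (`DL/Up.lean`).  (2): `pair_up` (`DL/PairUp.lean`) with `R = u^Th`, and `VV (vr Q) (qr Q) (u^Th) ∅ ≥ log (u^Th)/(2 wD w) = Th log u/(2 wD w)` (`V_lowe` with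
`x = R = u^Th`; the left side `EP` is `≥ 0`: an `EE` of squares, the local weights `muP` are `≥ 0` as `K ≤ w < q p`; see the proof of `Model.lean` or `Main.lean`).
`hδ : K² ∑ x² ≤ 1/100`: `sqe` (`∑ x² ≤ 2/w`) and `200 K² ≤ w`.  The elements of `Q` are `≥ 12`, `v ≥ 1`.  `Anti G`: `GG_basic` (`u ≥ w ≥ 12`).
-/

set_option autoImplicit false

namespace Pool.CP

open Finset Pool.DL

private theorem ModC_muP {J : Type} [Fintype J] [DecidableEq J] (i : J) {t : ℝ} (ht : 12 ≤ t)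
    (hK : (Fintype.card J : ℝ) ≤ t) (b : Option J) : 0 ≤ muP i t b := by
  unfold muP
  split_ifs
  · rw [sub_nonneg, div_le_one (by linarith)]
    linarith
  · exact le_rfl
  · exact div_nonneg zero_le_one (by linarith)

private theorem ModC_EP {J P : Type} [Fintype J] [DecidableEq J] [Fintype P] [DecidableEq P] (i : J)
    (q : P → ℝ) (hq : ∀ p, 12 ≤ q p) (hK : ∀ p, (Fintype.card J : ℝ) ≤ q p)
    (F : (P → Option J) → ℝ) (hF : ∀ ξ, 0 ≤ F ξ) : 0 ≤ EP i q F := by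
  unfold EP EE
  exact Finset.sum_nonneg fun ξ _ => mul_nonneg
    (Finset.prod_nonneg fun p _ => ModC_muP i (hq p) (hK p) _) (hF ξ)

theorem model_up (J : Type) [Fintype J] [DecidableEq J] (ℓ w u e Th : ℕ) (hTh : 1 ≤ Th)
    (hw : 200 * Fintype.card J ^ 2 + 12 ≤ w) (hwu : w ≤ u) :
    (∀ i : J, EP i (qr (Qe w (u ^ Th) e)) (fun ξ : {p // p ∈ Qe w (u ^ Th) e} → Option J =>
        Lam (qr (Qe w (u ^ Th) e)) (yM (Qe w (u ^ Th) e) ℓ u Th) ξ ^ 2) ≤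
      51 / 50 * S1N (Qe w (u ^ Th) e) ℓ u ^ 2 * S2N (Qe w (u ^ Th) e) ℓ u ^ (Fintype.card J - 1)) ∧
    ∀ i j : J, i ≠ j → EP i (qr (Qe w (u ^ Th) e)) (fun ξ : {p // p ∈ Qe w (u ^ Th) e} → Option J =>
        Lam (qr (Qe w (u ^ Th) e)) (yMj (Qe w (u ^ Th) e) ℓ u Th j) ξ ^ 2) * (Th * Real.log u / (2 * wD w)) ≤
      11 / 10 * S1N (Qe w (u ^ Th) e) ℓ u ^ 4 * S2N (Qe w (u ^ Th) e) ℓ u ^ (Fintype.card J - 2) := by
  have hw12 : 12 ≤ w := by omega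
  have hw1 : 1 ≤ wD w := wD_one w
  have hw0 : 0 < wD w := by linarith
  have hu0 : 0 < u := by omega
  have hu2 : 2 ≤ u := by omega
  have hR1 : 1 ≤ u ^ Th := Nat.one_le_pow _ _ hu0
  have hqv : ∀ p, 12 ≤ qr (Qe w (u ^ Th) e) p := by
    intro p
    have := ((mem_Qe w (u ^ Th) e p.1).1 p.2).2.1
    unfold qr
    exact_mod_cast (by omega : 12 ≤ p.1)
  have hKq : ∀ p, (Fintype.card J : ℝ) ≤ qr (Qe w (u ^ Th) e) p := by
    intro p
    have h1 := ((mem_Qe w (u ^ Th) e p.1).1 p.2).2.1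
    have h2 : Fintype.card J ≤ Fintype.card J ^ 2 := Nat.le_self_pow (by norm_num) _
    unfold qr
    exact_mod_cast (by omega : Fintype.card J ≤ p.1)
  have hv : ∀ p, 1 ≤ vr (Qe w (u ^ Th) e) p := by
    intro p
    have := ((mem_Qe w (u ^ Th) e p.1).1 p.2).2.1
    unfold vr
    omega
  have hG := (GG_basic (vr (Qe w (u ^ Th) e)) hv ℓ u hu2).1
  have hδ : KK J ^ 2 * ∑ p, xx (qr (Qe w (u ^ Th) e)) p ^ 2 ≤ 1 / 100 := by
    have h1 := sqe w (u ^ Th) e hw12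
    have hDr : (200 : ℝ) * (Fintype.card J : ℝ) ^ 2 + 12 ≤ w := by exact_mod_cast hw
    have hD0 : (0 : ℝ) < w := by nlinarith [sq_nonneg (Fintype.card J : ℝ)]
    unfold KK
    calc (Fintype.card J : ℝ) ^ 2 * ∑ p, xx (qr (Qe w (u ^ Th) e)) p ^ 2
        ≤ (Fintype.card J : ℝ) ^ 2 * (2 / (w : ℝ)) := by gcongr
      _ = 2 * (Fintype.card J : ℝ) ^ 2 / (w : ℝ) := by ring
      _ ≤ 1 / 100 := by
          rw [div_le_div_iff₀ hD0 (by norm_num)]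
          nlinarith [sq_nonneg (Fintype.card J : ℝ)]
  have hlogR : Real.log ((u ^ Th : ℕ) : ℝ) = Th * Real.log u := by
    push_cast
    rw [Real.log_pow]
  refine ⟨fun i => ?_, fun i j hij => ?_⟩
  · exact EP_up i (vr (Qe w (u ^ Th) e)) (qr (Qe w (u ^ Th) e)) hqv (u ^ Th)
      (GG ℓ u (vr (Qe w (u ^ Th) e))) hG hδ
  · have h1 := pair_up i j hij (vr (Qe w (u ^ Th) e)) hv (qr (Qe w (u ^ Th) e)) hqv (u ^ Th) hR1
      (GG ℓ u (vr (Qe w (u ^ Th) e))) hG hδ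
    have h2 := V_lowe w (u ^ Th) e (u ^ Th) hw12 hR1 le_rfl
    rw [hlogR] at h2
    refine le_trans (mul_le_mul_of_nonneg_left h2 ?_) h1
    exact ModC_EP i _ hqv hKq _ fun ξ => sq_nonneg _

end Pool.CP
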