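import Pool.Agent.Lib.MP_c77da8_nt.CP.TrP
import Pool.Agent.Lib.MP_c77da8_nt.CP.ModC
import Pool.Agent.Lib.MP_c77da8_nt.CP.ErrC
import Pool.Agent.Lib.MP_c77da8_nt.CP.KapC

/-!
# CP-PrTw: the sum of the weight over the `n` with two primes

Notation: `Q = Qe w (u^Th) e`, `a j = f j * A`, `α = A/φ(A) = a i/φ(a i)` (`mul_f`), `S1 = S1N`, `S2 = S2N`, `W = N S2^K`, `κ = kpN`, `K ≥ 2`.
PROOF.  If `a j n - 1` is prime (`n ≥ N`, so it is `> u^Th`) no prime of `Q` has the colour `j` (`colq_eq`, `forms_ok`), so `Lam (yM) = Lam (yMj j)` at `colq a Q n` (`Lam_yj`, `DL/Yj.lean`).  Drop the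
condition that `a j n - 1` is prime: the sum is at most the sum of `Lam (yMj j)²` over the `n` with `a i n - 1` prime, and this is at most `1/log N` times the sum with the weights
`log (a i n - 1) ≥ log N`.  `tr_primeq` with `y = yMj j`: it is `≤ α N EP_i(yMj j) + err`, `err ≤ N` (`prime_errC`; `yj_bd`, `yj_supp` with `R = u^Th`, and `yM_bd`: support `(u^Th)^2 = u^(2 Th)`)
`≤ κ² W log N` (`kap_low`).  `model_up` (2): `EP_i(yMj j) ≤ (11/10) S1⁴ S2^(K-2) · 2 wD/(Th log u)`, so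
`α N EP_i(yMj j)/log N ≤ κ² W · (22/10) wD log N/(α Th log u) ≤ κ² W · (22/10) · 2 · (161/10) ≤ 71 κ² W` (`α ≥ wD/2`: `totA`; `log N ≤ (161/10) Th log u`: `kap_low`).  Total `≤ 80 κ² W`.
-/

set_option autoImplicit false

namespace Pool.CP

open Finset Pool.DL

private theorem prtw_ratio (w e A B : ℕ) (hA : MulOK w e A) (hB : MulOK w e B) :
    (A : ℝ) / (Nat.totient A : ℝ) = (B : ℝ) / (Nat.totient B : ℝ) := by
  have h : ∀ n : ℕ, 1 ≤ n → (n : ℝ) / (Nat.totient n : ℝ) = (∏ p ∈ n.primeFactors, (1 - (p : ℝ)⁻¹))⁻¹ := by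
    intro n hn
    have h1 := Nat.totient_eq_mul_prod_factors n
    have h2 : (Nat.totient n : ℝ) = (n : ℝ) * ∏ p ∈ n.primeFactors, (1 - (p : ℝ)⁻¹) := by
      have h4 := congrArg (fun x : ℚ => (x : ℝ)) h1
      push_cast at h4
      exact h4
    have h3 : (n : ℝ) ≠ 0 := by
      have : n ≠ 0 := by omega
      exact_mod_cast this
    rw [h2, div_mul_cancel_left₀ h3]
  have hpf : A.primeFactors = B.primeFactors := by
    ext p
    rw [Nat.mem_primeFactors, Nat.mem_primeFactors]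
    have h1 := hA.pos
    have h2 := hB.pos
    constructor
    · rintro ⟨hp, hd, _⟩
      exact ⟨hp, (hB.small p hp).2 ((hA.small p hp).1 hd), by omega⟩
    · rintro ⟨hp, hd, _⟩
      exact ⟨hp, (hA.small p hp).2 ((hB.small p hp).1 hd), by omega⟩
  rw [h A hA.pos, h B hB.pos, hpf]

/-- the arithmetic of the last step -/
private theorem prtw_fin (K : ℕ) (hK : 2 ≤ K) (al N L S1 S2 E T S X W : ℝ) (hN : 0 ≤ N) (hL : 0 < L) (hS2 : 1 ≤ S2) (hal : 0 < al)
    (hW1 : 0 < W) (hW : W ≤ 2 * al) (hL2 : L ≤ 161 / 10 * X) (hE : E * (X / (2 * W)) ≤ 11 / 10 * S1 ^ 4 * S2 ^ (K - 2))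
    (hT : T ≤ al * N * E + N) (hS : L * S ≤ T) (h7 : 1 ≤ (al * S1 ^ 2 / (S2 * L)) ^ 2 * S2 ^ K * L) :
    S ≤ 80 * (al * S1 ^ 2 / (S2 * L)) ^ 2 * (N * S2 ^ K) := by
  have hS20 : 0 < S2 := by linarith
  have hX : 0 < X := by linarith
  have hpow : S2 ^ K = S2 ^ (K - 2) * S2 ^ 2 := by
    rw [← pow_add]
    congr 1
    omega
  obtain ⟨G, hG⟩ : ∃ G : ℝ, G = S1 ^ 4 * S2 ^ (K - 2) := ⟨_, rfl⟩
  have hG0 : 0 ≤ G := by rw [hG]; positivity
  have e1 : (al * S1 ^ 2 / (S2 * L)) ^ 2 * S2 ^ K = al ^ 2 * G / L ^ 2 := by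
    rw [hpow, hG]
    field_simp
  have e2 : 80 * (al * S1 ^ 2 / (S2 * L)) ^ 2 * (N * S2 ^ K) = 80 * N * (al ^ 2 * G / L ^ 2) := by
    rw [← e1]
    ring
  rw [e1] at h7
  rw [e2]
  have hLG : L ≤ al ^ 2 * G := by
    have h1 : al ^ 2 * G / L ^ 2 * L = al ^ 2 * G / L := by
      field_simp
    rw [h1, le_div_iff₀ hL] at h7
    linarith
  have hE' : E * X ≤ 22 / 10 * W * G := by
    have h1 : E * (X / (2 * W)) = E * X / (2 * W) := by ring
    rw [h1, div_le_iff₀ (by positivity)] at hE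
    rw [hG]
    linarith
  have hEL : E * L ≤ 71 * al * G := by
    rcases le_or_gt E 0 with h | h
    · have h1 : E * L ≤ 0 := mul_nonpos_of_nonpos_of_nonneg h hL.le
      have h2 : 0 ≤ 71 * al * G := by positivity
      linarith
    · have h1 : E * L ≤ E * (161 / 10 * X) := mul_le_mul_of_nonneg_left hL2 h.le
      have h2 : W * G ≤ 2 * al * G := mul_le_mul_of_nonneg_right hW hG0
      have h3 : 0 ≤ al * G := by positivity
      linarith
  have hLS : L * (L * S) ≤ L * (al * N * E + N) := mul_le_mul_of_nonneg_left (hS.trans hT) hL.le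
  have h1 : al * N * (E * L) ≤ al * N * (71 * al * G) := mul_le_mul_of_nonneg_left hEL (by positivity)
  have h2 : N * L ≤ N * (al ^ 2 * G) := mul_le_mul_of_nonneg_left hLG hN
  have h3 : 0 ≤ N * (al ^ 2 * G) := by positivity
  have h4 : S * L ^ 2 ≤ 80 * N * (al ^ 2 * G) := by
    nlinarith
  calc S ≤ 80 * N * (al ^ 2 * G) / L ^ 2 := by
        rw [le_div_iff₀ (by positivity)]
        exact h4
    _ = 80 * N * (al ^ 2 * G / L ^ 2) := by ring

theorem pr_C (CV : ℕ) (hCV1 : 1 ≤ CV)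
    (hCV : ∀ w R e x : ℕ, 12 ≤ w → w ≤ x → x ≤ R → VV (vr (Qe w R e)) (qr (Qe w R e)) x ∅ ≤ CV * Real.log x / wD w)
    (K ℓ Th : ℕ) (hℓ : 1 ≤ ℓ) (hK : 2 ^ ℓ ≤ K) (hTh : Th = 32 * CV * (ℓ + 1) * K) : ∃ u0 : ℕ, ∀ u ≥ u0,
    ∀ (J : Type) [Fintype J] [DecidableEq J], Fintype.card J = K → ∀ (w e N A : ℕ) (f : J → ℕ),
      200 * K ^ 2 + 12 ≤ w → (w : ℝ) ≤ Real.log u → u ^ (16 * Th) ≤ N → N < (u + 1) ^ (16 * Th) →
      MulOK w e A → FOK f w e → (A : ℝ) ≤ Real.exp (Real.log N ^ (1 / 3000 : ℝ)) → NoExcN (Real.log N) e →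
      ∀ i j : J, i ≠ j →
        ∑ n ∈ (Ico N (2 * N)).filter (fun n => (f i * A * n - 1).Prime ∧ (f j * A * n - 1).Prime),
            LN (fun j => f j * A) (Qe w (u ^ Th) e) ℓ u Th n ≤
          80 * kpN (Qe w (u ^ Th) e) ℓ u A N ^ 2 * (N * S2N (Qe w (u ^ Th) e) ℓ u ^ K) := by
  have hK1 : 1 ≤ K := le_trans Nat.one_le_two_pow hK
  have hK2 : 2 ≤ K := by
    refine le_trans ?_ hK
    calc 2 = 2 ^ 1 := by norm_num
      _ ≤ 2 ^ ℓ := Nat.pow_le_pow_right (by norm_num) hℓ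
  have hTh32 : 32 ≤ Th := by
    rw [hTh]
    calc 32 = 32 * 1 * 1 * 1 := by norm_num
      _ ≤ 32 * CV * (ℓ + 1) * K := by gcongr; omega
  obtain ⟨u1, hu1⟩ := prime_errC K Th hTh32
  obtain ⟨u2, hu2⟩ := kap_low CV hCV1 hCV K ℓ Th hℓ hK hTh
  refine ⟨max 13 (max u1 u2), ?_⟩
  intro u hu J _ _ hJ w e N A f hw hwu hN hN2 hA hf hAe hexc i j hij
  have hu13 : 13 ≤ u := le_trans (le_max_left _ _) hu
  have hua : u1 ≤ u := le_trans (le_trans (le_max_left _ _) (le_max_right _ _)) hu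
  have hub : u2 ≤ u := le_trans (le_trans (le_max_right _ _) (le_max_right _ _)) hu
  have hur : (0 : ℝ) < u := by exact_mod_cast (by omega : 0 < u)
  have hw12 : 12 ≤ w := by omega
  have hwleu : w ≤ u := by
    have h1 : (w : ℝ) ≤ u := by
      have := Real.log_le_sub_one_of_pos hur
      linarith
    exact_mod_cast h1
  have huN : u ≤ N := le_trans (Nat.le_self_pow (by omega) u) hN
  have hN0 : 0 < N := by omega
  have hNr : (0 : ℝ) < N := by exact_mod_cast hN0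
  have hTN : u ^ Th + 3 ≤ N := by
    refine le_trans ?_ hN
    have h1 : u ^ (16 * Th) = (u ^ Th) ^ 16 := by rw [← pow_mul]; ring_nf
    have h2 : 3 ≤ u ^ Th := le_trans (by omega) (Nat.le_self_pow (by omega) u)
    rw [h1]
    calc u ^ Th + 3 ≤ u ^ Th * u ^ Th := by nlinarith
      _ = (u ^ Th) ^ 2 := by ring
      _ ≤ (u ^ Th) ^ 16 := Nat.pow_le_pow_right (by omega) (by norm_num)
  have hu2' : 2 ≤ u := by omega
  obtain ⟨k1, k2, k3, k4, k5, k6, k7⟩ := hu2 u hub J hJ w e N A hw hwu hN hN2 hA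
  have mu := (model_up J ℓ w u e Th (by omega) (by rw [hJ]; exact hw) hwleu).2 i j hij
  rw [hJ] at mu
  have hFQ := forms_ok w (u ^ Th) e A hw12 f hA hf
  have hQmem : ∀ p ∈ Qe w (u ^ Th) e, p.Prime ∧ w < p ∧ p ≤ u ^ Th ∧ p ≠ e := fun p hp => (mem_Qe _ _ _ _).mp hp
  obtain ⟨c, hc1, hc2⟩ := tr_primeq (Qe w (u ^ Th) e) (fun j => f j * A) hFQ i N (u ^ Th) (fun p hp => (hQmem p hp).2.2.1) hTN
  have hQ12 : ∀ p ∈ Qe w (u ^ Th) e, 12 ≤ p := fun p hp => by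
    have := (hQmem p hp).2.1
    omega
  have hq12 : ∀ p, (12 : ℝ) ≤ qr (Qe w (u ^ Th) e) p := by
    intro p
    unfold qr
    exact_mod_cast hQ12 p.1 p.2
  have hv1 : ∀ p, 1 ≤ vr (Qe w (u ^ Th) e) p := by
    intro p
    unfold vr
    exact (hQmem p.1 p.2).1.one_lt.le
  have huTh : 1 ≤ u ^ Th := Nat.one_le_pow _ _ (by omega)
  have hyM := yM_bd (J := J) (Qe w (u ^ Th) e) hQ12 ℓ u Th hu2'
  have hc3 := hc2 (yMj (Qe w (u ^ Th) e) ℓ u Th j)
  have herr := hu1 u hua J hJ w e N A f hw12 hwu hN hN2 hA hf hAe hexc (yMj (Qe w (u ^ Th) e) ℓ u Th j)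
    (fun r => by
      have h := yj_bd j (vr (Qe w (u ^ Th) e)) hv1 (qr (Qe w (u ^ Th) e)) hq12 (u ^ Th) huTh (yM (Qe w (u ^ Th) e) ℓ u Th)
        (fun r => (hyM r).1) (fun r => (hyM r).2.1) (fun r => (hyM r).2.2) r
      unfold yMj
      rw [abs_of_nonneg h.1]
      exact h.2)
    (fun r hr => by
      have h := yj_supp j (vr (Qe w (u ^ Th) e)) hv1 (qr (Qe w (u ^ Th) e)) (u ^ Th) (yM (Qe w (u ^ Th) e) ℓ u Th)
        (fun r => (hyM r).2.2) r hr
      rw [← pow_mul, mul_comm Th 2] at h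
      exact h) i c hc1
  have hOK : ∀ j, MulOK w e (f j * A) := mul_f w e A f hA hf
  have hrat := prtw_ratio w e A (f i * A) hA (hOK i)
  have htot := (totA w e A hA).1
  have hwD := wD_one w
  have ha2 : ∀ j, 2 ≤ f j * A := by
    intro j
    by_cases he : e = 2
    · have h3 : 3 ∣ f j * A := ((hOK j).small 3 Nat.prime_three).2 ⟨by omega, by omega⟩
      have := Nat.le_of_dvd (hOK j).pos h3
      omega
    · have h3 : 2 ∣ f j * A := ((hOK j).small 2 Nat.prime_two).2 ⟨by omega, fun h => he h.symm⟩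
      exact Nat.le_of_dvd (hOK j).pos h3
  have hbig : ∀ j, ∀ n, N ≤ n → N ≤ f j * A * n - 1 := by
    intro j n hn
    have h2 : 2 * N ≤ f j * A * n := Nat.mul_le_mul (ha2 j) hn
    omega
  -- the logarithms
  have hlog : ∀ n ∈ (Ico N (2 * N)).filter (fun n => (f i * A * n - 1).Prime),
      Real.log N ≤ Real.log ((f i * A * n - 1 : ℕ) : ℝ) := by
    intro n hn
    rw [mem_filter, mem_Ico] at hn
    exact Real.log_le_log hNr (by exact_mod_cast hbig i n hn.1.1)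
  -- the sum of the new weight
  obtain ⟨F, hF⟩ : ∃ F : ℕ → ℝ, ∀ n, F n = Lam (qr (Qe w (u ^ Th) e)) (yMj (Qe w (u ^ Th) e) ℓ u Th j)
      (colq (fun j => f j * A) (Qe w (u ^ Th) e) n) ^ 2 := ⟨_, fun n => rfl⟩
  have hF0 : ∀ n, 0 ≤ F n := fun n => by
    rw [hF]
    exact sq_nonneg _
  have hstep1 : ∑ n ∈ (Ico N (2 * N)).filter (fun n => (f i * A * n - 1).Prime ∧ (f j * A * n - 1).Prime),
      LN (fun j => f j * A) (Qe w (u ^ Th) e) ℓ u Th n ≤ ∑ n ∈ (Ico N (2 * N)).filter (fun n => (f i * A * n - 1).Prime), F n := by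
    have h1 : ∀ n ∈ (Ico N (2 * N)).filter (fun n => (f i * A * n - 1).Prime ∧ (f j * A * n - 1).Prime),
        LN (fun j => f j * A) (Qe w (u ^ Th) e) ℓ u Th n = F n := by
      intro n hn
      rw [mem_filter, mem_Ico] at hn
      obtain ⟨⟨hn1, hn2⟩, _, hn4⟩ := hn
      have hcol : ∀ p, colq (fun j => f j * A) (Qe w (u ^ Th) e) n p ≠ some j := by
        intro p hp
        rw [colq_eq (Qe w (u ^ Th) e) (fun j => f j * A) hFQ n (by omega) p j] at hp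
        have h2 := (Nat.prime_dvd_prime_iff_eq (hQmem p.1 p.2).1 hn4).1 hp
        have h3 := (hQmem p.1 p.2).2.2.1
        have h4 := hbig j n hn1
        omega
      have h5 := Lam_yj j (vr (Qe w (u ^ Th) e)) (qr (Qe w (u ^ Th) e)) hq12 (u ^ Th) huTh (yM (Qe w (u ^ Th) e) ℓ u Th)
        (colq (fun j => f j * A) (Qe w (u ^ Th) e) n) hcol
      rw [hF]
      unfold LN yMj
      rw [h5]
    rw [sum_congr rfl h1]
    apply sum_le_sum_of_subset_of_nonneg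
    · intro n hn
      rw [mem_filter] at hn ⊢
      exact ⟨hn.1, hn.2.1⟩
    · intro n _ _
      exact hF0 n
  have hT : ∑ n ∈ (Ico N (2 * N)).filter (fun n => (f i * A * n - 1).Prime), Real.log ((f i * A * n - 1 : ℕ) : ℝ) * F n ≤
      (A : ℝ) / (Nat.totient A : ℝ) * N * EP i (qr (Qe w (u ^ Th) e)) (fun ξ : {p // p ∈ Qe w (u ^ Th) e} → Option J =>
        Lam (qr (Qe w (u ^ Th) e)) (yMj (Qe w (u ^ Th) e) ℓ u Th j) ξ ^ 2) + N := by
    have e1 : (((fun j => f j * A) i : ℕ) : ℝ) * (N : ℝ) / (Nat.totient ((fun j => f j * A) i) : ℝ) =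
        (A : ℝ) / (Nat.totient A : ℝ) * N := by
      rw [hrat]
      ring
    rw [e1] at hc3
    have h1 := (abs_le.1 (hc3.trans herr)).2
    have h2 : ∑ n ∈ (Ico N (2 * N)).filter (fun n => (f i * A * n - 1).Prime), Real.log ((f i * A * n - 1 : ℕ) : ℝ) * F n =
        ∑ n ∈ (Ico N (2 * N)).filter (fun n => ((fun j => f j * A) i * n - 1).Prime),
          Real.log (((fun j => f j * A) i * n - 1 : ℕ) : ℝ) * Lam (qr (Qe w (u ^ Th) e)) (yMj (Qe w (u ^ Th) e) ℓ u Th j)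
            (colq (fun j => f j * A) (Qe w (u ^ Th) e) n) ^ 2 :=
      sum_congr rfl fun n _ => by rw [hF]
    rw [h2]
    linarith
  have hlo : Real.log N * ∑ n ∈ (Ico N (2 * N)).filter (fun n => (f i * A * n - 1).Prime), F n ≤
      ∑ n ∈ (Ico N (2 * N)).filter (fun n => (f i * A * n - 1).Prime), Real.log ((f i * A * n - 1 : ℕ) : ℝ) * F n := by
    rw [mul_sum]
    exact sum_le_sum fun n hn => mul_le_mul_of_nonneg_right (hlog n hn) (hF0 n)
  refine le_trans hstep1 ?_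
  have hal : 0 < (A : ℝ) / (Nat.totient A : ℝ) := by linarith
  clear hc3 herr hc2 hu1 hu2 k6 hlog hstep1
  unfold kpN at k7 ⊢
  exact prtw_fin K hK2 ((A : ℝ) / (Nat.totient A : ℝ)) N (Real.log N) (S1N (Qe w (u ^ Th) e) ℓ u) (S2N (Qe w (u ^ Th) e) ℓ u) _ _ _
    (Th * Real.log u) (wD w) hNr.le k3 k1 hal (by linarith) (by linarith) (by linarith) mu hT hlo k7

end Pool.CP
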