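import Pool.Agent.Lib.MP_c77da8_nt.CP.TrP
import Pool.Agent.Lib.MP_c77da8_nt.CP.ModC
import Pool.Agent.Lib.MP_c77da8_nt.CP.ErrC
import Pool.Agent.Lib.MP_c77da8_nt.CP.KapC

/-!
# CP-SgC: the sum of the weight over the primes, upper and lower bound

Notation: `Q = Qe w (u^Th) e`, `a j = f j * A`, `α = A/φ(A) = a i/φ(a i)` (the same prime factors: `mul_f`; `Nat.totient_eq_mul_prod_factors`), `S2 = S2N`, `W = N S2^K`, `κ = kpN`.
PROOF.  `tr_primeq` (`R = u^Th`, `y = yM ..`, `forms_ok`; compare `PrimeN.lean`): the sum with the weights `log (a i n - 1)` is `α N EP_i ± err`, `err ≤ N` (`prime_errC`: `yM_bd`,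
`u^Th ≤ u^(2 Th)`) `≤ (1/100) α N EP_i` (`kap_low`).  The logarithms are between `log N` (`a i n - 1 ≥ N`, as `a i ≥ 2`) and `log (2 a i N) ≤ (101/100) log N` (large `u`; `a i ≤ w exp ((log N)^(1/3000))`).
`(1/2) S1² S2^(K-1) ≤ EP_i ≤ (51/50) S1² S2^(K-1)` (`model`, `model_up`), and `α S1² S2^(K-1) N/log N = κ W`.  So the sum without logarithms is
`≥ (99/100) (1/2) κ W/(101/100) ≥ κ W/4` and `≤ (101/100) (51/50) κ W ≤ 2 κ W`.
-/

set_option autoImplicit false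

namespace Pool.CP

open Finset Pool.DL

private theorem sgc_ana : ∃ L0 : ℝ, 1 ≤ L0 ∧ ∀ L : ℝ, L0 ≤ L →
    Real.log 2 + Real.log L + L ^ (1 / 3000 : ℝ) ≤ L / 100 := by
  have ht := (tendsto_rpow_atTop (y := (1 / 3000 : ℝ)) (by norm_num)).eventually_ge_atTop 10
  obtain ⟨L1, hL1⟩ := Filter.eventually_atTop.1 ht
  refine ⟨max 1 L1, le_max_left _ _, ?_⟩
  intro L hL
  have hL0 : 1 ≤ L := le_trans (le_max_left _ _) hL
  have hL2 : L1 ≤ L := le_trans (le_max_right _ _) hL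
  have hy := hL1 L hL2
  obtain ⟨y, hyd⟩ : ∃ y : ℝ, y = L ^ (1 / 3000 : ℝ) := ⟨_, rfl⟩
  rw [← hyd] at hy ⊢
  have hLpos : 0 ≤ L := by linarith
  have hlog : Real.log L ≤ 3000 * y := by
    have h1 : Real.log y = 1 / 3000 * Real.log L := by
      rw [hyd, Real.log_rpow (by linarith)]
    have h2 : Real.log y ≤ y - 1 := Real.log_le_sub_one_of_pos (by linarith)
    linarith
  have hLy : y ^ 7 ≤ L := by
    have h1 : L ^ (7 / 3000 : ℝ) = y ^ 7 := by
      rw [hyd, ← Real.rpow_natCast, ← Real.rpow_mul hLpos]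
      norm_num
    rw [← h1]
    calc L ^ (7 / 3000 : ℝ) ≤ L ^ (1 : ℝ) := Real.rpow_le_rpow_of_exponent_le hL0 (by norm_num)
      _ = L := Real.rpow_one L
  have y6 : 1000000 ≤ y ^ 6 := by
    have := pow_le_pow_left₀ (by norm_num : (0 : ℝ) ≤ 10) hy 6
    norm_num at this
    exact this
  have e7 : y ^ 7 = y ^ 6 * y := by ring
  have h7 : 1000000 * y ≤ y ^ 6 * y := mul_le_mul_of_nonneg_right y6 (by linarith)
  have hlog2 : Real.log 2 ≤ 1 := by
    have := Real.log_two_lt_d9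
    linarith
  linarith

private theorem sgc_ratio (w e A B : ℕ) (hA : MulOK w e A) (hB : MulOK w e B) :
    (A : ℝ) / (Nat.totient A : ℝ) = (B : ℝ) / (Nat.totient B : ℝ) := by
  have h : ∀ n : ℕ, 1 ≤ n → (n : ℝ) / (Nat.totient n : ℝ) = (∏ p ∈ n.primeFactors, (1 - (p : ℝ)⁻¹))⁻¹ := by
    intro n hn
    have h1 := Nat.totient_eq_mul_prod_factors n
    have h2 : (Nat.totient n : ℝ) = (n : ℝ) * ∏ p ∈ n.primeFactors, (1 - (p : ℝ)⁻¹) := by
      have h4 := congrArg (fun x : ℚ => (x : ℝ)) h1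
      push_cast at h4
      exact h4
    have h3 : (n : ℝ) ≠ 0 := by
      have : n ≠ 0 := by omega
      exact_mod_cast this
    rw [h2, div_mul_cancel_left₀ h3]
  have hpf : A.primeFactors = B.primeFactors := by
    ext p
    rw [Nat.mem_primeFactors, Nat.mem_primeFactors]
    have h1 := hA.pos
    have h2 := hB.pos
    constructor
    · rintro ⟨hp, hd, _⟩
      exact ⟨hp, (hB.small p hp).2 ((hA.small p hp).1 hd), by omega⟩
    · rintro ⟨hp, hd, _⟩
      exact ⟨hp, (hA.small p hp).2 ((hB.small p hp).1 hd), by omega⟩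
  rw [h A hA.pos, h B hB.pos, hpf]

/-- the arithmetic of the last step -/
private theorem sgc_fin (K : ℕ) (hK : 1 ≤ K) (al N L S1 S2 E err T S : ℝ) (hN : 0 ≤ N) (hL : 0 < L) (hS2 : 1 ≤ S2) (hal : 0 ≤ al)
    (hE1 : 1 / 2 * S1 ^ 2 * S2 ^ (K - 1) ≤ E) (hE2 : E ≤ 51 / 50 * S1 ^ 2 * S2 ^ (K - 1)) (h100 : 100 ≤ al * E)
    (hT : |T - al * N * E| ≤ err) (herr : err ≤ N) (hS1 : L * S ≤ T) (hS3 : T ≤ 101 / 100 * L * S) :
    al * S1 ^ 2 / (S2 * L) * (N * S2 ^ K) / 4 ≤ S ∧ S ≤ 2 * (al * S1 ^ 2 / (S2 * L)) * (N * S2 ^ K) := by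
  have hS20 : 0 < S2 := by linarith
  have hpow : S2 ^ K = S2 ^ (K - 1) * S2 := by
    rw [← pow_succ]
    congr 1
    omega
  obtain ⟨G, hG⟩ : ∃ G : ℝ, G = S1 ^ 2 * S2 ^ (K - 1) := ⟨_, rfl⟩
  have hG0 : 0 ≤ G := by rw [hG]; positivity
  have e1 : al * S1 ^ 2 / (S2 * L) * (N * S2 ^ K) = al * N * G / L := by
    rw [hpow, hG]
    field_simp
  have e2 : 2 * (al * S1 ^ 2 / (S2 * L)) * (N * S2 ^ K) = 2 * (al * N * G / L) := by
    rw [← e1]
    ring
  have hE1' : 1 / 2 * G ≤ E := by rw [hG]; linarith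
  have hE2' : E ≤ 51 / 50 * G := by rw [hG]; linarith
  have hT1 := abs_le.1 (le_trans hT herr)
  have hm : N ≤ 1 / 100 * (al * N * E) := by
    have := mul_le_mul_of_nonneg_left h100 hN
    linarith
  have hEG1 : al * N * (1 / 2 * G) ≤ al * N * E := mul_le_mul_of_nonneg_left hE1' (by positivity)
  have hEG2 : al * N * E ≤ al * N * (51 / 50 * G) := mul_le_mul_of_nonneg_left hE2' (by positivity)
  have hNG : 0 ≤ al * N * G := by positivity
  rw [e1, e2]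
  constructor
  · have h1 : al * N * G / L ≤ 4 * S := by
      rw [div_le_iff₀ hL]
      nlinarith
    linarith
  · have h1 : S ≤ 2 * (al * N * G) / L := by
      rw [le_div_iff₀ hL]
      nlinarith
    calc S ≤ 2 * (al * N * G) / L := h1
      _ = 2 * (al * N * G / L) := by ring

theorem sg_C (CV : ℕ) (hCV1 : 1 ≤ CV)
    (hCV : ∀ w R e x : ℕ, 12 ≤ w → w ≤ x → x ≤ R → VV (vr (Qe w R e)) (qr (Qe w R e)) x ∅ ≤ CV * Real.log x / wD w)
    (K ℓ Th : ℕ) (hℓ : 1 ≤ ℓ) (hK : 2 ^ ℓ ≤ K) (hTh : Th = 32 * CV * (ℓ + 1) * K) : ∃ u0 : ℕ, ∀ u ≥ u0,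
    ∀ (J : Type) [Fintype J] [DecidableEq J], Fintype.card J = K → ∀ (w e N A : ℕ) (f : J → ℕ),
      200 * K ^ 2 + 12 ≤ w → (w : ℝ) ≤ Real.log u → u ^ (16 * Th) ≤ N → N < (u + 1) ^ (16 * Th) →
      MulOK w e A → FOK f w e → (A : ℝ) ≤ Real.exp (Real.log N ^ (1 / 3000 : ℝ)) → NoExcN (Real.log N) e →
      ∀ i : J,
        kpN (Qe w (u ^ Th) e) ℓ u A N * (N * S2N (Qe w (u ^ Th) e) ℓ u ^ K) / 4 ≤
          ∑ n ∈ (Ico N (2 * N)).filter (fun n => (f i * A * n - 1).Prime),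
            LN (fun j => f j * A) (Qe w (u ^ Th) e) ℓ u Th n ∧
        ∑ n ∈ (Ico N (2 * N)).filter (fun n => (f i * A * n - 1).Prime),
            LN (fun j => f j * A) (Qe w (u ^ Th) e) ℓ u Th n ≤
          2 * kpN (Qe w (u ^ Th) e) ℓ u A N * (N * S2N (Qe w (u ^ Th) e) ℓ u ^ K) := by
  have hK1 : 1 ≤ K := le_trans Nat.one_le_two_pow hK
  have hTh32 : 32 ≤ Th := by
    rw [hTh]
    calc 32 = 32 * 1 * 1 * 1 := by norm_num
      _ ≤ 32 * CV * (ℓ + 1) * K := by gcongr; omega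
  obtain ⟨u1, hu1⟩ := prime_errC K Th hTh32
  obtain ⟨u2, hu2⟩ := kap_low CV hCV1 hCV K ℓ Th hℓ hK hTh
  obtain ⟨L0, hL01, hL0⟩ := sgc_ana
  refine ⟨max (max 13 (max u1 u2)) ⌈Real.exp L0⌉₊, ?_⟩
  intro u hu J _ _ hJ w e N A f hw hwu hN hN2 hA hf hAe hexc i
  have hu13 : 13 ≤ u := le_trans (le_trans (le_max_left _ _) (le_max_left _ _)) hu
  have hua : u1 ≤ u := le_trans (le_trans (le_trans (le_max_left _ _) (le_max_right _ _)) (le_max_left _ _)) hu
  have hub : u2 ≤ u := le_trans (le_trans (le_trans (le_max_right _ _) (le_max_right _ _)) (le_max_left _ _)) hu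
  have huL : Real.exp L0 ≤ u := by
    have h1 : ⌈Real.exp L0⌉₊ ≤ u := le_trans (le_max_right _ _) hu
    exact le_trans (Nat.le_ceil _) (by exact_mod_cast h1)
  have hur : (0 : ℝ) < u := by exact_mod_cast (by omega : 0 < u)
  have hlogu : L0 ≤ Real.log u := by
    rw [Real.le_log_iff_exp_le hur]
    exact huL
  have hw12 : 12 ≤ w := by omega
  have hwleu : w ≤ u := by
    have h1 : (w : ℝ) ≤ u := by
      have := Real.log_le_sub_one_of_pos hur
      linarith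
    exact_mod_cast h1
  have huN : u ≤ N := le_trans (Nat.le_self_pow (by omega) u) hN
  have hN0 : 0 < N := by omega
  have hNr : (0 : ℝ) < N := by exact_mod_cast hN0
  have hluN : Real.log u ≤ Real.log N := Real.log_le_log hur (by exact_mod_cast huN)
  have hTN : u ^ Th + 3 ≤ N := by
    refine le_trans ?_ hN
    have h1 : u ^ (16 * Th) = (u ^ Th) ^ 16 := by rw [← pow_mul]; ring_nf
    have h2 : 3 ≤ u ^ Th := le_trans (by omega) (Nat.le_self_pow (by omega) u)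
    rw [h1]
    calc u ^ Th + 3 ≤ u ^ Th * u ^ Th := by nlinarith
      _ = (u ^ Th) ^ 2 := by ring
      _ ≤ (u ^ Th) ^ 16 := Nat.pow_le_pow_right (by omega) (by norm_num)
  obtain ⟨c, hc1, hc2⟩ := tr_primeq (Qe w (u ^ Th) e) (fun j => f j * A) (forms_ok w (u ^ Th) e A hw12 f hA hf) i N (u ^ Th)
    (fun p hp => ((mem_Qe _ _ _ _).mp hp).2.2.1) hTN
  have hQ12 : ∀ p ∈ Qe w (u ^ Th) e, 12 ≤ p := fun p hp => by
    have := ((mem_Qe _ _ _ _).mp hp).2.1
    omega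
  have hu2' : 2 ≤ u := by omega
  have hc3 := hc2 (yM (Qe w (u ^ Th) e) ℓ u Th)
  have herr := hu1 u hua J hJ w e N A f hw12 hwu hN hN2 hA hf hAe hexc (yM (Qe w (u ^ Th) e) ℓ u Th)
    (fun r => by
      have h := yM_bd (Qe w (u ^ Th) e) hQ12 ℓ u Th hu2' r
      rw [abs_of_nonneg h.1]
      exact h.2.1)
    (fun r hr => le_trans ((yM_bd (Qe w (u ^ Th) e) hQ12 ℓ u Th hu2' r).2.2 hr) (Nat.pow_le_pow_right (by omega) (by omega))) i c hc1
  obtain ⟨k1, k2, k3, k4, k5, k6, k7⟩ := hu2 u hub J hJ w e N A hw hwu hN hN2 hA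
  obtain ⟨m1, m2, m3, _, m5⟩ := model CV hCV1 hCV J ℓ w u e Th hℓ (by rw [hJ]; exact hK) (by rw [hJ]; exact hTh)
    (by rw [hJ]; exact hw) hwleu
  have m5' := m5 i
  have mu := (model_up J ℓ w u e Th (by omega) (by rw [hJ]; exact hw) hwleu).1 i
  rw [hJ] at m5' mu
  have hOK : MulOK w e (f i * A) := mul_f w e A f hA hf i
  have hrat := sgc_ratio w e A (f i * A) hA hOK
  have ha2 : 2 ≤ f i * A := by
    by_cases he : e = 2
    · have h3 : 3 ∣ f i * A := (hOK.small 3 Nat.prime_three).2 ⟨by omega, by omega⟩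
      have := Nat.le_of_dvd hOK.pos h3
      omega
    · have h3 : 2 ∣ f i * A := (hOK.small 2 Nat.prime_two).2 ⟨by omega, fun h => he h.symm⟩
      exact Nat.le_of_dvd hOK.pos h3
  -- the logarithms
  have hlog : ∀ n ∈ (Ico N (2 * N)).filter (fun n => (f i * A * n - 1).Prime),
      Real.log N ≤ Real.log ((f i * A * n - 1 : ℕ) : ℝ) ∧ Real.log ((f i * A * n - 1 : ℕ) : ℝ) ≤ 101 / 100 * Real.log N := by
    intro n hn
    rw [mem_filter, mem_Ico] at hn
    obtain ⟨⟨hn1, hn2⟩, _⟩ := hn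
    have h1 : N ≤ f i * A * n - 1 := by
      have h2 : 2 * N ≤ f i * A * n := Nat.mul_le_mul ha2 hn1
      omega
    have h3 : f i * A * n - 1 ≤ f i * A * (2 * N) := (Nat.sub_le _ _).trans (Nat.mul_le_mul_left _ hn2.le)
    have h4 : ((f i * A * n - 1 : ℕ) : ℝ) ≤ (f i : ℝ) * A * (2 * N) := by exact_mod_cast h3
    refine ⟨Real.log_le_log hNr (by exact_mod_cast h1), ?_⟩
    have hfi : (0 : ℝ) < f i := by exact_mod_cast hf.pos i
    have hA0 : (0 : ℝ) < A := by exact_mod_cast hA.pos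
    have h5 : Real.log ((f i * A * n - 1 : ℕ) : ℝ) ≤ Real.log ((f i : ℝ) * A * (2 * N)) := by
      apply Real.log_le_log _ h4
      exact_mod_cast (by omega : 0 < f i * A * n - 1)
    have hfA : (f i : ℝ) * A ≠ 0 := (mul_pos hfi hA0).ne'
    have h2N : (2 : ℝ) * N ≠ 0 := (mul_pos two_pos hNr).ne'
    have g1 : Real.log ((f i : ℝ) * A * (2 * N)) = Real.log ((f i : ℝ) * A) + Real.log (2 * (N : ℝ)) := Real.log_mul hfA h2N
    have g2 : Real.log ((f i : ℝ) * A) = Real.log (f i : ℝ) + Real.log (A : ℝ) := Real.log_mul hfi.ne' hA0.ne'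
    have g3 : Real.log (2 * (N : ℝ)) = Real.log 2 + Real.log N := Real.log_mul two_ne_zero hNr.ne'
    have h6 : Real.log (f i : ℝ) ≤ Real.log (Real.log N) := by
      apply Real.log_le_log hfi
      have : (f i : ℝ) ≤ w := by exact_mod_cast hf.le i
      linarith
    have h7 : Real.log (A : ℝ) ≤ Real.log N ^ (1 / 3000 : ℝ) := by
      rw [Real.log_le_iff_le_exp hA0]
      exact hAe
    have h8 := hL0 (Real.log N) (by linarith)
    linarith
  have hT : |∑ n ∈ (Ico N (2 * N)).filter (fun n => (f i * A * n - 1).Prime),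
      Real.log ((f i * A * n - 1 : ℕ) : ℝ) * LN (fun j => f j * A) (Qe w (u ^ Th) e) ℓ u Th n -
      (A : ℝ) / (Nat.totient A : ℝ) * N * EP i (qr (Qe w (u ^ Th) e)) (fun ξ : {p // p ∈ Qe w (u ^ Th) e} → Option J =>
        Lam (qr (Qe w (u ^ Th) e)) (yM (Qe w (u ^ Th) e) ℓ u Th) ξ ^ 2)| ≤ N := by
    refine le_trans (le_of_eq ?_) (le_trans hc3 herr)
    have e1 : (((fun j => f j * A) i : ℕ) : ℝ) * (N : ℝ) / (Nat.totient ((fun j => f j * A) i) : ℝ) =
        (A : ℝ) / (Nat.totient A : ℝ) * N := by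
      rw [hrat]
      ring
    rw [e1]
    rfl
  have hLN : ∀ n, 0 ≤ LN (fun j => f j * A) (Qe w (u ^ Th) e) ℓ u Th n := fun n => by
    unfold LN
    positivity
  have hlo : Real.log N * ∑ n ∈ (Ico N (2 * N)).filter (fun n => (f i * A * n - 1).Prime),
      LN (fun j => f j * A) (Qe w (u ^ Th) e) ℓ u Th n ≤ ∑ n ∈ (Ico N (2 * N)).filter (fun n => (f i * A * n - 1).Prime),
      Real.log ((f i * A * n - 1 : ℕ) : ℝ) * LN (fun j => f j * A) (Qe w (u ^ Th) e) ℓ u Th n := by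
    rw [mul_sum]
    exact sum_le_sum fun n hn => mul_le_mul_of_nonneg_right (hlog n hn).1 (hLN n)
  have hhi : ∑ n ∈ (Ico N (2 * N)).filter (fun n => (f i * A * n - 1).Prime),
      Real.log ((f i * A * n - 1 : ℕ) : ℝ) * LN (fun j => f j * A) (Qe w (u ^ Th) e) ℓ u Th n ≤
      101 / 100 * Real.log N * ∑ n ∈ (Ico N (2 * N)).filter (fun n => (f i * A * n - 1).Prime),
      LN (fun j => f j * A) (Qe w (u ^ Th) e) ℓ u Th n := by
    obtain ⟨b, hb⟩ : ∃ b : ℝ, b = 101 / 100 * Real.log N := ⟨_, rfl⟩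
    rw [← hb, mul_sum]
    apply sum_le_sum
    intro n hn
    have h1 := (hlog n hn).2
    rw [← hb] at h1
    exact mul_le_mul_of_nonneg_right h1 (hLN n)
  have h100 := k6 i
  have hal : 0 ≤ (A : ℝ) / (Nat.totient A : ℝ) := by positivity
  clear hc3 herr hc2 hu1 hu2 m5 k6 hlog
  unfold kpN
  generalize (∑ n ∈ (Ico N (2 * N)).filter (fun n => (f i * A * n - 1).Prime),
      LN (fun j => f j * A) (Qe w (u ^ Th) e) ℓ u Th n) = S at *
  generalize (∑ n ∈ (Ico N (2 * N)).filter (fun n => (f i * A * n - 1).Prime),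
      Real.log ((f i * A * n - 1 : ℕ) : ℝ) * LN (fun j => f j * A) (Qe w (u ^ Th) e) ℓ u Th n) = T at *
  generalize (EP i (qr (Qe w (u ^ Th) e)) (fun ξ : {p // p ∈ Qe w (u ^ Th) e} → Option J =>
        Lam (qr (Qe w (u ^ Th) e)) (yM (Qe w (u ^ Th) e) ℓ u Th) ξ ^ 2)) = E at *
  exact sgc_fin K hK1 ((A : ℝ) / (Nat.totient A : ℝ)) N (Real.log N) (S1N (Qe w (u ^ Th) e) ℓ u) (S2N (Qe w (u ^ Th) e) ℓ u)
    E N T S hNr.le k3 k1 hal m5' mu h100 hT le_rfl hlo hhi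

end Pool.CP
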