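import Pool.Agent.Lib.MP_c77da8_nt.CP.FormE
import Pool.Agent.Lib.MP_c77da8_nt.CP.ZLam
import Pool.Agent.Lib.MP_c77da8_nt.CP.FamP

/-!
# CP-PrimeE: the error term of the sum of the weight over the primes

Notation: `Q = Qe w (u^Th) e`, `u^(10 Th) ≤ N < (u+1)^(10 Th)`, `a = f i * A`, `L = log N`, `K = card J`.
PROOF.  `|lam d| ≤ [nrm (supp d) ≤ u^Th] 2^(#supp d) Z` (`lam_bd` in `DL/LamBd.lean`, `yM_bd`), `Z = ∏ (1 + K x)`, so the sum is `≤ Z² (F(2 a N - 2) + F(a N - 2))`, `F(X)` the double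
sum of `famP` with `E = 2 K + 1`, `R = u^Th`, its `A` is `a`: `R² = u^(2 Th) ≤ X^(1/4)` (`X ≥ a N - 2 ≥ N ≥ u^(10 Th)`, as `a ≥ 2`: `a` is divisible by the primes `≤ w`, `≠ e`, `w ≥ 12`);
`a ≤ w exp (L^(1/3000)) ≤ exp ((log X)^(1/2500))` for large `u`; `e ∤ a` (`mul_f`), `e ∉ Q`; `NoExc (log X) e` (`noexc_up`, `X ≤ 2 a N ≤ N²`).  So `F(X) ≤ X/(a L^E)`, `X ≤ 2 a N`, and
`Z ≤ (C log (u^Th)/wD w)^K ≤ (C L)^K` (`ZQ_le`, `wD w ≥ 1`): the sum is `≤ C^(2K) L^(2K) · 4 N/L^(2K+1) ≤ N` for large `u` (`N ≥ u`).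
-/

set_option autoImplicit false

namespace Pool.CP

open Finset Pool.DL

private theorem pe_ana (B : ℝ) : ∃ L0 : ℝ, 1 ≤ L0 ∧ ∀ L : ℝ, L0 ≤ L →
    L * Real.exp (L ^ (1 / 3000 : ℝ)) ≤ Real.exp (L ^ (1 / 2500 : ℝ)) ∧ 2 * Real.exp (L ^ (1 / 2500 : ℝ)) ≤ Real.exp L ∧ B ≤ L := by
  have ht := (tendsto_rpow_atTop (y := (1 / 15000 : ℝ)) (by norm_num)).eventually_ge_atTop 12
  obtain ⟨L1, hL1⟩ := Filter.eventually_atTop.1 ht
  refine ⟨max 1 (max L1 B), le_max_left _ _, ?_⟩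
  intro L hL
  have hL0 : 1 ≤ L := le_trans (le_max_left _ _) hL
  have hL2 : L1 ≤ L := le_trans (le_trans (le_max_left _ _) (le_max_right _ _)) hL
  have hLB : B ≤ L := le_trans (le_trans (le_max_right _ _) (le_max_right _ _)) hL
  have hy := hL1 L hL2
  obtain ⟨y, hyd⟩ : ∃ y : ℝ, y = L ^ (1 / 15000 : ℝ) := ⟨_, rfl⟩
  rw [← hyd] at hy
  have hLpos : 0 ≤ L := by linarith
  have e1 : L ^ (1 / 3000 : ℝ) = y ^ 5 := by
    rw [hyd, ← Real.rpow_natCast, ← Real.rpow_mul hLpos]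
    norm_num
  have e2 : L ^ (1 / 2500 : ℝ) = y ^ 6 := by
    rw [hyd, ← Real.rpow_natCast, ← Real.rpow_mul hLpos]
    norm_num
  have hlog : Real.log L ≤ 15000 * y := by
    have h1 : Real.log y = 1 / 15000 * Real.log L := by
      rw [hyd, Real.log_rpow (by linarith)]
    have h2 : Real.log y ≤ y - 1 := Real.log_le_sub_one_of_pos (by linarith)
    linarith
  have hLy : y ^ 7 ≤ L := by
    have h1 : L ^ (7 / 15000 : ℝ) = y ^ 7 := by
      rw [hyd, ← Real.rpow_natCast, ← Real.rpow_mul hLpos]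
      norm_num
    rw [← h1]
    calc L ^ (7 / 15000 : ℝ) ≤ L ^ (1 : ℝ) := Real.rpow_le_rpow_of_exponent_le hL0 (by norm_num)
      _ = L := Real.rpow_one L
  rw [e1, e2]
  have y4 : 20736 ≤ y ^ 4 := by
    have := pow_le_pow_left₀ (by norm_num : (0 : ℝ) ≤ 12) hy 4
    norm_num at this
    exact this
  have y6 : 1 ≤ y ^ 6 := one_le_pow₀ (by linarith)
  refine ⟨?_, ?_, hLB⟩
  · have h1 : L = Real.exp (Real.log L) := (Real.exp_log (by linarith)).symm
    have h2 : L * Real.exp (y ^ 5) = Real.exp (Real.log L + y ^ 5) := by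
      rw [Real.exp_add, ← h1]
    rw [h2]
    apply Real.exp_le_exp.2
    have h3 : 15000 * y + y ^ 5 ≤ y ^ 6 := by
      have h4 : y ^ 6 = y ^ 4 * (y * y) := by ring
      have h5 : y ^ 5 = y ^ 4 * y := by ring
      have h6 : y ^ 4 * (y * y) - y ^ 4 * y = y ^ 4 * y * (y - 1) := by ring
      have h7 : 15000 * y ≤ y ^ 4 * y := mul_le_mul_of_nonneg_right (by linarith) (by linarith)
      have h8 : y ^ 4 * y ≤ y ^ 4 * y * (y - 1) := le_mul_of_one_le_right (by positivity) (by linarith)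
      rw [h4, h5]
      linarith
    linarith
  · have h1 : (2 : ℝ) ≤ Real.exp 1 := by
      have := Real.add_one_le_exp (1 : ℝ)
      linarith
    calc 2 * Real.exp (y ^ 6) ≤ Real.exp 1 * Real.exp (y ^ 6) := mul_le_mul_of_nonneg_right h1 (Real.exp_pos _).le
      _ = Real.exp (1 + y ^ 6) := (Real.exp_add _ _).symm
      _ ≤ Real.exp L := by
        apply Real.exp_le_exp.2
        have h2 : y ^ 7 = y * y ^ 6 := by ring
        have h3 : 12 * y ^ 6 ≤ y * y ^ 6 := mul_le_mul_of_nonneg_right hy (by positivity)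
        linarith

private theorem pe_fam (K E : ℕ) : ∃ X0 : ℕ, ∀ (J : Type) [Fintype J] [DecidableEq J], Fintype.card J = K → ∀ X : ℕ, X0 ≤ X →
    ∀ (Q : Finset ℕ) (A e R : ℕ), (∀ p ∈ Q, p.Prime) → e ∉ Q → (e = 0 ∨ e.Prime) → ¬ e ∣ A → 1 ≤ A →
    (A : ℝ) ≤ Real.exp (Real.log X ^ (1 / 2500 : ℝ)) → NoExc (Real.log X) e → (R : ℝ) ^ 2 ≤ (X : ℝ) ^ (1 / 4 : ℝ) →
    ∀ c : ({p // p ∈ Q} → Option J) → ({p // p ∈ Q} → Option J) → ℕ,
    (∀ d d', Nat.Coprime (c d d') (A * nrm (vr Q) (supp (join d d')))) →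
    ∑ d ∈ univ.filter (fun d : {p // p ∈ Q} → Option J => nrm (vr Q) (supp d) ≤ R),
      ∑ d' ∈ univ.filter (fun d' : {p // p ∈ Q} → Option J => nrm (vr Q) (supp d') ≤ R),
        (2 : ℝ) ^ (supp d).card * 2 ^ (supp d').card *
          |Pool.BV.Et X (A * nrm (vr Q) (supp (join d d'))) (c d d')| ≤ X / (A * Real.log X ^ E) := by
  obtain ⟨X0, h⟩ := famP (Fin K) E
  refine ⟨X0, ?_⟩
  intro J _ _ hJ X hX Q A e R h1 h2 h3 h4 h5 h6 h7 h8 c hc
  obtain ⟨φ⟩ : Nonempty (Fin K ≃ J) := ⟨(Fintype.equivFinOfCardEq hJ).symm⟩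
  obtain ⟨ψ, hψ⟩ : ∃ ψ : ({p // p ∈ Q} → Option (Fin K)) ≃ ({p // p ∈ Q} → Option J),
      ∀ d p, ψ d p = (d p).map φ := ⟨Equiv.arrowCongr (Equiv.refl _) (Equiv.optionCongr φ), fun d p => rfl⟩
  have hnone : ∀ d p, ψ d p = none ↔ d p = none := by
    intro d p
    rw [hψ]
    simp
  have hsupp : ∀ d, supp (ψ d) = supp d := by
    intro d
    ext p
    simp only [supp, mem_filter, mem_univ, true_and, ne_eq, hnone]
  have hjoin : ∀ d d', join (ψ d) (ψ d') = ψ (join d d') := by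
    intro d d'
    funext p
    rw [hψ]
    unfold join
    by_cases hd : d p = none
    · rw [if_pos hd, if_pos ((hnone d p).2 hd), hψ]
    · rw [if_neg hd, if_neg (fun h => hd ((hnone d p).1 h)), hψ]
  have hmain := h X hX Q A e R h1 h2 h3 h4 h5 h6 h7 h8 (fun d d' => c (ψ d) (ψ d')) (fun d d' => by
    have := hc (ψ d) (ψ d')
    rwa [hjoin, hsupp] at this)
  refine le_trans (le_of_eq ?_) hmain
  symm
  apply Finset.sum_equiv ψ
  · intro d
    simp only [mem_filter, mem_univ, true_and, hsupp]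
  · intro d _
    apply Finset.sum_equiv ψ
    · intro d'
      simp only [mem_filter, mem_univ, true_and, hsupp]
    · intro d' _
      rw [hjoin, hsupp, hsupp, hsupp]

private theorem pe_abs {α : Type} [Fintype α] (p : α → Prop) [DecidablePred p] (l b : α → ℝ) (Z : ℝ) (hZ : 0 ≤ Z) (hb : ∀ d, 0 ≤ b d)
    (hl : ∀ d, |l d| ≤ if p d then b d * Z else 0) (E1 E2 : α → α → ℝ) :
    ∑ d, ∑ d', |l d| * |l d'| * (|E1 d d'| + |E2 d d'|) ≤
      Z ^ 2 * (∑ d ∈ univ.filter p, ∑ d' ∈ univ.filter p, b d * b d' * |E1 d d'| +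
        ∑ d ∈ univ.filter p, ∑ d' ∈ univ.filter p, b d * b d' * |E2 d d'|) := by
  rw [← sum_add_distrib, mul_sum, sum_filter]
  apply sum_le_sum
  intro d _
  by_cases hd : p d
  · rw [if_pos hd, ← sum_add_distrib, mul_sum, sum_filter]
    apply sum_le_sum
    intro d' _
    have h1 := hl d
    have h2 := hl d'
    rw [if_pos hd] at h1
    by_cases hd' : p d'
    · rw [if_pos hd'] at h2 ⊢
      have h3 : |l d| * |l d'| ≤ (b d * Z) * (b d' * Z) := mul_le_mul h1 h2 (abs_nonneg _) (mul_nonneg (hb d) hZ)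
      have h4 : |l d| * |l d'| * (|E1 d d'| + |E2 d d'|) ≤ (b d * Z) * (b d' * Z) * (|E1 d d'| + |E2 d d'|) :=
        mul_le_mul_of_nonneg_right h3 (by positivity)
      refine le_trans h4 (le_of_eq ?_)
      ring
    · rw [if_neg hd'] at h2 ⊢
      have h3 : |l d'| = 0 := le_antisymm h2 (abs_nonneg _)
      rw [h3]
      simp
  · rw [if_neg hd]
    have h1 := hl d
    rw [if_neg hd] at h1
    have h3 : |l d| = 0 := le_antisymm h1 (abs_nonneg _)
    apply le_of_eq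
    apply sum_eq_zero
    intro d' _
    rw [h3]
    simp

theorem prime_err (K ℓ Th : ℕ) (hTh : 32 ≤ Th) : ∃ u0 : ℕ, ∀ u ≥ u0,
    ∀ (J : Type) [Fintype J] [DecidableEq J], Fintype.card J = K → ∀ (w e N A : ℕ) (f : J → ℕ),
      12 ≤ w → (w : ℝ) ≤ Real.log u → u ^ (10 * Th) ≤ N → N < (u + 1) ^ (10 * Th) →
      MulOK w e A → FOK f w e → (A : ℝ) ≤ Real.exp (Real.log N ^ (1 / 3000 : ℝ)) → NoExcN (Real.log N) e →
      ∀ (i : J) (c : ({p // p ∈ Qe w (u ^ Th) e} → Option J) → ({p // p ∈ Qe w (u ^ Th) e} → Option J) → ℕ),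
      (∀ d d', Nat.Coprime (c d d') (f i * A * nrm (vr (Qe w (u ^ Th) e)) (supp (join d d')))) →
      ∑ d, ∑ d', |lam (qr (Qe w (u ^ Th) e)) (yM (Qe w (u ^ Th) e) ℓ u Th) d| *
          |lam (qr (Qe w (u ^ Th) e)) (yM (Qe w (u ^ Th) e) ℓ u Th) d'| *
        (|Pool.BV.Et (2 * (f i * A) * N - 2) (f i * A * nrm (vr (Qe w (u ^ Th) e)) (supp (join d d'))) (c d d')| +
         |Pool.BV.Et (f i * A * N - 2) (f i * A * nrm (vr (Qe w (u ^ Th) e)) (supp (join d d'))) (c d d')|) ≤ N := by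
  obtain ⟨C, hC1, hC⟩ := ZQ_le
  obtain ⟨X0, hfam⟩ := pe_fam K (2 * K + 1)
  obtain ⟨N0, hN0⟩ := noexc_up
  obtain ⟨L0, hL01, hL0⟩ := pe_ana (4 * C ^ (2 * K))
  refine ⟨max (max 13 (max X0 N0)) ⌈Real.exp L0⌉₊, ?_⟩
  intro u hu J _ _ hJ w e N A f hw12 hwu hN1 hN2 hA hf hA2 hne i c hc
  have hu13 : 13 ≤ u := le_trans (le_trans (le_max_left _ _) (le_max_left _ _)) hu
  have huX : X0 ≤ u := le_trans (le_trans (le_trans (le_max_left _ _) (le_max_right _ _)) (le_max_left _ _)) hu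
  have huN : N0 ≤ u := le_trans (le_trans (le_trans (le_max_right _ _) (le_max_right _ _)) (le_max_left _ _)) hu
  have huL : Real.exp L0 ≤ u := by
    have h1 : ⌈Real.exp L0⌉₊ ≤ u := le_trans (le_max_right _ _) hu
    exact le_trans (Nat.le_ceil _) (by exact_mod_cast h1)
  have hur : (0 : ℝ) < u := by exact_mod_cast (by omega : 0 < u)
  have huN' : u ≤ N := le_trans (Nat.le_self_pow (by omega) u) hN1
  have hNr : (0 : ℝ) < N := by exact_mod_cast (by omega : 0 < N)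
  have hlogu : L0 ≤ Real.log u := by
    rw [Real.le_log_iff_exp_le hur]
    exact huL
  obtain ⟨L, hLd⟩ : ∃ L : ℝ, L = Real.log N := ⟨_, rfl⟩
  have hLTh : (Th : ℝ) * Real.log u ≤ L := by
    have h1 : Real.log ((u ^ (10 * Th) : ℕ) : ℝ) ≤ Real.log N := Real.log_le_log (by exact_mod_cast (by positivity)) (by exact_mod_cast hN1)
    rw [Nat.cast_pow, Real.log_pow, ← hLd] at h1
    push_cast at h1
    have h2 : 0 ≤ (Th : ℝ) * Real.log u := by
      have : 0 ≤ Real.log u := by linarith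
      positivity
    linarith
  have hluL : Real.log u ≤ L := by
    rw [hLd]
    exact Real.log_le_log hur (by exact_mod_cast huN')
  have hL0L : L0 ≤ L := le_trans hlogu hluL
  obtain ⟨ha1, ha2, ha3⟩ := hL0 L hL0L
  rw [← hLd] at hA2 hne
  have hL1 : 1 ≤ L := le_trans hL01 hL0L
  obtain ⟨a, had⟩ : ∃ a, a = f i * A := ⟨_, rfl⟩
  have hOK : MulOK w e a := by rw [had]; exact mul_f w e A f hA hf i
  rw [← had] at hc ⊢
  have haexp : (a : ℝ) ≤ Real.exp (L ^ (1 / 2500 : ℝ)) := by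
    refine le_trans ?_ ha1
    rw [had, Nat.cast_mul]
    have h1 : (f i : ℝ) ≤ L := by
      have : (f i : ℝ) ≤ w := by exact_mod_cast hf.le i
      linarith
    exact mul_le_mul h1 hA2 (Nat.cast_nonneg _) (by linarith)
  have h2aN : 2 * a ≤ N := by
    have h1 : (2 : ℝ) * a ≤ N := by
      have h2 : Real.exp L = N := by rw [hLd, Real.exp_log hNr]
      linarith
    exact_mod_cast h1
  have ha2' : 2 ≤ a := by
    by_cases he : e = 2
    · have h3 : 3 ∣ a := (hOK.small 3 Nat.prime_three).2 ⟨by omega, by omega⟩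
      have := Nat.le_of_dvd hOK.pos h3
      omega
    · have h3 : 2 ∣ a := (hOK.small 2 Nat.prime_two).2 ⟨by omega, fun h => he h.symm⟩
      exact Nat.le_of_dvd hOK.pos h3
  have hea : ¬ e ∣ a := by
    rcases hOK.exc with h0 | h0
    · rw [h0]
      intro h
      have := Nat.eq_zero_of_zero_dvd h
      have := hOK.pos
      omega
    · intro h
      exact ((hOK.small e h0).1 h).2 rfl
  -- the constants of the set
  obtain ⟨Q, hQ⟩ : ∃ Q, Q = Qe w (u ^ Th) e := ⟨_, rfl⟩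
  have hZ := hC J w (u ^ Th) e hw12 (by
    have h1 : (w : ℝ) ≤ u := by
      have := Real.log_le_sub_one_of_pos hur
      linarith
    have h2 : w ≤ u := by exact_mod_cast h1
    exact le_trans h2 (Nat.le_self_pow (by omega) u))
  have hQmem : ∀ p ∈ Q, p.Prime ∧ w < p ∧ p ≤ u ^ Th ∧ p ≠ e := by
    intro p hp
    rw [hQ, mem_Qe] at hp
    exact hp
  have heQ : e ∉ Q := fun h => (hQmem e h).2.2.2 rfl
  have hQ12 : ∀ p ∈ Q, 12 ≤ p := by
    intro p hp
    have := (hQmem p hp).2.1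
    omega
  rw [← hQ] at hZ
  revert c
  rw [← hQ]
  intro c hc
  obtain ⟨Z, hZd⟩ : ∃ Z : ℝ, Z = ∏ p : {p // p ∈ Q}, (1 + KK J * xx (qr Q) p) := ⟨_, rfl⟩
  rw [← hZd] at hZ
  have hq12 : ∀ p, (12 : ℝ) ≤ qr Q p := by
    intro p
    unfold qr
    exact_mod_cast hQ12 p.1 p.2
  have hv1 : ∀ p, 1 ≤ vr Q p := by
    intro p
    unfold vr
    exact (hQmem p.1 p.2).1.one_lt.le
  have hZ0 : 0 ≤ Z := by
    rw [hZd]
    apply prod_nonneg
    intro p _
    have := lb_one_le_fac (J := J) (qr Q) hq12 p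
    linarith
  have hZL : Z ≤ (C * L) ^ K := by
    refine le_trans hZ ?_
    rw [hJ]
    have hlR : Real.log ((u ^ Th : ℕ) : ℝ) = Th * Real.log u := by
      rw [Nat.cast_pow, Real.log_pow]
    rw [hlR]
    have hlu0 : 0 ≤ Real.log u := by linarith
    have hw1 := wD_one w
    apply pow_le_pow_left₀
    · positivity
    · rw [div_le_iff₀ (by linarith)]
      have h1 : C * (Th * Real.log u) ≤ C * L := mul_le_mul_of_nonneg_left hLTh (by linarith)
      have h2 : C * L ≤ C * L * wD w := le_mul_of_one_le_right (by positivity) hw1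
      linarith
  have hu2 : 2 ≤ u := by omega
  have hlb : ∀ d : {p // p ∈ Q} → Option J, |lam (qr Q) (yM Q ℓ u Th) d| ≤
      if nrm (vr Q) (supp d) ≤ u ^ Th then 2 ^ (supp d).card * Z else 0 := by
    intro d
    rw [hZd]
    exact lam_bd (qr Q) (vr Q) hq12 hv1 (u ^ Th) (yM Q ℓ u Th) (fun r => by
      have h := yM_bd Q hQ12 ℓ u Th hu2 r
      rw [abs_of_nonneg h.1]
      exact h.2.1) (fun r => (yM_bd Q hQ12 ℓ u Th hu2 r).2.2) d
  -- the family
  have hX : ∀ X : ℕ, N ≤ X → X ≤ 2 * a * N →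
      ∑ d ∈ univ.filter (fun d : {p // p ∈ Q} → Option J => nrm (vr Q) (supp d) ≤ u ^ Th),
        ∑ d' ∈ univ.filter (fun d' : {p // p ∈ Q} → Option J => nrm (vr Q) (supp d') ≤ u ^ Th),
          (2 : ℝ) ^ (supp d).card * 2 ^ (supp d').card *
            |Pool.BV.Et X (a * nrm (vr Q) (supp (join d d'))) (c d d')| ≤ 2 * N / L ^ (2 * K + 1) := by
    intro X hX1 hX2
    have hXr : (N : ℝ) ≤ X := by exact_mod_cast hX1
    have hXr2 : (X : ℝ) ≤ 2 * a * N := by exact_mod_cast hX2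
    have hlX : L ≤ Real.log X := by
      rw [hLd]
      exact Real.log_le_log hNr hXr
    have hXN2 : X ≤ N ^ 2 := by
      refine le_trans hX2 ?_
      rw [pow_two]
      exact Nat.mul_le_mul_right N h2aN
    have h := hfam J hJ X (by omega) Q a e (u ^ Th) (fun p hp => (hQmem p hp).1) heQ hOK.exc hea hOK.pos
      (le_trans haexp (Real.exp_le_exp.2 (Real.rpow_le_rpow (by linarith) hlX (by norm_num))))
      (hN0 N (by omega) e (by rw [← hLd]; exact hne) X hX1 hXN2) (by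
        have h1 : ((u ^ Th : ℕ) : ℝ) ^ 2 = ((u : ℝ) ^ (8 * Th)) ^ (1 / 4 : ℝ) := by
          rw [Nat.cast_pow, ← Real.rpow_natCast ((u : ℝ) ^ Th) 2, ← Real.rpow_natCast (u : ℝ) Th, ← Real.rpow_natCast (u : ℝ) (8 * Th),
            ← Real.rpow_mul hur.le, ← Real.rpow_mul hur.le]
          congr 1
          push_cast
          ring
        rw [h1]
        apply Real.rpow_le_rpow (by positivity) _ (by norm_num)
        refine le_trans ?_ hXr
        have h2 : u ^ (8 * Th) ≤ N := le_trans (Nat.pow_le_pow_right (by omega) (by omega)) hN1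
        exact_mod_cast h2) c hc
    refine le_trans h ?_
    have ha0 : (0 : ℝ) < a := by exact_mod_cast hOK.pos
    have hLp : 0 < L ^ (2 * K + 1) := by positivity
    have h5 : L ^ (2 * K + 1) ≤ Real.log X ^ (2 * K + 1) := pow_le_pow_left₀ (by linarith) hlX _
    have hlX0 : 0 < Real.log X := by linarith
    rw [div_le_div_iff₀ (by positivity) hLp]
    calc (X : ℝ) * L ^ (2 * K + 1) ≤ (2 * a * N) * Real.log X ^ (2 * K + 1) := mul_le_mul hXr2 h5 hLp.le (by positivity)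
      _ = 2 * N * (a * Real.log X ^ (2 * K + 1)) := by ring
  have hN2' : 2 ≤ N := by omega
  have hmain := pe_abs (fun d : {p // p ∈ Q} → Option J => nrm (vr Q) (supp d) ≤ u ^ Th) (lam (qr Q) (yM Q ℓ u Th))
    (fun d => (2 : ℝ) ^ (supp d).card) Z hZ0 (fun d => by positivity) hlb
    (fun d d' => Pool.BV.Et (2 * a * N - 2) (a * nrm (vr Q) (supp (join d d'))) (c d d'))
    (fun d d' => Pool.BV.Et (a * N - 2) (a * nrm (vr Q) (supp (join d d'))) (c d d'))
  refine le_trans hmain ?_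
  have haN : 2 * N ≤ a * N := Nat.mul_le_mul_right N ha2'
  have h1 := hX (2 * a * N - 2) (by
    have : 2 * a * N = 2 * (a * N) := by ring
    omega) (Nat.sub_le _ _)
  have h2 := hX (a * N - 2) (by omega) (by
    have : 2 * a * N = 2 * (a * N) := by ring
    omega)
  have h3 : Z ^ 2 ≤ C ^ (2 * K) * L ^ (2 * K) := by
    have h4 := pow_le_pow_left₀ hZ0 hZL 2
    refine le_trans h4 (le_of_eq ?_)
    rw [← pow_mul, mul_pow, mul_comm K 2]
  have hfin : Z ^ 2 * (2 * N / L ^ (2 * K + 1) + 2 * N / L ^ (2 * K + 1)) ≤ N := by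
    have hLp : 0 < L ^ (2 * K + 1) := by positivity
    have h5 : Z ^ 2 * (2 * N / L ^ (2 * K + 1) + 2 * N / L ^ (2 * K + 1)) ≤ C ^ (2 * K) * L ^ (2 * K) * (2 * N / L ^ (2 * K + 1) + 2 * N / L ^ (2 * K + 1)) :=
      mul_le_mul_of_nonneg_right h3 (by positivity)
    refine le_trans h5 ?_
    have h6 : C ^ (2 * K) * L ^ (2 * K) * (2 * N / L ^ (2 * K + 1) + 2 * N / L ^ (2 * K + 1)) = (4 * C ^ (2 * K)) / L * N := by
      rw [pow_succ]
      field_simp
      ring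
    rw [h6]
    have h7 : 4 * C ^ (2 * K) / L ≤ 1 := by
      rw [div_le_one (by linarith)]
      exact ha3
    calc 4 * C ^ (2 * K) / L * N ≤ 1 * N := mul_le_mul_of_nonneg_right h7 hNr.le
      _ = N := one_mul _
  exact le_trans (mul_le_mul_of_nonneg_left (add_le_add h1 h2) (sq_nonneg Z)) hfin

end Pool.CP
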