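import Pool.Agent.Lib.MP_c77da8_nt.CP.TrP
import Pool.Agent.Lib.MP_c77da8_nt.CP.PrimeE
import Pool.Agent.Lib.MP_c77da8_nt.CP.Model

/-!
# CP-PrimeN: the sum of the weight over the primes

Notation: `Q = Qe w (u^Th) e`, `u^(10 Th) ≤ N < (u+1)^(10 Th)`, `a j = f j * A`, `L = log N`.
PROOF of `prime_N`.  `tr_primeq` (`R = u^Th`, `y = yM ..`, `forms_ok`): the sum with the weights `log` is at least `(a i N/φ(a i)) EP - err`, `err ≤ N` (`prime_err`; `Th ≥ 32`).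
`a i/φ(a i) ≥ wD w/2` (`totA`, `mul_f`), `model`: `EP ≥ (1/2) S1² S2^(K-1)`, `S1 ≥ ℓ log u/(4 wD)`, `S2 ≤ 2 CV log u/wD`: the main term is at least `N ℓ² log u/(128 CV) · S2^K`.
`err ≤ N` is at most half of it for large `u` (`S2 ≥ 1`: first part of `model` and `wD w ≤ C log w`, `w ≤ log u`).
All the weights `log (a i n - 1) ≤ log (2 a i N) ≤ 2 L ≤ 20 Th log (u+1) ≤ 22 Th log u`.  So the sum without `log` is at least
`(1/(22 Th log u)) (N ℓ² log u/(256 CV)) S2^K = N ℓ²/(5632 CV Th) S2^K ≥ ℓ N/(400000 CV² K) S2^K` (`Th = 32 CV (ℓ+1) K`, `ℓ/(ℓ+1) ≥ 1/2`).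
-/

set_option autoImplicit false

namespace Pool.CP

open Finset Pool.DL

/-- the lower bound of the main term -/
private theorem pn_main (K : ℕ) (hK : 1 ≤ K) (CV ℓ lu W S1 S2 N R E : ℝ) (hCV : 1 ≤ CV) (hℓ : 1 ≤ ℓ) (hlu : 256 * CV ≤ lu)
    (hW : 1 ≤ W) (hW2 : 2 * W ≤ lu) (hN : 0 ≤ N)
    (h1 : lu / (2 * W) ≤ S2) (h2 : S2 ≤ 2 * CV * lu / W) (h3 : ℓ * lu / (4 * W) ≤ S1)
    (hE : 1 / 2 * S1 ^ 2 * S2 ^ (K - 1) ≤ E) (hR : W / 2 ≤ R) :
    N * (ℓ ^ 2 * lu / (256 * CV)) * S2 ^ K ≤ R * N * E - N := by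
  have hCV0 : 0 < CV := by linarith
  have hlu0 : 0 < lu := by nlinarith
  have hW0 : 0 < W := by linarith
  have hS2 : 1 ≤ S2 := by
    refine le_trans ?_ h1
    rw [le_div_iff₀ (by positivity)]
    linarith
  have hS20 : 0 < S2 := by linarith
  have hS1 : 0 < ℓ * lu / (4 * W) := by positivity
  have hS1' : (ℓ * lu / (4 * W)) ^ 2 ≤ S1 ^ 2 := pow_le_pow_left₀ hS1.le h3 2
  have hpow : S2 ^ K = S2 ^ (K - 1) * S2 := by
    rw [← pow_succ]
    congr 1
    omega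
  have hS2W : S2 * W ≤ 2 * CV * lu := by
    rw [le_div_iff₀ hW0] at h2
    exact h2
  have hP : 1 ≤ S2 ^ K := one_le_pow₀ hS2
  have hP1 : 0 < S2 ^ (K - 1) := pow_pos hS20 _
  -- the main term
  have hA : (ℓ ^ 2 * lu / (128 * CV)) * S2 ^ K ≤ W / 2 * (1 / 2 * S1 ^ 2 * S2 ^ (K - 1)) := by
    have e1 : W / 2 * (1 / 2 * (ℓ * lu / (4 * W)) ^ 2 * S2 ^ (K - 1)) ≤ W / 2 * (1 / 2 * S1 ^ 2 * S2 ^ (K - 1)) := by
      gcongr
    refine le_trans ?_ e1
    rw [hpow]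
    have e2 : W / 2 * (1 / 2 * (ℓ * lu / (4 * W)) ^ 2 * S2 ^ (K - 1)) = ℓ ^ 2 * lu / (128 * CV) * S2 ^ (K - 1) * (2 * CV * lu / W) := by
      field_simp
      ring
    rw [e2, ← mul_assoc]
    gcongr
  have hB : W / 2 * (1 / 2 * S1 ^ 2 * S2 ^ (K - 1)) ≤ R * E := by
    gcongr
    · exact le_trans (by positivity) hR
  have hC : (1 : ℝ) ≤ (ℓ ^ 2 * lu / (256 * CV)) * S2 ^ K := by
    have e3 : (1 : ℝ) ≤ ℓ ^ 2 * lu / (256 * CV) := by
      rw [le_div_iff₀ (by positivity)]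
      have : (1 : ℝ) ≤ ℓ ^ 2 := one_le_pow₀ hℓ
      nlinarith
    calc (1 : ℝ) = 1 * 1 := by ring
      _ ≤ _ := by gcongr
  have hD : N * ((ℓ ^ 2 * lu / (128 * CV)) * S2 ^ K) ≤ N * (R * E) :=
    mul_le_mul_of_nonneg_left (hA.trans hB) hN
  have hF : N * 1 ≤ N * ((ℓ ^ 2 * lu / (256 * CV)) * S2 ^ K) := by gcongr
  have e4 : (ℓ ^ 2 * lu / (128 * CV)) * S2 ^ K = 2 * ((ℓ ^ 2 * lu / (256 * CV)) * S2 ^ K) := by
    field_simp
    ring
  rw [e4] at hD
  nlinarith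

/-- the last step -/
private theorem pn_fin (CV ℓ K Th lu N P T : ℝ) (hCV : 1 ≤ CV) (hℓ : 1 ≤ ℓ) (hK : 1 ≤ K) (hlu : 0 < lu) (hN : 0 ≤ N) (hP : 0 ≤ P)
    (hTh : Th = 32 * CV * (ℓ + 1) * K) (h : N * (ℓ ^ 2 * lu / (256 * CV)) * P ≤ 22 * Th * lu * T) :
    ℓ / (400000 * CV ^ 2 * K) * N * P ≤ T := by
  have hCV0 : 0 < CV := by linarith
  have hK0 : 0 < K := by linarith
  have hℓ0 : 0 < ℓ := by linarith
  have hTh0 : 0 < Th := by rw [hTh]; positivity
  have h1 : N * (ℓ ^ 2 * lu / (256 * CV)) * P / (22 * Th * lu) ≤ T := by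
    rw [div_le_iff₀ (by positivity)]
    linarith
  refine le_trans ?_ h1
  rw [le_div_iff₀ (by positivity), hTh]
  have e1 : ℓ / (400000 * CV ^ 2 * K) * N * P * (22 * (32 * CV * (ℓ + 1) * K) * lu) =
      (704 / 400000 * (ℓ * (ℓ + 1)) / CV) * (N * P * lu) := by
    field_simp
    ring
  have e2 : N * (ℓ ^ 2 * lu / (256 * CV)) * P = (ℓ ^ 2 / 256 / CV) * (N * P * lu) := by
    field_simp
  rw [e1, e2]
  have h3 : 0 ≤ N * P * lu := by positivity
  gcongr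
  nlinarith

/-- the size of the weights -/
private theorem pn_wt (u w N A fi n Th : ℕ) (hTh : 32 ≤ Th) (hlu : 256 ≤ Real.log u) (hw : (w : ℝ) ≤ Real.log u) (hN : u ^ (10 * Th) ≤ N)
    (hN2 : N < (u + 1) ^ (10 * Th)) (hA1 : 1 ≤ A) (hA : (A : ℝ) ≤ Real.exp (Real.log N ^ (1 / 3000 : ℝ))) (hf1 : 1 ≤ fi) (hf : fi ≤ w)
    (hn : n < 2 * N) : Real.log ((fi * A * n - 1 : ℕ) : ℝ) ≤ 22 * Th * Real.log u := by
  have hu0 : 0 < u := by
    rcases Nat.eq_zero_or_pos u with h | h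
    · rw [h] at hlu; norm_num at hlu
    · exact h
  have hu1 : (1 : ℝ) ≤ u := by exact_mod_cast hu0
  have hTh' : (32 : ℝ) ≤ Th := by exact_mod_cast hTh
  set lu := Real.log u with hlud
  have hN0 : 0 < N := lt_of_lt_of_le (pow_pos hu0 _) hN
  have hNr : (0 : ℝ) < N := by exact_mod_cast hN0
  have hL1 : 10 * Th * lu ≤ Real.log N := by
    have h1 : Real.log ((u : ℝ) ^ (10 * Th)) ≤ Real.log N := by
      apply Real.log_le_log (by positivity)
      exact_mod_cast hN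
    rw [Real.log_pow] at h1
    push_cast at h1
    exact h1
  have hlog2 : Real.log 2 ≤ 1 := by
    have := Real.log_two_lt_d9
    linarith
  have hL2 : Real.log N ≤ 11 * Th * lu := by
    have h1 : Real.log N ≤ Real.log (((u : ℝ) + 1) ^ (10 * Th)) := by
      apply Real.log_le_log hNr
      exact_mod_cast hN2.le
    rw [Real.log_pow] at h1
    push_cast at h1
    have h2 : Real.log ((u : ℝ) + 1) ≤ Real.log 2 + lu := by
      rw [hlud, ← Real.log_mul (by norm_num) (by positivity)]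
      apply Real.log_le_log (by positivity)
      linarith
    have h3 : (10 : ℝ) * Th * Real.log ((u : ℝ) + 1) ≤ 10 * Th * (Real.log 2 + lu) := by gcongr
    nlinarith
  set L := Real.log N with hLd
  have hL3 : (81920 : ℝ) ≤ L := by
    have : (10 : ℝ) * 32 * 256 ≤ 10 * Th * lu := by gcongr
    linarith
  have hlogA : Real.log A ≤ L / 4 := by
    have hA0 : (0 : ℝ) < A := by exact_mod_cast hA1
    have h1 : Real.log A ≤ L ^ (1 / 3000 : ℝ) := by
      have := Real.log_le_log hA0 hA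
      rwa [Real.log_exp] at this
    have h2 : L ^ (1 / 3000 : ℝ) ≤ L ^ (1 / 2 : ℝ) := Real.rpow_le_rpow_of_exponent_le (by linarith) (by norm_num)
    rw [← Real.sqrt_eq_rpow] at h2
    have h3 : Real.sqrt L ≤ L / 4 := by
      rw [Real.sqrt_le_left (by linarith)]
      nlinarith
    linarith
  have hlogf : Real.log fi ≤ L / 4 := by
    have h0 : (1 : ℝ) ≤ fi := by exact_mod_cast hf1
    have h1 : Real.log fi ≤ fi := (Real.log_le_sub_one_of_pos (by linarith)).trans (by linarith)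
    have h2 : (fi : ℝ) ≤ w := by exact_mod_cast hf
    have h3 : lu ≤ L / 4 := by
      have : (10 : ℝ) * 32 * lu ≤ 10 * Th * lu := by gcongr
      linarith
    linarith
  have h1 : ((fi * A * n - 1 : ℕ) : ℝ) ≤ fi * A * (2 * N) := by
    have : fi * A * n - 1 ≤ fi * A * (2 * N) := (Nat.sub_le _ _).trans (Nat.mul_le_mul_left _ hn.le)
    exact_mod_cast this
  rcases Nat.eq_zero_or_pos (fi * A * n - 1) with h0 | h0
  · rw [h0]
    norm_num
    positivity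
  · have hA0 : (0 : ℝ) < A := by exact_mod_cast hA1
    have hf0 : (0 : ℝ) < fi := by exact_mod_cast hf1
    have h2 : Real.log ((fi * A * n - 1 : ℕ) : ℝ) ≤ Real.log (fi * A * (2 * N)) := by
      apply Real.log_le_log _ h1
      exact_mod_cast h0
    rw [Real.log_mul (by positivity) (by positivity), Real.log_mul (by positivity) (by positivity), Real.log_mul (by norm_num) (by positivity)] at h2
    have h3 : Real.log ((fi * A * n - 1 : ℕ) : ℝ) ≤ 2 * L := by linarith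
    linarith

theorem prime_N (CV : ℕ) (hCV1 : 1 ≤ CV)
    (hCV : ∀ w R e x : ℕ, 12 ≤ w → w ≤ x → x ≤ R → VV (vr (Qe w R e)) (qr (Qe w R e)) x ∅ ≤ CV * Real.log x / wD w)
    (K ℓ Th : ℕ) (hℓ : 1 ≤ ℓ) (hK : 2 ^ ℓ ≤ K) (hTh : Th = 32 * CV * (ℓ + 1) * K) : ∃ u0 : ℕ, ∀ u ≥ u0,
    ∀ (J : Type) [Fintype J] [DecidableEq J], Fintype.card J = K → ∀ (w e N A : ℕ) (f : J → ℕ),
      200 * K ^ 2 + 12 ≤ w → (w : ℝ) ≤ Real.log u → u ^ (10 * Th) ≤ N → N < (u + 1) ^ (10 * Th) →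
      MulOK w e A → FOK f w e → (A : ℝ) ≤ Real.exp (Real.log N ^ (1 / 3000 : ℝ)) → NoExcN (Real.log N) e →
      ∀ i : J, (ℓ : ℝ) / (400000 * CV ^ 2 * K) * N * S2N (Qe w (u ^ Th) e) ℓ u ^ K ≤
        ∑ n ∈ (Ico N (2 * N)).filter (fun n => (f i * A * n - 1).Prime),
          LN (fun j => f j * A) (Qe w (u ^ Th) e) ℓ u Th n := by
  have hK1 : 1 ≤ K := le_trans Nat.one_le_two_pow hK
  have hTh32 : 32 ≤ Th := by
    rw [hTh]
    calc 32 = 32 * 1 * 1 * 1 := by norm_num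
      _ ≤ 32 * CV * (ℓ + 1) * K := by gcongr; omega
  obtain ⟨u1, hu1⟩ := prime_err K ℓ Th hTh32
  obtain ⟨C, hC0, hC⟩ := wD_le
  obtain ⟨u2, hu2⟩ := Filter.eventually_atTop.mp ((Real.tendsto_log_atTop.comp tendsto_natCast_atTop_atTop).eventually_ge_atTop
    (max (256 * CV : ℝ) ((4 * C) ^ 2)))
  refine ⟨max u1 (max u2 2), ?_⟩
  intro u hu J _ _ hJ w e N A f hw hwu hN hN2 hA hf hAe hexc i
  have hua : u1 ≤ u := le_trans (le_max_left _ _) hu
  have hub : u2 ≤ u := le_trans (le_trans (le_max_left _ _) (le_max_right _ _)) hu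
  have huc : 2 ≤ u := le_trans (le_trans (le_max_right _ _) (le_max_right _ _)) hu
  have hlu := hu2 u hub
  simp only [Function.comp_apply] at hlu
  have hlu1 : 256 * (CV : ℝ) ≤ Real.log u := le_trans (le_max_left _ _) hlu
  have hlu2 : (4 * C) ^ 2 ≤ Real.log u := le_trans (le_max_right _ _) hlu
  have hCVr : (1 : ℝ) ≤ CV := by exact_mod_cast hCV1
  have hlu3 : (256 : ℝ) ≤ Real.log u := by linarith
  have hw12 : 12 ≤ w := by omega
  have hwr : (12 : ℝ) ≤ w := by exact_mod_cast hw12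
  have hwleu : w ≤ u := by
    have h1 : (w : ℝ) ≤ u := by
      have := Real.log_le_sub_one_of_pos (show (0 : ℝ) < u by positivity)
      linarith
    exact_mod_cast h1
  -- `2 wD w ≤ log u`
  have hW2 : 2 * wD w ≤ Real.log u := by
    have h1 := hC w (by omega)
    have h2 : Real.log w ≤ Real.log (Real.log u) := Real.log_le_log (by linarith) hwu
    have h3 : Real.log (Real.log u) ≤ 2 * Real.sqrt (Real.log u) := by
      have h4 : Real.log (Real.sqrt (Real.log u)) ≤ Real.sqrt (Real.log u) :=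
        (Real.log_le_sub_one_of_pos (Real.sqrt_pos.mpr (by linarith))).trans (by linarith)
      rw [Real.log_sqrt (by linarith)] at h4
      linarith
    have h5 : 4 * C ≤ Real.sqrt (Real.log u) := Real.le_sqrt_of_sq_le hlu2
    have h6 : Real.sqrt (Real.log u) * Real.sqrt (Real.log u) = Real.log u := Real.mul_self_sqrt (by linarith)
    have h7 : 0 ≤ Real.sqrt (Real.log u) := Real.sqrt_nonneg _
    calc 2 * wD w ≤ 2 * (C * Real.log w) := by linarith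
      _ ≤ 2 * (C * (2 * Real.sqrt (Real.log u))) := by gcongr; exact h2.trans h3
      _ = (4 * C) * Real.sqrt (Real.log u) := by ring
      _ ≤ Real.sqrt (Real.log u) * Real.sqrt (Real.log u) := by gcongr
      _ = Real.log u := h6
  have hTN : u ^ Th + 3 ≤ N := by
    refine le_trans ?_ hN
    have h1 : u ^ (10 * Th) = (u ^ Th) ^ 10 := by rw [← pow_mul]; ring_nf
    have h2 : 3 ≤ u ^ Th := by
      calc 3 ≤ 2 ^ 32 := by norm_num
        _ ≤ u ^ 32 := Nat.pow_le_pow_left huc 32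
        _ ≤ u ^ Th := Nat.pow_le_pow_right (by omega) hTh32
    rw [h1]
    calc u ^ Th + 3 ≤ u ^ Th * u ^ Th := by nlinarith
      _ = (u ^ Th) ^ 2 := by ring
      _ ≤ (u ^ Th) ^ 10 := Nat.pow_le_pow_right (by omega) (by norm_num)
  obtain ⟨c, hc1, hc2⟩ := tr_primeq (Qe w (u ^ Th) e) (fun j => f j * A) (forms_ok w (u ^ Th) e A hw12 f hA hf) i N (u ^ Th)
    (fun p hp => ((mem_Qe _ _ _ _).mp hp).2.2.1) hTN
  have hc3 := hc2 (yM (Qe w (u ^ Th) e) ℓ u Th)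
  have herr := hu1 u hua J hJ w e N A f hw12 hwu hN hN2 hA hf hAe hexc i c hc1
  obtain ⟨m1, m2, m3, _, m5⟩ := model CV hCV1 hCV J ℓ w u e Th hℓ (by rw [hJ]; exact hK) (by rw [hJ]; exact hTh)
    (by rw [hJ]; exact hw) hwleu
  have m5' := m5 i
  rw [hJ] at m5'
  have htot := (totA w e (f i * A) (mul_f w e A f hA hf i)).1
  have hmain := pn_main K hK1 CV ℓ (Real.log u) (wD w) _ _ (N : ℝ) _ _ hCVr (by exact_mod_cast hℓ) hlu1 (wD_one w) hW2
    (Nat.cast_nonneg _) m1 m2 m3 m5' htot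
  have hS2 : 0 ≤ S2N (Qe w (u ^ Th) e) ℓ u := by
    refine le_trans ?_ m1
    have := wD_one w
    positivity
  refine pn_fin CV ℓ K Th (Real.log u) N _ _ hCVr (by exact_mod_cast hℓ) (by exact_mod_cast hK1) (by linarith) (Nat.cast_nonneg _)
    (pow_nonneg hS2 _) (by rw [hTh]; push_cast; ring) ?_
  refine hmain.trans ?_
  have hlow := (abs_le.mp (hc3.trans herr)).1
  have hup : ∑ n ∈ (Ico N (2 * N)).filter (fun n => ((fun j => f j * A) i * n - 1).Prime),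
      Real.log (((fun j => f j * A) i * n - 1 : ℕ) : ℝ) *
        Lam (qr (Qe w (u ^ Th) e)) (yM (Qe w (u ^ Th) e) ℓ u Th) (colq (fun j => f j * A) (Qe w (u ^ Th) e) n) ^ 2 ≤
      22 * Th * Real.log u * ∑ n ∈ (Ico N (2 * N)).filter (fun n => (f i * A * n - 1).Prime),
          LN (fun j => f j * A) (Qe w (u ^ Th) e) ℓ u Th n := by
    rw [mul_sum]
    apply sum_le_sum
    intro n hn
    rw [mem_filter, mem_Ico] at hn
    unfold LN
    gcongr
    exact pn_wt u w N A (f i) n Th hTh32 hlu3 hwu hN hN2 hA.pos hAe (hf.pos i) (hf.le i) hn.1.2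
  refine le_trans ?_ hup
  have e1 : (((f i * A : ℕ) : ℝ) / (Nat.totient (f i * A) : ℝ)) * N *
      EP i (qr (Qe w (u ^ Th) e)) (fun ξ : {p // p ∈ Qe w (u ^ Th) e} → Option J =>
        Lam (qr (Qe w (u ^ Th) e)) (yM (Qe w (u ^ Th) e) ℓ u Th) ξ ^ 2) =
      (((f i * A : ℕ) : ℝ) * N) / (Nat.totient (f i * A) : ℝ) *
      EP i (qr (Qe w (u ^ Th) e)) (fun ξ : {p // p ∈ Qe w (u ^ Th) e} → Option J =>
        Lam (qr (Qe w (u ^ Th) e)) (yM (Qe w (u ^ Th) e) ℓ u Th) ξ ^ 2) := by ring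
  rw [e1]
  linarith

end Pool.CP
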