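import Pool.Agent.Lib.MP_c77da8_nt.CP.IntN
import Pool.Agent.Lib.MP_c77da8_nt.CP.IntR
import Pool.Agent.Lib.MP_c77da8_nt.CP.PrimeN
import Pool.Agent.Lib.MP_c77da8_nt.CP.LowPt

/-!
# CP-LowMain: a lower bound of the right order for the number of `n` with all forms rough and at least `T` of them prime

PROOF.  `CV` from `V_upe`, `C1 = 1600000 CV²`, `ℓ = C1 T` (`≥ 1`), `Th = 32 CV (ℓ+1) K`, `u = ⌊N^(1/(10 Th))⌋` (so `u^(10 Th) ≤ N < (u+1)^(10 Th)`), `Q = Qe w (u^Th) e`, `S = S2N Q ℓ u`,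
`a j = f j * A` (`forms_ok`), `#(n) = #{j : a j n - 1 prime}`.
`∑_n LN · #(n) = ∑_i (prime_N) ≥ (ℓ/(400000 CV²)) N S^K ≥ 4 T N S^K`; `∑_n LN ≤ (6/5) N S^K` (`int_N`); `# - (T - 1) ≤ K [# ≥ T]`, so
`∑_(# ≥ T) LN ≥ (1/K) (4 T - (6/5)(T-1)) N S^K ≥ (2/K) N S^K`.  Let `v = ⌊N^(1/s)⌋`, `s` large (and `w ≥ w0`, `u ≥ u0`), such that the factor in `rough_N` is `≤ 1/K`
(`log v/log u ≤ 11 Th/s`).  So the sum of `LN` over `G = {# ≥ T, no p0 ≤ v is coloured}` is at least `(1/K) N S^K`.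
For `n ∈ G`: `LN ≤ C (log N/wD)^(2K)` (`LN_pt`; `N < (v+1)^s`).  `S ≥ log u/(2 wD) ≥ log N/(22 Th wD)` (`model`).  So
`#G ≥ (1/K) N S^K/(C (log N/wD)^(2K)) ≥ c N (wD/log N)^K ≥ c N ((A/φ(A))/log N)^K` (`totA`).
The elements of `G` are in the set of the statement: `R ≤ v` as `R^s ≤ N`; a prime `p ∈ Qe w R e` which divides `a j n - 1` is in `Q` (`p ≤ R ≤ v ≤ u^Th`) and coloured (`colq_eq`).
`w ≤ (log log N)² ≤ log u` for large `N`.
-/

set_option autoImplicit false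

namespace Pool.CP

open Finset Pool.DL

private theorem lowMain_root (k N : ℕ) (hk : 1 ≤ k) : ∃ u : ℕ, u ^ k ≤ N ∧ N < (u + 1) ^ k := by
  refine ⟨Nat.findGreatest (fun u => u ^ k ≤ N) N, ?_, ?_⟩
  · have h0 : (fun u => u ^ k ≤ N) 0 := by
      show 0 ^ k ≤ N
      rw [zero_pow (by omega)]
      exact Nat.zero_le _
    exact Nat.findGreatest_spec (P := fun u => u ^ k ≤ N) (Nat.zero_le N) h0
  · by_contra hc
    rw [not_lt] at hc
    have h1 : Nat.findGreatest (fun u => u ^ k ≤ N) N + 1 ≤ N :=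
      le_trans (Nat.le_self_pow (by omega) _) hc
    exact Nat.findGreatest_is_greatest (P := fun u => u ^ k ≤ N) (Nat.lt_succ_self _) h1 hc

private theorem lowMain_large (B : ℝ) (hB : 0 < B) (M : ℕ) : ∃ N0 : ℕ, ∀ N ≥ N0,
    4 ≤ Real.log (N : ℝ) ∧ Real.log (Real.log (N : ℝ)) ^ 2 ≤ Real.log (N : ℝ) / B ∧ M ≤ N ∧ 1 ≤ N := by
  have hT : Filter.Tendsto (fun N : ℕ => Real.log (N : ℝ)) Filter.atTop Filter.atTop :=
    Real.tendsto_log_atTop.comp tendsto_natCast_atTop_atTop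
  have h1 := (Real.isLittleO_pow_log_id_atTop (n := 2)).def (c := 1 / B) (by positivity)
  have h2 := hT.eventually h1
  have h3 := hT.eventually_ge_atTop 4
  have h4 : ∀ᶠ N : ℕ in Filter.atTop, M ≤ N := Filter.eventually_ge_atTop _
  have h5 : ∀ᶠ N : ℕ in Filter.atTop, 1 ≤ N := Filter.eventually_ge_atTop _
  obtain ⟨N0, h⟩ := Filter.eventually_atTop.1 (h2.and (h3.and (h4.and h5)))
  refine ⟨N0, fun N hN => ?_⟩
  obtain ⟨g2, g3, g4, g5⟩ := h N hN
  refine ⟨g3, ?_, g4, g5⟩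
  rw [Real.norm_eq_abs, Real.norm_eq_abs, id] at g2
  have g6 := (le_abs_self _).trans g2
  rw [abs_of_nonneg (by linarith)] at g6
  calc _ ≤ _ := g6
    _ = _ := by ring

open Classical in
/-- the moment argument -/
private theorem lowMain_mom {J : Type} [Fintype J] (Ns : Finset ℕ) (L : ℕ → ℝ) (hL : ∀ n, 0 ≤ L n)
    (pr : J → ℕ → Prop) (bad : ℕ → Prop) (K T : ℕ) (hJ : Fintype.card J = K) (hK : 1 ≤ K)
    (hT : 1 ≤ T) (M : ℝ) (hM : 0 ≤ M) (h1 : ∑ n ∈ Ns, L n ≤ 6 / 5 * M)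
    (h2 : ∀ i : J, 4 * T / K * M ≤ ∑ n ∈ Ns.filter (fun n => pr i n), L n)
    (h3 : ∑ n ∈ Ns, (if bad n then L n else 0) ≤ 1 / K * M) :
    1 / K * M ≤ ∑ n ∈ Ns.filter (fun n => T ≤ (univ.filter fun j => pr j n).card ∧ ¬ bad n), L n := by
  have hK0 : (0 : ℝ) < K := by exact_mod_cast hK
  have hT1 : (1 : ℝ) ≤ T := by exact_mod_cast hT
  have e1 : ∑ i : J, ∑ n ∈ Ns.filter (fun n => pr i n), L n =
      ∑ n ∈ Ns, ((univ.filter fun j => pr j n).card : ℝ) * L n := by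
    simp only [sum_filter]
    rw [sum_comm]
    refine sum_congr rfl fun n _ => ?_
    rw [← sum_filter, sum_const, nsmul_eq_mul]
  have e2 : 4 * T * M ≤ ∑ i : J, ∑ n ∈ Ns.filter (fun n => pr i n), L n := by
    calc 4 * T * M = ∑ i : J, 4 * T / K * M := by
          rw [sum_const, card_univ, hJ, nsmul_eq_mul]
          field_simp
      _ ≤ _ := sum_le_sum fun i _ => h2 i
  have e3 : ∀ n ∈ Ns, ((univ.filter fun j => pr j n).card : ℝ) * L n ≤
      ((T : ℝ) - 1) * L n + K * (if T ≤ (univ.filter fun j => pr j n).card ∧ ¬ bad n then L n else 0) +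
        K * (if bad n then L n else 0) := by
    intro n _
    have hLn := hL n
    have hc : ((univ.filter fun j => pr j n).card : ℝ) ≤ K := by
      have : (univ.filter fun j => pr j n).card ≤ K := by
        rw [← hJ]
        exact card_le_univ _
      exact_mod_cast this
    by_cases hT2 : T ≤ (univ.filter fun j => pr j n).card
    · by_cases hb : bad n
      · rw [if_neg (fun h => h.2 hb), if_pos hb]
        nlinarith
      · rw [if_pos ⟨hT2, hb⟩, if_neg hb]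
        nlinarith
    · rw [if_neg (fun h => hT2 h.1)]
      have h5 : ((univ.filter fun j => pr j n).card : ℝ) ≤ (T : ℝ) - 1 := by
        have : (univ.filter fun j => pr j n).card + 1 ≤ T := by omega
        have h6 : ((univ.filter fun j => pr j n).card : ℝ) + 1 ≤ T := by exact_mod_cast this
        linarith
      have h7 : 0 ≤ (K : ℝ) * (if bad n then L n else 0) := by
        refine mul_nonneg hK0.le ?_
        split_ifs
        · exact hLn
        · exact le_rfl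
      nlinarith
  have e4 := sum_le_sum e3
  rw [sum_add_distrib, sum_add_distrib, ← mul_sum, ← mul_sum, ← mul_sum, ← sum_filter] at e4
  rw [e1] at e2
  have e5 := e2.trans e4
  have e6 : ((T : ℝ) - 1) * ∑ n ∈ Ns, L n ≤ ((T : ℝ) - 1) * (6 / 5 * M) :=
    mul_le_mul_of_nonneg_left h1 (by linarith)
  have e7 : (K : ℝ) * ∑ n ∈ Ns, (if bad n then L n else 0) ≤ K * (1 / K * M) :=
    mul_le_mul_of_nonneg_left h3 hK0.le
  have e8 : (K : ℝ) * (1 / K * M) = M := by
    field_simp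
  rw [e8] at e7
  have e9 : M ≤ (K : ℝ) *
      ∑ n ∈ Ns.filter (fun n => T ≤ (univ.filter fun j => pr j n).card ∧ ¬ bad n), L n := by
    nlinarith
  rw [one_div, inv_mul_le_iff₀ hK0]
  exact e9

private theorem lowMain_fin (K Th : ℕ) (hK : 1 ≤ K) (hTh : 1 ≤ Th) (C x W r S g N : ℝ) (hC : 0 < C)
    (hx : 0 < x) (hW : 0 < W) (hr0 : 0 ≤ r) (hr : r ≤ W) (hN : 0 ≤ N) (hS : x / (22 * Th * W) ≤ S)
    (hg : 1 / K * (N * S ^ K) ≤ g * (C * (x / W) ^ (2 * K))) :
    1 / (K * C * (22 * Th) ^ K) * N * (r / x) ^ K ≤ g := by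
  have hK0 : (0 : ℝ) < K := by exact_mod_cast hK
  have hT0 : (0 : ℝ) < Th := by exact_mod_cast hTh
  have hF : 0 < C * (x / W) ^ (2 * K) := by positivity
  rw [← mul_le_mul_iff_left₀ hF]
  refine le_trans ?_ hg
  have h1 : (r / x) ^ K ≤ (W / x) ^ K := by gcongr
  have h2 : (x / (22 * Th * W)) ^ K ≤ S ^ K := by gcongr
  have h3 : 1 / (K * C * (22 * Th) ^ K) * N * (r / x) ^ K * (C * (x / W) ^ (2 * K)) ≤
      1 / (K * C * (22 * Th) ^ K) * N * (W / x) ^ K * (C * (x / W) ^ (2 * K)) := by gcongr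
  have h4 : 1 / (K * C * (22 * Th) ^ K) * N * (W / x) ^ K * (C * (x / W) ^ (2 * K)) =
      1 / K * (N * (x / (22 * Th * W)) ^ K) := by
    rw [two_mul, pow_add]
    simp only [div_pow, mul_pow]
    field_simp
  rw [h4] at h3
  refine h3.trans ?_
  gcongr

theorem low_main : ∃ C1 : ℕ, 1 ≤ C1 ∧ ∀ T K : ℕ, 1 ≤ T → 2 ^ (C1 * T) ≤ K → ∃ (s w0 N0 : ℕ) (c : ℝ), 1 ≤ s ∧ 0 < c ∧
    ∀ (J : Type) [Fintype J] [DecidableEq J], Fintype.card J = K → ∀ w ≥ w0, ∀ N ≥ N0, ∀ (A e : ℕ) (f : J → ℕ),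
      MulOK w e A → FOK f w e → (w : ℝ) ≤ Real.log (Real.log N) ^ 2 →
      (A : ℝ) ≤ Real.exp (Real.log N ^ (1 / 3000 : ℝ)) → NoExcN (Real.log N) e → ∀ R : ℕ, R ^ s ≤ N →
      c * N * ((A : ℝ) / (Nat.totient A : ℝ) / Real.log N) ^ K ≤ ((open Classical in (Ico N (2 * N)).filter fun n =>
        (∀ j, ∀ p ∈ Qe w R e, ¬ p ∣ f j * A * n - 1) ∧
          T ≤ (univ.filter fun j => (f j * A * n - 1).Prime).card).card : ℝ) := by
  obtain ⟨CV, hCV1, hCV, -⟩ := V_upe
  refine ⟨1600000 * CV ^ 2, ?_, ?_⟩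
  · have : 1 ≤ CV ^ 2 := Nat.one_le_pow _ _ hCV1
    omega
  intro T K hT hTK
  have hCV0 : (0 : ℝ) < CV := by exact_mod_cast hCV1
  obtain ⟨ℓ, hℓ⟩ : ∃ ℓ, ℓ = 1600000 * CV ^ 2 * T := ⟨_, rfl⟩
  rw [← hℓ] at hTK
  have hℓ1 : 1 ≤ ℓ := by
    rw [hℓ]
    have h1 : 1 ≤ CV ^ 2 := Nat.one_le_pow _ _ hCV1
    exact Nat.mul_pos (Nat.mul_pos (by norm_num) h1) hT
  have hK1 : 1 ≤ K := le_trans (Nat.one_le_two_pow) hTK
  have hK0 : (0 : ℝ) < K := by exact_mod_cast hK1
  obtain ⟨Th, hTh⟩ : ∃ Th, Th = 32 * CV * (ℓ + 1) * K := ⟨_, rfl⟩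
  have hTh32 : 32 ≤ Th := by
    rw [hTh]
    have : 1 ≤ CV * (ℓ + 1) * K := Nat.mul_pos (Nat.mul_pos hCV1 (Nat.succ_pos _)) hK1
    calc 32 = 32 * 1 := rfl
      _ ≤ 32 * (CV * (ℓ + 1) * K) := Nat.mul_le_mul_left _ this
      _ = 32 * CV * (ℓ + 1) * K := by ring
  have hTh0 : (0 : ℝ) < Th := by
    have : 0 < Th := by omega
    exact_mod_cast this
  obtain ⟨u0a, hInt⟩ := int_N CV hCV1 hCV K ℓ Th hℓ1 hTK hTh
  obtain ⟨CR, u0b, hCR, hRough⟩ := rough_N CV hCV1 hCV K ℓ Th hℓ1 hTK hTh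
  obtain ⟨u0c, hPrime⟩ := prime_N CV hCV1 hCV K ℓ Th hℓ1 hTK hTh
  obtain ⟨s, hs⟩ : ∃ s : ℕ, 33 * CR * Th * K + 10 * Th ≤ (s : ℝ) := exists_nat_ge _
  obtain ⟨wc, hwc⟩ : ∃ wc : ℕ, 3 * CR * K ≤ (wc : ℝ) := exists_nat_ge _
  have hs10 : 10 * Th ≤ s := by
    have h1 : 0 ≤ 33 * CR * Th * K := by positivity
    have h2 : ((10 * Th : ℕ) : ℝ) ≤ s := by
      push_cast
      linarith
    exact_mod_cast h2
  have hs1 : 1 ≤ s := by omega
  have hs0 : (0 : ℝ) < s := by exact_mod_cast hs1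
  obtain ⟨C, hC, hPt⟩ := LN_pt K s
  obtain ⟨u1, hu1⟩ : ∃ u1, u1 = u0a + u0b + u0c + 3 * K + 10 := ⟨_, rfl⟩
  obtain ⟨N0, hN0⟩ := lowMain_large (11 * Th) (by positivity) (u1 ^ (10 * Th))
  refine ⟨s, 200 * K ^ 2 + 12 + wc, N0, 1 / (K * C * (22 * Th) ^ K), hs1, by positivity, ?_⟩
  intro J _ _ hJ w hw N hN A e f hA hf hwN hAN hexc R hR
  obtain ⟨hx4, hll, huN, hN1⟩ := hN0 N hN
  have hNR : (0 : ℝ) < N := by exact_mod_cast hN1
  obtain ⟨u, hu, hu'⟩ := lowMain_root (10 * Th) N (by omega)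
  obtain ⟨v, hv, hv'⟩ := lowMain_root s N hs1
  have huu : u1 ≤ u := by
    by_contra hc
    have h1 : u + 1 ≤ u1 := by omega
    exact absurd (lt_of_lt_of_le hu' ((Nat.pow_le_pow_left h1 _).trans huN)) (lt_irrefl _)
  have hvu : v ≤ u := by
    by_contra hc
    have h1 : u + 1 ≤ v := by omega
    have h2 : (u + 1) ^ (10 * Th) ≤ v ^ s :=
      (Nat.pow_le_pow_left h1 _).trans (Nat.pow_le_pow_right (by omega) hs10)
    exact absurd (lt_of_lt_of_le hu' (h2.trans hv)) (lt_irrefl _)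
  have hRv : R ≤ v := by
    by_contra hc
    have h1 : v + 1 ≤ R := by omega
    exact absurd (lt_of_lt_of_le hv' ((Nat.pow_le_pow_left h1 _).trans hR)) (lt_irrefl _)
  have hu10 : 10 ≤ u := by omega
  have hu10R : (10 : ℝ) ≤ u := by exact_mod_cast hu10
  have huR : (0 : ℝ) < u := by linarith
  have hlogu1 : 1 ≤ Real.log u := by
    rw [Real.le_log_iff_exp_le huR]
    have := Real.exp_one_lt_d9
    linarith
  have hlogu : 0 < Real.log u := by linarith
  -- log N in terms of log u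
  have hlog1 : Real.log ((u : ℝ) + 1) ≤ 11 / 10 * Real.log u := by
    have e1 : (u : ℝ) + 1 = u * (1 + 1 / u) := by field_simp
    rw [e1, Real.log_mul huR.ne' (by positivity)]
    have e2 : Real.log (1 + 1 / (u : ℝ)) ≤ 1 / u := by
      have := Real.log_le_sub_one_of_pos (x := 1 + 1 / (u : ℝ)) (by positivity)
      linarith
    have e3 : 1 / (u : ℝ) ≤ 1 / 10 := one_div_le_one_div_of_le (by norm_num) hu10R
    linarith
  have hlogN : Real.log N ≤ 11 * Th * Real.log u := by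
    have e1 : (N : ℝ) ≤ ((u : ℝ) + 1) ^ (10 * Th) := by exact_mod_cast hu'.le
    have e2 := Real.log_le_log hNR e1
    rw [Real.log_pow] at e2
    push_cast at e2
    nlinarith
  have hloguN : 10 * Th * Real.log u ≤ Real.log N := by
    have e1 : (u : ℝ) ^ (10 * Th) ≤ N := by exact_mod_cast hu
    have e2 := Real.log_le_log (by positivity) e1
    rw [Real.log_pow] at e2
    push_cast at e2
    exact e2
  have hwlogu : (w : ℝ) ≤ Real.log u := by
    refine hwN.trans (hll.trans ?_)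
    rw [div_le_iff₀ (by positivity)]
    linarith
  have hw12 : 12 ≤ w := by
    have : 0 ≤ 200 * K ^ 2 := Nat.zero_le _
    omega
  have hw200 : 200 * K ^ 2 + 12 ≤ w := by omega
  have hwR : (0 : ℝ) < w := by
    have : 0 < w := by omega
    exact_mod_cast this
  have hwu : w ≤ u := by
    have h1 : Real.log u ≤ u := by
      have := Real.log_le_sub_one_of_pos huR
      linarith
    exact_mod_cast hwlogu.trans h1
  have hQf := forms_ok w (u ^ Th) e A hw12 f hA hf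
  obtain ⟨hS1, hIntN⟩ := hInt u (by omega) J hJ w e N (fun j => f j * A) hw200 hwlogu hu hQf
  have hRN := hRough u (by omega) J hJ w e N v (fun j => f j * A) hw200 hwlogu hu hQf hvu
  have hPN := hPrime u (by omega) J hJ w e N A f hw200 hwlogu hu hu' hA hf hAN hexc
  have hmod := (model CV hCV1 hCV J ℓ w u e Th hℓ1 (by rw [hJ]; exact hTK) (by rw [hJ]; exact hTh)
    (by rw [hJ]; exact hw200) hwu).1
  set S := S2N (Qe w (u ^ Th) e) ℓ u with hSdef
  have hM0 : 0 ≤ (N : ℝ) * S ^ K := by positivity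
  have hLN0 : ∀ n, 0 ≤ LN (fun j => f j * A) (Qe w (u ^ Th) e) ℓ u Th n := fun n => sq_nonneg _
  -- the factor in `rough_N`
  have hfac : CR * (Real.log v / Real.log u + 1 / w) + 1 / u ≤ 1 / K := by
    have hv1 : 1 ≤ v := by
      by_contra hc
      have : v = 0 := by omega
      rw [this, zero_add, one_pow] at hv'
      omega
    have hvR : (0 : ℝ) < v := by exact_mod_cast hv1
    have e1 : (v : ℝ) ^ s ≤ N := by exact_mod_cast hv
    have e2 := Real.log_le_log (by positivity) e1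
    rw [Real.log_pow] at e2
    have e3 : (s : ℝ) * Real.log v ≤ 11 * Th * Real.log u := e2.trans hlogN
    have e4 : Real.log v / Real.log u ≤ 11 * Th / s := by
      rw [div_le_div_iff₀ hlogu hs0]
      linarith
    have e5 : CR * (11 * Th / s) ≤ 1 / (3 * K) := by
      rw [← mul_div_assoc, div_le_div_iff₀ hs0 (by positivity)]
      nlinarith
    have e6 : CR * (1 / w) ≤ 1 / (3 * K) := by
      have h1 : (wc : ℝ) ≤ w := by
        have : wc ≤ w := by omega
        exact_mod_cast this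
      rw [mul_one_div, div_le_div_iff₀ hwR (by positivity)]
      nlinarith
    have e7 : 1 / (u : ℝ) ≤ 1 / (3 * K) := by
      have h1 : (3 * K : ℝ) ≤ u := by
        have : 3 * K ≤ u := by omega
        exact_mod_cast this
      exact one_div_le_one_div_of_le (by positivity) h1
    have e8 : CR * (Real.log v / Real.log u + 1 / w) ≤ CR * (11 * Th / s) + CR * (1 / w) := by
      rw [mul_add]
      have := mul_le_mul_of_nonneg_left e4 hCR.le
      linarith
    have e9 : 1 / (3 * K : ℝ) + 1 / (3 * K) + 1 / (3 * K) = 1 / K := by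
      field_simp
      norm_num
    linarith
  classical
  have hmom := lowMain_mom (Ico N (2 * N)) (LN (fun j => f j * A) (Qe w (u ^ Th) e) ℓ u Th) hLN0
    (fun j n => (f j * A * n - 1).Prime)
    (fun n => ∃ p0 : {p // p ∈ Qe w (u ^ Th) e}, p0.1 ≤ v ∧
      colq (fun j => f j * A) (Qe w (u ^ Th) e) n p0 ≠ none) K T hJ hK1 hT ((N : ℝ) * S ^ K) hM0
    (by rw [← mul_assoc]; exact hIntN)
    (by
      intro i
      have h1 := hPN i
      have h2 : (ℓ : ℝ) / (400000 * CV ^ 2 * K) = 4 * T / K := by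
        rw [hℓ]
        push_cast
        field_simp
        norm_num
      rw [h2, mul_assoc] at h1
      refine h1.trans (le_of_eq (sum_congr ?_ fun _ _ => rfl))
      ext n
      simp only [mem_filter])
    (by
      refine le_trans (le_of_eq ?_) (hRN.trans ?_)
      · refine sum_congr rfl fun n _ => ?_
        congr 1
      · rw [mul_assoc]
        exact mul_le_mul_of_nonneg_right hfac hM0)
  set G := (Ico N (2 * N)).filter (fun n => T ≤ (univ.filter fun j => (f j * A * n - 1).Prime).card ∧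
    ¬ ∃ p0 : {p // p ∈ Qe w (u ^ Th) e}, p0.1 ≤ v ∧
      colq (fun j => f j * A) (Qe w (u ^ Th) e) n p0 ≠ none) with hG
  have hmomG : 1 / (K : ℝ) * ((N : ℝ) * S ^ K) ≤
      ∑ n ∈ G, LN (fun j => f j * A) (Qe w (u ^ Th) e) ℓ u Th n := by
    refine hmom.trans (le_of_eq (sum_congr ?_ fun _ _ => rfl))
    rw [hG]
    ext n
    simp only [mem_filter]
    refine and_congr_right fun _ => and_congr_left fun _ => ?_
    convert Iff.rfl
  have hWpos : 0 < wD w := lt_of_lt_of_le one_pos (wD_one w)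
  have hxpos : 0 < Real.log (N : ℝ) := by linarith
  have hub : ∑ n ∈ G, LN (fun j => f j * A) (Qe w (u ^ Th) e) ℓ u Th n ≤
      (G.card : ℝ) * (C * (Real.log N / wD w) ^ (2 * K)) := by
    rw [← nsmul_eq_mul]
    refine sum_le_card_nsmul _ _ _ ?_
    intro n hn
    rw [hG, mem_filter] at hn
    refine hPt J hJ ℓ Th w u v e N A f hw12 (hwu.trans (Nat.le_self_pow (by omega) u)) (by omega)
      ?_ hv' hA hf ?_ n hn.1 ?_
    · exact (Nat.pow_le_pow_right (by omega) (by omega)).trans hu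
    · -- 2 (w A) ≤ N
      have h1 : Real.log (N : ℝ) ^ (1 / 3000 : ℝ) ≤ Real.log N / 2 := by
        have h2 : Real.log (N : ℝ) ^ (1 / 3000 : ℝ) ≤ Real.log (N : ℝ) ^ (1 / 2 : ℝ) :=
          Real.rpow_le_rpow_of_exponent_le (by linarith) (by norm_num)
        rw [← Real.sqrt_eq_rpow] at h2
        have h3 : Real.sqrt (Real.log (N : ℝ)) ≤ Real.log N / 2 := by
          rw [Real.sqrt_le_left (by linarith)]
          nlinarith
        exact h2.trans h3
      have h4 : (A : ℝ) ≤ Real.exp (Real.log N / 2) := hAN.trans (Real.exp_le_exp.2 h1)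
      have h5 : 2 * (w : ℝ) ≤ Real.exp (Real.log N / 2) := by
        have g1 : 2 * (w : ℝ) ≤ (u : ℝ) ^ 2 := by
          have : (w : ℝ) ≤ u := by exact_mod_cast hwu
          nlinarith
        refine g1.trans ?_
        rw [← Real.log_le_iff_le_exp (by positivity), Real.log_pow]
        push_cast
        have h32 : (32 : ℝ) ≤ Th := by exact_mod_cast hTh32
        nlinarith
      have h6 : (2 * (w * A) : ℝ) ≤ N := by
        have g1 : (2 * (w : ℝ)) * A ≤ Real.exp (Real.log N / 2) * Real.exp (Real.log N / 2) := by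
          gcongr
        rw [← Real.exp_add, add_halves, Real.exp_log hNR] at g1
        linarith
      exact_mod_cast h6
    · intro p0 hp0
      by_contra hc
      exact hn.2.2 ⟨p0, hp0, hc⟩
  have hfin := lowMain_fin K Th hK1 (by omega) C (Real.log N) (wD w)
    ((A : ℝ) / (Nat.totient A : ℝ)) S (G.card : ℝ) N hC hxpos hWpos (by positivity)
    (totA w e A hA).2 hNR.le (by
      refine le_trans ?_ hmod
      rw [div_le_div_iff₀ (by positivity) (by positivity)]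
      nlinarith) (hmomG.trans hub)
  refine hfin.trans (Nat.cast_le.2 (card_le_card ?_))
  intro n hn
  rw [hG, mem_filter] at hn
  rw [mem_filter]
  refine ⟨hn.1, ?_, ?_⟩
  · intro j p hp hdvd
    have hn1 : 1 ≤ n := by
      have := (mem_Ico.1 hn.1).1
      omega
    rw [mem_Qe] at hp
    have hpv : p ≤ v := hp.2.2.1.trans hRv
    have hpQ : p ∈ Qe w (u ^ Th) e := by
      rw [mem_Qe]
      exact ⟨hp.1, hp.2.1, hpv.trans (hvu.trans (Nat.le_self_pow (by omega) u)), hp.2.2.2⟩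
    refine hn.2.2 ⟨⟨p, hpQ⟩, hpv, ?_⟩
    · have := (colq_eq (Qe w (u ^ Th) e) (fun j => f j * A) hQf n hn1 ⟨p, hpQ⟩ j).2 hdvd
      rw [this]
      exact Option.some_ne_none j
  · convert hn.2.1

end Pool.CP
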