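import Pool.Agent.Lib.MP_c77da8_nt.CM.RSM
import Pool.Agent.Lib.MP_c77da8_nt.CM.ParmM
import Pool.Agent.Lib.MP_c77da8_nt.CM.ExcM
import Pool.Agent.Lib.MP_c77da8_nt.CP.GoodF
import Pool.Agent.Lib.MP_c77da8_nt.CP.RatF
import Pool.Agent.Lib.MP_c77da8_nt.CP.DensF
import Pool.Agent.Lib.MP_c77da8_nt.CP.ExtF

/-!
# CP-MainF: patterns of primes along geometric progressions, dyadic form

PROOF (compare `main_dyadicM` in `CM/MainM.lean`, part (ii) with `g = 1`).  `t1 = tM k * card F + s`, `s` from `dens_F`; `rs_mix k (d / 2)` for the density `d` of `dens_F`.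
`e` from `exc 1` for the product of the elements of `F`.
-/

set_option autoImplicit false

namespace Pool.CP

open Finset Pool.CG Pool.CL Pool.CM

private theorem MainF_ge_av {X : Type} [Fintype X] [Nonempty X] (F : X → ℝ) : ∃ x, av F ≤ F x := by
  by_contra h
  push Not at h
  have h1 : ∑ x : X, F x < ∑ _x : X, av F :=
    sum_lt_sum_of_nonempty univ_nonempty fun x _ => h x
  have h2 : (0 : ℝ) < (Fintype.card X : ℝ) := by exact_mod_cast Fintype.card_pos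
  have h3 : ∑ x : X, F x = av F * (Fintype.card X : ℝ) := by
    unfold av
    field_simp
  rw [sum_const, card_univ, nsmul_eq_mul, h3] at h1
  linarith

/-- many `n` have `g n x > 0` for a common `x`, and the sum of the `g n x` is large -/
private theorem MainF_avg {X : Type} [Fintype X] [Nonempty X] (S : Finset ℕ) (g : ℕ → X → ℝ)
    (g0 : ∀ n ∈ S, ∀ x, 0 ≤ g n x) (c N : ℝ) (hc : 0 < c)
    (h1 : c * N ≤ ∑ n ∈ S, av (g n)) (h2 : ∑ n ∈ S, av (fun x => g n x ^ 2) ≤ 2 * N) :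
    ∃ x, c ^ 2 / 2 * N ≤ ((S.filter fun n => 0 < g n x).card : ℝ) ∧ c / 2 * N ≤ ∑ n ∈ S, g n x := by
  obtain ⟨x, hx⟩ := MainF_ge_av (fun x => ∑ n ∈ S, g n x - c / 4 * ∑ n ∈ S, g n x ^ 2)
  have h5 : c / 2 * N ≤ av (fun x => ∑ n ∈ S, g n x - c / 4 * ∑ n ∈ S, g n x ^ 2) := by
    rw [av_sub, av_const_mul, av_sum, av_sum]
    have h6 : c / 4 * ∑ n ∈ S, av (fun x => g n x ^ 2) ≤ c / 4 * (2 * N) :=
      mul_le_mul_of_nonneg_left h2 (by positivity)
    have h7 : c * N ≤ ∑ n ∈ S, av (fun x => g n x) := h1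
    linarith
  have h8 : c / 2 * N ≤ ∑ n ∈ S, g n x - c / 4 * ∑ n ∈ S, g n x ^ 2 := h5.trans hx
  have h3 : ∑ n ∈ S, g n x ≤
      1 / c * ((S.filter fun n => 0 < g n x).card : ℝ) + c / 4 * ∑ n ∈ S, g n x ^ 2 := by
    rw [card_filter, Nat.cast_sum, mul_sum, mul_sum, ← sum_add_distrib]
    refine sum_le_sum fun n hn => ?_
    rcases (g0 n hn x).lt_or_eq with h | h
    · rw [if_pos h]
      push_cast
      have h4 : 0 ≤ (c / 2 * g n x - 1) ^ 2 / c := by positivity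
      have h5 : (c / 2 * g n x - 1) ^ 2 / c = c / 4 * g n x ^ 2 - g n x + 1 / c := by
        field_simp
        ring
      rw [h5] at h4
      linarith
    · rw [← h]
      simp
  refine ⟨x, ?_, ?_⟩
  · have h6 : c / 2 * N ≤ 1 / c * ((S.filter fun n => 0 < g n x).card : ℝ) := by linarith
    have h7 := mul_le_mul_of_nonneg_left h6 hc.le
    rw [← mul_assoc c (1 / c), mul_one_div_cancel hc.ne', one_mul] at h7
    calc c ^ 2 / 2 * N = c * (c / 2 * N) := by ring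
      _ ≤ _ := h7
  · have h9 : 0 ≤ c / 4 * ∑ n ∈ S, g n x ^ 2 :=
      mul_nonneg (by positivity) (sum_nonneg fun n _ => sq_nonneg _)
    linarith

/-- pigeonhole -/
private theorem MainF_pig (S : Finset ℕ) (T : ℕ) (hT : 1 ≤ T) (P : ℕ → ℕ → Prop)
    [∀ b n, Decidable (P b n)] (h : ∀ n ∈ S, ∃ b, 1 ≤ b ∧ b ≤ T ∧ P b n) :
    ∃ b, 1 ≤ b ∧ b ≤ T ∧ (S.card : ℝ) / T ≤ ((S.filter fun n => P b n).card : ℝ) := by
  by_contra hc
  push Not at hc
  have h1 : S ⊆ (Icc 1 T).biUnion fun b => S.filter fun n => P b n := by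
    intro n hn
    obtain ⟨b, hb1, hbT, hb⟩ := h n hn
    exact mem_biUnion.2 ⟨b, mem_Icc.2 ⟨hb1, hbT⟩, mem_filter.2 ⟨hn, hb⟩⟩
  have h2 : (S.card : ℝ) ≤ ∑ b ∈ Icc 1 T, ((S.filter fun n => P b n).card : ℝ) := by
    exact_mod_cast (card_le_card h1).trans card_biUnion_le
  have h3 : ∑ b ∈ Icc 1 T, ((S.filter fun n => P b n).card : ℝ) < ∑ _b ∈ Icc 1 T, (S.card : ℝ) / T := by
    refine sum_lt_sum_of_nonempty ⟨1, mem_Icc.2 ⟨le_refl _, hT⟩⟩ fun b hb => ?_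
    rw [mem_Icc] at hb
    exact hc b hb.1 hb.2
  have hT0 : (0 : ℝ) < T := by exact_mod_cast hT
  rw [sum_const, Nat.card_Icc, nsmul_eq_mul, Nat.add_sub_cancel, mul_div_cancel₀ _ hT0.ne'] at h3
  linarith

private theorem MainF_logs (w e : ℕ) :
    ∑ p ∈ (Icc 1 w).filter (fun p => p.Prime ∧ p ≠ e), Real.log (p : ℝ) ≤ 2 * w := by
  classical
  have h0 : ∀ p : ℕ, 0 ≤ Real.log (p : ℝ) := fun p => Real.log_natCast_nonneg p
  calc ∑ p ∈ (Icc 1 w).filter (fun p => p.Prime ∧ p ≠ e), Real.log (p : ℝ)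
      ≤ ∑ p ∈ (range (w + 1)).filter Nat.Prime, Real.log (p : ℝ) := by
        refine sum_le_sum_of_subset_of_nonneg (fun p hp => ?_) fun p _ _ => h0 p
        rw [mem_filter, mem_Icc] at hp
        rw [mem_filter, mem_range]
        exact ⟨by omega, hp.2.1⟩
    _ = Real.log (primorial w : ℝ) := by
        unfold primorial
        rw [Nat.cast_prod, Real.log_prod]
        intro p hp
        have := (mem_filter.1 hp).2.pos
        positivity
    _ ≤ Real.log ((4 : ℝ) ^ w) := by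
        refine Real.log_le_log (by exact_mod_cast primorial_pos w) ?_
        exact_mod_cast primorial_le_four_pow w
    _ = w * Real.log 4 := by rw [Real.log_pow]
    _ ≤ w * 2 := by
        refine mul_le_mul_of_nonneg_left ?_ (Nat.cast_nonneg _)
        have h4 : Real.log 4 = 2 * Real.log 2 := by
          rw [show (4 : ℝ) = 2 ^ 2 by norm_num, Real.log_pow]
          push_cast
          ring
        have := Real.log_two_lt_d9
        linarith
    _ = 2 * w := by ring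

/-- the size of the logarithms -/
private theorem MainF_ev (C ε : ℝ) (K : ℕ) : ∃ N0 : ℕ, ∀ N ≥ N0, (2 * Real.log (Real.log N)) ^ K ≤ Real.log N ∧
    1 ≤ Real.log (Real.log N) ∧
    C * Real.log (Real.log N) * Real.log (Real.log (Real.log N)) ≤ Real.log (Real.log N) ^ 2 ∧
    Real.log (Real.log N) ^ (2 + ε) ≤ Real.log N ^ (1 / 3000 : ℝ) ∧
    3 + Real.log N ^ (1 / 2050 : ℝ) ≤ Real.log N ^ (1 / 2000 : ℝ) := by
  have hlog : Filter.Tendsto (fun N : ℕ => Real.log (N : ℝ)) Filter.atTop Filter.atTop :=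
    Real.tendsto_log_atTop.comp tendsto_natCast_atTop_atTop
  have hlog2 := Real.tendsto_log_atTop.comp hlog
  have h0 : ∀ᶠ x : ℝ in Filter.atTop, (2 * Real.log x) ^ K ≤ x := by
    have h5 := ((Real.isLittleO_pow_log_id_atTop (n := K)).bound (c := 1 / 2 ^ K) (by positivity)).and
      (Filter.eventually_ge_atTop (1 : ℝ))
    filter_upwards [h5] with x hx
    obtain ⟨hx1, hx2⟩ := hx
    have hl : 0 ≤ Real.log x := Real.log_nonneg hx2
    have hx0 : (0 : ℝ) ≤ x := by linarith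
    rw [Real.norm_eq_abs, abs_of_nonneg (pow_nonneg hl K), id, Real.norm_eq_abs, abs_of_nonneg hx0] at hx1
    calc (2 * Real.log x) ^ K = 2 ^ K * Real.log x ^ K := by rw [mul_pow]
      _ ≤ 2 ^ K * (1 / 2 ^ K * x) := mul_le_mul_of_nonneg_left hx1 (by positivity)
      _ = x := by field_simp
  have h1 := hlog.eventually h0
  have h2 := hlog2.eventually_ge_atTop 1
  have h3 : ∀ᶠ x : ℝ in Filter.atTop, |C| * Real.log x ≤ x := by
    have := (Real.isLittleO_log_id_atTop.bound (c := 1 / (|C| + 1)) (by positivity)).and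
      (Filter.eventually_ge_atTop (1 : ℝ))
    filter_upwards [this] with x hx
    obtain ⟨hx1, hx2⟩ := hx
    have hl : 0 ≤ Real.log x := Real.log_nonneg hx2
    have hx0 : (0 : ℝ) ≤ x := by linarith
    rw [Real.norm_eq_abs, abs_of_nonneg hl, id, Real.norm_eq_abs, abs_of_nonneg hx0] at hx1
    have hC := abs_nonneg C
    calc |C| * Real.log x ≤ |C| * (1 / (|C| + 1) * x) := mul_le_mul_of_nonneg_left hx1 hC
      _ = |C| / (|C| + 1) * x := by ring
      _ ≤ 1 * x := by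
          refine mul_le_mul_of_nonneg_right ?_ (by linarith)
          rw [div_le_one (by positivity)]
          linarith
      _ = x := one_mul x
  have h3' := hlog2.eventually h3
  have h4 : ∀ᶠ x : ℝ in Filter.atTop, Real.log x ^ (2 + ε) ≤ x ^ (1 / 3000 : ℝ) := by
    have h5 := ((isLittleO_log_rpow_rpow_atTop (2 + ε) (show (0 : ℝ) < 1 / 3000 by norm_num)).bound
      (c := 1) one_pos).and (Filter.eventually_ge_atTop (1 : ℝ))
    filter_upwards [h5] with x hx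
    obtain ⟨hx1, hx2⟩ := hx
    have hl : 0 ≤ Real.log x := Real.log_nonneg hx2
    rw [Real.norm_eq_abs, abs_of_nonneg (Real.rpow_nonneg hl _), one_mul, Real.norm_eq_abs,
      abs_of_nonneg (Real.rpow_nonneg (by linarith) _)] at hx1
    exact hx1
  have h4' := hlog.eventually h4
  have h6 : ∀ᶠ x : ℝ in Filter.atTop, 3 + x ^ (1 / 2050 : ℝ) ≤ x ^ (1 / 2000 : ℝ) := by
    have h7 : Filter.Tendsto (fun x : ℝ => x ^ (1 / 2000 - 1 / 2050 : ℝ)) Filter.atTop Filter.atTop :=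
      tendsto_rpow_atTop (by norm_num)
    have h8 := (h7.eventually_ge_atTop 4).and (Filter.eventually_ge_atTop (1 : ℝ))
    filter_upwards [h8] with x hx
    obtain ⟨hx1, hx2⟩ := hx
    have h9 : 1 ≤ x ^ (1 / 2050 : ℝ) := Real.one_le_rpow hx2 (by norm_num)
    have h10 : x ^ (1 / 2000 : ℝ) = x ^ (1 / 2000 - 1 / 2050 : ℝ) * x ^ (1 / 2050 : ℝ) := by
      rw [← Real.rpow_add (by linarith)]
      norm_num
    rw [h10]
    nlinarith
  have h6' := hlog.eventually h6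
  obtain ⟨N0, hN0⟩ := Filter.eventually_atTop.1 (((h1.and h2).and h3').and (h4'.and h6'))
  refine ⟨N0, fun N hN => ?_⟩
  obtain ⟨⟨⟨a1, a2⟩, a3⟩, a4, a5⟩ := hN0 N hN
  refine ⟨a1, a2, ?_, a4, a5⟩
  have a2' : 1 ≤ Real.log (Real.log (N : ℝ)) := a2
  have b1 : 0 ≤ Real.log (Real.log (Real.log (N : ℝ))) := Real.log_nonneg a2'
  have a3' : |C| * Real.log (Real.log (Real.log (N : ℝ))) ≤ Real.log (Real.log (N : ℝ)) := a3
  have b2 : C * Real.log (Real.log (Real.log (N : ℝ))) ≤ |C| * Real.log (Real.log (Real.log (N : ℝ))) :=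
    mul_le_mul_of_nonneg_right (le_abs_self C) b1
  have b3 : 0 ≤ Real.log (Real.log (N : ℝ)) := by linarith
  calc C * Real.log (Real.log N) * Real.log (Real.log (Real.log N)) =
        Real.log (Real.log N) * (C * Real.log (Real.log (Real.log N))) := by ring
    _ ≤ Real.log (Real.log N) * Real.log (Real.log N) := mul_le_mul_of_nonneg_left (b2.trans a3') b3
    _ = Real.log (Real.log N) ^ 2 := by ring

/-- the exceptional prime -/
private theorem MainF_exc (K : ℕ) : ∃ N0 : ℕ, ∀ N ≥ N0, ∀ F : Finset ℕ, F.card = K →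
    (∀ h ∈ F, 1 ≤ h ∧ (h : ℝ) ≤ 2 * Real.log (Real.log N)) → ∃ e : ℕ, (e = 0 ∨ e.Prime) ∧
    (∀ h ∈ F, ¬ e ∣ h) ∧ NoExcN (Real.log N) e := by
  classical
  obtain ⟨N1, h1⟩ := exc 1
  obtain ⟨N2, h2⟩ := MainF_ev 1 1 K
  refine ⟨max N1 N2, fun N hN F hFK hF => ?_⟩
  obtain ⟨g, hg⟩ : ∃ g : ℕ, g = ∏ h ∈ F, h := ⟨_, rfl⟩
  have hg1 : 1 ≤ g := by
    have h0 : 0 < ∏ h ∈ F, h := Finset.prod_pos fun h hh => lt_of_lt_of_le one_pos (hF h hh).1
    rw [hg]
    exact h0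
  obtain ⟨m, -, hm, h3⟩ := h1 N (le_trans (le_max_left _ _) hN)
  obtain ⟨hgN, -, -, -, hx⟩ := h2 N (le_trans (le_max_right _ _) hN)
  have hgle : (g : ℝ) ≤ Real.log N := by
    refine le_trans ?_ hgN
    rw [hg, ← hFK, Nat.cast_prod]
    calc ∏ h ∈ F, (h : ℝ) ≤ ∏ _h ∈ F, (2 * Real.log (Real.log N)) :=
          prod_le_prod (fun h _ => Nat.cast_nonneg h) fun h hh => (hF h hh).2
      _ = (2 * Real.log (Real.log N)) ^ F.card := by rw [prod_const]
  have hmg : ¬ m ∣ g := by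
    intro h
    have h4 : m ≤ g := Nat.le_of_dvd hg1 h
    have h5 : (m : ℝ) ≤ g := by exact_mod_cast h4
    rw [pow_one] at hm
    linarith
  obtain ⟨e, he, hLow⟩ := h3 g hg1 hmg
  refine ⟨e, he.imp id fun h => h.1, fun h hh hd => ?_, ?_⟩
  · rcases he with he | ⟨he, heg⟩
    · rw [he, zero_dvd_iff] at hd
      have := (hF h hh).1
      omega
    · exact heg (hd.trans (by rw [hg]; exact dvd_prod_of_mem _ hh))
  · intro r _ her hr
    refine hLow r her ?_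
    have hr0 : 0 < r := Nat.pos_of_neZero r
    have h5 : ((∏ p ∈ r.primeFactors, p : ℕ) : ℝ) ≤ r := by
      exact_mod_cast Nat.le_of_dvd hr0 (Nat.prod_primeFactors_dvd r)
    have h6 : (8 : ℝ) ≤ Real.exp 3 := by
      have h3 : Real.exp 3 = Real.exp 1 ^ 3 := by
        rw [← Real.exp_nat_mul]
        norm_num
      rw [h3]
      have h4 : (2 : ℝ) ≤ Real.exp 1 := by
        have := Real.exp_one_gt_d9
        linarith
      calc (8 : ℝ) = 2 ^ 3 := by norm_num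
        _ ≤ Real.exp 1 ^ 3 := pow_le_pow_left₀ (by norm_num) h4 3
    calc 8 * ((∏ p ∈ r.primeFactors, p : ℕ) : ℝ) ≤ Real.exp 3 * Real.exp (Real.log N ^ (1 / 2050 : ℝ)) :=
          mul_le_mul h6 (h5.trans hr) (Nat.cast_nonneg _) (Real.exp_pos _).le
      _ = Real.exp (3 + Real.log N ^ (1 / 2050 : ℝ)) := by rw [Real.exp_add]
      _ ≤ Real.exp (Real.log N ^ (1 / 2000 : ℝ)) := Real.exp_le_exp.2 hx

theorem main_dyadicF : ∃ C1 : ℕ, 1 ≤ C1 ∧ ∀ T K : ℕ, 1 ≤ T → 2 ^ (C1 * T) ≤ K →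
    ∀ k : ℕ, ∃ (D c : ℝ), 0 ≤ D ∧ 0 < c ∧ ∀ ε : ℝ, 0 < ε → ∃ N0 : ℕ, ∀ N ≥ N0, ∀ F : Finset ℕ, F.card = K →
      (∀ h ∈ F, 1 ≤ h ∧ (h : ℝ) ≤ 2 * Real.log (Real.log N)) → ∃ H ⊆ F, H.card = T ∧ ∃ a : ℕ, 2 ≤ a ∧
      Real.log a ≤ D * Real.log (Real.log N) * Real.log (Real.log (Real.log N)) ∧
      c * N ≤ ((open Classical in (Ico N (2 * N)).filter fun n => ∃ b : ℕ, 1 ≤ b ∧
        Real.log b ≤ Real.log (Real.log N) ^ (2 + ε) ∧
        ∀ h ∈ H, ∀ j < k + 2, (h * (n * b * a ^ j) - 1).Prime).card : ℝ) := by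
  classical
  obtain ⟨C1, hC1, hdens⟩ := dens_F
  refine ⟨C1, hC1, fun Tp K hTp hK k => ?_⟩
  obtain ⟨s, wd, hs, hdens⟩ := hdens Tp K hTp hK
  obtain ⟨t1, ht1⟩ : ∃ t1 : ℕ, t1 = tM k * K + s := ⟨_, rfl⟩
  have ht11 : 1 ≤ t1 := by omega
  obtain ⟨d, N3, hd, hdens⟩ := hdens t1 ht11 (by omega)
  have htL : 1 ≤ 2 ^ (k + 2) := Nat.one_le_two_pow
  have hkt : (k + 2) * 1 ≤ (k + 2) * 2 ^ (k + 2) := Nat.mul_le_mul_left _ htL
  have ht2 : 2 * (k + 2) ≤ tM k := by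
    unfold tM
    omega
  obtain ⟨T, m0, η, cR, hT, hη, hcR, hrs⟩ := rs_mix k (d / 2) (by positivity)
  obtain ⟨B0, hB0⟩ : ∃ B0 : ℕ, B0 = BT k T := ⟨_, rfl⟩
  have hB01 : 1 ≤ B0 := by
    rw [hB0]
    exact Nat.factorial_pos _
  obtain ⟨H, hH⟩ : ∃ H : ℕ, H = 4 * B0 := ⟨_, rfl⟩
  have hH4 : 4 ≤ H := by omega
  obtain ⟨D, hD⟩ : ∃ D : ℕ, D = T * (k + 1) * (k + 2) * H + H + B0 * (k + 1) := ⟨_, rfl⟩
  obtain ⟨ρ, hρ⟩ : ∃ ρ : ℝ, ρ = 1 - 1 / 2 ^ (m0 + 3) := ⟨_, rfl⟩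
  have hpw : (0 : ℝ) < 1 / 2 ^ (m0 + 1) := by positivity
  have hpw1 : (1 : ℝ) / 2 ^ (m0 + 1) ≤ 1 / 2 := by
    rw [one_div_le_one_div (by positivity) (by norm_num)]
    calc (2 : ℝ) = 2 ^ 1 := by norm_num
      _ ≤ 2 ^ (m0 + 1) := pow_le_pow_right₀ (by norm_num) (by omega)
  have hpw3 : (1 : ℝ) / 2 ^ (m0 + 3) = 1 / 2 ^ (m0 + 1) / 4 := by
    rw [show m0 + 3 = (m0 + 1) + 2 by ring, pow_add]
    field_simp
    norm_num
  have hρ0 : 0 < ρ := by rw [hρ, hpw3]; linarith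
  have hρ1 : ρ < 1 := by rw [hρ, hpw3]; linarith
  have hρm : 1 - 1 / 2 ^ (m0 + 1) ≤ ρ := by rw [hρ, hpw3]; linarith
  have hρH : 1 / (H : ℝ) ≤ ρ := by
    have h1 : (1 : ℝ) / H ≤ 1 / 4 := by
      rw [one_div_le_one_div (by exact_mod_cast (by omega : 0 < H)) (by norm_num)]
      exact_mod_cast hH4
    rw [hρ, hpw3]
    linarith
  obtain ⟨Q, hQ⟩ : ∃ Q : ℕ, Q = 16 * (D + 1) ^ 2 + 4 * (T * ((k + 2) * H)) + 4 := ⟨_, rfl⟩
  obtain ⟨C', hC', hpar⟩ := parM ρ hρ0 hρ1 (9 ^ t1 + t1 + 1) Q (by omega)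
  have hT0 : (0 : ℝ) < T := by exact_mod_cast hT
  obtain ⟨c1, hc1⟩ : ∃ c1 : ℝ, c1 = cR * (d ^ 2 / 16 / T) := ⟨_, rfl⟩
  have hc1p : 0 < c1 := by
    rw [hc1]
    positivity
  refine ⟨T * (2 * ((k + 2) * H) * C'), c1 ^ 2 / 2, by positivity, by positivity, fun ε hε => ?_⟩
  obtain ⟨w1, M1, N1, hgood⟩ := good_nF k t1 T m0 D H B0 ht11 d hd hB01 (by omega) (by omega) (by omega) ρ η hρH hρm hρ1 hη
  -- the second moments for all `b ≤ T`
  obtain ⟨w2, M2, N2, hmom⟩ : ∃ w2 M2 N2 : ℕ, ∀ b : ℕ, 1 ≤ b → b ≤ T → ∀ w ≥ w2, ∀ M ≥ M2, ∀ N ≥ N2,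
      ∀ (V : ℕ) (P : Finset ℕ) (ex : ℕ) [NeZero M], ParF t1 D V w M N ρ P ex →
      ∀ (J : Type) [Fintype J] [DecidableEq J] (f : J → ℕ), tM k * Fintype.card J ≤ t1 → FOK f w ex →
      ∀ v : Cd P → ℕ, (∀ q, b * (k + 1) * v q ≤ V) →
      ∑ n ∈ Ico N (2 * N), av (fun x : Fin (k + 2) → Cd P → Fin H =>
        (av (fun y : GP P M => ∏ j, nuF f ex P M w (Rt t1 N) n (y + b • psi j (ce (EM k w M H v) x)))) ^ 2) ≤
          2 * N := by
    have h : ∀ b : ℕ, ∃ w2 M2 N2 : ℕ, 1 ≤ b → b ≤ T → ∀ w ≥ w2, ∀ M ≥ M2, ∀ N ≥ N2,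
        ∀ (V : ℕ) (P : Finset ℕ) (ex : ℕ) [NeZero M], ParF t1 D V w M N ρ P ex →
        ∀ (J : Type) [Fintype J] [DecidableEq J] (f : J → ℕ), tM k * Fintype.card J ≤ t1 → FOK f w ex →
        ∀ v : Cd P → ℕ, (∀ q, b * (k + 1) * v q ≤ V) →
        ∑ n ∈ Ico N (2 * N), av (fun x : Fin (k + 2) → Cd P → Fin H =>
          (av (fun y : GP P M => ∏ j, nuF f ex P M w (Rt t1 N) n (y + b • psi j (ce (EM k w M H v) x)))) ^ 2) ≤
            2 * N := by
      intro b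
      by_cases hb : 1 ≤ b ∧ b ≤ T
      · have hbD : b * (k + 1) * (k + 2) * H + H ≤ D := by
          have : b * (k + 1) * (k + 2) * H ≤ T * (k + 1) * (k + 2) * H :=
            Nat.mul_le_mul_right _ (Nat.mul_le_mul_right _ (Nat.mul_le_mul_right _ hb.2))
          omega
        obtain ⟨w2, M2, N2, h2⟩ := rat_momF k (tM k) t1 D H b ht11 hb.1 ht2 (by omega) hbD ρ hρH hρ1
        exact ⟨w2, M2, N2, fun _ _ => h2⟩
      · exact ⟨0, 0, 0, fun h1 h2 => absurd ⟨h1, h2⟩ hb⟩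
    choose w2 M2 N2 h2 using h
    have hs : ∀ (f : ℕ → ℕ) (b : ℕ), b ≤ T → f b ≤ (range (T + 1)).sup f := fun f b hb =>
      Finset.le_sup (f := f) (mem_range.2 (by omega))
    exact ⟨(range (T + 1)).sup w2, (range (T + 1)).sup M2, (range (T + 1)).sup N2,
      fun b hb1 hbT w hw M hM N hN => h2 b hb1 hbT w ((hs w2 b hbT).trans hw) M ((hs M2 b hbT).trans hM) N
        ((hs N2 b hbT).trans hN)⟩
  obtain ⟨N4, hexc⟩ := MainF_exc K
  obtain ⟨N5, hpar⟩ := hpar ε hε (max (max w1 w2) wd) (max M1 M2)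
  obtain ⟨N6, hev⟩ := MainF_ev C' ε 0
  refine ⟨max (max N1 N2) (max N3 (max N4 (max N5 (max N6 3)))), fun N hN F hFK hF => ?_⟩
  have hcardJ : Fintype.card {x // x ∈ F} = K := (Fintype.card_coe F).trans hFK
  have htJ : tM k * Fintype.card {x // x ∈ F} ≤ t1 := by
    rw [hcardJ]
    omega
  simp only [ge_iff_le, max_le_iff] at hN
  obtain ⟨⟨hN1, hN2⟩, hN3, hN4, hN5, hN6, hN7⟩ := hN
  obtain ⟨e, he0, heF, hNo⟩ := hexc N hN4 F hFK hF
  obtain ⟨w, hw0, hw3, hwC, hent, hM⟩ := hpar N hN5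
  obtain ⟨-, hLL1, hLLL, hLLe, -⟩ := hev N hN6
  simp only [max_le_iff] at hw0
  obtain ⟨⟨hw01, hw02⟩, hw0d⟩ := hw0
  have hwLL : 2 * Real.log (Real.log N) ≤ w := by
    have h1 := hent w (by
      refine (card_filter_le _ _).trans ?_
      rw [Nat.card_Icc]
      omega)
    have hLpos : 0 < Real.log (N : ℝ) := by
      by_contra hcon
      have h2 : Real.log (Real.log (N : ℝ)) ≤ 0 := by
        have h3 : 3 ≤ (N : ℝ) := by exact_mod_cast hN7
        have h4 : 0 < Real.log (N : ℝ) := Real.log_pos (by linarith)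
        exact absurd h4 hcon
      linarith
    have h2 : Real.log (Real.log (N : ℝ) ^ (9 ^ t1 + t1 + 1) * ρ ^ w) ≤ 0 := by
      have h3 : 0 < Real.log (N : ℝ) ^ (9 ^ t1 + t1 + 1) * ρ ^ w := by positivity
      have h4 := Real.log_le_log h3 h1
      rwa [Real.log_one] at h4
    rw [Real.log_mul (by positivity) (by positivity), Real.log_pow, Real.log_pow] at h2
    have hρh : 1 / 2 ≤ ρ := by rw [hρ, hpw3]; linarith
    have h3 : -1 ≤ Real.log ρ := by
      have h4 := Real.one_sub_inv_le_log_of_pos hρ0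
      have h5 : ρ⁻¹ ≤ 2 := by
        have h6 := inv_anti₀ (by norm_num : (0 : ℝ) < 1 / 2) hρh
        linarith [h6, show (1 / 2 : ℝ)⁻¹ = 2 by norm_num]
      linarith
    have h4 : -(w : ℝ) ≤ w * Real.log ρ := by
      have h5 := mul_le_mul_of_nonneg_left h3 (Nat.cast_nonneg (α := ℝ) w)
      linarith
    have h5 : (2 : ℝ) ≤ ((9 ^ t1 + t1 + 1 : ℕ) : ℝ) := by
      have h9 : 1 ≤ 9 ^ t1 := Nat.one_le_pow _ _ (by norm_num)
      have h10 : 2 ≤ 9 ^ t1 + t1 + 1 := by omega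
      exact_mod_cast h10
    have h6 : 2 * Real.log (Real.log (N : ℝ)) ≤ ((9 ^ t1 + t1 + 1 : ℕ) : ℝ) * Real.log (Real.log (N : ℝ)) :=
      mul_le_mul_of_nonneg_right h5 (by linarith)
    linarith
  obtain ⟨M, hM0, hMQ, hMlog, hMsz, hM100, hMε, h2000⟩ := hM 0 le_rfl (by positivity)
  rw [Nat.ceil_zero] at hMQ
  simp only [add_zero, mul_one] at hMQ hMsz hM100 hMε h2000
  obtain ⟨P, hP⟩ : ∃ P : Finset ℕ, P = (Icc 1 w).filter (fun p => p.Prime ∧ p ≠ e) := ⟨_, rfl⟩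
  have hQw : Q ≤ M := by
    calc Q = Q * 1 := (mul_one Q).symm
      _ ≤ Q * w := Nat.mul_le_mul_left _ (by omega)
      _ ≤ M := hMQ
  have hM1 : 1 ≤ M := by omega
  have hMne : NeZero M := ⟨by omega⟩
  have hPp : ∀ p ∈ P, p.Prime := by
    intro p hp
    rw [hP, mem_filter] at hp
    exact hp.2.1
  have hPw : ∀ p ∈ P, p ≤ w := by
    intro p hp
    rw [hP, mem_filter, mem_Icc] at hp
    exact hp.1.2
  have heP : e ∉ P := by
    intro h
    rw [hP, mem_filter] at h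
    exact h.2.2 rfl
  have hPmost : ∀ p : ℕ, p.Prime → p ≤ w → p ≠ e → p ∈ P := by
    intro p hp hpw hpe
    rw [hP, mem_filter, mem_Icc]
    exact ⟨⟨hp.one_lt.le, hpw⟩, hp, hpe⟩
  have hPcard : P.card ≤ w := by
    rw [hP]
    refine (card_filter_le _ _).trans ?_
    rw [Nat.card_Icc]
    omega
  have hPlog : ∑ p ∈ P, Real.log (p : ℝ) ≤ 2 * w := by
    rw [hP]
    exact MainF_logs w e
  have hPlog0 : 0 ≤ ∑ p ∈ P, Real.log (p : ℝ) := sum_nonneg fun p _ => Real.log_natCast_nonneg p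
  obtain ⟨E, hE⟩ : ∃ E : ℕ, E = T * ((k + 2) * H) := ⟨_, rfl⟩
  have hpm : ParM t1 D 0 w M N ρ P := by
    refine ⟨hPp, ⟨e, hPmost⟩, hent _ ?_, ?_, ?_, hMlog⟩
    · have h1 : (Icc 1 w).filter Nat.Prime ⊆ insert e (P.filter fun p => p ≤ w) := by
        intro p hp
        rw [mem_filter, mem_Icc] at hp
        rw [mem_insert, mem_filter]
        by_cases hpe : p = e
        · exact Or.inl hpe
        · exact Or.inr ⟨hPmost p hp.2 hp.1.2 hpe, hp.1.2⟩
      exact (card_le_card h1).trans (card_insert_le _ _)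
    · calc (4 * (D + 0)) ^ 2 = 16 * D ^ 2 := by ring
        _ ≤ 16 * (D + 1) ^ 2 := Nat.mul_le_mul_left _ (Nat.pow_le_pow_left (by omega) 2)
        _ ≤ Q := by rw [hQ]; omega
        _ ≤ M := hQw
    · linarith
  have hwM : w ≤ M := by
    calc w = 1 * w := (one_mul w).symm
      _ ≤ Q * w := Nat.mul_le_mul_right _ (by omega)
      _ ≤ M := hMQ
  have hpf : ParF t1 D 0 w M N ρ P e := ⟨hpm, hPw, heP, hwM⟩
  have hEcard : 4 * E * P.card ≤ M := by
    calc 4 * E * P.card ≤ Q * w := Nat.mul_le_mul (by rw [hQ, hE]; omega) hPcard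
      _ ≤ M := hMQ
  have hE1 : 1 ≤ E := by
    rw [hE]
    have : 1 * 1 ≤ T * ((k + 2) * H) := by
      refine Nat.mul_le_mul hT ?_
      have : 1 * 1 ≤ (k + 2) * H := Nat.mul_le_mul (by omega) (by omega)
      omega
    omega
  have hMs : (M : ℝ) * ∑ p ∈ P, Real.log p ≤ Real.log (Real.log N) ^ (2 + ε) := by
    refine (mul_le_mul_of_nonneg_left hPlog (Nat.cast_nonneg _)).trans (hMε.trans (le_of_eq ?_))
    ring
  have hf : FOK (fun x : {x // x ∈ F} => x.1) w e := by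
    refine ⟨Subtype.val_injective, fun j => (hF j.1 j.2).1, fun j => ?_, fun j => heF j.1 j.2⟩
    exact_mod_cast (hF j.1 j.2).2.trans hwLL
  obtain ⟨S0, hS0c, hdensN⟩ := hdens N hN3 w M E P e hPp hPw heP he0 hPmost hw0d (by omega) hE1 (hwC.trans hLLL) hNo
    (hMs.trans hLLe) hEcard {x // x ∈ F} (fun x => x.1) hcardJ hf
  obtain ⟨v, hvdef⟩ : ∃ v : Cd P → ℕ, v = fun _ => 0 := ⟨_, rfl⟩
  have hv' : ∀ (b : ℕ) (q : Cd P), b * (k + 1) * v q ≤ 0 := by
    intro b q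
    rw [hvdef]
    exact (Nat.mul_zero _).le
  obtain ⟨f, hfdef⟩ : ∃ f : {x // x ∈ F} → ℕ, f = fun x => x.1 := ⟨_, rfl⟩
  rw [← hfdef] at hf hdensN
  have hG := hgood w hw01 M ((le_max_left _ _).trans hM0) N hN1 0 E P e hpf {x // x ∈ F} f htJ hf v
    (fun q => hv' T q) S0 hdensN
  have hHne : NeZero H := ⟨by omega⟩
  have hXne : Nonempty (Cd P → Fin H) := ⟨fun _ => 0⟩
  -- the good `n`
  set Gs := (Ico N (2 * N)).filter fun n =>
        (∀ n' ≤ m0, MixOK k B0 n' η (EM k w M H v) (nuF f e P M w (Rt t1 N) n)) ∧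
        (∀ b : ℕ, 1 ≤ b → b ≤ T → LFav η (affM (EM k w M H v) (nuF f e P M w (Rt t1 N) n) b)) ∧
        d / 2 ≤ av (fF f e P M w (Rt t1 N) E n S0) ∧
        ∀ z, 0 ≤ fF f e P M w (Rt t1 N) E n S0 z ∧ fF f e P M w (Rt t1 N) E n S0 z ≤ nuF f e P M w (Rt t1 N) n z with hGs
  have hGcard : d ^ 2 / 16 * N ≤ (Gs.card : ℝ) := by
    refine hG.trans ?_
    norm_cast
  have hGn : ∀ n ∈ Gs, ∃ b : ℕ, 1 ≤ b ∧ b ≤ T ∧
      cR ≤ av (fun y : GP P M => av (fun x : Fin (k + 2) → Cd P → Fin H =>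
        ∏ j, fF f e P M w (Rt t1 N) E n S0 (y + b • psi j (ce (EM k w M H v) x)))) := by
    intro n hn
    rw [hGs, mem_filter] at hn
    obtain ⟨-, hn1, hn2, hn3, hn4⟩ := hn
    rw [hB0] at hn1
    exact hrs (GP P M) (Cd P → Fin H) (EM k w M H v) _ _ hn4 hn3 hn1 hn2
  obtain ⟨b, hb1, hbT, hpig⟩ := MainF_pig Gs T hT (fun b n =>
    cR ≤ av (fun y : GP P M => av (fun x : Fin (k + 2) → Cd P → Fin H =>
        ∏ j, fF f e P M w (Rt t1 N) E n S0 (y + b • psi j (ce (EM k w M H v) x))))) hGn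
  set S := Gs.filter fun n =>
    cR ≤ av (fun y : GP P M => av (fun x : Fin (k + 2) → Cd P → Fin H =>
        ∏ j, fF f e P M w (Rt t1 N) E n S0 (y + b • psi j (ce (EM k w M H v) x)))) with hS
  have hSG : S ⊆ Gs := filter_subset _ _
  have hGI : Gs ⊆ Ico N (2 * N) := filter_subset _ _
  have hScard : d ^ 2 / 16 / T * N ≤ (S.card : ℝ) := by
    refine le_trans ?_ hpig
    calc d ^ 2 / 16 / T * N = d ^ 2 / 16 * N / T := by ring
      _ ≤ (Gs.card : ℝ) / T := div_le_div_of_nonneg_right hGcard hT0.le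
  obtain ⟨G, hGdef⟩ : ∃ G : ℕ → (Fin (k + 2) → Cd P → Fin H) → ℝ, G = fun n x =>
    av (fun y : GP P M => ∏ j, fF f e P M w (Rt t1 N) E n S0 (y + b • psi j (ce (EM k w M H v) x))) := ⟨_, rfl⟩
  have hf0 : ∀ n ∈ S, ∀ z, 0 ≤ fF f e P M w (Rt t1 N) E n S0 z ∧
      fF f e P M w (Rt t1 N) E n S0 z ≤ nuF f e P M w (Rt t1 N) n z := by
    intro n hn
    have := hSG hn
    rw [hGs, mem_filter] at this
    exact this.2.2.2.2
  have hg0 : ∀ n ∈ S, ∀ x, 0 ≤ G n x := by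
    intro n hn x
    rw [hGdef]
    exact av_nonneg fun y => prod_nonneg fun j _ => (hf0 n hn _).1
  have hgle : ∀ n ∈ S, ∀ x, G n x ≤
      av (fun y : GP P M => ∏ j, nuF f e P M w (Rt t1 N) n (y + b • psi j (ce (EM k w M H v) x))) := by
    intro n hn x
    rw [hGdef]
    exact av_mono fun y => prod_le_prod (fun j _ => (hf0 n hn _).1) fun j _ => (hf0 n hn _).2
  have hR2 := hmom b hb1 hbT w hw02 M ((le_max_right _ _).trans hM0) N hN2 0 P e hpf {x // x ∈ F} f htJ hf v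
    (fun q => hv' b q)
  have hkey := MainF_avg S G hg0 c1 N hc1p (by
      rw [hc1]
      calc cR * (d ^ 2 / 16 / T) * N = (d ^ 2 / 16 / T * N) * cR := by ring
        _ ≤ (S.card : ℝ) * cR := mul_le_mul_of_nonneg_right hScard hcR.le
        _ = ∑ _n ∈ S, cR := by rw [sum_const, nsmul_eq_mul]
        _ ≤ ∑ n ∈ S, av (G n) := by
            refine sum_le_sum fun n hn => ?_
            rw [hS, mem_filter] at hn
            refine hn.2.trans (le_of_eq ?_)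
            rw [hGdef]
            exact av_comm _) (by
      calc ∑ n ∈ S, av (fun x => G n x ^ 2)
          ≤ ∑ n ∈ S, av (fun x : Fin (k + 2) → Cd P → Fin H =>
            (av (fun y : GP P M => ∏ j, nuF f e P M w (Rt t1 N) n (y + b • psi j (ce (EM k w M H v) x)))) ^ 2) :=
            sum_le_sum fun n hn => av_mono fun x =>
              pow_le_pow_left₀ (hg0 n hn x) (hgle n hn x) 2
        _ ≤ ∑ n ∈ Ico N (2 * N), av (fun x : Fin (k + 2) → Cd P → Fin H =>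
            (av (fun y : GP P M => ∏ j, nuF f e P M w (Rt t1 N) n (y + b • psi j (ce (EM k w M H v) x)))) ^ 2) :=
            sum_le_sum_of_subset_of_nonneg (hSG.trans hGI) fun n _ _ =>
              av_nonneg fun x => sq_nonneg _
        _ ≤ 2 * N := hR2)
  obtain ⟨x, hx, -⟩ := hkey
  have hgv : ∏ q : Cd P, q.1 ^ v q = 1 := by
    rw [hvdef]
    exact prod_eq_one fun q _ => pow_zero _
  have hne2 : ∃ p ∈ P, p ≤ w := by
    by_cases h : (2 : ℕ) = e
    · exact ⟨3, hPmost 3 Nat.prime_three hw3 (by omega), hw3⟩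
    · exact ⟨2, hPmost 2 Nat.prime_two (by omega) h, by omega⟩
  have hs2 := sM_two w hPp hne2 x
  have hEq : ∀ q : Cd P, b * (v q + (k + 2) * H) ≤ E := fun q => by
    rw [hE, hvdef]
    exact Nat.mul_le_mul hbT (by simp)
  have hlogb : ∀ b0 : ℕ, 1 ≤ b0 → (b0 : ℝ) ≤ Real.exp (M * ∑ p ∈ P, Real.log p) →
      Real.log b0 ≤ Real.log (Real.log N) ^ (2 + ε) := by
    intro b0 hb0 hb1
    have h2 : (0 : ℝ) < (b0 : ℝ) := by exact_mod_cast hb0
    have h3 := Real.log_le_log h2 hb1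
    rw [Real.log_exp] at h3
    exact h3.trans hMs
  refine ⟨S0.map (Function.Embedding.subtype _), ?_, by rw [card_map, hS0c], sM w x ^ b, ?_, ?_, ?_⟩
  · intro h hh
    rw [mem_map] at hh
    obtain ⟨y, -, rfl⟩ := hh
    exact y.2
  · calc 2 ≤ sM w x := hs2
      _ = sM w x ^ 1 := (pow_one _).symm
      _ ≤ sM w x ^ b := Nat.pow_le_pow_right (by omega) hb1
  · have h1 := sM_le w hPp x
    have h2 : (0 : ℝ) < (sM w x : ℝ) := by exact_mod_cast (by omega : 0 < sM w x)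
    have h2' : (1 : ℝ) ≤ (sM w x : ℝ) := by exact_mod_cast (by omega : 1 ≤ sM w x)
    have h3 := Real.log_le_log h2 h1
    rw [Real.log_exp] at h3
    have h4 : Real.log (sM w x : ℝ) ≤
        2 * ((k + 2) * H) * (C' * Real.log (Real.log N) * Real.log (Real.log (Real.log N))) := by
      refine h3.trans ?_
      calc 2 * (w : ℝ) * ((k + 2) * H) = 2 * ((k + 2) * H) * w := by ring
        _ ≤ 2 * ((k + 2) * H) * (C' * Real.log (Real.log N) * Real.log (Real.log (Real.log N))) :=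
            mul_le_mul_of_nonneg_left hwC (by positivity)
    have h5 : 0 ≤ Real.log (sM w x : ℝ) := Real.log_nonneg h2'
    have h6 : (b : ℝ) ≤ T := by exact_mod_cast hbT
    rw [Nat.cast_pow, Real.log_pow]
    calc (b : ℝ) * Real.log (sM w x) ≤ T * (2 * ((k + 2) * H) *
          (C' * Real.log (Real.log N) * Real.log (Real.log (Real.log N)))) :=
          mul_le_mul h6 h4 h5 hT0.le
      _ = T * (2 * ((k + 2) * H) * C') * Real.log (Real.log N) * Real.log (Real.log (Real.log N)) := by ring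
  · refine hx.trans ?_
    norm_cast
    refine card_le_card fun n hn => ?_
    rw [mem_filter] at hn
    rw [mem_filter]
    refine ⟨hGI (hSG hn.1), ?_⟩
    have hpos := hn.2
    rw [hGdef] at hpos
    obtain ⟨b0, hm1, hm2, hm3⟩ := extractF f e S0 k w M H P hPp v E b n (Rt t1 N) hb1 hEq x hpos
    refine ⟨b0, hm1, hlogb b0 hm1 hm2, ?_⟩
    intro h hh j hj
    rw [mem_map] at hh
    obtain ⟨y, hy, rfl⟩ := hh
    have h1 := hm3 y hy j hj
    rw [hgv, one_mul, hfdef] at h1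
    exact h1

end Pool.CP
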