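import Pool.Agent.Lib.MP_c77da8_nt.Sv6

/-!
# CP-Mp: the Mertens product

PROOF.  The primes dividing `2^i M0 u` are the primes `≤ 2^u` (`M0 u = primorial (2^u)`, `2 ≤ 2^u`), so
`φ(2^i M0)/(2^i M0) = ∏_{p ≤ 2^u} (1 - 1/p)` (`Nat.totient_eq_mul_prod_factors`).  The primes of the blocks are the
primes in `(2^u, 2^(u 2^t)]` (`mem_blk`, `exists_blk`, disjoint: `blk_disj`, `Finset.prod_biUnion`), so the claim is
`u 2^t log 2 ∏_{p ≤ 2^(u 2^t)} (1 - 1/p) ≤ 1`, i.e. `log z ≤ ∏_{p ≤ z} (1 - 1/p)⁻¹`, `z = 2^(u 2^t)`: `∏ ≥ ∑_{n ≤ z} 1/n ≥ log (z+1)`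
(Mathlib `log_add_one_le_harmonic`; for the product grep the library for an existing lemma
(`Pool/Agent/Lib/BV`, `MP_a51fee_ag/SG/NMert`, `MP_dd84fd_nt`), or Mathlib `EulerProduct.summable_and_hasSum_smoothNumbers_prod_primesBelow_...`,
or by hand by induction over the set of primes).
-/

set_option autoImplicit false

namespace Pool.CP

open Finset Pool.Agent.Lib.MP_c77da8_nt.Sv

theorem mert_prod (u t i : ℕ) (hu : 1 ≤ u) :
    ((u * 2 ^ t : ℕ) : ℝ) * Real.log 2 *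
      (((Nat.totient (2 ^ i * M0 u) : ℕ) : ℝ) / ((2 ^ i * M0 u : ℕ) : ℝ)) ≤
      (∏ j, ∏ q ∈ blk u t j, (1 - 1 / (q : ℝ)))⁻¹ := by
  classical
  have h2u : 2 ≤ 2 ^ u := by
    calc 2 = 2 ^ 1 := by norm_num
      _ ≤ 2 ^ u := Nat.pow_le_pow_right (by norm_num) hu
  have hn0 : 2 ^ i * M0 u ≠ 0 := mul_ne_zero (pow_ne_zero _ (by norm_num)) (M0_pos u).ne'
  have hz : 2 ^ u ≤ 2 ^ (u * 2 ^ t) := Nat.pow_le_pow_right (by norm_num) (Nat.le_mul_of_pos_right u (by positivity))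
  -- the prime factors
  have hpf : (2 ^ i * M0 u).primeFactors = Nat.primesLE (2 ^ u) := by
    ext p
    rw [Nat.mem_primeFactors, Nat.mem_primesLE]
    constructor
    · rintro ⟨hp, hd, _⟩
      refine ⟨?_, hp⟩
      rcases (Nat.Prime.dvd_mul hp).1 hd with h | h
      · have h3 := (Nat.prime_dvd_prime_iff_eq hp Nat.prime_two).1 (hp.dvd_of_dvd_pow h)
        rw [h3]
        exact h2u
      · exact prime_dvd_M0 hp h
    · rintro ⟨h1, hp⟩
      exact ⟨hp, (dvd_M0 hp h1).mul_left _, hn0⟩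
  have hphi : (((Nat.totient (2 ^ i * M0 u) : ℕ) : ℝ) / ((2 ^ i * M0 u : ℕ) : ℝ)) =
      ∏ p ∈ Nat.primesLE (2 ^ u), (1 - 1 / (p : ℝ)) := by
    have h1 := Nat.totient_eq_mul_prod_factors (2 ^ i * M0 u)
    have h2 : ((Nat.totient (2 ^ i * M0 u) : ℕ) : ℝ) =
        ((2 ^ i * M0 u : ℕ) : ℝ) * ∏ p ∈ (2 ^ i * M0 u).primeFactors, (1 - ((p : ℝ))⁻¹) := by
      have h3 := congrArg (fun x : ℚ => (x : ℝ)) h1
      push_cast at h3 ⊢
      exact h3
    rw [h2, hpf, mul_div_cancel_left₀ _ (by exact_mod_cast hn0)]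
    refine Finset.prod_congr rfl fun p _ => ?_
    rw [one_div]
  -- the primes up to `2^(u 2^t)`
  have hset : (2 ^ (u * 2 ^ t) + 1).primesBelow = Nat.primesLE (2 ^ u) ∪ univ.biUnion (fun j : Fin t => blk u t j) := by
    ext p
    rw [Nat.mem_primesBelow, mem_union, Nat.mem_primesLE, mem_biUnion]
    constructor
    · rintro ⟨h1, hp⟩
      by_cases h : p ≤ 2 ^ u
      · exact Or.inl ⟨h, hp⟩
      · obtain ⟨j, hj⟩ := exists_blk hp (not_le.1 h) (Nat.lt_succ_iff.1 h1)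
        exact Or.inr ⟨j, mem_univ _, hj⟩
    · rintro (⟨h1, hp⟩ | ⟨j, _, hj⟩)
      · exact ⟨Nat.lt_succ_of_le (h1.trans hz), hp⟩
      · exact ⟨Nat.lt_succ_of_le (blk_le hj), (mem_blk.1 hj).1⟩
  have hdisj : Disjoint (Nat.primesLE (2 ^ u)) (univ.biUnion (fun j : Fin t => blk u t j)) := by
    rw [Finset.disjoint_left]
    intro p hp hq
    rw [Nat.mem_primesLE] at hp
    obtain ⟨j, _, hj⟩ := mem_biUnion.1 hq
    have := blk_gt hj
    omega
  have hlog := Pool.Agent.Lib.MP_c77da8_nt.Mert.log_le_prod (2 ^ (u * 2 ^ t) + 1) (by omega)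
  rw [hset, Finset.prod_union hdisj, Finset.prod_biUnion (fun a _ b _ hab => blk_disj u t a b hab)] at hlog
  have hA : (0 : ℝ) < ∏ p ∈ Nat.primesLE (2 ^ u), (1 - 1 / (p : ℝ)) := by
    refine Finset.prod_pos fun p hp => ?_
    have h1 : (2 : ℝ) ≤ p := by exact_mod_cast ((Nat.mem_primesLE.1 hp).2).two_le
    have h2 : 1 / (p : ℝ) < 1 := by
      rw [div_lt_one (by linarith)]
      linarith
    linarith
  have h3 : ((u * 2 ^ t : ℕ) : ℝ) * Real.log 2 ≤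
      (∏ p ∈ Nat.primesLE (2 ^ u), (1 - 1 / (p : ℝ)))⁻¹ * (∏ j, ∏ q ∈ blk u t j, (1 - 1 / (q : ℝ)))⁻¹ := by
    rw [← Finset.prod_inv_distrib, ← Finset.prod_inv_distrib]
    have h4 : ((u * 2 ^ t : ℕ) : ℝ) * Real.log 2 ≤ Real.log ((2 ^ (u * 2 ^ t) + 1 : ℕ) : ℝ) := by
      rw [← Real.log_pow]
      refine Real.log_le_log (by positivity) ?_
      push_cast
      linarith
    refine h4.trans (hlog.trans (le_of_eq ?_))
    congr 1
    · refine Finset.prod_congr rfl fun p _ => ?_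
      rw [one_div]
    · refine Finset.prod_congr rfl fun j _ => ?_
      rw [← Finset.prod_inv_distrib]
      refine Finset.prod_congr rfl fun p _ => ?_
      rw [one_div]
  rw [hphi]
  calc ((u * 2 ^ t : ℕ) : ℝ) * Real.log 2 * ∏ p ∈ Nat.primesLE (2 ^ u), (1 - 1 / (p : ℝ))
      ≤ ((∏ p ∈ Nat.primesLE (2 ^ u), (1 - 1 / (p : ℝ)))⁻¹ * (∏ j, ∏ q ∈ blk u t j, (1 - 1 / (q : ℝ)))⁻¹) *
        ∏ p ∈ Nat.primesLE (2 ^ u), (1 - 1 / (p : ℝ)) := mul_le_mul_of_nonneg_right h3 hA.le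
    _ = (∏ j, ∏ q ∈ blk u t j, (1 - 1 / (q : ℝ)))⁻¹ := by
      field_simp

end Pool.CP
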