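import Pool.Agent.Lib.MP_c77da8_nt.CP.Defs

/-!
# CP-QeB: the set `Qe w R e`
-/

set_option autoImplicit false

namespace Pool.CP

open Finset Pool.DL

theorem mem_Qe (w R e p : ℕ) : p ∈ Qe w R e ↔ p.Prime ∧ w < p ∧ p ≤ R ∧ p ≠ e := by
  unfold Qe Pool.CG.Pr
  rw [mem_erase, mem_filter, mem_Icc]
  constructor
  · rintro ⟨h1, ⟨h2, h3⟩, h4, h5⟩
    exact ⟨h4, h5, h3, h1⟩
  · rintro ⟨h1, h2, h3, h4⟩
    exact ⟨h4, ⟨h1.one_le, h3⟩, h1, h2⟩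

end Pool.CP
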