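import Pool.Agent.Lib.MP_c77da8_nt.CP.SysF

/-!
# CP-SqF: the mean square of the inner average, averaged over `n`

The sample space has an outer part (`y`, and `α_q ∈ Λo`) and an inner part `β_q ∈ Λi`.
PROOF (compare `CL/SqSys.lean`).  `A_n(y, α) = av_β ∏_i ν_n(pt_i)`; `(A_n - 1)² = A_n² - 2 A_n + 1`.  The average of `A_n` over `(y, α)` is the average over
`OmM P M (Λo × Λi)` of `∏_i ν_n (ptM w (fun a => φ i a.1 a.2) (o i) ω)` (`av_prod`, `av_equiv`: `(Cd P → Λo) × (Cd P → Λi) ≃ (Cd P → Λo × Λi)`, e.g.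
`Equiv.arrowProdEquivProdArrow`); the average of `A_n²` is the average over `OmM P M (Λo × Λi × Λi)` of the product over `I × Bool` with
`φ' (i, γ) (a, b, b') = φ i a (if γ then b' else b)`.  `lf_sysM` with `η` for both (`card I ≤ t`, `2 card I ≤ t`), the sum over `n` exchanged with the
averages: `(1/N) ∑_n av (A_n - 1)² ≤ (1 + η) - 2 (1 - η) + 1 = 3 η`.
The condition of `lf_sysM` for the pairs `(i, γ) ≠ (j, γ')`: `γ = γ'` (so `i ≠ j`): `h1`, with one more free variable; `γ ≠ γ'`: `h2`, up to the order of `b, b'`.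
-/

set_option autoImplicit false

namespace Pool.CP

open Finset Pool.CG Pool.CL Pool.CM

private def sqm_e1 (Z A B C : Type) : (Z × (C → A)) × (C → B) ≃ Z × (C → A × B) where
  toFun x := (x.1.1, fun q => (x.1.2 q, x.2 q))
  invFun x := ((x.1, fun q => (x.2 q).1), fun q => (x.2 q).2)
  left_inv _ := rfl
  right_inv _ := rfl

private def sqm_e2 (Z A B C : Type) : (Z × (C → A)) × ((C → B) × (C → B)) ≃ Z × (C → A × B × B) where
  toFun x := (x.1.1, fun q => (x.1.2 q, x.2.1 q, x.2.2 q))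
  invFun x := ((x.1, fun q => (x.2 q).1), (fun q => (x.2 q).2.1, fun q => (x.2 q).2.2))
  left_inv _ := rfl
  right_inv _ := rfl

private theorem sqm_e1_apply (Z A B C : Type) (x : (Z × (C → A)) × (C → B)) :
    sqm_e1 Z A B C x = (x.1.1, fun q => (x.1.2 q, x.2 q)) := rfl

private theorem sqm_e2_apply (Z A B C : Type) (x : (Z × (C → A)) × ((C → B) × (C → B))) :
    sqm_e2 Z A B C x = (x.1.1, fun q => (x.1.2 q, x.2.1 q, x.2.2 q)) := rfl

private theorem sqm_pt {P : Finset ℕ} {M : ℕ} {A B : Type} (w : ℕ) (φ : A → B → ℤ) (o : Cd P → ℤ)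
    (x : GP P M) (α : Cd P → A) (β β' : Cd P → B) (γ : Bool) :
    ptM w (fun a : A × B × B => φ a.1 (if γ then a.2.2 else a.2.1)) o (x, fun q => (α q, β q, β' q)) =
      ptM w (fun a : A × B => φ a.1 a.2) o (x, fun q => (α q, if γ then β' q else β q)) := by
  funext q
  unfold ptM
  cases γ <;> simp

private theorem sqm_card1 {A B : Type} [Fintype A] [Fintype B] (p : A → B → Prop)
    [∀ a b, Decidable (p a b)] :
    (univ.filter fun a : A × B × B => p a.1 a.2.1).card =
      (univ.filter fun a : A × B => p a.1 a.2).card * Fintype.card B := by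
  rw [card_filter, card_filter, sum_mul, Fintype.sum_prod_type, Fintype.sum_prod_type]
  refine sum_congr rfl fun a _ => ?_
  rw [Fintype.sum_prod_type]
  refine sum_congr rfl fun b _ => ?_
  by_cases hp : p a b
  · simp [hp]
  · simp [hp]

private theorem sqm_card2 {A B : Type} [Fintype A] [Fintype B] (p : A → B → Prop)
    [∀ a b, Decidable (p a b)] :
    (univ.filter fun a : A × B × B => p a.1 a.2.2).card =
      (univ.filter fun a : A × B => p a.1 a.2).card * Fintype.card B := by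
  rw [card_filter, card_filter, sum_mul, Fintype.sum_prod_type, Fintype.sum_prod_type]
  refine sum_congr rfl fun a _ => ?_
  rw [Fintype.sum_prod_type, sum_comm]
  refine sum_congr rfl fun b _ => ?_
  by_cases hp : p a b
  · simp [hp]
  · simp [hp]

private theorem sqm_sq {Ω : Type} [Fintype Ω] (F : Ω → ℝ) :
    av F ^ 2 = av (fun z : Ω × Ω => F z.1 * F z.2) := by
  rw [av_prod, sq]
  have h : ∀ x, av (fun y => F x * F y) = F x * av F := fun x => av_const_mul (F x) F
  simp only [h]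
  rw [av_mul_const]

/-- the first moment and the second moment give the mean square -/
private theorem sqm_alg {Y B : Type} [Fintype Y] [Nonempty Y] [Fintype B] (N : ℕ) (hN : 1 ≤ N) (η : ℝ)
    (F : ℕ → Y → B → ℝ)
    (h1 : |av (fun z : Y × B => (∑ n ∈ Ico N (2 * N), F n z.1 z.2) / N) - 1| ≤ η)
    (h2 : |av (fun z : Y × (B × B) => (∑ n ∈ Ico N (2 * N), F n z.1 z.2.1 * F n z.1 z.2.2) / N) - 1| ≤ η) :
    ∑ n ∈ Ico N (2 * N), av (fun y : Y => (av (fun β : B => F n y β) - 1) ^ 2) ≤ 3 * η * N := by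
  have hN0 : (0 : ℝ) < N := by exact_mod_cast hN
  have e1 : ∑ n ∈ Ico N (2 * N), av (fun y : Y => av (fun β : B => F n y β)) =
      N * av (fun z : Y × B => (∑ n ∈ Ico N (2 * N), F n z.1 z.2) / N) := by
    have h3 : ∀ z : Y × B, (∑ n ∈ Ico N (2 * N), F n z.1 z.2) / N =
        (1 / N : ℝ) * ∑ n ∈ Ico N (2 * N), F n z.1 z.2 := fun z => by ring
    simp only [h3]
    rw [av_const_mul, av_sum, ← mul_assoc, mul_one_div, div_self hN0.ne', one_mul]
    refine sum_congr rfl fun n _ => ?_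
    rw [av_prod]
  have e2 : ∑ n ∈ Ico N (2 * N), av (fun y : Y => av (fun β : B => F n y β) ^ 2) =
      N * av (fun z : Y × (B × B) => (∑ n ∈ Ico N (2 * N), F n z.1 z.2.1 * F n z.1 z.2.2) / N) := by
    have h3 : ∀ z : Y × (B × B), (∑ n ∈ Ico N (2 * N), F n z.1 z.2.1 * F n z.1 z.2.2) / N =
        (1 / N : ℝ) * ∑ n ∈ Ico N (2 * N), F n z.1 z.2.1 * F n z.1 z.2.2 := fun z => by ring
    simp only [h3]
    rw [av_const_mul, av_sum, ← mul_assoc, mul_one_div, div_self hN0.ne', one_mul]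
    refine sum_congr rfl fun n _ => ?_
    rw [av_prod]
    refine av_congr fun y => ?_
    exact sqm_sq (fun β => F n y β)
  have e3 : ∀ n, av (fun y : Y => (av (fun β : B => F n y β) - 1) ^ 2) =
      av (fun y : Y => av (fun β : B => F n y β) ^ 2) - 2 * av (fun y : Y => av (fun β : B => F n y β)) + 1 := by
    intro n
    have h4 : ∀ y : Y, (av (fun β : B => F n y β) - 1) ^ 2 =
        (av (fun β : B => F n y β) ^ 2 - 2 * av (fun β : B => F n y β)) + 1 := fun y => by ring
    simp only [h4]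
    rw [av_add, av_const, av_sub, av_const_mul]
  rw [sum_congr rfl fun n _ => e3 n, sum_add_distrib, sum_sub_distrib, ← mul_sum, e1, e2]
  have h5 : ∑ n ∈ Ico N (2 * N), (1 : ℝ) = N := by
    rw [sum_const, Nat.card_Ico, nsmul_eq_mul, mul_one]
    congr 1
    omega
  rw [h5]
  have h6 := (abs_le.mp h1).1
  have h7 := (abs_le.mp h2).2
  nlinarith

theorem sq_genF (t t1 D : ℕ) (ht : 1 ≤ t) (ht1 : 1 ≤ t1) (ρ η : ℝ) (hρ : 0 < ρ) (hρ1 : ρ < 1) (hη : 0 < η) :
    ∃ w0 M0 N0 : ℕ, ∀ w ≥ w0, ∀ M ≥ M0, ∀ N ≥ N0, ∀ (V : ℕ) (P : Finset ℕ) (ex : ℕ) [NeZero M],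
      ParF t1 D V w M N ρ P ex → ∀ (J : Type) [Fintype J] [DecidableEq J] (f : J → ℕ), t * Fintype.card J ≤ t1 → FOK f w ex →
      ∀ (Λo Λi : Type) [Fintype Λo] [Nonempty Λo] [Fintype Λi] [Nonempty Λi] (I : Type) [Fintype I] [DecidableEq I],
      2 * Fintype.card I ≤ t →
      ∀ (φ : I → Λo → Λi → ℤ) (o : I → Cd P → ℤ), (∀ i a b, |φ i a b| ≤ (D : ℤ)) → (∀ i q, |o i q| ≤ (V : ℤ)) →
      (∀ i j, i ≠ j → ∀ v : ℤ, ((univ.filter fun a : Λo × Λi => φ i a.1 a.2 - φ j a.1 a.2 = v).card : ℝ) ≤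
        ρ * Fintype.card (Λo × Λi)) →
      (∀ i j, ∀ v : ℤ, ((univ.filter fun a : Λo × Λi × Λi => φ i a.1 a.2.1 - φ j a.1 a.2.2 = v).card : ℝ) ≤
        ρ * Fintype.card (Λo × Λi × Λi)) →
      ∑ n ∈ Ico N (2 * N), av (fun y : GP P M × (Cd P → Λo) => (av (fun β : Cd P → Λi =>
        ∏ i, nuF f ex P M w (Rt t1 N) n (ptM w (fun a : Λo × Λi => φ i a.1 a.2) (o i) (y.1, fun q => (y.2 q, β q)))) - 1) ^ 2) ≤
          3 * η * N := by
  obtain ⟨w0, M0, N0, h⟩ := lf_sysF t t1 D ht ht1 ρ η hρ hρ1 hη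
  refine ⟨w0, M0, max N0 1, ?_⟩
  intro w hw M hM N hN V P ex _ hPar J _ _ f hJ hf Λo Λi _ _ _ _ I _ _ hI φ o hφ ho hc1 hc2
  have hN0 : N0 ≤ N := (le_max_left _ _).trans hN
  have hN1 : 1 ≤ N := (le_max_right _ _).trans hN
  have k1 := h w hw M hM N hN0 V P ex hPar J f hJ hf (Λo × Λi) I (by omega) (fun i a => φ i a.1 a.2) o
    (fun i a => hφ i a.1 a.2) ho hc1
  have k2 := h w hw M hM N hN0 V P ex hPar J f hJ hf (Λo × Λi × Λi) (I × Bool)
    (by rw [Fintype.card_prod, Fintype.card_bool]; omega)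
    (fun i a => φ i.1 a.1 (if i.2 then a.2.2 else a.2.1)) (fun i => o i.1)
    (fun i a => hφ i.1 _ _) (fun i q => ho i.1 q) (by
      rintro ⟨i, γ⟩ ⟨j, γ'⟩ hij v
      have hcard : (Fintype.card (Λo × Λi × Λi) : ℝ) = Fintype.card (Λo × Λi) * Fintype.card Λi := by
        rw [Fintype.card_prod, Fintype.card_prod, Fintype.card_prod]
        push_cast
        ring
      cases γ <;> cases γ'
      · have hne : i ≠ j := fun h => hij (by rw [h])
        have h3 := hc1 i j hne v
        have h4 := sqm_card1 (A := Λo) (B := Λi) (fun a b => φ i a b - φ j a b = v)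
        simp only [Bool.false_eq_true, if_false]
        rw [h4, hcard]
        push_cast
        calc _ ≤ ρ * Fintype.card (Λo × Λi) * Fintype.card Λi := by gcongr
          _ = _ := by ring
      · simpa using hc2 i j v
      · have h3 := hc2 j i (-v)
        have h4 : (univ.filter fun a : Λo × Λi × Λi => φ i a.1 a.2.2 - φ j a.1 a.2.1 = v) =
            (univ.filter fun a : Λo × Λi × Λi => φ j a.1 a.2.1 - φ i a.1 a.2.2 = -v) := by
          refine filter_congr fun a _ => ?_
          constructor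
          · intro h5
            rw [← h5]
            ring
          · intro h5
            linarith
        simp only [Bool.false_eq_true, if_false, if_true]
        rw [h4]
        exact h3
      · have hne : i ≠ j := fun h => hij (by rw [h])
        have h3 := hc1 i j hne v
        have h4 := sqm_card2 (A := Λo) (B := Λi) (fun a b => φ i a b - φ j a b = v)
        simp only [if_true]
        rw [h4, hcard]
        push_cast
        calc _ ≤ ρ * Fintype.card (Λo × Λi) * Fintype.card Λi := by gcongr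
          _ = _ := by ring)
  rw [← av_equiv (sqm_e1 (GP P M) Λo Λi (Cd P))] at k1
  rw [← av_equiv (sqm_e2 (GP P M) Λo Λi (Cd P))] at k2
  simp only [sqm_e1_apply] at k1
  simp only [sqm_e2_apply, Fintype.prod_prod_type, Fintype.prod_bool, sqm_pt, prod_mul_distrib] at k2
  simp only [Bool.false_eq_true, if_false, if_true] at k2
  have k3 := sqm_alg (Y := GP P M × (Cd P → Λo)) (B := Cd P → Λi) N hN1 η
    (fun n y β => ∏ i, nuF f ex P M w (Rt t1 N) n
      (ptM w (fun a : Λo × Λi => φ i a.1 a.2) (o i) (y.1, fun q => (y.2 q, β q)))) k1 ?_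
  · exact k3
  refine le_of_eq_of_le (congrArg (fun x : ℝ => |x - 1|) (av_congr fun z => ?_)) k2
  exact congrArg (fun x : ℝ => x / (N : ℝ)) (sum_congr rfl fun n _ => mul_comm _ _)

end Pool.CP
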