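import Pool.Agent.Lib.MP_c77da8_nt.CP.SumsF

/-!
# CP-SumsE: the sums `V` for the set `Qe w R e`, lower bound; the multiplier

`Pool.DL.Ps w R` and `Pool.CG.Pr w R` are the same set; `Qe w R e` is this set without `e` (`mem_Qe`).
PROOF.  `V_lowe`: as `V_low`; `e`, if it is a prime `> w`, is put with the primes `≤ w`, at the cost of a factor `(1 - 1/e)⁻¹ ≤ 2`.  `sqe`: `sq_sum` (`DL/VLow.lean`; a smaller set).
`totA`: as `tot_wD` (`DL/VLow.lean`): the prime factors of `A` are the primes `≤ w` but for `e`; if `e` is a prime `≤ w` the quotient `A/φ(A)` is `(1 - 1/e) wD w ≥ wD w/2`, otherwise it is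
`wD w`.
-/

set_option autoImplicit false

namespace Pool.CP

open Finset Pool.DL

theorem V_lowe (w R e x : ℕ) (hw : 12 ≤ w) (hx : 1 ≤ x) (hR : x ≤ R) :
    Real.log x / (2 * wD w) ≤ VV (vr (Qe w R e)) (qr (Qe w R e)) x ∅ := by
  have hwp : 0 < wD w := lt_of_lt_of_le one_pos (wD_ge w)
  have hV : VV (vr (Qe w R e)) (qr (Qe w R e)) x ∅ =
      vlV (vr (Qe w R e)) (xx (qr (Qe w R e))) univ x := by
    unfold VV vlV
    rw [sum_filter, powerset_univ]
    apply sum_congr rfl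
    intro b _
    simp
  rw [hV, div_le_iff₀ (by linarith)]
  have hbig : vlF (univ.image (vr (Qe w R e))) x ≤ vlV (vr (Qe w R e)) (xx (qr (Qe w R e))) univ x := by
    apply vlF_big
    · intro p
      exact ((mem_Qe w R e p.1).1 p.2).1
    · intro p
      have h := ((mem_Qe w R e p.1).1 p.2).2.1
      unfold xx qr vr
      have h1 : (13 : ℝ) ≤ (p.1 : ℝ) := by
        have : 13 ≤ p.1 := by omega
        exact_mod_cast this
      apply one_div_le_one_div_of_le <;> linarith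
  have hV0 : 0 ≤ vlF (univ.image (vr (Qe w R e))) x := vlF_nonneg _ _
  -- the set of the other primes
  obtain ⟨T, hTp, hTc, hTm⟩ : ∃ T : Finset ℕ, (∀ p ∈ T, p.Prime) ∧
      (∏ p ∈ T, (1 - 1 / (p : ℝ))⁻¹) ≤ 2 * wD w ∧
      (∀ q : ℕ, q.Prime → (q ≤ w ∨ q = e) → q ∈ T) := by
    by_cases he : e.Prime ∧ w < e
    · refine ⟨insert e ((Icc 1 w).filter Nat.Prime), ?_, ?_, ?_⟩
      · intro p hp
        rcases mem_insert.1 hp with h | h
        · rw [h]
          exact he.1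
        · exact (mem_filter.1 h).2
      · have hne : e ∉ (Icc 1 w).filter Nat.Prime := by
          intro h
          rw [mem_filter, mem_Icc] at h
          omega
        rw [prod_insert hne]
        have h1 : (∏ p ∈ (Icc 1 w).filter Nat.Prime, (1 - 1 / (p : ℝ))⁻¹) = wD w := rfl
        rw [h1]
        apply mul_le_mul_of_nonneg_right _ hwp.le
        have he2 : (2 : ℝ) ≤ e := by exact_mod_cast he.1.two_le
        have h3 : (1 : ℝ) / e ≤ 1 / 2 := by
          apply one_div_le_one_div_of_le <;> linarith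
        rw [inv_le_comm₀ (by linarith) (by norm_num)]
        linarith
      · intro q hq hqe
        rcases hqe with h | h
        · apply mem_insert_of_mem
          rw [mem_filter, mem_Icc]
          exact ⟨⟨hq.one_le, h⟩, hq⟩
        · rw [h]
          exact mem_insert_self _ _
    · refine ⟨(Icc 1 w).filter Nat.Prime, ?_, ?_, ?_⟩
      · intro p hp
        exact (mem_filter.1 hp).2
      · have h1 : (∏ p ∈ (Icc 1 w).filter Nat.Prime, (1 - 1 / (p : ℝ))⁻¹) = wD w := rfl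
        rw [h1]
        linarith
      · intro q hq hqe
        rw [mem_filter, mem_Icc]
        refine ⟨⟨hq.one_le, ?_⟩, hq⟩
        rcases hqe with h | h
        · exact h
        · by_contra hlt
          apply he
          rw [← h]
          exact ⟨hq, by omega⟩
  have hun := vlF_union (univ.image (vr (Qe w R e))) T hTp x
  have hall : vlF (T ∪ univ.image (vr (Qe w R e))) x = ∑ n ∈ Icc 1 x, (1 : ℝ) / n := by
    unfold vlF
    rw [filter_true_of_mem]
    intro n hn q hq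
    rw [mem_Icc] at hn
    have hqp := Nat.prime_of_mem_primeFactors hq
    have hqx : q ≤ x := (Nat.le_of_dvd (by omega) (Nat.dvd_of_mem_primeFactors hq)).trans hn.2
    rw [mem_union]
    by_cases h : q ≤ w ∨ q = e
    · left
      exact hTm q hqp h
    · right
      push Not at h
      rw [mem_image]
      have hq' : q ∈ Qe w R e := (mem_Qe w R e q).2 ⟨hqp, h.1, hqx.trans hR, h.2⟩
      exact ⟨⟨q, hq'⟩, mem_univ _, rfl⟩
  have hlog : Real.log x ≤ ∑ n ∈ Icc 1 x, (1 : ℝ) / n := by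
    have h1 := log_add_one_le_harmonic x
    have h2 : ((harmonic x : ℚ) : ℝ) = ∑ n ∈ Icc 1 x, (1 : ℝ) / n := by
      rw [harmonic_eq_sum_Icc]
      push_cast
      apply sum_congr rfl
      intro n _
      rw [one_div]
    rw [← h2]
    refine le_trans ?_ h1
    apply Real.log_le_log
    · exact_mod_cast hx
    · push_cast
      linarith
  rw [hall] at hun
  calc Real.log x ≤ (∏ p ∈ T, (1 - 1 / (p : ℝ))⁻¹) * vlF (univ.image (vr (Qe w R e))) x :=
        hlog.trans hun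
    _ ≤ (2 * wD w) * vlF (univ.image (vr (Qe w R e))) x := mul_le_mul_of_nonneg_right hTc hV0
    _ ≤ (2 * wD w) * vlV (vr (Qe w R e)) (xx (qr (Qe w R e))) univ x :=
        mul_le_mul_of_nonneg_left hbig (by linarith)
    _ = _ := mul_comm _ _

theorem sqe (w R e : ℕ) (hw : 12 ≤ w) : ∑ p : {p // p ∈ Qe w R e}, xx (qr (Qe w R e)) p ^ 2 ≤ 2 / (w : ℝ) := by
  have hD' : (12 : ℝ) ≤ w := by exact_mod_cast hw
  have h1 : ∑ p : {p // p ∈ Qe w R e}, xx (qr (Qe w R e)) p ^ 2 =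
      ∑ n ∈ Qe w R e, (1 / ((n : ℝ) - 2)) ^ 2 := by
    unfold xx qr
    rw [← Finset.sum_coe_sort (Qe w R e) (fun n => (1 / ((n : ℝ) - 2)) ^ 2)]
  rw [h1]
  have h2 : Qe w R e ⊆ Ico (w + 1) (w + 1 + R) := by
    intro n hn
    rw [mem_Qe] at hn
    rw [mem_Ico]
    omega
  refine (sum_le_sum_of_subset_of_nonneg h2 fun n _ _ => by positivity).trans ?_
  refine (vl_tele w R hw).trans ?_
  have h3 : (0 : ℝ) ≤ 1 / ((w : ℝ) - 2 + R) := by
    apply one_div_nonneg.2
    have : (0 : ℝ) ≤ R := Nat.cast_nonneg R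
    linarith
  have h4 : 1 / ((w : ℝ) - 2) ≤ 2 / (w : ℝ) := by
    rw [div_le_div_iff₀ (by linarith) (by linarith)]
    linarith
  linarith

theorem wD_one (w : ℕ) : 1 ≤ wD w := wD_ge w

theorem totA (w e A : ℕ) (hA : MulOK w e A) :
    wD w / 2 ≤ (A : ℝ) / (Nat.totient A : ℝ) ∧ (A : ℝ) / (Nat.totient A : ℝ) ≤ wD w := by
  have hwp : 0 < wD w := lt_of_lt_of_le one_pos (wD_ge w)
  have hA0 : A ≠ 0 := by
    have := hA.pos
    omega
  have hA0' : (0 : ℝ) < A := by
    have := hA.pos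
    exact_mod_cast this
  set P : Finset ℕ := (Icc 1 w).filter Nat.Prime with hP
  have h1 : A.primeFactors = P.erase e := by
    ext p
    rw [Nat.mem_primeFactors, mem_erase, hP, mem_filter, mem_Icc]
    constructor
    · rintro ⟨hp, hd, _⟩
      have h := (hA.small p hp).1 hd
      exact ⟨h.2, ⟨hp.one_le, h.1⟩, hp⟩
    · rintro ⟨h0, ⟨_, h⟩, hp⟩
      exact ⟨hp, (hA.small p hp).2 ⟨h, h0⟩, hA0⟩
  have h2 := Nat.totient_eq_mul_prod_factors A
  rw [h1] at h2
  have h3 : (Nat.totient A : ℝ) = (A : ℝ) * ∏ p ∈ P.erase e, (1 - (p : ℝ)⁻¹) := by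
    have := congrArg (fun q : ℚ => (q : ℝ)) h2
    push_cast at this
    exact this
  have hpos : ∀ p ∈ P, (0 : ℝ) < 1 - (p : ℝ)⁻¹ := by
    intro p hp
    have hp2 : (2 : ℝ) ≤ p := by exact_mod_cast (mem_filter.1 hp).2.two_le
    have h5 : (p : ℝ)⁻¹ ≤ 2⁻¹ := inv_anti₀ (by norm_num) hp2
    norm_num at h5
    linarith
  have h4 : (A : ℝ) / (Nat.totient A : ℝ) = ∏ p ∈ P.erase e, (1 - (p : ℝ)⁻¹)⁻¹ := by
    rw [h3, prod_inv_distrib]
    have hprod : (0 : ℝ) < ∏ p ∈ P.erase e, (1 - (p : ℝ)⁻¹) :=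
      prod_pos fun p hp => hpos p (mem_of_mem_erase hp)
    field_simp
  have hwd : wD w = ∏ p ∈ P, (1 - (p : ℝ)⁻¹)⁻¹ := by
    unfold wD
    apply prod_congr rfl
    intro p _
    rw [one_div]
  rw [h4]
  by_cases he : e ∈ P
  · have h5 : (1 - (e : ℝ)⁻¹)⁻¹ * ∏ p ∈ P.erase e, (1 - (p : ℝ)⁻¹)⁻¹ = wD w := by
      rw [hwd]
      exact mul_prod_erase P (fun p : ℕ => (1 - (p : ℝ)⁻¹)⁻¹) he
    have he0 := hpos e he
    have he2 : (2 : ℝ) ≤ e := by exact_mod_cast (mem_filter.1 he).2.two_le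
    have h6 : (e : ℝ)⁻¹ ≤ 2⁻¹ := inv_anti₀ (by norm_num) he2
    norm_num at h6
    have h7 : (0 : ℝ) < (e : ℝ)⁻¹ := by positivity
    have h8 : ∏ p ∈ P.erase e, (1 - (p : ℝ)⁻¹)⁻¹ = (1 - (e : ℝ)⁻¹) * wD w := by
      rw [← h5, ← mul_assoc, mul_inv_cancel₀ he0.ne', one_mul]
    rw [h8]
    constructor
    · nlinarith
    · nlinarith
  · rw [erase_eq_of_notMem he, ← hwd]
    exact ⟨by linarith, le_rfl⟩

end Pool.CP
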