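import Pool.Agent.Lib.MP_c77da8_nt.CP.QeB
import Pool.Agent.Lib.MP_c77da8_nt.DL.VLow
import Pool.Agent.Lib.MP_c77da8_nt.DL.VUp

/-!
# CP-SumsF: upper bounds for the sums `V` for the set `Qe w R e`

`Pool.DL.Ps w R` and `Pool.CG.Pr w R` are the same set (`rfl` or `unfold`); `Qe w R e` is this set without `e` (`mem_Qe`).
PROOF.  `V_upe`: a set of elements of `Qe w R e` is a set of elements of `Ps w R` (map by the inclusion, injective; the values `vr`, `vs` and `xx` agree; all terms `≥ 0`), so both sums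
are at most those of `V_up`.  `wD_le`: `V_low` and `V_up` compare: `log x/wD w ≤ V_(Ps w x)(x)`; better: `wD w = ∏_(p ≤ w) (1 - 1/p)⁻¹ ≤ C log w` by `Pool.SG.mert_prod` (see the
use of it in `DL/VUp.lean`).
-/

set_option autoImplicit false

namespace Pool.CP

open Finset Pool.DL

private theorem sumsF_Ps (w R p : ℕ) : p ∈ Ps w R ↔ p.Prime ∧ w < p ∧ p ≤ R := by
  unfold Ps
  rw [mem_filter, mem_Icc]
  constructor
  · rintro ⟨⟨_, h1⟩, h2, h3⟩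
    exact ⟨h2, h3, h1⟩
  · rintro ⟨h1, h2, h3⟩
    exact ⟨⟨h1.one_lt.le, h3⟩, h1, h2⟩

private theorem sumsF_sub (w R e : ℕ) : Qe w R e ⊆ Ps w R := by
  intro p hp
  rw [mem_Qe] at hp
  rw [sumsF_Ps]
  exact ⟨hp.1, hp.2.1, hp.2.2.1⟩

private theorem sumsF_VV (Q Q' : Finset ℕ) (h : Q ⊆ Q') (h0 : ∀ p ∈ Q', (12 : ℝ) ≤ (p : ℝ)) (x : ℕ) :
    VV (vr Q) (qr Q) x ∅ ≤ VV (vr Q') (qr Q') x ∅ := by
  classical
  let f : {p // p ∈ Q} ↪ {p // p ∈ Q'} := ⟨fun p => ⟨p.1, h p.2⟩, fun a b hab => by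
    have := congrArg Subtype.val hab
    exact Subtype.ext this⟩
  unfold VV
  have h1 : ∀ b : Finset {p // p ∈ Q}, ∏ p ∈ b, xx (qr Q) p = ∏ p ∈ b.map f, xx (qr Q') p := by
    intro b
    rw [prod_map]
    rfl
  rw [sum_congr rfl fun b _ => h1 b,
    ← sum_image (f := fun c : Finset {p // p ∈ Q'} => ∏ p ∈ c, xx (qr Q') p)
      (g := fun b : Finset {p // p ∈ Q} => b.map f)
      (s := univ.filter (fun b : Finset {p // p ∈ Q} => Disjoint b ∅ ∧ nrm (vr Q) b ≤ x))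
      (fun a _ b _ hab => Finset.map_injective f hab)]
  refine sum_le_sum_of_subset_of_nonneg ?_ ?_
  · intro c hc
    rw [mem_image] at hc
    obtain ⟨b, hb, rfl⟩ := hc
    rw [mem_filter] at hb ⊢
    refine ⟨mem_univ _, disjoint_empty_right _, ?_⟩
    have h2 : nrm (vr Q') (b.map f) = nrm (vr Q) b := by
      unfold nrm
      rw [prod_map]
      rfl
    rw [h2]
    exact hb.2.2
  · intro c _ _
    refine prod_nonneg fun p _ => ?_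
    unfold xx qr
    have := h0 p.1 p.2
    exact div_nonneg zero_le_one (by linarith)

private theorem sumsF_prod (Q Q' : Finset ℕ) (h : Q ⊆ Q') (h0 : ∀ p ∈ Q', (12 : ℝ) ≤ (p : ℝ)) :
    ∏ p : {p // p ∈ Q}, (1 + xx (qr Q) p) ≤ ∏ p : {p // p ∈ Q'}, (1 + xx (qr Q') p) := by
  have e1 : ∏ p : {p // p ∈ Q}, (1 + xx (qr Q) p) = ∏ p ∈ Q, (1 + 1 / ((p : ℝ) - 2)) :=
    Finset.prod_coe_sort Q (fun p : ℕ => 1 + 1 / ((p : ℝ) - 2))
  have e2 : ∏ p : {p // p ∈ Q'}, (1 + xx (qr Q') p) = ∏ p ∈ Q', (1 + 1 / ((p : ℝ) - 2)) :=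
    Finset.prod_coe_sort Q' (fun p : ℕ => 1 + 1 / ((p : ℝ) - 2))
  rw [e1, e2]
  have hd : (∏ p ∈ Q' \ Q, (1 + 1 / ((p : ℝ) - 2))) * ∏ p ∈ Q, (1 + 1 / ((p : ℝ) - 2)) =
      ∏ p ∈ Q', (1 + 1 / ((p : ℝ) - 2)) := prod_sdiff h
  have hone : ∀ p ∈ Q', 1 ≤ 1 + 1 / ((p : ℝ) - 2) := by
    intro p hp
    have := h0 p hp
    have h2 : 0 ≤ 1 / ((p : ℝ) - 2) := div_nonneg zero_le_one (by linarith)
    linarith
  have h3 : 1 ≤ ∏ p ∈ Q' \ Q, (1 + 1 / ((p : ℝ) - 2)) := by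
    have := Finset.prod_le_prod (s := Q' \ Q) (f := fun _ : ℕ => (1 : ℝ))
      (g := fun p : ℕ => 1 + 1 / ((p : ℝ) - 2)) (fun _ _ => zero_le_one)
      (fun p hp => hone p (mem_sdiff.1 hp).1)
    rwa [prod_const_one] at this
  have h4 : 0 ≤ ∏ p ∈ Q, (1 + 1 / ((p : ℝ) - 2)) :=
    prod_nonneg fun p hp => zero_le_one.trans (hone p (h hp))
  rw [← hd]
  nlinarith

theorem V_upe : ∃ CV : ℕ, 1 ≤ CV ∧
    (∀ w R e x : ℕ, 12 ≤ w → w ≤ x → x ≤ R → VV (vr (Qe w R e)) (qr (Qe w R e)) x ∅ ≤ CV * Real.log x / wD w) ∧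
    (∀ w R e : ℕ, 12 ≤ w → w ≤ R →
      ∏ p : {p // p ∈ Qe w R e}, (1 + xx (qr (Qe w R e)) p) ≤ CV * Real.log R / wD w) := by
  obtain ⟨CV, h1, h2, h3⟩ := V_up
  have h0 : ∀ w R : ℕ, 12 ≤ w → ∀ p ∈ Ps w R, (12 : ℝ) ≤ (p : ℝ) := by
    intro w R hw p hp
    rw [sumsF_Ps] at hp
    have : 12 ≤ p := hw.trans hp.2.1.le
    exact_mod_cast this
  refine ⟨CV, h1, ?_, ?_⟩
  · intro w R e x hw hwx hxR
    exact (sumsF_VV _ _ (sumsF_sub w R e) (h0 w R hw) x).trans (h2 w R x hw hwx hxR)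
  · intro w R e hw hwR
    exact (sumsF_prod _ _ (sumsF_sub w R e) (h0 w R hw)).trans (h3 w R hw hwR)

theorem wD_le : ∃ C : ℝ, 0 < C ∧ ∀ w : ℕ, 2 ≤ w → wD w ≤ C * Real.log w := by
  obtain ⟨c, C, hc, hC, hm⟩ := Pool.SG.mert_prod
  refine ⟨1 / c, by positivity, ?_⟩
  intro w hw
  have hw2 : (2 : ℝ) ≤ (w : ℝ) := by exact_mod_cast hw
  have hl : 0 < Real.log w := Real.log_pos (by linarith)
  have h1 := (hm (w : ℝ) hw2).1
  have h2 : wD w = (∏ q ∈ Pool.SG.pr 1 (w : ℝ), (1 - 1 / (q : ℝ)))⁻¹ := by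
    unfold wD
    rw [← prod_inv_distrib]
    refine prod_congr ?_ fun _ _ => rfl
    ext q
    rw [Pool.SG.mem_pr (Nat.cast_nonneg w), mem_filter, mem_Icc]
    constructor
    · rintro ⟨⟨_, h3⟩, h4⟩
      exact ⟨h4, by exact_mod_cast h4.one_lt, by exact_mod_cast h3⟩
    · rintro ⟨h3, _, h4⟩
      exact ⟨⟨h3.one_lt.le, by exact_mod_cast h4⟩, h3⟩
  rw [h2]
  have h3 : 0 < c / Real.log w := by positivity
  have h4 := inv_anti₀ h3 h1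
  rw [inv_div] at h4
  calc _ ≤ Real.log w / c := h4
    _ = 1 / c * Real.log w := by ring

end Pool.CP
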