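import Pool.Agent.Lib.MP_c77da8_nt.Sv4

/-!
# CP-SvW: the Brun-Hooley sieve (lower bound) for an arbitrary finite set of integers

PROOF.  Copy of `Sv.expand` (file Sv1) and of the first half of `Sv.sieve` (file Sv3), with
* `(range N).filter (· ≡ v [MOD M])` replaced by the finite set `S`, `N/M` by `X`, `(B q).card / q` by `g q`,
* `card_bad` replaced by the hypothesis `hR`, the final product bound of `expand` by the sum of the remainders.
-/

set_option autoImplicit false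

namespace Pool.CP

open Finset Pool.Agent.Lib.MP_c77da8_nt.Sv

/-- The main expansion for an arbitrary finite set. -/
theorem expandW (t : ℕ) (S : Finset ℕ) (X : ℝ) (B : ℕ → Finset ℕ) (P : Fin t → Finset ℕ)
    (g : ℕ → ℝ) (hdis : ∀ i j, i ≠ j → Disjoint (P i) (P j))
    (s : Fin t → ℕ) (c : Fin t → ℕ → ℝ) (hc : ∀ i r, |c i r| ≤ 1)
    (Rm : Finset ℕ → ℝ)
    (hR : ∀ φ ∈ Fintype.piFinset (fun i => sub (P i) (s i)),
      |((S.filter fun m => ∀ q ∈ univ.biUnion φ, m % q ∈ B q).card : ℝ) -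
        X * ∏ q ∈ univ.biUnion φ, g q| ≤ Rm (univ.biUnion φ)) :
    |∑ m ∈ S, ∏ i, ∑ r ∈ range (s i + 1),
        c i r * (((bad B (P i) m).card.choose r : ℕ) : ℝ) -
      X * ∏ i, ∑ D ∈ sub (P i) (s i), c i D.card * ∏ q ∈ D, g q| ≤
      ∑ φ ∈ Fintype.piFinset (fun i => sub (P i) (s i)), Rm (univ.biUnion φ) := by
  classical
  have h1 : ∀ m, ∏ i, ∑ r ∈ range (s i + 1), c i r * (((bad B (P i) m).card.choose r : ℕ) : ℝ) =
      ∑ φ ∈ Fintype.piFinset (fun i => sub (P i) (s i)), (∏ i, c i (φ i).card) *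
        if (∀ q ∈ univ.biUnion φ, m % q ∈ B q) then (1 : ℝ) else 0 := by
    intro m
    simp_rw [sum_choose]
    rw [Finset.prod_univ_sum]
    refine sum_congr rfl fun φ _ => ?_
    rw [prod_mul_distrib]
    congr 1
    by_cases h : ∀ q ∈ univ.biUnion φ, m % q ∈ B q
    · rw [if_pos h]
      refine prod_eq_one fun i _ => ?_
      rw [if_pos]
      intro q hq
      exact h q (mem_biUnion.2 ⟨i, mem_univ i, hq⟩)
    · rw [if_neg h]
      push Not at h
      obtain ⟨q, hq, hq2⟩ := h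
      obtain ⟨i, _, hi⟩ := mem_biUnion.1 hq
      refine prod_eq_zero (mem_univ i) ?_
      rw [if_neg]
      push Not
      exact ⟨q, hi, hq2⟩
  have h2 : ∑ m ∈ S, ∏ i, ∑ r ∈ range (s i + 1),
      c i r * (((bad B (P i) m).card.choose r : ℕ) : ℝ) =
      ∑ φ ∈ Fintype.piFinset (fun i => sub (P i) (s i)), (∏ i, c i (φ i).card) *
        ((S.filter fun m => ∀ q ∈ univ.biUnion φ, m % q ∈ B q).card : ℝ) := by
    simp_rw [h1]
    rw [sum_comm]
    refine sum_congr rfl fun φ _ => ?_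
    rw [← mul_sum, card_filter]
    push_cast
    rfl
  have hφ : ∀ φ ∈ Fintype.piFinset (fun i => sub (P i) (s i)), ∀ i, φ i ⊆ P i := by
    intro φ hφ i
    have := Fintype.mem_piFinset.1 hφ i
    exact mem_powerset.1 (mem_filter.1 this).1
  have hpd : ∀ φ ∈ Fintype.piFinset (fun i => sub (P i) (s i)),
      ((univ : Finset (Fin t)) : Set (Fin t)).PairwiseDisjoint φ := by
    intro φ h i _ j _ hij
    exact (hdis i j hij).mono (hφ φ h i) (hφ φ h j)
  have h3 : X * ∏ i, ∑ D ∈ sub (P i) (s i), c i D.card * ∏ q ∈ D, g q =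
      ∑ φ ∈ Fintype.piFinset (fun i => sub (P i) (s i)), (∏ i, c i (φ i).card) *
        (X * ∏ q ∈ univ.biUnion φ, g q) := by
    rw [Finset.prod_univ_sum, mul_sum]
    refine sum_congr rfl fun φ h => ?_
    rw [prod_mul_distrib, prod_biUnion (hpd φ h)]
    ring
  rw [h2, h3, ← sum_sub_distrib]
  refine (abs_sum_le_sum_abs _ _).trans (sum_le_sum fun φ h => ?_)
  rw [← mul_sub, abs_mul]
  have h5 : |∏ i, c i (φ i).card| ≤ 1 := by
    rw [abs_prod]
    exact prod_le_one (fun i _ => abs_nonneg _) fun i _ => hc i _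
  calc _ ≤ 1 * Rm (univ.biUnion φ) := mul_le_mul h5 (hR φ h) (abs_nonneg _) zero_le_one
    _ = _ := one_mul _

theorem sieveW (t : ℕ) (S : Finset ℕ) (X : ℝ) (hX : 0 ≤ X) (B : ℕ → Finset ℕ) (P : Fin t → Finset ℕ)
    (g : ℕ → ℝ) (hdis : ∀ i j, i ≠ j → Disjoint (P i) (P j))
    (hg0 : ∀ i, ∀ q ∈ P i, 0 ≤ g q) (hg2 : ∀ i, ∀ q ∈ P i, g q ≤ 1 / 2)
    (s : Fin t → ℕ) (hs : ∀ i, Odd (s i))
    (hL : ∀ i, 5 * ∑ q ∈ P i, g q + 3 + ((i : ℕ) : ℝ) ≤ s i)
    (Rm : Finset ℕ → ℝ)
    (hR : ∀ φ ∈ Fintype.piFinset (fun i => sub (P i) (s i)),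
      |((S.filter fun m => ∀ q ∈ univ.biUnion φ, m % q ∈ B q).card : ℝ) -
        X * ∏ q ∈ univ.biUnion φ, g q| ≤ Rm (univ.biUnion φ)) :
    1 / 2 * (X * ∏ i, ∏ q ∈ P i, (1 - g q)) -
        (t + 1) * ∑ φ ∈ Fintype.piFinset (fun i => sub (P i) (s i)), Rm (univ.biUnion φ) ≤
      ((S.filter fun m => ∀ i, ∀ q ∈ P i, m % q ∉ B q).card : ℝ) := by
  classical
  set V : Fin t → ℝ := fun i => ∏ q ∈ P i, (1 - g q) with hV
  set η : Fin t → ℝ := fun i => Real.exp (-(3 : ℝ) - (i : ℕ)) with hη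
  set Rem : ℝ := ∑ φ ∈ Fintype.piFinset (fun i => sub (P i) (s i)), Rm (univ.biUnion φ) with hRem
  set T : Fin t → ℝ := fun i => ∑ D ∈ sub (P i) (s i), ca (s i) D.card * ∏ q ∈ D, g q with hT
  set E : Fin t → ℝ := fun i => ∑ D ∈ sub (P i) (s i), ct (s i) D.card * ∏ q ∈ D, g q with hE
  have hη0 : ∀ i, 0 < η i := fun i => Real.exp_pos _
  have hηsum : ∑ i, η i ≤ 1 / 10 := geom_bound t
  have hη1 : ∀ i, η i ≤ 1 / 10 := fun i =>
    (single_le_sum (fun i _ => (hη0 i).le) (mem_univ i)).trans hηsum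
  have hVpos : ∀ i, 0 < V i := fun i =>
    lt_of_lt_of_le (Real.exp_pos _) (V_ge g (P i) (hg0 i) (hg2 i))
  have htail : ∀ i, Real.exp (-(s i : ℝ) + 3 * ∑ q ∈ P i, g q) ≤ η i * V i := by
    intro i
    have h1 := V_ge g (P i) (hg0 i) (hg2 i)
    have h2 := hL i
    calc Real.exp (-(s i : ℝ) + 3 * ∑ q ∈ P i, g q)
        ≤ Real.exp ((-(3 : ℝ) - (i : ℕ)) + -2 * ∑ q ∈ P i, g q) := by
          apply Real.exp_le_exp.2
          linarith
      _ = η i * Real.exp (-2 * ∑ q ∈ P i, g q) := Real.exp_add _ _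
      _ ≤ η i * V i := mul_le_mul_of_nonneg_left h1 (hη0 i).le
  have hTV : ∀ i, |T i - V i| ≤ η i * V i := fun i =>
    (alt_le g (P i) (hg0 i) (s i)).trans (htail i)
  have hTu : ∀ i, T i ≤ (1 + η i) * V i := by
    intro i
    have := (abs_le.1 (hTV i)).2
    linarith
  have hTl : ∀ i, (1 - η i) * V i ≤ T i := by
    intro i
    have := (abs_le.1 (hTV i)).1
    linarith
  have hT0 : ∀ i, 0 ≤ T i := by
    intro i
    refine le_trans (mul_nonneg ?_ (hVpos i).le) (hTl i)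
    linarith [hη1 i]
  have hEu : ∀ i, E i ≤ η i * V i := fun i =>
    (top_le g (P i) (hg0 i) (s i)).trans (htail i)
  have hE0 : ∀ i, 0 ≤ E i := fun i => top_nonneg g (P i) (hg0 i) (s i)
  have hexp : Real.exp (1 / 10 : ℝ) ≤ 6 / 5 := by
    have h1 := Real.one_sub_le_exp_neg (1 / 10 : ℝ)
    have h2 : Real.exp (1 / 10 : ℝ) * Real.exp (-(1 / 10 : ℝ)) = 1 := by
      rw [← Real.exp_add]; simp
    have h3 := Real.exp_pos (1 / 10 : ℝ)
    nlinarith
  have hprodη : ∏ i, (1 + η i) ≤ 6 / 5 := by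
    calc ∏ i, (1 + η i) ≤ ∏ i, Real.exp (η i) := by
          refine prod_le_prod (fun i _ => by linarith [hη0 i]) fun i _ => ?_
          have := Real.add_one_le_exp (η i)
          linarith
      _ = Real.exp (∑ i, η i) := (Real.exp_sum _ _).symm
      _ ≤ Real.exp (1 / 10) := Real.exp_le_exp.2 hηsum
      _ ≤ 6 / 5 := hexp
  have hprodη' : (4 : ℝ) / 5 ≤ ∏ i, (1 - η i) := by
    calc (4 : ℝ) / 5 ≤ Real.exp (-(1 / 5 : ℝ)) := by
          have := Real.one_sub_le_exp_neg (1 / 5 : ℝ)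
          linarith
      _ ≤ Real.exp (∑ i, -2 * η i) := by
          apply Real.exp_le_exp.2
          rw [← mul_sum]
          linarith
      _ = ∏ i, Real.exp (-2 * η i) := Real.exp_sum _ _
      _ ≤ ∏ i, (1 - η i) := by
          refine prod_le_prod (fun i _ => (Real.exp_pos _).le) fun i _ => ?_
          exact one_sub_ge _ (hη0 i).le (by linarith [hη1 i])
  have hVp : 0 < ∏ i, V i := prod_pos fun i _ => hVpos i
  have hTprodU : ∏ i, T i ≤ 6 / 5 * ∏ i, V i := by
    calc ∏ i, T i ≤ ∏ i, ((1 + η i) * V i) := prod_le_prod (fun i _ => hT0 i) fun i _ => hTu i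
      _ = (∏ i, (1 + η i)) * ∏ i, V i := prod_mul_distrib
      _ ≤ _ := mul_le_mul_of_nonneg_right hprodη hVp.le
  have hTprodL : 4 / 5 * ∏ i, V i ≤ ∏ i, T i := by
    calc 4 / 5 * ∏ i, V i ≤ (∏ i, (1 - η i)) * ∏ i, V i :=
          mul_le_mul_of_nonneg_right hprodη' hVp.le
      _ = ∏ i, ((1 - η i) * V i) := prod_mul_distrib.symm
      _ ≤ ∏ i, T i := by
          refine prod_le_prod (fun i _ => mul_nonneg ?_ (hVpos i).le) fun i _ => hTl i
          linarith [hη1 i]
  -- the mixed products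
  have hmix : ∀ l, E l * ∏ i ∈ univ.erase l, T i ≤ η l * (6 / 5 * ∏ i, V i) := by
    intro l
    have h1 : ∏ i ∈ univ.erase l, T i ≤ ∏ i ∈ univ.erase l, ((1 + η i) * V i) :=
      prod_le_prod (fun i _ => hT0 i) fun i _ => hTu i
    have h2 : ∏ i ∈ univ.erase l, ((1 + η i) * V i) =
        (∏ i ∈ univ.erase l, (1 + η i)) * ∏ i ∈ univ.erase l, V i := prod_mul_distrib
    have h3 : ∏ i ∈ univ.erase l, (1 + η i) ≤ 6 / 5 := by
      refine le_trans ?_ hprodη
      rw [← mul_prod_erase univ (fun i => 1 + η i) (mem_univ l)]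
      have h4 : 0 ≤ ∏ i ∈ univ.erase l, (1 + η i) :=
        prod_nonneg fun i _ => by linarith [hη0 i]
      have h5 := hη0 l
      nlinarith
    have h4 : 0 ≤ ∏ i ∈ univ.erase l, V i := prod_nonneg fun i _ => (hVpos i).le
    have h5 : V l * ∏ i ∈ univ.erase l, V i = ∏ i, V i := mul_prod_erase univ V (mem_univ l)
    calc E l * ∏ i ∈ univ.erase l, T i ≤ (η l * V l) * ∏ i ∈ univ.erase l, T i :=
          mul_le_mul_of_nonneg_right (hEu l) (prod_nonneg fun i _ => hT0 i)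
      _ ≤ (η l * V l) * (6 / 5 * ∏ i ∈ univ.erase l, V i) := by
          refine mul_le_mul_of_nonneg_left ?_ (mul_nonneg (hη0 l).le (hVpos l).le)
          rw [h2] at h1
          exact h1.trans (mul_le_mul_of_nonneg_right h3 h4)
      _ = η l * (6 / 5 * ∏ i, V i) := by rw [← h5]; ring
  -- the pointwise quantities
  let e : Fin t → ℕ → ℕ := fun i m => (bad B (P i) m).card
  let x : ℕ → Fin t → ℝ := fun m i => if e i m = 0 then 1 else 0
  let y : ℕ → Fin t → ℝ := fun m i => ∑ r ∈ range (s i + 1), ca (s i) r * (((e i m).choose r : ℕ) : ℝ)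
  let z : ℕ → Fin t → ℝ := fun m i => ∑ r ∈ range (s i + 1), ct (s i) r * (((e i m).choose r : ℕ) : ℝ)
  have hx0 : ∀ m i, 0 ≤ x m i := fun m i => by simp only [x]; split_ifs <;> norm_num
  have hxy : ∀ m i, x m i ≤ y m i := fun m i => (ptw (s i) (e i m) (hs i)).1
  have hyz : ∀ m i, y m i ≤ x m i + z m i := fun m i => (ptw (s i) (e i m) (hs i)).2
  have hz0 : ∀ m i, 0 ≤ z m i := fun m i => by
    simp only [z]; rw [top_eq]; exact Nat.cast_nonneg _
  have hS : ((S.filter fun m => ∀ i, ∀ q ∈ P i, m % q ∉ B q).card : ℝ) =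
      ∑ m ∈ S, ∏ i, x m i := by
    have h1 : ∀ m, ∏ i, x m i = if (∀ i, ∀ q ∈ P i, m % q ∉ B q) then (1 : ℝ) else 0 := by
      intro m
      by_cases h : ∀ i, ∀ q ∈ P i, m % q ∉ B q
      · rw [if_pos h]
        refine prod_eq_one fun i _ => ?_
        simp only [x, e]
        rw [if_pos]
        rw [card_eq_zero, bad, filter_eq_empty_iff]
        exact h i
      · rw [if_neg h]
        push Not at h
        obtain ⟨i, q, hq, hq2⟩ := h
        refine prod_eq_zero (mem_univ i) ?_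
        simp only [x, e]
        rw [if_neg]
        rw [card_eq_zero, bad, filter_eq_empty_iff]
        push Not
        exact ⟨q, hq, hq2⟩
    simp_rw [h1]
    rw [card_filter]
    push_cast
    rfl
  have hY : |∑ m ∈ S, ∏ i, y m i - X * ∏ i, T i| ≤ Rem :=
    expandW t S X B P g hdis s (fun i => ca (s i)) (fun i r => abs_ca _ _) Rm hR
  have hZ : ∀ l, |∑ m ∈ S, z m l * ∏ i ∈ univ.erase l, y m i -
      X * (E l * ∏ i ∈ univ.erase l, T i)| ≤ Rem := by
    intro l
    have h1 := expandW t S X B P g hdis s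
      (fun i => if i = l then ct (s i) else ca (s i)) (fun i r => by
        split_ifs
        · exact abs_ct _ _
        · exact abs_ca _ _) Rm hR
    have h2 : ∀ m, ∏ i, ∑ r ∈ range (s i + 1), (if i = l then ct (s i) else ca (s i)) r *
        (((bad B (P i) m).card.choose r : ℕ) : ℝ) = z m l * ∏ i ∈ univ.erase l, y m i := by
      intro m
      rw [← mul_prod_erase univ _ (mem_univ l)]
      congr 1
      · simp only [if_true, z, e]
      · refine prod_congr rfl fun i hi => ?_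
        have : i ≠ l := ne_of_mem_erase hi
        simp only [if_neg this, y, e]
    have h3 : ∏ i, ∑ D ∈ sub (P i) (s i), (if i = l then ct (s i) else ca (s i)) D.card *
        ∏ q ∈ D, g q = E l * ∏ i ∈ univ.erase l, T i := by
      rw [← mul_prod_erase univ _ (mem_univ l)]
      congr 1
      · simp only [if_true, E]
      · refine prod_congr rfl fun i hi => ?_
        have : i ≠ l := ne_of_mem_erase hi
        simp only [if_neg this, T]
    simp_rw [h2, h3] at h1
    exact h1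
  have hNM : (0 : ℝ) ≤ X := hX
  rw [hS]
  · have h1 : ∑ m ∈ S, ∏ i, y m i ≤ ∑ m ∈ S, ∏ i, x m i +
        ∑ l, ∑ m ∈ S, z m l * ∏ i ∈ univ.erase l, y m i := by
      rw [sum_comm, ← sum_add_distrib]
      exact sum_le_sum fun m _ => prod_ineq univ (x m) (y m) (z m) (hx0 m) (hxy m) (hyz m) (hz0 m)
    have h2 : ∑ l, ∑ m ∈ S, z m l * ∏ i ∈ univ.erase l, y m i ≤
        ∑ l : Fin t, (X * (η l * (6 / 5 * ∏ i, V i)) + Rem) := by
      refine sum_le_sum fun l _ => ?_
      have h3 := (abs_le.1 (hZ l)).2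
      have h4 := mul_le_mul_of_nonneg_left (hmix l) hNM
      linarith
    rw [sum_add_distrib, sum_const, card_univ, Fintype.card_fin, nsmul_eq_mul, ← mul_sum,
      ← sum_mul] at h2
    have h3 := (abs_le.1 hY).1
    have h4 := mul_le_mul_of_nonneg_left hTprodL hNM
    have h5 : X * ((∑ i, η i) * (6 / 5 * ∏ i, V i)) ≤
        X * ((1 / 10) * (6 / 5 * ∏ i, V i)) := by
      gcongr
    have h6 : 0 ≤ X * ∏ i, V i := mul_nonneg hNM hVp.le
    linarith

end Pool.CP
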