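import Pool.Agent.Lib.MP_c77da8_nt.CP.Defs
import Pool.Agent.Lib.MP_c77da8_nt.CP.PairF
import Pool.Agent.Lib.MP_c77da8_nt.CM.SysM

/-!
# CP-SysF: the linear forms estimate for the product weights `nuF`

PROOF: as `lf_sysM` (`CM/SysM.lean`), with `lf_absM t1 ..` for the index type `I × J` (`card = card I * card J ≤ t1`) and
`A (i, j) ω = f j * mP P M (ptM w (φ i) (o i) ω)`, `Q = Qe w (Rt t1 N) e`; `∏ i, nuF .. = ∏ (i, j), nuq Q (Rt t1 N) (A (i, j) ω * n - 1)` (`Fintype.prod_prod_type`).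
`A ≥ 1`.  `A ≤ exp (M²)`: `mP P M z ≤ exp ((M - 1) ∑_(p ∈ P) log p)` (exponents `≤ M - 1`) `≤ exp ((M-1) M)` (`size`), and `f j ≤ w ≤ M ≤ exp M`.
`p ∈ Q` does not divide `A`: `p > w ≥ f j ≥ 1`, and the prime factors of `mP` are in `P`, so `≤ w`.
`PairM` for `(i, j) ≠ (i', j')`: if `i ≠ i'`: as there, with `pair_eqF`, `pair_modF` (`F = f j`, `F' = f j'`, `p ∤ f j`, `p ∉ P` as `p > w`).  If `i = i'`, `j ≠ j'`: `A (i,j) ω ≠ A (i,j') ω` always (`f`
injective, `mP ≥ 1`), and never `A (i,j) ω ≡ A (i,j') ω (mod p)` for `p ∈ Q`: `p ∤ mP`, `0 < |f j - f j'| < w < p`; so both counts are `0`.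
-/

set_option autoImplicit false

namespace Pool.CP

open Finset Pool.CG Pool.CL Pool.CM

/-- `mP ≤ exp ((M - 1) ∑ log p)` -/
private theorem SysF_mP_le (P : Finset ℕ) (M : ℕ) [NeZero M] (hP : ∀ p ∈ P, p.Prime) (z : GP P M) :
    (mP P M z : ℝ) ≤ Real.exp (((M - 1 : ℕ) : ℝ) * ∑ p ∈ P, Real.log p) := by
  have h1 : ((M - 1 : ℕ) : ℝ) * ∑ p ∈ P, Real.log p = ∑ p : Cd P, ((M - 1 : ℕ) : ℝ) * Real.log (p.1 : ℝ) := by
    rw [Finset.mul_sum]
    exact (Finset.sum_coe_sort P (fun p => ((M - 1 : ℕ) : ℝ) * Real.log (p : ℝ))).symm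
  rw [h1, Real.exp_sum]
  unfold mP
  push_cast
  refine Finset.prod_le_prod (fun p _ => by positivity) (fun p _ => ?_)
  have hp : 0 < (p.1 : ℝ) := by exact_mod_cast (hP p.1 p.2).pos
  have hp1 : 1 ≤ (p.1 : ℝ) := by exact_mod_cast (hP p.1 p.2).one_lt.le
  rw [Real.exp_nat_mul, Real.exp_log hp]
  exact pow_le_pow_right₀ hp1 (by have := ZMod.val_lt (z p); omega)

private theorem SysF_ndvd (P : Finset ℕ) (M : ℕ) (hP : ∀ p ∈ P, p.Prime) (p : ℕ) (hp : p.Prime)
    (hpP : p ∉ P) (z : GP P M) : ¬ p ∣ mP P M z := by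
  intro hdvd
  unfold mP at hdvd
  obtain ⟨q, _, hq⟩ := (Prime.dvd_finsetProd_iff hp.prime _).mp hdvd
  have hq2 := hp.dvd_of_dvd_pow hq
  have := (Nat.prime_dvd_prime_iff_eq hp (hP q.1 q.2)).mp hq2
  rw [this] at hpP
  exact hpP q.2

theorem lf_sysF (t t1 D : ℕ) (ht : 1 ≤ t) (ht1 : 1 ≤ t1) (ρ η : ℝ) (hρ : 0 < ρ) (hρ1 : ρ < 1) (hη : 0 < η) :
    ∃ w0 M0 N0 : ℕ, ∀ w ≥ w0, ∀ M ≥ M0, ∀ N ≥ N0, ∀ (V : ℕ) (P : Finset ℕ) (e : ℕ) [NeZero M],
      ParF t1 D V w M N ρ P e → ∀ (J : Type) [Fintype J] [DecidableEq J] (f : J → ℕ), t * Fintype.card J ≤ t1 →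
      FOK f w e →
      ∀ (Λ : Type) [Fintype Λ] [Nonempty Λ] (I : Type) [Fintype I] [DecidableEq I], Fintype.card I ≤ t →
      ∀ (φ : I → Λ → ℤ) (o : I → Cd P → ℤ), (∀ i a, |φ i a| ≤ (D : ℤ)) → (∀ i q, |o i q| ≤ (V : ℤ)) →
      (∀ i j, i ≠ j → ∀ v : ℤ, ((univ.filter fun a : Λ => φ i a - φ j a = v).card : ℝ) ≤ ρ * Fintype.card Λ) →
      |av (fun ω : OmM P M Λ => (∑ n ∈ Ico N (2 * N), ∏ i, nuF f e P M w (Rt t1 N) n (ptM w (φ i) (o i) ω)) / N) - 1| ≤
        η := by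
  obtain ⟨w1, M1, N1, h1⟩ := lf_absM t1 ht1 ρ η hρ hρ1 hη
  obtain ⟨w2, h2⟩ := num_coord D
  refine ⟨max w1 w2, M1, N1, ?_⟩
  intro w hw M hM N hN V P e _ hPF J _ _ f hJ hf Λ _ _ I _ _ hI φ o hφ ho hd
  have hPar := hPF.par
  have hw1 : w1 ≤ w := le_trans (le_max_left _ _) hw
  have hw2 : w2 ≤ w := le_trans (le_max_right _ _) hw
  have hM1 : 1 ≤ M := NeZero.pos M
  have hMpos : (0 : ℝ) < M := by exact_mod_cast hM1
  have hcard : (0 : ℝ) < Fintype.card (OmM P M Λ) := by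
    have := Fintype.card_pos (α := OmM P M Λ)
    exact_mod_cast this
  have hQ : Qe w (Rt t1 N) e ⊆ Pr w (Rt t1 N) := Finset.erase_subset _ _
  have hQm : ∀ p ∈ Qe w (Rt t1 N) e, p.Prime ∧ w < p ∧ p ∉ P := by
    intro p hp
    have hp' := Finset.mem_of_mem_erase hp
    have hp2 := (Finset.mem_filter.mp hp').2
    exact ⟨hp2.1, hp2.2, fun h => absurd (hPF.le p h) (by omega)⟩
  have hfp : ∀ j, ∀ p, w < p → f j < p := fun j p hp => lt_of_le_of_lt (hf.le j) hp
  have hfnd : ∀ j, ∀ p, w < p → ¬ p ∣ f j := fun j p hp h =>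
    absurd (Nat.le_of_dvd (hf.pos j) h) (by have := hfp j p hp; omega)
  have hmnd : ∀ p ∈ Qe w (Rt t1 N) e, ∀ z : GP P M, ¬ p ∣ mP P M z := fun p hp z =>
    SysF_ndvd P M hPar.prime p (hQm p hp).1 (hQm p hp).2.2 z
  have hcardIJ : Fintype.card (I × J) ≤ t1 := by
    rw [Fintype.card_prod]
    exact (Nat.mul_le_mul_right _ hI).trans hJ
  have hprod : ∀ (n : ℕ) (ω : OmM P M Λ), ∏ i, nuF f e P M w (Rt t1 N) n (ptM w (φ i) (o i) ω) =
      ∏ x : I × J, nuq (Qe w (Rt t1 N) e) (Rt t1 N)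
        (f x.2 * mP P M (ptM w (φ x.1) (o x.1) ω) * n - 1) := by
    intro n ω
    unfold nuF
    rw [Fintype.prod_prod_type]
  simp only [hprod]
  refine h1 w hw1 M hM N hN (Qe w (Rt t1 N) e) hQ (OmM P M Λ) (I × J) hcardIJ
    (fun x ω => f x.2 * mP P M (ptM w (φ x.1) (o x.1) ω))
    (fun x ω => Nat.mul_pos (hf.pos x.2) (mP_pos P M hPar.prime _)) ?_ ?_ ?_
  · rintro ⟨i, j⟩ ω
    have e1 : ((f j : ℕ) : ℝ) ≤ Real.exp M := by
      have : ((f j : ℕ) : ℝ) ≤ M := by exact_mod_cast (hf.le j).trans hPF.wM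
      have h3 := Real.add_one_le_exp (M : ℝ)
      linarith
    have e2 := SysF_mP_le P M hPar.prime (ptM w (φ i) (o i) ω)
    have e3 : ((M - 1 : ℕ) : ℝ) * ∑ p ∈ P, Real.log p ≤ ((M - 1 : ℕ) : ℝ) * M :=
      mul_le_mul_of_nonneg_left hPar.size (Nat.cast_nonneg _)
    have e4 : ((M - 1 : ℕ) : ℝ) = (M : ℝ) - 1 := by
      rw [Nat.cast_sub hM1, Nat.cast_one]
    push_cast
    calc ((f j : ℕ) : ℝ) * (mP P M (ptM w (φ i) (o i) ω) : ℝ)
        ≤ Real.exp M * Real.exp (((M - 1 : ℕ) : ℝ) * M) :=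
          mul_le_mul e1 (e2.trans (Real.exp_le_exp.mpr e3)) (Nat.cast_nonneg _) (Real.exp_pos _).le
      _ = Real.exp ((M : ℝ) ^ 2) := by
          rw [← Real.exp_add, e4]
          congr 1
          ring
  · rintro ⟨i, j⟩ ω p hp hdvd
    rcases (hQm p hp).1.dvd_mul.mp hdvd with h | h
    · exact hfnd j p (hQm p hp).2.1 h
    · exact hmnd p hp _ h
  · rintro ⟨i, j⟩ ⟨i', j'⟩ hne
    by_cases hii : i = i'
    · subst hii
      have hjj : j ≠ j' := fun h => hne (by rw [h])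
      constructor
      · have h3 : (univ.filter fun ω : OmM P M Λ =>
            f j * mP P M (ptM w (φ i) (o i) ω) = f j' * mP P M (ptM w (φ i) (o i) ω)) = ∅ := by
          refine Finset.filter_eq_empty_iff.mpr fun ω _ h => ?_
          have h4 := Nat.eq_of_mul_eq_mul_right (mP_pos P M hPar.prime _) h
          exact hjj (hf.inj h4)
        show (((univ.filter fun ω : OmM P M Λ =>
            f j * mP P M (ptM w (φ i) (o i) ω) = f j' * mP P M (ptM w (φ i) (o i) ω)).card : ℕ) : ℝ) * _ ≤ _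
        rw [h3, Finset.card_empty, Nat.cast_zero, zero_mul]
        exact hcard.le
      · intro p hp hpM
        have h3 : (univ.filter fun ω : OmM P M Λ =>
            f j * mP P M (ptM w (φ i) (o i) ω) ≠ f j' * mP P M (ptM w (φ i) (o i) ω) ∧
            f j * mP P M (ptM w (φ i) (o i) ω) ≡ f j' * mP P M (ptM w (φ i) (o i) ω) [MOD p]) = ∅ := by
          refine Finset.filter_eq_empty_iff.mpr fun ω _ h => ?_
          have hc : Nat.gcd p (mP P M (ptM w (φ i) (o i) ω)) = 1 :=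
            ((hQm p hp).1.coprime_iff_not_dvd).mpr (hmnd p hp _)
          have h4 := Nat.ModEq.cancel_right_of_coprime hc h.2
          have h5 : f j = f j' :=
            Nat.ModEq.eq_of_lt_of_lt h4 (hfp j p (hQm p hp).2.1) (hfp j' p (hQm p hp).2.1)
          exact hjj (hf.inj h5)
        show (((univ.filter fun ω : OmM P M Λ =>
            f j * mP P M (ptM w (φ i) (o i) ω) ≠ f j' * mP P M (ptM w (φ i) (o i) ω) ∧
            f j * mP P M (ptM w (φ i) (o i) ω) ≡ f j' * mP P M (ptM w (φ i) (o i) ω) [MOD p]).card : ℕ) : ℝ) /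
            _ ≤ _
        rw [h3, Finset.card_empty, Nat.cast_zero, zero_div]
        exact add_nonneg (Real.rpow_nonneg hρ.le _)
          (div_nonneg (Real.log_natCast_nonneg p) (Real.sqrt_nonneg _))
    constructor
    · have h3 := pair_eqF w M D V P hPar.prime hPar.wrap Λ (φ i) (φ i') (hφ i) (hφ i') (o i) (o i')
        ρ hρ.le (hd i i' hii) (f j) (f j') (hf.pos j) (hf.pos j')
      have hL : 0 ≤ Real.log N ^ (9 ^ t1 + t1 + 1) := pow_nonneg (Real.log_natCast_nonneg N) _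
      calc _ ≤ (ρ ^ (P.filter (fun p => p ≤ w)).card * Fintype.card (OmM P M Λ)) *
            Real.log N ^ (9 ^ t1 + t1 + 1) := mul_le_mul_of_nonneg_right h3 hL
        _ = (Real.log N ^ (9 ^ t1 + t1 + 1) * ρ ^ (P.filter (fun p => p ≤ w)).card) *
            Fintype.card (OmM P M Λ) := by ring
        _ ≤ 1 * Fintype.card (OmM P M Λ) := mul_le_mul_of_nonneg_right hPar.ent hcard.le
        _ = _ := one_mul _
    · intro p hp hpM
      obtain ⟨hpp, hwp, hpP⟩ := hQm p hp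
      have hppos : (0 : ℝ) < p := by exact_mod_cast hpp.pos
      have hlog : Real.log p ≤ w := by
        refine le_trans ?_ hPar.top
        have hle : (p : ℝ) ≤ (M : ℝ) ^ 3 := by exact_mod_cast hpM
        have h3 := Real.log_le_log hppos hle
        rw [Real.log_pow] at h3
        exact_mod_cast h3
      obtain ⟨S, hS1, hS2, hS3, hS4⟩ := h2 w hw2 P hPar.prime hPar.most p hwp hlog
      have h3 := pair_modF w M D V P hPar.prime hPar.wrap Λ (φ i) (φ i') (hφ i) (hφ i') (o i) (o i')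
        (ho i) (ho i') ρ hρ.le (hd i i' hii) p S hpp hpP hS1 hS2 (f j) (f j') (hfnd j p hwp)
        (hfnd j' p hwp)
      have h4 : ((univ.filter fun ω : OmM P M Λ =>
          f j * mP P M (ptM w (φ i) (o i) ω) ≠ f j' * mP P M (ptM w (φ i') (o i') ω) ∧
          f j * mP P M (ptM w (φ i) (o i) ω) ≡ f j' * mP P M (ptM w (φ i') (o i') ω) [MOD p]).card : ℝ) ≤
          ((univ.filter fun ω : OmM P M Λ =>
          f j * mP P M (ptM w (φ i) (o i) ω) ≡ f j' * mP P M (ptM w (φ i') (o i') ω) [MOD p]).card : ℝ) := by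
        have := Finset.card_le_card (Finset.monotone_filter_right (univ : Finset (OmM P M Λ))
          (p := fun ω : OmM P M Λ =>
          f j * mP P M (ptM w (φ i) (o i) ω) ≠ f j' * mP P M (ptM w (φ i') (o i') ω) ∧
          f j * mP P M (ptM w (φ i) (o i) ω) ≡ f j' * mP P M (ptM w (φ i') (o i') ω) [MOD p])
          (q := fun ω : OmM P M Λ =>
          f j * mP P M (ptM w (φ i) (o i) ω) ≡ f j' * mP P M (ptM w (φ i') (o i') ω) [MOD p])
          (fun ω _ h => h.2))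
        exact_mod_cast this
      have h5 : ((univ.filter fun ω : OmM P M Λ =>
          f j * mP P M (ptM w (φ i) (o i) ω) ≠ f j' * mP P M (ptM w (φ i') (o i') ω) ∧
          f j * mP P M (ptM w (φ i) (o i) ω) ≡ f j' * mP P M (ptM w (φ i') (o i') ω) [MOD p]).card : ℝ) /
          Fintype.card (OmM P M Λ) ≤ ρ ^ S.card + S.card * (2 * (D + V) / M) := by
        rw [div_le_iff₀ hcard]
        exact le_trans h4 h3
      have h6 : ρ ^ S.card ≤ ρ ^ Real.sqrt (Real.log p) := by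
        rw [← Real.rpow_natCast]
        exact Real.rpow_le_rpow_of_exponent_ge hρ hρ1.le hS3
      have hsq : 0 < Real.sqrt M := Real.sqrt_pos.mpr hMpos
      have h7 : 4 * ((D : ℝ) + V) ≤ Real.sqrt M := by
        apply Real.le_sqrt_of_sq_le
        exact_mod_cast hPar.wrap
      have hDV : (0 : ℝ) ≤ (D : ℝ) + V := by positivity
      have h8 : 2 * ((D : ℝ) + V) / M ≤ 1 / Real.sqrt M := by
        rw [div_le_div_iff₀ hMpos hsq, one_mul]
        have h9 : Real.sqrt M * Real.sqrt M = M := Real.mul_self_sqrt hMpos.le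
        calc 2 * ((D : ℝ) + V) * Real.sqrt M ≤ Real.sqrt M * Real.sqrt M :=
              mul_le_mul_of_nonneg_right (by linarith) hsq.le
          _ = M := h9
      have hlp : 0 ≤ Real.log p := Real.log_natCast_nonneg p
      have h10 : (S.card : ℝ) * (2 * ((D : ℝ) + V) / M) ≤ Real.log p / Real.sqrt M := by
        calc (S.card : ℝ) * (2 * ((D : ℝ) + V) / M) ≤ Real.log p * (1 / Real.sqrt M) :=
              mul_le_mul hS4 h8 (by positivity) hlp
          _ = Real.log p / Real.sqrt M := by ring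
      exact le_trans h5 (add_le_add h6 h10)

end Pool.CP
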