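import Pool.Agent.Lib.MP_c77da8_nt.CP.ColP
import Pool.Agent.Lib.MP_c77da8_nt.DL.Expd
import Pool.Agent.Lib.MP_c77da8_nt.DL.Tr

/-!
# CP-TrI: transfer from the integers to the integer model, with an extra colouring condition

PROOF (compare `cnt_int` in `DL/Cnt.lean` and `tr_int` in `DL/Tr.lean`; `EE_lin`, `sum_ind` there).  `Lam_sq`: both sides are sums over pairs `(d, e)` of
`λ(d) λ(e)` times the number of the `n ∈ Ico N (2N)` with `le d`, `le e`, `le c0` (at `colq a Q n`), respectively `N · EI ([le d] [le e] [le c0])`.  If `comp d e` and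
`comp (join d e) c0` then the three conditions are `le D ξ`, `D = join (join d e) c0` (`le_and`), the number is that of an interval of length `N` in one residue class
modulo `nrm (vr Q) (supp D)` (`resq`), so `N/nrm + O(1)` (error `≤ 1`), and `EI ([le D]) = ∏_(p ∈ supp D) 1/p` (`EI_le` with `e = d`, or `EE_le`; all `q p ≥ 12`).  Otherwise both
are `0`.  (`N ≥ 1`; all `n ≥ 1`.)
-/

set_option autoImplicit false

namespace Pool.CP

open Finset Pool.DL

variable {J : Type} [Fintype J] [DecidableEq J]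

private theorem trI_ap (X N ρ : ℕ) (hN : 0 < N) :
    |(((Ico X (2 * X)).filter (fun m => m ≡ ρ [MOD N])).card : ℝ) - X * (1 / (N : ℝ))| ≤ 1 := by
  have h := Nat.Ico_filter_modEq_card X (2 * X) hN ρ
  set C := ((Ico X (2 * X)).filter (fun m => m ≡ ρ [MOD N])).card with hC
  have hNq : (0 : ℚ) < N := by exact_mod_cast hN
  have h1 : ((2 * X : ℕ) - (ρ : ℚ)) / (N : ℚ) = (X - (ρ : ℚ)) / (N : ℚ) + X * (1 / (N : ℚ)) := by
    push_cast
    field_simp
    ring
  have h2 := Int.le_ceil (((2 * X : ℕ) - (ρ : ℚ)) / (N : ℚ))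
  have h3 := Int.ceil_lt_add_one (((2 * X : ℕ) - (ρ : ℚ)) / (N : ℚ))
  have h4 := Int.le_ceil ((X - (ρ : ℚ)) / (N : ℚ))
  have h5 := Int.ceil_lt_add_one ((X - (ρ : ℚ)) / (N : ℚ))
  have h6 : 0 ≤ (X : ℚ) * (1 / (N : ℚ)) := by positivity
  have key : |((C : ℕ) : ℚ) - X * (1 / (N : ℚ))| ≤ 1 := by
    have h7 : ((C : ℕ) : ℚ) = ((C : ℤ) : ℚ) := by push_cast; rfl
    rw [h7, h]
    set F := ⌈((2 * X : ℕ) - (ρ : ℚ)) / (N : ℚ)⌉ with hF
    set G := ⌈(X - (ρ : ℚ)) / (N : ℚ)⌉ with hG
    rw [h1] at h2 h3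
    have h8 : (((max (F - G) 0 : ℤ)) : ℚ) = max ((F : ℚ) - G) 0 := by push_cast; rfl
    rw [h8, abs_le]
    constructor
    · have := le_max_left ((F : ℚ) - G) 0
      linarith
    · have : max ((F : ℚ) - G) 0 ≤ X * (1 / (N : ℚ)) + 1 := by
        apply max_le
        · linarith
        · linarith
      linarith
  have h9 : ((|((C : ℕ) : ℚ) - X * (1 / (N : ℚ))| : ℚ) : ℝ) ≤ ((1 : ℚ) : ℝ) := by exact_mod_cast key
  push_cast at h9
  exact h9

private theorem trI_prodi (Q : Finset ℕ) (s : Finset {p // p ∈ Q}) :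
    ∏ p ∈ s, (1 / qr Q p) = 1 / (nrm (vr Q) s : ℝ) := by
  unfold nrm
  rw [Nat.cast_prod, prod_div_distrib, prod_const_one]
  rfl

private theorem trI_cnt (Q : Finset ℕ) (a : J → ℕ) (hF : FormsQ Q a) (N : ℕ) (hN : 1 ≤ N)
    (c0 d e : {p // p ∈ Q} → Option J) :
    |(((Ico N (2 * N)).filter (fun n => le c0 (colq a Q n) ∧
        (le d (colq a Q n) ∧ le e (colq a Q n)))).card : ℝ) -
      N * (if comp d e ∧ comp (join d e) c0 then
        ∏ p ∈ supp (join (join d e) c0), (1 / qr Q p) else 0)| ≤ 1 := by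
  classical
  by_cases hc : comp d e ∧ comp (join d e) c0
  · rw [if_pos hc, trI_prodi]
    obtain ⟨ρ, -, hρ⟩ := resq Q a hF (join (join d e) c0)
    have h1 : ((Ico N (2 * N)).filter (fun n => le c0 (colq a Q n) ∧
        (le d (colq a Q n) ∧ le e (colq a Q n)))) =
        (Ico N (2 * N)).filter (fun n => n ≡ ρ [MOD nrm (vr Q) (supp (join (join d e) c0))]) := by
      apply filter_congr
      intro n hn
      have hn1 : 1 ≤ n := hN.trans (mem_Ico.1 hn).1
      rw [← hρ n hn1, le_and]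
      constructor
      · rintro ⟨h1, -, h2⟩
        exact ((le_and _ _ _).1 ⟨h2, h1⟩).2
      · intro h
        have h2 := (le_and (join d e) c0 _).2 ⟨hc.2, h⟩
        exact ⟨h2.2, hc.1, h2.1⟩
    rw [h1]
    exact trI_ap N _ ρ (nrmq_pos Q hF.prime _)
  · rw [if_neg hc]
    have h1 : ((Ico N (2 * N)).filter (fun n => le c0 (colq a Q n) ∧
        (le d (colq a Q n) ∧ le e (colq a Q n)))) = ∅ := by
      apply filter_eq_empty_iff.2
      rintro n _ ⟨h1, h2⟩
      rw [le_and] at h2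
      exact hc ⟨h2.1, ((le_and _ _ _).1 ⟨h2.2, h1⟩).1⟩
    rw [h1]
    simp

private theorem trI_EI {P : Type} [Fintype P] [DecidableEq P] (q : P → ℝ) (hq : ∀ p, 3 ≤ q p)
    (c0 d e : P → Option J) :
    EI q (fun ξ => if le c0 ξ then
      ((if le d ξ then (1 : ℝ) else 0) * (if le e ξ then 1 else 0)) else 0) =
      if comp d e ∧ comp (join d e) c0 then ∏ p ∈ supp (join (join d e) c0), (1 / q p) else 0 := by
  by_cases hc : comp d e
  · have h1 : (fun ξ : P → Option J => if le c0 ξ then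
        ((if le d ξ then (1 : ℝ) else 0) * (if le e ξ then 1 else 0)) else 0) =
        fun ξ => (if le (join d e) ξ then (1 : ℝ) else 0) * (if le c0 ξ then 1 else 0) := by
      funext ξ
      have h := le_and d e ξ
      by_cases h2 : le d ξ <;> by_cases h3 : le e ξ <;> by_cases h5 : le (join d e) ξ <;>
        by_cases h6 : le c0 ξ <;> simp_all
    rw [h1, EI_le q hq]
    simp [hc]
  · have h1 : (fun ξ : P → Option J => if le c0 ξ then
        ((if le d ξ then (1 : ℝ) else 0) * (if le e ξ then 1 else 0)) else 0) = fun _ => 0 := by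
      funext ξ
      have h := le_and d e ξ
      by_cases h2 : le d ξ <;> by_cases h3 : le e ξ <;> by_cases h6 : le c0 ξ <;> simp_all
    rw [h1]
    simp [EI, EE, hc]

theorem tr_intq (Q : Finset ℕ) (a : J → ℕ) (hF : FormsQ Q a) (N : ℕ) (hN : 1 ≤ N)
    (y : ({p // p ∈ Q} → Option J) → ℝ) (c0 : {p // p ∈ Q} → Option J) :
    |∑ n ∈ Ico N (2 * N), (if le c0 (colq a Q n) then Lam (qr Q) y (colq a Q n) ^ 2 else 0) -
      N * EI (qr Q) (fun ξ => if le c0 ξ then Lam (qr Q) y ξ ^ 2 else 0)| ≤ (∑ d, |lam (qr Q) y d|) ^ 2 := by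
  classical
  have h3q : ∀ p, 3 ≤ qr Q p := by
    intro p
    have h := hF.big p.1 p.2
    have h3 : 3 ≤ p.1 := by omega
    unfold qr
    exact_mod_cast h3
  set T' := (Ico N (2 * N)).filter (fun n => le c0 (colq a Q n)) with hT'
  have h1 : ∑ n ∈ Ico N (2 * N),
      (if le c0 (colq a Q n) then Lam (qr Q) y (colq a Q n) ^ 2 else 0) =
      ∑ d : {p // p ∈ Q} → Option J, ∑ e : {p // p ∈ Q} → Option J,
        lam (qr Q) y d * lam (qr Q) y e *
        (((Ico N (2 * N)).filter (fun n => le c0 (colq a Q n) ∧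
          (le d (colq a Q n) ∧ le e (colq a Q n)))).card : ℝ) := by
    have h0 := sum_ind T' (fun n => colq a Q n) (lam (qr Q) y)
    simp_rw [hT', filter_filter] at h0
    rw [← h0, sum_filter]
    refine sum_congr rfl fun n _ => ?_
    split_ifs
    · exact Lam_sq _ _ _
    · rfl
  have h2 : EI (qr Q) (fun ξ => if le c0 ξ then Lam (qr Q) y ξ ^ 2 else 0) =
      ∑ d : {p // p ∈ Q} → Option J, ∑ e : {p // p ∈ Q} → Option J,
        lam (qr Q) y d * lam (qr Q) y e *
          (if comp d e ∧ comp (join d e) c0 then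
            ∏ p ∈ supp (join (join d e) c0), (1 / qr Q p) else 0) := by
    have h3 : (fun ξ : {p // p ∈ Q} → Option J =>
        if le c0 ξ then Lam (qr Q) y ξ ^ 2 else 0) =
        fun ξ => ∑ d : {p // p ∈ Q} → Option J, ∑ e : {p // p ∈ Q} → Option J,
          lam (qr Q) y d * lam (qr Q) y e *
          (if le c0 ξ then
            ((if le d ξ then (1 : ℝ) else 0) * (if le e ξ then 1 else 0)) else 0) := by
      funext ξ
      split_ifs
      · exact Lam_sq _ _ _
      · simp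
    rw [h3]
    unfold EI
    rw [EE_lin]
    refine sum_congr rfl fun d _ => sum_congr rfl fun e _ => ?_
    congr 1
    exact trI_EI (qr Q) h3q c0 d e
  rw [h1, h2, mul_sum, ← sum_sub_distrib]
  have h4 : (∑ d : {p // p ∈ Q} → Option J, |lam (qr Q) y d|) ^ 2 =
      ∑ d : {p // p ∈ Q} → Option J, ∑ e : {p // p ∈ Q} → Option J,
        |lam (qr Q) y d| * |lam (qr Q) y e| := by
    rw [sq, sum_mul_sum]
  rw [h4]
  refine (abs_sum_le_sum_abs _ _).trans (sum_le_sum fun d _ => ?_)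
  rw [mul_sum, ← sum_sub_distrib]
  refine (abs_sum_le_sum_abs _ _).trans (sum_le_sum fun e _ => ?_)
  have h5 := trI_cnt Q a hF N hN c0 d e
  have h6 : ∀ t u : ℝ, lam (qr Q) y d * lam (qr Q) y e * t -
      N * (lam (qr Q) y d * lam (qr Q) y e * u) =
      lam (qr Q) y d * lam (qr Q) y e * (t - N * u) := fun t u => by ring
  rw [h6, abs_mul, abs_mul]
  calc |lam (qr Q) y d| * |lam (qr Q) y e| * _
      ≤ |lam (qr Q) y d| * |lam (qr Q) y e| * 1 :=
        mul_le_mul_of_nonneg_left h5 (by positivity)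
    _ = _ := mul_one _

end Pool.CP
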