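import Pool.Agent.Lib.MP_c77da8_nt.CP.ColP
import Pool.Agent.Lib.MP_c77da8_nt.DL.Expd
import Pool.Agent.Lib.MP_c77da8_nt.DL.Tr

/-!
# CP-TrP: transfer from the primes to the prime model, with the weights `log`

PROOF (compare `cnt_prime`, `cnt_bij` in `DL/Cnt.lean` and `tr_prime` in `DL/Tr.lean`).  Fix `d, e`, `D = join d e`, `m = nrm (vr Q) (supp D)`.
If not `comp d e`, or `d` or `e` uses the colour `i`: no `n ∈ Ico N (2N)` with `a i * n - 1` prime satisfies `le d`, `le e` (a prime `p ∈ Q` would divide the prime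
`a i * n - 1 ≥ N - 1 > R ≥ p`); take `c d e = 1`.  Otherwise let `ρ` be the class of `D` (`resq`), `c = a i * (ρ + m) - 1`: coprime to `a i` and to `m` (`resq_cop`).
`n ↦ a i * n - 1` is a bijection from the `n ∈ Ico N (2N)` with `n ≡ ρ (mod m)` and `a i * n - 1` prime onto the primes `p` with `a i N - 2 < p ≤ 2 a i N - 2`,
`p ≡ c (mod a i * m)`.  So the sum of `log (a i * n - 1)` over these `n` is
`(Et (2 a i N - 2) (a i m) c + (2 a i N - 2)/φ) - (Et (a i N - 2) (a i m) c + (a i N - 2)/φ)`, `φ = φ(a i m) = φ(a i) φ(m)` (`nrmq_cop`), `φ(m) = ∏ (p - 1)` (`totq_nrm`), and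
`(2 a i N - 2) - (a i N - 2) = a i N`.  Sum over `d, e` as in `tr_prime` (`EP_le`, `Lam_sq`, `EE_lin`).
-/

set_option autoImplicit false

namespace Pool.CP

open Finset Pool.DL

variable {J : Type} [Fintype J] [DecidableEq J]

/-- the weighted form of `sum_ind` -/
private theorem trp_ind {P : Type} [Fintype P] [DecidableEq P] (T : Finset ℕ) (f : ℕ → P → Option J) (w : ℕ → ℝ)
    (lm : (P → Option J) → ℝ) :
    ∑ m ∈ T, w m * ∑ d : P → Option J, ∑ e : P → Option J, lm d * lm e *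
      ((if le d (f m) then 1 else 0) * (if le e (f m) then 1 else 0)) =
    ∑ d : P → Option J, ∑ e : P → Option J, lm d * lm e *
      ∑ m ∈ T.filter (fun m => le d (f m) ∧ le e (f m)), w m := by
  have h0 : ∀ m ∈ T, w m * ∑ d : P → Option J, ∑ e : P → Option J, lm d * lm e *
      ((if le d (f m) then 1 else 0) * (if le e (f m) then 1 else 0)) =
      ∑ d : P → Option J, ∑ e : P → Option J, lm d * lm e *
        (if le d (f m) ∧ le e (f m) then w m else 0) := by
    intro m _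
    rw [mul_sum]
    refine sum_congr rfl fun d _ => ?_
    rw [mul_sum]
    refine sum_congr rfl fun e _ => ?_
    by_cases h1 : le d (f m) <;> by_cases h2 : le e (f m) <;> simp [h1, h2, mul_comm]
  rw [sum_congr rfl h0, sum_comm]
  refine sum_congr rfl fun d _ => ?_
  rw [sum_comm]
  refine sum_congr rfl fun e _ => ?_
  rw [sum_filter, mul_sum]

/-- the bijection `n ↦ A n - 1` -/
private theorem trp_bij (N A q ρ : ℕ) (hA : 1 ≤ A) (hN : 1 ≤ N) (hρ : 1 ≤ ρ) :
    ∑ n ∈ (Ico N (2 * N)).filter (fun n => (A * n - 1).Prime ∧ n ≡ ρ [MOD q]), Real.log ((A * n - 1 : ℕ) : ℝ) =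
      ∑ p ∈ (Ioc (A * N - 2) (2 * A * N - 2)).filter (fun p => p.Prime ∧ p ≡ A * ρ - 1 [MOD A * q]),
        Real.log (p : ℝ) := by
  have hAρ : 1 ≤ A * ρ := Nat.one_le_iff_ne_zero.2 (by positivity)
  have hAN : 1 ≤ A * N := Nat.one_le_iff_ne_zero.2 (by positivity)
  have e1 : 2 * A * N = A * (2 * N) := by ring
  refine sum_bij (fun n _ => A * n - 1) ?_ ?_ ?_ (fun n _ => rfl)
  · intro n hn
    rw [mem_filter, mem_Ico] at hn
    rw [mem_filter, mem_Ioc]
    obtain ⟨⟨a1, a2⟩, a3, a4⟩ := hn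
    have b1 : A * N ≤ A * n := Nat.mul_le_mul_left A a1
    have b2 : A * (n + 1) ≤ A * (2 * N) := Nat.mul_le_mul_left A a2
    have b3 : A * (n + 1) = A * n + A := by ring
    have b4 := a3.two_le
    refine ⟨⟨by omega, by omega⟩, a3, ?_⟩
    have b5 : A * n ≡ A * ρ [MOD A * q] := Nat.ModEq.mul_left' A a4
    have b6 : A * n - 1 + 1 ≡ A * ρ - 1 + 1 [MOD A * q] := by
      rw [Nat.sub_add_cancel hAρ, Nat.sub_add_cancel (by omega)]
      exact b5
    exact Nat.ModEq.add_right_cancel' 1 b6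
  · intro m hm n hn h
    rw [mem_filter, mem_Ico] at hm hn
    have b1 := hm.2.1.two_le
    have b2 := hn.2.1.two_le
    have h1 : A * m = A * n := by
      omega
    exact Nat.eq_of_mul_eq_mul_left (by omega) h1
  · intro p hp
    rw [mem_filter, mem_Ioc] at hp
    obtain ⟨⟨a1, a2⟩, a3, a4⟩ := hp
    have b0 := a3.two_le
    have b1 : p + 1 ≡ A * ρ [MOD A * q] := by
      have := Nat.ModEq.add_right 1 a4
      rwa [Nat.sub_add_cancel hAρ] at this
    have b2 : A ∣ p + 1 := by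
      have h1 : p + 1 ≡ A * ρ [MOD A] := b1.of_dvd (dvd_mul_right A q)
      exact (Nat.modEq_zero_iff_dvd).1 (h1.trans ((Nat.modEq_zero_iff_dvd).2 (dvd_mul_right A ρ)))
    obtain ⟨n, hn⟩ := b2
    refine ⟨n, ?_, by omega⟩
    rw [mem_filter, mem_Ico]
    have c1 : A * n - 1 = p := by omega
    refine ⟨⟨?_, ?_⟩, by rw [c1]; exact a3, ?_⟩
    · have h5 : A * N ≤ A * n := by omega
      exact le_of_mul_le_mul_left h5 (by omega)
    · have h5 : A * n < A * (2 * N) := by omega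
      exact lt_of_mul_lt_mul_left h5 (Nat.zero_le A)
    · rw [hn] at b1
      exact Nat.ModEq.mul_left_cancel' (by omega) b1

/-- the primes in a class of an interval -/
private theorem trp_Ioc (U0 U1 q c : ℕ) (h : U0 ≤ U1) :
    ∑ p ∈ (Ioc U0 U1).filter (fun p => p.Prime ∧ p ≡ c [MOD q]), Real.log (p : ℝ) =
      (Pool.BV.Et U1 q c + U1 / (Nat.totient q : ℝ)) - (Pool.BV.Et U0 q c + U0 / (Nat.totient q : ℝ)) := by
  have h1 : (Icc 1 U1).filter (fun n => n.Prime ∧ n ≡ c [MOD q]) =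
      (Icc 1 U0).filter (fun n => n.Prime ∧ n ≡ c [MOD q]) ∪
      (Ioc U0 U1).filter (fun n => n.Prime ∧ n ≡ c [MOD q]) := by
    ext n
    simp only [mem_union, mem_filter, mem_Icc, mem_Ioc]
    constructor
    · rintro ⟨⟨a1, a2⟩, a3⟩
      by_cases h2 : n ≤ U0
      · exact Or.inl ⟨⟨a1, h2⟩, a3⟩
      · exact Or.inr ⟨⟨by omega, a2⟩, a3⟩
    · rintro (⟨⟨a1, a2⟩, a3⟩ | ⟨⟨a1, a2⟩, a3⟩)
      · exact ⟨⟨a1, by omega⟩, a3⟩
      · exact ⟨⟨by omega, a2⟩, a3⟩
  have h2 : Disjoint ((Icc 1 U0).filter (fun n => n.Prime ∧ n ≡ c [MOD q]))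
      ((Ioc U0 U1).filter (fun n => n.Prime ∧ n ≡ c [MOD q])) := by
    rw [disjoint_left]
    intro n hn hn'
    simp only [mem_filter, mem_Icc, mem_Ioc] at hn hn'
    omega
  unfold Pool.BV.Et
  rw [h1, sum_union h2]
  ring

private theorem trp_prodp (Q : Finset ℕ) (hQ : ∀ p ∈ Q, p.Prime) (S : Finset {p // p ∈ Q}) :
    ∏ p ∈ S, (1 / (qr Q p - 1)) = 1 / ((Nat.totient (nrm (vr Q) S) : ℕ) : ℝ) := by
  rw [totq_nrm Q hQ, Nat.cast_prod, prod_div_distrib, prod_const_one]
  congr 1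
  apply prod_congr rfl
  intro p _
  have h : 1 ≤ vr Q p := (hQ p.1 p.2).one_lt.le
  rw [Nat.cast_sub h]
  simp [qr, vr]

private theorem trp_count (Q : Finset ℕ) (a : J → ℕ) (hF : FormsQ Q a) (i : J) (N R : ℕ) (hQR : ∀ p ∈ Q, p ≤ R)
    (hR : R + 3 ≤ N) (d e : {p // p ∈ Q} → Option J) :
    ∃ c : ℕ, Nat.Coprime c (a i * nrm (vr Q) (supp (join d e))) ∧
    |∑ n ∈ (Ico N (2 * N)).filter (fun n => (a i * n - 1).Prime ∧ le d (colq a Q n) ∧ le e (colq a Q n)),
        Real.log ((a i * n - 1 : ℕ) : ℝ) -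
      (a i * N : ℝ) / (Nat.totient (a i) : ℝ) *
        (if comp d e ∧ (∀ p, d p ≠ some i) ∧ (∀ p, e p ≠ some i) then
          ∏ p ∈ supp (join d e), (1 / (qr Q p - 1)) else 0)| ≤
      |Pool.BV.Et (2 * a i * N - 2) (a i * nrm (vr Q) (supp (join d e))) c| +
      |Pool.BV.Et (a i * N - 2) (a i * nrm (vr Q) (supp (join d e))) c| := by
  classical
  have hA := hF.pos i
  have hN : 1 ≤ N := by omega
  have hAN : N ≤ a i * N := Nat.le_mul_of_pos_left N hA
  by_cases hc : comp d e ∧ (∀ p, d p ≠ some i) ∧ (∀ p, e p ≠ some i)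
  · rw [if_pos hc, trp_prodp Q hF.prime]
    obtain ⟨h1, h2, h3⟩ := hc
    obtain ⟨ρ, hρ1, hρ⟩ := resq Q a hF (join d e)
    set m := nrm (vr Q) (supp (join d e)) with hm
    have hji : ∀ p, join d e p ≠ some i := by
      intro p
      unfold join
      split_ifs
      · exact h3 p
      · exact h2 p
    have hAρ : 1 ≤ a i * ρ := Nat.one_le_iff_ne_zero.2 (by positivity)
    have c1 : Nat.Coprime (a i * ρ - 1) (a i) := by
      rw [Nat.coprime_comm]
      have h4 : Nat.Coprime (a i * ρ) (a i * ρ - 1) := by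
        have h5 : Nat.Coprime (a i * ρ - 1 + 1) (a i * ρ - 1) := by
          simp
        rwa [Nat.sub_add_cancel hAρ] at h5
      exact Nat.Coprime.coprime_dvd_left (dvd_mul_right _ _) h4
    have c2 : Nat.Coprime (a i * ρ - 1) m :=
      resq_cop Q a hF (join d e) i hji ρ hρ1 ((hρ ρ hρ1).2 rfl)
    refine ⟨a i * ρ - 1, c1.mul_right c2, ?_⟩
    have e1 : (Ico N (2 * N)).filter
        (fun n => (a i * n - 1).Prime ∧ le d (colq a Q n) ∧ le e (colq a Q n)) =
        (Ico N (2 * N)).filter (fun n => (a i * n - 1).Prime ∧ n ≡ ρ [MOD m]) := by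
      apply filter_congr
      intro n hn
      rw [mem_Ico] at hn
      rw [le_and, ← hρ n (by omega)]
      exact and_congr_right fun _ => and_iff_right h1
    rw [e1, trp_bij N (a i) m ρ hA hN hρ1, trp_Ioc _ _ _ _ (by nlinarith [Nat.zero_le (a i * N), Nat.sub_le (a i * N) 2, (by
      have : a i * N - 2 ≤ 2 * a i * N - 2 := by
        have e : 2 * a i * N = a i * N + a i * N := by ring
        omega
      exact this : a i * N - 2 ≤ 2 * a i * N - 2)])]
    have e2 : Nat.totient (a i * m) = Nat.totient (a i) * Nat.totient m :=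
      Nat.totient_mul (nrmq_cop Q a hF i _)
    rw [e2, Nat.cast_mul]
    have e4 : ((2 * a i * N - 2 : ℕ) : ℝ) = 2 * (a i : ℝ) * N - 2 := by
      rw [Nat.cast_sub (by
        have e : 2 * a i * N = a i * N + a i * N := by ring
        omega)]
      push_cast
      ring
    have e5 : ((a i * N - 2 : ℕ) : ℝ) = (a i : ℝ) * N - 2 := by
      rw [Nat.cast_sub (by omega)]
      push_cast
      ring
    rw [e4, e5]
    set EU := Pool.BV.Et (2 * a i * N - 2) (a i * m) (a i * ρ - 1)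
    set EV := Pool.BV.Et (a i * N - 2) (a i * m) (a i * ρ - 1)
    have e3 : EU + (2 * (a i : ℝ) * N - 2) / ((Nat.totient (a i) : ℝ) * (Nat.totient m : ℝ)) -
        (EV + ((a i : ℝ) * N - 2) / ((Nat.totient (a i) : ℝ) * (Nat.totient m : ℝ))) -
        ((a i : ℝ) * N) / (Nat.totient (a i) : ℝ) * (1 / (Nat.totient m : ℝ)) = EU - EV := by
      rw [div_mul_div_comm, mul_one]
      ring
    rw [e3]
    exact abs_sub _ _
  · refine ⟨1, Nat.coprime_one_left _, ?_⟩
    rw [if_neg hc]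
    have e1 : (Ico N (2 * N)).filter
        (fun n => (a i * n - 1).Prime ∧ le d (colq a Q n) ∧ le e (colq a Q n)) = ∅ := by
      apply filter_eq_empty_iff.2
      intro n hn h
      rw [mem_Ico] at hn
      obtain ⟨hp, hd, he⟩ := h
      apply hc
      have hbad : ∀ p : {p // p ∈ Q}, colq a Q n p ≠ some i := by
        intro p hp1
        rw [colq_eq Q a hF n (by omega) p i] at hp1
        have b1 := hF.prime p.1 p.2
        have b2 := hQR p.1 p.2
        have := (Nat.prime_dvd_prime_iff_eq b1 hp).1 hp1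
        have h6 : n ≤ a i * n := Nat.le_mul_of_pos_left n hA
        omega
      refine ⟨((le_and d e _).1 ⟨hd, he⟩).1, ?_, ?_⟩
      · intro p hpi
        rcases hd p with h7 | h7
        · rw [hpi] at h7
          exact absurd h7 (by simp)
        · exact hbad p (h7.symm.trans hpi)
      · intro p hpi
        rcases he p with h7 | h7
        · rw [hpi] at h7
          exact absurd h7 (by simp)
        · exact hbad p (h7.symm.trans hpi)
    rw [e1]
    simp only [sum_empty, mul_zero, sub_zero, abs_zero]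
    positivity

theorem tr_primeq (Q : Finset ℕ) (a : J → ℕ) (hF : FormsQ Q a) (i : J) (N R : ℕ) (hQR : ∀ p ∈ Q, p ≤ R)
    (hR : R + 3 ≤ N) :
    ∃ c : ({p // p ∈ Q} → Option J) → ({p // p ∈ Q} → Option J) → ℕ,
      (∀ d e, Nat.Coprime (c d e) (a i * nrm (vr Q) (supp (join d e)))) ∧
      ∀ y : ({p // p ∈ Q} → Option J) → ℝ,
      |∑ n ∈ (Ico N (2 * N)).filter (fun n => (a i * n - 1).Prime),
          Real.log ((a i * n - 1 : ℕ) : ℝ) * Lam (qr Q) y (colq a Q n) ^ 2 -
        (a i * N : ℝ) / (Nat.totient (a i) : ℝ) * EP i (qr Q) (fun ξ => Lam (qr Q) y ξ ^ 2)| ≤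
      ∑ d, ∑ e, |lam (qr Q) y d| * |lam (qr Q) y e| *
        (|Pool.BV.Et (2 * a i * N - 2) (a i * nrm (vr Q) (supp (join d e))) (c d e)| +
         |Pool.BV.Et (a i * N - 2) (a i * nrm (vr Q) (supp (join d e))) (c d e)|) := by
  choose c hc1 hc2 using trp_count Q a hF i N R hQR hR
  refine ⟨c, hc1, fun y => ?_⟩
  set W : ℝ := (a i * N : ℝ) / (Nat.totient (a i) : ℝ) with hW
  have h1 : ∑ n ∈ (Ico N (2 * N)).filter (fun n => (a i * n - 1).Prime),
        Real.log ((a i * n - 1 : ℕ) : ℝ) * Lam (qr Q) y (colq a Q n) ^ 2 =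
      ∑ d : {p // p ∈ Q} → Option J, ∑ e : {p // p ∈ Q} → Option J,
        lam (qr Q) y d * lam (qr Q) y e *
        ∑ n ∈ (Ico N (2 * N)).filter (fun n => (a i * n - 1).Prime ∧ le d (colq a Q n) ∧ le e (colq a Q n)),
          Real.log ((a i * n - 1 : ℕ) : ℝ) := by
    have h0 := trp_ind ((Ico N (2 * N)).filter (fun n => (a i * n - 1).Prime))
      (fun n => colq a Q n) (fun n => Real.log ((a i * n - 1 : ℕ) : ℝ)) (lam (qr Q) y)
    simp_rw [filter_filter] at h0
    rw [← h0]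
    exact sum_congr rfl fun n _ => by rw [Lam_sq]
  have hq3 : ∀ p : {p // p ∈ Q}, 3 ≤ qr Q p := by
    intro p
    have h := hF.big p.1 p.2
    unfold qr
    have h2 : ((12 : ℕ) : ℝ) ≤ (p.1 : ℝ) := by exact_mod_cast h
    push_cast at h2
    linarith
  have h2 : EP i (qr Q) (fun ξ => Lam (qr Q) y ξ ^ 2) =
      ∑ d : {p // p ∈ Q} → Option J, ∑ e : {p // p ∈ Q} → Option J,
        lam (qr Q) y d * lam (qr Q) y e *
          (if comp d e ∧ (∀ p, d p ≠ some i) ∧ (∀ p, e p ≠ some i) then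
            ∏ p ∈ supp (join d e), (1 / (qr Q p - 1)) else 0) := by
    have h3 : (fun ξ : {p // p ∈ Q} → Option J => Lam (qr Q) y ξ ^ 2) =
        fun ξ => ∑ d : {p // p ∈ Q} → Option J, ∑ e : {p // p ∈ Q} → Option J,
          lam (qr Q) y d * lam (qr Q) y e *
          ((if le d ξ then 1 else 0) * (if le e ξ then 1 else 0)) :=
      funext fun ξ => Lam_sq _ _ _
    rw [h3]
    unfold EP
    rw [EE_lin]
    refine sum_congr rfl fun d _ => sum_congr rfl fun e _ => ?_
    congr 1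
    exact EP_le i (qr Q) hq3 d e
  rw [h1, h2, mul_sum, ← sum_sub_distrib]
  refine (abs_sum_le_sum_abs _ _).trans (sum_le_sum fun d _ => ?_)
  rw [mul_sum, ← sum_sub_distrib]
  refine (abs_sum_le_sum_abs _ _).trans (sum_le_sum fun e _ => ?_)
  have h5 := hc2 d e
  have h6 : ∀ t u : ℝ, lam (qr Q) y d * lam (qr Q) y e * t -
      W * (lam (qr Q) y d * lam (qr Q) y e * u) =
      lam (qr Q) y d * lam (qr Q) y e * (t - W * u) := fun t u => by ring
  rw [h6, abs_mul, abs_mul]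
  exact mul_le_mul_of_nonneg_left h5 (by positivity)

end Pool.CP
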