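import Pool.Agent.Lib.MP_c77da8_nt.CP.Jump
import Pool.Agent.Lib.MP_c77da8_nt.CP.SumsE

/-!
# CP-Window: the sums over the sets with norm in a window `(U/p, U]`

Notation: `g q = x_q (1 + K x_q)`, `L = log p`; `1 + g ≤ (1 + x) (1 + K x²)`, `∏ (1 + K x_q²) ≤ exp (K · 2/w) ≤ exp 2` (`sqe`, `K ≤ w`).
(a) For all real `U ≥ 1` `V(U) := ∑_{nm a ≤ U} ∏_{q ∈ a} g q ≤ ∏_{q ∈ Q, q ≤ U} (1 + g q) ≤ C1 (log (max U w) + 1)/wD w`: if `U ≥ w` by `V_upe` (its second part for
`R = ⌊U⌋`: the `q ∈ Q` with `q ≤ U` are in `Qe w ⌊U⌋ e`), if `U < w` the product is empty and `wD w ≤ C (1 + log w)` (`wD_le`).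
(b) `U < 1`: the sum is empty (`nm a ≥ 1`).  (c) `1 ≤ U ≤ p²`: `Wd ≤ V(U) ≤ C L/wD w` (`p > w ≥ 12`).
(d) `U > p²`: for `a` in the window `log (nm a) ≥ log (U/p) ≥ (log U)/2`, so `Wd · (log U)/2 ≤ ∑_{a in the window} g(a) ∑_{q ∈ a} log q
= ∑_b g(b) ∑_{q ∉ b, insert q b in the window} g q log q ≤ ∑_{nm b ≤ U} g(b) · ∑_{q ∈ Q, Y/p < q ≤ Y} g q log q`, `Y = U/nm b`.  `g q ≤ 3/q` (`K ≤ w < q`, so `K x ≤ 1.2`, `x ≤ 1.2/q`), and
`∑_{Y/p < q ≤ Y, q prime} log q/q ≤ 8 L` for all real `Y > 0`: the interval is covered by at most `log p/log 2 + 1` dyadic intervals `(y, 2y]`, each with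
`∑ log q/q ≤ (1/y) θ(2y) ≤ 2 log 4` (`Chebyshev.theta_le_log4_mul_x`).  So `Wd ≤ (2/log U) · V(U) · 24 L ≤ C L/wD w`.
-/

set_option autoImplicit false

namespace Pool.CP

open Finset Pool.DL

private theorem Window_dy (Q : Finset ℕ) (hQ : ∀ q ∈ Q, q.Prime) {y : ℝ} (hy : 0 < y) :
    ∑ q ∈ Q, (if y < (q : ℝ) ∧ (q : ℝ) ≤ 2 * y then Real.log q / q else 0) ≤ 2 * Real.log 4 := by
  rw [← sum_filter]
  have h1 : ∑ q ∈ Q.filter (fun q : ℕ => y < (q : ℝ) ∧ (q : ℝ) ≤ 2 * y), Real.log q / q ≤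
      ∑ q ∈ Q.filter (fun q : ℕ => y < (q : ℝ) ∧ (q : ℝ) ≤ 2 * y), Real.log q / y := by
    refine sum_le_sum fun q hq => ?_
    rw [mem_filter] at hq
    have hq1 : (1 : ℝ) ≤ q := by exact_mod_cast (hQ q hq.1).one_lt.le
    exact div_le_div_of_nonneg_left (Real.log_nonneg hq1) hy hq.2.1.le
  have h2 : ∑ q ∈ Q.filter (fun q : ℕ => y < (q : ℝ) ∧ (q : ℝ) ≤ 2 * y), Real.log q ≤
      Chebyshev.theta (2 * y) := by
    unfold Chebyshev.theta
    refine sum_le_sum_of_subset_of_nonneg ?_ ?_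
    · intro q hq
      rw [mem_filter] at hq ⊢
      rw [mem_Ioc]
      exact ⟨⟨(hQ q hq.1).pos, Nat.le_floor hq.2.2⟩, hQ q hq.1⟩
    · intro q hq _
      rw [mem_filter] at hq
      exact Real.log_nonneg (by exact_mod_cast hq.2.one_lt.le)
  have h3 := Chebyshev.theta_le_log4_mul_x (x := 2 * y) (by positivity)
  refine h1.trans ?_
  rw [← sum_div, div_le_iff₀ hy]
  linarith

private theorem Window_k (Q : Finset ℕ) (hQ : ∀ q ∈ Q, q.Prime) (k : ℕ) {Y : ℝ} (hY : 0 < Y) :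
    ∑ q ∈ Q, (if Y < (q : ℝ) * 2 ^ k ∧ (q : ℝ) ≤ Y then Real.log q / q else 0) ≤ k * (2 * Real.log 4) := by
  induction k with
  | zero =>
    rw [Nat.cast_zero, zero_mul]
    refine (sum_nonpos fun q hq => ?_)
    rw [if_neg]
    rintro ⟨h1, h2⟩
    rw [pow_zero, mul_one] at h1
    linarith
  | succ k ih =>
    have h1 := Window_dy Q hQ (y := Y / 2 ^ (k + 1)) (by positivity)
    have h2 : ∑ q ∈ Q, (if Y < (q : ℝ) * 2 ^ (k + 1) ∧ (q : ℝ) ≤ Y then Real.log q / q else 0) ≤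
        ∑ q ∈ Q, ((if Y < (q : ℝ) * 2 ^ k ∧ (q : ℝ) ≤ Y then Real.log q / q else 0) +
          (if Y / 2 ^ (k + 1) < (q : ℝ) ∧ (q : ℝ) ≤ 2 * (Y / 2 ^ (k + 1)) then Real.log q / q else 0)) := by
      refine sum_le_sum fun q hq => ?_
      have hq1 : (1 : ℝ) ≤ q := by exact_mod_cast (hQ q hq).one_lt.le
      have h0 : 0 ≤ Real.log q / q := div_nonneg (Real.log_nonneg hq1) (by linarith)
      by_cases h3 : Y < (q : ℝ) * 2 ^ (k + 1) ∧ (q : ℝ) ≤ Y
      · rw [if_pos h3]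
        by_cases h4 : Y < (q : ℝ) * 2 ^ k
        · rw [if_pos ⟨h4, h3.2⟩]
          split_ifs <;> linarith
        · have h5 : Y / 2 ^ (k + 1) < (q : ℝ) ∧ (q : ℝ) ≤ 2 * (Y / 2 ^ (k + 1)) := by
            constructor
            · rw [div_lt_iff₀ (by positivity)]
              exact h3.1
            · rw [← mul_div_assoc, le_div_iff₀ (by positivity), pow_succ]
              push Not at h4
              linarith
          rw [if_pos h5]
          split_ifs <;> linarith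
      · rw [if_neg h3]
        split_ifs <;> linarith
    rw [sum_add_distrib] at h2
    push_cast
    linarith

private theorem Window_p (Q : Finset ℕ) (hQ : ∀ q ∈ Q, q.Prime) {p : ℕ} (hp : 2 ≤ p) {Y : ℝ} (hY : 0 < Y) :
    ∑ q ∈ Q, (if Y < (q : ℝ) * p ∧ (q : ℝ) ≤ Y then Real.log q / q else 0) ≤ 8 * Real.log p := by
  have h1 := Window_k Q hQ (Nat.log 2 p + 1) hY
  have h2 : ∑ q ∈ Q, (if Y < (q : ℝ) * p ∧ (q : ℝ) ≤ Y then Real.log q / q else 0) ≤
      ∑ q ∈ Q, (if Y < (q : ℝ) * 2 ^ (Nat.log 2 p + 1) ∧ (q : ℝ) ≤ Y then Real.log q / q else 0) := by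
    refine sum_le_sum fun q hq => ?_
    have hq1 : (1 : ℝ) ≤ q := by exact_mod_cast (hQ q hq).one_lt.le
    have h0 : 0 ≤ Real.log q / q := div_nonneg (Real.log_nonneg hq1) (by linarith)
    by_cases h3 : Y < (q : ℝ) * p ∧ (q : ℝ) ≤ Y
    · have h4 : (p : ℝ) ≤ 2 ^ (Nat.log 2 p + 1) := by
        have h5 : p < 2 ^ (Nat.log 2 p + 1) := Nat.lt_pow_succ_log_self (by norm_num) p
        exact_mod_cast h5.le
      have h5 : (q : ℝ) * p ≤ (q : ℝ) * 2 ^ (Nat.log 2 p + 1) :=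
        mul_le_mul_of_nonneg_left h4 (by linarith)
      rw [if_pos h3, if_pos ⟨lt_of_lt_of_le h3.1 h5, h3.2⟩]
    · rw [if_neg h3]
      split_ifs <;> linarith
  have h3 : Real.log 4 = 2 * Real.log 2 := by
    rw [show (4 : ℝ) = 2 ^ 2 by norm_num, Real.log_pow]
    push_cast
    ring
  have h4 : (Nat.log 2 p : ℝ) * Real.log 2 ≤ Real.log p := by
    rw [← Real.log_pow]
    refine Real.log_le_log (by positivity) ?_
    exact_mod_cast Nat.pow_log_le_self 2 (by omega : p ≠ 0)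
  have h5 : Real.log 2 ≤ Real.log p := Real.log_le_log (by norm_num) (by exact_mod_cast hp)
  push_cast at h1
  rw [h3] at h1
  nlinarith

section

variable {w R e : ℕ}

private theorem Window_q (q : {p // p ∈ Qe w R e}) (hw : 12 ≤ w) :
    (q.1).Prime ∧ w < q.1 ∧ q.1 ≤ R ∧ q.1 ≠ e ∧ (13 : ℝ) ≤ (q.1 : ℝ) ∧ (w : ℝ) + 1 ≤ (q.1 : ℝ) := by
  have h := (mem_Qe w R e q.1).1 q.2
  refine ⟨h.1, h.2.1, h.2.2.1, h.2.2.2, ?_, ?_⟩
  · have : 13 ≤ q.1 := by omega
    exact_mod_cast this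
  · have : w + 1 ≤ q.1 := by omega
    exact_mod_cast this

private theorem Window_x (q : {p // p ∈ Qe w R e}) (hw : 12 ≤ w) : 0 ≤ xx (qr (Qe w R e)) q := by
  have h := (Window_q q hw).2.2.2.2.1
  unfold xx qr
  exact div_nonneg zero_le_one (by linarith)

private theorem Window_g0 (K : ℕ) (q : {p // p ∈ Qe w R e}) (hw : 12 ≤ w) :
    0 ≤ xx (qr (Qe w R e)) q * (1 + K * xx (qr (Qe w R e)) q) := by
  have h := Window_x q hw
  positivity

private theorem Window_g3 (K : ℕ) (hK : K ≤ w) (q : {p // p ∈ Qe w R e}) (hw : 12 ≤ w) :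
    xx (qr (Qe w R e)) q * (1 + K * xx (qr (Qe w R e)) q) ≤ 3 / (q.1 : ℝ) := by
  obtain ⟨-, -, -, -, h1, h2⟩ := Window_q q hw
  have hK' : (K : ℝ) ≤ (q.1 : ℝ) - 1 := by
    have : (K : ℝ) ≤ (w : ℝ) := by exact_mod_cast hK
    linarith
  have h3 : xx (qr (Qe w R e)) q = 1 / ((q.1 : ℝ) - 2) := rfl
  rw [h3]
  set t : ℝ := (q.1 : ℝ) with ht
  have h4 : 0 < t - 2 := by linarith
  have h5 : 1 / (t - 2) ≤ 1.2 / t := by
    rw [div_le_div_iff₀ h4 (by linarith)]
    linarith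
  have h6 : (K : ℝ) * (1 / (t - 2)) ≤ 1.2 := by
    rw [mul_one_div, div_le_iff₀ h4]
    linarith
  have h7 : (0 : ℝ) < 1 / (t - 2) := by positivity
  calc 1 / (t - 2) * (1 + (K : ℝ) * (1 / (t - 2))) ≤ 1.2 / t * (1 + 1.2) := by
        refine mul_le_mul h5 (by linarith) ?_ (by positivity)
        have : (0 : ℝ) ≤ (K : ℝ) * (1 / (t - 2)) := by positivity
        linarith
    _ ≤ 3 / t := by
        rw [div_mul_eq_mul_div]
        exact div_le_div_of_nonneg_right (by norm_num) (by linarith)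

private theorem Window_nrm (hw : 12 ≤ w) (a : Finset {p // p ∈ Qe w R e}) : 1 ≤ nrm (vr (Qe w R e)) a := by
  unfold nrm
  refine Nat.one_le_iff_ne_zero.2 (prod_ne_zero_iff.2 fun q _ => ?_)
  exact (Window_q q hw).1.ne_zero

private theorem Window_mem (hw : 12 ≤ w) (a : Finset {p // p ∈ Qe w R e}) {q : {p // p ∈ Qe w R e}} (hq : q ∈ a) :
    q.1 ≤ nrm (vr (Qe w R e)) a := by
  have h1 : vr (Qe w R e) q ∣ nrm (vr (Qe w R e)) a := dvd_prod_of_mem (vr (Qe w R e)) hq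
  exact Nat.le_of_dvd (Window_nrm hw a) h1

private theorem Window_exp (K : ℕ) (hK : K ≤ w) (hw : 12 ≤ w) (s : Finset {p // p ∈ Qe w R e}) :
    ∏ q ∈ s, (1 + K * xx (qr (Qe w R e)) q ^ 2) ≤ Real.exp 2 := by
  have h1 : ∏ q ∈ s, (1 + K * xx (qr (Qe w R e)) q ^ 2) ≤ ∏ q ∈ s, Real.exp (K * xx (qr (Qe w R e)) q ^ 2) := by
    refine prod_le_prod (fun q _ => ?_) fun q _ => ?_
    · have := Window_x q hw
      positivity
    · have := Real.add_one_le_exp (K * xx (qr (Qe w R e)) q ^ 2)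
      linarith
  rw [← Real.exp_sum] at h1
  refine h1.trans (Real.exp_le_exp.2 ?_)
  rw [← mul_sum]
  have h2 : ∑ q ∈ s, xx (qr (Qe w R e)) q ^ 2 ≤ ∑ q, xx (qr (Qe w R e)) q ^ 2 :=
    sum_le_sum_of_subset_of_nonneg (subset_univ _) fun _ _ _ => sq_nonneg _
  have h3 := sqe w R e hw
  have hw0 : (0 : ℝ) < w := by
    have : 0 < w := by omega
    exact_mod_cast this
  have hK' : (K : ℝ) ≤ w := by exact_mod_cast hK
  calc (K : ℝ) * ∑ q ∈ s, xx (qr (Qe w R e)) q ^ 2 ≤ w * (2 / w) :=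
        mul_le_mul hK' (h2.trans h3) (sum_nonneg fun _ _ => sq_nonneg _) hw0.le
    _ = 2 := by field_simp

/-- the sets with norm `≤ U` -/
private noncomputable def Window_V (K w R e : ℕ) (U : ℝ) : ℝ :=
  open Classical in
  ∑ a ∈ univ.filter (fun a : Finset {p // p ∈ Qe w R e} => (nrm (vr (Qe w R e)) a : ℝ) ≤ U),
    ∏ q ∈ a, (xx (qr (Qe w R e)) q * (1 + K * xx (qr (Qe w R e)) q))

private theorem Window_V_le (K : ℕ) {CV : ℕ} (h2 : ∀ w R e : ℕ, 12 ≤ w → w ≤ R →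
      ∏ p : {p // p ∈ Qe w R e}, (1 + xx (qr (Qe w R e)) p) ≤ CV * Real.log R / wD w)
    (hw : 12 ≤ w) (hK : K ≤ w) {U : ℝ} (hU : 0 ≤ U) :
    Window_V K w R e U ≤ Real.exp 2 * (CV * Real.log (max U w) / wD w) := by
  classical
  set m : ℕ := max ⌊U⌋₊ w with hm
  set s : Finset {p // p ∈ Qe w R e} := univ.filter fun q => q.1 ≤ m with hs
  have e1 : Window_V K w R e U ≤ ∏ q ∈ s, (1 + xx (qr (Qe w R e)) q * (1 + K * xx (qr (Qe w R e)) q)) := by
    rw [prod_one_add]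
    unfold Window_V
    refine sum_le_sum_of_subset_of_nonneg ?_ fun a _ _ => prod_nonneg fun q _ => Window_g0 K q hw
    intro a ha
    rw [mem_filter] at ha
    rw [mem_powerset]
    intro q hq
    rw [hs, mem_filter]
    refine ⟨mem_univ _, le_trans ?_ (le_max_left _ _)⟩
    exact (Window_mem hw a hq).trans (Nat.le_floor ha.2)
  have e2 : ∏ q ∈ s, (1 + xx (qr (Qe w R e)) q * (1 + K * xx (qr (Qe w R e)) q)) ≤
      (∏ q ∈ s, (1 + xx (qr (Qe w R e)) q)) * ∏ q ∈ s, (1 + K * xx (qr (Qe w R e)) q ^ 2) := by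
    rw [← prod_mul_distrib]
    refine prod_le_prod (fun q _ => ?_) fun q _ => ?_
    · have := Window_g0 K q hw
      linarith
    · have h3 := Window_x q hw
      have h4 : 0 ≤ (K : ℝ) * xx (qr (Qe w R e)) q ^ 3 := by positivity
      nlinarith
  have e3 : ∏ q ∈ s, (1 + xx (qr (Qe w R e)) q) ≤
      ∏ q : {p // p ∈ Qe w m e}, (1 + xx (qr (Qe w m e)) q) := by
    have e4 : ∏ q ∈ s, (1 + xx (qr (Qe w R e)) q) =
        ∏ q ∈ (Qe w R e).filter (fun q => q ≤ m), (1 + 1 / ((q : ℝ) - 2)) := by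
      rw [hs, prod_filter, prod_filter, ← prod_coe_sort (Qe w R e)]
      rfl
    have e5 : ∏ q : {p // p ∈ Qe w m e}, (1 + xx (qr (Qe w m e)) q) =
        ∏ q ∈ Qe w m e, (1 + 1 / ((q : ℝ) - 2)) := by
      rw [← prod_coe_sort (Qe w m e)]
      rfl
    rw [e4, e5]
    refine prod_le_prod_of_subset_of_one_le ?_ ?_ ?_
    · intro q hq
      rw [mem_filter, mem_Qe] at hq
      rw [mem_Qe]
      exact ⟨hq.1.1, hq.1.2.1, hq.2, hq.1.2.2.2⟩
    · intro q hq
      rw [mem_filter, mem_Qe] at hq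
      have h5 : (13 : ℝ) ≤ q := by
        have : 13 ≤ q := by omega
        exact_mod_cast this
      have : (0 : ℝ) ≤ 1 / ((q : ℝ) - 2) := div_nonneg zero_le_one (by linarith)
      linarith
    · intro q hq _
      rw [mem_Qe] at hq
      have h5 : (13 : ℝ) ≤ q := by
        have : 13 ≤ q := by omega
        exact_mod_cast this
      have : (0 : ℝ) ≤ 1 / ((q : ℝ) - 2) := div_nonneg zero_le_one (by linarith)
      linarith
  have e6 := h2 w m e hw (le_max_right _ _)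
  have e7 := Window_exp (R := R) (e := e) K hK hw s
  have hwD : 0 < wD w := lt_of_lt_of_le one_pos (wD_one w)
  have hlog : Real.log m ≤ Real.log (max U w) := by
    refine Real.log_le_log ?_ ?_
    · have : 0 < m := lt_of_lt_of_le (by omega) (le_max_right ⌊U⌋₊ w)
      exact_mod_cast this
    · rw [hm]
      push_cast
      exact max_le_max (Nat.floor_le hU) le_rfl
  have e8 : CV * Real.log m / wD w ≤ CV * Real.log (max U w) / wD w :=
    div_le_div_of_nonneg_right (mul_le_mul_of_nonneg_left hlog (Nat.cast_nonneg _)) hwD.le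
  refine e1.trans (e2.trans ?_)
  rw [mul_comm (Real.exp 2)]
  have hnn : 0 ≤ ∏ q ∈ s, (1 + K * xx (qr (Qe w R e)) q ^ 2) :=
    prod_nonneg fun q _ => by
      have := Window_x q hw
      positivity
  have hnn2 : 0 ≤ ∏ q ∈ s, (1 + xx (qr (Qe w R e)) q) :=
    prod_nonneg fun q _ => by
      have := Window_x q hw
      linarith
  exact mul_le_mul (e3.trans (e6.trans e8)) e7 hnn ((hnn2.trans e3).trans (e6.trans e8))

private theorem Window_Wd_le (K : ℕ) (hw : 12 ≤ w) (p : ℕ) (U : ℝ) :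
    Wd (vr (Qe w R e)) (fun q => xx (qr (Qe w R e)) q * (1 + K * xx (qr (Qe w R e)) q)) p U ≤
      Window_V K w R e U := by
  classical
  unfold Wd Window_V
  refine sum_le_sum_of_subset_of_nonneg ?_ fun a _ _ => prod_nonneg fun q _ => Window_g0 K q hw
  intro a ha
  rw [mem_filter] at ha ⊢
  exact ⟨ha.1, ha.2.2⟩

/-- the main step: a prime of the set is split off -/
private theorem Window_split (K : ℕ) (hK : K ≤ w) (hw : 12 ≤ w) {p : ℕ} (hp : 2 ≤ p) {U L : ℝ} (hU : 0 < U)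
    (hL : ∀ x : ℝ, 0 < x → U < x * p → L ≤ Real.log x) :
    Wd (vr (Qe w R e)) (fun q => xx (qr (Qe w R e)) q * (1 + K * xx (qr (Qe w R e)) q)) p U * L ≤
      24 * Real.log p * Window_V K w R e U := by
  classical
  set g : {p // p ∈ Qe w R e} → ℝ := fun q => xx (qr (Qe w R e)) q * (1 + K * xx (qr (Qe w R e)) q) with hg
  have hg0 : ∀ q, 0 ≤ g q := fun q => Window_g0 K q hw
  set v := vr (Qe w R e) with hv
  have hl0 : ∀ q : {p // p ∈ Qe w R e}, 0 ≤ Real.log (q.1 : ℝ) := fun q =>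
    Real.log_nonneg (by have := (Window_q q hw).2.2.2.2.1; linarith)
  set W : Finset (Finset {p // p ∈ Qe w R e}) :=
    univ.filter (fun a : Finset {p // p ∈ Qe w R e} => U < (nrm v a : ℝ) * p ∧ (nrm v a : ℝ) ≤ U) with hW
  have hWd : Wd v g p U = ∑ a ∈ W, ∏ q ∈ a, g q := by
    unfold Wd
    rw [hW]
  have hlog : ∀ a : Finset {p // p ∈ Qe w R e}, Real.log (nrm v a) = ∑ q ∈ a, Real.log (q.1 : ℝ) := by
    intro a
    unfold nrm
    rw [Nat.cast_prod, Real.log_prod]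
    · rfl
    · intro q _
      have := (Window_q q hw).2.2.2.2.1
      have h5 : ((v q : ℕ) : ℝ) = (q.1 : ℝ) := rfl
      rw [h5]
      linarith
  have s1 : Wd v g p U * L ≤ ∑ a ∈ W, ∑ q ∈ a, (∏ r ∈ a, g r) * Real.log (q.1 : ℝ) := by
    rw [hWd, sum_mul]
    refine sum_le_sum fun a ha => ?_
    rw [← mul_sum, ← hlog]
    refine mul_le_mul_of_nonneg_left ?_ (prod_nonneg fun q _ => hg0 q)
    rw [hW, mem_filter] at ha
    refine hL _ ?_ ha.2.1
    exact_mod_cast Window_nrm hw a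
  have s2 : ∑ a ∈ W, ∑ q ∈ a, (∏ r ∈ a, g r) * Real.log (q.1 : ℝ) =
      ∑ q, ∑ a ∈ W.filter (fun a => q ∈ a), (∏ r ∈ a, g r) * Real.log (q.1 : ℝ) := by
    rw [sum_sigma', sum_sigma']
    refine sum_bij' (fun x _ => ⟨x.2, x.1⟩) (fun x _ => ⟨x.2, x.1⟩) ?_ ?_ ?_ ?_ ?_
    · rintro ⟨a, q⟩ h
      rw [mem_sigma] at h ⊢
      exact ⟨mem_univ _, mem_filter.2 ⟨h.1, h.2⟩⟩
    · rintro ⟨q, a⟩ h
      rw [mem_sigma] at h ⊢
      have := mem_filter.1 h.2
      exact ⟨this.1, this.2⟩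
    · rintro ⟨a, q⟩ h
      rfl
    · rintro ⟨q, a⟩ h
      rfl
    · rintro ⟨a, q⟩ h
      rfl
  set B : Finset (Finset {p // p ∈ Qe w R e}) :=
    univ.filter (fun b : Finset {p // p ∈ Qe w R e} => (nrm v b : ℝ) ≤ U) with hB
  have s3 : ∀ q : {p // p ∈ Qe w R e}, ∑ a ∈ W.filter (fun a => q ∈ a), (∏ r ∈ a, g r) * Real.log (q.1 : ℝ) ≤
      ∑ b ∈ B, (if U / nrm v b < (q.1 : ℝ) * p ∧ (q.1 : ℝ) ≤ U / nrm v b then
        (∏ r ∈ b, g r) * (3 * (Real.log (q.1 : ℝ) / (q.1 : ℝ))) else 0) := by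
    intro q
    rw [← sum_filter]
    have hinj : Set.InjOn (fun a : Finset {p // p ∈ Qe w R e} => a.erase q) (W.filter (fun a => q ∈ a)) := by
      intro a ha b hb hab
      rw [mem_coe, mem_filter] at ha hb
      simp only at hab
      rw [← insert_erase ha.2, ← insert_erase hb.2, hab]
    have e1 : ∑ a ∈ W.filter (fun a => q ∈ a), (∏ r ∈ a, g r) * Real.log (q.1 : ℝ) ≤
        ∑ a ∈ W.filter (fun a => q ∈ a), (∏ r ∈ a.erase q, g r) * (3 * (Real.log (q.1 : ℝ) / (q.1 : ℝ))) := by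
      refine sum_le_sum fun a ha => ?_
      rw [mem_filter] at ha
      rw [← mul_prod_erase a g ha.2]
      have h1 := Window_g3 K hK q hw
      have h2 : 0 ≤ ∏ r ∈ a.erase q, g r := prod_nonneg fun r _ => hg0 r
      calc g q * (∏ r ∈ a.erase q, g r) * Real.log (q.1 : ℝ) =
          ((∏ r ∈ a.erase q, g r) * Real.log (q.1 : ℝ)) * g q := by ring
        _ ≤ ((∏ r ∈ a.erase q, g r) * Real.log (q.1 : ℝ)) * (3 / (q.1 : ℝ)) :=
            mul_le_mul_of_nonneg_left h1 (mul_nonneg h2 (hl0 q))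
        _ = _ := by ring
    refine e1.trans ?_
    rw [← sum_image (f := fun b : Finset {p // p ∈ Qe w R e} =>
      (∏ r ∈ b, g r) * (3 * (Real.log (q.1 : ℝ) / (q.1 : ℝ)))) hinj]
    refine sum_le_sum_of_subset_of_nonneg ?_ ?_
    · intro b hb
      rw [mem_image] at hb
      obtain ⟨a, ha, rfl⟩ := hb
      rw [mem_filter] at ha
      obtain ⟨ha1, ha2⟩ := ha
      rw [hW, mem_filter] at ha1
      have hn1 : (1 : ℝ) ≤ (nrm v (a.erase q) : ℝ) := by exact_mod_cast Window_nrm hw (a.erase q)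
      have hn2 : (nrm v a : ℝ) = (q.1 : ℝ) * (nrm v (a.erase q) : ℝ) := by
        have : nrm v a = q.1 * nrm v (a.erase q) := by
          unfold nrm
          rw [← mul_prod_erase a v ha2]
          rfl
        exact_mod_cast this
      rw [hn2] at ha1
      have hq13 := (Window_q q hw).2.2.2.2.1
      rw [mem_filter, hB, mem_filter]
      refine ⟨⟨mem_univ _, ?_⟩, ?_, ?_⟩
      · have : (nrm v (a.erase q) : ℝ) ≤ (q.1 : ℝ) * (nrm v (a.erase q) : ℝ) :=
          le_mul_of_one_le_left (by linarith) (by linarith)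
        linarith [ha1.2.2]
      · rw [div_lt_iff₀ (by linarith)]
        calc U < (q.1 : ℝ) * (nrm v (a.erase q) : ℝ) * p := ha1.2.1
          _ = (q.1 : ℝ) * p * (nrm v (a.erase q) : ℝ) := by ring
      · rw [le_div_iff₀ (by linarith)]
        exact ha1.2.2
    · intro b _ _
      have hq13 := (Window_q q hw).2.2.2.2.1
      exact mul_nonneg (prod_nonneg fun r _ => hg0 r)
        (mul_nonneg (by norm_num) (div_nonneg (hl0 q) (by linarith)))
  have s4 : ∑ q, ∑ b ∈ B, (if U / nrm v b < ((q : {p // p ∈ Qe w R e}).1 : ℝ) * p ∧ (q.1 : ℝ) ≤ U / nrm v b then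
        (∏ r ∈ b, g r) * (3 * (Real.log (q.1 : ℝ) / (q.1 : ℝ))) else 0) ≤
      ∑ b ∈ B, (∏ r ∈ b, g r) * (24 * Real.log p) := by
    rw [sum_comm]
    refine sum_le_sum fun b hb => ?_
    have hn1 : (1 : ℝ) ≤ (nrm v b : ℝ) := by exact_mod_cast Window_nrm hw b
    have e1 : ∑ q : {p // p ∈ Qe w R e}, (if U / nrm v b < (q.1 : ℝ) * p ∧ (q.1 : ℝ) ≤ U / nrm v b then
        (∏ r ∈ b, g r) * (3 * (Real.log (q.1 : ℝ) / (q.1 : ℝ))) else 0) =
        (∏ r ∈ b, g r) * (3 * ∑ q : {p // p ∈ Qe w R e},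
          (if U / nrm v b < (q.1 : ℝ) * p ∧ (q.1 : ℝ) ≤ U / nrm v b then
            Real.log (q.1 : ℝ) / (q.1 : ℝ) else 0)) := by
      rw [mul_sum, mul_sum]
      refine sum_congr rfl fun q _ => ?_
      split_ifs <;> ring
    rw [e1]
    refine mul_le_mul_of_nonneg_left ?_ (prod_nonneg fun r _ => hg0 r)
    have e2 := Window_p (Qe w R e) (fun q hq => ((mem_Qe w R e q).1 hq).1) hp (Y := U / nrm v b) (by positivity)
    rw [← sum_coe_sort (Qe w R e)] at e2
    linarith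
  have s5 : ∑ b ∈ B, (∏ r ∈ b, g r) * (24 * Real.log p) = 24 * Real.log p * Window_V K w R e U := by
    unfold Window_V
    rw [mul_comm (24 * Real.log (p : ℝ)), sum_mul]
  calc Wd v g p U * L ≤ _ := s1
    _ = _ := s2
    _ ≤ _ := sum_le_sum fun q _ => s3 q
    _ ≤ _ := s4
    _ = _ := s5

end

theorem window (K : ℕ) : ∃ C : ℝ, 0 < C ∧ ∀ w R e : ℕ, 12 ≤ w → K ≤ w → ∀ p : ℕ, w < p → ∀ U : ℝ,
    Wd (vr (Qe w R e)) (fun q => xx (qr (Qe w R e)) q * (1 + K * xx (qr (Qe w R e)) q)) p U ≤ C * Real.log p / wD w := by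
  obtain ⟨CV, hCV, -, hV⟩ := V_upe
  have hCV' : (1 : ℝ) ≤ CV := by exact_mod_cast hCV
  refine ⟨48 * Real.exp 2 * CV, by positivity, fun w R e hw hK p hp U => ?_⟩
  have hwD : 0 < wD w := lt_of_lt_of_le one_pos (wD_one w)
  have hp2 : 2 ≤ p := by omega
  have hpR : (13 : ℝ) ≤ p := by
    have : 13 ≤ p := by omega
    exact_mod_cast this
  have hwp : (w : ℝ) ≤ p := by exact_mod_cast hp.le
  have hlp : 0 < Real.log p := Real.log_pos (by linarith)
  rcases lt_or_ge U 1 with hU | hU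
  · have h1 : Wd (vr (Qe w R e)) (fun q => xx (qr (Qe w R e)) q * (1 + K * xx (qr (Qe w R e)) q)) p U = 0 := by
      classical
      unfold Wd
      refine sum_eq_zero fun a ha => ?_
      rw [mem_filter] at ha
      have h2 : (1 : ℝ) ≤ (nrm (vr (Qe w R e)) a : ℝ) := by exact_mod_cast Window_nrm hw a
      linarith [ha.2.2]
    rw [h1]
    positivity
  · have hVU := Window_V_le (R := R) (e := e) K hV hw hK (U := U) (by linarith)
    rcases le_or_gt U ((p : ℝ) ^ 2) with hU2 | hU2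
    · refine (Window_Wd_le K hw p U).trans (hVU.trans ?_)
      have h1 : Real.log (max U w) ≤ 2 * Real.log p := by
        have : Real.log (max U w) ≤ Real.log ((p : ℝ) ^ 2) := by
          refine Real.log_le_log (lt_of_lt_of_le (by linarith) (le_max_left _ _)) (max_le hU2 ?_)
          nlinarith
        rw [Real.log_pow] at this
        push_cast at this
        exact this
      rw [← mul_div_assoc]
      refine div_le_div_of_nonneg_right ?_ hwD.le
      calc Real.exp 2 * (CV * Real.log (max U w)) ≤ Real.exp 2 * (CV * (2 * Real.log p)) :=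
            mul_le_mul_of_nonneg_left (mul_le_mul_of_nonneg_left h1 (by linarith)) (Real.exp_pos 2).le
        _ ≤ 48 * Real.exp 2 * CV * Real.log p := by
            have : 0 ≤ Real.exp 2 * CV * Real.log p := by positivity
            nlinarith
    · have hU0 : 0 < U := by linarith
      have hlU : 0 < Real.log U := Real.log_pos (by nlinarith)
      have hL : ∀ x : ℝ, 0 < x → U < x * p → Real.log U / 2 ≤ Real.log x := by
        intro x hx hxp
        have h1 : Real.log U ≤ Real.log x + Real.log p := by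
          rw [← Real.log_mul hx.ne' (by linarith)]
          exact Real.log_le_log hU0 hxp.le
        have h2 : 2 * Real.log p ≤ Real.log U := by
          have := Real.log_le_log (by positivity) hU2.le
          rw [Real.log_pow] at this
          push_cast at this
          exact this
        linarith
      have h1 := Window_split (R := R) (e := e) K hK hw hp2 hU0 hL
      have hmax : max U (w : ℝ) = U := max_eq_left (by nlinarith)
      rw [hmax] at hVU
      have h2 : 24 * Real.log p * Window_V K w R e U ≤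
          24 * Real.log p * (Real.exp 2 * (CV * Real.log U / wD w)) :=
        mul_le_mul_of_nonneg_left hVU (by positivity)
      have h3 := h1.trans h2
      have h4 : 24 * Real.log p * (Real.exp 2 * (CV * Real.log U / wD w)) =
          48 * Real.exp 2 * CV * Real.log p / wD w * (Real.log U / 2) := by ring
      rw [h4] at h3
      exact le_of_mul_le_mul_right h3 (by positivity)

end Pool.CP
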